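import Mathlib

/-! The Plancherel Fourier transform of an integrable square integrable function is given by the
Fourier integral, and Parseval's identity for such functions. -/

set_option autoImplicit false
open Complex Filter Topology MeasureTheory FourierTransform
open scoped InnerProductSpace SchwartzMap ENNReal ContDiff

namespace Q84.L2Fourier

variable {E : Type*} [NormedAddCommGroup E] [InnerProductSpace ℝ E] [FiniteDimensional ℝ E]
  [MeasurableSpace E] [BorelSpace E]

lemma fourier_toLp_ae (h : E → ℂ) (h1 : Integrable h) (h2 : MemLp h 2) :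
    (𝓕 (h2.toLp h : Lp (α := E) ℂ 2) : Lp (α := E) ℂ 2) =ᵐ[volume] 𝓕 h := by
  apply ae_eq_of_integral_contDiff_smul_eq
  · exact (Lp.memLp _).locallyIntegrable (by norm_num)
  · apply Continuous.locallyIntegrable
    exact VectorFourier.fourierIntegral_continuous Real.continuous_fourierChar
      (innerSL ℝ).continuous₂ h1
  · intro g g_smooth g_cpt
    have hg₁ : HasCompactSupport (Complex.ofRealCLM ∘ g) := g_cpt.comp_left rfl
    have hg₂ : ContDiff ℝ ∞ (Complex.ofRealCLM ∘ g) := by fun_prop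
    set G : 𝓢(E, ℂ) := hg₁.toSchwartzMap hg₂ with hG
    have e1 : ∫ x, g x • (𝓕 (h2.toLp h : Lp (α := E) ℂ 2) : Lp (α := E) ℂ 2) x
        = (Lp.toTemperedDistribution (𝓕 (h2.toLp h : Lp (α := E) ℂ 2) : Lp (α := E) ℂ 2)) G := by
      rw [Lp.toTemperedDistribution_apply]
      simp [hG]
    rw [e1, ← Lp.fourier_toTemperedDistribution_eq, TemperedDistribution.fourier_apply,
      Lp.toTemperedDistribution_apply]
    have e2 : ∫ x, (𝓕 G) x • (h2.toLp h : Lp (α := E) ℂ 2) x = ∫ x, (𝓕 (G : E → ℂ)) x • h x := by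
      apply integral_congr_ae
      filter_upwards [h2.coeFn_toLp] with x hx
      rw [hx]
      rfl
    rw [e2]
    have e3 : ∫ x, (𝓕 (G : E → ℂ)) x • h x = ∫ x, (G x) • (𝓕 h) x := by
      simpa using! (VectorFourier.integral_fourierIntegral_smul_eq_flip (L := innerₗ E)
        Real.continuous_fourierChar continuous_inner G.integrable h1)
    rw [e3]
    apply integral_congr_ae
    filter_upwards with x
    simp [hG]

lemma memLp_fourier (h : E → ℂ) (h1 : Integrable h) (h2 : MemLp h 2) :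
    MemLp (𝓕 h) 2 volume :=
  (memLp_congr_ae (fourier_toLp_ae h h1 h2)).1 (Lp.memLp _)

lemma parseval (f g : E → ℂ) (f1 : Integrable f) (f2 : MemLp f 2) (g1 : Integrable g)
    (g2 : MemLp g 2) :
    ∫ y, 𝓕 f y * star (𝓕 g y) = ∫ x, f x * star (g x) := by
  have h := Lp.inner_fourier_eq (g2.toLp g : Lp (α := E) ℂ 2) (f2.toLp f : Lp (α := E) ℂ 2)
  rw [L2.inner_def, L2.inner_def] at h
  have e1 : ∫ y, 𝓕 f y * star (𝓕 g y) =
      ∫ a, ⟪(𝓕 (g2.toLp g : Lp (α := E) ℂ 2) : Lp (α := E) ℂ 2) a,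
        (𝓕 (f2.toLp f : Lp (α := E) ℂ 2) : Lp (α := E) ℂ 2) a⟫_ℂ := by
    apply integral_congr_ae
    filter_upwards [fourier_toLp_ae f f1 f2, fourier_toLp_ae g g1 g2] with y h1 h2
    rw [h1, h2]
    rfl
  have e2 : ∫ x, f x * star (g x) =
      ∫ a, ⟪(g2.toLp g : Lp (α := E) ℂ 2) a, (f2.toLp f : Lp (α := E) ℂ 2) a⟫_ℂ := by
    apply integral_congr_ae
    filter_upwards [f2.coeFn_toLp, g2.coeFn_toLp] with y h1 h2
    rw [h1, h2]
    rfl
  rw [e1, e2, h]

end Q84.L2Fourier
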