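import Pool.Agent.Q84.AR9

set_option autoImplicit false

/-!
Many simultaneous primitive roots, for every large `x`.
-/

namespace Pool.Agent.Q84.AR

open Finset Pool.Agent.Y855 Pool.Agent.H442R2.KF

/-- the symbols of all the integers `n ≠ 0`, `|n| ≤ y`, modulo `p` are the values of `s` -/
def Sym (s : ℚˣ →* ℤˣ) (y p : ℕ) : Prop := ∀ n : ℤ, n ≠ 0 → n.natAbs ≤ y → jacobiSym n p = sg s n

open Classical in
theorem main4 : ∃ κ : ℕ, 3 ≤ κ ∧ ∀ B : ℕ, ∃ x₀ : ℕ, ∀ x : ℕ, x₀ ≤ x → ∀ s : ℚˣ →* ℤˣ, sg s (-3) = -1 →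
    ∀ y : ℕ, ((8 * primorial y : ℕ) : ℝ) ≤ (Real.log x) ^ B →
    ∀ H : ℕ, 1 ≤ H → (H : ℝ) ≤ Real.exp (Real.log x / (8 * κ ^ 2)) →
      (x : ℝ) / (Real.log x) ^ (B + 3) ≤
        (((Icc 1 x).filter (fun p => p.Prime ∧ Sym s y p ∧ GoodP (2 * (κ - 1)) H p)).card : ℝ) := by
  obtain ⟨κ, hκ, h⟩ := count_class
  refine ⟨κ, hκ, fun B => ?_⟩
  obtain ⟨x₀, h⟩ := h B
  refine ⟨x₀, fun x hx s hs y hy H hH1 hH => ?_⟩
  obtain ⟨c, hc1, hc2, hc3⟩ := cls_sign s hs y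
  have hm : 1 ≤ 8 * primorial y := by have := primorial_pos y; omega
  refine (h x hx (8 * primorial y) c hm hy hc1 (fun q hq hq3 => hc2 q (Nat.prime_of_mem_primeFactors hq)
    (Nat.dvd_of_mem_primeFactors hq) hq3) H hH1 hH).trans ?_
  have hsub : (Icc 1 x).filter (fun p => p.Prime ∧ p ≡ c [MOD 8 * primorial y] ∧ GoodP (2 * (κ - 1)) H p) ⊆
      (Icc 1 x).filter (fun p => p.Prime ∧ Sym s y p ∧ GoodP (2 * (κ - 1)) H p) := by
    intro p hp
    rw [mem_filter] at hp ⊢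
    obtain ⟨h1, h2, h3, h4⟩ := hp
    refine ⟨h1, h2, fun n hn hny => ?_, h4⟩
    haveI : Fact p.Prime := ⟨h2⟩
    obtain ⟨-, h5, h6, h7⟩ := hc3 p h3
    rw [← jacobiSym.legendreSym.to_jacobiSym]
    exact leg_int s y p h5 h6 h7 n hn hny
  exact_mod_cast card_le_card hsub

/-- the number of the primes `q ≤ H` that are quadratic nonresidues but not primitive roots modulo `p` is at
most `K` -/
def PrimesGood (K H p : ℕ) : Prop :=
  Set.encard {q : ℕ | q.Prime ∧ q ≤ H ∧ jacobiSym q p = -1 ∧ orderOf (q : ZMod p) ≠ p - 1} ≤ K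

theorem primesGood_of {K H p : ℕ} (hK : 1 ≤ K) (hp : p.Prime) (h : GoodP K H p) : PrimesGood (K ^ 2) H p := by
  classical
  haveI : Fact p.Prime := ⟨hp⟩
  obtain ⟨S, hS, h⟩ := h
  have hsub : {q : ℕ | q.Prime ∧ q ≤ H ∧ jacobiSym q p = -1 ∧ orderOf (q : ZMod p) ≠ p - 1} ⊆
      ⋃ i : Fin K, {q : ℕ | q.Prime ∧ (q : ℤ) ∈ S i} := by
    rintro q ⟨hq, hqH, hj, ho⟩
    by_contra hcon
    rw [Set.mem_iUnion] at hcon
    push Not at hcon
    apply ho
    have h1 := h (q : ℤ) (by exact_mod_cast hq.pos.ne') (by rw [Int.natAbs_natCast]; exact hqH) (by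
      rw [← jacobiSym.legendreSym.to_jacobiSym] at hj
      exact (legendreSym.eq_neg_one_iff p).1 hj) (fun i hi => hcon i ⟨hq, hi⟩)
    rw [Int.cast_natCast] at h1
    exact h1
  have hone : ∀ i : Fin K, {q : ℕ | q.Prime ∧ (q : ℤ) ∈ S i}.encard ≤ (K : ℕ∞) := by
    intro i
    by_contra hcon
    push Not at hcon
    obtain ⟨V, hV, hVc⟩ := Set.exists_subset_encard_eq hcon.le
    have hVfin : V.Finite := Set.finite_of_encard_eq_coe hVc
    obtain ⟨T, rfl⟩ := hVfin.exists_finset_coe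
    rw [Set.encard_coe_eq_coe_finsetCard] at hVc
    have hTc : T.card = K := by exact_mod_cast hVc
    obtain ⟨m, hm⟩ : ∃ m : Fin K → ℕ, Function.Injective m ∧ ∀ j, m j ∈ T := by
      refine ⟨fun j => (T.equivFinOfCardEq hTc).symm j, ?_, fun j => ((T.equivFinOfCardEq hTc).symm j).2⟩
      intro i j hij
      exact (T.equivFinOfCardEq hTc).symm.injective (Subtype.ext hij)
    have hmV : ∀ j, (m j).Prime ∧ (m j : ℤ) ∈ S i := fun j => hV (mem_coe.2 (hm.2 j))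
    refine hS i (fun j => (m j : ℤ)) (fun j => (hmV j).2) fun e he j => ?_
    have hu : ∀ j, ∃ u : ℚˣ, (u : ℚ) = ((m j : ℤ) : ℚ) := fun j =>
      sg_ex (m j : ℤ) (by exact_mod_cast (hmV j).1.pos.ne')
    choose b hb using hu
    refine ind_cop b (fun j => (m j : ℤ)) hb (fun j => by
      rw [Int.natAbs_natCast]; exact (hmV j).1.two_le) (fun i j hij => ?_) e ?_ j
    · rw [Nat.isCoprime_iff_coprime]
      exact (Nat.coprime_primes (hmV i).1 (hmV j).1).2 fun h => hij (hm.1 h)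
    · apply Units.ext
      rw [Units.val_one, ← he]
      push_cast
      refine Finset.prod_congr rfl fun j _ => ?_
      rw [hb j]
      push_cast
      rfl
  unfold PrimesGood
  refine (Set.encard_le_encard hsub).trans ((Set.encard_iUnion_le_of_fintype _).trans
    ((Finset.sum_le_sum fun i _ => hone i).trans ?_))
  simp only [sum_const, card_univ, Fintype.card_fin, nsmul_eq_mul]
  rw [pow_two]
  exact_mod_cast le_refl _

/-- the homomorphism with the value `-1` at all primes and `1` at `-1` -/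
theorem hom_all : ∃ s : ℚˣ →* ℤˣ, sg s (-3) = -1 ∧ ∀ q : ℕ, q.Prime → sg s q = -1 := by
  obtain ⟨s₁, h₁⟩ := hom_ex (fun _ => -1)
  obtain ⟨s₂, h₂⟩ := hom_ex (fun _ => 1)
  have h1 : ∀ n : ℕ, cm (fun _ => 1) n = 1 := by
    intro n
    unfold cm Finsupp.prod
    simp
  have h2 : ∀ q : ℕ, q.Prime → cm (fun _ => -1) q = -1 := by
    intro q hq
    unfold cm
    rw [Nat.Prime.factorization hq, Finsupp.prod_single_index (h := fun _ e => (-1 : ℤˣ) ^ e) (pow_zero _),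
      pow_one]
  refine ⟨s₁ * s₂, ?_, ?_⟩
  · obtain ⟨u, hu⟩ := sg_ex (-3) (by norm_num)
    rw [sg_of _ (-3) u hu, MonoidHom.mul_apply, h₁ u (-3) hu, h₂ u (-3) hu, h1]
    have h3 : (-3 : ℤ).natAbs = 3 := rfl
    rw [h3, h2 3 Nat.prime_three, if_neg (by norm_num)]
    rfl
  · intro q hq
    obtain ⟨u, hu⟩ := sg_ex (q : ℤ) (by exact_mod_cast hq.pos.ne')
    rw [sg_of _ (q : ℤ) u hu, MonoidHom.mul_apply, h₁ u q hu, h₂ u q hu, h1]
    rw [Int.natAbs_natCast, h2 q hq, if_pos (by exact_mod_cast hq.pos)]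
    rfl

open Classical in
theorem main5 (κ : ℕ) (hκ : 3 ≤ κ) (h : ∀ B : ℕ, ∃ x₀ : ℕ, ∀ x : ℕ, x₀ ≤ x → ∀ s : ℚˣ →* ℤˣ,
    sg s (-3) = -1 →
    ∀ y : ℕ, ((8 * primorial y : ℕ) : ℝ) ≤ (Real.log x) ^ B →
    ∀ H : ℕ, 1 ≤ H → (H : ℝ) ≤ Real.exp (Real.log x / (8 * κ ^ 2)) →
      (x : ℝ) / (Real.log x) ^ (B + 3) ≤
        (((Icc 1 x).filter (fun p => p.Prime ∧ Sym s y p ∧ GoodP (2 * (κ - 1)) H p)).card : ℝ)) :
    ∀ C : ℝ, 0 ≤ C → ∃ B x₀ : ℕ, ∀ x : ℕ, x₀ ≤ x →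
    ∀ H : ℕ, 1 ≤ H → (H : ℝ) ≤ Real.exp (Real.log x / (8 * κ ^ 2)) →
      (x : ℝ) / (Real.log x) ^ B ≤
        (((Icc 1 x).filter (fun p => p.Prime ∧
          (∀ q : ℕ, q.Prime → (q : ℝ) ≤ C * Real.log (Real.log x) → jacobiSym q p = -1) ∧
          PrimesGood ((2 * (κ - 1)) ^ 2) H p)).card : ℝ) := by
  obtain ⟨s, hs, hsq⟩ := hom_all
  intro C hC
  obtain ⟨B, hB⟩ : ∃ B : ℕ, B = ⌈2 * C⌉₊ + 1 := ⟨_, rfl⟩
  obtain ⟨x₀, h⟩ := h B
  refine ⟨B + 3, max x₀ ⌈Real.exp 8⌉₊, fun x hx H hH1 hH => ?_⟩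
  have hx8 : Real.exp 8 ≤ x := by
    have h1 := Nat.le_ceil (Real.exp 8)
    have h2 : ((⌈Real.exp 8⌉₊ : ℕ) : ℝ) ≤ x := by exact_mod_cast (le_max_right _ _).trans hx
    linarith
  have hx0 : (0 : ℝ) < x := lt_of_lt_of_le (Real.exp_pos _) hx8
  have hL8 : 8 ≤ Real.log x := (Real.le_log_iff_exp_le hx0).2 hx8
  have hLL : 0 ≤ Real.log (Real.log x) := Real.log_nonneg (by linarith)
  obtain ⟨y, hy⟩ : ∃ y : ℕ, y = ⌊C * Real.log (Real.log x)⌋₊ := ⟨_, rfl⟩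
  have hyle : (y : ℝ) ≤ C * Real.log (Real.log x) := by
    rw [hy]; exact Nat.floor_le (by positivity)
  refine (h x ((le_max_left _ _).trans hx) s hs y ?_ H hH1 hH).trans ?_
  · push_cast
    have h1 : ((primorial y : ℕ) : ℝ) ≤ (4 : ℝ) ^ y := by exact_mod_cast primorial_le_four_pow y
    have h4 : Real.log 4 ≤ 2 := by
      have : (4 : ℝ) = 2 ^ 2 := by norm_num
      rw [this, Real.log_pow]
      have := Real.log_two_lt_d9
      push_cast
      linarith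
    have h2 : (4 : ℝ) ^ y ≤ (Real.log x) ^ ⌈2 * C⌉₊ := by
      have e1 : (4 : ℝ) ^ y = Real.exp (y * Real.log 4) := by
        rw [mul_comm, Real.exp_mul, Real.exp_log (by norm_num), Real.rpow_natCast]
      have e2 : (Real.log x) ^ ⌈2 * C⌉₊ = Real.exp (⌈2 * C⌉₊ * Real.log (Real.log x)) := by
        rw [Real.exp_nat_mul, Real.exp_log (by linarith)]
      rw [e1, e2]
      apply Real.exp_le_exp.2
      have h5 := Nat.le_ceil (2 * C)
      calc (y : ℝ) * Real.log 4 ≤ (C * Real.log (Real.log x)) * 2 := by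
            apply mul_le_mul hyle h4 (Real.log_nonneg (by norm_num)) (by positivity)
        _ = 2 * C * Real.log (Real.log x) := by ring
        _ ≤ _ := mul_le_mul_of_nonneg_right h5 hLL
    calc 8 * ((primorial y : ℕ) : ℝ) ≤ Real.log x * (Real.log x) ^ ⌈2 * C⌉₊ :=
          mul_le_mul hL8 (h1.trans h2) (by positivity) (by linarith)
      _ = _ := by rw [hB, pow_succ]; ring
  · have hsub : (Icc 1 x).filter (fun p => p.Prime ∧ Sym s y p ∧ GoodP (2 * (κ - 1)) H p) ⊆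
        (Icc 1 x).filter (fun p => p.Prime ∧
          (∀ q : ℕ, q.Prime → (q : ℝ) ≤ C * Real.log (Real.log x) → jacobiSym q p = -1) ∧
          PrimesGood ((2 * (κ - 1)) ^ 2) H p) := by
      intro p hp
      rw [mem_filter] at hp ⊢
      obtain ⟨h1, h2, h3, h4⟩ := hp
      refine ⟨h1, h2, fun q hq hqC => ?_, primesGood_of (by omega) h2 h4⟩
      rw [h3 (q : ℤ) (by exact_mod_cast hq.pos.ne') (by
        rw [Int.natAbs_natCast, hy]
        exact Nat.le_floor hqC)]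
      exact hsq q hq
    exact_mod_cast card_le_card hsub

end Pool.Agent.Q84.AR
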