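import Pool.Agent.Q84.AR10

set_option autoImplicit false

namespace Pool.Agent.Q84.AR

open Finset Pool.Agent.Y855 Pool.Agent.H442R2.KF

lemma floor_pow (κ : ℕ) (x : ℕ) (hx : 1 ≤ x) :
    1 ≤ ⌊(x : ℝ) ^ (1 / (8 * (κ : ℝ) ^ 2))⌋₊ ∧
    ((⌊(x : ℝ) ^ (1 / (8 * (κ : ℝ) ^ 2))⌋₊ : ℕ) : ℝ) ≤ Real.exp (Real.log x / (8 * κ ^ 2)) := by
  have hx1 : (1 : ℝ) ≤ x := by exact_mod_cast hx
  have h1 : (1 : ℝ) ≤ (x : ℝ) ^ (1 / (8 * (κ : ℝ) ^ 2)) := Real.one_le_rpow hx1 (by positivity)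
  refine ⟨Nat.le_floor (by push_cast; exact h1), ?_⟩
  refine (Nat.floor_le (by linarith)).trans (le_of_eq ?_)
  rw [Real.rpow_def_of_pos (by linarith)]
  congr 1
  ring

lemma RkZ.le {K K' : ℕ} (h : K ≤ K') {A : Set ℤ} (hA : RkZ K A) : RkZ K' A := by
  intro b hb hind
  refine hA (fun j => b (Fin.castLE h j)) (fun j => hb _) fun e he j => ?_
  have h1 := hind (fun i => if hi : (i : ℕ) < K then e ⟨i, hi⟩ else 0) ?_ (Fin.castLE h j)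
  · simpa using h1
  · rw [← he]
    symm
    refine Fintype.prod_of_injective (Fin.castLE h) (Fin.castLE_injective h) _ _ (fun i hi => ?_) (fun j => ?_)
    · have h2 : ¬ (i : ℕ) < K := fun hlt => hi ⟨⟨i, hlt⟩, rfl⟩
      rw [dif_neg h2, zpow_zero]
    · simp

lemma GoodP.le {K K' H p : ℕ} (h1 : 1 ≤ K) (h : K ≤ K') (hg : GoodP K H p) : GoodP K' H p := by
  obtain ⟨S, hS, hg⟩ := hg
  refine ⟨fun i => if hi : (i : ℕ) < K then S ⟨i, hi⟩ else S ⟨0, h1⟩, fun i => ?_, ?_⟩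
  · dsimp only
    split_ifs with hi
    · exact (hS _).le h
    · exact (hS _).le h
  · intro n hn0 hnH hsq hnS
    refine hg n hn0 hnH hsq fun i => ?_
    have h2 := hnS (Fin.castLE h i)
    simpa using h2

open Classical in
theorem main45 : ∃ κ : ℕ, 3 ≤ κ ∧
    ((∀ C : ℝ, 0 ≤ C → ∃ B x₀ : ℕ, ∀ x : ℕ, x₀ ≤ x →
      (x : ℝ) / (Real.log x) ^ B ≤ (((Icc 1 x).filter (fun p => p.Prime ∧
        (∀ q : ℕ, q.Prime → (q : ℝ) ≤ C * Real.log (Real.log x) → jacobiSym q p = -1) ∧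
        PrimesGood ((2 * (κ - 1)) ^ 2) ⌊(x : ℝ) ^ (1 / (8 * (κ : ℝ) ^ 2))⌋₊ p)).card : ℝ)) ∧
    (∀ B : ℕ, ∃ x₀ : ℕ, ∀ x : ℕ, x₀ ≤ x → ∀ s : ℚˣ →* ℤˣ, (∀ u : ℚˣ, (u : ℚ) = -3 → s u = -1) →
      ∀ y : ℕ, ((8 * primorial y : ℕ) : ℝ) ≤ (Real.log x) ^ B →
      (x : ℝ) / (Real.log x) ^ (B + 3) ≤ (((Icc 1 x).filter (fun p => p.Prime ∧
        (∀ (n : ℤ) (u : ℚˣ), n.natAbs ≤ y → (u : ℚ) = n → jacobiSym n p = ((s u : ℤˣ) : ℤ)) ∧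
        GoodP ((2 * (κ - 1)) ^ 2) ⌊(x : ℝ) ^ (1 / (8 * (κ : ℝ) ^ 2))⌋₊ p)).card : ℝ))) := by
  obtain ⟨κ, hκ, hm4⟩ := main4
  refine ⟨κ, hκ, fun C hC => ?_, fun B => ?_⟩
  · obtain ⟨B, x₀, h⟩ := main5 κ hκ hm4 C hC
    refine ⟨B, max x₀ 1, fun x hx => ?_⟩
    obtain ⟨hH1, hH⟩ := floor_pow κ x ((le_max_right _ _).trans hx)
    exact h x ((le_max_left _ _).trans hx) _ hH1 hH
  obtain ⟨x₀, h⟩ := hm4 B
  refine ⟨max x₀ 1, fun x hx s hs y hy => ?_⟩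
  have hx1 : 1 ≤ x := (le_max_right _ _).trans hx
  obtain ⟨hH1, hH⟩ := floor_pow κ x hx1
  obtain ⟨u3, hu3⟩ := sg_ex (-3) (by norm_num)
  have hs3 : sg s (-3) = -1 := by
    rw [sg_of _ (-3) u3 hu3, hs u3 (by rw [hu3]; norm_num)]
    rfl
  refine (h x ((le_max_left _ _).trans hx) s hs3 y hy _ hH1 hH).trans ?_
  have hsub : (Icc 1 x).filter (fun p => p.Prime ∧ Sym s y p ∧
        GoodP (2 * (κ - 1)) ⌊(x : ℝ) ^ (1 / (8 * (κ : ℝ) ^ 2))⌋₊ p) ⊆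
      (Icc 1 x).filter (fun p => p.Prime ∧
        (∀ (n : ℤ) (u : ℚˣ), n.natAbs ≤ y → (u : ℚ) = n → jacobiSym n p = ((s u : ℤˣ) : ℤ)) ∧
        GoodP ((2 * (κ - 1)) ^ 2) ⌊(x : ℝ) ^ (1 / (8 * (κ : ℝ) ^ 2))⌋₊ p) := by
    intro p hp
    rw [mem_filter] at hp ⊢
    obtain ⟨h1, h2, h3, h4⟩ := hp
    refine ⟨h1, h2, fun n u hn hu => ?_, h4.le (by omega) ?_⟩
    · have hn0 : n ≠ 0 := by
        intro h0
        apply u.ne_zero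
        rw [hu, h0]
        norm_num
      rw [h3 n hn0 hn, sg_of _ n u hu]
    · rw [pow_two]
      exact Nat.le_mul_of_pos_left _ (by omega)
  exact_mod_cast card_le_card hsub

end Pool.Agent.Q84.AR
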