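import Pool.Agent.Y855.B20
import Pool.Agent.Q84.AR1

set_option autoImplicit false

/-!
Traces of the groups of `l`-th powers modulo `p` on finite sets of rational numbers, along narrow
arithmetic progressions of primes.
-/

namespace Pool.Agent.Q84.AR

open Finset Filter Pool.Agent.Y855

/-- the set `A` does not contain `K` multiplicatively independent rational numbers -/
def RankLt (K : ℕ) (A : Set ℚˣ) : Prop :=
  ∀ b : Fin K → ℚˣ, (∀ j, b j ∈ A) → ¬ ∀ e : Fin K → ℤ, ∏ j, b j ^ e j = 1 → ∀ j, e j = 0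

lemma RankLt.mono {K : ℕ} {A A' : Set ℚˣ} (h : RankLt K A) (hA : A' ⊆ A) : RankLt K A' :=
  fun b hb => h b fun j => hA (hb j)

lemma ind_of {K : ℕ} (b : Fin K → ℚˣ) (h : ∀ e : Fin K → ℤ, ∏ j, b j ^ e j = 1 → ∀ j, e j = 0) :
    Ind (fun j => ((b j : ℚˣ) : ℚ)) := by
  intro e he
  apply h e
  apply Units.ext
  rw [Units.val_one, ← he]
  push_cast
  rfl

lemma units_H (U : Finset ℚˣ) : ∃ H : ℕ, ∀ p : ℕ, ∀ hp : p.Prime, H < p → ∀ u ∈ U, u ∈ Qs p hp 0 := by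
  obtain ⟨H, hH⟩ := fg_units (Subgroup.closure (U : Set ℚˣ)) ⟨U, rfl⟩
  exact ⟨H, fun p hp hpH u hu => hH p hp hpH (Subgroup.subset_closure hu)⟩

open Classical in
/-- for most primes of the sifted set all the traces have rank less than `K` -/
theorem gm_U (K : ℕ) (hK : 1 ≤ K) (U : Finset ℚˣ) : ∃ (C₁ : ℝ) (H : ℕ), ∀ t : ℕ, 1 ≤ t →
    ∃ B : Finset ℕ,
      (B.card : ℝ) ≤ C₁ * Real.exp ((1 - (1 / (K : ℝ)) ^ 2) * Real.log ((2 : ℝ) ^ (K * t))) ∧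
      ∀ p ∈ TT (2 ^ (K * t)) (2 ^ t), p ∉ B → H < p → (LF (2 ^ t) p).card ≤ K ∧
        ∀ hp : p.Prime, ∀ l : ℕ, l.Prime → 3 ≤ l → l ∣ p - 1 → l ∈ LF (2 ^ t) p ∧
          RankLt K {u : ℚˣ | u ∈ U ∧ u ∈ Qs p hp ((p - 1) / l)} := by
  have hK0 : (0 : ℝ) < K := by exact_mod_cast hK
  have hK1 : (1 : ℝ) ≤ K := by exact_mod_cast hK
  obtain ⟨T, hT⟩ : ∃ T : Finset (Fin K → ℚˣ), T = Fintype.piFinset (fun _ => U) := ⟨_, rfl⟩
  have hJ : ∀ b : Fin K → ℚˣ, ∃ (C : ℝ) (H : ℕ), 0 < C ∧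
      ((∀ e : Fin K → ℤ, ∏ j, b j ^ e j = 1 → ∀ j, e j = 0) → ∀ L : ℝ, 0 ≤ L → ∃ B : Finset ℕ,
      (#B : ℝ) ≤ C * Real.exp ((1 - (1 / (K : ℝ)) ^ 2) * L) ∧
      ∀ p : ℕ, p.Prime → H < p → p ∉ B → ∀ g : ℕ, 0 < g →
        (g : ℝ) ≤ Real.exp ((1 - (1 / (K : ℝ))) * L) →
        ¬ ∀ i, (((b i : ℚ).num : ℤ) : ZMod p) ^ g = (((b i : ℚ).den : ℕ) : ZMod p) ^ g) := by
    intro b
    by_cases hb : ∀ e : Fin K → ℤ, ∏ j, b j ^ e j = 1 → ∀ j, e j = 0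
    · obtain ⟨C, H, hC, hgm⟩ := gm_exp hK (fun j => ((b j : ℚˣ) : ℚ)) (fun j => (b j).ne_zero)
        (ind_of b hb) (1 / (K : ℝ)) (by positivity)
        (by rw [div_le_one hK0]; exact hK1) (by rw [one_div_mul_cancel hK0.ne'])
      exact ⟨C, H, hC, fun _ => hgm⟩
    · exact ⟨1, 0, one_pos, fun h => absurd h hb⟩
  choose C HJ hC hJ using hJ
  refine ⟨∑ b ∈ T, C b, ∑ b ∈ T, HJ b, fun t ht => ?_⟩
  have ht0 : (0 : ℝ) < t := by exact_mod_cast ht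
  have hlog2 : 0 < Real.log 2 := Real.log_pos (by norm_num)
  have hLx : Real.log ((2 : ℝ) ^ (K * t)) = K * t * Real.log 2 := by
    rw [Real.log_pow]; push_cast; ring
  have hL0 : 0 ≤ Real.log ((2 : ℝ) ^ (K * t)) := by rw [hLx]; positivity
  have hBJ : ∀ b : Fin K → ℚˣ, ∃ B : Finset ℕ,
      (∀ e : Fin K → ℤ, ∏ j, b j ^ e j = 1 → ∀ j, e j = 0) →
      (#B : ℝ) ≤ C b * Real.exp ((1 - (1 / (K : ℝ)) ^ 2) * Real.log ((2 : ℝ) ^ (K * t))) ∧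
      ∀ p : ℕ, p.Prime → HJ b < p → p ∉ B → ∀ g : ℕ, 0 < g →
        (g : ℝ) ≤ Real.exp ((1 - (1 / (K : ℝ))) * Real.log ((2 : ℝ) ^ (K * t))) →
        ¬ ∀ i, (((b i : ℚ).num : ℤ) : ZMod p) ^ g = (((b i : ℚ).den : ℕ) : ZMod p) ^ g := by
    intro b
    by_cases hb : ∀ e : Fin K → ℤ, ∏ j, b j ^ e j = 1 → ∀ j, e j = 0
    · obtain ⟨B, hB⟩ := hJ b hb _ hL0
      exact ⟨B, fun _ => hB⟩
    · exact ⟨∅, fun h => absurd h hb⟩
  choose BJ hBJ using hBJ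
  obtain ⟨T', hT'⟩ : ∃ T' : Finset (Fin K → ℚˣ), T' = T.filter
    (fun b => ∀ e : Fin K → ℤ, ∏ j, b j ^ e j = 1 → ∀ j, e j = 0) := ⟨_, rfl⟩
  have hT'T : T' ⊆ T := by rw [hT']; exact filter_subset _ _
  refine ⟨T'.biUnion BJ, ?_, ?_⟩
  · have h1 : ((T'.biUnion BJ).card : ℝ) ≤ ∑ b ∈ T', ((BJ b).card : ℝ) := by
      exact_mod_cast card_biUnion_le
    refine h1.trans ?_
    calc ∑ b ∈ T', ((BJ b).card : ℝ) ≤
        ∑ b ∈ T', C b * Real.exp ((1 - (1 / (K : ℝ)) ^ 2) * Real.log ((2 : ℝ) ^ (K * t))) := by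
          apply sum_le_sum
          intro b hb
          rw [hT', mem_filter] at hb
          exact (hBJ b hb.2).1
      _ = (∑ b ∈ T', C b) * Real.exp ((1 - (1 / (K : ℝ)) ^ 2) * Real.log ((2 : ℝ) ^ (K * t))) := by
          rw [sum_mul]
      _ ≤ _ := by
          apply mul_le_mul_of_nonneg_right _ (Real.exp_nonneg _)
          exact sum_le_sum_of_subset_of_nonneg hT'T fun b _ _ => (hC b).le
  · intro p hp hpB hpH
    have hz2 : 2 ≤ 2 ^ t := by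
      calc 2 = 2 ^ 1 := rfl
        _ ≤ 2 ^ t := Nat.pow_le_pow_right (by norm_num) ht
    have hLF := LF_card (2 ^ (K * t)) (2 ^ t) p hz2 hp
    have hLFK : (LF (2 ^ t) p).card ≤ K := by
      have h1 : Real.log ((2 ^ (K * t) : ℕ) : ℝ) / Real.log ((2 ^ t : ℕ) : ℝ) = K := by
        push_cast
        rw [hLx, Real.log_pow]
        field_simp
      rw [h1] at hLF
      exact_mod_cast hLF
    have hp' := hp
    unfold TT at hp'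
    rw [mem_filter, mem_Icc] at hp'
    obtain ⟨⟨hp1, hpx⟩, hpp, hpq⟩ := hp'
    have hp10 : 0 < p - 1 := by have := hpp.two_le; omega
    refine ⟨hLFK, fun hp l hl hl3 hlp => ?_⟩
    have hlz : 2 ^ t < l := by
      by_contra hcon
      exact hpq l (mem_OP.2 ⟨hl, hl3, not_lt.1 hcon⟩) hlp
    refine ⟨?_, ?_⟩
    · unfold LF
      rw [mem_filter, Nat.mem_primeFactors]
      exact ⟨⟨hl, hlp, by omega⟩, hlz⟩
    · intro b hb hind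
      have hbT : b ∈ T' := by
        rw [hT', mem_filter, hT, Fintype.mem_piFinset]
        exact ⟨fun j => (hb j).1, hind⟩
      refine (hBJ b hind).2 p hpp ?_ (fun h1 => hpB (mem_biUnion.2 ⟨b, hbT, h1⟩)) ((p - 1) / l)
        (Nat.div_pos (Nat.le_of_dvd hp10 hlp) hl.pos) ?_ ?_
      · have := Finset.single_le_sum (f := HJ) (fun j _ => Nat.zero_le _) (hT'T hbT)
        omega
      · have hl0 : (0 : ℝ) < l := by exact_mod_cast hl.pos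
        have e1 : (((p - 1) / l : ℕ) : ℝ) ≤ (2 : ℝ) ^ (K * t) / 2 ^ t := by
          refine Nat.cast_div_le.trans ?_
          have e2 : ((p - 1 : ℕ) : ℝ) ≤ (2 : ℝ) ^ (K * t) := by
            have : p - 1 ≤ 2 ^ (K * t) := by omega
            exact_mod_cast this
          have e3 : (2 : ℝ) ^ t ≤ l := by exact_mod_cast hlz.le
          gcongr
        refine e1.trans (le_of_eq ?_)
        have e4 : Real.exp (Real.log ((2 : ℝ) ^ (K * t))) = (2 : ℝ) ^ (K * t) :=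
          Real.exp_log (by positivity)
        have e5 : Real.exp (Real.log ((2 : ℝ) ^ t)) = (2 : ℝ) ^ t := Real.exp_log (by positivity)
        rw [sub_mul, one_mul, Real.exp_sub, e4]
        congr 1
        rw [← e5]
        congr 1
        rw [hLx, Real.log_pow]
        field_simp
      · intro i
        exact ((Qs_mem p hp _ _).1 (hb i).2).2

/-- all the traces at `p` are contained in members of the family `𝒜` -/
def Cov {K : ℕ} (U : Finset ℚˣ) (𝒜 : Fin K → Finset ℚˣ) (p : ℕ) : Prop :=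
  ∃ hp : p.Prime, (∀ u ∈ U, u ∈ Qs p hp 0) ∧ ∀ l : ℕ, l.Prime → 3 ≤ l → l ∣ p - 1 →
    ∃ i, ∀ u ∈ U, u ∈ Qs p hp ((p - 1) / l) → u ∈ 𝒜 i

/-- `𝒜 i` is the trace of a group and of rank less than `K` -/
def Tr {K : ℕ} (U : Finset ℚˣ) (𝒜 : Fin K → Finset ℚˣ) : Prop :=
  ∀ i, RankLt K (𝒜 i : Set ℚˣ) ∧ ∃ Γ : Subgroup ℚˣ, ∀ u, u ∈ 𝒜 i ↔ u ∈ U ∧ u ∈ Γ

open Classical in
theorem cov_ex {K : ℕ} (hK : 1 ≤ K) (U : Finset ℚˣ) (p : ℕ) (hp : p.Prime)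
    (hU : ∀ u ∈ U, u ∈ Qs p hp 0) (Λ : Finset ℕ) (hΛ : Λ.card ≤ K)
    (h : ∀ l : ℕ, l.Prime → 3 ≤ l → l ∣ p - 1 → l ∈ Λ ∧
      RankLt K {u : ℚˣ | u ∈ U ∧ u ∈ Qs p hp ((p - 1) / l)}) :
    ∃ 𝒜 : Fin K → Finset ℚˣ, Tr U 𝒜 ∧ Cov U 𝒜 p := by
  -- an enumeration of `Λ`
  obtain ⟨f, hf⟩ : ∃ f : Fin K → ℕ, ∀ l ∈ Λ, ∃ i, f i = l := by
    refine ⟨fun i => if h : (i : ℕ) < Λ.card then Λ.equivFin.symm ⟨i, h⟩ else 0, fun l hl => ?_⟩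
    obtain ⟨j, hj⟩ : ∃ j, Λ.equivFin.symm j = ⟨l, hl⟩ := Λ.equivFin.symm.surjective _
    refine ⟨⟨j, j.2.trans_le hΛ⟩, ?_⟩
    simp only [j.2, dif_pos]
    rw [Fin.eta, hj]
  obtain ⟨Γ, hΓ⟩ : ∃ Γ : Fin K → Subgroup ℚˣ, ∀ i, Γ i =
      if ((f i).Prime ∧ 3 ≤ f i ∧ f i ∣ p - 1) then Qs p hp ((p - 1) / f i) else ⊥ := ⟨_, fun i => rfl⟩
  refine ⟨fun i => U.filter (fun u => u ∈ Γ i), fun i => ⟨?_, Γ i, fun u => mem_filter⟩, hp, hU, ?_⟩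
  · by_cases hi : (f i).Prime ∧ 3 ≤ f i ∧ f i ∣ p - 1
    · refine ((h (f i) hi.1 hi.2.1 hi.2.2).2).mono ?_
      intro u hu
      rw [mem_coe, mem_filter, hΓ, if_pos hi] at hu
      exact hu
    · intro b hb hind
      have h1 : ∀ j, b j = 1 := by
        intro j
        have := hb j
        rw [mem_coe, mem_filter, hΓ, if_neg hi, Subgroup.mem_bot] at this
        exact this.2
      have h2 := hind (fun _ => 1) (by simp [h1]) ⟨0, by omega⟩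
      exact one_ne_zero h2
  · intro l hl hl3 hlp
    obtain ⟨i, hi⟩ := hf l (h l hl hl3 hlp).1
    refine ⟨i, fun u hu hul => ?_⟩
    rw [mem_filter]
    refine ⟨hu, ?_⟩
    rw [hΓ, if_pos (by rw [hi]; exact ⟨hl, hl3, hlp⟩), hi]
    exact hul

open Classical in
/-- **The finite step.** -/
theorem fin_step : ∃ K : ℕ, 2 ≤ K ∧ ∀ (k : ℕ) (U : Finset ℚˣ), 2 ≤ k → ∃ D : ℕ,
    ∀ (w₀ y₀ : ℕ), 1 ≤ w₀ → 2 ∣ w₀ → ∀ Good : ℕ → Prop,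
    (∀ y : ℕ, y₀ ≤ y → 2 ≤ y → ∃ c : ℕ, c.Coprime (w₀ * primorial y) ∧
      (∀ q : ℕ, q.Prime → q ∣ w₀ * primorial y → 3 ≤ q → c % q ≠ 1) ∧
      ∀ p : ℕ, p ≡ c [MOD w₀ * primorial y] → Good p) →
    ∀ A : ℕ, ∃ 𝒜 : Fin K → Finset ℚˣ, (Tr U 𝒜 ∧ ∀ i, 𝒜 i ⊆ U) ∧ ∃ a d : ℕ, A ≤ a ∧ 0 < d ∧
      (d : ℝ) ≤ Real.log a ^ D ∧ ∀ j < k, A < a + j * d ∧ Good (a + j * d) ∧ Cov U 𝒜 (a + j * d) := by
  obtain ⟨K, hK2, hAP⟩ := AP_pig
  refine ⟨K, hK2, fun k U hk => ?_⟩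
  obtain ⟨I, hI⟩ : ∃ I : Finset (Fin K → Finset ℚˣ), I = (Fintype.piFinset (fun _ => U.powerset)).filter
    (fun 𝒜 => Tr U 𝒜) := ⟨_, rfl⟩
  obtain ⟨D, hAP⟩ := hAP k (I.card + 1) hk (by omega)
  obtain ⟨H₀, hH₀⟩ := units_H U
  obtain ⟨C₁, H₁, hgm⟩ := gm_U K (by omega) U
  refine ⟨D, fun w₀ y₀ hw₀ h2 Good hGood A => ?_⟩
  obtain ⟨𝒜, h𝒜, a, d, hAa, hd0, hdD, had⟩ := hAP (Fin K → Finset ℚˣ) I (fun 𝒜 p => Cov U 𝒜 p)
    (Nat.le_succ _) C₁ (H₀ + H₁ + A) w₀ y₀ hw₀ h2 (by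
      intro t ht
      obtain ⟨B, hB1, hB2⟩ := hgm t ht
      refine ⟨B, hB1, fun p hp hpB hpH => ?_⟩
      obtain ⟨h1, h3⟩ := hB2 p hp hpB (by omega)
      have hpp : p.Prime := by
        unfold TT at hp
        rw [mem_filter] at hp
        exact hp.2.1
      obtain ⟨𝒜, h4, h5⟩ := cov_ex (by omega : 1 ≤ K) U p hpp (hH₀ p hpp (by omega)) (LF (2 ^ t) p) h1
        (h3 hpp)
      refine ⟨𝒜, ?_, h5⟩
      rw [hI, mem_filter, Fintype.mem_piFinset]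
      refine ⟨fun i => ?_, h4⟩
      rw [mem_powerset]
      intro u hu
      obtain ⟨-, Γ, hΓ⟩ := h4 i
      exact ((hΓ u).1 hu).1) Good hGood A
  rw [hI, mem_filter, Fintype.mem_piFinset] at h𝒜
  refine ⟨𝒜, ⟨h𝒜.2, fun i => mem_powerset.1 (h𝒜.1 i)⟩, a, d, hAa, hd0, hdD, fun j hj => ?_⟩
  obtain ⟨h1, h3, h4, h5⟩ := had j hj
  exact ⟨by omega, h4, h5⟩

end Pool.Agent.Q84.AR
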