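import Pool.Agent.Q84.AR2

set_option autoImplicit false

/-!
Compactness: `K` groups of rational numbers of rank less than `K` which contain the traces of the groups
of `l`-th powers modulo all the primes of suitable narrow arithmetic progressions.
-/

namespace Pool.Agent.Q84.AR

open Finset Filter Pool.Agent.Y855

/-- admissible classes of primes for the condition `Good` -/
def Cls (Good : ℕ → Prop) : Prop := ∃ w₀ y₀ : ℕ, 1 ≤ w₀ ∧ 2 ∣ w₀ ∧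
  ∀ y : ℕ, y₀ ≤ y → 2 ≤ y → ∃ c : ℕ, c.Coprime (w₀ * primorial y) ∧
      (∀ q : ℕ, q.Prime → q ∣ w₀ * primorial y → 3 ≤ q → c % q ≠ 1) ∧
      ∀ p : ℕ, p ≡ c [MOD w₀ * primorial y] → Good p

/-- **The engine.** -/
theorem engine : ∃ K : ℕ, 2 ≤ K ∧ ∀ Good : Finset ℚˣ → ℕ → Prop,
    (∀ U U' : Finset ℚˣ, U' ⊆ U → ∀ p, Good U p → Good U' p) → (∀ U, Cls (Good U)) →
    ∃ G : Fin K → Subgroup ℚˣ, (∀ i, RankLt K (G i : Set ℚˣ)) ∧ ∀ (U : Finset ℚˣ) (k : ℕ), ∃ D : ℕ,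
      ∀ A : ℕ, ∃ a d : ℕ, A ≤ a ∧ 0 < d ∧ (d : ℝ) ≤ Real.log a ^ D ∧ ∀ j < k, A < a + j * d ∧
        Good U (a + j * d) ∧ ∃ hp : (a + j * d).Prime, (∀ u ∈ U, u ∈ Qs (a + j * d) hp 0) ∧
        ∀ l : ℕ, l.Prime → 3 ≤ l → l ∣ a + j * d - 1 →
          ∃ i, ∀ u ∈ U, u ∈ Qs (a + j * d) hp ((a + j * d - 1) / l) → u ∈ G i := by
  classical
  obtain ⟨K, hK2, hF⟩ := fin_step
  refine ⟨K, hK2, fun Good hmono hcls => ?_⟩
  have : Countable ℚˣ := Function.Injective.countable (f := fun u : ℚˣ => (u : ℚ)) fun _ _ h => Units.ext h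
  obtain ⟨e, he⟩ := exists_surjective_nat ℚˣ
  obtain ⟨V, hV⟩ : ∃ V : ℕ → Finset ℚˣ, ∀ n, V n = (range n).image e := ⟨_, fun _ => rfl⟩
  -- the choice of the families
  have hch : ∀ n : ℕ, ∃ (D : ℕ) (𝒜 : Fin K → Finset ℚˣ), (Tr (V n) 𝒜 ∧ ∀ i, 𝒜 i ⊆ V n) ∧
      ∀ A : ℕ, ∃ a d : ℕ, A ≤ a ∧ 0 < d ∧ (d : ℝ) ≤ Real.log a ^ D ∧
        ∀ j < n + 2, A < a + j * d ∧ Good (V n) (a + j * d) ∧ Cov (V n) 𝒜 (a + j * d) := by
    intro n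
    obtain ⟨D, hD⟩ := hF (n + 2) (V n) (by omega)
    obtain ⟨w₀, y₀, hw₀, h2, hc⟩ := hcls (V n)
    have h := hD w₀ y₀ hw₀ h2 (Good (V n)) hc
    refine ⟨D, ?_⟩
    by_contra hcon
    push Not at hcon
    -- a bound for every family
    have hb : ∀ 𝒜 : Fin K → Finset ℚˣ, ∃ A : ℕ, (Tr (V n) 𝒜 ∧ ∀ i, 𝒜 i ⊆ V n) → ¬ ∃ a d : ℕ, A ≤ a ∧ 0 < d ∧
        (d : ℝ) ≤ Real.log a ^ D ∧
        ∀ j < n + 2, A < a + j * d ∧ Good (V n) (a + j * d) ∧ Cov (V n) 𝒜 (a + j * d) := by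
      intro 𝒜
      by_cases h𝒜 : Tr (V n) 𝒜 ∧ ∀ i, 𝒜 i ⊆ V n
      · obtain ⟨A, hA⟩ := hcon 𝒜 h𝒜
        refine ⟨A, fun _ hex => ?_⟩
        obtain ⟨a, d, h1, h3, h4, h5⟩ := hex
        obtain ⟨j, hj, h6⟩ := hA a d h1 h3 h4
        exact h6 (h5 j hj).1 (h5 j hj).2.1 (h5 j hj).2.2
      · exact ⟨0, fun h' => absurd h' h𝒜⟩
    choose AA hAA using hb
    obtain ⟨J, hJ⟩ : ∃ J : Finset (Fin K → Finset ℚˣ), J = Fintype.piFinset (fun _ => (V n).powerset) :=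
      ⟨_, rfl⟩
    obtain ⟨𝒜, h𝒜, a, d, h1, h3, h4, h5⟩ := h (J.sup AA)
    have hJm : 𝒜 ∈ J := by
      rw [hJ, Fintype.mem_piFinset]
      exact fun i => mem_powerset.2 (h𝒜.2 i)
    have hle : AA 𝒜 ≤ J.sup AA := Finset.le_sup hJm
    exact hAA 𝒜 h𝒜 ⟨a, d, by omega, h3, h4, fun j hj => ⟨by have := (h5 j hj).1; omega, (h5 j hj).2⟩⟩
  choose D 𝒜 h𝒜 hP using hch
  -- the ultrafilter
  obtain ⟨𝒰, h𝒰⟩ : ∃ 𝒰 : Ultrafilter ℕ, 𝒰 = hyperfilter ℕ := ⟨_, rfl⟩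
  have hle : (𝒰 : Filter ℕ) ≤ atTop := by
    rw [h𝒰, ← Nat.cofinite_eq_atTop]
    exact hyperfilter_le_cofinite
  have hmemV : ∀ u : ℚˣ, ∀ᶠ n in (𝒰 : Filter ℕ), u ∈ V n := by
    intro u
    obtain ⟨m, hm⟩ := he u
    have h1 : ∀ᶠ n in atTop, u ∈ V n := by
      filter_upwards [eventually_gt_atTop m] with n hn
      rw [hV, mem_image]
      exact ⟨m, mem_range.2 hn, hm⟩
    exact hle h1
  obtain ⟨G, hG⟩ : ∃ G : Fin K → Subgroup ℚˣ, ∀ i u, u ∈ G i ↔ ∀ᶠ n in (𝒰 : Filter ℕ), u ∈ 𝒜 n i := by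
    refine ⟨fun i =>
      { carrier := {u | ∀ᶠ n in (𝒰 : Filter ℕ), u ∈ 𝒜 n i}
        one_mem' := ?_
        mul_mem' := ?_
        inv_mem' := ?_ }, fun i u => Iff.rfl⟩
    · rintro u v hu hv
      filter_upwards [hu, hv, hmemV (u * v)] with n h1 h2 h3
      obtain ⟨-, Γ, hΓ⟩ := (h𝒜 n).1 i
      exact (hΓ _).2 ⟨h3, mul_mem ((hΓ _).1 h1).2 ((hΓ _).1 h2).2⟩
    · filter_upwards [hmemV 1] with n h3
      obtain ⟨-, Γ, hΓ⟩ := (h𝒜 n).1 i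
      exact (hΓ _).2 ⟨h3, one_mem _⟩
    · intro u hu
      filter_upwards [hu, hmemV u⁻¹] with n h1 h3
      obtain ⟨-, Γ, hΓ⟩ := (h𝒜 n).1 i
      exact (hΓ _).2 ⟨h3, inv_mem ((hΓ _).1 h1).2⟩
  refine ⟨G, fun i b hb hind => ?_, fun U k => ?_⟩
  · have h1 : ∀ᶠ n in (𝒰 : Filter ℕ), ∀ j, b j ∈ 𝒜 n i := by
      rw [eventually_all]
      exact fun j => (hG i _).1 (hb j)
    obtain ⟨n, hn⟩ := h1.exists
    exact ((h𝒜 n).1 i).1 b (fun j => hn j) hind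
  · have h1 : ∀ᶠ n in (𝒰 : Filter ℕ), ∀ u ∈ U, u ∈ V n := by
      rw [eventually_all_finset]
      exact fun u _ => hmemV u
    have h2 : ∀ᶠ n in (𝒰 : Filter ℕ), k ≤ n := hle (eventually_ge_atTop k)
    have h3 : ∀ᶠ n in (𝒰 : Filter ℕ), ∀ i : Fin K, ∀ u ∈ U, u ∈ 𝒜 n i → u ∈ G i := by
      rw [eventually_all]
      intro i
      rw [eventually_all_finset]
      intro u _
      by_cases hu : u ∈ G i
      · exact Eventually.of_forall fun _ _ => hu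
      · rw [hG, ← Ultrafilter.eventually_not] at hu
        exact hu.mono fun n hn h => absurd h hn
    obtain ⟨n, hn1, hn2, hn3⟩ := (h1.and (h2.and h3)).exists
    refine ⟨D n, fun A => ?_⟩
    obtain ⟨a, d, h4, h5, h6, h7⟩ := hP n A
    refine ⟨a, d, h4, h5, h6, fun j hj => ?_⟩
    obtain ⟨h8, h9, hp, h10, h11⟩ := h7 j (by omega)
    refine ⟨h8, hmono _ _ hn1 _ h9, hp, fun u hu => h10 u (hn1 u hu), fun l hl hl3 hlp => ?_⟩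
    obtain ⟨i, hi⟩ := h11 l hl hl3 hlp
    exact ⟨i, fun u hu hul => hn3 i u hu (hi u (hn1 u hu) hul)⟩

end Pool.Agent.Q84.AR
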