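import Pool.Agent.Q84.AR3

set_option autoImplicit false

/-!
Classes of primes with prescribed quadratic symbols, given by a homomorphism `s : ℚˣ → {1, -1}` with
`s (-3) = -1`.
-/

namespace Pool.Agent.Q84.AR

open Finset Pool.Agent.Y855

/-- the value of `s` at a nonzero integer -/
noncomputable def sg (s : ℚˣ →* ℤˣ) (n : ℤ) : ℤ :=
  if h : (n : ℚ) ≠ 0 then ((s (Units.mk0 (n : ℚ) h) : ℤˣ) : ℤ) else 0

lemma sg_of (s : ℚˣ →* ℤˣ) (n : ℤ) (u : ℚˣ) (hu : (u : ℚ) = n) : sg s n = ((s u : ℤˣ) : ℤ) := by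
  have h : (n : ℚ) ≠ 0 := by rw [← hu]; exact u.ne_zero
  unfold sg
  rw [dif_pos h]
  congr 2
  exact Units.ext hu.symm

lemma sg_ex (n : ℤ) (hn : n ≠ 0) : ∃ u : ℚˣ, (u : ℚ) = n :=
  ⟨Units.mk0 (n : ℚ) (by exact_mod_cast hn), rfl⟩

lemma sg_mul (s : ℚˣ →* ℤˣ) (m n : ℤ) (hm : m ≠ 0) (hn : n ≠ 0) : sg s (m * n) = sg s m * sg s n := by
  obtain ⟨u, hu⟩ := sg_ex m hm
  obtain ⟨v, hv⟩ := sg_ex n hn
  rw [sg_of s m u hu, sg_of s n v hv, sg_of s (m * n) (u * v) (by push_cast; rw [hu, hv]), map_mul,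
    Units.val_mul]

lemma sg_one (s : ℚˣ →* ℤˣ) : sg s 1 = 1 := by
  rw [sg_of s 1 1 (by simp), map_one, Units.val_one]

lemma sg_pm (s : ℚˣ →* ℤˣ) (n : ℤ) (hn : n ≠ 0) : sg s n = 1 ∨ sg s n = -1 := by
  obtain ⟨u, hu⟩ := sg_ex n hn
  rw [sg_of s n u hu]
  rcases Int.units_eq_one_or (s u) with h | h
  · left; rw [h]; rfl
  · right; rw [h]; rfl

/-- a residue with prescribed symbol, different from `0` and `1` -/
lemma res_ex (q : ℕ) [hq : Fact q.Prime] (hq3 : 3 ≤ q) (τ : ℤ) (hτ : τ = 1 ∨ τ = -1) (h3 : q = 3 → τ = -1) :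
    ∃ x : ℕ, ¬ q ∣ x ∧ x % q ≠ 1 ∧ legendreSym q x = τ := by
  rcases hτ with h | h
  · have hq4 : 5 ≤ q := by
      by_contra hcon
      have h5 : q = 3 ∨ q = 4 := by omega
      rcases h5 with h5 | h5
      · have := h3 h5
        rw [h] at this
        norm_num at this
      · have := hq.out
        rw [h5] at this
        norm_num at this
    refine ⟨4, fun hd => ?_, ?_, ?_⟩
    · have := Nat.le_of_dvd (by norm_num) hd
      omega
    · rw [Nat.mod_eq_of_lt (by omega)]
      norm_num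
    · rw [h, legendreSym.eq_one_iff']
      · exact ⟨2, by push_cast; norm_num⟩
      · intro h0
        have := (ZMod.natCast_eq_zero_iff 4 q).1 h0
        have := Nat.le_of_dvd (by norm_num) this
        omega
  · obtain ⟨x, hx⟩ := FiniteField.exists_nonsquare (F := ZMod q) (by
      rw [ZMod.ringChar_zmod_n]
      omega)
    have hx0 : x ≠ 0 := by
      rintro rfl
      exact hx ⟨0, by simp⟩
    have hxv : ((x.val : ℕ) : ZMod q) = x := ZMod.natCast_zmod_val x
    refine ⟨x.val, fun hd => ?_, fun h1 => ?_, ?_⟩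
    · have := (ZMod.natCast_eq_zero_iff _ _).2 hd
      rw [hxv] at this
      exact hx0 this
    · apply hx
      have h2 : ((x.val : ℕ) : ZMod q) = ((1 : ℕ) : ZMod q) := by
        rw [ZMod.natCast_eq_natCast_iff]
        unfold Nat.ModEq
        rw [h1, Nat.mod_eq_of_lt (by omega)]
      rw [hxv] at h2
      rw [h2]
      exact ⟨1, by simp⟩
    · rw [h, legendreSym.eq_neg_one_iff']
      rw [hxv]
      exact hx

/-- the class modulo `8` -/
lemma r8_ex (a b : ℤ) (ha : a = 1 ∨ a = -1) (hb : b = 1 ∨ b = -1) : ∃ r : ℕ, r % 2 = 1 ∧ r < 8 ∧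
    (-1 : ℤ) ^ (r / 2) = a ∧ ∀ p : ℕ, p % 8 = r → ZMod.χ₄ (p : ZMod 4) = a ∧ ZMod.χ₈ (p : ZMod 8) = b := by
  have key : ∀ r : ℕ, r < 8 → r % 2 = 1 → ∀ p : ℕ, p % 8 = r →
      ZMod.χ₄ (p : ZMod 4) = (if r % 4 = 1 then 1 else -1) ∧
      ZMod.χ₈ (p : ZMod 8) = (if r = 1 ∨ r = 7 then 1 else -1) := by
    intro r hr hr2 p hp
    rw [ZMod.χ₄_nat_eq_if_mod_four, ZMod.χ₈_nat_eq_if_mod_eight]
    constructor <;> split_ifs <;> first | rfl | (exfalso; omega)
  rcases ha with ha | ha <;> rcases hb with hb | hb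
  · exact ⟨1, by norm_num, by norm_num, by norm_num [ha], fun p hp => by
      have := key 1 (by norm_num) (by norm_num) p hp
      norm_num at this
      rw [ha, hb]
      exact this⟩
  · exact ⟨5, by norm_num, by norm_num, by norm_num [ha], fun p hp => by
      have := key 5 (by norm_num) (by norm_num) p hp
      norm_num at this
      rw [ha, hb]
      exact this⟩
  · exact ⟨7, by norm_num, by norm_num, by norm_num [ha], fun p hp => by
      have := key 7 (by norm_num) (by norm_num) p hp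
      norm_num at this
      rw [ha, hb]
      exact this⟩
  · exact ⟨3, by norm_num, by norm_num, by norm_num [ha], fun p hp => by
      have := key 3 (by norm_num) (by norm_num) p hp
      norm_num at this
      rw [ha, hb]
      exact this⟩

/-- the class -/
theorem cls_sign (s : ℚˣ →* ℤˣ) (hs : sg s (-3) = -1) (y : ℕ) : ∃ c : ℕ, c.Coprime (8 * primorial y) ∧
    (∀ q : ℕ, q.Prime → q ∣ 8 * primorial y → 3 ≤ q → c % q ≠ 1) ∧
    ∀ p : ℕ, p ≡ c [MOD 8 * primorial y] → ∀ [Fact p.Prime], p % 2 = 1 ∧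
      legendreSym p (-1) = sg s (-1) ∧ legendreSym p 2 = sg s 2 ∧
      ∀ q : ℕ, q.Prime → 3 ≤ q → q ≤ y → legendreSym p q = sg s q := by
  classical
  obtain ⟨r, hr2, hr8, hra, hr⟩ := r8_ex (sg s (-1)) (sg s 2) (sg_pm s _ (by norm_num)) (sg_pm s _ (by norm_num))
  have hx : ∀ q : ℕ, ∃ x : ℕ, q.Prime → 3 ≤ q → ¬ q ∣ x ∧ x % q ≠ 1 ∧
      ∀ [Fact q.Prime], legendreSym q x = (-1) ^ (q / 2 * (r / 2)) * sg s q := by
    intro q
    by_cases hq : q.Prime ∧ 3 ≤ q
    · haveI : Fact q.Prime := ⟨hq.1⟩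
      have hq0 : (q : ℤ) ≠ 0 := by exact_mod_cast hq.1.pos.ne'
      obtain ⟨x, h1, h2, h3⟩ := res_ex q hq.2 ((-1) ^ (q / 2 * (r / 2)) * sg s q) (by
        rcases sg_pm s q hq0 with h | h <;> rcases neg_one_pow_eq_or ℤ (q / 2 * (r / 2)) with h' | h' <;>
          rw [h, h'] <;> norm_num) (by
        intro hq3
        subst hq3
        have h4 : sg s (-3) = sg s (-1) * sg s 3 := by
          rw [← sg_mul s (-1) 3 (by norm_num) (by norm_num)]
          norm_num
        norm_num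
        rw [hra, ← h4, hs])
      exact ⟨x, fun _ _ => ⟨h1, h2, h3⟩⟩
    · exact ⟨0, fun h1 h2 => absurd ⟨h1, h2⟩ hq⟩
  choose x hx using hx
  obtain ⟨t, ht⟩ : ∃ t : Finset ℕ, t = (range (y + 1)).filter Nat.Prime ∪ {2} := ⟨_, rfl⟩
  have htm : ∀ q, q ∈ t ↔ (q ≤ y ∧ q.Prime) ∨ q = 2 := by
    intro q
    rw [ht, mem_union, mem_filter, mem_range, mem_singleton]
    constructor
    · rintro (⟨h1, h2⟩ | h)
      · exact Or.inl ⟨by omega, h2⟩
      · exact Or.inr h
    · rintro (⟨h1, h2⟩ | h)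
      · exact Or.inl ⟨by omega, h2⟩
      · exact Or.inr h
  have htp : ∀ q ∈ t, q.Prime := by
    intro q hq
    rcases (htm q).1 hq with h | h
    · exact h.2
    · rw [h]; exact Nat.prime_two
  obtain ⟨c, hc⟩ := Nat.chineseRemainderOfFinset (fun q => if q = 2 then r else x q)
    (fun q => if q = 2 then 8 else q) t (by
      intro q hq
      by_cases h : q = 2
      · simp [h]
      · simp only [h, if_false]
        exact (htp q hq).pos.ne') (by
      intro q hq q' hq' hne
      have hp := htp q hq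
      have hp' := htp q' hq'
      have hcop : Nat.Coprime q q' := (Nat.coprime_primes hp hp').2 hne
      have h8 : (8 : ℕ) = 2 ^ 3 := by norm_num
      unfold Function.onFun
      by_cases h : q = 2
      · by_cases h' : q' = 2
        · exact absurd (h.trans h'.symm) hne
        · simp only [h, h', if_true, if_false]
          rw [h8]
          rw [h] at hcop
          exact Nat.Coprime.pow_left 3 hcop
      · by_cases h' : q' = 2
        · simp only [h, h', if_true, if_false]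
          rw [h8]
          rw [h'] at hcop
          exact Nat.Coprime.pow_right 3 hcop
        · simp only [h, h', if_false]
          exact hcop)
  have hc2 : c ≡ r [MOD 8] := by
    have := hc 2 ((htm 2).2 (Or.inr rfl))
    simpa using this
  have hcq : ∀ q : ℕ, q.Prime → 3 ≤ q → q ≤ y → c ≡ x q [MOD q] := by
    intro q hq hq3 hqy
    have := hc q ((htm q).2 (Or.inl ⟨hqy, hq⟩))
    have h2 : q ≠ 2 := by omega
    simpa [h2] using this
  have hcase : ∀ q : ℕ, q.Prime → q ∣ 8 * primorial y → q = 2 ∨ (3 ≤ q ∧ q ≤ y) := by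
    intro q hq hqd
    by_cases h : q = 2
    · exact Or.inl h
    right
    have h3 : 3 ≤ q := by have := hq.two_le; omega
    refine ⟨h3, ?_⟩
    rcases (Nat.Prime.dvd_mul hq).1 hqd with h4 | h4
    · exfalso
      have h5 : q ∣ 2 := hq.dvd_of_dvd_pow (show q ∣ 2 ^ 3 by norm_num; exact h4)
      have := Nat.le_of_dvd (by norm_num) h5
      omega
    · exact hq.dvd_primorial_iff.1 h4
  refine ⟨c, ?_, ?_, ?_⟩
  · rw [Nat.coprime_iff_gcd_eq_one]
    by_contra hne
    obtain ⟨q, hq, hqd⟩ := Nat.exists_prime_and_dvd hne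
    have h1 := hqd.trans (Nat.gcd_dvd_left _ _)
    rcases hcase q hq (hqd.trans (Nat.gcd_dvd_right _ _)) with h | ⟨h3, hy⟩
    · subst h
      have h4 : c % 8 = r % 8 := hc2
      omega
    · exact (hx q hq h3).1 (((hcq q hq h3 hy).dvd_iff dvd_rfl).1 h1)
  · intro q hq hqd hq3
    rcases hcase q hq hqd with h | ⟨h3, hy⟩
    · omega
    · have h4 : c % q = x q % q := hcq q hq h3 hy
      rw [h4]
      exact (hx q hq h3).2.1
  · intro p hp hF
    have hp8 : p ≡ c [MOD 8] := hp.of_dvd (Dvd.intro _ rfl)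
    have hp8' : p % 8 = r := by
      have h1 : p % 8 = c % 8 := hp8
      have h2 : c % 8 = r % 8 := hc2
      omega
    have hpp := hF.out
    have hp2 : p ≠ 2 := by rintro rfl; omega
    obtain ⟨h4, h5⟩ := hr p hp8'
    refine ⟨by omega, ?_, ?_, ?_⟩
    · rw [legendreSym.at_neg_one hp2, h4]
    · rw [legendreSym.at_two hp2, h5]
    · intro q hq hq3 hqy
      haveI : Fact q.Prime := ⟨hq⟩
      have hpq : p ≡ x q [MOD q] :=
        (hp.of_dvd ((hq.dvd_primorial_iff.2 hqy).mul_left 8)).trans (hcq q hq hq3 hqy)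
      rw [legendreSym.quadratic_reciprocity' (p := q) (q := p) (by omega) hp2]
      have h6 : legendreSym q (p : ℤ) = legendreSym q (x q : ℤ) := by
        rw [legendreSym.mod q (p : ℤ), legendreSym.mod q (x q : ℤ)]
        congr 1
        exact_mod_cast hpq
      rw [h6, (hx q hq hq3).2.2]
      have h7 : (-1 : ℤ) ^ (q / 2 * (p / 2)) = (-1) ^ (q / 2 * (r / 2)) := by
        rw [mul_comm, pow_mul, mul_comm, pow_mul]
        congr 1
        have h8 : (p / 2) % 2 = (r / 2) % 2 := by omega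
        rw [← Nat.div_add_mod (p / 2) 2, ← Nat.div_add_mod (r / 2) 2, h8]
        simp [pow_add, pow_mul]
      rw [h7, ← mul_assoc, ← pow_add, ← two_mul, pow_mul]
      simp

end Pool.Agent.Q84.AR
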