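import Pool.Agent.Q84.AR4

set_option autoImplicit false

/-!
Simultaneous primitive roots from a homomorphism `s : ℚˣ → {1, -1}` with `s (-3) = -1`, and the
construction of such homomorphisms.
-/

namespace Pool.Agent.Q84.AR

open Finset Pool.Agent.Y855

lemma leg_nat (s : ℚˣ →* ℤˣ) (y p : ℕ) [Fact p.Prime] (h2 : legendreSym p 2 = sg s 2)
    (hq : ∀ q : ℕ, q.Prime → 3 ≤ q → q ≤ y → legendreSym p q = sg s q) :
    ∀ n : ℕ, n ≠ 0 → (∀ q : ℕ, q.Prime → q ∣ n → q ≤ y) → legendreSym p (n : ℤ) = sg s (n : ℤ) := by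
  intro n
  induction n using Nat.recOnMul with
  | zero => intro h; exact absurd rfl h
  | one =>
    intro _ _
    rw [Nat.cast_one, sg_one, legendreSym.at_one]
  | prime q hqp =>
    intro _ h
    by_cases hq2 : q = 2
    · subst hq2
      exact_mod_cast h2
    · exact hq q hqp (by have := hqp.two_le; omega) (h q hqp dvd_rfl)
  | mul a b ha hb =>
    intro hab h
    have ha0 : a ≠ 0 := by rintro rfl; simp at hab
    have hb0 : b ≠ 0 := by rintro rfl; simp at hab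
    rw [Nat.cast_mul, legendreSym.mul, sg_mul s _ _ (by exact_mod_cast ha0) (by exact_mod_cast hb0),
      ha ha0 fun q h1 h3 => h q h1 (h3.mul_right b), hb hb0 fun q h1 h3 => h q h1 (h3.mul_left a)]

lemma leg_int (s : ℚˣ →* ℤˣ) (y p : ℕ) [Fact p.Prime] (h1 : legendreSym p (-1) = sg s (-1))
    (h2 : legendreSym p 2 = sg s 2)
    (hq : ∀ q : ℕ, q.Prime → 3 ≤ q → q ≤ y → legendreSym p q = sg s q) (n : ℤ) (hn : n ≠ 0)
    (h : n.natAbs ≤ y) : legendreSym p n = sg s n := by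
  have h3 := leg_nat s y p h2 hq n.natAbs (Int.natAbs_ne_zero.2 hn)
    fun q hq1 hq2 => (Nat.le_of_dvd (Int.natAbs_pos.2 hn) hq2).trans h
  rcases Int.natAbs_eq n with h4 | h4
  · rw [h4]; exact h3
  · have h5 : n = (-1) * (n.natAbs : ℤ) := by rw [neg_one_mul]; exact h4
    have h6 : ((n.natAbs : ℕ) : ℤ) ≠ 0 := by exact_mod_cast Int.natAbs_ne_zero.2 hn
    rw [h5, legendreSym.mul, sg_mul s _ _ (by norm_num) (by simpa using hn), h1]
    congr 1

/-- the condition on the primes: the elements of `U` on which `s` is `-1` are not squares -/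
def GoodS (s : ℚˣ →* ℤˣ) (U : Finset ℚˣ) (p : ℕ) : Prop :=
  ∀ hp : p.Prime, ∀ u ∈ U, s u = -1 → u ∉ Qs p hp ((p - 1) / 2)

theorem cls_good (s : ℚˣ →* ℤˣ) (hs : sg s (-3) = -1) (U : Finset ℚˣ) : Cls (GoodS s U) := by
  refine ⟨8, ∑ u ∈ U, ((u : ℚ).num.natAbs + (u : ℚ).den), by norm_num, by norm_num, fun y hy _ => ?_⟩
  obtain ⟨c, hc1, hc2, hc3⟩ := cls_sign s hs y
  refine ⟨c, hc1, hc2, fun p hpc hp u hu hsu hmem => ?_⟩
  haveI : Fact p.Prime := ⟨hp⟩
  obtain ⟨hp1, h1, h2, h3⟩ := hc3 p hpc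
  have h4 := Finset.single_le_sum (f := fun u : ℚˣ => (u : ℚ).num.natAbs + (u : ℚ).den)
    (fun j _ => Nat.zero_le _) hu
  have hn0 : (u : ℚ).num ≠ 0 := Rat.num_ne_zero.2 u.ne_zero
  have hd0 : ((u : ℚ).den : ℤ) ≠ 0 := by exact_mod_cast (u : ℚ).den_nz
  have h5 := leg_int s y p h1 h2 h3 (u : ℚ).num hn0 (by omega)
  have h6 := leg_int s y p h1 h2 h3 ((u : ℚ).den : ℤ) hd0 (by rw [Int.natAbs_natCast]; omega)
  rw [Qs_mem] at hmem
  have h7 := hmem.2
  have e2 : (p - 1) / 2 = p / 2 := by omega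
  have h8 := legendreSym.eq_pow p (u : ℚ).num
  have h9 := legendreSym.eq_pow p ((u : ℚ).den : ℤ)
  rw [Int.cast_natCast] at h9
  rw [e2, ← h8, ← h9, h5, h6] at h7
  -- the value of `s`
  have h10 : sg s (u : ℚ).num = -sg s ((u : ℚ).den : ℤ) := by
    obtain ⟨v, hv⟩ := sg_ex ((u : ℚ).den : ℤ) hd0
    rw [sg_of s _ v hv, sg_of s (u : ℚ).num (u * v) (by
      push_cast
      rw [hv]
      push_cast
      exact Rat.mul_den_eq_num _), map_mul, hsu]
    simp
  rw [h10] at h7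
  have h11 : Fact (2 < p) := ⟨by have := hp.two_le; omega⟩
  have h12 : (-1 : ZMod p) ≠ 1 := ZMod.neg_one_ne_one
  rcases sg_pm s _ hd0 with h13 | h13 <;> rw [h13] at h7 <;> push_cast at h7
  · exact h12 h7
  · exact h12 h7.symm

/-- a narrow progression of `k` primes modulo all of which the elements of `U` are primitive roots -/
def ProgU (U : Finset ℚˣ) (k : ℕ) : Prop := ∃ D : ℕ, ∀ A : ℕ, ∃ a d : ℕ, A ≤ a ∧ 0 < d ∧
  (d : ℝ) ≤ Real.log a ^ D ∧ ∀ j < k, ∃ hp : (a + j * d).Prime, ∀ u ∈ U, u ∈ Qs (a + j * d) hp 0 ∧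
    ∀ l : ℕ, l.Prime → l ∣ a + j * d - 1 → u ∉ Qs (a + j * d) hp ((a + j * d - 1) / l)

theorem main1 : ∃ K : ℕ, 2 ≤ K ∧ ∀ s : ℚˣ →* ℤˣ, sg s (-3) = -1 → ∃ G : Fin K → Subgroup ℚˣ,
    (∀ i, RankLt K (G i : Set ℚˣ)) ∧ ∀ (U : Finset ℚˣ), (∀ u ∈ U, s u = -1 ∧ ∀ i, u ∉ G i) →
      ∀ k, ProgU U k := by
  obtain ⟨K, hK, hE⟩ := engine
  refine ⟨K, hK, fun s hs => ?_⟩
  obtain ⟨G, hG1, hG2⟩ := hE (GoodS s) (fun U U' hU p h hp u hu => h hp u (hU hu)) (cls_good s hs)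
  refine ⟨G, hG1, fun U hU k => ?_⟩
  obtain ⟨D, hD⟩ := hG2 U k
  refine ⟨D, fun A => ?_⟩
  obtain ⟨a, d, h1, h2, h3, h4⟩ := hD A
  refine ⟨a, d, h1, h2, h3, fun j hj => ?_⟩
  obtain ⟨h5, h6, hp, h7, h8⟩ := h4 j hj
  refine ⟨hp, fun u hu => ⟨h7 u hu, fun l hl hlp hul => ?_⟩⟩
  by_cases hl2 : l = 2
  · subst hl2
    exact h6 hp u hu (hU u hu).1 hul
  · obtain ⟨i, hi⟩ := h8 l hl (by have := hl.two_le; omega) hlp
    exact (hU u hu).2 i (hi u hu hul)

/-! ## Integers -/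

theorem order_of (p : ℕ) (hp : p.Prime) (u : ℚˣ) (n : ℤ) (hu : (u : ℚ) = n) (h0 : u ∈ Qs p hp 0)
    (h : ∀ l : ℕ, l.Prime → l ∣ p - 1 → u ∉ Qs p hp ((p - 1) / l)) : orderOf ((n : ℤ) : ZMod p) = p - 1 := by
  haveI : Fact p.Prime := ⟨hp⟩
  have hnum : (u : ℚ).num = n := by rw [hu]; exact Rat.num_intCast n
  have hden : (u : ℚ).den = 1 := by rw [hu]; exact Rat.den_intCast n
  have h1 := (Qs_mem p hp 0 u).1 h0
  rw [hnum] at h1
  have hn0 : ((n : ℤ) : ZMod p) ≠ 0 := fun h => h1.1.1 ((ZMod.intCast_zmod_eq_zero_iff_dvd _ _).1 h)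
  have hp1 : 0 < p - 1 := by have := hp.two_le; omega
  refine orderOf_eq_of_pow_and_pow_div_prime hp1 (ZMod.pow_card_sub_one_eq_one hn0) ?_
  intro l hl hlp hcon
  apply h l hl hlp
  rw [Qs_mem]
  rw [hnum, hden] at *
  refine ⟨h1.1, ?_⟩
  rw [hcon]
  simp

/-- For every `k` there is `D` such that there are infinitely many arithmetic progressions
`a, a + d, ..., a + (k - 1) d` of primes, with common difference `d ≤ (log a) ^ D`, such that all the
elements of `F` are primitive roots modulo all the `k` primes. -/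
def Prog (F : Finset ℤ) : Prop :=
  ∀ k : ℕ, ∃ D : ℕ, ∀ A : ℕ, ∃ a d : ℕ, A ≤ a ∧ 0 < d ∧ (d : ℝ) ≤ Real.log a ^ D ∧
    ∀ j < k, (a + j * d).Prime ∧ ∀ n ∈ F, orderOf ((n : ℤ) : ZMod (a + j * d)) = a + j * d - 1

theorem prog_of (F : Finset ℤ) (U : Finset ℚˣ) (hFU : ∀ n ∈ F, ∃ u ∈ U, (u : ℚ) = n)
    (h : ∀ k, ProgU U k) : Prog F := by
  intro k
  obtain ⟨D, hD⟩ := h k
  refine ⟨D, fun A => ?_⟩
  obtain ⟨a, d, h1, h2, h3, h4⟩ := hD A
  refine ⟨a, d, h1, h2, h3, fun j hj => ?_⟩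
  obtain ⟨hp, h5⟩ := h4 j hj
  refine ⟨hp, fun n hn => ?_⟩
  obtain ⟨u, hu, hun⟩ := hFU n hn
  exact order_of _ hp u n hun (h5 u hu).1 (h5 u hu).2

/-! ## Construction of homomorphisms -/

/-- the completely multiplicative function with the values `t q` at the primes -/
def cm (t : ℕ → ℤˣ) (n : ℕ) : ℤˣ := n.factorization.prod fun q e => t q ^ e

lemma cm_mul (t : ℕ → ℤˣ) {m n : ℕ} (hm : m ≠ 0) (hn : n ≠ 0) : cm t (m * n) = cm t m * cm t n := by
  unfold cm
  rw [Nat.factorization_mul hm hn]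
  exact Finsupp.prod_add_index' (fun _ => pow_zero _) (fun _ _ _ => pow_add _ _ _)

lemma cm_sq (t : ℕ → ℤˣ) (n : ℕ) : cm t n * cm t n = 1 := Int.units_mul_self _

/-- the homomorphism with the values `t q` at the primes `q` and `-1` at `-1` -/
theorem hom_ex (t : ℕ → ℤˣ) : ∃ s : ℚˣ →* ℤˣ, ∀ (u : ℚˣ) (n : ℤ), (u : ℚ) = n →
    s u = (if 0 < n then 1 else -1) * cm t n.natAbs := by
  obtain ⟨f, hf⟩ : ∃ f : ℚ → ℤˣ, ∀ x, f x = (if 0 < x then 1 else -1) * (cm t x.num.natAbs * cm t x.den) :=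
    ⟨_, fun _ => rfl⟩
  have hmul : ∀ x y : ℚ, x ≠ 0 → y ≠ 0 → f (x * y) = f x * f y := by
    intro x y hx hy
    rw [hf, hf, hf]
    have h1 : (x * y).num.natAbs * (x.den * y.den) = x.num.natAbs * y.num.natAbs * (x * y).den := by
      have := Rat.mul_num_den' x y
      have h2 := congrArg Int.natAbs this
      simp only [Int.natAbs_mul, Int.natAbs_natCast] at h2
      rw [← mul_assoc]
      exact h2
    have nx : x.num.natAbs ≠ 0 := Int.natAbs_ne_zero.2 (Rat.num_ne_zero.2 hx)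
    have ny : y.num.natAbs ≠ 0 := Int.natAbs_ne_zero.2 (Rat.num_ne_zero.2 hy)
    have nxy : (x * y).num.natAbs ≠ 0 := Int.natAbs_ne_zero.2 (Rat.num_ne_zero.2 (mul_ne_zero hx hy))
    have dx := x.den_nz
    have dy := y.den_nz
    have dxy := (x * y).den_nz
    have h3 := congrArg (cm t) h1
    rw [cm_mul t nxy (mul_ne_zero dx dy), cm_mul t dx dy, cm_mul t (mul_ne_zero nx ny) dxy,
      cm_mul t nx ny] at h3
    have h4 : cm t (x * y).num.natAbs * cm t (x * y).den =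
        cm t x.num.natAbs * cm t x.den * (cm t y.num.natAbs * cm t y.den) := by
      have e1 := cm_sq t x.den
      have e2 := cm_sq t y.den
      have e3 := cm_sq t (x * y).den
      calc cm t (x * y).num.natAbs * cm t (x * y).den
          = cm t (x * y).num.natAbs * (cm t x.den * cm t y.den) * (cm t x.den * cm t y.den) *
            cm t (x * y).den := by
            rw [mul_assoc (cm t (x * y).num.natAbs), mul_mul_mul_comm (cm t x.den), e1, e2, mul_one, mul_one]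
        _ = cm t x.num.natAbs * cm t y.num.natAbs * cm t (x * y).den * (cm t x.den * cm t y.den) *
            cm t (x * y).den := by rw [h3]
        _ = cm t x.num.natAbs * cm t x.den * (cm t y.num.natAbs * cm t y.den) *
            (cm t (x * y).den * cm t (x * y).den) := by
            simp only [mul_comm, mul_left_comm, mul_assoc]
        _ = _ := by rw [e3, mul_one]
    rw [h4]
    have h5 : (if 0 < x * y then (1 : ℤˣ) else -1) = (if 0 < x then 1 else -1) * (if 0 < y then 1 else -1) := by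
      rcases lt_or_gt_of_ne hx with hx' | hx' <;> rcases lt_or_gt_of_ne hy with hy' | hy'
      · rw [if_pos (mul_pos_of_neg_of_neg hx' hy'), if_neg (not_lt.2 hx'.le), if_neg (not_lt.2 hy'.le)]
        decide
      · rw [if_neg (not_lt.2 (mul_neg_of_neg_of_pos hx' hy').le), if_neg (not_lt.2 hx'.le), if_pos hy']
        decide
      · rw [if_neg (not_lt.2 (mul_neg_of_pos_of_neg hx' hy').le), if_pos hx', if_neg (not_lt.2 hy'.le)]
        decide
      · rw [if_pos (mul_pos hx' hy'), if_pos hx', if_pos hy']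
        decide
    rw [h5]
    simp only [mul_comm, mul_left_comm, mul_assoc]
  refine ⟨{ toFun := fun u => f (u : ℚ), map_one' := ?_, map_mul' := fun u v => ?_ }, fun u n hu => ?_⟩
  · rw [Units.val_one, hf]
    simp [cm]
  · rw [Units.val_mul]
    exact hmul _ _ u.ne_zero v.ne_zero
  · change f (u : ℚ) = _
    rw [hf, hu, Rat.num_intCast, Rat.den_intCast]
    have h1 : cm t 1 = 1 := by simp [cm]
    rw [h1, mul_one]
    congr 1
    simp only [Int.cast_pos]

end Pool.Agent.Q84.AR
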