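import Pool.Agent.Q84.AR5

set_option autoImplicit false

/-!
Sets of pairwise coprime integers.
-/

namespace Pool.Agent.Q84.AR

open Finset Pool.Agent.Y855

/-- the valuation homomorphism -/
noncomputable def vh (q : ℕ) [Fact q.Prime] : ℚˣ →* Multiplicative ℤ where
  toFun u := Multiplicative.ofAdd (padicValRat q (u : ℚ))
  map_one' := by simp
  map_mul' u v := by
    rw [Units.val_mul, padicValRat.mul u.ne_zero v.ne_zero, ofAdd_add]

theorem ind_cop {K : ℕ} (b : Fin K → ℚˣ) (m : Fin K → ℤ) (hb : ∀ j, (b j : ℚ) = m j)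
    (h2 : ∀ j, 2 ≤ (m j).natAbs) (hc : ∀ i j, i ≠ j → IsCoprime (m i) (m j)) (e : Fin K → ℤ)
    (he : ∏ j, b j ^ e j = 1) (i : Fin K) : e i = 0 := by
  obtain ⟨q, hq, hqd⟩ := Nat.exists_prime_and_dvd (show (m i).natAbs ≠ 1 by have := h2 i; omega)
  haveI : Fact q.Prime := ⟨hq⟩
  have h1 := congrArg (fun u => Multiplicative.toAdd (vh q u)) he
  simp only [map_prod, map_zpow, map_one, toAdd_prod, toAdd_zpow, toAdd_one] at h1
  have hval : ∀ j, Multiplicative.toAdd (vh q (b j)) = (padicValNat q (m j).natAbs : ℤ) := by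
    intro j
    change padicValRat q (b j : ℚ) = _
    rw [hb, padicValRat.of_int]
    rfl
  rw [Finset.sum_eq_single i] at h1
  · rw [hval, smul_eq_mul] at h1
    have h3 := one_le_padicValNat_of_dvd (show (m i).natAbs ≠ 0 by have := h2 i; omega) hqd
    rcases mul_eq_zero.1 h1 with h4 | h4
    · exact h4
    · have h5 : padicValNat q (m i).natAbs = 0 := by exact_mod_cast h4
      omega
  · intro j _ hj
    rw [hval, padicValNat.eq_zero_of_not_dvd, Nat.cast_zero, smul_zero]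
    intro hd
    have h4 : (q : ℤ) ∣ m i := Int.natCast_dvd.2 hqd
    have h5 : (q : ℤ) ∣ m j := Int.natCast_dvd.2 hd
    exact (Nat.prime_iff_prime_int.1 hq).not_isUnit ((hc j i hj).isUnit_of_dvd' h5 h4)
  · intro h
    exact absurd (mem_univ _) h

/-- a group of rank less than `K` contains fewer than `K` pairwise coprime integers of absolute value
at least `2` -/
theorem card_cop {K : ℕ} (M : Set ℤ) (hM2 : ∀ n ∈ M, 2 ≤ n.natAbs)
    (hMc : ∀ m ∈ M, ∀ n ∈ M, m ≠ n → IsCoprime m n) (G : Set ℚˣ) (hG : RankLt K G) :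
    {n ∈ M | ∃ u ∈ G, (u : ℚ) = n}.encard < K := by
  by_contra hcon
  push Not at hcon
  obtain ⟨V, hV, hVc⟩ := Set.exists_subset_encard_eq hcon
  have hVfin : V.Finite := Set.finite_of_encard_eq_coe hVc
  obtain ⟨T, rfl⟩ := hVfin.exists_finset_coe
  rw [Set.encard_coe_eq_coe_finsetCard] at hVc
  have hTc : T.card = K := by exact_mod_cast hVc
  obtain ⟨m, hm⟩ : ∃ m : Fin K → ℤ, Function.Injective m ∧ ∀ j, m j ∈ T := by
    refine ⟨fun j => (T.equivFinOfCardEq hTc).symm j, ?_, fun j => ((T.equivFinOfCardEq hTc).symm j).2⟩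
    intro i j hij
    exact (T.equivFinOfCardEq hTc).symm.injective (Subtype.ext hij)
  have hu : ∀ j, ∃ u ∈ G, (u : ℚ) = m j := fun j => (hV (mem_coe.2 (hm.2 j))).2
  choose b hb1 hb2 using hu
  have hmM : ∀ j, m j ∈ M := fun j => (hV (mem_coe.2 (hm.2 j))).1
  exact hG b hb1 fun e he i => ind_cop b m hb2 (fun j => hM2 _ (hmM j))
    (fun i j hij => hMc _ (hmM i) _ (hmM j) fun h => hij (hm.1 h)) e he i

/-- the homomorphism for a set of pairwise coprime integers -/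
theorem hom_cop (M : Set ℤ) (hM : ∀ n ∈ M, n ≠ -1 ∧ ¬ IsSquare n)
    (hMc : ∀ m ∈ M, ∀ n ∈ M, m ≠ n → IsCoprime m n) : ∃ s : ℚˣ →* ℤˣ, sg s (-3) = -1 ∧
    ∀ n ∈ M, ¬ 3 ∣ n → ∀ u : ℚˣ, (u : ℚ) = n → s u = -1 := by
  classical
  -- a prime with odd exponent
  have hodd : ∀ n : ℤ, ∃ q : ℕ, 0 < n → ¬ IsSquare n → q.Prime ∧ q ∣ n.natAbs ∧
      ¬ 2 ∣ n.natAbs.factorization q := by
    intro n
    by_cases hn : 0 < n ∧ ¬ IsSquare n
    · by_contra hcon
      push Not at hcon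
      apply hn.2
      have h1 : ∀ q, 2 ∣ n.natAbs.factorization q := by
        intro q
        by_contra h2
        obtain ⟨-, -, h3⟩ := hcon q
        by_cases h4 : q.Prime ∧ q ∣ n.natAbs
        · exact h2 (h3 h4.1 h4.2)
        · apply h2
          have h5 : n.natAbs.factorization q = 0 := by
            rw [Nat.factorization_eq_zero_iff]
            tauto
          rw [h5]
          exact dvd_zero _
      obtain ⟨f, hf⟩ : ∃ f : ℕ, f ^ 2 = n.natAbs := by
        refine ⟨n.natAbs.factorization.prod fun q e => q ^ (e / 2), ?_⟩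
        conv_rhs => rw [← Nat.prod_factorization_pow_eq_self (Int.natAbs_ne_zero.2 hn.1.ne')]
        unfold Finsupp.prod
        rw [← Finset.prod_pow]
        refine Finset.prod_congr rfl fun q _ => ?_
        rw [← pow_mul, Nat.div_mul_cancel (h1 q)]
      refine ⟨(f : ℤ), ?_⟩
      have h6 : (n.natAbs : ℤ) = n := Int.natAbs_of_nonneg hn.1.le
      rw [← h6, ← hf]
      push_cast
      ring
    · exact ⟨0, fun h1 h2 => absurd ⟨h1, h2⟩ hn⟩
  choose Q hQ using hodd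
  obtain ⟨t, ht⟩ : ∃ t : ℕ → ℤˣ, ∀ q, t q = if (∃ n ∈ M, 0 < n ∧ ¬ 3 ∣ n ∧ q = Q n) then -1 else 1 :=
    ⟨_, fun _ => rfl⟩
  obtain ⟨s, hs⟩ := hom_ex t
  refine ⟨s, ?_, ?_⟩
  · obtain ⟨u, hu⟩ := sg_ex (-3) (by norm_num)
    rw [sg_of s (-3) u hu, hs u (-3) hu]
    have h1 : cm t 3 = 1 := by
      have h3 : t 3 = 1 := by
        rw [ht, if_neg]
        rintro ⟨n, hn, hn0, hn3, hQn⟩
        have := (hQ n hn0 (hM n hn).2).2.1
        rw [← hQn] at this
        exact hn3 (Int.natCast_dvd.2 this)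
      unfold cm
      rw [Nat.Prime.factorization Nat.prime_three,
        Finsupp.prod_single_index (h := fun q e => t q ^ e) (pow_zero _), h3, one_pow]
    have h2 : (-3 : ℤ).natAbs = 3 := rfl
    rw [h2, h1, if_neg (by norm_num)]
    norm_num
  · intro n hn hn3 u hu
    rw [hs u n hu]
    have hn1 := hM n hn
    have hn0 : n ≠ 0 := by
      rintro rfl
      exact hn1.2 ⟨0, by norm_num⟩
    -- the values of `t` at the primes dividing `n`
    have htn : ∀ q : ℕ, q.Prime → q ∣ n.natAbs → t q = if 0 < n ∧ q = Q n then -1 else 1 := by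
      intro q hq hqn
      rw [ht]
      by_cases h : 0 < n ∧ q = Q n
      · rw [if_pos h, if_pos ⟨n, hn, h.1, hn3, h.2⟩]
      · rw [if_neg h, if_neg]
        rintro ⟨m, hm, hm0, hm3, hQm⟩
        have hqm := (hQ m hm0 (hM m hm).2).2.1
        rw [← hQm] at hqm
        by_cases hmn : m = n
        · subst hmn
          exact h ⟨hm0, hQm⟩
        · exact (Nat.prime_iff_prime_int.1 hq).not_isUnit ((hMc m hm n hn hmn).isUnit_of_dvd'
            (Int.natCast_dvd.2 hqm) (Int.natCast_dvd.2 hqn))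
    by_cases hpos : 0 < n
    · rw [if_pos hpos, one_mul]
      obtain ⟨hQp, hQd, hQo⟩ := hQ n hpos hn1.2
      unfold cm Finsupp.prod
      rw [Finset.prod_eq_single (Q n)]
      · change t (Q n) ^ _ = _
        rw [htn _ hQp hQd, if_pos ⟨hpos, rfl⟩]
        exact Odd.neg_one_pow (Nat.not_even_iff_odd.1 (fun h => hQo (even_iff_two_dvd.1 h)))
      · intro q hq hne
        have hq' := Nat.support_factorization n.natAbs ▸ hq
        rw [Nat.mem_primeFactors] at hq'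
        change t q ^ _ = _
        rw [htn q hq'.1 hq'.2.1, if_neg (fun h => hne h.2), one_pow]
      · intro h
        rw [Finsupp.notMem_support_iff] at h
        change t (Q n) ^ _ = _
        rw [h, pow_zero]
    · rw [if_neg hpos]
      have h1 : cm t n.natAbs = 1 := by
        unfold cm Finsupp.prod
        apply Finset.prod_eq_one
        intro q hq
        have hq' := Nat.support_factorization n.natAbs ▸ hq
        rw [Nat.mem_primeFactors] at hq'
        change t q ^ _ = _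
        rw [htn q hq'.1 hq'.2.1, if_neg (fun h => hpos h.1), one_pow]
      rw [h1, mul_one]

/-- **Simultaneous primitive roots.** -/
theorem main2 : ∃ K : ℕ, (∀ s : ℚˣ →* ℤˣ, (∀ u : ℚˣ, (u : ℚ) = -3 → s u = -1) →
      ∃ G : Fin K → Subgroup ℚˣ, (∀ i, RankLt K (G i : Set ℚˣ)) ∧
      ∀ F : Finset ℤ, (∀ n ∈ F, ∃ u : ℚˣ, (u : ℚ) = n ∧ s u = -1 ∧ ∀ i, u ∉ G i) → Prog F) ∧
    ∀ M : Set ℤ, (∀ n ∈ M, n ≠ -1 ∧ ¬ IsSquare n) → (∀ m ∈ M, ∀ n ∈ M, m ≠ n → IsCoprime m n) →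
      ∃ E ⊆ M, E.encard ≤ K ^ 2 ∧ ∀ F : Finset ℤ, (F : Set ℤ) ⊆ M \ E → Prog F := by
  classical
  obtain ⟨K, hK2, hmain⟩ := main1
  have hA : ∀ s : ℚˣ →* ℤˣ, sg s (-3) = -1 →
      ∃ G : Fin K → Subgroup ℚˣ, (∀ i, RankLt K (G i : Set ℚˣ)) ∧
      ∀ F : Finset ℤ, (∀ n ∈ F, ∃ u : ℚˣ, (u : ℚ) = n ∧ s u = -1 ∧ ∀ i, u ∉ G i) → Prog F := by
    intro s hs
    obtain ⟨G, hG1, hG2⟩ := hmain s hs
    refine ⟨G, hG1, fun F hF => ?_⟩
    obtain ⟨v, hv⟩ : ∃ v : ℤ → ℚˣ, ∀ n ∈ F, (v n : ℚ) = n ∧ s (v n) = -1 ∧ ∀ i, v n ∉ G i := by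
      have h1 : ∀ n : ℤ, ∃ u : ℚˣ, n ∈ F → (u : ℚ) = n ∧ s u = -1 ∧ ∀ i, u ∉ G i := by
        intro n
        by_cases hn : n ∈ F
        · obtain ⟨u, hu⟩ := hF n hn
          exact ⟨u, fun _ => hu⟩
        · exact ⟨1, fun h => absurd h hn⟩
      choose v hv using h1
      exact ⟨v, hv⟩
    refine prog_of F (F.image v) (fun n hn => ⟨v n, mem_image_of_mem _ hn, (hv n hn).1⟩)
      (hG2 _ fun u hu => ?_)
    obtain ⟨n, hn, rfl⟩ := mem_image.1 hu
    exact (hv n hn).2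
  refine ⟨K, fun s hs => hA s ?_, fun M hM hMc => ?_⟩
  · obtain ⟨u, hu⟩ := sg_ex (-3) (by norm_num)
    rw [sg_of s (-3) u hu, hs u (by rw [hu]; norm_num)]
    rfl
  · obtain ⟨s, hs, hsM⟩ := hom_cop M hM hMc
    obtain ⟨G, hG1, hG2⟩ := hA s hs
    have hM2 : ∀ n ∈ M, 2 ≤ n.natAbs := by
      intro n hn
      obtain ⟨hn1, hsq⟩ := hM n hn
      by_contra hlt
      have h5 : n = 0 ∨ n = 1 := by omega
      rcases h5 with h5 | h5
      · exact hsq ⟨0, by rw [h5]; norm_num⟩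
      · exact hsq ⟨1, by rw [h5]; norm_num⟩
    refine ⟨{n ∈ M | 3 ∣ n} ∪ ⋃ i : Fin K, {n ∈ M | ∃ u ∈ (G i : Set ℚˣ), (u : ℚ) = n}, ?_, ?_, ?_⟩
    · rintro n (hn | hn)
      · exact hn.1
      · rw [Set.mem_iUnion] at hn
        obtain ⟨i, hi⟩ := hn
        exact hi.1
    · have h1 : {n ∈ M | 3 ∣ n}.encard ≤ 1 := by
        rw [Set.encard_le_one_iff]
        rintro m n ⟨hm, hm3⟩ ⟨hn, hn3⟩
        by_contra hne
        have := (hMc m hm n hn hne).isUnit_of_dvd' hm3 hn3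
        rw [Int.isUnit_iff] at this
        omega
      have h2 : (⋃ i : Fin K, {n ∈ M | ∃ u ∈ (G i : Set ℚˣ), (u : ℚ) = n}).encard ≤
          ((K * (K - 1) : ℕ) : ℕ∞) := by
        refine (Set.encard_iUnion_le_of_fintype _).trans ?_
        have h3 : ∀ i : Fin K, {n ∈ M | ∃ u ∈ (G i : Set ℚˣ), (u : ℚ) = n}.encard ≤ ((K - 1 : ℕ) : ℕ∞) := by
          intro i
          have h4 := card_cop M hM2 hMc (G i : Set ℚˣ) (hG1 i)
          refine Order.le_of_lt_add_one (h4.trans_le ?_)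
          have h5 : K ≤ K - 1 + 1 := by omega
          exact_mod_cast h5
        refine (Finset.sum_le_sum fun i _ => h3 i).trans ?_
        simp
      refine (Set.encard_union_le _ _).trans ((add_le_add h1 h2).trans ?_)
      have h6 : 1 + K * (K - 1) ≤ K ^ 2 := by
        obtain ⟨k, rfl⟩ : ∃ k, K = k + 1 := ⟨K - 1, by omega⟩
        rw [Nat.add_sub_cancel]
        nlinarith
      exact_mod_cast h6
    · intro F hF
      apply hG2
      intro n hn
      obtain ⟨hnM, hnE⟩ := hF (mem_coe.2 hn)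
      have hn0 : n ≠ 0 := by
        rintro rfl
        exact (hM 0 hnM).2 ⟨0, by norm_num⟩
      obtain ⟨u, hu⟩ := sg_ex n hn0
      have h3 : ¬ 3 ∣ n := fun h => hnE (Or.inl ⟨hnM, h⟩)
      refine ⟨u, hu, hsM n hnM h3 u hu, fun i hi => hnE (Or.inr ?_)⟩
      rw [Set.mem_iUnion]
      exact ⟨i, hnM, u, hi, hu⟩

end Pool.Agent.Q84.AR
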