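import Pool.Agent.Q84.AR3

set_option autoImplicit false

/-!
Simultaneous reduction of finitely many groups of rational numbers.
-/

namespace Pool.Agent.Q84.AR

open Finset Pool.Agent.Y855

theorem main3 : ∃ K : ℕ, 2 ≤ K ∧ ∀ m a : ℕ, 0 < m → a.Coprime m →
    (∀ l : ℕ, l.Prime → l ∣ m → l ≠ 2 → ¬ a ≡ 1 [MOD l]) →
    ∃ G : Fin K → Subgroup ℚˣ, (∀ i, RankLt K (G i : Set ℚˣ)) ∧
    ∀ I : Finset (Subgroup ℚˣ), (∀ W ∈ I, W.FG ∧ ∀ i, ¬ W ≤ G i) → ∀ k : ℕ, ∃ D : ℕ, ∀ A : ℕ,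
      ∃ x d : ℕ, A ≤ x ∧ 0 < d ∧ (d : ℝ) ≤ Real.log x ^ D ∧ ∀ j < k, ∃ hp : (x + j * d).Prime,
        A < x + j * d ∧ x + j * d ≡ a [MOD m] ∧ ∀ W ∈ I, W ≤ Qs (x + j * d) hp 0 ∧
          ∀ l : ℕ, l.Prime → l ∣ (img (x + j * d) W).index → l = 2 := by
  classical
  obtain ⟨K, hK2, hE⟩ := engine
  refine ⟨K, hK2, fun m a hm ham ha1 => ?_⟩
  obtain ⟨G, hG1, hG2⟩ := hE (fun _ p => p ≡ a [MOD m]) (fun _ _ _ _ h => h)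
    (fun U => ⟨2 * m, 2, by omega, Dvd.intro _ rfl, fun y _ hy2 => class_ex m a hm ham ha1 y hy2⟩)
  refine ⟨G, hG1, fun I hI k => ?_⟩
  -- the witnesses
  have hw : ∀ (W : Subgroup ℚˣ) (i : Fin K), ∃ w : ℚˣ, W ∈ I → w ∈ W ∧ w ∉ G i := by
    intro W i
    by_cases hW : W ∈ I
    · obtain ⟨w, hw1, hw2⟩ := SetLike.not_le_iff_exists.1 ((hI W hW).2 i)
      exact ⟨w, fun _ => ⟨hw1, hw2⟩⟩
    · exact ⟨1, fun h => absurd h hW⟩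
  choose w hw using hw
  -- the units
  have hun : ∀ W : Subgroup ℚˣ, ∃ H : ℕ, W ∈ I → ∀ p : ℕ, ∀ hp : p.Prime, H < p → W ≤ Qs p hp 0 := by
    intro W
    by_cases hW : W ∈ I
    · obtain ⟨H, hH⟩ := fg_units W (hI W hW).1
      exact ⟨H, fun _ => hH⟩
    · exact ⟨0, fun h => absurd h hW⟩
  choose HW hHW using hun
  obtain ⟨H₀, hH₀⟩ : ∃ H₀ : ℕ, H₀ = ∑ W ∈ I, HW W := ⟨_, rfl⟩
  have hH₀W : ∀ W ∈ I, ∀ p : ℕ, ∀ hp : p.Prime, H₀ < p → W ≤ Qs p hp 0 := by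
    intro W hW p hp hpH
    apply hHW W hW p hp
    have := Finset.single_le_sum (f := HW) (fun j _ => Nat.zero_le _) hW
    omega
  obtain ⟨D, hD⟩ := hG2 (I.biUnion fun W => univ.image (w W)) k
  refine ⟨D, fun A => ?_⟩
  obtain ⟨x, d, h1, h2, h3, h4⟩ := hD (A + H₀)
  refine ⟨x, d, by omega, h2, h3, fun j hj => ?_⟩
  obtain ⟨h5, h6, hp, h7, h8⟩ := h4 j hj
  refine ⟨hp, by omega, h6, fun W hW => ?_⟩
  have hWu := hH₀W W hW _ hp (by omega)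
  refine ⟨hWu, fun l hl hli => ?_⟩
  by_contra hl2
  obtain ⟨h9, h10⟩ := img_index _ hp W hWu l hl hli
  obtain ⟨i, hi⟩ := h8 l hl (by have := hl.two_le; omega) h9
  refine (hw W i hW).2 (hi (w W i) ?_ (h10 (hw W i hW).1))
  rw [mem_biUnion]
  exact ⟨W, hW, mem_image_of_mem _ (mem_univ i)⟩

end Pool.Agent.Q84.AR
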