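import Pool.Agent.Q84.AR6

set_option autoImplicit false

/-!
For most primes `p` such that `p - 1` has only large odd prime factors, the integers up to a power of `p`
that are quadratic nonresidues but not primitive roots are contained in a bounded number of sets of bounded
rank.
-/

namespace Pool.Agent.Q84.AR

open Finset Pool.Agent.Y855

/-- the set `A` of integers does not contain `K` multiplicatively independent elements -/
def RkZ (K : ℕ) (A : Set ℤ) : Prop :=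
  ∀ b : Fin K → ℤ, (∀ j, b j ∈ A) → ¬ ∀ e : Fin K → ℤ, ∏ j, (b j : ℚ) ^ e j = 1 → ∀ j, e j = 0

lemma RkZ.mono {K : ℕ} {A A' : Set ℤ} (h : RkZ K A) (hA : A' ⊆ A) : RkZ K A' :=
  fun b hb => h b fun j => hA (hb j)

theorem exc (K N H : ℕ) (hH : 1 ≤ H) : ∃ B : Finset ℕ,
    B.card ≤ (2 * H + 1) ^ K * ((2 * N + 1) ^ K * (2 * K * N * H + 1)) ∧
    ∀ p : ℕ, p.Prime → H < p → p ∉ B → ∀ g : ℕ, 0 < g → g < (N + 1) ^ K →
      RkZ K {n : ℤ | n ≠ 0 ∧ n.natAbs ≤ H ∧ (n : ZMod p) ^ g = 1} := by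
  classical
  obtain ⟨T, hT⟩ : ∃ T : Finset (Fin K → ℤ), T = Fintype.piFinset (fun _ => Icc (-(H : ℤ)) H) := ⟨_, rfl⟩
  have hB : ∀ b : Fin K → ℤ, ∃ B : Finset ℕ, B.card ≤ (2 * N + 1) ^ K * (2 * K * N * H + 1) ∧
      ((∀ i, b i ≠ 0) → (∀ i, (b i).natAbs ≤ H) → Ind (fun i => (b i : ℚ)) →
        ∀ p : ℕ, p.Prime → (∀ i, ¬ (p : ℤ) ∣ b i) → ∀ g : ℕ, 0 < g → g < (N + 1) ^ K →
        (∀ i, ((b i : ℤ) : ZMod p) ^ g = 1) → p ∈ B) := by
    intro b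
    by_cases h : (∀ i, b i ≠ 0) ∧ (∀ i, (b i).natAbs ≤ H) ∧ Ind (fun i => (b i : ℚ))
    · obtain ⟨B, hB1, hB2⟩ := gm_rat b (fun _ => 1) H hH h.2.1 (fun _ => by simpa using hH)
        (fun v hv => by
          have := Mr_ne (b := fun i => (b i : ℚ)) (fun i => by exact_mod_cast h.1 i) h.2.2 hv
          simpa using this) N
      refine ⟨B, hB1, fun _ _ _ p hp hpb g hg hgN hbg => hB2 p hp hpb (fun i hd => ?_) g hg hgN
        fun i => by rw [hbg i]; simp⟩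
      have h1 : p ∣ 1 := by exact_mod_cast hd
      exact hp.one_lt.ne' (Nat.dvd_one.1 h1)
    · exact ⟨∅, by simp, fun h1 h2 h3 => absurd ⟨h1, h2, h3⟩ h⟩
  choose BB hBB1 hBB2 using hB
  refine ⟨T.biUnion BB, ?_, fun p hp hpH hpB g hg hgN b hb hI => ?_⟩
  · refine card_biUnion_le.trans ((sum_le_card_nsmul _ _ _ fun b _ => hBB1 b).trans ?_)
    rw [smul_eq_mul]
    apply Nat.mul_le_mul_right
    rw [hT, Fintype.card_piFinset, prod_const, card_univ, Fintype.card_fin, Int.card_Icc]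
    apply Nat.pow_le_pow_left
    omega
  · apply hpB
    rw [mem_biUnion]
    refine ⟨b, ?_, hBB2 b (fun i => (hb i).1) (fun i => (hb i).2.1) hI p hp (fun i hd => ?_) g hg hgN
      fun i => (hb i).2.2⟩
    · rw [hT, Fintype.mem_piFinset]
      intro i
      have := (hb i).2.1
      rw [mem_Icc]
      omega
    · have h1 := Int.natCast_dvd.1 hd
      have h2 := Nat.le_of_dvd (Int.natAbs_pos.2 (hb i).1) h1
      have := (hb i).2.1
      omega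

/-- all the quadratic nonresidues `n`, `|n| ≤ H`, outside `K` sets without `K` independent elements are
primitive roots modulo `p` -/
def GoodP (K H p : ℕ) : Prop := ∃ S : Fin K → Set ℤ, (∀ i, RkZ K (S i)) ∧
  ∀ n : ℤ, n ≠ 0 → n.natAbs ≤ H → ¬ IsSquare (n : ZMod p) → (∀ i, n ∉ S i) →
    orderOf (n : ZMod p) = p - 1

theorem goodP_of (κ : ℕ) (hκ : 2 ≤ κ) (z H p : ℕ) (B : Finset ℕ)
    (hB : ∀ p : ℕ, p.Prime → H < p → p ∉ B → ∀ g : ℕ, 0 < g → g < (Nat.sqrt z + 1) ^ (2 * (κ - 1)) →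
      RkZ (2 * (κ - 1)) {n : ℤ | n ≠ 0 ∧ n.natAbs ≤ H ∧ (n : ZMod p) ^ g = 1})
    (hp : p.Prime) (hpH : H < p) (hp2 : 2 < p) (hpB : p ∉ B) (hpz : p ≤ (z + 1) ^ κ)
    (hodd : ∀ l : ℕ, l.Prime → 3 ≤ l → l ∣ p - 1 → z < l) : GoodP (2 * (κ - 1)) H p := by
  classical
  haveI : Fact p.Prime := ⟨hp⟩
  have hp1 : 0 < p - 1 := by omega
  obtain ⟨Λ, hΛ⟩ : ∃ Λ : Finset ℕ, Λ = (p - 1).primeFactors.filter (fun l => z < l) := ⟨_, rfl⟩
  have hΛm : ∀ l ∈ Λ, l.Prime ∧ l ∣ p - 1 ∧ z + 1 ≤ l := by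
    intro l hl
    rw [hΛ, mem_filter] at hl
    exact ⟨Nat.prime_of_mem_primeFactors hl.1, Nat.dvd_of_mem_primeFactors hl.1, hl.2⟩
  have hΛc : Λ.card < κ := by
    by_contra hcon
    push Not at hcon
    have h2 : ∏ l ∈ Λ, l ∣ p - 1 := Finset.prod_primes_dvd _
      (fun l hl => (hΛm l hl).1.prime) fun l hl => (hΛm l hl).2.1
    have h3 := Nat.le_of_dvd hp1 h2
    have h4 : (z + 1) ^ Λ.card ≤ ∏ l ∈ Λ, l := by
      rw [← prod_const]
      exact prod_le_prod' fun l hl => (hΛm l hl).2.2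
    have h5 : (z + 1) ^ κ ≤ (z + 1) ^ Λ.card := Nat.pow_le_pow_right (by omega) hcon
    omega
  have hΛK : Λ.card ≤ 2 * (κ - 1) := by omega
  obtain ⟨f, hf⟩ : ∃ f : Fin (2 * (κ - 1)) → ℕ, ∀ l ∈ Λ, ∃ i, f i = l := by
    refine ⟨fun i => if h : (i : ℕ) < Λ.card then Λ.equivFin.symm ⟨i, h⟩ else 0, fun l hl => ?_⟩
    obtain ⟨j, hj⟩ : ∃ j, Λ.equivFin.symm j = ⟨l, hl⟩ := Λ.equivFin.symm.surjective _
    refine ⟨⟨j, j.2.trans_le hΛK⟩, ?_⟩
    simp only [j.2, dif_pos]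
    rw [Fin.eta, hj]
  refine ⟨fun i => {n : ℤ | n ≠ 0 ∧ n.natAbs ≤ H ∧ f i ∈ Λ ∧ (n : ZMod p) ^ ((p - 1) / f i) = 1}, ?_, ?_⟩
  · intro i
    by_cases hi : f i ∈ Λ
    · obtain ⟨h1, h2, h3⟩ := hΛm _ hi
      have hg0 : 0 < (p - 1) / f i := Nat.div_pos (Nat.le_of_dvd hp1 h2) h1.pos
      have hg1 : (p - 1) / f i < (z + 1) ^ (κ - 1) := by
        rw [Nat.div_lt_iff_lt_mul h1.pos]
        calc p - 1 < (z + 1) ^ κ := by omega
          _ = (z + 1) ^ (κ - 1) * (z + 1) := by rw [← pow_succ]; congr 1; omega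
          _ ≤ (z + 1) ^ (κ - 1) * f i := Nat.mul_le_mul_left _ h3
      have hg2 : (z + 1) ^ (κ - 1) ≤ (Nat.sqrt z + 1) ^ (2 * (κ - 1)) := by
        rw [pow_mul]
        exact Nat.pow_le_pow_left (Nat.lt_succ_sqrt' z) _
      refine (hB p hp hpH hpB _ hg0 (hg1.trans_le hg2)).mono ?_
      rintro n ⟨h4, h5, h6, h7⟩
      exact ⟨h4, h5, h7⟩
    · intro b hb _
      exact hi (hb ⟨0, by omega⟩).2.2.1
  · intro n hn0 hnH hsq hnS
    have hpn : ((n : ℤ) : ZMod p) ≠ 0 := by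
      intro h
      have h1 := Int.natCast_dvd.1 ((ZMod.intCast_zmod_eq_zero_iff_dvd _ _).1 h)
      have h2 := Nat.le_of_dvd (Int.natAbs_pos.2 hn0) h1
      omega
    refine orderOf_eq_of_pow_and_pow_div_prime hp1 (ZMod.pow_card_sub_one_eq_one hpn) ?_
    intro l hl hlp hcon
    by_cases hl2 : l = 2
    · subst hl2
      apply hsq
      rw [ZMod.euler_criterion p hpn]
      have h1 : p / 2 = (p - 1) / 2 := by
        rcases hp.eq_two_or_odd with h | h <;> omega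
      rw [h1]
      exact hcon
    · have hl3 : 3 ≤ l := by have := hl.two_le; omega
      have hlΛ : l ∈ Λ := by
        rw [hΛ, mem_filter, Nat.mem_primeFactors]
        exact ⟨⟨hl, hlp, by omega⟩, hodd l hl hl3 hlp⟩
      obtain ⟨i, hi⟩ := hf l hlΛ
      exact hnS i ⟨hn0, hnH, by rw [hi]; exact hlΛ, by rw [hi]; exact hcon⟩

end Pool.Agent.Q84.AR
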