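import Pool.Agent.Q84.AR8
import Pool.Agent.Y855.A16

set_option autoImplicit false

/-!
The number of good primes in a residue class.
-/

namespace Pool.Agent.Q84.AR

open Finset Pool.Agent.Y855 Pool.Agent.H442R2.KF

open Classical in
theorem count_class : ∃ κ : ℕ, 3 ≤ κ ∧ ∀ B : ℕ, ∃ x₀ : ℕ, ∀ x : ℕ, x₀ ≤ x → ∀ m a : ℕ, 1 ≤ m →
    (m : ℝ) ≤ (Real.log x) ^ B → a.Coprime m → (∀ q ∈ m.primeFactors, 3 ≤ q → a % q ≠ 1) →
    ∀ H : ℕ, 1 ≤ H → (H : ℝ) ≤ Real.exp (Real.log x / (8 * κ ^ 2)) →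
      (x : ℝ) / (Real.log x) ^ (B + 3) ≤
        (((Icc 1 x).filter (fun p => p.Prime ∧ p ≡ a [MOD m] ∧ GoodP (2 * (κ - 1)) H p)).card : ℝ) := by
  obtain ⟨K', hK'1, hcore⟩ := core (1 / 2) (by norm_num)
  obtain ⟨κ, hκ⟩ : ∃ κ : ℕ, κ = ⌈K'⌉₊ + 2 := ⟨_, rfl⟩
  have hκ3 : 3 ≤ κ := by
    have : 1 ≤ ⌈K'⌉₊ := Nat.one_le_ceil_iff.2 (by linarith)
    omega
  have hκK : K' ≤ κ := by
    have := Nat.le_ceil K'
    rw [hκ]; push_cast; linarith
  have hκr : (3 : ℝ) ≤ κ := by exact_mod_cast hκ3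
  refine ⟨κ, hκ3, fun B => ?_⟩
  obtain ⟨x₁, hx₁3, hcore⟩ := hcore B
  obtain ⟨K, hK⟩ : ∃ K : ℕ, K = 2 * (κ - 1) := ⟨_, rfl⟩
  obtain ⟨C, hC⟩ : ∃ C : ℝ, C = 9 ^ K * (2 * K + 1) := ⟨_, rfl⟩
  have hC0 : 0 ≤ C := by rw [hC]; positivity
  obtain ⟨L₁, hL₁⟩ := ev_exp2 (4 * κ ^ 2) (by nlinarith) (B + 3) (C + 4)
  obtain ⟨L₂, hL₂⟩ : ∃ L₂ : ℝ, L₂ = max (max L₁ 4) (max (4 * K') ((4 * κ) ^ 2)) := ⟨_, rfl⟩
  refine ⟨max x₁ ⌈Real.exp L₂⌉₊, fun x hx m a hm hmB ham hma H hH1 hH => ?_⟩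
  have hxx₁ : x₁ ≤ x := (le_max_left _ _).trans hx
  have hx3 : 3 ≤ x := hx₁3.trans hxx₁
  have hx3r : (3 : ℝ) ≤ x := by exact_mod_cast hx3
  have hx0 : (0 : ℝ) < x := by linarith
  obtain ⟨-, hcore⟩ := hcore x hxx₁
  obtain ⟨L, hL⟩ : ∃ L : ℝ, L = Real.log x := ⟨_, rfl⟩
  rw [← hL] at hmB hH hcore ⊢
  have hLL : L₂ ≤ L := by
    rw [hL, Real.le_log_iff_exp_le hx0]
    have h1 := Nat.le_ceil (Real.exp L₂)
    have h2 : ((⌈Real.exp L₂⌉₊ : ℕ) : ℝ) ≤ x := by exact_mod_cast (le_max_right _ _).trans hx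
    linarith
  have hLa : L₁ ≤ L := ((le_max_left _ _).trans (le_max_left _ _)).trans (hL₂ ▸ hLL)
  have hLb : 4 ≤ L := ((le_max_right _ _).trans (le_max_left _ _)).trans (hL₂ ▸ hLL)
  have hLc : 4 * K' ≤ L := ((le_max_left _ _).trans (le_max_right _ _)).trans (hL₂ ▸ hLL)
  have hLd : (4 * (κ : ℝ)) ^ 2 ≤ L := ((le_max_right _ _).trans (le_max_right _ _)).trans (hL₂ ▸ hLL)
  have hL0 : 0 < L := by linarith
  -- the unit
  obtain ⟨F, hF⟩ : ∃ F : ℝ, F = Real.exp (L / (8 * κ ^ 2)) := ⟨_, rfl⟩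
  have hF0 : 0 < F := by rw [hF]; exact Real.exp_pos _
  have hF1 : 1 ≤ F := by rw [hF]; exact Real.one_le_exp (by positivity)
  have hFx : F ^ (8 * κ ^ 2) = x := by
    rw [hF, ← Real.exp_nat_mul, ← Real.exp_log hx0, ← hL]
    congr 1
    push_cast
    field_simp
  obtain ⟨w, hw⟩ : ∃ w : ℝ, w = F ^ (8 * κ) := ⟨_, rfl⟩
  have hwκ : w ^ κ = x := by
    rw [hw, ← pow_mul, ← hFx]
    congr 1
    ring
  have hw1 : 1 ≤ w := by rw [hw]; exact one_le_pow₀ hF1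
  have hwlog : Real.log w = L / κ := by
    have h1 : Real.log (w ^ κ) = L := by rw [hwκ, hL]
    rw [Real.log_pow] at h1
    field_simp
    linarith
  obtain ⟨z, hz⟩ : ∃ z : ℕ, z = ⌊w⌋₊ := ⟨_, rfl⟩
  have hzw : (z : ℝ) ≤ w := by rw [hz]; exact Nat.floor_le (by linarith)
  have hwz : w < (z : ℝ) + 1 := by rw [hz]; exact Nat.lt_floor_add_one w
  have hsqL : √L * √L = L := Real.mul_self_sqrt hL0.le
  have hsq4 : 4 * (κ : ℝ) ≤ √L := by
    rw [← Real.sqrt_sq (by positivity : (0 : ℝ) ≤ 4 * κ)]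
    exact Real.sqrt_le_sqrt hLd
  have hw2 : 2 ≤ w := by
    rw [← Real.exp_log (by linarith : 0 < w), hwlog]
    have h1 : 1 ≤ L / κ := by
      rw [le_div_iff₀ (by linarith)]
      nlinarith
    have h2 := Real.add_one_le_exp (L / κ)
    linarith
  have hz1 : (1 : ℝ) ≤ z := by
    have : (1 : ℕ) ≤ z := by rw [hz]; exact Nat.le_floor (by push_cast; linarith)
    exact_mod_cast this
  have hlogz : √L ≤ Real.log z := by
    have h1 : w / 2 ≤ z := by linarith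
    have h2 := Real.log_le_log (by positivity) h1
    rw [Real.log_div (by positivity) (by norm_num), hwlog] at h2
    have h3 : Real.log 2 ≤ 1 := by
      have := Real.log_two_lt_d9
      linarith
    have h4 : √L * 4 ≤ L / κ := by
      rw [le_div_iff₀ (by linarith)]
      nlinarith
    have h5 : 1 ≤ √L := by linarith
    linarith
  have hzK : (z : ℝ) ^ K' ≤ x := by
    calc (z : ℝ) ^ K' ≤ (z : ℝ) ^ (κ : ℝ) := Real.rpow_le_rpow_of_exponent_le hz1 hκK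
      _ = (z : ℝ) ^ κ := Real.rpow_natCast _ _
      _ ≤ w ^ κ := pow_le_pow_left₀ (by positivity) hzw κ
      _ = x := hwκ
  obtain ⟨hz2, -, -, hTT, -, hNS⟩ := hcore z hlogz hzK
  have hNS := hNS m a hm hmB ham hma
  have hlz : Real.log z ≤ L := by
    rw [hL]
    apply Real.log_le_log (by linarith)
    refine hzw.trans ?_
    rw [← hwκ]
    exact le_self_pow₀ hw1 (by omega)
  have hlz0 : 0 < Real.log z := lt_of_lt_of_le (Real.sqrt_pos.2 hL0) hlogz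
  have hcl := cl_ge m hm
  have hclp := cl_pos m hm
  have hm0 : (0 : ℝ) < m := by exact_mod_cast hm
  have hLB0 : 0 < L ^ B := by positivity
  -- the lower bound for the sifted set
  have hlow : (x : ℝ) / (2 * K' * L ^ (B + 2)) ≤ ((NS x m a (OP z)).card : ℝ) := by
    have h1 := (abs_le.1 hNS).1
    have h2 : (x : ℝ) / (2 * K' * L ^ (B + 2)) ≤ 1 / 2 * (cl m * (TT x z).card) := by
      have h3 : (x : ℝ) / (K' * (L * L)) ≤ ((TT x z).card : ℝ) := by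
        refine le_trans ?_ hTT
        apply div_le_div_of_nonneg_left hx0.le (by positivity)
        gcongr
      have h4 : 1 / L ^ B ≤ cl m := le_trans (one_div_le_one_div_of_le hm0 hmB) hcl
      calc (x : ℝ) / (2 * K' * L ^ (B + 2)) = 1 / 2 * (1 / L ^ B * (x / (K' * (L * L)))) := by
            rw [pow_add]
            field_simp
        _ ≤ _ := by
            apply mul_le_mul_of_nonneg_left _ (by norm_num)
            exact mul_le_mul h4 h3 (by positivity) hclp.le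
    linarith
  -- the exceptional set
  obtain ⟨N, hN⟩ : ∃ N : ℕ, N = Nat.sqrt z := ⟨_, rfl⟩
  obtain ⟨E, hE1, hE2⟩ := exc K N H hH1
  have hNF : (N : ℝ) ≤ F ^ (4 * κ) := by
    have h1 : (N : ℝ) ^ 2 ≤ z := by
      have := Nat.sqrt_le' z
      rw [hN]
      exact_mod_cast this
    have h2 : (F ^ (4 * κ)) ^ 2 = w := by
      rw [hw, ← pow_mul]
      congr 1
      ring
    have h3 : (N : ℝ) ^ 2 ≤ (F ^ (4 * κ)) ^ 2 := by rw [h2]; linarith
    exact le_of_sq_le_sq h3 (by positivity)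
  have hHF : (H : ℝ) ≤ F := by rw [hF]; exact hH
  have hEc : (E.card : ℝ) ≤ C * F ^ (8 * κ ^ 2 - 2 * κ - 1) := by
    have h1 : (E.card : ℝ) ≤ (2 * (H : ℝ) + 1) ^ K * ((2 * (N : ℝ) + 1) ^ K * (2 * K * N * H + 1)) := by
      exact_mod_cast hE1
    refine h1.trans ?_
    have h4κ : 1 ≤ F ^ (4 * κ) := one_le_pow₀ hF1
    have h2 : (2 * (H : ℝ) + 1) ≤ 3 * F := by linarith
    have h3 : (2 * (N : ℝ) + 1) ≤ 3 * F ^ (4 * κ) := by linarith
    have h4 : (2 * K * N * H + 1 : ℝ) ≤ (2 * K + 1) * (F ^ (4 * κ) * F) := by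
      have h5 : (N : ℝ) * H ≤ F ^ (4 * κ) * F := mul_le_mul hNF hHF (by positivity) (by positivity)
      have h6 : 1 ≤ F ^ (4 * κ) * F := one_le_mul_of_one_le_of_one_le h4κ hF1
      have h7 : (0 : ℝ) ≤ 2 * K := by positivity
      nlinarith
    calc (2 * (H : ℝ) + 1) ^ K * ((2 * (N : ℝ) + 1) ^ K * (2 * K * N * H + 1))
        ≤ (3 * F) ^ K * ((3 * F ^ (4 * κ)) ^ K * ((2 * K + 1) * (F ^ (4 * κ) * F))) := by
          gcongr
      _ = C * (F ^ K * (F ^ (4 * κ * K) * (F ^ (4 * κ) * F))) := by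
          rw [hC, mul_pow, mul_pow, ← pow_mul F]
          have : (9 : ℝ) ^ K = 3 ^ K * 3 ^ K := by rw [← mul_pow]; norm_num
          rw [this]
          ring
      _ = C * F ^ (8 * κ ^ 2 - 2 * κ - 1) := by
          congr 1
          rw [← pow_succ, ← pow_add, ← pow_add]
          congr 1
          obtain ⟨j, rfl⟩ : ∃ j, κ = j + 1 := ⟨κ - 1, by omega⟩
          have h8 : j + 1 - 1 = j := by omega
          rw [hK, h8]
          have h9 : 8 * (j + 1) ^ 2 = (2 * j + (4 * (j + 1) * (2 * j) + (4 * (j + 1) + 1))) +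
            (2 * (j + 1) + 1) := by ring
          omega
  -- comparison
  have hcmp : (C + 4) * F ^ (8 * κ ^ 2 - 2 * κ - 1) ≤ x / L ^ (B + 3) := by
    rw [le_div_iff₀ (by positivity)]
    have h1 := hL₁ L hLa
    have h2 : Real.exp (L / (2 * ((4 * κ ^ 2 : ℕ) : ℝ))) = F := by
      rw [hF]
      congr 1
      push_cast
      ring
    rw [h2] at h1
    have h3 : F ^ (8 * κ ^ 2 - 2 * κ - 1) * F ≤ x := by
      rw [← pow_succ, ← hFx]
      apply pow_le_pow_right₀ hF1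
      have : 2 * κ + 1 ≤ 8 * κ ^ 2 := by nlinarith
      omega
    calc (C + 4) * F ^ (8 * κ ^ 2 - 2 * κ - 1) * L ^ (B + 3)
        = F ^ (8 * κ ^ 2 - 2 * κ - 1) * ((C + 4) * L ^ (B + 3)) := by ring
      _ ≤ F ^ (8 * κ ^ 2 - 2 * κ - 1) * F := by
          apply mul_le_mul_of_nonneg_left h1 (by positivity)
      _ ≤ x := h3
  have hsub : NS x m a (OP z) ⊆ ((Icc 1 x).filter (fun p => p.Prime ∧ p ≡ a [MOD m] ∧
      GoodP (2 * (κ - 1)) H p)) ∪ (E ∪ range (H + 3)) := by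
    intro p hp
    unfold NS at hp
    rw [mem_filter, mem_Icc] at hp
    obtain ⟨⟨hp1, hpx⟩, hpp, hpa, hpq⟩ := hp
    rw [mem_union, mem_union, mem_filter, mem_Icc, mem_range]
    by_cases hpE : p ∈ E
    · exact Or.inr (Or.inl hpE)
    by_cases hpH : p < H + 3
    · exact Or.inr (Or.inr hpH)
    refine Or.inl ⟨⟨hp1, hpx⟩, hpp, hpa, ?_⟩
    refine goodP_of κ (by omega) z H p E ?_ hpp (by omega) (by omega) hpE ?_ ?_
    · rw [← hK, ← hN]
      exact hE2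
    · have h1 : (p : ℝ) ≤ ((z : ℝ) + 1) ^ κ := by
        calc (p : ℝ) ≤ x := by exact_mod_cast hpx
          _ = w ^ κ := hwκ.symm
          _ ≤ _ := pow_le_pow_left₀ (by linarith) hwz.le κ
      exact_mod_cast h1
    · intro l hl hl3 hlp
      by_contra hcon
      exact hpq l (mem_OP.2 ⟨hl, hl3, not_lt.1 hcon⟩) hlp
  have hcard := (card_le_card hsub).trans ((card_union_le _ _).trans
    (Nat.add_le_add_left (card_union_le _ _) _))
  rw [card_range] at hcard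
  have hcard' : ((NS x m a (OP z)).card : ℝ) ≤
      (((Icc 1 x).filter (fun p => p.Prime ∧ p ≡ a [MOD m] ∧ GoodP (2 * (κ - 1)) H p)).card : ℝ) +
      ((E.card : ℝ) + ((H : ℝ) + 3)) := by
    exact_mod_cast hcard
  have hH3 : (H : ℝ) + 3 ≤ 4 * F ^ (8 * κ ^ 2 - 2 * κ - 1) := by
    have h1 : F ≤ F ^ (8 * κ ^ 2 - 2 * κ - 1) := by
      apply le_self_pow₀ hF1
      have : 2 * κ + 2 ≤ 8 * κ ^ 2 := by nlinarith
      omega
    linarith
  have hfin : 2 * ((x : ℝ) / L ^ (B + 3)) ≤ (x : ℝ) / (2 * K' * L ^ (B + 2)) := by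
    rw [pow_succ L (B + 2), mul_div_assoc', div_le_div_iff₀ (by positivity) (by positivity)]
    have h1 : 0 < x * L ^ (B + 2) := by positivity
    calc 2 * (x : ℝ) * (2 * K' * L ^ (B + 2)) = (4 * K') * (x * L ^ (B + 2)) := by ring
      _ ≤ L * (x * L ^ (B + 2)) := mul_le_mul_of_nonneg_right hLc h1.le
      _ = x * (L ^ (B + 2) * L) := by ring
  linarith [hcmp, hEc, hcard', hlow, hH3, hfin]

end Pool.Agent.Q84.AR
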