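import Pool.Agent.Q84.AT6

set_option autoImplicit false

/-!
# Random atomic targets cannot be compressed: the continuous statement
-/

namespace Pool.Agent.Q84.AT

open Finset MeasureTheory Pool.Agent.H730R2.LD

lemma slab_volume (d : ℕ) (s : Fin d) (a δ : ℝ) :
    volume {x : Fin d → ℝ | x ∈ Set.Icc (0 : Fin d → ℝ) 1 ∧ a ≤ x s ∧ x s < a + δ} ≤
      ENNReal.ofReal δ := by
  classical
  have hsub : {x : Fin d → ℝ | x ∈ Set.Icc (0 : Fin d → ℝ) 1 ∧ a ≤ x s ∧ x s < a + δ} ⊆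
      Set.pi Set.univ (fun t : Fin d => if t = s then Set.Ico a (a + δ) else Set.Icc (0 : ℝ) 1) := by
    intro x hx t _
    obtain ⟨hx1, hx2, hx3⟩ := hx
    by_cases ht : t = s
    · simp only [if_pos ht]
      subst ht
      exact ⟨hx2, hx3⟩
    · simp only [if_neg ht]
      exact ⟨hx1.1 t, hx1.2 t⟩
  refine (measure_mono hsub).trans ?_
  rw [volume_pi, Measure.pi_pi]
  have h1 : ∀ t : Fin d, (volume : Measure ℝ)
      (if t = s then Set.Ico a (a + δ) else Set.Icc (0 : ℝ) 1) =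
      if t = s then ENNReal.ofReal δ else 1 := by
    intro t
    by_cases ht : t = s
    · simp only [if_pos ht, Real.volume_Ico]
      congr 1
      ring
    · simp only [if_neg ht, Real.volume_Icc]
      norm_num
  simp only [h1]
  rw [Finset.prod_ite_eq' univ s (fun _ => ENNReal.ofReal δ)]
  simp

/-- the failing configurations -/
def CP (d N : ℕ) (ε c : ℝ) (ξ : Fin N → Fin d → ℝ) : Prop :=
  ∀ (v : Fin N → ℝ), (∀ i, 1 ≤ |v i|) → ∀ (m : ℕ) (w : Fin m → ℝ) (η : Fin m → Fin d → ℝ),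
    (m : ℝ) ≤ (1 - ε) * N →
    ENNReal.ofReal c ≤ volume {x : Fin d → ℝ | x ∈ Set.Icc (0 : Fin d → ℝ) 1 ∧
      c * (Real.log N) ^ (((d : ℝ) - 1) / 2) ≤
        |∑ i, (if ∀ s, ξ i s ≤ x s then v i else 0) - ∑ j, (if ∀ s, η j s ≤ x s then w j else 0)|}

/-- from the points of the grid to all points -/
lemma CP_of_GP {d N R : ℕ} {ε e0 c : ℝ} (hN : 2 ≤ N) (he0 : 0 < e0)
    (hR : 2 * (N * d) / e0 ≤ (2 : ℝ) ^ R) (g : Fin N → Fin d → Fin (2 ^ R))
    (h : GP d R N ε e0 c g) (ξ : Fin N → Fin d → ℝ)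
    (hξ : ∀ i s, ((g i s).val : ℝ) / 2 ^ R ≤ ξ i s ∧ ξ i s < (((g i s).val : ℝ) + 1) / 2 ^ R) :
    CP d N ε (min (e0 / 2) c) ξ := by
  classical
  have h2 : (0 : ℝ) < 2 ^ R := by positivity
  intro v hv m w η hm
  have h1 := cube_of_grid g h v hv m w η hm
  set θ : ℝ := (Real.log N) ^ (((d : ℝ) - 1) / 2) with hθ
  have hθ0 : 0 ≤ θ := Real.rpow_nonneg (Real.log_nonneg (by
    have : (2 : ℝ) ≤ N := by exact_mod_cast hN
    linarith)) _
  set A : Set (Fin d → ℝ) := {x : Fin d → ℝ | x ∈ Set.Icc (0 : Fin d → ℝ) 1 ∧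
      c * θ ≤ |cnt v (fun i s => (((g i s).val : ℝ)) / 2 ^ R) w η x|} with hA
  set S : Set (Fin d → ℝ) := ⋃ p : Fin N × Fin d, {x : Fin d → ℝ | x ∈ Set.Icc (0 : Fin d → ℝ) 1 ∧
    ((g p.1 p.2).val : ℝ) / 2 ^ R ≤ x p.2 ∧ x p.2 < ((g p.1 p.2).val : ℝ) / 2 ^ R + 1 / 2 ^ R}
    with hS
  have hSv : volume S ≤ ENNReal.ofReal (e0 / 2) := by
    refine (measure_iUnion_le _).trans ?_
    rw [tsum_fintype]
    refine (Finset.sum_le_sum fun p _ => slab_volume d p.2 _ (1 / 2 ^ R)).trans ?_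
    rw [Finset.sum_const, Finset.card_univ, Fintype.card_prod, Fintype.card_fin, Fintype.card_fin,
      nsmul_eq_mul, ← ENNReal.ofReal_natCast, ← ENNReal.ofReal_mul (by positivity)]
    apply ENNReal.ofReal_le_ofReal
    rw [mul_one_div, div_le_iff₀ h2]
    rw [div_le_iff₀ he0] at hR
    push_cast
    linarith
  have hsub : A ⊆ {x : Fin d → ℝ | x ∈ Set.Icc (0 : Fin d → ℝ) 1 ∧
      (min (e0 / 2) c) * θ ≤ |∑ i, (if ∀ s, ξ i s ≤ x s then v i else 0) -
        ∑ j, (if ∀ s, η j s ≤ x s then w j else 0)|} ∪ S := by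
    intro x hx
    by_cases hxS : x ∈ S
    · exact Or.inr hxS
    · left
      refine ⟨hx.1, ?_⟩
      refine le_trans (mul_le_mul_of_nonneg_right (min_le_right _ _) hθ0) (hx.2.trans (le_of_eq ?_))
      unfold cnt
      have hterm : ∀ i, (if ∀ s, ((g i s).val : ℝ) / 2 ^ R ≤ x s then v i else 0) =
          (if ∀ s, ξ i s ≤ x s then v i else 0) := by
        intro i
        have hiff : (∀ s, ((g i s).val : ℝ) / 2 ^ R ≤ x s) ↔ (∀ s, ξ i s ≤ x s) := by
          constructor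
          · intro h3 s
            by_contra h4
            apply hxS
            rw [hS]
            refine Set.mem_iUnion.2 ⟨(i, s), hx.1, h3 s, ?_⟩
            push Not at h4
            have h5 := (hξ i s).2
            have h6 : (((g i s).val : ℝ) + 1) / 2 ^ R = ((g i s).val : ℝ) / 2 ^ R + 1 / 2 ^ R := by
              ring
            simp only
            linarith
          · intro h3 s
            exact (hξ i s).1.trans (h3 s)
        by_cases h3 : ∀ s, ((g i s).val : ℝ) / 2 ^ R ≤ x s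
        · rw [if_pos h3, if_pos (hiff.1 h3)]
        · rw [if_neg h3, if_neg (fun h4 => h3 (hiff.2 h4))]
      rw [Finset.sum_congr rfl fun i _ => hterm i]
  have h3 := (h1.trans (measure_mono hsub)).trans (measure_union_le _ _)
  have h4 : ENNReal.ofReal e0 = ENNReal.ofReal (e0 / 2) + ENNReal.ofReal (e0 / 2) := by
    rw [← ENNReal.ofReal_add (by positivity) (by positivity)]
    congr 1
    ring
  rw [h4] at h3
  have h5 : ENNReal.ofReal (e0 / 2) + ENNReal.ofReal (e0 / 2) ≤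
      volume {x : Fin d → ℝ | x ∈ Set.Icc (0 : Fin d → ℝ) 1 ∧
      (min (e0 / 2) c) * θ ≤ |∑ i, (if ∀ s, ξ i s ≤ x s then v i else 0) -
        ∑ j, (if ∀ s, η j s ≤ x s then w j else 0)|} + ENNReal.ofReal (e0 / 2) :=
    h3.trans (add_le_add le_rfl hSv)
  have h6 := (ENNReal.add_le_add_iff_right ENNReal.ofReal_ne_top).1 h5
  exact (ENNReal.ofReal_le_ofReal (min_le_left _ _)).trans h6

/-- **Random atomic targets cannot be compressed.** -/
theorem incompressible (d : ℕ) (hd : 1 ≤ d) (ε κ : ℝ) (hε : 0 < ε) (hε1 : ε ≤ 1) (hκ : 0 < κ)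
    (hκ1 : κ ≤ 1) : ∃ c : ℝ, 0 < c ∧ ∀ N : ℕ, 2 ≤ N →
      volume {ξ : Fin N → Fin d → ℝ | (∀ i s, ξ i s ∈ Set.Ico (0 : ℝ) 1) ∧ ¬ CP d N ε c ξ} ≤
        ENNReal.ofReal κ := by
  classical
  obtain ⟨e0, he0, c, hc, C, hC, H⟩ := grid_random d hd ε κ hε hε1 hκ hκ1
  refine ⟨min (e0 / 2) c, lt_min (by positivity) hc, ?_⟩
  intro N hN
  obtain ⟨R, hR⟩ := pow_unbounded_of_one_lt (max (C * N) (2 * (N * d) / e0))
    (by norm_num : (1 : ℝ) < 2)
  have hR1 : C * N ≤ 2 ^ R := (le_max_left _ _).trans hR.le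
  have hR2 : 2 * (N * d) / e0 ≤ (2 : ℝ) ^ R := (le_max_right _ _).trans hR.le
  have h2 : (0 : ℝ) < 2 ^ R := by positivity
  set Z := univ.filter (fun ξ : Fin N → Fin d → Fin (2 ^ R) => ¬ GP d R N ε e0 c ξ) with hZ
  have hcard := H N hN R hR1
  rw [← hZ] at hcard
  set Q : (Fin N → Fin d → Fin (2 ^ R)) → Set (Fin N → Fin d → ℝ) := fun g =>
    Set.pi Set.univ fun i => Set.pi Set.univ fun s =>
      Set.Ico (((g i s).val : ℝ) / 2 ^ R) ((((g i s).val : ℝ) + 1) / 2 ^ R) with hQ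
  have hsub : {ξ : Fin N → Fin d → ℝ | (∀ i s, ξ i s ∈ Set.Ico (0 : ℝ) 1) ∧
      ¬ CP d N ε (min (e0 / 2) c) ξ} ⊆ ⋃ g ∈ Z, Q g := by
    intro ξ hξ
    obtain ⟨hξ1, hξ2⟩ := hξ
    have hfl : ∀ i s, ⌊ξ i s * 2 ^ R⌋₊ < 2 ^ R := by
      intro i s
      rw [Nat.floor_lt (mul_nonneg (hξ1 i s).1 h2.le)]
      push_cast
      have := mul_lt_mul_of_pos_right (hξ1 i s).2 h2
      linarith
    set g : Fin N → Fin d → Fin (2 ^ R) := fun i s => ⟨⌊ξ i s * 2 ^ R⌋₊, hfl i s⟩ with hg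
    have hgξ : ∀ i s, ((g i s).val : ℝ) / 2 ^ R ≤ ξ i s ∧
        ξ i s < (((g i s).val : ℝ) + 1) / 2 ^ R := by
      intro i s
      constructor
      · rw [div_le_iff₀ h2]
        exact Nat.floor_le (mul_nonneg (hξ1 i s).1 h2.le)
      · rw [lt_div_iff₀ h2]
        exact Nat.lt_floor_add_one _
    have hgZ : g ∈ Z := by
      rw [hZ, mem_filter]
      refine ⟨mem_univ _, fun hGP => hξ2 ?_⟩
      exact CP_of_GP hN he0 hR2 g hGP ξ hgξ
    refine Set.mem_iUnion₂.2 ⟨g, hgZ, ?_⟩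
    intro i _ s _
    exact hgξ i s
  have hQv : ∀ g, volume (Q g) = ENNReal.ofReal (((1 / 2 ^ R) ^ d) ^ N) := by
    intro g
    rw [hQ]
    simp only
    rw [volume_pi, Measure.pi_pi]
    have h3 : ∀ i : Fin N, volume (Set.pi Set.univ fun s : Fin d =>
        Set.Ico (((g i s).val : ℝ) / 2 ^ R) ((((g i s).val : ℝ) + 1) / 2 ^ R)) =
        ENNReal.ofReal ((1 / 2 ^ R) ^ d) := by
      intro i
      rw [volume_pi, Measure.pi_pi]
      have h4 : ∀ s : Fin d, volume (Set.Ico (((g i s).val : ℝ) / 2 ^ R)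
          ((((g i s).val : ℝ) + 1) / 2 ^ R)) = ENNReal.ofReal (1 / 2 ^ R) := by
        intro s
        rw [Real.volume_Ico]
        congr 1
        ring
      simp only [h4]
      rw [Finset.prod_const, Finset.card_univ, Fintype.card_fin, ENNReal.ofReal_pow (by positivity)]
    simp only [h3]
    rw [Finset.prod_const, Finset.card_univ, Fintype.card_fin,
      ENNReal.ofReal_pow (by positivity : (0 : ℝ) ≤ (1 / 2 ^ R) ^ d)]
  refine (measure_mono hsub).trans ((measure_biUnion_finset_le Z Q).trans ?_)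
  simp only [hQv]
  rw [Finset.sum_const, nsmul_eq_mul, ← ENNReal.ofReal_natCast, ← ENNReal.ofReal_mul (by positivity)]
  apply ENNReal.ofReal_le_ofReal
  refine (mul_le_mul_of_nonneg_right hcard (by positivity)).trans (le_of_eq ?_)
  rw [mul_assoc, ← mul_pow, pow_mul, ← mul_pow, mul_one_div_cancel h2.ne', one_pow, one_pow, mul_one]

end Pool.Agent.Q84.AT
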