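import Mathlib

/-!
# Abstract part of the Balian–Low theorem for Riesz bases generated by a projective unitary group
-/

open Filter Topology

namespace Pool.Agent.Q84.BLT

variable {H : Type*} [NormedAddCommGroup H] [InnerProductSpace ℂ H] [CompleteSpace H]
variable {K : Type*}

/-- Bessel bound -/
def Bessel (e : K → H) (C : ℝ) : Prop :=
  ∀ (s : Finset K) (f : H), ∑ k ∈ s, ‖inner ℂ (e k) f‖ ^ 2 ≤ C * ‖f‖ ^ 2

lemma two_toReal : (2 : ENNReal).toReal = ((2 : ℕ) : ℝ) := by norm_num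

omit [CompleteSpace H] in
lemma Bessel.summable {e : K → H} {C : ℝ} (h : Bessel e C) (f : H) :
    Summable fun k => ‖inner ℂ (e k) f‖ ^ 2 :=
  summable_of_sum_le (fun _ => by positivity) (fun s => h s f)

omit [CompleteSpace H] in
lemma Bessel.memlp {e : K → H} {C : ℝ} (h : Bessel e C) (f : H) :
    Memℓp (fun k => inner ℂ (e k) f) 2 := by
  rw [memℓp_gen_iff (by norm_num)]
  simpa only [two_toReal, Real.rpow_natCast] using h.summable f

/-- analysis operator -/
noncomputable def an (e : K → H) (C : ℝ) (h : Bessel e C) : H →ₗ[ℂ] lp (fun _ : K => ℂ) 2 where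
  toFun f := ⟨fun k => inner ℂ (e k) f, h.memlp f⟩
  map_add' := by
    intro f g
    ext k
    change inner ℂ (e k) (f + g) = inner ℂ (e k) f + inner ℂ (e k) g
    rw [inner_add_right]
  map_smul' := by
    intro c f
    ext k
    change inner ℂ (e k) (c • f) = c * inner ℂ (e k) f
    rw [inner_smul_right]

omit [CompleteSpace H] in
lemma an_apply (e : K → H) (C : ℝ) (h : Bessel e C) (f : H) (k : K) :
    an e C h f k = inner ℂ (e k) f := rfl

lemma lp_norm_sq (a : lp (fun _ : K => ℂ) 2) : ‖a‖ ^ 2 = ∑' k, ‖a k‖ ^ 2 := by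
  have h := lp.norm_rpow_eq_tsum (p := 2) (by norm_num) a
  simpa only [two_toReal, Real.rpow_natCast] using h

lemma lp_summable_sq (a : lp (fun _ : K => ℂ) 2) : Summable fun k => ‖a k‖ ^ 2 := by
  have h := (memℓp_gen_iff (p := 2) (by norm_num)).mp a.2
  simpa only [two_toReal, Real.rpow_natCast] using h

omit [CompleteSpace H] in
lemma an_norm_sq (e : K → H) (C : ℝ) (h : Bessel e C) (f : H) :
    ‖an e C h f‖ ^ 2 ≤ C * ‖f‖ ^ 2 := by
  rw [lp_norm_sq]
  exact (h.summable f).tsum_le_of_sum_le (fun s => h s f)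

omit [CompleteSpace H] in
lemma an_norm (e : K → H) (C : ℝ) (hC : 0 ≤ C) (h : Bessel e C) (f : H) :
    ‖an e C h f‖ ≤ Real.sqrt C * ‖f‖ := by
  have h1 := an_norm_sq e C h f
  have h2 : ‖an e C h f‖ ^ 2 ≤ (Real.sqrt C * ‖f‖) ^ 2 := by
    rw [mul_pow, Real.sq_sqrt hC]; exact h1
  exact abs_le_of_sq_le_sq' h2 (by positivity) |>.2

omit [CompleteSpace H] in
lemma an_continuous (e : K → H) (C : ℝ) (hC : 0 ≤ C) (h : Bessel e C) : Continuous (an e C h) :=
  ((an e C h).mkContinuous (Real.sqrt C) (an_norm e C hC h)).continuous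

omit [CompleteSpace H] in
/-- Bessel bound from the upper Riesz bound -/
lemma bessel_of_upper {e : K → H} {B : ℝ} (hB : 0 < B)
    (hup : ∀ (s : Finset K) (c : K → ℂ), ‖∑ k ∈ s, c k • e k‖ ^ 2 ≤ B * ∑ k ∈ s, ‖c k‖ ^ 2) :
    Bessel e B := by
  intro s f
  set S := ∑ k ∈ s, ‖inner ℂ (e k) f‖ ^ 2 with hS
  have hS0 : 0 ≤ S := Finset.sum_nonneg fun _ _ => by positivity
  have h1 : ((S : ℝ) : ℂ) = inner ℂ (∑ k ∈ s, (inner ℂ (e k) f) • e k) f := by
    rw [sum_inner, hS]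
    push_cast
    refine Finset.sum_congr rfl (fun k _ => ?_)
    rw [inner_smul_left, ← Complex.normSq_eq_conj_mul_self, Complex.normSq_eq_norm_sq]
    push_cast
    rfl
  have h2 : S ≤ ‖∑ k ∈ s, (inner ℂ (e k) f) • e k‖ * ‖f‖ := by
    have h3 : ‖((S : ℝ) : ℂ)‖ ≤ _ := h1 ▸ norm_inner_le_norm _ _
    rwa [Complex.norm_real, Real.norm_eq_abs, abs_of_nonneg hS0] at h3
  have h4 := hup s (fun k => inner ℂ (e k) f)
  rw [← hS] at h4
  set a := ‖∑ k ∈ s, (inner ℂ (e k) f) • e k‖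
  -- S ≤ a ‖f‖, a² ≤ B S
  by_cases h0 : S = 0
  · rw [h0]; positivity
  · have hSp : 0 < S := lt_of_le_of_ne hS0 (Ne.symm h0)
    have h5 : S ^ 2 ≤ (B * S) * ‖f‖ ^ 2 := by
      calc S ^ 2 ≤ (a * ‖f‖) ^ 2 := pow_le_pow_left₀ hS0 h2 2
        _ = a ^ 2 * ‖f‖ ^ 2 := by ring
        _ ≤ (B * S) * ‖f‖ ^ 2 := mul_le_mul_of_nonneg_right h4 (by positivity)
    have h6 : S * S ≤ S * (B * ‖f‖ ^ 2) := by nlinarith
    exact le_of_mul_le_mul_left h6 hSp

/-- existence of the biorthogonal vector -/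
lemma exists_dual [DecidableEq K] {e : K → H} {A : ℝ} (hA : 0 < A)
    (hlow : ∀ (s : Finset K) (c : K → ℂ), A * ∑ k ∈ s, ‖c k‖ ^ 2 ≤ ‖∑ k ∈ s, c k • e k‖ ^ 2)
    (k₀ : K) :
    ∃ g : H, ∀ k, inner ℂ g (e k) = if k = k₀ then 1 else 0 := by
  -- linear independence
  have hli : LinearIndependent ℂ e := by
    rw [linearIndependent_iff']
    intro s c hc k hk
    have h1 := hlow s c
    rw [hc, norm_zero] at h1
    have h2 : ∑ k ∈ s, ‖c k‖ ^ 2 ≤ 0 := by
      by_contra h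
      push Not at h
      have := mul_pos hA h
      norm_num at h1
      linarith
    have h3 : ‖c k‖ ^ 2 ≤ ∑ k ∈ s, ‖c k‖ ^ 2 :=
      Finset.single_le_sum (f := fun k => ‖c k‖ ^ 2) (fun _ _ => by positivity) hk
    have h4 : ‖c k‖ ^ 2 = 0 := le_antisymm (h3.trans h2) (by positivity)
    simpa using h4
  set S := Submodule.span ℂ (Set.range e) with hSdef
  let b := Module.Basis.span hli
  -- coordinate functional
  let φ : S →ₗ[ℂ] ℂ := b.coord k₀
  have hφ : ∀ v : S, ‖φ v‖ ≤ Real.sqrt A⁻¹ * ‖v‖ := by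
    intro v
    have h1 : (v : H) = ∑ k ∈ (b.repr v).support, (b.repr v) k • e k := by
      have h2 := b.linearCombination_repr v
      have h3 : (v : H) = ((Finsupp.linearCombination ℂ b (b.repr v) : S) : H) := by rw [h2]
      rw [h3, Finsupp.linearCombination_apply, Finsupp.sum, AddSubmonoidClass.coe_finsetSum]
      refine Finset.sum_congr rfl (fun k _ => ?_)
      rw [Submodule.coe_smul]
      congr 1
      exact congrArg Subtype.val (Module.Basis.span_apply hli k)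
    have h4 := hlow (b.repr v).support (fun k => (b.repr v) k)
    rw [← h1] at h4
    have h5 : ‖φ v‖ ^ 2 ≤ ∑ k ∈ (b.repr v).support, ‖(b.repr v) k‖ ^ 2 := by
      change ‖(b.repr v) k₀‖ ^ 2 ≤ _
      by_cases hk : k₀ ∈ (b.repr v).support
      · exact Finset.single_le_sum (f := fun k => ‖(b.repr v) k‖ ^ 2) (fun _ _ => by positivity) hk
      · rw [Finsupp.notMem_support_iff.mp hk]
        simp only [norm_zero, ne_eq, OfNat.ofNat_ne_zero, not_false_eq_true, zero_pow]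
        exact Finset.sum_nonneg fun _ _ => by positivity
    have h6 : ‖φ v‖ ^ 2 ≤ (Real.sqrt A⁻¹ * ‖v‖) ^ 2 := by
      rw [mul_pow, Real.sq_sqrt (inv_nonneg.mpr hA.le)]
      rw [← div_eq_inv_mul, le_div_iff₀ hA]
      have : ‖(v : H)‖ = ‖v‖ := rfl
      rw [← this]
      nlinarith
    exact abs_le_of_sq_le_sq' h6 (by positivity) |>.2
  let φc : S →L[ℂ] ℂ := φ.mkContinuous _ hφ
  -- extend to `H`
  obtain ⟨Φ, hΦ, -⟩ := exists_extension_norm_eq S φc
  refine ⟨(InnerProductSpace.toDual ℂ H).symm Φ, fun k => ?_⟩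
  rw [InnerProductSpace.toDual_symm_apply]
  have hk : e k ∈ S := Submodule.subset_span ⟨k, rfl⟩
  have h1 := hΦ ⟨e k, hk⟩
  rw [h1]
  change (b.repr ⟨e k, hk⟩) k₀ = _
  have h2 : (⟨e k, hk⟩ : S) = b k := (Module.Basis.span_apply hli k).symm
  rw [h2, b.repr_self, Finsupp.single_apply]

omit [CompleteSpace H] in
/-- the dual family is Bessel with constant `A⁻¹` -/
lemma bessel_dual [DecidableEq K] {e g : K → H} {A : ℝ} (hA : 0 < A)
    (hlow : ∀ (s : Finset K) (c : K → ℂ), A * ∑ k ∈ s, ‖c k‖ ^ 2 ≤ ‖∑ k ∈ s, c k • e k‖ ^ 2)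
    (hdense : Dense (Submodule.span ℂ (Set.range e) : Set H))
    (hbi : ∀ j k, inner ℂ (g j) (e k) = if j = k then (1 : ℂ) else 0) : Bessel g A⁻¹ := by
  intro s f
  -- closedness in `f`
  have hcl : IsClosed {f : H | ∑ k ∈ s, ‖inner ℂ (g k) f‖ ^ 2 ≤ A⁻¹ * ‖f‖ ^ 2} := by
    refine isClosed_le ?_ ?_ <;> fun_prop
  refine hdense.induction (P := fun f => ∑ k ∈ s, ‖inner ℂ (g k) f‖ ^ 2 ≤ A⁻¹ * ‖f‖ ^ 2)
    (fun f hf => ?_) hcl f
  obtain ⟨c, hc⟩ := (Finsupp.mem_span_range_iff_exists_finsupp).mp hf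
  have h1 : ∀ k, inner ℂ (g k) f = c k := by
    intro k
    rw [← hc, Finsupp.sum, inner_sum]
    simp only [inner_smul_right, hbi]
    rw [Finset.sum_eq_single k]
    · simp
    · intro j _ hj; simp [Ne.symm hj]
    · intro hk
      rw [Finsupp.notMem_support_iff.mp hk]; simp
  simp only [h1]
  have h2 := hlow c.support c
  have h3 : ∑ k ∈ c.support, c k • e k = f := hc
  rw [h3] at h2
  have h4 : ∑ k ∈ s, ‖c k‖ ^ 2 ≤ ∑ k ∈ c.support, ‖c k‖ ^ 2 := by
    have h5 : ∑ k ∈ s, ‖c k‖ ^ 2 = ∑ k ∈ s ∩ c.support, ‖c k‖ ^ 2 := by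
      symm
      apply Finset.sum_subset Finset.inter_subset_left
      intro k hk hk2
      have : k ∉ c.support := fun h => hk2 (Finset.mem_inter.mpr ⟨hk, h⟩)
      rw [Finsupp.notMem_support_iff.mp this]; simp
    rw [h5]
    exact Finset.sum_le_sum_of_subset_of_nonneg Finset.inter_subset_right
      (fun _ _ _ => by positivity)
  rw [← div_eq_inv_mul, le_div_iff₀ hA]
  nlinarith

omit [CompleteSpace H] in
/-- the resolution of the inner product -/
lemma resolution [DecidableEq K] {e g : K → H} {A B : ℝ} (hA : 0 < A)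
    (he : Bessel e B) (hg : Bessel g A⁻¹)
    (hdense : Dense (Submodule.span ℂ (Set.range e) : Set H))
    (hbi : ∀ j k, inner ℂ (g j) (e k) = if j = k then (1 : ℂ) else 0) (h f : H) :
    inner ℂ h f = inner ℂ (an e B he h) (an g A⁻¹ hg f) := by
  have hcl : IsClosed {f : H | inner ℂ h f = inner ℂ (an e B he h) (an g A⁻¹ hg f)} := by
    have := an_continuous g A⁻¹ (inv_nonneg.mpr hA.le) hg
    refine isClosed_eq ?_ ?_ <;> fun_prop
  refine hdense.induction (P := fun f => inner ℂ h f = inner ℂ (an e B he h) (an g A⁻¹ hg f))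
    (fun f hf => ?_) hcl f
  refine Submodule.span_induction (p := fun f _ => inner ℂ h f =
    inner ℂ (an e B he h) (an g A⁻¹ hg f)) ?_ ?_ ?_ ?_ hf
  · rintro _ ⟨k, rfl⟩
    have h1 : an g A⁻¹ hg (e k) = lp.single 2 k (1 : ℂ) := by
      ext j
      rw [an_apply, hbi]
      by_cases hj : j = k
      · subst hj; rw [if_pos rfl, lp.single_apply_self]
      · rw [if_neg hj, lp.single_apply_ne _ _ _ hj]
    rw [h1, lp.inner_single_right, an_apply]
    simp
  · simp
  · intro x y _ _ hx hy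
    rw [inner_add_right, map_add, inner_add_right, hx, hy]
  · intro c x _ hx
    rw [inner_smul_right, map_smul, inner_smul_right, hx]

end Pool.Agent.Q84.BLT
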