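import Pool.Agent.Q84.BL1

open Filter Topology

namespace Pool.Agent.Q84.BLT

variable {H : Type*} [NormedAddCommGroup H] [InnerProductSpace ℂ H] [CompleteSpace H]
variable {K : Type*} [AddCommGroup K] [DecidableEq K]

open ComplexConjugate

/-- a projective unitary representation -/
structure Proj (ρ : K → (H ≃ₗᵢ[ℂ] H)) (c : K → K → ℂ) : Prop where
  mul : ∀ k l f, ρ k (ρ l f) = c k l • ρ (k + l) f
  norm : ∀ k l, ‖c k l‖ = 1
  zero : ∀ f, ρ 0 f = f

omit [CompleteSpace H] [DecidableEq K] in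
lemma Proj.inner_left {ρ : K → (H ≃ₗᵢ[ℂ] H)} {c : K → K → ℂ} (h : Proj ρ c) (k : K) (x y : H) :
    inner ℂ (ρ k x) y = conj (c (-k) k) * inner ℂ x (ρ (-k) y) := by
  rw [← (ρ (-k)).inner_map_map (ρ k x) y, h.mul, neg_add_cancel, h.zero, inner_smul_left]

lemma cj_mul_self {z : ℂ} (h : ‖z‖ = 1) : conj z * z = 1 := by
  rw [← Complex.normSq_eq_conj_mul_self, Complex.normSq_eq_norm_sq, h]; simp

omit [CompleteSpace H] in
lemma Proj.biorth {ρ : K → (H ≃ₗᵢ[ℂ] H)} {c : K → K → ℂ} (h : Proj ρ c) {G D : H}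
    (hD : ∀ k, inner ℂ D (ρ k G) = if k = 0 then (1 : ℂ) else 0) (j k : K) :
    inner ℂ (ρ j D) (ρ k G) = if j = k then (1 : ℂ) else 0 := by
  rw [h.inner_left, h.mul, inner_smul_right, hD]
  by_cases hjk : j = k
  · subst hjk
    simp only [neg_add_cancel, if_true]
    rw [← mul_assoc, cj_mul_self (h.norm _ _), one_mul]
  · have : -j + k ≠ 0 := by
      intro h0
      apply hjk
      have := eq_neg_of_add_eq_zero_right h0
      rw [this]; simp
    rw [if_neg this, if_neg hjk]; simp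

/-- intertwining relation -/
def Inter (U : H ≃ₗᵢ[ℂ] H) (ρ : K → (H ≃ₗᵢ[ℂ] H)) (θ : K → ℂ) : Prop :=
  (∀ k f, U (ρ k f) = θ k • ρ k (U f)) ∧ (∀ k, ‖θ k‖ = 1) ∧ θ 0 = 1

omit [CompleteSpace H] [DecidableEq K] in
lemma Inter.symm_apply {U : H ≃ₗᵢ[ℂ] H} {ρ : K → (H ≃ₗᵢ[ℂ] H)} {θ : K → ℂ} (h : Inter U ρ θ)
    (k : K) (f : H) : U.symm (ρ k f) = conj (θ k) • ρ k (U.symm f) := by
  apply U.injective
  rw [U.apply_symm_apply, map_smul, h.1, U.apply_symm_apply, smul_smul, cj_mul_self (h.2.1 k),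
    one_smul]

/-- all the standing data -/
structure Data (ρ : K → (H ≃ₗᵢ[ℂ] H)) (c : K → K → ℂ) (G D : H) (A B : ℝ) : Prop where
  proj : Proj ρ c
  hA : 0 < A
  hB : 0 < B
  dense : Dense (Submodule.span ℂ (Set.range fun k => ρ k G) : Set H)
  bi : ∀ k, inner ℂ D (ρ k G) = if k = 0 then (1 : ℂ) else 0
  be : Bessel (fun k => ρ k G) B
  bg : Bessel (fun k => ρ k D) A⁻¹

variable {ρ : K → (H ≃ₗᵢ[ℂ] H)} {c : K → K → ℂ} {G D : H} {A B : ℝ}

noncomputable def Data.e (d : Data ρ c G D A B) : H →ₗ[ℂ] lp (fun _ : K => ℂ) 2 :=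
  an (fun k => ρ k G) B d.be
noncomputable def Data.g (d : Data ρ c G D A B) : H →ₗ[ℂ] lp (fun _ : K => ℂ) 2 :=
  an (fun k => ρ k D) A⁻¹ d.bg

omit [CompleteSpace H] in
lemma Data.e_apply (d : Data ρ c G D A B) (f : H) (k : K) : d.e f k = inner ℂ (ρ k G) f := rfl
omit [CompleteSpace H] in
lemma Data.g_apply (d : Data ρ c G D A B) (f : H) (k : K) : d.g f k = inner ℂ (ρ k D) f := rfl
omit [CompleteSpace H] in
lemma Data.e_norm (d : Data ρ c G D A B) (f : H) : ‖d.e f‖ ≤ Real.sqrt B * ‖f‖ :=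
  an_norm _ _ d.hB.le _ _
omit [CompleteSpace H] in
lemma Data.g_norm (d : Data ρ c G D A B) (f : H) : ‖d.g f‖ ≤ Real.sqrt A⁻¹ * ‖f‖ :=
  an_norm _ _ (inv_nonneg.mpr d.hA.le) _ _

omit [CompleteSpace H] in
lemma Data.res (d : Data ρ c G D A B) (h f : H) : inner ℂ h f = inner ℂ (d.e h) (d.g f) :=
  resolution d.hA d.be d.bg d.dense (fun j k => d.proj.biorth d.bi j k) h f

omit [CompleteSpace H] in
lemma Data.res' (d : Data ρ c G D A B) (h f : H) : inner ℂ h f = inner ℂ (d.g h) (d.e f) := by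
  rw [← inner_conj_symm, d.res f h, inner_conj_symm]

omit [CompleteSpace H] in
/-- coordinates of the reflected analysis -/
lemma Data.refl (d : Data ρ c G D A B) {U : H ≃ₗᵢ[ℂ] H} {θ : K → ℂ} (hU : Inter U ρ θ) (k : K) :
    d.e (U.symm (U D - D)) k = -(conj (θ k) * conj (c (-k) k) * conj (d.g (U G - G) (-k))) := by
  have h1 : inner ℂ (ρ k G) D = if k = 0 then (1 : ℂ) else 0 := by
    rw [← inner_conj_symm, ← d.proj.zero D, d.proj.biorth d.bi]
    by_cases hk : k = 0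
    · subst hk; simp
    · rw [if_neg (Ne.symm hk), if_neg hk]; simp
  have h2 : inner ℂ (ρ k G) (U.symm D) = conj (θ k) * inner ℂ (ρ k (U G)) D := by
    rw [← U.inner_map_map, U.apply_symm_apply, hU.1, inner_smul_left]
  have h3 : inner ℂ (ρ k G) D = conj (θ k) * inner ℂ (ρ k G) D := by
    rw [h1]
    by_cases hk : k = 0
    · subst hk; rw [hU.2.2]; simp
    · rw [if_neg hk]; simp
  have h4 : conj (d.g (U G - G) (-k)) = inner ℂ (U G - G) (ρ (-k) D) := by
    rw [d.g_apply, inner_conj_symm]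
  rw [d.e_apply, map_sub, U.symm_apply_apply, inner_sub_right, h2, h3, h4, mul_assoc,
    ← d.proj.inner_left, map_sub, inner_sub_left]
  ring

omit [CompleteSpace H] in
/-- the dual window inherits Lipschitz moduli of continuity -/
lemma Data.lip (d : Data ρ c G D A B) {U : H ≃ₗᵢ[ℂ] H} {θ : K → ℂ} (hU : Inter U ρ θ) :
    ‖U D - D‖ ≤ A⁻¹ * ‖U G - G‖ := by
  set f := U D - D with hf
  have h1 : ‖d.e (U.symm f)‖ = ‖d.g (U G - G)‖ := by
    have h2 : ‖d.e (U.symm f)‖ ^ 2 = ‖d.g (U G - G)‖ ^ 2 := by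
      rw [lp_norm_sq, lp_norm_sq, ← (Equiv.neg K).tsum_eq]
      refine tsum_congr (fun k => ?_)
      rw [hf, Equiv.neg_apply, d.refl hU, norm_neg, norm_mul, norm_mul, Complex.norm_conj,
        Complex.norm_conj, Complex.norm_conj, hU.2.1, d.proj.norm, neg_neg]
      simp
    exact (pow_left_inj₀ (norm_nonneg _) (norm_nonneg _) two_ne_zero).mp h2
  have h3 : ‖f‖ ^ 2 ≤ (Real.sqrt A⁻¹ * ‖U G - G‖) * (Real.sqrt A⁻¹ * ‖f‖) := by
    have h4 : ((‖f‖ ^ 2 : ℝ) : ℂ) = inner ℂ (d.e (U.symm f)) (d.g (U.symm f)) := by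
      rw [← d.res, U.symm.inner_map_map, inner_self_eq_norm_sq_to_K]
      push_cast; rfl
    have h5 : ‖((‖f‖ ^ 2 : ℝ) : ℂ)‖ ≤ ‖d.e (U.symm f)‖ * ‖d.g (U.symm f)‖ :=
      h4 ▸ norm_inner_le_norm _ _
    rw [Complex.norm_real, Real.norm_eq_abs, abs_of_nonneg (by positivity)] at h5
    refine h5.trans ?_
    have h6 := d.g_norm (U.symm f)
    rw [U.symm.norm_map] at h6
    rw [h1]
    exact mul_le_mul (d.g_norm _) h6 (norm_nonneg _) (by positivity)
  have h7 : Real.sqrt A⁻¹ * Real.sqrt A⁻¹ = A⁻¹ := Real.mul_self_sqrt (inv_nonneg.mpr d.hA.le)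
  by_cases h0 : ‖f‖ = 0
  · rw [h0]
    exact mul_nonneg (inv_nonneg.mpr d.hA.le) (norm_nonneg _)
  · have h8 : 0 < ‖f‖ := lt_of_le_of_ne (norm_nonneg _) (Ne.symm h0)
    have h9 : ‖f‖ * ‖f‖ ≤ (A⁻¹ * ‖U G - G‖) * ‖f‖ := by
      calc ‖f‖ * ‖f‖ = ‖f‖ ^ 2 := by ring
        _ ≤ _ := h3
        _ = (Real.sqrt A⁻¹ * Real.sqrt A⁻¹) * ‖U G - G‖ * ‖f‖ := by ring
        _ = _ := by rw [h7]
    exact le_of_mul_le_mul_right h9 h8

/-- multiplication of a sequence by `conj (w - 1)` -/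
noncomputable def mulw (w : K → ℂ) (hw : ∀ k, ‖w k‖ = 1) :
    lp (fun _ : K => ℂ) 2 →ₗ[ℂ] lp (fun _ : K => ℂ) 2 where
  toFun a := ⟨fun k => conj (w k - 1) * a k, by
    change Memℓp (fun k => conj (w k - 1) * a k) 2
    rw [memℓp_gen_iff (by norm_num)]
    simp only [two_toReal, Real.rpow_natCast]
    refine Summable.of_nonneg_of_le (fun k => by positivity) (fun k => ?_)
      ((lp_summable_sq a).mul_left 4)
    rw [norm_mul, mul_pow, Complex.norm_conj]
    have : ‖w k - 1‖ ≤ 2 := by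
      have := norm_sub_le (w k) 1
      rw [hw, norm_one] at this; linarith
    have h2 : ‖w k - 1‖ ^ 2 ≤ 2 ^ 2 := pow_le_pow_left₀ (norm_nonneg _) this 2
    nlinarith [sq_nonneg ‖a k‖]⟩
  map_add' := by
    intro a b
    ext k
    change conj (w k - 1) * (a k + b k) = conj (w k - 1) * a k + conj (w k - 1) * b k
    ring
  map_smul' := by
    intro z a
    ext k
    change conj (w k - 1) * (z * a k) = z * (conj (w k - 1) * a k)
    ring

omit [AddCommGroup K] [DecidableEq K] in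
lemma mulw_apply (w : K → ℂ) (hw : ∀ k, ‖w k‖ = 1) (a : lp (fun _ : K => ℂ) 2) (k : K) :
    mulw w hw a k = conj (w k - 1) * a k := rfl

omit [AddCommGroup K] [DecidableEq K] in
lemma mulw_norm_sq (w : K → ℂ) (hw : ∀ k, ‖w k‖ = 1) (a : lp (fun _ : K => ℂ) 2) :
    ‖mulw w hw a‖ ^ 2 = ∑' k, ‖w k - 1‖ ^ 2 * ‖a k‖ ^ 2 := by
  rw [lp_norm_sq]
  refine tsum_congr (fun k => ?_)
  rw [mulw_apply, norm_mul, mul_pow, Complex.norm_conj]

omit [AddCommGroup K] [DecidableEq K] in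
lemma w_sub_sq_le {z : ℂ} (hw : ‖z‖ = 1) : ‖z - 1‖ ^ 2 ≤ 4 := by
  have : ‖z - 1‖ ≤ 2 := by
    have := norm_sub_le z 1
    rw [hw, norm_one] at this; linarith
  nlinarith [norm_nonneg (z - 1)]

omit [AddCommGroup K] [DecidableEq K] in
lemma mulw_norm (w : K → ℂ) (hw : ∀ k, ‖w k‖ = 1) (a : lp (fun _ : K => ℂ) 2) :
    ‖mulw w hw a‖ ≤ 2 * ‖a‖ := by
  have h1 : ‖mulw w hw a‖ ^ 2 ≤ (2 * ‖a‖) ^ 2 := by
    rw [mulw_norm_sq, mul_pow, lp_norm_sq a, ← tsum_mul_left]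
    have hs := (lp_summable_sq a).mul_left ((2 : ℝ) ^ 2)
    refine (Summable.of_nonneg_of_le (fun k => by positivity) (fun k => ?_) hs).tsum_le_tsum
      (fun k => ?_) hs
    all_goals
      have := w_sub_sq_le (hw k)
      nlinarith [sq_nonneg ‖a k‖]
  exact abs_le_of_sq_le_sq' h1 (by positivity) |>.2

omit [AddCommGroup K] [DecidableEq K] in
/-- dominated convergence in `ℓ²` -/
lemma mulw_tendsto (w : ℕ → K → ℂ) (hw : ∀ n k, ‖w n k‖ = 1)
    (ht : ∀ k, Tendsto (fun n => w n k) atTop (𝓝 1)) (a : lp (fun _ : K => ℂ) 2) :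
    Tendsto (fun n => ‖mulw (w n) (hw n) a‖) atTop (𝓝 0) := by
  have h1 : Tendsto (fun n => ‖mulw (w n) (hw n) a‖ ^ 2) atTop (𝓝 0) := by
    simp only [mulw_norm_sq]
    have h2 : (0 : ℝ) = ∑' k : K, (0 : ℝ) := by simp
    rw [h2]
    refine tendsto_tsum_of_dominated_convergence (bound := fun k => 4 * ‖a k‖ ^ 2)
      ((lp_summable_sq a).mul_left 4) (fun k => ?_) (Eventually.of_forall fun n k => ?_)
    · have h3 : Tendsto (fun n => ‖w n k - 1‖ ^ 2 * ‖a k‖ ^ 2) atTop (𝓝 (‖(1 : ℂ) - 1‖ ^ 2 * ‖a k‖ ^ 2)) :=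
        (((ht k).sub_const 1).norm.pow 2).mul_const _
      simpa using h3
    · rw [Real.norm_eq_abs, abs_of_nonneg (by positivity)]
      have := w_sub_sq_le (hw n k)
      nlinarith [sq_nonneg ‖a k‖]
  have h4 := h1.sqrt
  simpa [Real.sqrt_sq (norm_nonneg _)] using h4

omit [CompleteSpace H] in
/-- the commutator identity in difference form -/
lemma Data.comm (d : Data ρ c G D A B) {U V : H ≃ₗᵢ[ℂ] H} {θ ϑ : K → ℂ}
    (hU : Inter U ρ θ) (hV : Inter V ρ ϑ) {ω : ℂ}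
    (hω : ∀ f, U (V.symm f) = ω • V.symm (U f))
    (hw : ∀ k, ‖conj (θ (-k)) * ϑ (-k)‖ = 1) :
    (1 - conj ω) * inner ℂ (V.symm (U G)) D =
      inner ℂ (mulw (fun k => conj (θ (-k)) * ϑ (-k)) hw (d.g (V.symm G - G)))
        (d.e (U.symm D - D)) := by
  set x := V.symm G - G with hx
  set y := U.symm D - D with hy
  have hδ : ∀ k, inner ℂ (ρ k D) G = if k = 0 then (1 : ℂ) else 0 := by
    intro k
    have := d.proj.biorth d.bi k 0
    rwa [d.proj.zero] at this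
  have hδ' : ∀ k, inner ℂ (ρ k G) D = if k = 0 then (1 : ℂ) else 0 := by
    intro k
    rw [← inner_conj_symm, ← d.proj.zero D, d.proj.biorth d.bi]
    by_cases hk : k = 0
    · subst hk; simp
    · rw [if_neg (Ne.symm hk), if_neg hk]; simp
  have hfix : ∀ (ψ : K → ℂ), ψ 0 = 1 → ∀ k, (if k = 0 then (1 : ℂ) else 0) =
      ψ k * (if k = 0 then (1 : ℂ) else 0) := by
    intro ψ h0 k
    by_cases hk : k = 0
    · subst hk; rw [h0]; simp
    · simp [hk]
  -- coordinates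
  have hg1 : ∀ k, d.g (U G - G) k = θ k * (conj (c (-k) k) * conj (d.e y (-k))) := by
    intro k
    have h1 : inner ℂ (ρ k D) (U G) = θ k * inner ℂ (ρ k (U.symm D)) G := by
      rw [← U.symm.inner_map_map, U.symm_apply_apply, hU.symm_apply, inner_smul_left,
        Complex.conj_conj]
    rw [d.g_apply, inner_sub_right, h1, hδ, hfix θ hU.2.2 k, ← hδ k, ← mul_sub, ← inner_sub_left,
      ← map_sub, ← hy, d.proj.inner_left, d.e_apply, inner_conj_symm]
  have he1 : ∀ k, d.e (V D - D) k = ϑ k * (conj (c (-k) k) * conj (d.g x (-k))) := by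
    intro k
    have h1 : inner ℂ (ρ k G) (V D) = ϑ k * inner ℂ (ρ k (V.symm G)) D := by
      rw [← V.symm.inner_map_map, V.symm_apply_apply, hV.symm_apply, inner_smul_left,
        Complex.conj_conj]
    rw [d.e_apply, inner_sub_right, h1, hδ', hfix ϑ hV.2.2 k, ← hδ' k, ← mul_sub, ← inner_sub_left,
      ← map_sub, ← hx, d.proj.inner_left, d.g_apply, inner_conj_symm]
  -- the three sums
  have hQ : HasSum (fun k => conj (θ k) * ϑ k * (d.e y (-k) * conj (d.g x (-k))))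
      (inner ℂ (U G - G) (V D - D)) := by
    rw [d.res' (U G - G) (V D - D)]
    have h1 := lp.hasSum_inner (𝕜 := ℂ) (d.g (U G - G)) (d.e (V D - D))
    refine h1.congr_fun ?_
    intro k
    simp only [RCLike.inner_apply, hg1, he1, map_mul, Complex.conj_conj]
    have h2 : c (-k) k * conj (c (-k) k) = 1 := by
      rw [mul_comm]; exact cj_mul_self (d.proj.norm _ _)
    linear_combination (-(conj (θ k) * ϑ k * (d.e y (-k) * conj (d.g x (-k))))) * h2
  have hxy : HasSum (fun k => (d.e y (-k) * conj (d.g x (-k)))) (inner ℂ x y) := by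
    rw [d.res' x y]
    have h1 := lp.hasSum_inner (𝕜 := ℂ) (d.g x) (d.e y)
    have h2 := (Equiv.neg K).hasSum_iff.mpr h1
    refine h2.congr_fun ?_
    intro k
    simp [RCLike.inner_apply]
  have hz : HasSum (fun k => (conj (θ k) * ϑ k - 1) * (d.e y (-k) * conj (d.g x (-k))))
      (inner ℂ (mulw (fun k => conj (θ (-k)) * ϑ (-k)) hw (d.g x)) (d.e y)) := by
    have h1 := lp.hasSum_inner (𝕜 := ℂ) (mulw (fun k => conj (θ (-k)) * ϑ (-k)) hw (d.g x)) (d.e y)
    have h2 := (Equiv.neg K).hasSum_iff.mpr h1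
    refine h2.congr_fun ?_
    intro k
    simp only [Function.comp_apply, Equiv.neg_apply, RCLike.inner_apply, mulw_apply, neg_neg,
      map_mul, Complex.conj_conj]
    ring
  have hdiff := hQ.sub hxy
  have h1 : (fun k => conj (θ k) * ϑ k * (d.e y (-k) * conj (d.g x (-k))) -
      (d.e y (-k) * conj (d.g x (-k)))) =
      fun k => (conj (θ k) * ϑ k - 1) * (d.e y (-k) * conj (d.g x (-k))) := by
    funext k; ring
  rw [h1] at hdiff
  rw [← hdiff.unique hz]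
  -- algebra
  have e1 : inner ℂ (U G) D = inner ℂ G (U.symm D) := by
    rw [← U.symm.inner_map_map, U.symm_apply_apply]
  have e2 : inner ℂ G (V D) = inner ℂ (V.symm G) D := by
    rw [← V.symm.inner_map_map, V.symm_apply_apply]
  have e3 : inner ℂ (U G) (V D) = inner ℂ (V.symm (U G)) D := by
    rw [← V.symm.inner_map_map, V.symm_apply_apply]
  have e4 : inner ℂ (V.symm G) (U.symm D) = conj ω * inner ℂ (V.symm (U G)) D := by
    rw [← U.inner_map_map, U.apply_symm_apply, hω, inner_smul_left]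
  rw [hx, hy]
  simp only [inner_sub_left, inner_sub_right]
  rw [e1, e2, e3, e4]
  ring

omit [CompleteSpace H] in
/-- **Abstract Balian–Low theorem**. -/
theorem Data.blt (d : Data ρ c G D A B) (U V : ℕ → (H ≃ₗᵢ[ℂ] H)) (θ ϑ : ℕ → K → ℂ)
    (hU : ∀ n, Inter (U n) ρ (θ n)) (hV : ∀ n, Inter (V n) ρ (ϑ n))
    (hθ : ∀ k, Tendsto (fun n => θ n k) atTop (𝓝 1))
    (hϑ : ∀ k, Tendsto (fun n => ϑ n k) atTop (𝓝 1))
    (ω : ℕ → ℂ) (hω : ∀ n f, U n ((V n).symm f) = ω n • (V n).symm (U n f))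
    (ε : ℕ → ℝ) (hε : ∀ n, 0 < ε n) (hωε : ∀ᶠ n in atTop, ε n ^ 2 ≤ ‖1 - ω n‖)
    (C : ℝ) (hUG : ∀ n, ‖U n G - G‖ ≤ C * ε n) (x₀ : H)
    (hVG : Tendsto (fun n => ((ε n)⁻¹ : ℂ) • ((V n).symm G - G)) atTop (𝓝 x₀))
    (hUV : Tendsto (fun n => (V n).symm (U n G)) atTop (𝓝 G)) : False := by
  -- weights
  have hw : ∀ n k, ‖conj (θ n (-k)) * ϑ n (-k)‖ = 1 := by
    intro n k
    rw [norm_mul, Complex.norm_conj, (hU n).2.1, (hV n).2.1, one_mul]
  have hwt : ∀ k, Tendsto (fun n => conj (θ n (-k)) * ϑ n (-k)) atTop (𝓝 1) := by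
    intro k
    have h1 : Tendsto (fun n => conj (θ n (-k))) atTop (𝓝 (conj 1)) :=
      (Complex.continuous_conj.tendsto 1).comp (hθ (-k))
    have := h1.mul (hϑ (-k))
    simpa using this
  set m := fun n => mulw (fun k => conj (θ n (-k)) * ϑ n (-k)) (hw n) with hm
  -- scaled sequence
  have hsc : Tendsto (fun n => (ε n)⁻¹ * ‖m n (d.g ((V n).symm G - G))‖) atTop (𝓝 0) := by
    have h1 := mulw_tendsto (fun n k => conj (θ n (-k)) * ϑ n (-k)) hw hwt (d.g x₀)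
    have h2 : Tendsto (fun n => 2 * (Real.sqrt A⁻¹ *
        ‖((ε n)⁻¹ : ℂ) • ((V n).symm G - G) - x₀‖)) atTop (𝓝 0) := by
      have := ((tendsto_iff_norm_sub_tendsto_zero.mp hVG).const_mul (Real.sqrt A⁻¹)).const_mul 2
      simpa using this
    have h3 := h1.add h2
    rw [add_zero] at h3
    refine squeeze_zero (fun n => mul_nonneg (inv_nonneg.mpr (hε n).le) (norm_nonneg _))
      (fun n => ?_) h3
    have h4 : (ε n)⁻¹ * ‖m n (d.g ((V n).symm G - G))‖ =
        ‖m n (d.g (((ε n)⁻¹ : ℂ) • ((V n).symm G - G)))‖ := by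
      rw [map_smul, map_smul, norm_smul, norm_inv, Complex.norm_real, Real.norm_eq_abs,
        abs_of_pos (hε n)]
    rw [h4]
    have h5 : m n (d.g (((ε n)⁻¹ : ℂ) • ((V n).symm G - G))) = m n (d.g x₀) +
        m n (d.g (((ε n)⁻¹ : ℂ) • ((V n).symm G - G) - x₀)) := by
      rw [← map_add, ← map_add]; congr 2; abel
    rw [h5]
    refine (norm_add_le _ _).trans (add_le_add le_rfl ?_)
    refine (mulw_norm _ _ _).trans ?_
    exact mul_le_mul_of_nonneg_left (d.g_norm _) (by norm_num)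
  -- bound for the other factor
  have hy : ∀ n, ‖d.e ((U n).symm D - D)‖ ≤ (Real.sqrt B * (A⁻¹ * |C|)) * ε n := by
    intro n
    have h1 : ‖(U n).symm D - D‖ = ‖U n D - D‖ := by
      rw [← (U n).norm_map ((U n).symm D - D), map_sub, (U n).apply_symm_apply, norm_sub_rev]
    have h2 := d.lip (hU n)
    calc ‖d.e ((U n).symm D - D)‖ ≤ Real.sqrt B * ‖(U n).symm D - D‖ := d.e_norm _
      _ ≤ Real.sqrt B * (A⁻¹ * (|C| * ε n)) := by
          rw [h1]
          refine mul_le_mul_of_nonneg_left (h2.trans ?_) (Real.sqrt_nonneg _)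
          refine mul_le_mul_of_nonneg_left ?_ (inv_nonneg.mpr d.hA.le)
          exact (hUG n).trans (mul_le_mul_of_nonneg_right (le_abs_self C) (hε n).le)
      _ = _ := by ring
  -- conclusion
  have hlim : Tendsto (fun n => inner ℂ ((V n).symm (U n G)) D) atTop (𝓝 (inner ℂ G D)) :=
    (hUV.inner tendsto_const_nhds)
  have hGD : inner ℂ G D = (1 : ℂ) := by
    rw [← inner_conj_symm]
    have := d.bi 0
    rw [d.proj.zero] at this
    rw [this]; simp
  rw [hGD] at hlim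
  have hzero : Tendsto (fun n => inner ℂ ((V n).symm (U n G)) D) atTop (𝓝 (0 : ℂ)) := by
    rw [tendsto_zero_iff_norm_tendsto_zero]
    have h1 := hsc.mul_const (Real.sqrt B * (A⁻¹ * |C|))
    rw [zero_mul] at h1
    refine squeeze_zero' (Eventually.of_forall fun n => norm_nonneg _) ?_ h1
    filter_upwards [hωε] with n hn
    have h2 := d.comm (hU n) (hV n) (hω n) (hw n)
    have h3 : ‖1 - conj (ω n)‖ = ‖1 - ω n‖ := by
      rw [← Complex.norm_conj (1 - ω n)]; simp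
    have h4 : ‖1 - ω n‖ * ‖inner ℂ ((V n).symm (U n G)) D‖ ≤
        ‖m n (d.g ((V n).symm G - G))‖ * ‖d.e ((U n).symm D - D)‖ := by
      rw [← h3, ← norm_mul, h2]
      exact norm_inner_le_norm _ _
    have hε2 : 0 < ε n ^ 2 := pow_pos (hε n) 2
    have h5 : ε n ^ 2 * ‖inner ℂ ((V n).symm (U n G)) D‖ ≤
        ‖m n (d.g ((V n).symm G - G))‖ * ((Real.sqrt B * (A⁻¹ * |C|)) * ε n) := by
      calc ε n ^ 2 * ‖inner ℂ ((V n).symm (U n G)) D‖
          ≤ ‖1 - ω n‖ * ‖inner ℂ ((V n).symm (U n G)) D‖ :=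
            mul_le_mul_of_nonneg_right hn (norm_nonneg _)
        _ ≤ _ := h4
        _ ≤ _ := mul_le_mul_of_nonneg_left (hy n) (norm_nonneg _)
    have h6 : ‖inner ℂ ((V n).symm (U n G)) D‖ ≤ (ε n ^ 2)⁻¹ *
        (‖m n (d.g ((V n).symm G - G))‖ * ((Real.sqrt B * (A⁻¹ * |C|)) * ε n)) := by
      rw [← div_eq_inv_mul, le_div_iff₀ hε2]
      linarith
    refine h6.trans (le_of_eq ?_)
    have := (hε n).ne'
    field_simp
  exact one_ne_zero (tendsto_nhds_unique hlim hzero)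

end Pool.Agent.Q84.BLT
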