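import Pool.Agent.Q84.BL2

/-!
# Time-frequency shifts on `L²(ℝ^d)`
-/

open Filter Topology MeasureTheory

namespace Pool.Agent.Q84.BLT

open ComplexConjugate

variable {d : ℕ}

noncomputable abbrev HH (d : ℕ) := Lp ℂ 2 (volume : Measure (Fin d → ℝ))

/-- characters -/
noncomputable def ch (b x : Fin d → ℝ) : ℂ :=
  Complex.exp (2 * (Real.pi : ℂ) * Complex.I * ((∑ j, b j * x j : ℝ) : ℂ))

lemma ch_eq (b x : Fin d → ℝ) : ch b x = Complex.exp (((2 * Real.pi * ∑ j, b j * x j : ℝ) : ℂ) * Complex.I) := by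
  unfold ch; congr 1; push_cast; ring

lemma ch_norm (b x : Fin d → ℝ) : ‖ch b x‖ = 1 := by
  rw [ch_eq, Complex.norm_exp_ofReal_mul_I]

lemma ch_zero_left (x : Fin d → ℝ) : ch 0 x = 1 := by simp [ch]
lemma ch_zero_right (b : Fin d → ℝ) : ch b 0 = 1 := by simp [ch]
lemma ch_add_left (b b' x : Fin d → ℝ) : ch (b + b') x = ch b x * ch b' x := by
  unfold ch
  rw [← Complex.exp_add]
  congr 1
  simp only [Pi.add_apply, add_mul, Finset.sum_add_distrib]
  push_cast; ring
lemma ch_add_right (b x x' : Fin d → ℝ) : ch b (x + x') = ch b x * ch b x' := by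
  unfold ch
  rw [← Complex.exp_add]
  congr 1
  simp only [Pi.add_apply, mul_add, Finset.sum_add_distrib]
  push_cast; ring
lemma ch_neg_left (b x : Fin d → ℝ) : ch (-b) x = conj (ch b x) := by
  rw [ch_eq, ch_eq, ← Complex.exp_conj, map_mul, Complex.conj_ofReal, Complex.conj_I]
  congr 1
  simp
lemma ch_neg_right (b x : Fin d → ℝ) : ch b (-x) = conj (ch b x) := by
  rw [ch_eq, ch_eq, ← Complex.exp_conj, map_mul, Complex.conj_ofReal, Complex.conj_I]
  congr 1
  simp
lemma ch_continuous (b : Fin d → ℝ) : Continuous (ch b) := by unfold ch; fun_prop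

lemma W_memLp (a b : Fin d → ℝ) {f : (Fin d → ℝ) → ℂ} (hf : MemLp f 2 volume) :
    MemLp (fun x => ch b x * f (x - a)) 2 volume := by
  have h1 : MemLp (fun x => f (x - a)) 2 volume :=
    hf.comp_measurePreserving (measurePreserving_sub_right volume a)
  refine MemLp.of_le h1 ((ch_continuous b).aestronglyMeasurable.mul h1.1)
    (Eventually.of_forall fun x => ?_)
  rw [norm_mul, ch_norm, one_mul]

/-- the time-frequency shift as a linear map -/
noncomputable def Wlin (a b : Fin d → ℝ) : HH d →ₗ[ℂ] HH d where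
  toFun f := (W_memLp a b (Lp.memLp f)).toLp _
  map_add' := by
    intro f g
    apply Lp.ext
    have h2 := (measurePreserving_sub_right (volume : Measure (Fin d → ℝ)) a).quasiMeasurePreserving.ae
      (Lp.coeFn_add f g)
    filter_upwards [(W_memLp a b (Lp.memLp (f + g))).coeFn_toLp,
      (W_memLp a b (Lp.memLp f)).coeFn_toLp, (W_memLp a b (Lp.memLp g)).coeFn_toLp, h2,
      Lp.coeFn_add ((W_memLp a b (Lp.memLp f)).toLp _) ((W_memLp a b (Lp.memLp g)).toLp _)]
      with x h1 h3 h4 h5 h6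
    rw [h1, h6, Pi.add_apply, h3, h4, h5, Pi.add_apply]
    ring
  map_smul' := by
    intro z f
    apply Lp.ext
    have h2 := (measurePreserving_sub_right (volume : Measure (Fin d → ℝ)) a).quasiMeasurePreserving.ae
      (Lp.coeFn_smul z f)
    filter_upwards [(W_memLp a b (Lp.memLp (z • f))).coeFn_toLp,
      (W_memLp a b (Lp.memLp f)).coeFn_toLp, h2,
      Lp.coeFn_smul z ((W_memLp a b (Lp.memLp f)).toLp _)]
      with x h1 h3 h5 h6
    rw [h1, RingHom.id_apply, h6, Pi.smul_apply, h3, h5, Pi.smul_apply, smul_eq_mul, smul_eq_mul]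
    ring

lemma Wlin_ae (a b : Fin d → ℝ) (f : HH d) :
    Wlin a b f =ᵐ[volume] fun x => ch b x * f (x - a) :=
  (W_memLp a b (Lp.memLp f)).coeFn_toLp

lemma Wlin_norm (a b : Fin d → ℝ) (f : HH d) : ‖Wlin a b f‖ = ‖f‖ := by
  rw [Lp.norm_def, Lp.norm_def]
  congr 1
  rw [eLpNorm_congr_ae (Wlin_ae a b f)]
  have h1 : eLpNorm (fun x => ch b x * f (x - a)) 2 volume = eLpNorm (fun x => f (x - a)) 2 volume := by
    refine eLpNorm_congr_norm_ae (Eventually.of_forall fun x => ?_)
    rw [norm_mul, ch_norm, one_mul]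
  rw [h1]
  exact eLpNorm_comp_measurePreserving (Lp.memLp f).1 (measurePreserving_sub_right volume a)

lemma Wlin_comp (a b a' b' : Fin d → ℝ) (f : HH d) :
    Wlin a b (Wlin a' b' f) = ch b' (-a) • Wlin (a + a') (b + b') f := by
  apply Lp.ext
  have h2 := (measurePreserving_sub_right (volume : Measure (Fin d → ℝ)) a).quasiMeasurePreserving.ae
    (Wlin_ae a' b' f)
  filter_upwards [Wlin_ae a b (Wlin a' b' f), h2, Wlin_ae (a + a') (b + b') f,
    Lp.coeFn_smul (ch b' (-a)) (Wlin (a + a') (b + b') f)] with x h1 h3 h4 h5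
  rw [h1, h3, h5, Pi.smul_apply, h4, smul_eq_mul]
  have e1 : x - a - a' = x - (a + a') := by abel
  have e2 : x - a = -a + x := by abel
  rw [e1, ch_add_left, e2, ch_add_right]
  ring

lemma Wlin_zero (f : HH d) : Wlin 0 0 f = f := by
  apply Lp.ext
  filter_upwards [Wlin_ae 0 0 f] with x h1
  rw [h1, ch_zero_left, sub_zero, one_mul]

/-- the time-frequency shift as a linear isometric equivalence -/
noncomputable def W (a b : Fin d → ℝ) : HH d ≃ₗᵢ[ℂ] HH d :=
  LinearIsometryEquiv.ofSurjective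
    ⟨Wlin a b, Wlin_norm a b⟩ (by
      intro f
      refine ⟨ch b (-a) • Wlin (-a) (-b) f, ?_⟩
      change Wlin a b (ch b (-a) • Wlin (-a) (-b) f) = f
      rw [map_smul, Wlin_comp, smul_smul, add_neg_cancel, add_neg_cancel, Wlin_zero, ch_neg_left,
        mul_comm, cj_mul_self (ch_norm _ _), one_smul])

lemma W_apply (a b : Fin d → ℝ) (f : HH d) : W a b f = Wlin a b f := rfl

lemma W_ae (a b : Fin d → ℝ) (f : HH d) : W a b f =ᵐ[volume] fun x => ch b x * f (x - a) :=
  Wlin_ae a b f

lemma W_comp (a b a' b' : Fin d → ℝ) (f : HH d) :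
    W a b (W a' b' f) = ch b' (-a) • W (a + a') (b + b') f := Wlin_comp a b a' b' f

lemma W_zero (f : HH d) : W 0 0 f = f := Wlin_zero f

lemma W_symm_mod (b : Fin d → ℝ) (f : HH d) : (W 0 b).symm f = W 0 (-b) f := by
  apply (W 0 b).injective
  rw [(W 0 b).apply_symm_apply, W_comp, neg_zero, ch_zero_right, one_smul, add_zero, add_neg_cancel,
    W_zero]

/-- intertwining of translations -/
lemma inter_trans (v a b : Fin d → ℝ) (f : HH d) :
    W v 0 (W a b f) = ch b (-v) • W a b (W v 0 f) := by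
  rw [W_comp, W_comp, zero_add, add_zero, ch_zero_left, one_smul, add_comm]

/-- intertwining of modulations -/
lemma inter_mod (v a b : Fin d → ℝ) (f : HH d) :
    W 0 v (W a b f) = ch v a • W a b (W 0 v f) := by
  rw [W_comp, W_comp, zero_add, add_zero, neg_zero, ch_zero_right, one_smul, smul_smul,
    ch_neg_right, mul_comm (ch v a), cj_mul_self (ch_norm _ _), one_smul, add_comm v b]

lemma norm_sq_eq (F : HH d) : ‖F‖ ^ 2 = ∫ x, ‖F x‖ ^ 2 := by
  have h1 := L2.inner_def (𝕜 := ℂ) F F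
  have h2 : (inner ℂ F F : ℂ) = ((‖F‖ ^ 2 : ℝ) : ℂ) := by
    rw [inner_self_eq_norm_sq_to_K]; push_cast; rfl
  have h3 : (∫ a, inner ℂ (F a) (F a) : ℂ) = ((∫ x, ‖F x‖ ^ 2 : ℝ) : ℂ) := by
    rw [← integral_complex_ofReal]
    refine integral_congr_ae (Eventually.of_forall fun x => ?_)
    simp only
    rw [inner_self_eq_norm_sq_to_K]; push_cast; rfl
  rw [h2, h3] at h1
  exact_mod_cast h1

/-- difference quotients of modulations converge -/
lemma mod_diff (g : HH d) (j : Fin d) (hint : Integrable (fun x => (x j) ^ 2 * ‖g x‖ ^ 2) volume)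
    (ε : ℕ → ℝ) (hε : ∀ n, 0 < ε n) (hε0 : Tendsto ε atTop (𝓝 0)) :
    ∃ x₀ : HH d, Tendsto (fun n => ((ε n)⁻¹ : ℂ) • ((W 0 (Pi.single j (ε n))).symm g - g)) atTop
      (𝓝 x₀) := by
  -- the limit
  have hmem : MemLp (fun x => (-2 * Real.pi * Complex.I * (x j : ℂ)) * g x) 2 volume := by
    rw [memLp_two_iff_integrable_sq_norm]
    · have := hint.const_mul (4 * Real.pi ^ 2)
      refine this.congr (Eventually.of_forall fun x => ?_)
      simp only [norm_mul, norm_neg, Complex.norm_I, Complex.norm_real, Real.norm_eq_abs, mul_one,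
        mul_pow, sq_abs]
      norm_num
      ring
    · have h1 : Continuous fun x : Fin d → ℝ => (-2 * Real.pi * Complex.I * (x j : ℂ)) := by fun_prop
      exact h1.aestronglyMeasurable.mul (Lp.memLp g).1
  refine ⟨hmem.toLp _, ?_⟩
  rw [tendsto_iff_norm_sub_tendsto_zero]
  have key : Tendsto (fun n => ‖((ε n)⁻¹ : ℂ) • ((W 0 (Pi.single j (ε n))).symm g - g) -
      hmem.toLp _‖ ^ 2) atTop (𝓝 0) := by
    have h1 : ∀ n, ‖((ε n)⁻¹ : ℂ) • ((W 0 (Pi.single j (ε n))).symm g - g) - hmem.toLp _‖ ^ 2 =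
        ∫ x, ‖((ε n)⁻¹ : ℂ) * (Complex.exp (((-2 * Real.pi * (ε n * x j) : ℝ) : ℂ) * Complex.I) - 1) +
          2 * Real.pi * Complex.I * (x j : ℂ)‖ ^ 2 * ‖g x‖ ^ 2 := by
      intro n
      rw [norm_sq_eq]
      refine integral_congr_ae ?_
      filter_upwards [Lp.coeFn_sub (((ε n)⁻¹ : ℂ) • ((W 0 (Pi.single j (ε n))).symm g - g))
        (hmem.toLp _), Lp.coeFn_smul ((ε n)⁻¹ : ℂ) ((W 0 (Pi.single j (ε n))).symm g - g),
        Lp.coeFn_sub ((W 0 (Pi.single j (ε n))).symm g) g, hmem.coeFn_toLp,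
        W_ae 0 (-(Pi.single j (ε n))) g] with x h2 h3 h4 h5 h6
      rw [h2, Pi.sub_apply, h3, Pi.smul_apply, h4, Pi.sub_apply, h5, W_symm_mod, h6, sub_zero,
        smul_eq_mul, ← mul_pow, ← norm_mul]
      congr 2
      have h7 : ch (-(Pi.single j (ε n))) x =
          Complex.exp (((-2 * Real.pi * (ε n * x j) : ℝ) : ℂ) * Complex.I) := by
        rw [ch_eq]
        congr 3
        have : ∑ i, (-(Pi.single j (ε n) : Fin d → ℝ)) i * x i = -(ε n * x j) := by
          rw [Finset.sum_eq_single j]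
          · simp
          · intro i _ hi
            simp [Pi.single_eq_of_ne hi]
          · simp
        rw [this]; ring
      rw [h7]
      push_cast
      ring
    simp only [h1]
    have h0 : (0 : ℝ) = ∫ x : Fin d → ℝ, (0 : ℝ) := by simp
    rw [h0]
    refine tendsto_integral_of_dominated_convergence
      (fun x => 16 * Real.pi ^ 2 * ((x j) ^ 2 * ‖g x‖ ^ 2)) (fun n => ?_) (hint.const_mul _)
      (fun n => Eventually.of_forall fun x => ?_) (Eventually.of_forall fun x => ?_)
    · have h2 : Continuous fun x : Fin d → ℝ =>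
        ‖((ε n)⁻¹ : ℂ) * (Complex.exp (((-2 * Real.pi * (ε n * x j) : ℝ) : ℂ) * Complex.I) - 1) +
          2 * Real.pi * Complex.I * (x j : ℂ)‖ ^ 2 := by fun_prop
      exact h2.aestronglyMeasurable.mul ((Lp.memLp g).1.norm.pow 2)
    · rw [Real.norm_eq_abs, abs_of_nonneg (by positivity)]
      have h3 : ‖((ε n)⁻¹ : ℂ) * (Complex.exp (((-2 * Real.pi * (ε n * x j) : ℝ) : ℂ) * Complex.I) - 1) +
          2 * Real.pi * Complex.I * (x j : ℂ)‖ ≤ 4 * Real.pi * |x j| := by
        have h4 : ‖Complex.exp (((-2 * Real.pi * (ε n * x j) : ℝ) : ℂ) * Complex.I) - 1‖ ≤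
            2 * Real.pi * (ε n * |x j|) := by
          have := Real.norm_exp_I_mul_ofReal_sub_one_le (x := -2 * Real.pi * (ε n * x j))
          rw [mul_comm Complex.I] at this
          refine this.trans (le_of_eq ?_)
          rw [Real.norm_eq_abs, abs_mul, abs_mul, abs_mul, abs_of_pos (hε n), abs_neg,
            abs_of_pos Real.pi_pos]
          norm_num
        calc _ ≤ ‖((ε n)⁻¹ : ℂ) * (Complex.exp (((-2 * Real.pi * (ε n * x j) : ℝ) : ℂ) * Complex.I) - 1)‖
              + ‖2 * Real.pi * Complex.I * (x j : ℂ)‖ := norm_add_le _ _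
          _ ≤ (ε n)⁻¹ * (2 * Real.pi * (ε n * |x j|)) + 2 * Real.pi * |x j| := by
              refine add_le_add ?_ (le_of_eq ?_)
              · rw [norm_mul, norm_inv, Complex.norm_real, Real.norm_eq_abs, abs_of_pos (hε n)]
                exact mul_le_mul_of_nonneg_left h4 (inv_nonneg.mpr (hε n).le)
              · simp [abs_of_pos Real.pi_pos]
          _ = 4 * Real.pi * |x j| := by
              have := (hε n).ne'
              field_simp
              ring
      have h5 : ‖((ε n)⁻¹ : ℂ) * (Complex.exp (((-2 * Real.pi * (ε n * x j) : ℝ) : ℂ) * Complex.I) - 1) +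
          2 * Real.pi * Complex.I * (x j : ℂ)‖ ^ 2 ≤ (4 * Real.pi * |x j|) ^ 2 :=
        pow_le_pow_left₀ (norm_nonneg _) h3 2
      rw [mul_pow, mul_pow, sq_abs] at h5
      nlinarith [sq_nonneg ‖g x‖]
    · -- pointwise limit
      have h2 : Tendsto (fun n => ((ε n)⁻¹ : ℂ) *
          (Complex.exp (((-2 * Real.pi * (ε n * x j) : ℝ) : ℂ) * Complex.I) - 1)) atTop
          (𝓝 (-2 * Real.pi * Complex.I * (x j : ℂ))) := by
        have h3 : HasDerivAt (fun t : ℝ => Complex.exp (((-2 * Real.pi * (t * x j) : ℝ) : ℂ) * Complex.I))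
            (-2 * Real.pi * Complex.I * (x j : ℂ)) 0 := by
          have h4 : HasDerivAt (fun t : ℝ => (((-2 * Real.pi * (t * x j) : ℝ) : ℂ) * Complex.I))
              (-2 * Real.pi * Complex.I * (x j : ℂ)) 0 := by
            have h5 : HasDerivAt (fun t : ℝ => (-2 * Real.pi * (t * x j) : ℝ)) (-2 * Real.pi * x j) 0 := by
              have := ((hasDerivAt_id (0 : ℝ)).mul_const (x j)).const_mul (-2 * Real.pi)
              simpa using this
            have h6 := h5.ofReal_comp.mul_const Complex.I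
            refine h6.congr_deriv ?_
            push_cast; ring
          have h7 := h4.cexp
          simpa using h7
        rw [hasDerivAt_iff_tendsto_slope_zero] at h3
        have h4 : Tendsto ε atTop (𝓝[≠] 0) :=
          tendsto_nhdsWithin_iff.mpr ⟨hε0, Eventually.of_forall fun n => (hε n).ne'⟩
        have h5 := h3.comp h4
        refine h5.congr (fun n => ?_)
        simp only [Function.comp_apply, zero_add, Complex.real_smul]
        push_cast
        simp
      have h3 := ((h2.add_const (2 * Real.pi * Complex.I * (x j : ℂ))).norm.pow 2).mul_const (‖g x‖ ^ 2)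
      have h4 : ‖(-2 * Real.pi * Complex.I * (x j : ℂ)) + 2 * Real.pi * Complex.I * (x j : ℂ)‖ ^ 2 *
          ‖g x‖ ^ 2 = 0 := by
        have : (-2 * Real.pi * Complex.I * (x j : ℂ)) + 2 * Real.pi * Complex.I * (x j : ℂ) = 0 := by ring
        rw [this]; simp
      rw [h4] at h3
      exact h3
  have h2 := key.sqrt
  simpa [Real.sqrt_sq (norm_nonneg _)] using h2

end Pool.Agent.Q84.BLT
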