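import Pool.Agent.Q84.BL3

/-!
# A weak derivative in `L²` gives a Lipschitz bound for translations
-/

open Filter Topology MeasureTheory

namespace Pool.Agent.Q84.BLT

open ComplexConjugate

variable {d : ℕ}

/-- differentiability of the correlation with a test function -/
lemma corr_deriv (g h : (Fin d → ℝ) → ℂ) (hg : MemLp g 2 volume) (j : Fin d)
    (hw : ∀ φ : (Fin d → ℝ) → ℂ, ContDiff ℝ ((⊤ : ℕ∞) : WithTop ℕ∞) φ → HasCompactSupport φ →
      ∫ x, g x * fderiv ℝ φ x (Pi.single j (1 : ℝ) : Fin d → ℝ) = - ∫ x, h x * φ x)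
    (φ : (Fin d → ℝ) → ℂ) (hφ : ContDiff ℝ ((⊤ : ℕ∞) : WithTop ℕ∞) φ) (hc : HasCompactSupport φ)
    (s₀ : ℝ) :
    HasDerivAt (fun s : ℝ => ∫ x, g x * φ (x + s • (Pi.single j (1 : ℝ) : Fin d → ℝ)))
      (-∫ x, h x * φ (x + s₀ • (Pi.single j (1 : ℝ) : Fin d → ℝ))) s₀ := by
  set e : Fin d → ℝ := Pi.single j (1 : ℝ) with he
  -- support radius
  obtain ⟨R, hR⟩ := hc.isCompact.isBounded.subset_closedBall (0 : Fin d → ℝ)
  have hnotin : ∀ x, x ∉ Metric.closedBall (0 : Fin d → ℝ) R → x ∉ tsupport φ := fun x hx h1 => hx (hR h1)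
  -- bound of the derivative
  have hd1 : Continuous (fderiv ℝ φ) := hφ.continuous_fderiv (by simp)
  have hd2 : HasCompactSupport (fderiv ℝ φ) := hc.fderiv (𝕜 := ℝ)
  obtain ⟨M, hM⟩ := hd1.bounded_above_of_compact_support hd2
  set R' := R + (|s₀| + 1) * ‖e‖ with hR'
  have hgint : IntegrableOn g (Metric.closedBall (0 : Fin d → ℝ) R') volume := by
    have h1 : MemLp g 2 (volume.restrict (Metric.closedBall (0 : Fin d → ℝ) R')) := hg.restrict _
    have h3 : IsFiniteMeasure (volume.restrict (Metric.closedBall (0 : Fin d → ℝ) R')) :=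
      ⟨by rw [Measure.restrict_apply_univ]; exact (isCompact_closedBall _ _).measure_lt_top⟩
    exact (h1.mono_exponent (by norm_num : (1 : ENNReal) ≤ 2)).integrable le_rfl
  have key := hasDerivAt_integral_of_dominated_loc_of_deriv_le (μ := (volume : Measure (Fin d → ℝ)))
    (F := fun (s : ℝ) (x : Fin d → ℝ) => g x * φ (x + s • e))
    (F' := fun (s : ℝ) (x : Fin d → ℝ) => g x * fderiv ℝ φ (x + s • e) e)
    (bound := (Metric.closedBall (0 : Fin d → ℝ) R').indicator (fun x => ‖g x‖ * (M * ‖e‖)))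
    (s := Metric.ball s₀ 1) (x₀ := s₀) (Metric.ball_mem_nhds _ one_pos) ?_ ?_ ?_ ?_ ?_ ?_
  · -- identify the derivative
    have h1 : ∫ x, g x * fderiv ℝ φ (x + s₀ • e) e = -∫ x, h x * φ (x + s₀ • e) := by
      have h2 := hw (fun x => φ (x + s₀ • e)) (by fun_prop) (by
        have := hc.comp_homeomorph (Homeomorph.addRight (s₀ • e))
        exact this)
      rw [← h2]
      refine integral_congr_ae (Eventually.of_forall fun x => ?_)
      simp only
      rw [fderiv_comp_add_right]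
    rw [← h1]
    exact key.2
  · refine Eventually.of_forall fun s => ?_
    have : Continuous fun x : Fin d → ℝ => φ (x + s • e) := hφ.continuous.comp (by fun_prop)
    exact hg.1.mul this.aestronglyMeasurable
  · have h1 : MemLp (fun x => φ (x + s₀ • e)) 2 volume :=
      (hφ.continuous.memLp_of_hasCompactSupport hc).comp_measurePreserving
        (measurePreserving_add_right volume (s₀ • e))
    have := MemLp.integrable_mul hg h1
    exact this
  · have : Continuous fun x : Fin d → ℝ => fderiv ℝ φ (x + s₀ • e) e := by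
      exact (hd1.comp (by fun_prop)).clm_apply continuous_const
    exact hg.1.mul this.aestronglyMeasurable
  · refine Eventually.of_forall fun x s hs => ?_
    by_cases hx : x ∈ Metric.closedBall (0 : Fin d → ℝ) R'
    · rw [Set.indicator_of_mem hx, norm_mul]
      refine mul_le_mul_of_nonneg_left ?_ (norm_nonneg _)
      refine ((fderiv ℝ φ (x + s • e)).le_opNorm e).trans ?_
      exact mul_le_mul_of_nonneg_right (hM _) (norm_nonneg _)
    · rw [Set.indicator_of_notMem hx]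
      have h1 : x + s • e ∉ Metric.closedBall (0 : Fin d → ℝ) R := by
        intro h2
        apply hx
        rw [mem_closedBall_zero_iff] at h2 ⊢
        have h3 : |s| ≤ |s₀| + 1 := by
          rw [Metric.mem_ball, Real.dist_eq] at hs
          have := abs_sub_abs_le_abs_sub s s₀
          linarith
        calc ‖x‖ = ‖(x + s • e) - s • e‖ := by rw [add_sub_cancel_right]
          _ ≤ ‖x + s • e‖ + ‖s • e‖ := norm_sub_le _ _
          _ ≤ R + (|s₀| + 1) * ‖e‖ := by
              refine add_le_add h2 ?_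
              rw [norm_smul, Real.norm_eq_abs]
              exact mul_le_mul_of_nonneg_right h3 (norm_nonneg _)
      have h2 : fderiv ℝ φ (x + s • e) = 0 := by
        by_contra h3
        exact hnotin _ h1 (support_fderiv_subset ℝ h3)
      rw [h2]; simp
  · rw [integrable_indicator_iff measurableSet_closedBall]
    exact hgint.norm.mul_const _
  · refine Eventually.of_forall fun x s _ => ?_
    have h1 : HasDerivAt (fun s : ℝ => x + s • e) e s := by
      have := ((hasDerivAt_id s).smul_const e).const_add x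
      simpa using this
    have h2 : HasFDerivAt φ (fderiv ℝ φ (x + s • e)) (x + s • e) :=
      (hφ.differentiable (by simp)).differentiableAt.hasFDerivAt
    exact (h2.comp_hasDerivAt s h1).const_mul (g x)

lemma smul_single (j : Fin d) (s : ℝ) : s • (Pi.single j (1 : ℝ) : Fin d → ℝ) = Pi.single j s := by
  rw [← Pi.single_smul]; simp

lemma W_inner_adj (v : Fin d → ℝ) (x y : HH d) : inner ℂ (W (-v) 0 x) y = inner ℂ x (W v 0 y) := by
  rw [← (W v 0).inner_map_map, W_comp, add_neg_cancel, ch_zero_left, one_smul, add_zero, W_zero]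

/-- Lipschitz bound for translations -/
theorem trans_lip (g h : (Fin d → ℝ) → ℂ) (hg : MemLp g 2 volume) (hh : MemLp h 2 volume) (j : Fin d)
    (hw : ∀ φ : (Fin d → ℝ) → ℂ, ContDiff ℝ ((⊤ : ℕ∞) : WithTop ℕ∞) φ → HasCompactSupport φ →
      ∫ x, g x * fderiv ℝ φ x (Pi.single j (1 : ℝ) : Fin d → ℝ) = - ∫ x, h x * φ x) (s : ℝ) :
    ‖W (Pi.single j s) 0 (hg.toLp g) - hg.toLp g‖ ≤ ‖hh.toLp h‖ * |s| := by
  set G : HH d := hg.toLp g with hG
  set Hh : HH d := hh.toLp h with hHh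
  -- the estimate against smooth functions
  have hsm : ∀ Ψ : HH d, (∃ ψ : (Fin d → ℝ) → ℂ, Ψ =ᵐ[volume] ψ ∧ HasCompactSupport ψ ∧
      ContDiff ℝ ((⊤ : ℕ∞) : WithTop ℕ∞) ψ) →
      ‖inner ℂ Ψ (W (Pi.single j s) 0 G - G)‖ ≤ ‖Hh‖ * |s| * ‖Ψ‖ := by
    rintro Ψ ⟨ψ, hae, hψc, hψs⟩
    set φ : (Fin d → ℝ) → ℂ := fun x => conj (ψ x) with hφdef
    have hφs : ContDiff ℝ ((⊤ : ℕ∞) : WithTop ℕ∞) φ :=
      (Complex.conjCLE.contDiff).comp hψs
    have hφc : HasCompactSupport φ := hψc.comp_left (g := conj) (map_zero _)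
    -- inner products as correlations
    have hin : ∀ (F : HH d) (f : (Fin d → ℝ) → ℂ), F =ᵐ[volume] f → ∀ t : ℝ,
        inner ℂ (W (-(Pi.single j t)) 0 Ψ) F =
          ∫ x, f x * φ (x + t • (Pi.single j (1 : ℝ) : Fin d → ℝ)) := by
      intro F f hF t
      rw [L2.inner_def]
      refine integral_congr_ae ?_
      have h2 := (measurePreserving_sub_right (volume : Measure (Fin d → ℝ))
        (-(Pi.single j t))).quasiMeasurePreserving.ae hae
      filter_upwards [W_ae (-(Pi.single j t)) 0 Ψ, h2, hF] with x h3 h4 h5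
      rw [RCLike.inner_apply, h3, h4, h5, ch_zero_left, one_mul, smul_single, sub_neg_eq_add]
    have hder : ∀ t : ℝ, HasDerivAt (fun t : ℝ => inner ℂ (W (-(Pi.single j t)) 0 Ψ) G)
        (-(inner ℂ (W (-(Pi.single j t)) 0 Ψ) Hh)) t := by
      intro t
      have h1 := corr_deriv g h hg j hw φ hφs hφc t
      rw [hin Hh h hh.coeFn_toLp t]
      have h2 : (fun t : ℝ => inner ℂ (W (-(Pi.single j t)) 0 Ψ) G) =
          fun t : ℝ => ∫ x, g x * φ (x + t • (Pi.single j (1 : ℝ) : Fin d → ℝ)) := by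
        funext t; exact hin G g hg.coeFn_toLp t
      rw [h2]
      exact h1
    have hb : ∀ t : ℝ, ‖-(inner ℂ (W (-(Pi.single j t)) 0 Ψ) Hh)‖ ≤ ‖Ψ‖ * ‖Hh‖ := by
      intro t
      rw [norm_neg]
      refine (norm_inner_le_norm _ _).trans ?_
      rw [LinearIsometryEquiv.norm_map]
    have hmv := convex_univ.norm_image_sub_le_of_norm_hasDerivWithin_le
      (f := fun t : ℝ => inner ℂ (W (-(Pi.single j t)) 0 Ψ) G)
      (f' := fun t => -(inner ℂ (W (-(Pi.single j t)) 0 Ψ) Hh)) (C := ‖Ψ‖ * ‖Hh‖)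
      (fun t _ => (hder t).hasDerivWithinAt) (fun t _ => hb t) (Set.mem_univ (0 : ℝ))
      (Set.mem_univ s)
    simp only [W_inner_adj, sub_zero, Real.norm_eq_abs, Pi.single_zero, W_zero] at hmv
    rw [inner_sub_right]
    refine hmv.trans (le_of_eq ?_)
    ring
  -- density
  have hdense := MeasureTheory.Lp.dense_hasCompactSupport_contDiff (E := Fin d → ℝ) (F := ℂ)
    (μ := (volume : Measure (Fin d → ℝ))) (p := 2) (by norm_num)
  have hall : ∀ Ψ : HH d, ‖inner ℂ Ψ (W (Pi.single j s) 0 G - G)‖ ≤ ‖Hh‖ * |s| * ‖Ψ‖ := by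
    intro Ψ
    have hcl : IsClosed {Ψ : HH d | ‖inner ℂ Ψ (W (Pi.single j s) 0 G - G)‖ ≤ ‖Hh‖ * |s| * ‖Ψ‖} := by
      refine isClosed_le ?_ ?_ <;> fun_prop
    exact hdense.induction (P := fun Ψ : HH d =>
      ‖inner ℂ Ψ (W (Pi.single j s) 0 G - G)‖ ≤ ‖Hh‖ * |s| * ‖Ψ‖) (fun Ψ hΨ => hsm Ψ hΨ) hcl Ψ
  set D := W (Pi.single j s) 0 G - G with hD
  have h1 := hall D
  have h2 : ‖inner ℂ D D‖ = ‖D‖ ^ 2 := by
    rw [inner_self_eq_norm_sq_to_K]; simp
  rw [h2] at h1
  by_cases h0 : ‖D‖ = 0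
  · rw [h0]; positivity
  · have h3 : 0 < ‖D‖ := lt_of_le_of_ne (norm_nonneg _) (Ne.symm h0)
    have h4 : ‖D‖ * ‖D‖ ≤ (‖Hh‖ * |s|) * ‖D‖ := by nlinarith
    exact le_of_mul_le_mul_right h4 h3

end Pool.Agent.Q84.BLT
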