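import Pool.Agent.Q84.BL4

/-!
# The classical Balian–Low theorem for Riesz bases over arbitrary lattices
-/

open Filter Topology MeasureTheory

namespace Pool.Agent.Q84.BLT

open ComplexConjugate

variable {d : ℕ}

/-- first half of the lattice point -/
noncomputable def la (M : Matrix (Fin d ⊕ Fin d) (Fin d ⊕ Fin d) ℝ) (k : Fin d ⊕ Fin d → ℤ) :
    Fin d → ℝ := fun j => Matrix.mulVec M (fun i => ((k i : ℤ) : ℝ)) (Sum.inl j)
/-- second half of the lattice point -/
noncomputable def lb (M : Matrix (Fin d ⊕ Fin d) (Fin d ⊕ Fin d) ℝ) (k : Fin d ⊕ Fin d → ℤ) :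
    Fin d → ℝ := fun j => Matrix.mulVec M (fun i => ((k i : ℤ) : ℝ)) (Sum.inr j)

lemma cast_add' (k l : Fin d ⊕ Fin d → ℤ) : (fun i => (((k + l) i : ℤ) : ℝ)) =
    (fun i => ((k i : ℤ) : ℝ)) + fun i => ((l i : ℤ) : ℝ) := by
  funext i; simp

lemma la_add (M : Matrix (Fin d ⊕ Fin d) (Fin d ⊕ Fin d) ℝ) (k l : Fin d ⊕ Fin d → ℤ) :
    la M (k + l) = la M k + la M l := by
  funext j
  unfold la
  rw [cast_add', Matrix.mulVec_add]; rfl
lemma lb_add (M : Matrix (Fin d ⊕ Fin d) (Fin d ⊕ Fin d) ℝ) (k l : Fin d ⊕ Fin d → ℤ) :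
    lb M (k + l) = lb M k + lb M l := by
  funext j
  unfold lb
  rw [cast_add', Matrix.mulVec_add]; rfl
lemma la_zero (M : Matrix (Fin d ⊕ Fin d) (Fin d ⊕ Fin d) ℝ) : la M 0 = 0 := by
  have := la_add M 0 0
  simpa using this
lemma lb_zero (M : Matrix (Fin d ⊕ Fin d) (Fin d ⊕ Fin d) ℝ) : lb M 0 = 0 := by
  have := lb_add M 0 0
  simpa using this

noncomputable def rho (M : Matrix (Fin d ⊕ Fin d) (Fin d ⊕ Fin d) ℝ) (k : Fin d ⊕ Fin d → ℤ) :
    HH d ≃ₗᵢ[ℂ] HH d := W (la M k) (lb M k)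

lemma rho_proj (M : Matrix (Fin d ⊕ Fin d) (Fin d ⊕ Fin d) ℝ) :
    Proj (rho M) (fun k l => ch (lb M l) (-(la M k))) where
  mul := by
    intro k l f
    unfold rho
    rw [W_comp, la_add, lb_add]
  norm := fun k l => ch_norm _ _
  zero := by
    intro f
    unfold rho
    rw [la_zero, lb_zero, W_zero]

lemma norm_one_sub_exp (φ : ℝ) (h0 : 0 ≤ φ) (h1 : φ ≤ Real.pi / 2) :
    2 / Real.pi * φ ≤ ‖1 - Complex.exp ((φ : ℂ) * Complex.I)‖ := by
  have h2 := Real.mul_le_sin h0 h1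
  refine h2.trans ?_
  have h3 : (1 - Complex.exp ((φ : ℂ) * Complex.I)).im = -Real.sin φ := by
    rw [Complex.sub_im, Complex.exp_ofReal_mul_I_im]; simp
  have h4 := Complex.abs_im_le_norm (1 - Complex.exp ((φ : ℂ) * Complex.I))
  rw [h3, abs_neg] at h4
  exact (le_abs_self _).trans h4

theorem main (hd : 0 < d) (M : Matrix (Fin d ⊕ Fin d) (Fin d ⊕ Fin d) ℝ)
    (g : (Fin d → ℝ) → ℂ) (hg : MemLp g 2 volume)
    (hcomp : ∀ h : (Fin d → ℝ) → ℂ, MemLp h 2 volume →
      (∀ k : Fin d ⊕ Fin d → ℤ, ∫ x, conj (h x) * (ch (lb M k) x * g (x - la M k)) = 0) →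
      h =ᵐ[volume] 0)
    (A B : ℝ) (hA : 0 < A) (hB : 0 < B)
    (hAB : ∀ (s : Finset (Fin d ⊕ Fin d → ℤ)) (c : (Fin d ⊕ Fin d → ℤ) → ℂ),
        A * ∑ k ∈ s, ‖c k‖ ^ 2 ≤
          ∫ x, ‖∑ k ∈ s, c k * (ch (lb M k) x * g (x - la M k))‖ ^ 2 ∧
        ∫ x, ‖∑ k ∈ s, c k * (ch (lb M k) x * g (x - la M k))‖ ^ 2
          ≤ B * ∑ k ∈ s, ‖c k‖ ^ 2)
    (hX : Integrable (fun x : Fin d → ℝ => (∑ j, x j ^ 2) * ‖g x‖ ^ 2) volume)
    (hP : ∀ j : Fin d, ∃ h : (Fin d → ℝ) → ℂ, MemLp h 2 volume ∧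
       ∀ φ : (Fin d → ℝ) → ℂ, ContDiff ℝ ((⊤ : ℕ∞) : WithTop ℕ∞) φ → HasCompactSupport φ →
         ∫ x, g x * fderiv ℝ φ x (Pi.single j (1 : ℝ) : Fin d → ℝ) = - ∫ x, h x * φ x) : False := by
  classical
  set G : HH d := hg.toLp g with hG
  have hGae : G =ᵐ[volume] g := hg.coeFn_toLp
  have hrho : ∀ k, (rho M k G : HH d) =ᵐ[volume] fun x => ch (lb M k) x * g (x - la M k) := by
    intro k
    have h2 := (measurePreserving_sub_right (volume : Measure (Fin d → ℝ))
      (la M k)).quasiMeasurePreserving.ae hGae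
    filter_upwards [W_ae (la M k) (lb M k) G, h2] with x h3 h4
    unfold rho
    rw [h3, h4]
  -- norms of finite combinations
  have hcomb : ∀ (s : Finset (Fin d ⊕ Fin d → ℤ)) (c : (Fin d ⊕ Fin d → ℤ) → ℂ),
      ‖∑ k ∈ s, c k • rho M k G‖ ^ 2 =
        ∫ x, ‖∑ k ∈ s, c k * (ch (lb M k) x * g (x - la M k))‖ ^ 2 := by
    intro s c
    rw [norm_sq_eq]
    refine integral_congr_ae ?_
    have h1 : ((∑ k ∈ s, c k • rho M k G : HH d) : (Fin d → ℝ) → ℂ) =ᵐ[volume]
        fun x => ∑ k ∈ s, c k * (ch (lb M k) x * g (x - la M k)) := by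
      induction s using Finset.induction_on with
      | empty =>
        simp only [Finset.sum_empty]
        exact Lp.coeFn_zero _ _ _
      | insert a s ha ih =>
        rw [Finset.sum_insert ha]
        filter_upwards [Lp.coeFn_add (c a • rho M a G) (∑ k ∈ s, c k • rho M k G),
          Lp.coeFn_smul (c a) (rho M a G), hrho a, ih] with x h1 h2 h3 h4
        rw [h1, Pi.add_apply, h2, Pi.smul_apply, h3, h4, Finset.sum_insert ha, smul_eq_mul]
    filter_upwards [h1] with x hx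
    rw [hx]
  have hlow : ∀ (s : Finset (Fin d ⊕ Fin d → ℤ)) (c : (Fin d ⊕ Fin d → ℤ) → ℂ),
      A * ∑ k ∈ s, ‖c k‖ ^ 2 ≤ ‖∑ k ∈ s, c k • rho M k G‖ ^ 2 := by
    intro s c; rw [hcomb]; exact (hAB s c).1
  have hup : ∀ (s : Finset (Fin d ⊕ Fin d → ℤ)) (c : (Fin d ⊕ Fin d → ℤ) → ℂ),
      ‖∑ k ∈ s, c k • rho M k G‖ ^ 2 ≤ B * ∑ k ∈ s, ‖c k‖ ^ 2 := by
    intro s c; rw [hcomb]; exact (hAB s c).2
  -- density
  have hdense : Dense (Submodule.span ℂ (Set.range fun k => rho M k G) : Set (HH d)) := by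
    have h1 : (Submodule.span ℂ (Set.range fun k => rho M k G)).topologicalClosure = ⊤ := by
      rw [Submodule.topologicalClosure_eq_top_iff, Submodule.eq_bot_iff]
      intro h hh
      have h2 : ∀ k, ∫ x, conj (h x) * (ch (lb M k) x * g (x - la M k)) = 0 := by
        intro k
        have h3 : inner ℂ (rho M k G) h = (0 : ℂ) :=
          (Submodule.mem_orthogonal _ _).mp hh _ (Submodule.subset_span ⟨k, rfl⟩)
        have h4 : inner ℂ h (rho M k G) = (0 : ℂ) := by
          rw [← inner_conj_symm, h3, map_zero]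
        rw [L2.inner_def] at h4
        rw [← h4]
        refine integral_congr_ae ?_
        filter_upwards [hrho k] with x hx
        rw [hx, RCLike.inner_apply, mul_comm]
      have h3 := hcomp h (Lp.memLp h) h2
      exact (Lp.eq_zero_iff_ae_eq_zero).mpr h3
    rw [dense_iff_closure_eq]
    have := congrArg (fun S : Submodule ℂ (HH d) => (S : Set (HH d))) h1
    simpa using this
  -- the dual window
  obtain ⟨D, hD⟩ := exists_dual (e := fun k => rho M k G) hA hlow (0 : Fin d ⊕ Fin d → ℤ)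
  have hbe : Bessel (fun k => rho M k G) B := bessel_of_upper hB hup
  have hbg : Bessel (fun k => rho M k D) A⁻¹ :=
    bessel_dual (e := fun k => rho M k G) hA hlow hdense
      (fun j k => (rho_proj M).biorth hD j k)
  have data : Data (rho M) (fun k l => ch (lb M l) (-(la M k))) G D A B :=
    ⟨rho_proj M, hA, hB, hdense, hD, hbe, hbg⟩
  -- coordinate and step sizes
  set j₀ : Fin d := ⟨0, hd⟩ with hj₀
  set ε : ℕ → ℝ := fun n => 1 / ((n : ℝ) + 1) with hεdef
  have hε : ∀ n, 0 < ε n := fun n => Nat.one_div_pos_of_nat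
  have hε0 : Tendsto ε atTop (𝓝 0) := tendsto_one_div_add_atTop_nhds_zero_nat
  have hps : Tendsto (fun n => (Pi.single j₀ (ε n) : Fin d → ℝ)) atTop (𝓝 0) := by
    have h1 : Continuous fun t : ℝ => (Pi.single j₀ t : Fin d → ℝ) := by
      have h3 : (fun t : ℝ => (Pi.single j₀ t : Fin d → ℝ)) =
          fun t => t • (Pi.single j₀ (1 : ℝ) : Fin d → ℝ) := funext fun t => (smul_single j₀ t).symm
      rw [h3]
      fun_prop
    have h2 := (h1.tendsto 0).comp hε0
    simpa [Function.comp_def] using h2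
  obtain ⟨h, hh, hw⟩ := hP j₀
  have hint : Integrable (fun x => (x j₀) ^ 2 * ‖G x‖ ^ 2) volume := by
    refine Integrable.mono' hX ?_ ?_
    · have h1 : Continuous fun x : Fin d → ℝ => (x j₀) ^ 2 := by fun_prop
      exact h1.aestronglyMeasurable.mul ((Lp.memLp G).1.norm.pow 2)
    · filter_upwards [hGae] with x hx
      rw [hx, Real.norm_eq_abs, abs_of_nonneg (by positivity)]
      refine mul_le_mul_of_nonneg_right ?_ (by positivity)
      exact Finset.single_le_sum (f := fun j => x j ^ 2) (fun _ _ => by positivity)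
        (Finset.mem_univ j₀)
  obtain ⟨x₀, hx₀⟩ := mod_diff G j₀ hint ε hε hε0
  -- operators
  set U : ℕ → (HH d ≃ₗᵢ[ℂ] HH d) := fun n => W (Pi.single j₀ (ε n)) 0 with hUdef
  set V : ℕ → (HH d ≃ₗᵢ[ℂ] HH d) := fun n => W 0 (Pi.single j₀ (ε n)) with hVdef
  have hUG : ∀ n, ‖U n G - G‖ ≤ ‖hh.toLp h‖ * ε n := by
    intro n
    have := trans_lip g h hg hh j₀ hw (ε n)
    rwa [abs_of_pos (hε n)] at this
  have hUt : Tendsto (fun n => U n G) atTop (𝓝 G) := by
    rw [tendsto_iff_norm_sub_tendsto_zero]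
    have h1 := hε0.const_mul ‖hh.toLp h‖
    rw [mul_zero] at h1
    exact squeeze_zero (fun n => norm_nonneg _) hUG h1
  have hVt : Tendsto (fun n => (V n).symm G) atTop (𝓝 G) := by
    have h1 : Tendsto (fun n => (ε n : ℂ) • (((ε n)⁻¹ : ℂ) • ((V n).symm G - G))) atTop
        (𝓝 ((0 : ℂ) • x₀)) := by
      have h2 : Tendsto (fun n => (ε n : ℂ)) atTop (𝓝 0) := by
        have := (Complex.continuous_ofReal.tendsto 0).comp hε0
        simpa [Function.comp_def] using this
      exact h2.smul hx₀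
    have h2 : (fun n => (ε n : ℂ) • (((ε n)⁻¹ : ℂ) • ((V n).symm G - G))) =
        fun n => (V n).symm G - G := by
      funext n
      rw [smul_smul, mul_inv_cancel₀ (by exact_mod_cast (hε n).ne'), one_smul]
    rw [h2, zero_smul] at h1
    have h3 := h1.add_const G
    simpa using h3
  have hUV : Tendsto (fun n => (V n).symm (U n G)) atTop (𝓝 G) := by
    rw [tendsto_iff_norm_sub_tendsto_zero] at hUt hVt ⊢
    have h1 := hUt.add hVt
    rw [add_zero] at h1
    refine squeeze_zero (fun n => norm_nonneg _) (fun n => ?_) h1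
    calc ‖(V n).symm (U n G) - G‖ = ‖(V n).symm (U n G - G) + ((V n).symm G - G)‖ := by
          rw [map_sub]; congr 1; abel
      _ ≤ ‖(V n).symm (U n G - G)‖ + ‖(V n).symm G - G‖ := norm_add_le _ _
      _ = _ := by rw [LinearIsometryEquiv.norm_map]
  refine data.blt U V (fun n k => ch (lb M k) (-(Pi.single j₀ (ε n))))
    (fun n k => ch (Pi.single j₀ (ε n)) (la M k)) ?_ ?_ ?_ ?_
    (fun n => ch (-(Pi.single j₀ (ε n))) (-(Pi.single j₀ (ε n)))) ?_ ε hε ?_ ‖hh.toLp h‖ hUG x₀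
    hx₀ hUV
  · intro n
    refine ⟨fun k f => ?_, fun k => ch_norm _ _, ?_⟩
    · exact inter_trans _ _ _ f
    · simp only [lb_zero, ch_zero_left]
  · intro n
    refine ⟨fun k f => ?_, fun k => ch_norm _ _, ?_⟩
    · exact inter_mod _ _ _ f
    · simp only [la_zero, ch_zero_right]
  · intro k
    have h1 : Continuous fun v : Fin d → ℝ => ch (lb M k) (-v) := (ch_continuous _).comp continuous_neg
    have h2 := (h1.tendsto 0).comp hps
    simpa [ch_zero_right, Function.comp_def] using h2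
  · intro k
    have h1 : Continuous fun v : Fin d → ℝ => ch v (la M k) := by unfold ch; fun_prop
    have h2 := (h1.tendsto 0).comp hps
    simpa [ch_zero_left, Function.comp_def] using h2
  · intro n f
    simp only [hUdef, hVdef, W_symm_mod]
    rw [W_comp, W_comp, zero_add, add_zero, zero_add, add_zero, ch_zero_left, one_smul]
  · -- lower bound for `|1 - ω|`
    have h1 : ∀ᶠ n in atTop, 2 * Real.pi * ε n ^ 2 ≤ Real.pi / 2 := by
      have h2 : Tendsto (fun n => 2 * Real.pi * ε n ^ 2) atTop (𝓝 0) := by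
        have := (hε0.pow 2).const_mul (2 * Real.pi)
        simpa using this
      exact h2.eventually_le_const (by positivity)
    filter_upwards [h1] with n hn
    have h3 : ch (-(Pi.single j₀ (ε n))) (-(Pi.single j₀ (ε n))) =
        Complex.exp (((2 * Real.pi * ε n ^ 2 : ℝ) : ℂ) * Complex.I) := by
      rw [ch_eq]
      congr 3
      have : ∑ i, (-(Pi.single j₀ (ε n) : Fin d → ℝ)) i * (-(Pi.single j₀ (ε n) : Fin d → ℝ)) i =
          ε n ^ 2 := by
        rw [Finset.sum_eq_single j₀]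
        · simp; ring
        · intro i _ hi
          simp [Pi.single_eq_of_ne hi]
        · simp
      rw [this]
    rw [h3]
    have h4 := norm_one_sub_exp (2 * Real.pi * ε n ^ 2) (by positivity) hn
    refine le_trans ?_ h4
    have h5 : 2 / Real.pi * (2 * Real.pi * ε n ^ 2) = 4 * ε n ^ 2 := by
      field_simp
      ring
    rw [h5]
    nlinarith [sq_nonneg (ε n)]

end Pool.Agent.Q84.BLT
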