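import Mathlib

/-!
# Ingham's inequality for exponential sums with large gaps (Schur test form)
-/

set_option autoImplicit false

namespace Pool.Agent.Q84.Ing

open MeasureTheory Set Complex

/-- `e^{iωt}` -/
noncomputable def ex (ω t : ℝ) : ℂ := Complex.exp (((ω * t : ℝ) : ℂ) * I)

lemma ex_norm (ω t : ℝ) : ‖ex ω t‖ = 1 := Complex.norm_exp_ofReal_mul_I _

lemma ex_cont (ω : ℝ) : Continuous (ex ω) := by unfold ex; fun_prop

lemma ex_cont2 : Continuous (fun p : ℝ × ℝ => ex p.1 p.2) := by unfold ex; fun_prop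

lemma ex_add (ω s t : ℝ) : ex ω (s + t) = ex ω s * ex ω t := by
  unfold ex
  rw [← Complex.exp_add]
  congr 1
  push_cast
  ring

lemma ex_mul_conj (ω ω' t : ℝ) : ex ω t * (starRingEnd ℂ) (ex ω' t) = ex (ω - ω') t := by
  unfold ex
  rw [← Complex.exp_conj, ← Complex.exp_add]
  congr 1
  rw [map_mul, Complex.conj_ofReal, Complex.conj_I]
  push_cast
  ring

/-- `∫_a^b e^{iωs} ds` -/
noncomputable def J (a b ω : ℝ) : ℂ := ∫ s in a..b, ex ω s

lemma J_zero (a b : ℝ) : J a b 0 = ((b - a : ℝ) : ℂ) := by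
  unfold J ex
  simp

lemma J_norm_le {a b : ℝ} (hab : a ≤ b) (ω : ℝ) : ‖J a b ω‖ ≤ b - a := by
  unfold J
  have := intervalIntegral.norm_integral_le_of_norm_le_const (a := a) (b := b) (C := 1)
    (f := ex ω) (fun x _ => (ex_norm ω x).le)
  rw [one_mul, abs_of_nonneg (by linarith)] at this
  exact this

lemma J_norm_le' (a b : ℝ) {ω : ℝ} (h : ω ≠ 0) : ‖J a b ω‖ ≤ 2 / |ω| := by
  have h1 : J a b ω = (ex ω b - ex ω a) / ((ω : ℂ) * I) := by
    unfold J ex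
    have h2 : ∀ s : ℝ, Complex.exp (((ω * s : ℝ) : ℂ) * I) = Complex.exp (((ω : ℂ) * I) * s) := by
      intro s
      congr 1
      push_cast
      ring
    rw [intervalIntegral.integral_congr (fun s _ => h2 s), integral_exp_mul_complex, h2, h2]
    have : (ω : ℂ) ≠ 0 := by exact_mod_cast h
    simp [this, Complex.I_ne_zero]
  rw [h1, norm_div, norm_mul, Complex.norm_I, mul_one, Complex.norm_real, Real.norm_eq_abs]
  gcongr
  refine (norm_sub_le _ _).trans ?_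
  rw [ex_norm, ex_norm]
  norm_num

/-- an exponential sum -/
noncomputable def tr (S : Finset ℝ) (b : ℝ → ℂ) (t : ℝ) : ℂ := ∑ ω ∈ S, b ω * ex ω t

lemma tr_cont (S : Finset ℝ) (b : ℝ → ℂ) : Continuous (tr S b) := by
  unfold tr
  exact continuous_finsetSum _ fun ω _ => continuous_const.mul (ex_cont ω)

/-- the double integral -/
lemma double (S : Finset ℝ) (b : ℝ → ℂ) (a₁ b₁ a₂ b₂ : ℝ) :
    ((∫ s' in a₂..b₂, ∫ s in a₁..b₁, ‖tr S b (s + s')‖ ^ 2 : ℝ) : ℂ) =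
      ∑ ω ∈ S, ∑ ω' ∈ S, b ω * (starRingEnd ℂ) (b ω') * (J a₁ b₁ (ω - ω') * J a₂ b₂ (ω - ω')) := by
  have h1 : ∀ t : ℝ, ((‖tr S b t‖ ^ 2 : ℝ) : ℂ) =
      ∑ ω ∈ S, ∑ ω' ∈ S, b ω * (starRingEnd ℂ) (b ω') * ex (ω - ω') t := by
    intro t
    rw [← Complex.normSq_eq_norm_sq, ← Complex.mul_conj]
    unfold tr
    rw [map_sum, Finset.sum_mul_sum]
    apply Finset.sum_congr rfl
    intro ω _
    apply Finset.sum_congr rfl
    intro ω' _
    rw [map_mul, ← ex_mul_conj]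
    ring
  rw [← intervalIntegral.integral_ofReal]
  have h2 : ∀ s' : ℝ, ((∫ s in a₁..b₁, ‖tr S b (s + s')‖ ^ 2 : ℝ) : ℂ) =
      ∑ ω ∈ S, ∑ ω' ∈ S, b ω * (starRingEnd ℂ) (b ω') * (J a₁ b₁ (ω - ω') * ex (ω - ω') s') := by
    intro s'
    rw [← intervalIntegral.integral_ofReal]
    rw [intervalIntegral.integral_congr (fun s _ => h1 (s + s'))]
    rw [intervalIntegral.integral_finsetSum]
    · apply Finset.sum_congr rfl
      intro ω _
      rw [intervalIntegral.integral_finsetSum]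
      · apply Finset.sum_congr rfl
        intro ω' _
        rw [intervalIntegral.integral_const_mul]
        congr 1
        unfold J
        rw [← intervalIntegral.integral_mul_const]
        apply intervalIntegral.integral_congr
        intro s _
        exact ex_add _ _ _
      · intro ω' _
        apply Continuous.intervalIntegrable
        exact continuous_const.mul ((ex_cont _).comp (by fun_prop))
    · intro ω _
      apply Continuous.intervalIntegrable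
      exact continuous_finsetSum _ fun ω' _ => continuous_const.mul ((ex_cont _).comp (by fun_prop))
  rw [intervalIntegral.integral_congr (fun s' _ => h2 s')]
  rw [intervalIntegral.integral_finsetSum]
  · apply Finset.sum_congr rfl
    intro ω _
    rw [intervalIntegral.integral_finsetSum]
    · apply Finset.sum_congr rfl
      intro ω' _
      rw [intervalIntegral.integral_const_mul, intervalIntegral.integral_const_mul]
      rfl
    · intro ω' _
      apply Continuous.intervalIntegrable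
      exact continuous_const.mul (continuous_const.mul (ex_cont _))
  · intro ω _
    apply Continuous.intervalIntegrable
    exact continuous_finsetSum _ fun ω' _ => continuous_const.mul (continuous_const.mul (ex_cont _))

/-! ### separated sums -/

/-- `S` is `γ`-separated -/
def Sep (γ : ℝ) (S : Set ℝ) : Prop := ∀ x ∈ S, ∀ y ∈ S, x ≠ y → γ ≤ |x - y|

/-- the universal constant -/
noncomputable def cS : ℝ := ∑' j : ℤ, 1 / (j : ℝ) ^ 2

lemma cS_summable : Summable fun j : ℤ => 1 / (j : ℝ) ^ 2 :=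
  Real.summable_one_div_int_pow.mpr (by norm_num)

lemma cS_nonneg : 0 ≤ cS := tsum_nonneg fun j => by positivity

lemma sep_sum {γ : ℝ} (hγ : 0 < γ) (S : Finset ℝ) (hS : Sep γ (S : Set ℝ)) (x : ℝ) (hx : x ∈ S) :
    ∑ y ∈ S.erase x, 1 / (x - y) ^ 2 ≤ 4 / γ ^ 2 * cS := by
  have h1 : ∀ y ∈ S.erase x, 1 / (x - y) ^ 2 ≤ 4 / γ ^ 2 * (1 / ((⌊(y - x) / γ⌋ : ℤ) : ℝ) ^ 2) := by
    intro y hy
    rw [Finset.mem_erase] at hy
    have hsep : γ ≤ |x - y| := hS x hx y hy.2 (Ne.symm hy.1)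
    set n := ⌊(y - x) / γ⌋ with hn
    have hn1 : (n : ℝ) ≤ (y - x) / γ := Int.floor_le _
    have hn2 : (y - x) / γ < n + 1 := Int.lt_floor_add_one _
    have habs : |x - y| / γ = |(y - x) / γ| := by
      rw [abs_div, abs_of_pos hγ, abs_sub_comm]
    have hge1 : 1 ≤ |(y - x) / γ| := by
      rw [← habs, one_le_div hγ]
      exact hsep
    have hn0 : n ≠ 0 := by
      intro h0
      rw [h0] at hn1 hn2
      simp only [Int.cast_zero, zero_add] at hn1 hn2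
      rw [abs_of_nonneg hn1] at hge1
      linarith
    have hhalf : |(n : ℝ)| / 2 ≤ |(y - x) / γ| := by
      rcases lt_or_gt_of_ne hn0 with h | h
      · have hr : (n : ℝ) ≤ -1 := by exact_mod_cast Int.le_sub_one_of_lt h
        rw [abs_of_neg (by linarith)]
        by_cases h2 : n = -1
        · rw [h2]
          push_cast
          linarith
        · have hr2 : (n : ℝ) ≤ -2 := by
            have : n ≤ -2 := by omega
            exact_mod_cast this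
          have : (y - x) / γ < 0 := by linarith
          rw [abs_of_neg this]
          linarith
      · have hr : (1 : ℝ) ≤ n := by exact_mod_cast h
        rw [abs_of_pos (by linarith), abs_of_pos (by linarith)]
        linarith
    have hnr : (0 : ℝ) < |(n : ℝ)| := by
      rw [abs_pos]
      exact_mod_cast hn0
    have h3 : γ * (|(n : ℝ)| / 2) ≤ |x - y| := by
      rw [← habs, le_div_iff₀ hγ] at hhalf
      linarith
    have h4 : (γ * (|(n : ℝ)| / 2)) ^ 2 ≤ (x - y) ^ 2 := by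
      rw [← sq_abs (x - y)]
      exact pow_le_pow_left₀ (by positivity) h3 2
    calc 1 / (x - y) ^ 2 ≤ 1 / (γ * (|(n : ℝ)| / 2)) ^ 2 :=
          one_div_le_one_div_of_le (by positivity) h4
      _ = 4 / γ ^ 2 * (1 / (n : ℝ) ^ 2) := by
          rw [mul_pow, div_pow, sq_abs]
          field_simp
          norm_num
  refine (Finset.sum_le_sum h1).trans ?_
  rw [← Finset.mul_sum]
  apply mul_le_mul_of_nonneg_left _ (by positivity)
  have hinj : Set.InjOn (fun y => ⌊(y - x) / γ⌋) (S.erase x : Finset ℝ) := by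
    intro y hy y' hy' hyy
    simp only at hyy
    by_contra hne
    have h2 := hS y (Finset.mem_of_mem_erase (Finset.mem_coe.mp hy)) y'
      (Finset.mem_of_mem_erase (Finset.mem_coe.mp hy')) hne
    have h3 : |(y - x) / γ - (y' - x) / γ| < 1 := Int.abs_sub_lt_one_of_floor_eq_floor hyy
    have h4 : (y - x) / γ - (y' - x) / γ = (y - y') / γ := by ring
    rw [h4, abs_div, abs_of_pos hγ, div_lt_one hγ] at h3
    linarith
  rw [← Finset.sum_image (s := S.erase x) (g := fun y => ⌊(y - x) / γ⌋)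
    (f := fun n : ℤ => 1 / (n : ℝ) ^ 2) (by exact hinj)]
  exact cS_summable.sum_le_tsum _ fun j _ => by positivity

/-- Schur test -/
lemma schur {γ : ℝ} (hγ : 0 < γ) (S : Finset ℝ) (hS : Sep γ (S : Set ℝ)) (b : ℝ → ℂ) :
    ∑ ω ∈ S, ∑ ω' ∈ S.erase ω, ‖b ω‖ * ‖b ω'‖ * (4 / (ω - ω') ^ 2) ≤
      16 / γ ^ 2 * cS * ∑ ω ∈ S, ‖b ω‖ ^ 2 := by
  have h1 : ∀ ω ∈ S, ∀ ω' ∈ S.erase ω, ‖b ω‖ * ‖b ω'‖ * (4 / (ω - ω') ^ 2) ≤
      2 * (‖b ω‖ ^ 2 * (1 / (ω - ω') ^ 2)) + 2 * (‖b ω'‖ ^ 2 * (1 / (ω - ω') ^ 2)) := by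
    intro ω _ ω' _
    have h2 : ‖b ω‖ * ‖b ω'‖ ≤ (‖b ω‖ ^ 2 + ‖b ω'‖ ^ 2) / 2 := by
      nlinarith [sq_nonneg (‖b ω‖ - ‖b ω'‖)]
    have h3 : 0 ≤ 4 / (ω - ω') ^ 2 := by positivity
    calc ‖b ω‖ * ‖b ω'‖ * (4 / (ω - ω') ^ 2) ≤ (‖b ω‖ ^ 2 + ‖b ω'‖ ^ 2) / 2 * (4 / (ω - ω') ^ 2) := by
          gcongr
      _ = _ := by ring
  have h2 : ∑ ω ∈ S, ∑ ω' ∈ S.erase ω, ‖b ω‖ * ‖b ω'‖ * (4 / (ω - ω') ^ 2) ≤
      ∑ ω ∈ S, ∑ ω' ∈ S.erase ω, (2 * (‖b ω‖ ^ 2 * (1 / (ω - ω') ^ 2)) +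
        2 * (‖b ω'‖ ^ 2 * (1 / (ω - ω') ^ 2))) :=
    Finset.sum_le_sum fun ω hω => Finset.sum_le_sum fun ω' hω' => h1 ω hω ω' hω'
  refine h2.trans ?_
  have h3 : ∑ ω ∈ S, ∑ ω' ∈ S.erase ω, ‖b ω'‖ ^ 2 * (1 / (ω - ω') ^ 2) =
      ∑ ω ∈ S, ∑ ω' ∈ S.erase ω, ‖b ω‖ ^ 2 * (1 / (ω - ω') ^ 2) := by
    rw [Finset.sum_comm' (t' := S) (s' := fun ω' => S.erase ω')]
    · apply Finset.sum_congr rfl
      intro ω _
      apply Finset.sum_congr rfl
      intro ω' _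
      congr 2
      rw [← neg_sub, neg_sq]
    · intro ω ω'
      simp only [Finset.mem_erase]
      tauto
  have h4 : ∑ ω ∈ S, ∑ ω' ∈ S.erase ω, ‖b ω‖ ^ 2 * (1 / (ω - ω') ^ 2) ≤
      4 / γ ^ 2 * cS * ∑ ω ∈ S, ‖b ω‖ ^ 2 := by
    rw [Finset.mul_sum]
    apply Finset.sum_le_sum
    intro ω hω
    rw [← Finset.mul_sum, mul_comm]
    exact mul_le_mul_of_nonneg_right (sep_sum hγ S hS ω hω) (by positivity)
  have h5 : ∑ ω ∈ S, ∑ ω' ∈ S.erase ω, (2 * (‖b ω‖ ^ 2 * (1 / (ω - ω') ^ 2)) +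
        2 * (‖b ω'‖ ^ 2 * (1 / (ω - ω') ^ 2))) =
      2 * ∑ ω ∈ S, ∑ ω' ∈ S.erase ω, ‖b ω‖ ^ 2 * (1 / (ω - ω') ^ 2) +
        2 * ∑ ω ∈ S, ∑ ω' ∈ S.erase ω, ‖b ω'‖ ^ 2 * (1 / (ω - ω') ^ 2) := by
    rw [Finset.mul_sum, Finset.mul_sum, ← Finset.sum_add_distrib]
    apply Finset.sum_congr rfl
    intro ω _
    rw [Finset.mul_sum, Finset.mul_sum, ← Finset.sum_add_distrib]
  rw [h5, h3]
  calc 2 * ∑ ω ∈ S, ∑ ω' ∈ S.erase ω, ‖b ω‖ ^ 2 * (1 / (ω - ω') ^ 2) +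
        2 * ∑ ω ∈ S, ∑ ω' ∈ S.erase ω, ‖b ω‖ ^ 2 * (1 / (ω - ω') ^ 2)
      = 4 * ∑ ω ∈ S, ∑ ω' ∈ S.erase ω, ‖b ω‖ ^ 2 * (1 / (ω - ω') ^ 2) := by ring
    _ ≤ 4 * (4 / γ ^ 2 * cS * ∑ ω ∈ S, ‖b ω‖ ^ 2) := by gcongr
    _ = _ := by ring

/-- the double integral is close to the diagonal -/
lemma near {γ : ℝ} (hγ : 0 < γ) (S : Finset ℝ) (hS : Sep γ (S : Set ℝ)) (b : ℝ → ℂ)
    {a₁ b₁ a₂ b₂ : ℝ} :
    |(∫ s' in a₂..b₂, ∫ s in a₁..b₁, ‖tr S b (s + s')‖ ^ 2) -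
      (b₁ - a₁) * (b₂ - a₂) * ∑ ω ∈ S, ‖b ω‖ ^ 2| ≤ 16 / γ ^ 2 * cS * ∑ ω ∈ S, ‖b ω‖ ^ 2 := by
  refine le_trans ?_ (schur hγ S hS b)
  have h1 := double S b a₁ b₁ a₂ b₂
  have h2 : (((b₁ - a₁) * (b₂ - a₂) * ∑ ω ∈ S, ‖b ω‖ ^ 2 : ℝ) : ℂ) =
      ∑ ω ∈ S, b ω * (starRingEnd ℂ) (b ω) * (J a₁ b₁ (ω - ω) * J a₂ b₂ (ω - ω)) := by
    push_cast
    rw [Finset.mul_sum]
    apply Finset.sum_congr rfl
    intro ω _
    rw [sub_self, J_zero, J_zero, Complex.mul_conj, Complex.normSq_eq_norm_sq]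
    push_cast
    ring
  have h3 : (((∫ s' in a₂..b₂, ∫ s in a₁..b₁, ‖tr S b (s + s')‖ ^ 2) -
      (b₁ - a₁) * (b₂ - a₂) * ∑ ω ∈ S, ‖b ω‖ ^ 2 : ℝ) : ℂ) =
      ∑ ω ∈ S, ∑ ω' ∈ S.erase ω,
        b ω * (starRingEnd ℂ) (b ω') * (J a₁ b₁ (ω - ω') * J a₂ b₂ (ω - ω')) := by
    rw [Complex.ofReal_sub, h1, h2, ← Finset.sum_sub_distrib]
    apply Finset.sum_congr rfl
    intro ω hω
    rw [← Finset.sum_erase_add S _ hω]
    ring
  rw [← Real.norm_eq_abs, ← Complex.norm_real, h3]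
  refine (norm_sum_le _ _).trans (Finset.sum_le_sum fun ω _ => ?_)
  refine (norm_sum_le _ _).trans (Finset.sum_le_sum fun ω' hω' => ?_)
  rw [Finset.mem_erase] at hω'
  rw [norm_mul, norm_mul, RCLike.norm_conj]
  have hne : ω - ω' ≠ 0 := sub_ne_zero.mpr (Ne.symm hω'.1)
  have h4 : ‖J a₁ b₁ (ω - ω') * J a₂ b₂ (ω - ω')‖ ≤ 4 / (ω - ω') ^ 2 := by
    rw [norm_mul]
    calc ‖J a₁ b₁ (ω - ω')‖ * ‖J a₂ b₂ (ω - ω')‖ ≤ (2 / |ω - ω'|) * (2 / |ω - ω'|) := by
          gcongr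
          · exact J_norm_le' _ _ hne
          · exact J_norm_le' _ _ hne
      _ = 4 / (ω - ω') ^ 2 := by
          rw [← sq_abs (ω - ω')]
          field_simp
          norm_num
  gcongr

/-- **Ingham's inverse inequality** for large gaps -/
lemma inv_large {γ T : ℝ} (hγ : 0 < γ) (hT : 0 < T) (hbig : 128 * cS ≤ γ ^ 2 * T ^ 2)
    (S : Finset ℝ) (hS : Sep γ (S : Set ℝ)) (b : ℝ → ℂ) :
    ∑ ω ∈ S, ‖b ω‖ ^ 2 ≤ (4 / T) * ∫ t in (0 : ℝ)..T, ‖tr S b t‖ ^ 2 := by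
  set Sb := ∑ ω ∈ S, ‖b ω‖ ^ 2 with hSb
  have hSb0 : 0 ≤ Sb := Finset.sum_nonneg fun ω _ => by positivity
  have hcont : Continuous fun t => ‖tr S b t‖ ^ 2 := ((tr_cont S b).norm).pow 2
  set g : ℝ → ℝ := fun t => ‖tr S b t‖ ^ 2 with hg
  have h1 := near hγ S hS b (a₁ := 0) (b₁ := T / 2) (a₂ := 0) (b₂ := T / 2)
  have h2 : (∫ s' in (0 : ℝ)..(T / 2), ∫ s in (0 : ℝ)..(T / 2), g (s + s')) ≤
      (T / 2) * ∫ t in (0 : ℝ)..T, g t := by
    have h3 : (∫ s' in (0 : ℝ)..(T / 2), ∫ s in (0 : ℝ)..(T / 2), g (s + s')) ≤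
        ∫ s' in (0 : ℝ)..(T / 2), ∫ t in (0 : ℝ)..T, g t := by
      apply intervalIntegral.integral_mono_on (by linarith)
      · apply Continuous.intervalIntegrable
        apply intervalIntegral.continuous_parametric_intervalIntegral_of_continuous'
        exact hcont.comp (by fun_prop)
      · exact intervalIntegrable_const
      · intro s' hs'
        rw [intervalIntegral.integral_comp_add_right (fun x => g x)]
        apply intervalIntegral.integral_mono_interval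
        · linarith [hs'.1]
        · linarith [hs'.1, hs'.2]
        · linarith [hs'.2]
        · exact Filter.Eventually.of_forall fun x => by simp only [hg]; positivity
        · exact hcont.intervalIntegrable _ _
    rw [intervalIntegral.integral_const, sub_zero, smul_eq_mul] at h3
    exact h3
  have h3 : 16 / γ ^ 2 * cS ≤ T ^ 2 / 8 := by
    rw [div_mul_eq_mul_div, div_le_iff₀ (by positivity)]
    nlinarith
  have h4 : (T / 2 - 0) * (T / 2 - 0) * Sb - 16 / γ ^ 2 * cS * Sb ≤ (T / 2) * ∫ t in (0 : ℝ)..T, g t := by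
    have := (abs_le.mp h1).1
    linarith
  have h5 : T ^ 2 / 8 * Sb ≤ (T / 2) * ∫ t in (0 : ℝ)..T, g t := by
    have : 16 / γ ^ 2 * cS * Sb ≤ T ^ 2 / 8 * Sb := by gcongr
    nlinarith
  have h6 : (4 / T) * ∫ t in (0 : ℝ)..T, g t = (8 / T ^ 2) * ((T / 2) * ∫ t in (0 : ℝ)..T, g t) := by
    field_simp
    ring
  rw [h6]
  calc Sb = (8 / T ^ 2) * (T ^ 2 / 8 * Sb) := by field_simp
    _ ≤ _ := by gcongr

/-- **direct inequality** -/
lemma direct {γ T : ℝ} (hγ : 0 < γ) (hT : 0 < T) (S : Finset ℝ) (hS : Sep γ (S : Set ℝ)) (b : ℝ → ℂ) :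
    ∫ t in (0 : ℝ)..T, ‖tr S b t‖ ^ 2 ≤ (2 * T + 16 / γ ^ 2 * cS / T) * ∑ ω ∈ S, ‖b ω‖ ^ 2 := by
  set Sb := ∑ ω ∈ S, ‖b ω‖ ^ 2 with hSb
  have hcont : Continuous fun t => ‖tr S b t‖ ^ 2 := ((tr_cont S b).norm).pow 2
  set g : ℝ → ℝ := fun t => ‖tr S b t‖ ^ 2 with hg
  have h1 := near hγ S hS b (a₁ := -T) (b₁ := T) (a₂ := 0) (b₂ := T)
  have h2 : T * (∫ t in (0 : ℝ)..T, g t) ≤ ∫ s' in (0 : ℝ)..T, ∫ s in (-T)..T, g (s + s') := by
    have h3 : (∫ s' in (0 : ℝ)..T, ∫ t in (0 : ℝ)..T, g t) ≤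
        ∫ s' in (0 : ℝ)..T, ∫ s in (-T)..T, g (s + s') := by
      apply intervalIntegral.integral_mono_on (by linarith)
      · exact intervalIntegrable_const
      · apply Continuous.intervalIntegrable
        apply intervalIntegral.continuous_parametric_intervalIntegral_of_continuous'
        exact hcont.comp (by fun_prop)
      · intro s' hs'
        rw [intervalIntegral.integral_comp_add_right (fun x => g x)]
        apply intervalIntegral.integral_mono_interval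
        · linarith [hs'.2]
        · linarith
        · linarith [hs'.1]
        · exact Filter.Eventually.of_forall fun x => by simp only [hg]; positivity
        · exact hcont.intervalIntegrable _ _
    rw [intervalIntegral.integral_const, sub_zero, smul_eq_mul] at h3
    exact h3
  have h4 : T * (∫ t in (0 : ℝ)..T, g t) ≤ (T - -T) * (T - 0) * Sb + 16 / γ ^ 2 * cS * Sb := by
    have := (abs_le.mp h1).2
    linarith
  have h5 : T * (∫ t in (0 : ℝ)..T, g t) ≤ T * ((2 * T + 16 / γ ^ 2 * cS / T) * Sb) := by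
    refine h4.trans (le_of_eq ?_)
    field_simp
    ring
  exact le_of_mul_le_mul_left h5 hT

end Pool.Agent.Q84.Ing
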