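import Mathlib
import Pool.Agent.Q84.Ing1

/-!
# Haraux's argument: adding finitely many frequencies, and a linear term, in Ingham's inequality
-/

set_option autoImplicit false

namespace Pool.Agent.Q84.Ing

open MeasureTheory Set Complex

/-- the averaging operator -/
noncomputable def av (δ ω₀ : ℝ) (f : ℝ → ℂ) (t : ℝ) : ℂ :=
  (1 / δ : ℝ) • ∫ s in (0 : ℝ)..δ, ex (-ω₀) s * f (t + s)

/-- Cauchy-Schwarz on an interval -/
lemma cs_int {δ : ℝ} (hδ : 0 < δ) (h : ℝ → ℂ) (hc : Continuous h) :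
    ‖∫ s in (0 : ℝ)..δ, h s‖ ^ 2 ≤ δ * ∫ s in (0 : ℝ)..δ, ‖h s‖ ^ 2 := by
  set A := ∫ s in (0 : ℝ)..δ, ‖h s‖ with hA
  have hA0 : 0 ≤ A := intervalIntegral.integral_nonneg hδ.le fun _ _ => norm_nonneg _
  have h1 : ‖∫ s in (0 : ℝ)..δ, h s‖ ≤ A := intervalIntegral.norm_integral_le_integral_norm hδ.le
  have h2 : 0 ≤ ∫ s in (0 : ℝ)..δ, (‖h s‖ - A / δ) ^ 2 :=
    intervalIntegral.integral_nonneg hδ.le fun _ _ => sq_nonneg _
  have i1 : IntervalIntegrable (fun s => ‖h s‖ ^ 2) volume 0 δ :=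
    ((hc.norm).pow 2).intervalIntegrable _ _
  have i2 : IntervalIntegrable (fun s => 2 * (A / δ) * ‖h s‖) volume 0 δ :=
    (continuous_const.mul hc.norm).intervalIntegrable _ _
  have h3 : ∫ s in (0 : ℝ)..δ, (‖h s‖ - A / δ) ^ 2 =
      (∫ s in (0 : ℝ)..δ, ‖h s‖ ^ 2) - A ^ 2 / δ := by
    have e : ∀ s, (‖h s‖ - A / δ) ^ 2 = (‖h s‖ ^ 2 - 2 * (A / δ) * ‖h s‖) + (A / δ) ^ 2 := by
      intro s; ring
    rw [intervalIntegral.integral_congr (fun s _ => e s)]
    rw [intervalIntegral.integral_add (i1.sub i2) intervalIntegrable_const,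
      intervalIntegral.integral_sub i1 i2, intervalIntegral.integral_const_mul,
      intervalIntegral.integral_const, ← hA, sub_zero, smul_eq_mul]
    field_simp
    ring
  rw [h3] at h2
  have h4 : A ^ 2 ≤ δ * ∫ s in (0 : ℝ)..δ, ‖h s‖ ^ 2 := by
    have : A ^ 2 / δ ≤ ∫ s in (0 : ℝ)..δ, ‖h s‖ ^ 2 := by linarith
    rw [div_le_iff₀ hδ] at this
    linarith
  exact (pow_le_pow_left₀ (norm_nonneg _) h1 2).trans h4

lemma av_norm_sq {δ : ℝ} (hδ : 0 < δ) (ω₀ : ℝ) (f : ℝ → ℂ) (hf : Continuous f) {t T : ℝ}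
    (ht : 0 ≤ t) (htT : t ≤ T) :
    ‖av δ ω₀ f t‖ ^ 2 ≤ (1 / δ) * ∫ s in (0 : ℝ)..(T + δ), ‖f s‖ ^ 2 := by
  have hc : Continuous fun s => ex (-ω₀) s * f (t + s) := (ex_cont _).mul (hf.comp (by fun_prop))
  have h1 := cs_int hδ _ hc
  have h2 : ∫ s in (0 : ℝ)..δ, ‖ex (-ω₀) s * f (t + s)‖ ^ 2 = ∫ s in t..(t + δ), ‖f s‖ ^ 2 := by
    have e : ∀ s, ‖ex (-ω₀) s * f (t + s)‖ ^ 2 = ‖f (t + s)‖ ^ 2 := by
      intro s
      rw [norm_mul, ex_norm, one_mul]
    rw [intervalIntegral.integral_congr (fun s _ => e s),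
      intervalIntegral.integral_comp_add_left (fun x => ‖f x‖ ^ 2), add_zero]
  have h3 : ∫ s in t..(t + δ), ‖f s‖ ^ 2 ≤ ∫ s in (0 : ℝ)..(T + δ), ‖f s‖ ^ 2 := by
    apply intervalIntegral.integral_mono_interval ht (by linarith) (by linarith)
    · exact Filter.Eventually.of_forall fun x => by positivity
    · exact ((hf.norm).pow 2).intervalIntegrable _ _
  rw [h2] at h1
  unfold av
  rw [norm_smul, mul_pow, Real.norm_of_nonneg (by positivity)]
  calc (1 / δ) ^ 2 * ‖∫ s in (0 : ℝ)..δ, ex (-ω₀) s * f (t + s)‖ ^ 2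
      ≤ (1 / δ) ^ 2 * (δ * ∫ s in (0 : ℝ)..(T + δ), ‖f s‖ ^ 2) := by
        gcongr
        exact h1.trans (by gcongr)
    _ = _ := by field_simp

lemma av_cont {δ : ℝ} (ω₀ : ℝ) (f : ℝ → ℂ) (hf : Continuous f) : Continuous (av δ ω₀ f) := by
  unfold av
  apply Continuous.fun_const_smul
  apply intervalIntegral.continuous_parametric_intervalIntegral_of_continuous'
  exact ((ex_cont _).comp continuous_snd).mul (hf.comp (by fun_prop))

/-- the energy of `f - av f` -/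
lemma energy {δ T : ℝ} (hδ : 0 < δ) (hT : 0 < T) (ω₀ : ℝ) (f : ℝ → ℂ) (hf : Continuous f) :
    ∫ t in (0 : ℝ)..T, ‖f t - av δ ω₀ f t‖ ^ 2 ≤
      (2 + 2 * T / δ) * ∫ t in (0 : ℝ)..(T + δ), ‖f t‖ ^ 2 := by
  set M := ∫ t in (0 : ℝ)..(T + δ), ‖f t‖ ^ 2 with hM
  have h1 : ∫ t in (0 : ℝ)..T, ‖f t - av δ ω₀ f t‖ ^ 2 ≤
      ∫ t in (0 : ℝ)..T, (2 * ‖f t‖ ^ 2 + 2 * ((1 / δ) * M)) := by
    apply intervalIntegral.integral_mono_on hT.le
    · exact (((hf.sub (av_cont ω₀ f hf)).norm).pow 2).intervalIntegrable _ _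
    · exact ((continuous_const.mul ((hf.norm).pow 2)).add continuous_const).intervalIntegrable _ _
    · intro t ht
      have h2 := av_norm_sq hδ ω₀ f hf ht.1 ht.2
      have h3 : ‖f t - av δ ω₀ f t‖ ^ 2 ≤ 2 * ‖f t‖ ^ 2 + 2 * ‖av δ ω₀ f t‖ ^ 2 := by
        have h4 := norm_sub_le (f t) (av δ ω₀ f t)
        have h5 := norm_nonneg (f t - av δ ω₀ f t)
        nlinarith [sq_nonneg (‖f t‖ - ‖av δ ω₀ f t‖), norm_nonneg (f t), norm_nonneg (av δ ω₀ f t)]
      linarith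
  refine h1.trans ?_
  rw [intervalIntegral.integral_add, intervalIntegral.integral_const_mul,
    intervalIntegral.integral_const, sub_zero, smul_eq_mul]
  · have h4 : ∫ t in (0 : ℝ)..T, ‖f t‖ ^ 2 ≤ M := by
      apply intervalIntegral.integral_mono_interval le_rfl hT.le (by linarith)
      · exact Filter.Eventually.of_forall fun x => by positivity
      · exact ((hf.norm).pow 2).intervalIntegrable _ _
    calc 2 * (∫ t in (0 : ℝ)..T, ‖f t‖ ^ 2) + T * (2 * (1 / δ * M)) ≤ 2 * M + T * (2 * (1 / δ * M)) := by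
          gcongr
      _ = (2 + 2 * T / δ) * M := by ring
  · exact (continuous_const.mul ((hf.norm).pow 2)).intervalIntegrable _ _
  · exact intervalIntegrable_const

/-- the multiplier -/
noncomputable def mm (δ x : ℝ) : ℂ := 1 - (1 / δ : ℝ) • J 0 δ x

lemma av_ex {δ : ℝ} (ω₀ ω t : ℝ) : av δ ω₀ (ex ω) t = ((1 / δ : ℝ) • J 0 δ (ω - ω₀)) * ex ω t := by
  unfold av J
  have h1 : ∀ s : ℝ, ex (-ω₀) s * ex ω (t + s) = ex (ω - ω₀) s * ex ω t := by
    intro s
    rw [ex_add, ← mul_assoc, mul_right_comm]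
    congr 1
    unfold ex
    rw [← Complex.exp_add]
    congr 1
    push_cast
    ring
  rw [intervalIntegral.integral_congr (fun s _ => h1 s), intervalIntegral.integral_mul_const]
  rw [smul_mul_assoc]

lemma av_sum {δ : ℝ} (ω₀ : ℝ) (S : Finset ℝ) (b : ℝ → ℂ) (t : ℝ) :
    tr S b t - av δ ω₀ (tr S b) t = tr S (fun ω => b ω * mm δ (ω - ω₀)) t := by
  have h1 : av δ ω₀ (tr S b) t = ∑ ω ∈ S, b ω * av δ ω₀ (ex ω) t := by
    unfold av tr
    have h2 : ∀ s : ℝ, ex (-ω₀) s * ∑ ω ∈ S, b ω * ex ω (t + s) =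
        ∑ ω ∈ S, b ω * (ex (-ω₀) s * ex ω (t + s)) := by
      intro s
      rw [Finset.mul_sum]
      apply Finset.sum_congr rfl
      intro ω _
      ring
    rw [intervalIntegral.integral_congr (fun s _ => h2 s), intervalIntegral.integral_finsetSum]
    · rw [Finset.smul_sum]
      apply Finset.sum_congr rfl
      intro ω _
      rw [intervalIntegral.integral_const_mul, mul_smul_comm]
    · intro ω _
      exact (continuous_const.mul ((ex_cont _).mul ((ex_cont _).comp (by fun_prop)))).intervalIntegrable _ _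
  rw [h1]
  unfold tr mm
  rw [← Finset.sum_sub_distrib]
  apply Finset.sum_congr rfl
  intro ω _
  rw [av_ex]
  ring

/-- lower bound for the multiplier -/
noncomputable def mlow (η : ℝ) : ℝ := 1 - max (Real.cos (min η Real.pi / 2)) (1 / 3)

lemma mlow_pos {η : ℝ} (h : 0 < η) : 0 < mlow η := by
  unfold mlow
  have h1 : 0 < min η Real.pi := lt_min h Real.pi_pos
  have h2 : min η Real.pi ≤ Real.pi := min_le_right _ _
  have h3 : Real.cos (min η Real.pi / 2) < 1 := by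
    rw [← Real.cos_zero]
    apply Real.cos_lt_cos_of_nonneg_of_le_pi le_rfl (by linarith) (by linarith)
  have : max (Real.cos (min η Real.pi / 2)) (1 / 3) < 1 := max_lt h3 (by norm_num)
  linarith

lemma sinc_le {y η : ℝ} (hη : 0 < η) (hy : η ≤ y) : Real.sin y / y ≤ 1 - mlow η := by
  unfold mlow
  have hy0 : 0 < y := by linarith
  rw [sub_sub_cancel]
  rcases le_or_gt y Real.pi with h | h
  · apply le_max_of_le_left
    rw [div_le_iff₀ hy0]
    have h1 : Real.sin y = 2 * Real.sin (y / 2) * Real.cos (y / 2) := by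
      rw [← Real.sin_two_mul]
      congr 1
      ring
    have h2 : Real.sin (y / 2) ≤ y / 2 := Real.sin_le (by linarith)
    have h3 : 0 ≤ Real.cos (y / 2) := Real.cos_nonneg_of_mem_Icc ⟨by linarith, by linarith⟩
    have h4 : Real.cos (y / 2) ≤ Real.cos (min η Real.pi / 2) := by
      apply Real.cos_le_cos_of_nonneg_of_le_pi
      · have : 0 < min η Real.pi := lt_min hη Real.pi_pos
        linarith
      · linarith [Real.pi_pos]
      · have : min η Real.pi ≤ y := (min_le_left _ _).trans hy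
        linarith
    calc Real.sin y = 2 * Real.sin (y / 2) * Real.cos (y / 2) := h1
      _ ≤ 2 * (y / 2) * Real.cos (y / 2) := by gcongr
      _ = y * Real.cos (y / 2) := by ring
      _ ≤ y * Real.cos (min η Real.pi / 2) := by gcongr
      _ = _ := by ring
  · apply le_max_of_le_right
    rw [div_le_iff₀ hy0]
    have := Real.sin_le_one y
    have := Real.pi_gt_three
    linarith

lemma J_re {δ x : ℝ} (hx : x ≠ 0) : (J 0 δ x).re = Real.sin (x * δ) / x := by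
  unfold J
  have h1 : (∫ s in (0 : ℝ)..δ, ex x s).re = ∫ s in (0 : ℝ)..δ, (ex x s).re := by
    have := Complex.reCLM.intervalIntegral_comp_comm (μ := volume) (a := 0) (b := δ)
      (f := ex x) ((ex_cont x).intervalIntegrable _ _)
    simpa using this.symm
  rw [h1]
  have h2 : ∀ s : ℝ, (ex x s).re = Real.cos (x * s) := by
    intro s
    unfold ex
    rw [Complex.exp_ofReal_mul_I_re]
  rw [intervalIntegral.integral_congr (fun s _ => h2 s)]
  rw [intervalIntegral.integral_comp_mul_left (fun s => Real.cos s) hx]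
  simp
  field_simp

lemma mm_lower {δ γ x : ℝ} (hδ : 0 < δ) (hγ : 0 < γ) (hx : γ ≤ |x|) : mlow (γ * δ) ≤ ‖mm δ x‖ := by
  have hx0 : x ≠ 0 := by
    intro h
    rw [h, abs_zero] at hx
    linarith
  have h1 : (mm δ x).re = 1 - Real.sin (x * δ) / (x * δ) := by
    unfold mm
    rw [Complex.sub_re, Complex.one_re, Complex.smul_re, J_re hx0, smul_eq_mul]
    field_simp
  have h2 : Real.sin (x * δ) / (x * δ) = Real.sin (|x| * δ) / (|x| * δ) := by
    rcases le_or_gt 0 x with h | h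
    · rw [abs_of_nonneg h]
    · rw [abs_of_neg h, neg_mul, Real.sin_neg, neg_div_neg_eq]
  have h3 : Real.sin (|x| * δ) / (|x| * δ) ≤ 1 - mlow (γ * δ) :=
    sinc_le (by positivity) (by gcongr)
  calc mlow (γ * δ) ≤ (mm δ x).re := by rw [h1, h2]; linarith
    _ ≤ ‖mm δ x‖ := Complex.re_le_norm _

/-- the inverse inequality for the frequency set `Ω` on `[0, T]` -/
def Inv (Ω : Set ℝ) (T : ℝ) : Prop :=
  ∃ C : ℝ, 0 ≤ C ∧ ∀ S : Finset ℝ, (S : Set ℝ) ⊆ Ω → ∀ b : ℝ → ℂ,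
    ∑ ω ∈ S, ‖b ω‖ ^ 2 ≤ C * ∫ t in (0 : ℝ)..T, ‖tr S b t‖ ^ 2

lemma Sep.mono {γ : ℝ} {S S' : Set ℝ} (h : Sep γ S) (hs : S' ⊆ S) : Sep γ S' :=
  fun x hx y hy => h x (hs hx) y (hs hy)

lemma two_sq (x y : ℂ) : ‖x - y‖ ^ 2 ≤ 2 * ‖x‖ ^ 2 + 2 * ‖y‖ ^ 2 := by
  have h4 := norm_sub_le x y
  have h5 := norm_nonneg (x - y)
  nlinarith [sq_nonneg (‖x‖ - ‖y‖), norm_nonneg x, norm_nonneg y]

lemma add_point {Ω : Set ℝ} {γ T₁ T₂ ω₀ : ℝ} (hγ : 0 < γ) (hT₁ : 0 < T₁) (h12 : T₁ < T₂)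
    (hsep : Sep γ (insert ω₀ Ω)) (h : Inv Ω T₁) : Inv (insert ω₀ Ω) T₂ := by
  by_cases hmem : ω₀ ∈ Ω
  · rw [insert_eq_of_mem hmem]
    obtain ⟨C, hC, h⟩ := h
    refine ⟨C, hC, fun S hS b => (h S hS b).trans ?_⟩
    apply mul_le_mul_of_nonneg_left _ hC
    apply intervalIntegral.integral_mono_interval le_rfl hT₁.le h12.le
    · exact Filter.Eventually.of_forall fun x => by positivity
    · exact (((tr_cont S b).norm).pow 2).intervalIntegrable _ _
  obtain ⟨C, hC, h⟩ := h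
  set δ := T₂ - T₁ with hδdef
  have hδ : 0 < δ := by linarith
  have hT₂ : 0 < T₂ := by linarith
  set μ := mlow (γ * δ) with hμ
  have hμ0 : 0 < μ := mlow_pos (by positivity)
  set C₂ := C * (2 + 2 * T₁ / δ) / μ ^ 2 with hC₂
  have hC₂0 : 0 ≤ C₂ := by positivity
  set D := 2 * T₂ + 16 / γ ^ 2 * cS / T₂ with hD
  have hcS := cS_nonneg
  have hD0 : 0 ≤ D := by positivity
  refine ⟨C₂ + (2 + 2 * D * C₂) / T₂, by positivity, fun S hS b => ?_⟩
  set S' := S.erase ω₀ with hS'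
  have hS'Ω : (S' : Set ℝ) ⊆ Ω := by
    intro x hx
    rw [hS', Finset.coe_erase] at hx
    rcases hS hx.1 with h1 | h1
    · exact absurd h1 hx.2
    · exact h1
  set β : ℂ := if ω₀ ∈ S then b ω₀ else 0 with hβ
  have hdec : ∀ t, tr S b t = β * ex ω₀ t + tr S' b t := by
    intro t
    unfold tr
    by_cases hm : ω₀ ∈ S
    · rw [hβ, if_pos hm, ← Finset.add_sum_erase S _ hm]
    · rw [hβ, if_neg hm, zero_mul, zero_add, hS', Finset.erase_eq_of_notMem hm]
  have hsum : ∑ ω ∈ S, ‖b ω‖ ^ 2 = ‖β‖ ^ 2 + ∑ ω ∈ S', ‖b ω‖ ^ 2 := by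
    by_cases hm : ω₀ ∈ S
    · rw [hβ, if_pos hm, ← Finset.add_sum_erase S _ hm]
    · rw [hβ, if_neg hm, hS', Finset.erase_eq_of_notMem hm]
      simp
  set M := ∫ t in (0 : ℝ)..T₂, ‖tr S b t‖ ^ 2 with hM
  have hM0 : 0 ≤ M := intervalIntegral.integral_nonneg hT₂.le fun _ _ => by positivity
  -- the filtered function
  have hg : ∀ t, tr S b t - av δ ω₀ (tr S b) t = tr S' (fun ω => b ω * mm δ (ω - ω₀)) t := by
    intro t
    rw [av_sum]
    unfold tr
    by_cases hm : ω₀ ∈ S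
    · rw [← Finset.add_sum_erase S _ hm]
      have : mm δ (ω₀ - ω₀) = 0 := by
        unfold mm
        rw [sub_self, J_zero, sub_zero]
        have : ((1 / δ : ℝ) • ((δ : ℝ) : ℂ)) = 1 := by
          rw [Complex.real_smul, ← Complex.ofReal_mul, one_div_mul_cancel hδ.ne']
          simp
        rw [this, sub_self]
      simp only
      rw [this]
      simp [hS']
    · rw [hS', Finset.erase_eq_of_notMem hm]
  have h1 := h S' hS'Ω (fun ω => b ω * mm δ (ω - ω₀))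
  have h2 : ∫ t in (0 : ℝ)..T₁, ‖tr S' (fun ω => b ω * mm δ (ω - ω₀)) t‖ ^ 2 ≤
      (2 + 2 * T₁ / δ) * M := by
    have h3 := energy hδ hT₁ ω₀ (tr S b) (tr_cont S b)
    have e : T₁ + δ = T₂ := by rw [hδdef]; ring
    rw [e] at h3
    rw [intervalIntegral.integral_congr (g := fun t => ‖tr S b t - av δ ω₀ (tr S b) t‖ ^ 2)
      (fun t _ => by simp only; rw [hg t])]
    exact h3
  have h3 : ∑ ω ∈ S', ‖b ω‖ ^ 2 ≤ C₂ * M := by
    have h4 : μ ^ 2 * ∑ ω ∈ S', ‖b ω‖ ^ 2 ≤ ∑ ω ∈ S', ‖b ω * mm δ (ω - ω₀)‖ ^ 2 := by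
      rw [Finset.mul_sum]
      apply Finset.sum_le_sum
      intro ω hω
      rw [norm_mul, mul_pow, mul_comm]
      have hne : ω ≠ ω₀ := Finset.ne_of_mem_erase hω
      have hsp : γ ≤ |ω - ω₀| := hsep ω (mem_insert_of_mem _ (hS'Ω hω)) ω₀ (mem_insert _ _) hne
      have := mm_lower hδ hγ hsp
      gcongr
    have h5 : μ ^ 2 * ∑ ω ∈ S', ‖b ω‖ ^ 2 ≤ C * ((2 + 2 * T₁ / δ) * M) :=
      (h4.trans h1).trans (by gcongr)
    rw [hC₂, div_mul_eq_mul_div, le_div_iff₀ (by positivity)]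
    linarith
  have h4 : T₂ * ‖β‖ ^ 2 ≤ (2 + 2 * D * C₂) * M := by
    have h5 : ∫ t in (0 : ℝ)..T₂, ‖β * ex ω₀ t‖ ^ 2 = T₂ * ‖β‖ ^ 2 := by
      have e : ∀ t, ‖β * ex ω₀ t‖ ^ 2 = ‖β‖ ^ 2 := by
        intro t
        rw [norm_mul, ex_norm, mul_one]
      rw [intervalIntegral.integral_congr (fun t _ => e t), intervalIntegral.integral_const,
        sub_zero, smul_eq_mul]
    have h6 : ∫ t in (0 : ℝ)..T₂, ‖β * ex ω₀ t‖ ^ 2 ≤
        ∫ t in (0 : ℝ)..T₂, (2 * ‖tr S b t‖ ^ 2 + 2 * ‖tr S' b t‖ ^ 2) := by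
      apply intervalIntegral.integral_mono_on hT₂.le
      · exact ((continuous_const.mul (ex_cont ω₀)).norm.pow 2).intervalIntegrable _ _
      · exact ((continuous_const.mul ((tr_cont S b).norm.pow 2)).add
          (continuous_const.mul ((tr_cont S' b).norm.pow 2))).intervalIntegrable _ _
      · intro t _
        have : β * ex ω₀ t = tr S b t - tr S' b t := by rw [hdec t]; ring
        rw [this]
        exact two_sq _ _
    rw [intervalIntegral.integral_add, intervalIntegral.integral_const_mul,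
      intervalIntegral.integral_const_mul] at h6
    · have h7 := direct hγ hT₂ S' (hsep.mono (hS'Ω.trans (subset_insert _ _))) b
      rw [h5] at h6
      have h8 : ∫ t in (0 : ℝ)..T₂, ‖tr S' b t‖ ^ 2 ≤ D * (C₂ * M) :=
        h7.trans (by rw [← hD]; gcongr)
      calc T₂ * ‖β‖ ^ 2 ≤ 2 * M + 2 * (D * (C₂ * M)) := by linarith
        _ = _ := by ring
    · exact (continuous_const.mul ((tr_cont S b).norm.pow 2)).intervalIntegrable _ _
    · exact (continuous_const.mul ((tr_cont S' b).norm.pow 2)).intervalIntegrable _ _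
  rw [hsum]
  have h5 : ‖β‖ ^ 2 ≤ (2 + 2 * D * C₂) / T₂ * M := by
    rw [div_mul_eq_mul_div, le_div_iff₀ hT₂]
    linarith
  calc ‖β‖ ^ 2 + ∑ ω ∈ S', ‖b ω‖ ^ 2 ≤ (2 + 2 * D * C₂) / T₂ * M + C₂ * M := add_le_add h5 h3
    _ = _ := by ring

lemma Inv.mono {Ω Ω' : Set ℝ} {T : ℝ} (h : Inv Ω T) (hs : Ω' ⊆ Ω) : Inv Ω' T := by
  obtain ⟨C, hC, h⟩ := h
  exact ⟨C, hC, fun S hS b => h S (hS.trans hs) b⟩

lemma add_finite {γ : ℝ} (hγ : 0 < γ) (F : Set ℝ) (hF : F.Finite) :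
    ∀ (Ω : Set ℝ) (T₁ T₂ : ℝ), 0 < T₁ → T₁ < T₂ → Sep γ (F ∪ Ω) → Inv Ω T₁ → Inv (F ∪ Ω) T₂ := by
  induction F, hF using Set.Finite.induction_on with
  | empty =>
    intro Ω T₁ T₂ hT₁ h12 hsep h
    rw [empty_union]
    obtain ⟨C, hC, h⟩ := h
    refine ⟨C, hC, fun S hS b => (h S hS b).trans ?_⟩
    apply mul_le_mul_of_nonneg_left _ hC
    apply intervalIntegral.integral_mono_interval le_rfl hT₁.le h12.le
    · exact Filter.Eventually.of_forall fun x => by positivity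
    · exact (((tr_cont S b).norm).pow 2).intervalIntegrable _ _
  | @insert a s _ _ ih =>
    intro Ω T₁ T₂ hT₁ h12 hsep h
    rw [insert_union] at hsep ⊢
    have h1 := ih Ω T₁ ((T₁ + T₂) / 2) hT₁ (by linarith) (hsep.mono (subset_insert _ _)) h
    exact add_point hγ (by linarith) (by linarith) hsep h1

/-- **Ingham-Haraux**: gaps tending to infinity -/
theorem inv_of_gaps {Ω : Set ℝ} {γ₀ : ℝ} (hγ₀ : 0 < γ₀) (hsep : Sep γ₀ Ω)
    (hgap : ∀ γ : ℝ, 0 < γ → ∃ F : Set ℝ, F.Finite ∧ F ⊆ Ω ∧ Sep γ (Ω \ F)) {T : ℝ} (hT : 0 < T) :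
    Inv Ω T := by
  have hcS := cS_nonneg
  obtain ⟨F, hF, hFΩ, hs⟩ := hgap (Real.sqrt (128 * cS + 1) / (T / 2)) (by positivity)
  have h1 : Inv (Ω \ F) (T / 2) := by
    refine ⟨4 / (T / 2), by positivity, fun S hS b => ?_⟩
    apply inv_large (γ := Real.sqrt (128 * cS + 1) / (T / 2)) (by positivity) (by positivity) _ S
      (hs.mono hS) b
    rw [div_pow, Real.sq_sqrt (by positivity), div_mul_cancel₀ _ (by positivity)]
    linarith
  have h2 : F ∪ (Ω \ F) = Ω := by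
    rw [union_sdiff_self]
    exact union_eq_right.mpr hFΩ
  have := add_finite hγ₀ F hF (Ω \ F) (T / 2) T (by positivity) (by linarith) (by rw [h2]; exact hsep) h1
  rwa [h2] at this

end Pool.Agent.Q84.Ing
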