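import Mathlib
import Pool.Agent.Q84.Ing2

/-!
# Ingham-Haraux with a linear term and with coinciding frequencies
-/

set_option autoImplicit false

namespace Pool.Agent.Q84.Ing

open MeasureTheory Set Complex

lemma three_sq (x y z : ℂ) : ‖x - y - z‖ ^ 2 ≤ 3 * ‖x‖ ^ 2 + 3 * ‖y‖ ^ 2 + 3 * ‖z‖ ^ 2 := by
  have h4 : ‖x - y - z‖ ≤ ‖x‖ + ‖y‖ + ‖z‖ := by
    refine (norm_sub_le _ _).trans ?_
    linarith [norm_sub_le x y]
  have h5 := norm_nonneg (x - y - z)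
  nlinarith [sq_nonneg (‖x‖ - ‖y‖), sq_nonneg (‖x‖ - ‖z‖), sq_nonneg (‖y‖ - ‖z‖), norm_nonneg x,
    norm_nonneg y, norm_nonneg z]

lemma av_lin {δ : ℝ} (hδ : 0 < δ) (β : ℂ) (t : ℝ) :
    av δ 0 (fun s => β * (s : ℂ)) t = β * t + β * (δ / 2) := by
  unfold av
  have h1 : ∀ s : ℝ, ex (-0) s * (β * ((t + s : ℝ) : ℂ)) = β * ((t + s : ℝ) : ℂ) := by
    intro s
    unfold ex
    simp
  rw [intervalIntegral.integral_congr (fun s _ => h1 s), intervalIntegral.integral_const_mul,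
    intervalIntegral.integral_ofReal]
  have h2 : ∫ s in (0 : ℝ)..δ, (t + s) = t * δ + δ ^ 2 / 2 := by
    rw [intervalIntegral.integral_add (f := fun _ => t) (g := fun s => s) intervalIntegrable_const
      (continuous_id.intervalIntegrable _ _), intervalIntegral.integral_const, integral_id]
    simp only [smul_eq_mul]
    ring
  rw [h2, Complex.real_smul]
  have : (δ : ℂ) ≠ 0 := by exact_mod_cast hδ.ne'
  push_cast
  field_simp

lemma av_add {δ : ℝ} (ω₀ : ℝ) (f g : ℝ → ℂ) (hf : Continuous f) (hg : Continuous g) (t : ℝ) :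
    av δ ω₀ (fun s => f s + g s) t = av δ ω₀ f t + av δ ω₀ g t := by
  unfold av
  rw [← smul_add, ← intervalIntegral.integral_add]
  · congr 1
    apply intervalIntegral.integral_congr
    intro s _
    simp only
    ring
  · exact ((ex_cont _).mul (hf.comp (by fun_prop))).intervalIntegrable _ _
  · exact ((ex_cont _).mul (hg.comp (by fun_prop))).intervalIntegrable _ _

/-- with a linear term -/
theorem inv_linear {Ω : Set ℝ} {γ T₁ T₂ : ℝ} (hγ : 0 < γ) (hT₁ : 0 < T₁) (h12 : T₁ < T₂)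
    (h0 : (0 : ℝ) ∈ Ω) (hsep : Sep γ Ω) (h : Inv Ω T₁) :
    ∃ C : ℝ, 0 ≤ C ∧ ∀ S : Finset ℝ, (S : Set ℝ) ⊆ Ω → ∀ (b : ℝ → ℂ) (β : ℂ),
      ‖β‖ ^ 2 + ∑ ω ∈ S, ‖b ω‖ ^ 2 ≤ C * ∫ t in (0 : ℝ)..T₂, ‖β * (t : ℂ) + tr S b t‖ ^ 2 := by
  obtain ⟨C, hC, h⟩ := h
  set δ := T₂ - T₁ with hδdef
  have hδ : 0 < δ := by linarith
  have hT₂ : 0 < T₂ := by linarith
  set μ := mlow (γ * δ) with hμ
  have hμ0 : 0 < μ := mlow_pos (by positivity)
  set C₁ := C * (2 + 2 * T₁ / δ) with hC₁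
  have hC₁0 : 0 ≤ C₁ := by positivity
  set D := 2 * T₂ + 16 / γ ^ 2 * cS / T₂ with hD
  have hcS := cS_nonneg
  have hD0 : 0 ≤ D := by positivity
  set Cβ := C₁ * (2 / δ) ^ 2 with hCβ
  have hCβ0 : 0 ≤ Cβ := by positivity
  set Cs := C₁ / μ ^ 2 with hCs
  have hCs0 : 0 ≤ Cs := by positivity
  refine ⟨Cβ + Cs + (3 + 3 * T₂ ^ 3 * Cβ + 3 * D * Cs) / T₂, by positivity, fun S hS b β => ?_⟩
  set S' := S.erase 0 with hS'
  have hS'S : (S' : Set ℝ) ⊆ Ω := by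
    intro x hx
    rw [hS', Finset.coe_erase] at hx
    exact hS hx.1
  set α : ℂ := if (0 : ℝ) ∈ S then b 0 else 0 with hα
  have hdec : ∀ t, tr S b t = α + tr S' b t := by
    intro t
    unfold tr
    by_cases hm : (0 : ℝ) ∈ S
    · rw [hα, if_pos hm, ← Finset.add_sum_erase S _ hm]
      congr 1
      unfold ex
      simp
    · rw [hα, if_neg hm, zero_add, hS', Finset.erase_eq_of_notMem hm]
  have hsum : ∑ ω ∈ S, ‖b ω‖ ^ 2 = ‖α‖ ^ 2 + ∑ ω ∈ S', ‖b ω‖ ^ 2 := by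
    by_cases hm : (0 : ℝ) ∈ S
    · rw [hα, if_pos hm, ← Finset.add_sum_erase S _ hm]
    · rw [hα, if_neg hm, hS', Finset.erase_eq_of_notMem hm]
      simp
  set f : ℝ → ℂ := fun t => β * (t : ℂ) + tr S b t with hf
  have hfc : Continuous f := (continuous_const.mul Complex.continuous_ofReal).add (tr_cont S b)
  set M := ∫ t in (0 : ℝ)..T₂, ‖f t‖ ^ 2 with hM
  have hM0 : 0 ≤ M := intervalIntegral.integral_nonneg hT₂.le fun _ _ => by positivity
  set b' : ℝ → ℂ := fun ω => if ω = 0 then -(β * (δ / 2)) else b ω * mm δ ω with hb'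
  set S₁ := insert 0 S' with hS₁
  have hS₁Ω : (S₁ : Set ℝ) ⊆ Ω := by
    intro x hx
    rw [hS₁, Finset.coe_insert] at hx
    rcases hx with rfl | hx
    · exact h0
    · exact hS'S hx
  have h0S' : (0 : ℝ) ∉ S' := by simp [hS']
  have hg : ∀ t, f t - av δ 0 f t = tr S₁ b' t := by
    intro t
    have e1 : av δ 0 f t = av δ 0 (fun s => β * (s : ℂ)) t + av δ 0 (tr S b) t :=
      av_add 0 _ _ (continuous_const.mul Complex.continuous_ofReal) (tr_cont S b) t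
    have e2 := av_sum (δ := δ) 0 S b t
    have e3 : tr S (fun ω => b ω * mm δ (ω - 0)) t = tr S' b' t := by
      have e4 : tr S (fun ω => b ω * mm δ (ω - 0)) t = tr S' (fun ω => b ω * mm δ (ω - 0)) t := by
        unfold tr
        by_cases hm : (0 : ℝ) ∈ S
        · rw [← Finset.add_sum_erase S _ hm]
          have : mm δ ((0 : ℝ) - 0) = 0 := by
            unfold mm
            rw [sub_self, J_zero, sub_zero]
            have : ((1 / δ : ℝ) • ((δ : ℝ) : ℂ)) = 1 := by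
              rw [Complex.real_smul, ← Complex.ofReal_mul, one_div_mul_cancel hδ.ne']
              simp
            rw [this, sub_self]
          simp only
          rw [this]
          simp [hS']
        · rw [hS', Finset.erase_eq_of_notMem hm]
      rw [e4]
      unfold tr
      apply Finset.sum_congr rfl
      intro ω hω
      have hne : ω ≠ 0 := Finset.ne_of_mem_erase hω
      simp only [hb']
      rw [if_neg hne, sub_zero]
    have e5 : tr S₁ b' t = -(β * (δ / 2)) + tr S' b' t := by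
      unfold tr
      rw [hS₁, Finset.sum_insert h0S']
      congr 1
      simp only [hb', if_pos]
      unfold ex
      simp
    rw [e5, ← e3, ← e2, e1, av_lin hδ]
    simp only [hf]
    ring
  have h1 := h S₁ hS₁Ω b'
  have h2 : ∫ t in (0 : ℝ)..T₁, ‖tr S₁ b' t‖ ^ 2 ≤ (2 + 2 * T₁ / δ) * M := by
    have h3 := energy hδ hT₁ 0 f hfc
    have e : T₁ + δ = T₂ := by rw [hδdef]; ring
    rw [e] at h3
    rw [intervalIntegral.integral_congr (g := fun t => ‖f t - av δ 0 f t‖ ^ 2)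
      (fun t _ => by simp only; rw [hg t])]
    exact h3
  have h3 : ∑ ω ∈ S₁, ‖b' ω‖ ^ 2 ≤ C₁ * M := by
    refine h1.trans ?_
    rw [hC₁, mul_assoc]
    gcongr
  rw [hS₁, Finset.sum_insert h0S'] at h3
  have hβ2 : ‖β‖ ^ 2 ≤ Cβ * M := by
    have e : ‖b' 0‖ ^ 2 = ‖β‖ ^ 2 * (δ / 2) ^ 2 := by
      simp only [hb', if_pos]
      rw [norm_neg, norm_mul, mul_pow]
      congr 2
      have : (δ / 2 : ℂ) = ((δ / 2 : ℝ) : ℂ) := by push_cast; ring
      rw [this, Complex.norm_real, Real.norm_of_nonneg (by positivity)]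
    have h4 : ‖β‖ ^ 2 * (δ / 2) ^ 2 ≤ C₁ * M := by
      rw [← e]
      have : 0 ≤ ∑ ω ∈ S', ‖b' ω‖ ^ 2 := Finset.sum_nonneg fun ω _ => by positivity
      linarith
    have e2 : Cβ * M = (C₁ * M) * (2 / δ) ^ 2 := by rw [hCβ]; ring
    rw [e2]
    calc ‖β‖ ^ 2 = (‖β‖ ^ 2 * (δ / 2) ^ 2) * (2 / δ) ^ 2 := by field_simp
      _ ≤ _ := by gcongr
  have hs2 : ∑ ω ∈ S', ‖b ω‖ ^ 2 ≤ Cs * M := by
    have h4 : μ ^ 2 * ∑ ω ∈ S', ‖b ω‖ ^ 2 ≤ ∑ ω ∈ S', ‖b' ω‖ ^ 2 := by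
      rw [Finset.mul_sum]
      apply Finset.sum_le_sum
      intro ω hω
      have hne : ω ≠ 0 := Finset.ne_of_mem_erase hω
      simp only [hb']
      rw [if_neg hne, norm_mul, mul_pow, mul_comm]
      have hsp : γ ≤ |ω - 0| := hsep ω (hS'S hω) 0 h0 hne
      rw [sub_zero] at hsp
      have := mm_lower hδ hγ hsp
      gcongr
    have h5 : μ ^ 2 * ∑ ω ∈ S', ‖b ω‖ ^ 2 ≤ C₁ * M := by
      have : 0 ≤ ‖b' 0‖ ^ 2 := by positivity
      linarith
    rw [hCs, div_mul_eq_mul_div, le_div_iff₀ (by positivity)]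
    linarith
  have hα2 : T₂ * ‖α‖ ^ 2 ≤ (3 + 3 * T₂ ^ 3 * Cβ + 3 * D * Cs) * M := by
    have h5 : ∫ t in (0 : ℝ)..T₂, ‖α‖ ^ 2 = T₂ * ‖α‖ ^ 2 := by
      rw [intervalIntegral.integral_const, sub_zero, smul_eq_mul]
    have h6 : ∫ t in (0 : ℝ)..T₂, ‖α‖ ^ 2 ≤
        ∫ t in (0 : ℝ)..T₂, (3 * ‖f t‖ ^ 2 + 3 * (T₂ ^ 2 * ‖β‖ ^ 2) + 3 * ‖tr S' b t‖ ^ 2) := by
      apply intervalIntegral.integral_mono_on hT₂.le
      · exact intervalIntegrable_const
      · exact (((continuous_const.mul (hfc.norm.pow 2)).add continuous_const).add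
          (continuous_const.mul ((tr_cont S' b).norm.pow 2))).intervalIntegrable _ _
      · intro t ht
        have e : α = f t - β * (t : ℂ) - tr S' b t := by
          simp only [hf]
          rw [hdec t]
          ring
        have h7 := three_sq (f t) (β * (t : ℂ)) (tr S' b t)
        rw [← e] at h7
        have h8 : ‖β * (t : ℂ)‖ ^ 2 ≤ T₂ ^ 2 * ‖β‖ ^ 2 := by
          rw [norm_mul, Complex.norm_real, Real.norm_of_nonneg ht.1, mul_pow, mul_comm]
          have := ht.2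
          have := ht.1
          gcongr
        linarith
    rw [h5] at h6
    have h6' : ∫ t in (0 : ℝ)..T₂, (3 * ‖f t‖ ^ 2 + 3 * (T₂ ^ 2 * ‖β‖ ^ 2) + 3 * ‖tr S' b t‖ ^ 2) =
        3 * M + T₂ * (3 * (T₂ ^ 2 * ‖β‖ ^ 2)) + 3 * ∫ t in (0 : ℝ)..T₂, ‖tr S' b t‖ ^ 2 := by
      rw [intervalIntegral.integral_add, intervalIntegral.integral_add,
        intervalIntegral.integral_const_mul (3 : ℝ) (fun t => ‖f t‖ ^ 2),
        intervalIntegral.integral_const_mul (3 : ℝ) (fun t => ‖tr S' b t‖ ^ 2),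
        intervalIntegral.integral_const, sub_zero, smul_eq_mul]
      · exact (continuous_const.mul (hfc.norm.pow 2)).intervalIntegrable _ _
      · exact intervalIntegrable_const
      · exact ((continuous_const.mul (hfc.norm.pow 2)).add continuous_const).intervalIntegrable _ _
      · exact (continuous_const.mul ((tr_cont S' b).norm.pow 2)).intervalIntegrable _ _
    rw [h6'] at h6
    · have h7 := direct hγ hT₂ S' (hsep.mono hS'S) b
      have h8 : ∫ t in (0 : ℝ)..T₂, ‖tr S' b t‖ ^ 2 ≤ D * (Cs * M) :=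
        h7.trans (by rw [← hD]; gcongr)
      have h9 : T₂ * (3 * (T₂ ^ 2 * ‖β‖ ^ 2)) ≤ 3 * T₂ ^ 3 * (Cβ * M) := by
        calc T₂ * (3 * (T₂ ^ 2 * ‖β‖ ^ 2)) = 3 * T₂ ^ 3 * ‖β‖ ^ 2 := by ring
          _ ≤ _ := by gcongr
      calc T₂ * ‖α‖ ^ 2 ≤ 3 * M + 3 * T₂ ^ 3 * (Cβ * M) + 3 * (D * (Cs * M)) := by linarith
        _ = _ := by ring
  rw [hsum]
  have h5 : ‖α‖ ^ 2 ≤ (3 + 3 * T₂ ^ 3 * Cβ + 3 * D * Cs) / T₂ * M := by
    rw [div_mul_eq_mul_div, le_div_iff₀ hT₂]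
    linarith
  calc ‖β‖ ^ 2 + (‖α‖ ^ 2 + ∑ ω ∈ S', ‖b ω‖ ^ 2)
      ≤ Cβ * M + ((3 + 3 * T₂ ^ 3 * Cβ + 3 * D * Cs) / T₂ * M + Cs * M) :=
        add_le_add hβ2 (add_le_add h5 hs2)
    _ = _ := by ring

/-- coinciding frequencies -/
lemma tr_fiber {ι : Type*} [DecidableEq ι] (I : Finset ι) (w : ι → ℝ) (c : ι → ℂ) (t : ℝ) :
    ∑ i ∈ I, c i * ex (w i) t =
      tr (I.image w) (fun ω => ∑ i ∈ I.filter (fun i => w i = ω), c i) t := by
  unfold tr
  rw [← Finset.sum_fiberwise_of_maps_to (s := I) (t := I.image w) (g := w)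
    (fun i hi => Finset.mem_image_of_mem w hi)]
  apply Finset.sum_congr rfl
  intro ω _
  rw [Finset.sum_mul]
  apply Finset.sum_congr rfl
  intro i hi
  rw [(Finset.mem_filter.mp hi).2]

end Pool.Agent.Q84.Ing
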