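import Mathlib
import Pool.Agent.Q84.Ing3

/-!
# Frequencies of a periodic beam along an oblique segment of rational non-integer speed
-/

set_option autoImplicit false

namespace Pool.Agent.Q84.Beam

open MeasureTheory Set Complex Pool.Agent.Q84.Ing

/-- frequencies: `(k, true)` is the wave `e^{i(k²t + kx)}`, `(k, false)` is `e^{i(-k²t + kx)}` -/
noncomputable def wf (a : ℚ) (i : ℤ × Bool) : ℝ :=
  (if i.2 then (i.1 : ℝ) ^ 2 else -(i.1 : ℝ) ^ 2) - a * i.1

/-- the frequency set -/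
def Om (a : ℚ) : Set ℝ := Set.range (wf a)

lemma zero_mem (a : ℚ) : (0 : ℝ) ∈ Om a := ⟨(0, true), by simp [wf]⟩

lemma den_ne (a : ℚ) : (a.den : ℝ) ≠ 0 := by exact_mod_cast a.den_ne_zero

lemma den_pos (a : ℚ) : (0 : ℝ) < a.den := by exact_mod_cast a.den_pos

lemma a_eq (a : ℚ) : (a : ℝ) = a.num / a.den := by
  exact_mod_cast (Rat.num_div_den a).symm

lemma wf_int (a : ℚ) (i : ℤ × Bool) : ∃ z : ℤ, wf a i = z / a.den := by
  refine ⟨(if i.2 then i.1 ^ 2 else -i.1 ^ 2) * a.den - a.num * i.1, ?_⟩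
  unfold wf
  rw [a_eq]
  have := den_ne a
  push_cast
  field_simp

lemma sep (a : ℚ) : Ing.Sep (1 / (a.den : ℝ)) (Om a) := by
  rintro _ ⟨i, rfl⟩ _ ⟨j, rfl⟩ hne
  obtain ⟨z, hz⟩ := wf_int a i
  obtain ⟨z', hz'⟩ := wf_int a j
  rw [hz, hz'] at hne ⊢
  have h1 : z - z' ≠ 0 := by
    intro h
    apply hne
    rw [sub_eq_zero.mp h]
  rw [← sub_div, abs_div, abs_of_pos (den_pos a)]
  apply div_le_div_of_nonneg_right _ (den_pos a).le
  have : (1 : ℤ) ≤ |z - z'| := Int.one_le_abs h1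
  exact_mod_cast this

lemma dist_int {a : ℚ} (ha : a.den ≠ 1) (n : ℤ) : 1 / (a.den : ℝ) ≤ |(n : ℝ) - a| := by
  rw [a_eq]
  have h1 : n * a.den - a.num ≠ 0 := by
    intro h
    apply ha
    have h2 : (a : ℚ) = n := by
      rw [← Rat.num_div_den a]
      have : (a.den : ℚ) ≠ 0 := by exact_mod_cast a.den_ne_zero
      rw [div_eq_iff this]
      have h3 : (a.num : ℤ) = n * a.den := by omega
      exact_mod_cast h3
    rw [h2]
    simp
  have h2 : (n : ℝ) - a.num / a.den = ((n * a.den - a.num : ℤ) : ℝ) / a.den := by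
    have := den_ne a
    push_cast
    field_simp
  rw [h2, abs_div, abs_of_pos (den_pos a)]
  apply div_le_div_of_nonneg_right _ (den_pos a).le
  have : (1 : ℤ) ≤ |n * a.den - a.num| := Int.one_le_abs h1
  exact_mod_cast this

lemma dist_int' {a : ℚ} (ha : a.den ≠ 1) (n : ℤ) : 1 / (a.den : ℝ) ≤ |(n : ℝ) + a| := by
  have h := dist_int ha (-n)
  have e : |((-n : ℤ) : ℝ) - a| = |(n : ℝ) + a| := by
    rw [← abs_neg]
    congr 1
    push_cast
    ring
  rwa [e] at h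

/-- the main gap computation -/
lemma gap_same {a : ℝ} {d N γ : ℝ} (hd : ∀ n : ℤ, d ≤ |(n : ℝ) - a|) (hd0 : 0 < d) (hγ : 0 < γ)
    (hN1 : γ ≤ N * d) (hN2 : γ + |a| ≤ N) {k l : ℤ} (hk : N < |(k : ℝ)|)
    (hkl : k ≠ l) : γ ≤ |((k : ℝ) ^ 2 - a * k) - ((l : ℝ) ^ 2 - a * l)| := by
  have e : ((k : ℝ) ^ 2 - a * k) - ((l : ℝ) ^ 2 - a * l) = ((k : ℝ) - l) * (((k + l : ℤ) : ℝ) - a) := by
    push_cast
    ring
  rw [e, abs_mul]
  have h1 : (1 : ℝ) ≤ |(k : ℝ) - l| := by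
    have : (1 : ℤ) ≤ |k - l| := Int.one_le_abs (sub_ne_zero.mpr hkl)
    exact_mod_cast this
  rcases le_or_gt N |(k : ℝ) - l| with h | h
  · calc γ ≤ N * d := hN1
      _ ≤ |(k : ℝ) - l| * |((k + l : ℤ) : ℝ) - a| := by
        have := hd (k + l)
        gcongr
  · have h2 : N ≤ |((k + l : ℤ) : ℝ)| := by
      have e2 : ((k + l : ℤ) : ℝ) = 2 * k - ((k : ℝ) - l) := by push_cast; ring
      rw [e2]
      have h3 := abs_sub_abs_le_abs_sub (2 * (k : ℝ)) ((k : ℝ) - l)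
      rw [abs_mul, abs_two] at h3
      linarith
    have h3 : γ ≤ |((k + l : ℤ) : ℝ) - a| := by
      have h4 := abs_sub_abs_le_abs_sub ((k + l : ℤ) : ℝ) a
      linarith
    calc γ = 1 * γ := (one_mul _).symm
      _ ≤ |(k : ℝ) - l| * |((k + l : ℤ) : ℝ) - a| := by gcongr

lemma gaps {a : ℚ} (ha : a.den ≠ 1) (γ : ℝ) (hγ : 0 < γ) :
    ∃ F : Set ℝ, F.Finite ∧ F ⊆ Om a ∧ Ing.Sep γ (Om a \ F) := by
  set d : ℝ := 1 / a.den with hd
  have hd0 : 0 < d := by have := den_pos a; positivity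
  obtain ⟨N, hN⟩ := exists_nat_ge (max (γ / d) (γ + |(a : ℝ)|) + 1)
  have hN1 : γ ≤ N * d := by
    have h1 : γ / d ≤ N := (le_max_left _ _).trans (by linarith)
    rwa [div_le_iff₀ hd0] at h1
  have hN2 : γ + |(a : ℝ)| ≤ N := (le_max_right (γ / d) _).trans (by linarith)
  have hN3 : (1 : ℝ) ≤ N := by
    have : 0 < γ / d := by positivity
    have := le_max_left (γ / d) (γ + |(a : ℝ)|)
    linarith
  refine ⟨wf a '' {i | i.1 ∈ Icc (-(N : ℤ)) N}, ?_, ?_, ?_⟩
  · apply Set.Finite.image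
    have : {i : ℤ × Bool | i.1 ∈ Icc (-(N : ℤ)) N} = Icc (-(N : ℤ)) N ×ˢ univ := by
      ext i
      simp
    rw [this]
    exact (finite_Icc _ _).prod finite_univ
  · exact image_subset_range _ _
  · rintro _ ⟨⟨i, rfl⟩, hi⟩ _ ⟨⟨j, rfl⟩, hj⟩ hne
    have hbig : ∀ i : ℤ × Bool, wf a i ∉ wf a '' {i | i.1 ∈ Icc (-(N : ℤ)) N} → (N : ℝ) < |(i.1 : ℝ)| := by
      intro i hi
      by_contra hc
      push Not at hc
      apply hi
      refine ⟨i, ?_, rfl⟩
      rw [mem_ofPred_eq, mem_Icc]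
      rw [abs_le] at hc
      constructor
      · exact_mod_cast hc.1
      · exact_mod_cast hc.2
    have h1 := hbig i hi
    have h2 := hbig j hj
    obtain ⟨k, bk⟩ := i
    obtain ⟨l, bl⟩ := j
    simp only at h1 h2
    cases bk <;> cases bl
    · -- both false
      have hkl : k ≠ l := by rintro rfl; exact hne rfl
      have hd' : ∀ n : ℤ, d ≤ |(n : ℝ) - (-(a : ℝ))| := by
        intro n
        rw [sub_neg_eq_add]
        exact dist_int' ha n
      have h3 := gap_same hd' hd0 hγ hN1 (by rw [abs_neg]; exact hN2) h1 hkl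
      have e : |wf a (k, false) - wf a (l, false)| =
          |((k : ℝ) ^ 2 - (-(a : ℝ)) * k) - ((l : ℝ) ^ 2 - (-(a : ℝ)) * l)| := by
        rw [← abs_neg]
        congr 1
        simp [wf]
        ring
      rw [e]
      exact h3
    · -- false true
      have h3 : γ ≤ |(k : ℝ)| * (|(k : ℝ)| - |(a : ℝ)|) := by nlinarith
      have h4 : γ ≤ |(l : ℝ)| * (|(l : ℝ)| - |(a : ℝ)|) := by nlinarith
      have h5 : |(k : ℝ)| * (|(k : ℝ)| - |(a : ℝ)|) ≤ (k : ℝ) ^ 2 + a * k := by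
        have := neg_abs_le ((a : ℝ) * k)
        rw [abs_mul] at this
        nlinarith [sq_abs (k : ℝ)]
      have h6 : |(l : ℝ)| * (|(l : ℝ)| - |(a : ℝ)|) ≤ (l : ℝ) ^ 2 - a * l := by
        have := le_abs_self ((a : ℝ) * l)
        rw [abs_mul] at this
        nlinarith [sq_abs (l : ℝ)]
      rw [← abs_neg]
      refine le_trans ?_ (le_abs_self _)
      simp [wf]
      linarith
    · have h3 : γ ≤ |(k : ℝ)| * (|(k : ℝ)| - |(a : ℝ)|) := by nlinarith
      have h4 : γ ≤ |(l : ℝ)| * (|(l : ℝ)| - |(a : ℝ)|) := by nlinarith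
      have h5 : |(k : ℝ)| * (|(k : ℝ)| - |(a : ℝ)|) ≤ (k : ℝ) ^ 2 - a * k := by
        have := le_abs_self ((a : ℝ) * k)
        rw [abs_mul] at this
        nlinarith [sq_abs (k : ℝ)]
      have h6 : |(l : ℝ)| * (|(l : ℝ)| - |(a : ℝ)|) ≤ (l : ℝ) ^ 2 + a * l := by
        have := neg_abs_le ((a : ℝ) * l)
        rw [abs_mul] at this
        nlinarith [sq_abs (l : ℝ)]
      refine le_trans ?_ (le_abs_self _)
      simp [wf]
      linarith
    · have hkl : k ≠ l := by rintro rfl; exact hne rfl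
      have h3 := gap_same (dist_int ha) hd0 hγ hN1 hN2 h1 hkl
      simpa [wf] using h3

/-- the inverse inequality along a segment -/
theorem segment {a : ℚ} (ha : a.den ≠ 1) {T : ℝ} (hT : 0 < T) :
    ∃ C : ℝ, 0 ≤ C ∧ ∀ (I : Finset (ℤ × Bool)) (c : ℤ × Bool → ℂ) (β : ℂ),
      ‖β‖ ^ 2 + ∑ ω ∈ I.image (wf a), ‖∑ i ∈ I.filter (fun i => wf a i = ω), c i‖ ^ 2 ≤
        C * ∫ t in (0 : ℝ)..T, ‖β * (t : ℂ) + ∑ i ∈ I, c i * ex (wf a i) t‖ ^ 2 := by
  have hγ : (0 : ℝ) < 1 / a.den := by have := den_pos a; positivity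
  have h1 : Inv (Om a) (T / 2) := inv_of_gaps hγ (sep a) (gaps ha) (by positivity)
  obtain ⟨C, hC, h⟩ := inv_linear hγ (by positivity) (by linarith : T / 2 < T) (zero_mem a) (sep a) h1
  refine ⟨C, hC, fun I c β => ?_⟩
  have h2 := h (I.image (wf a)) (by
    intro x hx
    rw [Finset.coe_image] at hx
    exact image_subset_range _ _ hx) (fun ω => ∑ i ∈ I.filter (fun i => wf a i = ω), c i) β
  refine h2.trans (le_of_eq ?_)
  congr 1
  apply intervalIntegral.integral_congr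
  intro t _
  simp only
  rw [← tr_fiber]

/-! ### coincidences -/

lemma wf_inj_true {a : ℚ} (ha : a.den ≠ 1) {k l : ℤ} (h : wf a (k, true) = wf a (l, true)) : k = l := by
  by_contra hne
  simp only [wf, if_true] at h
  have h1 : ((k : ℝ) - l) * (((k + l : ℤ) : ℝ) - a) = 0 := by
    push_cast
    linarith
  rcases mul_eq_zero.mp h1 with h2 | h2
  · apply hne
    have : (k : ℝ) = l := by linarith
    exact_mod_cast this
  · have h3 := dist_int ha (k + l)
    rw [h2, abs_zero] at h3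
    have := den_pos a
    have : 0 < 1 / (a.den : ℝ) := by positivity
    linarith

lemma wf_inj_false {a : ℚ} (ha : a.den ≠ 1) {k l : ℤ} (h : wf a (k, false) = wf a (l, false)) : k = l := by
  by_contra hne
  simp only [wf] at h
  have h1 : ((k : ℝ) - l) * (((k + l : ℤ) : ℝ) + a) = 0 := by
    push_cast
    simp only [Bool.false_eq_true, if_false] at h
    linarith
  rcases mul_eq_zero.mp h1 with h2 | h2
  · apply hne
    have : (k : ℝ) = l := by linarith
    exact_mod_cast this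
  · have h3 := dist_int' ha (k + l)
    rw [h2, abs_zero] at h3
    have := den_pos a
    have : 0 < 1 / (a.den : ℝ) := by positivity
    linarith

/-- a coincidence is a lattice point of the circle -/
lemma wf_mixed {a : ℚ} {k l : ℤ} (h : wf a (k, true) = wf a (l, false)) :
    (k : ℝ) ^ 2 + (l : ℝ) ^ 2 = a * (k - l) := by
  simp only [wf, if_true, Bool.false_eq_true, if_false] at h
  linarith

lemma mixed_bound {a : ℚ} {k l : ℤ} (h : wf a (k, true) = wf a (l, false)) :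
    |(k : ℝ)| ≤ 2 * |(a : ℝ)| ∧ |(l : ℝ)| ≤ 2 * |(a : ℝ)| := by
  have h1 := wf_mixed h
  have h2 : (a : ℝ) * (k - l) ≤ |(a : ℝ)| * (|(k : ℝ)| + |(l : ℝ)|) := by
    calc (a : ℝ) * (k - l) ≤ |(a : ℝ) * (k - l)| := le_abs_self _
      _ = |(a : ℝ)| * |(k : ℝ) - l| := abs_mul _ _
      _ ≤ |(a : ℝ)| * (|(k : ℝ)| + |(l : ℝ)|) := by
        gcongr
        exact abs_sub _ _
  rw [← sq_abs (k : ℝ), ← sq_abs (l : ℝ)] at h1
  have ha0 := abs_nonneg (a : ℝ)
  have hk0 := abs_nonneg (k : ℝ)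
  have hl0 := abs_nonneg (l : ℝ)
  constructor
  · by_contra hc
    push Not at hc
    nlinarith [sq_nonneg (|(l : ℝ)| - |(a : ℝ)| / 2), sq_nonneg (|(k : ℝ)| - 2 * |(a : ℝ)|)]
  · by_contra hc
    push Not at hc
    nlinarith [sq_nonneg (|(k : ℝ)| - |(a : ℝ)| / 2), sq_nonneg (|(l : ℝ)| - 2 * |(a : ℝ)|)]

/-- if all fibre sums vanish then the sets of nonzero coefficients have equal frequencies -/
lemma balance {a : ℚ} (ha : a.den ≠ 1) (J : Finset (ℤ × Bool)) (v : ℤ × Bool → ℂ)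
    (h : ∀ i ∈ J, ∑ j ∈ J.filter (fun j => wf a j = wf a i), v j = 0) :
    ∑ k ∈ (J.filter fun i => i.2 = true ∧ v i ≠ 0), wf a k =
      ∑ k ∈ (J.filter fun i => i.2 = false ∧ v i ≠ 0), wf a k := by
  set A := J.filter fun i => i.2 = true ∧ v i ≠ 0 with hA
  set B := J.filter fun i => i.2 = false ∧ v i ≠ 0 with hB
  have hinjA : Set.InjOn (wf a) (A : Set (ℤ × Bool)) := by
    rintro ⟨k, bk⟩ hk ⟨l, bl⟩ hl hkl
    rw [Finset.mem_coe, hA, Finset.mem_filter] at hk hl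
    simp only at hk hl
    obtain ⟨_, rfl, _⟩ := hk
    obtain ⟨_, rfl, _⟩ := hl
    rw [wf_inj_true ha hkl]
  have hinjB : Set.InjOn (wf a) (B : Set (ℤ × Bool)) := by
    rintro ⟨k, bk⟩ hk ⟨l, bl⟩ hl hkl
    rw [Finset.mem_coe, hB, Finset.mem_filter] at hk hl
    simp only at hk hl
    obtain ⟨_, rfl, _⟩ := hk
    obtain ⟨_, rfl, _⟩ := hl
    rw [wf_inj_false ha hkl]
  have key : ∀ (b : Bool) (k : ℤ), (k, b) ∈ J → v (k, b) ≠ 0 →
      ∃ l : ℤ, (l, !b) ∈ J ∧ v (l, !b) ≠ 0 ∧ wf a (l, !b) = wf a (k, b) := by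
    intro b k hk hv
    by_contra hc
    push Not at hc
    have h1 := h (k, b) hk
    rw [Finset.sum_eq_single (k, b)] at h1
    · exact hv h1
    · rintro ⟨l, b'⟩ hl hne
      rw [Finset.mem_filter] at hl
      by_cases hb : b' = b
      · exfalso
        apply hne
        subst hb
        cases b'
        · rw [wf_inj_false ha hl.2]
        · rw [wf_inj_true ha hl.2]
      · have hb' : b' = !b := by
          cases b <;> cases b' <;> simp_all
        subst hb'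
        by_contra hv'
        exact hc l hl.1 hv' hl.2
    · intro hn
      exfalso
      apply hn
      rw [Finset.mem_filter]
      exact ⟨hk, rfl⟩
  have himg : A.image (wf a) = B.image (wf a) := by
    ext x
    simp only [Finset.mem_image]
    constructor
    · rintro ⟨⟨k, bk⟩, hk, rfl⟩
      rw [hA, Finset.mem_filter] at hk
      simp only at hk
      obtain ⟨hkJ, rfl, hkv⟩ := hk
      obtain ⟨l, h1, h2, h3⟩ := key true k hkJ hkv
      refine ⟨(l, false), ?_, h3⟩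
      rw [hB, Finset.mem_filter]
      exact ⟨h1, rfl, h2⟩
    · rintro ⟨⟨k, bk⟩, hk, rfl⟩
      rw [hB, Finset.mem_filter] at hk
      simp only at hk
      obtain ⟨hkJ, rfl, hkv⟩ := hk
      obtain ⟨l, h1, h2, h3⟩ := key false k hkJ hkv
      refine ⟨(l, true), ?_, h3⟩
      rw [hA, Finset.mem_filter]
      exact ⟨h1, rfl, h2⟩
  have e1 : ∑ k ∈ A, wf a k = ∑ x ∈ A.image (wf a), x := by
    rw [Finset.sum_image (fun x hx y hy h => hinjA hx hy h)]
  have e2 : ∑ k ∈ B, wf a k = ∑ x ∈ B.image (wf a), x := by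
    rw [Finset.sum_image (fun x hx y hy h => hinjB hx hy h)]
  rw [e1, e2, himg]

/-- **no nonzero coefficients can be invisible on two segments** -/
theorem no_invisible {a₁ a₂ : ℚ} (h₁ : a₁.den ≠ 1) (h₂ : a₂.den ≠ 1) (hne : a₁ ≠ a₂)
    (J : Finset (ℤ × Bool)) (hJ : ∀ i ∈ J, i.1 ≠ 0) (v φ₁ φ₂ : ℤ × Bool → ℂ)
    (hφ₁ : ∀ i, φ₁ i ≠ 0) (hφ₂ : ∀ i, φ₂ i ≠ 0)
    (e₁ : ∀ i ∈ J, ∑ j ∈ J.filter (fun j => wf a₁ j = wf a₁ i), v j * φ₁ j = 0)
    (e₂ : ∀ i ∈ J, ∑ j ∈ J.filter (fun j => wf a₂ j = wf a₂ i), v j * φ₂ j = 0) :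
    ∀ i ∈ J, v i = 0 := by
  have b₁ := balance h₁ J _ e₁
  have b₂ := balance h₂ J _ e₂
  simp only [ne_eq, mul_eq_zero, hφ₁, hφ₂, or_false] at b₁ b₂
  set A := J.filter fun i => i.2 = true ∧ ¬ v i = 0 with hA
  set B := J.filter fun i => i.2 = false ∧ ¬ v i = 0 with hB
  have eA : ∀ a : ℚ, ∑ k ∈ A, wf a k = (∑ k ∈ A, (k.1 : ℝ) ^ 2) - a * ∑ k ∈ A, (k.1 : ℝ) := by
    intro a
    rw [Finset.mul_sum, ← Finset.sum_sub_distrib]
    apply Finset.sum_congr rfl
    intro k hk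
    rw [hA, Finset.mem_filter] at hk
    simp [wf, hk.2.1]
  have eB : ∀ a : ℚ, ∑ k ∈ B, wf a k = -(∑ k ∈ B, (k.1 : ℝ) ^ 2) - a * ∑ k ∈ B, (k.1 : ℝ) := by
    intro a
    rw [Finset.mul_sum, ← Finset.sum_neg_distrib, ← Finset.sum_sub_distrib]
    apply Finset.sum_congr rfl
    intro k hk
    rw [hB, Finset.mem_filter] at hk
    simp [wf, hk.2.1]
  rw [eA, eB] at b₁ b₂
  set P := ∑ k ∈ A, (k.1 : ℝ) ^ 2 with hP
  set Q := ∑ k ∈ B, (k.1 : ℝ) ^ 2 with hQ
  set X := ∑ k ∈ A, (k.1 : ℝ) with hX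
  set Y := ∑ k ∈ B, (k.1 : ℝ) with hY
  have hne' : (a₁ : ℝ) - a₂ ≠ 0 := by
    intro h
    apply hne
    have : (a₁ : ℝ) = a₂ := by linarith
    exact_mod_cast this
  have hXY : X - Y = 0 := by
    have : ((a₁ : ℝ) - a₂) * (X - Y) = 0 := by linarith
    rcases mul_eq_zero.mp this with h | h
    · exact absurd h hne'
    · exact h
  have hPQ : P + Q = 0 := by
    have : P + Q = a₁ * (X - Y) := by linarith
    rw [this, hXY, mul_zero]
  have hP0 : 0 ≤ P := Finset.sum_nonneg fun k _ => by positivity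
  have hQ0 : 0 ≤ Q := Finset.sum_nonneg fun k _ => by positivity
  have hP' : P = 0 := by linarith
  have hQ' : Q = 0 := by linarith
  rw [hP, Finset.sum_eq_zero_iff_of_nonneg (fun k _ => by positivity)] at hP'
  rw [hQ, Finset.sum_eq_zero_iff_of_nonneg (fun k _ => by positivity)] at hQ'
  rintro ⟨k, b⟩ hi
  by_contra hv
  have hk := hJ _ hi
  simp only at hk
  cases b
  · have := hQ' (k, false) (by rw [hB, Finset.mem_filter]; exact ⟨hi, rfl, hv⟩)
    simp only [ne_eq, OfNat.ofNat_ne_zero, not_false_eq_true, pow_eq_zero_iff, Int.cast_eq_zero] at this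
    exact hk this
  · have := hP' (k, true) (by rw [hA, Finset.mem_filter]; exact ⟨hi, rfl, hv⟩)
    simp only [ne_eq, OfNat.ofNat_ne_zero, not_false_eq_true, pow_eq_zero_iff, Int.cast_eq_zero] at this
    exact hk this

end Pool.Agent.Q84.Beam
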