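import Mathlib
import Pool.Agent.Q84.Beam

/-!
# Two oblique observations of a periodic beam at rational non-integer speeds
-/

set_option autoImplicit false

namespace Pool.Agent.Q84.Beam

open MeasureTheory Set Complex Pool.Agent.Q84.Ing

/-- fibre sums over `J` -/
noncomputable def fib (a : ℚ) (J : Finset (ℤ × Bool)) (v : ℤ × Bool → ℂ) (i : ℤ × Bool) : ℂ :=
  ∑ j ∈ J.filter (fun j => wf a j = wf a i), v j

/-- extension by zero -/
noncomputable def ext0 (J : Finset (ℤ × Bool)) (v : J → ℂ) (i : ℤ × Bool) : ℂ :=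
  if h : i ∈ J then v ⟨i, h⟩ else 0

/-- the linear map of fibre sums -/
noncomputable def fibL (a : ℚ) (J : Finset (ℤ × Bool)) (φ : ℤ × Bool → ℂ) : (J → ℂ) →ₗ[ℂ] (J → ℂ) where
  toFun v i := fib a J (fun j => ext0 J v j * φ j) i
  map_add' v w := by
    funext i
    simp only [Pi.add_apply]
    unfold fib
    rw [← Finset.sum_add_distrib]
    apply Finset.sum_congr rfl
    intro j _
    unfold ext0
    by_cases h : j ∈ J
    · simp only [h, dif_pos, Pi.add_apply]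
      ring
    · simp [h]
  map_smul' c v := by
    funext i
    simp only [Pi.smul_apply, RingHom.id_apply, smul_eq_mul]
    unfold fib
    rw [Finset.mul_sum]
    apply Finset.sum_congr rfl
    intro j _
    unfold ext0
    by_cases h : j ∈ J
    · simp only [h, dif_pos, Pi.smul_apply, smul_eq_mul]
      ring
    · simp [h]

lemma low {a₁ a₂ : ℚ} (h₁ : a₁.den ≠ 1) (h₂ : a₂.den ≠ 1) (hne : a₁ ≠ a₂)
    (J : Finset (ℤ × Bool)) (hJ : ∀ i ∈ J, i.1 ≠ 0) (φ₁ φ₂ : ℤ × Bool → ℂ)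
    (hφ₁ : ∀ i, φ₁ i ≠ 0) (hφ₂ : ∀ i, φ₂ i ≠ 0) :
    ∃ C : ℝ, 0 ≤ C ∧ ∀ v : ℤ × Bool → ℂ, ∑ i ∈ J, ‖v i‖ ^ 2 ≤
      C * (∑ i ∈ J, ‖fib a₁ J (fun j => v j * φ₁ j) i‖ ^ 2 +
        ∑ i ∈ J, ‖fib a₂ J (fun j => v j * φ₂ j) i‖ ^ 2) := by
  set Φ : (J → ℂ) →ₗ[ℂ] (J → ℂ) × (J → ℂ) := (fibL a₁ J φ₁).prod (fibL a₂ J φ₂) with hΦ
  have hker : LinearMap.ker Φ = ⊥ := by
    rw [LinearMap.ker_eq_bot']
    intro v hv
    have hv1 : fibL a₁ J φ₁ v = 0 := congrArg Prod.fst hv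
    have hv2 : fibL a₂ J φ₂ v = 0 := congrArg Prod.snd hv
    have := no_invisible h₁ h₂ hne J hJ (ext0 J v) φ₁ φ₂ hφ₁ hφ₂
      (fun i hi => congrFun hv1 ⟨i, hi⟩) (fun i hi => congrFun hv2 ⟨i, hi⟩)
    funext i
    have h3 := this i.1 i.2
    unfold ext0 at h3
    rw [dif_pos i.2] at h3
    simpa using h3
  obtain ⟨K, _, hK⟩ := Φ.exists_antilipschitzWith hker
  refine ⟨J.card * (K : ℝ) ^ 2, by positivity, fun v => ?_⟩
  set v' : J → ℂ := fun i => v i with hv'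
  have hext : ∀ j ∈ J, ext0 J v' j = v j := by
    intro j hj
    unfold ext0
    rw [dif_pos hj]
  have hfib : ∀ (a : ℚ) (φ : ℤ × Bool → ℂ) (i : J), fibL a J φ v' i = fib a J (fun j => v j * φ j) i := by
    intro a φ i
    change fib a J (fun j => ext0 J v' j * φ j) i = _
    unfold fib
    apply Finset.sum_congr rfl
    intro j hj
    simp only
    rw [hext j (Finset.mem_filter.mp hj).1]
  have h3 : ‖v'‖ ≤ K * ‖Φ v'‖ := by
    have := hK.le_mul_dist v' 0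
    simpa using this
  set R := ∑ i ∈ J, ‖fib a₁ J (fun j => v j * φ₁ j) i‖ ^ 2 +
        ∑ i ∈ J, ‖fib a₂ J (fun j => v j * φ₂ j) i‖ ^ 2 with hR
  have hR0 : 0 ≤ R := add_nonneg (Finset.sum_nonneg fun i _ => by positivity)
    (Finset.sum_nonneg fun i _ => by positivity)
  have h4 : ‖Φ v'‖ ≤ Real.sqrt R := by
    have hone : ∀ (a : ℚ) (φ : ℤ × Bool → ℂ),
        ∑ i ∈ J, ‖fib a J (fun j => v j * φ j) i‖ ^ 2 ≤ R → ‖fibL a J φ v'‖ ≤ Real.sqrt R := by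
      intro a φ hle
      rw [pi_norm_le_iff_of_nonneg (Real.sqrt_nonneg _)]
      intro i
      rw [hfib]
      apply Real.le_sqrt_of_sq_le
      refine le_trans ?_ hle
      exact Finset.single_le_sum (f := fun i => ‖fib a J (fun j => v j * φ j) i‖ ^ 2)
        (fun j _ => by positivity) i.2
    change max ‖fibL a₁ J φ₁ v'‖ ‖fibL a₂ J φ₂ v'‖ ≤ _
    apply max_le
    · apply hone
      rw [hR]
      have : 0 ≤ ∑ i ∈ J, ‖fib a₂ J (fun j => v j * φ₂ j) i‖ ^ 2 :=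
        Finset.sum_nonneg fun i _ => by positivity
      linarith
    · apply hone
      rw [hR]
      have : 0 ≤ ∑ i ∈ J, ‖fib a₁ J (fun j => v j * φ₁ j) i‖ ^ 2 :=
        Finset.sum_nonneg fun i _ => by positivity
      linarith
  have h5 : ∀ i ∈ J, ‖v i‖ ^ 2 ≤ (K : ℝ) ^ 2 * R := by
    intro i hi
    have h6 : ‖v i‖ ≤ K * Real.sqrt R := by
      have h7 : ‖v' ⟨i, hi⟩‖ ≤ ‖v'‖ := norm_le_pi_norm v' ⟨i, hi⟩
      calc ‖v i‖ ≤ ‖v'‖ := h7
        _ ≤ K * ‖Φ v'‖ := h3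
        _ ≤ K * Real.sqrt R := by gcongr
    calc ‖v i‖ ^ 2 ≤ (K * Real.sqrt R) ^ 2 := pow_le_pow_left₀ (norm_nonneg _) h6 2
      _ = (K : ℝ) ^ 2 * R := by rw [mul_pow, Real.sq_sqrt hR0]
  calc ∑ i ∈ J, ‖v i‖ ^ 2 ≤ ∑ i ∈ J, (K : ℝ) ^ 2 * R := Finset.sum_le_sum h5
    _ = _ := by rw [Finset.sum_const, nsmul_eq_mul]; ring

/-- phases -/
noncomputable def ph (t₀ x₀ : ℝ) (i : ℤ × Bool) : ℂ :=
  Complex.exp ((((if i.2 then (i.1 : ℝ) ^ 2 else -(i.1 : ℝ) ^ 2) * t₀ + i.1 * x₀ : ℝ) : ℂ) * I)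

lemma ph_norm (t₀ x₀ : ℝ) (i : ℤ × Bool) : ‖ph t₀ x₀ i‖ = 1 := Complex.norm_exp_ofReal_mul_I _

lemma ph_ne (t₀ x₀ : ℝ) (i : ℤ × Bool) : ph t₀ x₀ i ≠ 0 := Complex.exp_ne_zero _

/-- the coefficients as one family -/
noncomputable def vv (cp cm : ℤ →₀ ℂ) (i : ℤ × Bool) : ℂ := if i.2 then cp i.1 else cm i.1

/-- coefficients along the segment -/
noncomputable def cc (t₀ x₀ : ℝ) (cp cm : ℤ →₀ ℂ) (i : ℤ × Bool) : ℂ :=
  if i.1 = 0 then (if i.2 then cp 0 + cm 0 * t₀ else 0) else vv cp cm i * ph t₀ x₀ i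

/-- solutions -/
noncomputable def u (cp cm : ℤ →₀ ℂ) (t x : ℝ) : ℂ :=
  cp 0 + cm 0 * (t : ℂ) + ∑ k ∈ (cp.support ∪ cm.support).erase 0,
    (cp k * Complex.exp (Complex.I * (k : ℂ) ^ 2 * t) +
      cm k * Complex.exp (-(Complex.I * (k : ℂ) ^ 2 * t))) * Complex.exp (Complex.I * k * x)

lemma u_segment (a : ℚ) (t₀ x₀ : ℝ) (cp cm : ℤ →₀ ℂ) (L : Finset ℤ) (h0 : (0 : ℤ) ∈ L)
    (hL : cp.support ∪ cm.support ⊆ L) (s : ℝ) :
    u cp cm (t₀ + s) (x₀ - a * s) = cm 0 * (s : ℂ) +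
      ∑ i ∈ L ×ˢ (Finset.univ : Finset Bool), cc t₀ x₀ cp cm i * ex (wf a i) s := by
  have h1 : ∑ i ∈ L ×ˢ (Finset.univ : Finset Bool), cc t₀ x₀ cp cm i * ex (wf a i) s =
      ∑ k ∈ L, (cc t₀ x₀ cp cm (k, true) * ex (wf a (k, true)) s +
        cc t₀ x₀ cp cm (k, false) * ex (wf a (k, false)) s) := by
    rw [Finset.sum_product]
    apply Finset.sum_congr rfl
    intro k _
    rw [Fintype.sum_bool]
  rw [h1, ← Finset.add_sum_erase L _ h0]
  have h2 : cc t₀ x₀ cp cm (0, true) * ex (wf a (0, true)) s +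
      cc t₀ x₀ cp cm (0, false) * ex (wf a (0, false)) s = cp 0 + cm 0 * t₀ := by
    simp [cc, wf, ex]
  rw [h2]
  have h3 : ∑ k ∈ L.erase 0, (cc t₀ x₀ cp cm (k, true) * ex (wf a (k, true)) s +
        cc t₀ x₀ cp cm (k, false) * ex (wf a (k, false)) s) =
      ∑ k ∈ (cp.support ∪ cm.support).erase 0,
        (cp k * Complex.exp (Complex.I * (k : ℂ) ^ 2 * ((t₀ + s : ℝ) : ℂ)) +
        cm k * Complex.exp (-(Complex.I * (k : ℂ) ^ 2 * ((t₀ + s : ℝ) : ℂ)))) *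
          Complex.exp (Complex.I * k * ((x₀ - a * s : ℝ) : ℂ)) := by
    symm
    rw [Finset.sum_subset (Finset.erase_subset_erase 0 hL)]
    · apply Finset.sum_congr rfl
      intro k hk
      have hk0 : k ≠ 0 := Finset.ne_of_mem_erase hk
      have e1 : Complex.exp (Complex.I * (k : ℂ) ^ 2 * ((t₀ + s : ℝ) : ℂ)) *
          Complex.exp (Complex.I * k * ((x₀ - a * s : ℝ) : ℂ)) =
          ph t₀ x₀ (k, true) * ex (wf a (k, true)) s := by
        unfold ph ex wf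
        rw [← Complex.exp_add, ← Complex.exp_add]
        congr 1
        simp only [if_true]
        push_cast
        ring
      have e2 : Complex.exp (-(Complex.I * (k : ℂ) ^ 2 * ((t₀ + s : ℝ) : ℂ))) *
          Complex.exp (Complex.I * k * ((x₀ - a * s : ℝ) : ℂ)) =
          ph t₀ x₀ (k, false) * ex (wf a (k, false)) s := by
        unfold ph ex wf
        rw [← Complex.exp_add, ← Complex.exp_add]
        congr 1
        simp only [Bool.false_eq_true, if_false]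
        push_cast
        ring
      rw [add_mul, mul_assoc (cp k) _ _, mul_assoc (cm k) _ _, e1, e2]
      simp only [cc, hk0, if_false, vv, if_true, Bool.false_eq_true]
      ring
    · intro k _ hk
      have hk' : k ∉ cp.support ∪ cm.support ∨ k = 0 := by
        by_contra hc
        push Not at hc
        exact hk (Finset.mem_erase.mpr ⟨hc.2, hc.1⟩)
      rcases hk' with hk' | hk'
      · rw [Finset.mem_union, not_or, Finsupp.notMem_support_iff, Finsupp.notMem_support_iff] at hk'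
        rw [hk'.1, hk'.2]
        simp
      · rename_i hkL
        exact absurd hk' (Finset.ne_of_mem_erase hkL)
  rw [h3]
  unfold u
  push_cast
  ring

/-- `∑_k (|c_k^+|² + |c_k^-|²)` -/
noncomputable def energyC (cp cm : ℤ →₀ ℂ) : ℝ :=
  ∑ k ∈ cp.support ∪ cm.support, (‖cp k‖ ^ 2 + ‖cm k‖ ^ 2)

lemma wf_zero {a : ℚ} (ha : a.den ≠ 1) (i : ℤ × Bool) (h : wf a i = 0) : i.1 = 0 := by
  obtain ⟨k, b⟩ := i
  cases b
  · have : wf a (k, false) = wf a (0, false) := by rw [h]; simp [wf]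
    exact wf_inj_false ha this
  · have : wf a (k, true) = wf a (0, true) := by rw [h]; simp [wf]
    exact wf_inj_true ha this

/-- coincidences of frequencies -/
lemma coincide {a : ℚ} (ha : a.den ≠ 1) {R : ℕ} (hR : 2 * |(a : ℝ)| ≤ R) (i j : ℤ × Bool)
    (h : wf a i = wf a j) : i = j ∨ (i.1.natAbs ≤ R ∧ j.1.natAbs ≤ R) := by
  obtain ⟨k, b⟩ := i
  obtain ⟨l, b'⟩ := j
  have conv : ∀ k : ℤ, |(k : ℝ)| ≤ 2 * |(a : ℝ)| → k.natAbs ≤ R := by
    intro k hk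
    have h1 : |(k : ℝ)| ≤ R := hk.trans hR
    rw [← Int.cast_abs, Int.abs_eq_natAbs] at h1
    exact_mod_cast h1
  cases b <;> cases b'
  · left; rw [wf_inj_false ha h]
  · right
    have := mixed_bound h.symm
    exact ⟨conv _ this.2, conv _ this.1⟩
  · right
    have := mixed_bound h
    exact ⟨conv _ this.1, conv _ this.2⟩
  · left; rw [wf_inj_true ha h]

lemma sum_union_le' {ι : Type*} [DecidableEq ι] {f : ι → ℝ} (hf : ∀ i, 0 ≤ f i) (A B : Finset ι) :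
    ∑ i ∈ A ∪ B, f i ≤ ∑ i ∈ A, f i + ∑ i ∈ B, f i := by
  rw [← Finset.sum_union_inter]
  have : 0 ≤ ∑ i ∈ A ∩ B, f i := Finset.sum_nonneg fun i _ => hf i
  linarith

/-- **main theorem** -/
theorem two_segments (a₁ a₂ : ℚ) (h₁ : a₁.den ≠ 1) (h₂ : a₂.den ≠ 1) (hne : a₁ ≠ a₂)
    (t₁ x₁ t₂ x₂ T : ℝ) (hT : 0 < T) : ∃ C : ℝ, ∀ cp cm : ℤ →₀ ℂ,
      energyC cp cm ≤ C * ∫ s in (0 : ℝ)..T, (‖u cp cm (t₁ + s) (x₁ - a₁ * s)‖ ^ 2 +
        ‖u cp cm (t₂ + s) (x₂ - a₂ * s)‖ ^ 2) := by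
  obtain ⟨C₁, hC₁, s₁⟩ := segment h₁ hT
  obtain ⟨C₂, hC₂, s₂⟩ := segment h₂ hT
  obtain ⟨R, hR⟩ := exists_nat_ge (max (2 * |(a₁ : ℝ)|) (2 * |(a₂ : ℝ)|))
  have hR₁ : 2 * |(a₁ : ℝ)| ≤ R := (le_max_left _ _).trans hR
  have hR₂ : 2 * |(a₂ : ℝ)| ≤ R := (le_max_right _ _).trans hR
  set J : Finset (ℤ × Bool) := ((Finset.Icc (-(R : ℤ)) R).erase 0) ×ˢ (Finset.univ : Finset Bool) with hJ
  have hJ0 : ∀ i ∈ J, i.1 ≠ 0 := by
    intro i hi
    rw [hJ, Finset.mem_product] at hi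
    exact Finset.ne_of_mem_erase hi.1
  have memJ : ∀ i : ℤ × Bool, i ∈ J ↔ i.1 ≠ 0 ∧ i.1.natAbs ≤ R := by
    intro i
    rw [hJ, Finset.mem_product, Finset.mem_erase, Finset.mem_Icc]
    simp only [Finset.mem_univ, and_true]
    constructor
    · rintro ⟨h1, h2, h3⟩
      exact ⟨h1, by omega⟩
    · rintro ⟨h1, h2⟩
      exact ⟨h1, by omega, by omega⟩
  obtain ⟨C₀, hC₀, hlow⟩ := low h₁ h₂ hne J hJ0 (ph t₁ x₁) (ph t₂ x₂) (ph_ne t₁ x₁) (ph_ne t₂ x₂)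
  refine ⟨(4 + 2 * t₁ ^ 2) * C₁ + C₀ * J.card * C₁ + C₀ * J.card * C₂, fun cp cm => ?_⟩
  set L : Finset ℤ := (cp.support ∪ cm.support) ∪ Finset.Icc (-(R : ℤ)) R with hL
  have hL0 : (0 : ℤ) ∈ L := by
    rw [hL, Finset.mem_union, Finset.mem_Icc]
    right
    constructor <;> omega
  have hLs : cp.support ∪ cm.support ⊆ L := Finset.subset_union_left
  set I : Finset (ℤ × Bool) := L ×ˢ (Finset.univ : Finset Bool) with hI
  have hJI : J ⊆ I := by
    intro i hi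
    rw [hJ, Finset.mem_product] at hi
    rw [hI, Finset.mem_product, hL, Finset.mem_union]
    exact ⟨Or.inr (Finset.mem_of_mem_erase hi.1), hi.2⟩
  set M₁ := ∫ s in (0 : ℝ)..T, ‖u cp cm (t₁ + s) (x₁ - a₁ * s)‖ ^ 2 with hM₁
  set M₂ := ∫ s in (0 : ℝ)..T, ‖u cp cm (t₂ + s) (x₂ - a₂ * s)‖ ^ 2 with hM₂
  have hM₁0 : 0 ≤ M₁ := intervalIntegral.integral_nonneg hT.le fun _ _ => by positivity
  have hM₂0 : 0 ≤ M₂ := intervalIntegral.integral_nonneg hT.le fun _ _ => by positivity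
  -- continuity
  have ucont : ∀ (a : ℚ) (t₀ x₀ : ℝ), Continuous fun s : ℝ => ‖u cp cm (t₀ + s) (x₀ - a * s)‖ ^ 2 := by
    intro a t₀ x₀
    have e : (fun s : ℝ => ‖u cp cm (t₀ + s) (x₀ - a * s)‖ ^ 2) = fun s : ℝ => ‖cm 0 * (s : ℂ) +
      ∑ i ∈ I, cc t₀ x₀ cp cm i * ex (wf a i) s‖ ^ 2 := by
      funext s
      rw [u_segment a t₀ x₀ cp cm L hL0 hLs s]
    rw [e]
    apply Continuous.pow
    apply Continuous.norm
    exact (continuous_const.mul Complex.continuous_ofReal).add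
      (continuous_finsetSum _ fun i _ => continuous_const.mul (ex_cont _))
  have hsplit : ∫ s in (0 : ℝ)..T, (‖u cp cm (t₁ + s) (x₁ - a₁ * s)‖ ^ 2 +
        ‖u cp cm (t₂ + s) (x₂ - a₂ * s)‖ ^ 2) = M₁ + M₂ :=
    intervalIntegral.integral_add ((ucont a₁ t₁ x₁).intervalIntegrable _ _)
      ((ucont a₂ t₂ x₂).intervalIntegrable _ _)
  rw [hsplit]
  -- the two one-segment inequalities
  have q₁ := s₁ I (cc t₁ x₁ cp cm) (cm 0)
  have q₂ := s₂ I (cc t₂ x₂ cp cm) (cm 0)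
  rw [intervalIntegral.integral_congr (g := fun s => ‖u cp cm (t₁ + s) (x₁ - a₁ * s)‖ ^ 2)
    (fun s _ => by simp only; rw [u_segment a₁ t₁ x₁ cp cm L hL0 hLs s])] at q₁
  rw [intervalIntegral.integral_congr (g := fun s => ‖u cp cm (t₂ + s) (x₂ - a₂ * s)‖ ^ 2)
    (fun s _ => by simp only; rw [u_segment a₂ t₂ x₂ cp cm L hL0 hLs s])] at q₂
  rw [← hM₁] at q₁
  rw [← hM₂] at q₂
  -- fibres
  have fibre : ∀ (a : ℚ), a.den ≠ 1 → 2 * |(a : ℝ)| ≤ R → ∀ (t₀ x₀ : ℝ), ∀ i ∈ J,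
      ∑ j ∈ I.filter (fun j => wf a j = wf a i), cc t₀ x₀ cp cm j =
        fib a J (fun j => vv cp cm j * ph t₀ x₀ j) i := by
    intro a ha hRa t₀ x₀ i hi
    have hset : I.filter (fun j => wf a j = wf a i) = J.filter (fun j => wf a j = wf a i) := by
      ext j
      rw [Finset.mem_filter, Finset.mem_filter]
      constructor
      · rintro ⟨_, h2⟩
        refine ⟨?_, h2⟩
        rcases coincide ha hRa j i h2 with h3 | h3
        · rw [h3]; exact hi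
        · rw [memJ]
          refine ⟨?_, h3.1⟩
          intro hj0
          have : wf a i = 0 := by
            rw [← h2]
            obtain ⟨k, b⟩ := j
            simp only at hj0
            rw [hj0]
            simp [wf]
          exact hJ0 i hi (wf_zero ha i this)
      · rintro ⟨h1, h2⟩
        exact ⟨hJI h1, h2⟩
    rw [hset]
    unfold fib
    apply Finset.sum_congr rfl
    intro j hj
    have hj0 := hJ0 j (Finset.mem_filter.mp hj).1
    unfold cc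
    rw [if_neg hj0]
  have fibsum : ∀ (a : ℚ), a.den ≠ 1 → 2 * |(a : ℝ)| ≤ R → ∀ (t₀ x₀ : ℝ) (Q : ℝ),
      ∑ ω ∈ I.image (wf a), ‖∑ i ∈ I.filter (fun i => wf a i = ω), cc t₀ x₀ cp cm i‖ ^ 2 ≤ Q →
      ∑ i ∈ J, ‖fib a J (fun j => vv cp cm j * ph t₀ x₀ j) i‖ ^ 2 ≤ J.card * Q := by
    intro a ha hRa t₀ x₀ Q hQ
    calc ∑ i ∈ J, ‖fib a J (fun j => vv cp cm j * ph t₀ x₀ j) i‖ ^ 2 ≤ ∑ i ∈ J, Q := by
          apply Finset.sum_le_sum
          intro i hi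
          rw [← fibre a ha hRa t₀ x₀ i hi]
          refine le_trans ?_ hQ
          exact Finset.single_le_sum
            (f := fun ω => ‖∑ i ∈ I.filter (fun i => wf a i = ω), cc t₀ x₀ cp cm i‖ ^ 2)
            (fun ω _ => by positivity) (Finset.mem_image_of_mem _ (hJI hi))
      _ = J.card * Q := by rw [Finset.sum_const, nsmul_eq_mul]
  have hcm0 : ‖cm 0‖ ^ 2 ≤ C₁ * M₁ := by
    have : 0 ≤ ∑ ω ∈ I.image (wf a₁), ‖∑ i ∈ I.filter (fun i => wf a₁ i = ω),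
        cc t₁ x₁ cp cm i‖ ^ 2 := Finset.sum_nonneg fun ω _ => by positivity
    linarith
  have hS₁ : ∑ ω ∈ I.image (wf a₁), ‖∑ i ∈ I.filter (fun i => wf a₁ i = ω),
        cc t₁ x₁ cp cm i‖ ^ 2 ≤ C₁ * M₁ := by
    have : 0 ≤ ‖cm 0‖ ^ 2 := by positivity
    linarith
  have hS₂ : ∑ ω ∈ I.image (wf a₂), ‖∑ i ∈ I.filter (fun i => wf a₂ i = ω),
        cc t₂ x₂ cp cm i‖ ^ 2 ≤ C₂ * M₂ := by
    have : 0 ≤ ‖cm 0‖ ^ 2 := by positivity
    linarith
  -- the constant coefficient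
  have hcp0 : ‖cp 0‖ ^ 2 ≤ 2 * (C₁ * M₁) + 2 * t₁ ^ 2 * (C₁ * M₁) := by
    have e : ∑ i ∈ I.filter (fun i => wf a₁ i = 0), cc t₁ x₁ cp cm i = cp 0 + cm 0 * t₁ := by
      have hsub : ({((0 : ℤ), true), ((0 : ℤ), false)} : Finset (ℤ × Bool)) ⊆
          I.filter (fun i => wf a₁ i = 0) := by
        intro i hi
        rw [Finset.mem_insert, Finset.mem_singleton] at hi
        rw [Finset.mem_filter, hI, Finset.mem_product]
        rcases hi with rfl | rfl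
        · exact ⟨⟨hL0, Finset.mem_univ _⟩, by simp [wf]⟩
        · exact ⟨⟨hL0, Finset.mem_univ _⟩, by simp [wf]⟩
      rw [← Finset.sum_subset hsub]
      · rw [Finset.sum_pair (by simp)]
        simp [cc]
      · intro i hi hni
        exfalso
        apply hni
        have h0 := wf_zero h₁ i (Finset.mem_filter.mp hi).2
        obtain ⟨k, b⟩ := i
        simp only at h0
        subst h0
        cases b <;> simp
    have h3 : ‖cp 0 + cm 0 * t₁‖ ^ 2 ≤ C₁ * M₁ := by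
      rw [← e]
      refine le_trans ?_ hS₁
      refine Finset.single_le_sum
        (f := fun ω => ‖∑ i ∈ I.filter (fun i => wf a₁ i = ω), cc t₁ x₁ cp cm i‖ ^ 2)
        (fun ω _ => by positivity) ?_
      rw [Finset.mem_image]
      refine ⟨(0, true), ?_, by simp [wf]⟩
      rw [hI, Finset.mem_product]
      exact ⟨hL0, Finset.mem_univ _⟩
    have h4 : ‖cp 0‖ ^ 2 ≤ 2 * ‖cp 0 + cm 0 * t₁‖ ^ 2 + 2 * ‖cm 0 * (t₁ : ℂ)‖ ^ 2 := by
      have := two_sq (cp 0 + cm 0 * t₁) (cm 0 * t₁)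
      rwa [add_sub_cancel_right] at this
    have h5 : ‖cm 0 * (t₁ : ℂ)‖ ^ 2 ≤ t₁ ^ 2 * (C₁ * M₁) := by
      rw [norm_mul, Complex.norm_real, mul_pow, Real.norm_eq_abs, sq_abs, mul_comm]
      gcongr
    linarith
  -- low coefficients
  have hlo : ∑ i ∈ J, ‖vv cp cm i‖ ^ 2 ≤ C₀ * (J.card * (C₁ * M₁) + J.card * (C₂ * M₂)) := by
    refine (hlow (vv cp cm)).trans ?_
    apply mul_le_mul_of_nonneg_left _ hC₀
    exact add_le_add (fibsum a₁ h₁ hR₁ t₁ x₁ _ hS₁) (fibsum a₂ h₂ hR₂ t₂ x₂ _ hS₂)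
  -- high coefficients
  set H : Finset (ℤ × Bool) := I.filter fun i => R < i.1.natAbs with hH
  have hhi : ∑ i ∈ H, ‖vv cp cm i‖ ^ 2 ≤ C₁ * M₁ := by
    refine le_trans ?_ hS₁
    have hinj : Set.InjOn (wf a₁) (H : Set (ℤ × Bool)) := by
      intro i hi j hj hij
      rw [Finset.mem_coe, hH, Finset.mem_filter] at hi hj
      rcases coincide h₁ hR₁ i j hij with h3 | h3
      · exact h3
      · exact absurd h3.1 (by omega)
    have e1 : ∑ i ∈ H, ‖vv cp cm i‖ ^ 2 = ∑ ω ∈ H.image (wf a₁),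
        ‖∑ i ∈ I.filter (fun i => wf a₁ i = ω), cc t₁ x₁ cp cm i‖ ^ 2 := by
      rw [Finset.sum_image (fun x hx y hy h => hinj hx hy h)]
      apply Finset.sum_congr rfl
      intro i hi
      have hi' := hi
      rw [hH, Finset.mem_filter] at hi'
      have hs : I.filter (fun j => wf a₁ j = wf a₁ i) = {i} := by
        ext j
        rw [Finset.mem_filter, Finset.mem_singleton]
        constructor
        · rintro ⟨_, h4⟩
          rcases coincide h₁ hR₁ j i h4 with h3 | h3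
          · exact h3
          · exact absurd h3.2 (by omega)
        · rintro rfl
          exact ⟨hi'.1, rfl⟩
      rw [hs, Finset.sum_singleton]
      unfold cc
      have hi0 : i.1 ≠ 0 := by
        intro h
        rw [h] at hi'
        simp at hi'
      rw [if_neg hi0, norm_mul, ph_norm, mul_one]
    rw [e1]
    apply Finset.sum_le_sum_of_subset_of_nonneg
    · exact Finset.image_subset_image (Finset.filter_subset _ _)
    · intro ω _ _
      positivity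
  -- total
  have htot : energyC cp cm ≤ ‖cp 0‖ ^ 2 + ‖cm 0‖ ^ 2 + ∑ i ∈ J, ‖vv cp cm i‖ ^ 2 +
      ∑ i ∈ H, ‖vv cp cm i‖ ^ 2 := by
    have e1 : energyC cp cm ≤ ∑ k ∈ L, (‖cp k‖ ^ 2 + ‖cm k‖ ^ 2) := by
      unfold energyC
      apply Finset.sum_le_sum_of_subset_of_nonneg hLs
      intro k _ _
      positivity
    have e2 : ∑ k ∈ L, (‖cp k‖ ^ 2 + ‖cm k‖ ^ 2) = ∑ i ∈ I, ‖vv cp cm i‖ ^ 2 := by
      rw [hI, Finset.sum_product]
      apply Finset.sum_congr rfl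
      intro k _
      rw [Fintype.sum_bool]
      simp [vv]
    have e3 : I ⊆ ({((0 : ℤ), true), ((0 : ℤ), false)} : Finset (ℤ × Bool)) ∪ (J ∪ H) := by
      intro i hi
      rw [Finset.mem_union, Finset.mem_union, Finset.mem_insert, Finset.mem_singleton, memJ, hH,
        Finset.mem_filter]
      by_cases h0 : i.1 = 0
      · left
        obtain ⟨k, b⟩ := i
        simp only at h0
        subst h0
        cases b <;> simp
      · right
        by_cases h1 : i.1.natAbs ≤ R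
        · left; exact ⟨h0, h1⟩
        · right; exact ⟨hi, by omega⟩
    have e4 : ∑ i ∈ I, ‖vv cp cm i‖ ^ 2 ≤
        ∑ i ∈ ({((0 : ℤ), true), ((0 : ℤ), false)} : Finset (ℤ × Bool)), ‖vv cp cm i‖ ^ 2 +
          (∑ i ∈ J, ‖vv cp cm i‖ ^ 2 + ∑ i ∈ H, ‖vv cp cm i‖ ^ 2) := by
      refine (Finset.sum_le_sum_of_subset_of_nonneg e3 fun i _ _ => by positivity).trans ?_
      refine (sum_union_le' (fun i => by positivity) _ _).trans ?_
      gcongr
      exact sum_union_le' (fun i => by positivity) _ _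
    have e5 : ∑ i ∈ ({((0 : ℤ), true), ((0 : ℤ), false)} : Finset (ℤ × Bool)), ‖vv cp cm i‖ ^ 2 =
        ‖cp 0‖ ^ 2 + ‖cm 0‖ ^ 2 := by
      rw [Finset.sum_pair (by simp)]
      simp [vv]
    rw [e2] at e1
    rw [e5] at e4
    linarith
  have hJc : (0 : ℝ) ≤ J.card := Nat.cast_nonneg _
  have f1 : C₀ * (J.card * (C₁ * M₁) + J.card * (C₂ * M₂)) =
      C₀ * J.card * C₁ * M₁ + C₀ * J.card * C₂ * M₂ := by ring
  rw [f1] at hlo
  have f2 : ((4 + 2 * t₁ ^ 2) * C₁ + C₀ * J.card * C₁ + C₀ * J.card * C₂) * (M₁ + M₂) =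
      ((4 + 2 * t₁ ^ 2) * C₁ * M₁ + C₀ * J.card * C₁ * M₁ + C₀ * J.card * C₂ * M₂) +
      ((4 + 2 * t₁ ^ 2) * C₁ * M₂ + C₀ * J.card * C₁ * M₂ + C₀ * J.card * C₂ * M₁) := by ring
  have f3 : 0 ≤ (4 + 2 * t₁ ^ 2) * C₁ * M₂ + C₀ * J.card * C₁ * M₂ + C₀ * J.card * C₂ * M₁ := by
    positivity
  rw [f2]
  linarith

end Pool.Agent.Q84.Beam
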