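import Mathlib

/-! The sequence `r` and its block indices. -/

set_option autoImplicit false

namespace Q84.BlockSeq

/-- block indices -/
def lam (s : ℕ) : ℕ := 2 ^ s + 12 * s - 1

lemma lam_zero : lam 0 = 0 := by simp [lam]

lemma lam_succ (s : ℕ) : lam (s + 1) = lam s + 2 ^ s + 12 := by
  unfold lam
  have : 1 ≤ 2 ^ s := Nat.one_le_two_pow
  rw [pow_succ]
  omega

lemma lam_strictMono : StrictMono lam := by
  apply strictMono_nat_of_lt_succ
  intro s
  rw [lam_succ]
  have : 0 < 2 ^ s := by positivity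
  omega

lemma lam_ge (s : ℕ) : s ≤ lam s := lam_strictMono.le_apply

/-- the index of the block containing `k` -/
def S (k : ℕ) : ℕ := Nat.findGreatest (fun s => lam s ≤ k) k

lemma lam_S_le (k : ℕ) : lam (S k) ≤ k := by
  unfold S
  have h : (fun s => lam s ≤ k) 0 := by simp [lam_zero]
  exact Nat.findGreatest_spec (P := fun s => lam s ≤ k) (Nat.zero_le k) h

lemma lt_lam_S (k : ℕ) : k < lam (S k + 1) := by
  by_contra h
  push Not at h
  have h1 : S k + 1 ≤ k := (lam_ge _).trans h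
  have h2 := Nat.le_findGreatest (P := fun s => lam s ≤ k) h1 h
  change S k + 1 ≤ S k at h2
  omega

lemma S_eq {k s : ℕ} (h1 : lam s ≤ k) (h2 : k < lam (s + 1)) : S k = s := by
  have h3 := lam_S_le k
  have h4 := lt_lam_S k
  have h5 : S k < s + 1 := lam_strictMono.lt_iff_lt.1 (h3.trans_lt h2)
  have h6 : s < S k + 1 := lam_strictMono.lt_iff_lt.1 (h1.trans_lt h4)
  omega

/-- the sequence -/
noncomputable def r (k : ℕ) : ℝ :=
  (2 : ℝ) ^ (lam (S k)) / 2 ^ 11 * (2 - (1 / 2) ^ (k - lam (S k)))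

lemma half_pow_le (n : ℕ) : (1 / 2 : ℝ) ^ n ≤ 1 := pow_le_one₀ (by norm_num) (by norm_num)

lemma half_pow_pos (n : ℕ) : (0 : ℝ) < (1 / 2 : ℝ) ^ n := by positivity

lemma r_ge (k : ℕ) : (2 : ℝ) ^ (lam (S k)) / 2 ^ 11 ≤ r k := by
  unfold r
  have := half_pow_le (k - lam (S k))
  exact le_mul_of_one_le_right (by positivity) (by linarith)

lemma r_lt (k : ℕ) : r k < (2 : ℝ) ^ (lam (S k)) / 2 ^ 10 := by
  unfold r
  have h := half_pow_pos (k - lam (S k))
  have h2 : (0 : ℝ) < (2 : ℝ) ^ (lam (S k)) / 2 ^ 11 := by positivity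
  have h3 : (2 : ℝ) ^ (lam (S k)) / 2 ^ 10 = (2 : ℝ) ^ (lam (S k)) / 2 ^ 11 * 2 := by ring
  rw [h3]
  exact mul_lt_mul_of_pos_left (by linarith) h2

lemma r_pos (k : ℕ) : 0 < r k := lt_of_lt_of_le (by positivity) (r_ge k)

lemma r_lt_pow (k : ℕ) : r k < 2 ^ k / 2 ^ 10 := by
  refine (r_lt k).trans_le ?_
  have := pow_le_pow_right₀ (by norm_num : (1 : ℝ) ≤ 2) (lam_S_le k)
  gcongr

lemma r_strictMono : StrictMono r := by
  apply strictMono_nat_of_lt_succ
  intro k
  by_cases h : k + 1 < lam (S k + 1)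
  · have h1 : S (k + 1) = S k := S_eq ((lam_S_le k).trans (Nat.le_succ k)) h
    unfold r
    rw [h1]
    have h2 : k + 1 - lam (S k) = (k - lam (S k)) + 1 := by
      have := lam_S_le k; omega
    rw [h2, pow_succ (1 / 2 : ℝ)]
    have h3 := half_pow_pos (k - lam (S k))
    exact mul_lt_mul_of_pos_left (by linarith) (by positivity)
  · have h0 := lt_lam_S k
    have h1 : k + 1 = lam (S k + 1) := by omega
    have h2 : S (k + 1) = S k + 1 := by
      apply S_eq
      · omega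
      · rw [h1]; exact lam_strictMono (Nat.lt_succ_self _)
    refine (r_lt k).trans_le (le_trans ?_ (r_ge (k + 1)))
    rw [h2]
    have h3 : (2 : ℝ) ^ (lam (S k)) / 2 ^ 10 = (2 : ℝ) ^ (lam (S k) + 1) / 2 ^ 11 := by
      rw [pow_succ]; ring
    rw [h3]
    have h4 : lam (S k) + 1 ≤ lam (S k + 1) := lam_strictMono (Nat.lt_succ_self _)
    have := pow_le_pow_right₀ (by norm_num : (1 : ℝ) ≤ 2) h4
    gcongr

lemma r_tendsto : Filter.Tendsto r Filter.atTop Filter.atTop := by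
  apply Filter.tendsto_atTop_atTop_of_monotone r_strictMono.monotone
  intro b
  obtain ⟨s, hs⟩ := pow_unbounded_of_one_lt (b * 2 ^ 11) (by norm_num : (1 : ℝ) < 2)
  refine ⟨lam s, ?_⟩
  have h1 : S (lam s) = s := S_eq le_rfl (lam_strictMono (Nat.lt_succ_self _))
  refine le_trans ?_ (r_ge (lam s))
  rw [h1, le_div_iff₀ (by positivity)]
  refine hs.le.trans ?_
  exact pow_le_pow_right₀ (by norm_num) (lam_ge s)

lemma isLeast (s : ℕ) : IsLeast {m : ℕ | (2 : ℝ) ^ (lam s) ≤ r m} (lam (s + 1)) := by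
  constructor
  · have h1 : S (lam (s + 1)) = s + 1 := S_eq le_rfl (lam_strictMono (Nat.lt_succ_self _))
    change (2 : ℝ) ^ (lam s) ≤ r (lam (s + 1))
    refine le_trans ?_ (r_ge (lam (s + 1)))
    rw [h1, le_div_iff₀ (by positivity), ← pow_add]
    apply pow_le_pow_right₀ (by norm_num)
    rw [lam_succ]
    have : 0 < 2 ^ s := by positivity
    omega
  · intro m hm
    change (2 : ℝ) ^ (lam s) ≤ r m at hm
    by_contra hlt
    push Not at hlt
    have h1 : S m ≤ s := by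
      have := (lam_S_le m).trans_lt hlt
      have := lam_strictMono.lt_iff_lt.1 this
      omega
    have h2 := r_lt m
    have h3 : (2 : ℝ) ^ (lam (S m)) ≤ 2 ^ (lam s) :=
      pow_le_pow_right₀ (by norm_num) (lam_strictMono.monotone h1)
    have h4 : (0 : ℝ) < 2 ^ (lam (S m)) := by positivity
    have h5 : (2 : ℝ) ^ (lam (S m)) / 2 ^ 10 ≤ 2 ^ (lam (S m)) := by
      apply div_le_self h4.le
      norm_num
    linarith

/-- degrees -/
def D : ℕ → ℕ
  | 0 => 0
  | s + 1 => 2 ^ (lam s + 2 ^ s - 1) + 2 * D s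

lemma D_le (s : ℕ) : 2 ^ 12 * D s ≤ 2 ^ (lam s) := by
  induction s with
  | zero => simp [D]
  | succ s ih =>
    have h1 : 2 ^ (lam s) * 2 ≤ 2 ^ (lam (s + 1) - 1) := by
      rw [← pow_succ]
      apply Nat.pow_le_pow_right (by norm_num)
      rw [lam_succ]
      have : 0 < 2 ^ s := by positivity
      omega
    have h2 : 2 ^ 12 * 2 ^ (lam s + 2 ^ s - 1) = 2 ^ (lam (s + 1) - 1) := by
      rw [← pow_add]
      congr 1
      have : 1 ≤ 2 ^ s := Nat.one_le_two_pow
      rw [lam_succ]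
      omega
    have h3 : 2 ^ (lam (s + 1)) = 2 ^ (lam (s + 1) - 1) + 2 ^ (lam (s + 1) - 1) := by
      have : lam (s + 1) = (lam (s + 1) - 1) + 1 := by
        rw [lam_succ]
        have : 0 < 2 ^ s := by positivity
        omega
      conv_lhs => rw [this, pow_succ]
      ring
    have h4 : 2 ^ 12 * D (s + 1) = 2 ^ 12 * 2 ^ (lam s + 2 ^ s - 1) + 2 * (2 ^ 12 * D s) := by
      simp only [D]; ring
    rw [h4, h2, h3]
    omega

end Q84.BlockSeq
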