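import Mathlib

/-! Fourier coefficients of continuous functions on the circle: spectra of products. -/

set_option autoImplicit false

namespace Q84.TrigCoeff

open MeasureTheory AddCircle
open scoped Pointwise

/-- continuous functions on the circle -/
abbrev C1 : Type := C(UnitAddCircle, ℂ)

lemma int_of_cont (f : C1) : Integrable f haarAddCircle :=
  f.continuous.integrable_of_hasCompactSupport (HasCompactSupport.of_compactSpace _)

/-- the `n`-th coefficient functional -/
noncomputable def co (n : ℤ) : C1 →ₗ[ℂ] ℂ where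
  toFun f := fourierCoeff f n
  map_add' f g := by
    have := congrFun (fourierCoeff.add (int_of_cont f) (int_of_cont g)) n
    simpa using this
  map_smul' c f := by
    have := fourierCoeff.const_smul f c n
    simpa using this

lemma co_apply (n : ℤ) (f : C1) : co n f = fourierCoeff f n := rfl

lemma co_fourier (n m : ℤ) : co n (fourier m : C1) = if n = m then 1 else 0 := by
  rw [co_apply, fourierCoeff_fourier]
  by_cases h : n = m
  · subst h; simp
  · rw [if_neg h]; simp [h]

/-- trigonometric polynomials with spectrum in `S` -/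
noncomputable def V (S : Set ℤ) : Submodule ℂ C1 := Submodule.span ℂ ((fun n => (fourier n : C1)) '' S)

lemma V_mono {S T : Set ℤ} (h : S ⊆ T) : V S ≤ V T := Submodule.span_mono (Set.image_mono h)

lemma fourier_mem {S : Set ℤ} {n : ℤ} (h : n ∈ S) : (fourier n : C1) ∈ V S :=
  Submodule.subset_span ⟨n, h, rfl⟩

lemma co_eq_zero {S : Set ℤ} {f : C1} (hf : f ∈ V S) {n : ℤ} (hn : n ∉ S) : co n f = 0 := by
  unfold V at hf
  induction hf using Submodule.span_induction with
  | mem g hg =>
    obtain ⟨m, hm, rfl⟩ := hg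
    rw [co_fourier, if_neg]
    rintro rfl; exact hn hm
  | zero => exact map_zero _
  | add f g _ _ hf hg => rw [map_add, hf, hg, add_zero]
  | smul c f _ hf => rw [map_smul, hf, smul_zero]

lemma fourier_mul (m n : ℤ) : (fourier m : C1) * fourier n = fourier (m + n) := by
  ext x
  rw [ContinuousMap.mul_apply, fourier_add]

lemma fourier_star (m : ℤ) : star (fourier m : C1) = fourier (-m) := by
  ext x
  rw [ContinuousMap.star_apply, fourier_neg]
  rfl

lemma fourier_zero_eq : (fourier 0 : C1) = 1 := by
  ext x; simp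

lemma one_mem {S : Set ℤ} (h : (0 : ℤ) ∈ S) : (1 : C1) ∈ V S := by
  rw [← fourier_zero_eq]; exact fourier_mem h

lemma mul_mem {S T U : Set ℤ} (hU : ∀ s ∈ S, ∀ t ∈ T, s + t ∈ U) {f g : C1} (hf : f ∈ V S)
    (hg : g ∈ V T) : f * g ∈ V U := by
  have h := Submodule.mul_mem_mul hf hg
  unfold V at h
  rw [Submodule.span_mul_span] at h
  refine Submodule.span_mono ?_ h
  rintro _ ⟨_, ⟨s, hs, rfl⟩, _, ⟨t, ht, rfl⟩, rfl⟩
  exact ⟨s + t, hU s hs t ht, (fourier_mul s t).symm⟩

lemma star_mem {S T : Set ℤ} (hT : ∀ s ∈ S, -s ∈ T) {f : C1} (hf : f ∈ V S) : star f ∈ V T := by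
  unfold V at hf
  induction hf using Submodule.span_induction with
  | mem g hg =>
    obtain ⟨m, hm, rfl⟩ := hg
    simp only
    rw [fourier_star]
    exact fourier_mem (hT m hm)
  | zero => rw [star_zero]; exact Submodule.zero_mem _
  | add f g _ _ hf hg => rw [star_add]; exact Submodule.add_mem _ hf hg
  | smul c f _ hf => rw [star_smul]; exact Submodule.smul_mem _ _ hf

/-- squared `L²` norm -/
noncomputable def nrm2 (f : C1) : ℝ := ∫ t, ‖f t‖ ^ 2 ∂haarAddCircle

lemma co_zero_mul_star (f : C1) : co 0 (f * star f) = (nrm2 f : ℂ) := by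
  rw [co_apply, fourierCoeff, nrm2, ← integral_complex_ofReal]
  refine integral_congr_ae (Filter.Eventually.of_forall fun t => ?_)
  simp only [neg_zero, fourier_zero, one_smul, ContinuousMap.mul_apply, ContinuousMap.star_apply]
  rw [Complex.star_def, Complex.mul_conj, Complex.normSq_eq_norm_sq]

lemma nrm2_nonneg (f : C1) : 0 ≤ nrm2 f := integral_nonneg fun t => by positivity

lemma nrm2_mul_le (u h : C1) (hu : ∀ t, ‖u t‖ ≤ 1) : nrm2 (u * h) ≤ nrm2 h := by
  unfold nrm2
  apply integral_mono
  · have hc : Continuous fun t => ‖(u * h) t‖ ^ 2 := by fun_prop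
    exact hc.integrable_of_hasCompactSupport (HasCompactSupport.of_compactSpace _)
  · have hc : Continuous fun t => ‖h t‖ ^ 2 := by fun_prop
    exact hc.integrable_of_hasCompactSupport (HasCompactSupport.of_compactSpace _)
  · intro t
    simp only [ContinuousMap.mul_apply, norm_mul, mul_pow]
    have h1 := hu t
    have h2 := norm_nonneg (u t)
    have h3 : ‖u t‖ ^ 2 ≤ 1 := by nlinarith
    exact mul_le_of_le_one_left (sq_nonneg _) h3

/-- Pythagoras for functions with `co 0 (f * star g) = 0`. -/
lemma nrm2_add (f g : C1) (h1 : co 0 (f * star g) = 0) (h2 : co 0 (g * star f) = 0) :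
    nrm2 (f + g) = nrm2 f + nrm2 g := by
  have e : (f + g) * star (f + g) = f * star f + g * star g + f * star g + g * star f := by
    rw [star_add]; ring
  have h3 := co_zero_mul_star (f + g)
  rw [e, map_add, map_add, map_add, h1, h2, co_zero_mul_star, co_zero_mul_star, add_zero,
    add_zero] at h3
  exact_mod_cast h3.symm

end Q84.TrigCoeff
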