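import Mathlib
import Pool.Agent.Q84.TrigCoeff
import Pool.Agent.Q84.BlockSeq

set_option autoImplicit false

namespace Q84.BlockCx

open Q84.TrigCoeff Q84.BlockSeq MeasureTheory

/-- the exponents used in block `s` -/
def B (s : ℕ) : Finset ℕ := Finset.Ico (lam s) (lam s + 2 ^ s)

lemma card_B (s : ℕ) : (B s).card = 2 ^ s := by simp [B]

/-- the lacunary mean -/
noncomputable def h (s : ℕ) : C1 :=
  ((1 / (2 * 2 ^ s) : ℝ) : ℂ) • ∑ k ∈ B s, (fourier ((2 : ℤ) ^ k) : C1)

/-- the functions -/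
noncomputable def f : ℕ → C1
  | 0 => 0
  | s + 1 => f s + (1 - f s * star (f s)) * h s

lemma h_norm (s : ℕ) (t : UnitAddCircle) : ‖h s t‖ ≤ 1 / 2 := by
  unfold h
  rw [ContinuousMap.smul_apply, norm_smul, Complex.norm_real, Real.norm_eq_abs,
    abs_of_pos (by positivity), ContinuousMap.sum_apply]
  have h1 : ‖∑ k ∈ B s, (fourier ((2 : ℤ) ^ k) : C1) t‖ ≤ 2 ^ s := by
    refine (norm_sum_le _ _).trans ?_
    have : ∀ k ∈ B s, ‖(fourier ((2 : ℤ) ^ k) : C1) t‖ ≤ 1 := by
      intro k _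
      exact ((fourier ((2 : ℤ) ^ k) : C1).norm_coe_le_norm t).trans (fourier_norm _).le
    refine (Finset.sum_le_sum this).trans ?_
    rw [Finset.sum_const, card_B]
    simp
  calc (1 / (2 * 2 ^ s) : ℝ) * ‖∑ k ∈ B s, (fourier ((2 : ℤ) ^ k) : C1) t‖
      ≤ (1 / (2 * 2 ^ s) : ℝ) * 2 ^ s := by gcongr
    _ = 1 / 2 := by field_simp

lemma f_norm (s : ℕ) (t : UnitAddCircle) : ‖f s t‖ ≤ 1 := by
  induction s with
  | zero => simp [f]
  | succ s ih =>
    have e : f (s + 1) t = f s t + (1 - f s t * star (f s t)) * h s t := by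
      simp only [f, ContinuousMap.add_apply, ContinuousMap.mul_apply, ContinuousMap.sub_apply,
        ContinuousMap.one_apply, ContinuousMap.star_apply]
    rw [e]
    have h1 : ‖(1 - f s t * star (f s t))‖ = 1 - ‖f s t‖ ^ 2 := by
      rw [Complex.star_def, Complex.mul_conj, Complex.normSq_eq_norm_sq, ← Complex.ofReal_one,
        ← Complex.ofReal_sub, Complex.norm_real, Real.norm_eq_abs, abs_of_nonneg]
      have := norm_nonneg (f s t)
      nlinarith
    refine (norm_add_le _ _).trans ?_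
    rw [norm_mul, h1]
    have h2 := h_norm s t
    have h3 := norm_nonneg (f s t)
    have h4 : 0 ≤ 1 - ‖f s t‖ ^ 2 := by nlinarith
    nlinarith [mul_le_mul_of_nonneg_left h2 h4, sq_nonneg (1 - ‖f s t‖)]

lemma one_sub_norm (s : ℕ) (t : UnitAddCircle) : ‖(1 - f s * star (f s) : C1) t‖ ≤ 1 := by
  simp only [ContinuousMap.mul_apply, ContinuousMap.sub_apply,
    ContinuousMap.one_apply, ContinuousMap.star_apply]
  rw [Complex.star_def, Complex.mul_conj, Complex.normSq_eq_norm_sq, ← Complex.ofReal_one,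
    ← Complex.ofReal_sub, Complex.norm_real, Real.norm_eq_abs]
  have := norm_nonneg (f s t)
  have h2 := f_norm s t
  rw [abs_of_nonneg] <;> nlinarith

lemma h_mem (s : ℕ) : h s ∈ V ((fun k : ℕ => (2 : ℤ) ^ k) '' (B s : Set ℕ)) := by
  unfold h
  apply Submodule.smul_mem
  apply Submodule.sum_mem
  intro k hk
  exact fourier_mem ⟨k, hk, rfl⟩

lemma pow_B_le {s k : ℕ} (hk : k ∈ B s) : (2 : ℤ) ^ k ≤ 2 ^ (lam s + 2 ^ s - 1) := by
  apply pow_le_pow_right₀ (by norm_num)
  rw [B, Finset.mem_Ico] at hk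
  omega

lemma sq_mem {s : ℕ} (hf : f s ∈ V (Set.Icc (-(D s : ℤ)) (D s))) :
    (1 - f s * star (f s)) ∈ V (Set.Icc (-(2 * D s : ℤ)) (2 * D s)) := by
  apply Submodule.sub_mem
  · apply Q84.TrigCoeff.one_mem
    constructor <;> omega
  · refine mul_mem (S := Set.Icc (-(D s : ℤ)) (D s)) (T := Set.Icc (-(D s : ℤ)) (D s)) ?_ hf
      (star_mem ?_ hf)
    · rintro a ⟨ha1, ha2⟩ b ⟨hb1, hb2⟩
      constructor <;> omega
    · rintro a ⟨ha1, ha2⟩
      constructor <;> omega

lemma f_mem (s : ℕ) : f s ∈ V (Set.Icc (-(D s : ℤ)) (D s)) := by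
  induction s with
  | zero => exact Submodule.zero_mem _
  | succ s ih =>
    have e : f (s + 1) = f s + (1 - f s * star (f s)) * h s := rfl
    rw [e]
    have hD : (D (s + 1) : ℤ) = 2 ^ (lam s + 2 ^ s - 1) + 2 * D s := by
      simp only [D]; push_cast; ring
    have hp : (0 : ℤ) < 2 ^ (lam s + 2 ^ s - 1) := by positivity
    apply Submodule.add_mem
    · refine V_mono ?_ ih
      apply Set.Icc_subset_Icc <;> omega
    · refine mul_mem ?_ (sq_mem ih) (h_mem s)
      rintro a ⟨ha1, ha2⟩ _ ⟨k, hk, rfl⟩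
      have h1 := pow_B_le hk
      have h2 : (0 : ℤ) < 2 ^ k := by positivity
      simp only
      constructor <;> omega

/-- the increments -/
noncomputable def g (s : ℕ) : C1 := (1 - f s * star (f s)) * h s

lemma f_succ (s : ℕ) : f (s + 1) = f s + g s := rfl

/-- the windows -/
def Wd (s : ℕ) : Set ℤ := {n | ∃ k ∈ B s, (2 : ℤ) ^ k - 2 * D s ≤ n ∧ n ≤ 2 ^ k + 2 * D s}

lemma g_mem (s : ℕ) : g s ∈ V (Wd s) := by
  refine mul_mem ?_ (sq_mem (f_mem s)) (h_mem s)
  rintro a ⟨ha1, ha2⟩ _ ⟨k, hk, rfl⟩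
  refine ⟨k, hk, ?_, ?_⟩ <;> simp only <;> omega

lemma D_small {s k : ℕ} (hk : k ∈ B s) : 2 ^ 12 * (D s : ℤ) ≤ 2 ^ k := by
  have h1 := D_le s
  have h2 : 2 ^ lam s ≤ 2 ^ k := by
    apply Nat.pow_le_pow_right (by norm_num)
    rw [B, Finset.mem_Ico] at hk
    exact hk.1
  exact_mod_cast h1.trans h2

lemma nrm2_h (s : ℕ) : nrm2 (h s) = 1 / (4 * 2 ^ s) := by
  have h1 := co_zero_mul_star (h s)
  have h2 : h s * star (h s) = (((1 / (2 * 2 ^ s) : ℝ) : ℂ) * ((1 / (2 * 2 ^ s) : ℝ) : ℂ)) •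
      ∑ k ∈ B s, ∑ l ∈ B s, (fourier ((2 : ℤ) ^ k - 2 ^ l) : C1) := by
    unfold h
    rw [star_smul, star_sum, smul_mul_smul_comm, Finset.sum_mul_sum]
    congr 1
    · rw [Complex.star_def, Complex.conj_ofReal]
    · refine Finset.sum_congr rfl fun k _ => Finset.sum_congr rfl fun l _ => ?_
      rw [fourier_star, fourier_mul, sub_eq_add_neg]
  have h3 : ∑ k ∈ B s, ∑ l ∈ B s, co 0 (fourier ((2 : ℤ) ^ k - 2 ^ l) : C1) = 2 ^ s := by
    have h4 : ∀ k ∈ B s, ∑ l ∈ B s, co 0 (fourier ((2 : ℤ) ^ k - 2 ^ l) : C1) = 1 := by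
      intro k hk
      rw [Finset.sum_eq_single k]
      · rw [co_fourier, if_pos (by ring)]
      · intro l _ hl
        rw [co_fourier, if_neg]
        intro h5
        apply hl
        have h6 : (2 : ℤ) ^ l = 2 ^ k := by linarith
        exact Nat.pow_right_injective (le_refl 2) (by exact_mod_cast h6)
      · intro h5; exact absurd hk h5
    rw [Finset.sum_congr rfl h4, Finset.sum_const, card_B]
    simp
  rw [h2, map_smul, map_sum] at h1
  simp_rw [map_sum] at h1
  rw [h3] at h1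
  have h7 : ((1 / (4 * 2 ^ s) : ℝ) : ℂ) = (nrm2 (h s) : ℂ) := by
    rw [← h1, smul_eq_mul]
    push_cast
    field_simp
    norm_num
  exact_mod_cast h7.symm

lemma nrm2_g (s : ℕ) : nrm2 (g s) ≤ 1 / (4 * 2 ^ s) := by
  rw [← nrm2_h s]
  exact nrm2_mul_le _ _ (one_sub_norm s)

lemma nrm2_f (s : ℕ) : nrm2 (f s) ≤ 1 / 2 - 1 / (2 * 2 ^ s) := by
  induction s with
  | zero => simp [f, nrm2]
  | succ s ih =>
    have hstar : star (g s) ∈ V {n | -n ∈ Wd s} := star_mem (fun n hn => by simpa using hn) (g_mem s)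
    have key : ∀ n ∈ Wd s, (D s : ℤ) < n := by
      rintro n ⟨k, hk, h1, h2⟩
      have h3 := D_small hk
      have h4 : (0 : ℤ) < 2 ^ k := by positivity
      omega
    have h1 : co 0 (f s * star (g s)) = 0 := by
      refine co_eq_zero (S := {n | n < 0}) (mul_mem ?_ (f_mem s) hstar) (by simp)
      rintro a ⟨ha1, ha2⟩ b hb
      have := key _ hb
      simp only [Set.mem_ofPred_eq]
      omega
    have h2 : co 0 (g s * star (f s)) = 0 := by
      refine co_eq_zero (S := {n | 0 < n}) (mul_mem ?_ (g_mem s)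
        (star_mem (T := Set.Icc (-(D s : ℤ)) (D s)) ?_ (f_mem s))) (by simp)
      · rintro a ha b ⟨hb1, hb2⟩
        have := key _ ha
        simp only [Set.mem_ofPred_eq]
        omega
      · rintro a ⟨ha1, ha2⟩
        constructor <;> omega
    rw [f_succ, nrm2_add _ _ h1 h2]
    have h3 := nrm2_g s
    have h4 : (1 : ℝ) / (4 * 2 ^ s) = 1 / (2 * 2 ^ s) - 1 / (2 * 2 ^ (s + 1)) := by
      rw [pow_succ]; field_simp; norm_num
    linarith

/-- coefficient of `g s` at `2^k` -/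
lemma co_g (s k : ℕ) (hk : k ∈ B s) :
    co ((2 : ℤ) ^ k) (g s) = (((1 / (2 * 2 ^ s)) * (1 - nrm2 (f s)) : ℝ) : ℂ) := by
  have h1 : g s = ((1 / (2 * 2 ^ s) : ℝ) : ℂ) • ∑ l ∈ B s,
      ((1 - f s * star (f s)) * (fourier ((2 : ℤ) ^ l) : C1)) := by
    unfold g h
    rw [mul_smul_comm, Finset.mul_sum]
  rw [h1, map_smul, map_sum, Finset.sum_eq_single k]
  · have h2 : co ((2 : ℤ) ^ k) ((1 - f s * star (f s)) * (fourier ((2 : ℤ) ^ k) : C1)) =
        co 0 (1 - f s * star (f s)) := by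
      rw [co_apply, co_apply, fourierCoeff, fourierCoeff]
      refine integral_congr_ae (Filter.Eventually.of_forall fun t => ?_)
      simp only [ContinuousMap.mul_apply, smul_eq_mul]
      have h3 : (fourier (-(2 : ℤ) ^ k) t : ℂ) * fourier ((2 : ℤ) ^ k) t = fourier (-0) t := by
        rw [← fourier_add]; simp
      rw [← h3]
      ring
    rw [h2, map_sub, co_zero_mul_star, ← fourier_zero_eq, co_fourier, if_pos rfl, smul_eq_mul]
    push_cast
    ring
  · intro l hl hlk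
    refine co_eq_zero (S := Set.Icc ((2 : ℤ) ^ l - 2 * D s) (2 ^ l + 2 * D s))
      (mul_mem ?_ (sq_mem (f_mem s)) (fourier_mem (S := {(2 : ℤ) ^ l}) rfl)) ?_
    · rintro a ⟨ha1, ha2⟩ _ rfl
      constructor <;> omega
    · rintro ⟨h2, h3⟩
      have h4 := D_small hl
      have h5 := D_small hk
      rcases lt_or_gt_of_ne hlk with h6 | h6
      · have h7 : (2 : ℤ) ^ l * 2 ≤ 2 ^ k := by
          rw [← pow_succ]; exact pow_le_pow_right₀ (by norm_num) h6
        have h8 : (0 : ℤ) < 2 ^ l := by positivity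
        omega
      · have h7 : (2 : ℤ) ^ k * 2 ≤ 2 ^ l := by
          rw [← pow_succ]; exact pow_le_pow_right₀ (by norm_num) h6
        have h8 : (0 : ℤ) < 2 ^ k := by positivity
        omega
  · intro h; exact absurd hk h

/-- later increments do not touch the coefficient -/
lemma co_g_late (s S k : ℕ) (hk : k ∈ B s) (hS : s < S) : co ((2 : ℤ) ^ k) (g S) = 0 := by
  refine co_eq_zero (g_mem S) ?_
  rintro ⟨l, hl, h1, h2⟩
  have h3 := D_small hl
  have h4 : k + 1 ≤ l := by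
    rw [B, Finset.mem_Ico] at hk hl
    have h5 := lam_succ s
    have h6 : lam (s + 1) ≤ lam S := lam_strictMono.monotone hS
    omega
  have h7 : (2 : ℤ) ^ k * 2 ≤ 2 ^ l := by
    rw [← pow_succ]; exact pow_le_pow_right₀ (by norm_num) h4
  have h8 : (0 : ℤ) < 2 ^ k := by positivity
  omega

lemma co_f_early (s k : ℕ) (hk : k ∈ B s) : co ((2 : ℤ) ^ k) (f s) = 0 := by
  refine co_eq_zero (f_mem s) ?_
  rintro ⟨_, h2⟩
  have h3 := D_small hk
  have h8 : (0 : ℤ) < 2 ^ k := by positivity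
  omega

lemma co_f (s k : ℕ) (hk : k ∈ B s) (S : ℕ) (hS : s < S) :
    co ((2 : ℤ) ^ k) (f S) = (((1 / (2 * 2 ^ s)) * (1 - nrm2 (f s)) : ℝ) : ℂ) := by
  induction S, hS using Nat.le_induction with
  | base => rw [f_succ, map_add, co_f_early s k hk, zero_add, co_g s k hk]
  | succ S hS ih => rw [f_succ, map_add, ih, co_g_late s S k hk hS, add_zero]

lemma co_f_norm (s k : ℕ) (hk : k ∈ B s) (S : ℕ) (hS : s < S) :
    1 / (4 * 2 ^ s) ≤ ‖co ((2 : ℤ) ^ k) (f S)‖ := by
  rw [co_f s k hk S hS, Complex.norm_real, Real.norm_eq_abs]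
  refine le_trans ?_ (le_abs_self _)
  have h1 := nrm2_f s
  have h2 : (0 : ℝ) < 1 / (2 * 2 ^ s) := by positivity
  have h3 : (1 : ℝ) / (4 * 2 ^ s) = 1 / (2 * 2 ^ s) * (1 / 2) := by field_simp; norm_num
  rw [h3]
  apply mul_le_mul_of_nonneg_left _ h2.le
  linarith

/-- the spectrum lies in the prescribed set -/
lemma f_spec (S : ℕ) (n : ℤ) (hn : co n (f S) ≠ 0) :
    ∃ k : ℕ, (2 : ℝ) ^ k - r k ≤ n ∧ (n : ℝ) ≤ 2 ^ k + r k := by
  induction S with
  | zero => exact absurd (map_zero _) hn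
  | succ S ih =>
    rw [f_succ, map_add] at hn
    by_cases h1 : co n (f S) = 0
    · rw [h1, zero_add] at hn
      have h2 : n ∈ Wd S := by
        by_contra h3
        exact hn (co_eq_zero (g_mem S) h3)
      obtain ⟨k, hk, h3, h4⟩ := h2
      have hk' := hk
      rw [B, Finset.mem_Ico] at hk'
      have h5 : Q84.BlockSeq.S k = S := by
        apply S_eq hk'.1
        rw [lam_succ]
        omega
      have h6 : (2 * D S : ℝ) ≤ r k := by
        refine le_trans ?_ (r_ge k)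
        rw [h5, le_div_iff₀ (by positivity)]
        have := D_le S
        have h7 : (2 : ℝ) ^ 12 * D S ≤ 2 ^ (lam S) := by exact_mod_cast this
        linarith
      refine ⟨k, ?_, ?_⟩
      · have h8 : ((2 ^ k - 2 * D S : ℤ) : ℝ) ≤ n := by exact_mod_cast h3
        push_cast at h8
        linarith
      · have h8 : (n : ℝ) ≤ ((2 ^ k + 2 * D S : ℤ) : ℝ) := by exact_mod_cast h4
        push_cast at h8
        linarith
    · exact ih h1

end Q84.BlockCx
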