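import Mathlib

/-! The sets `K_N` of points whose `N`-adic orbit stays away from the integers. -/

set_option autoImplicit false

namespace Q84.HSet

open Filter Topology

/-- distance to the nearest integer -/
noncomputable def dz (y : ℝ) : ℝ := |y - round y|

lemma dz_eq (y : ℝ) : dz y = ‖(y : UnitAddCircle)‖ := (UnitAddCircle.norm_eq).symm

lemma dz_cont : Continuous dz := by
  have : dz = fun y : ℝ => ‖(y : UnitAddCircle)‖ := funext dz_eq
  rw [this]
  exact (AddCircle.continuous_mk' 1).norm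

lemma dz_add_int (y : ℝ) (n : ℤ) : dz (y + n) = dz y := by
  unfold dz
  rw [round_add_intCast]
  push_cast
  congr 1
  ring

/-- `dz y < ρ` in terms of integers -/
lemma exists_int_of_lt {y ρ : ℝ} (h : dz y < ρ) : ∃ n : ℤ, |y - n| < ρ := ⟨round y, h⟩

lemma le_of_forall_int {y ρ : ℝ} (h : ∀ n : ℤ, ρ ≤ |y - n|) : ρ ≤ dz y := h (round y)

lemma dz_le (y : ℝ) (n : ℤ) : dz y ≤ |y - n| := round_le y n

/-- the closed set -/
def K (N : ℕ) : Set ℝ := {x | x ∈ Set.Icc (0 : ℝ) 1 ∧ ∀ j : ℕ, 1 / (4 * (N : ℝ)) ≤ dz ((N : ℝ) ^ j * x)}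

lemma K_closed (N : ℕ) : IsClosed (K N) := by
  unfold K
  rw [Set.ofPred_and]
  refine isClosed_Icc.inter ?_
  simp only [Set.ofPred_forall]
  refine isClosed_iInter fun j => ?_
  exact isClosed_le continuous_const (dz_cont.comp (continuous_const.mul continuous_id))

/-- The counting step: among `N > 2 m` consecutive intervals of length `1/(2N)` one avoids the
neighbourhoods of `m` shifted copies of the integers. -/
lemma exists_good {N m : ℕ} (hN : 8 ≤ N) (hm : 2 * m < N) (s : Fin m → ℝ) (C : ℝ) :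
    ∃ k : ℕ, k < N ∧ ∀ y : ℝ, C + k / (2 * N) ≤ y → y ≤ C + (k + 1) / (2 * N) →
      ∀ i, 1 / (4 * (N : ℝ)) ≤ dz (y + s i) := by
  by_contra hcon
  push Not at hcon
  have hNr : (8 : ℝ) ≤ N := by exact_mod_cast hN
  have hN0 : (0 : ℝ) < N := by linarith
  -- choose a killer for each k
  have hch : ∀ k : Fin N, ∃ i : Fin m, ∃ y : ℝ, C + (k : ℕ) / (2 * N) ≤ y ∧
      y ≤ C + ((k : ℕ) + 1) / (2 * N) ∧ dz (y + s i) < 1 / (4 * (N : ℝ)) := by
    intro k
    obtain ⟨y, h1, h2, i, h3⟩ := hcon k k.2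
    exact ⟨i, y, h1, h2, h3⟩
  choose κ y hy1 hy2 hy3 using hch
  have hpig := Finset.exists_lt_card_fiber_of_mul_lt_card_of_maps_to (s := (Finset.univ : Finset (Fin N)))
    (t := (Finset.univ : Finset (Fin m))) (f := κ) (n := 2) (fun _ _ => Finset.mem_univ _)
    (by simp; omega)
  obtain ⟨i, _, hi⟩ := hpig
  -- pairwise close
  have hclose : ∀ k k' : Fin N, κ k = i → κ k' = i → (k' : ℕ) < k + 2 := by
    intro k k' hk hk'
    by_contra hge
    push Not at hge
    have h1 := hy1 k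
    have h2 := hy2 k
    have h1' := hy1 k'
    have h2' := hy2 k'
    obtain ⟨n, hn⟩ := exists_int_of_lt (hy3 k)
    obtain ⟨n', hn'⟩ := exists_int_of_lt (hy3 k')
    rw [hk] at hn
    rw [hk'] at hn'
    rw [abs_lt] at hn hn'
    have hρ : 1 / (4 * (N : ℝ)) ≤ 1 / 32 := by
      apply one_div_le_one_div_of_le <;> linarith
    have hk'N : ((k' : ℕ) : ℝ) + 1 ≤ N := by exact_mod_cast k'.2
    have hge' : ((k : ℕ) : ℝ) + 2 ≤ (k' : ℕ) := by exact_mod_cast hge
    have hk0 : (0 : ℝ) ≤ (k : ℕ) := by positivity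
    have e1 : ((k' : ℕ) + 1 : ℝ) / (2 * N) ≤ 1 / 2 := by
      rw [div_le_iff₀ (by linarith)]; linarith
    have e2 : (0 : ℝ) ≤ ((k : ℕ) : ℝ) / (2 * N) := by positivity
    have e3 : ((k : ℕ) + 1 : ℝ) / (2 * N) + 1 / (2 * N) ≤ (k' : ℕ) / (2 * N) := by
      rw [← add_div]
      apply div_le_div_of_nonneg_right _ (by linarith)
      linarith
    have e4 : 1 / (2 * (N : ℝ)) = 2 * (1 / (4 * N)) := by field_simp; norm_num
    -- y k' - y k in [2ρ, 1/2]
    have d1 : 2 * (1 / (4 * (N : ℝ))) ≤ y k' - y k := by linarith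
    have d2 : y k' - y k ≤ 1 / 2 := by linarith
    have hnn : (n' : ℝ) - n < 1 := by linarith
    have hnn' : -1 < (n' : ℝ) - n := by linarith
    have : n' = n := by
      have a1 : n' - n < 1 := by exact_mod_cast hnn
      have a2 : -1 < n' - n := by exact_mod_cast hnn'
      omega
    rw [this] at hn'
    linarith
  -- three elements pairwise close: impossible
  have hcard : (Finset.univ.filter fun k : Fin N => κ k = i).card ≤ 2 := by
    set T := Finset.univ.filter fun k : Fin N => κ k = i with hT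
    have hTne : T.Nonempty := Finset.card_pos.1 (by omega)
    set k0 := T.min' hTne with hk0
    have hk0T : κ k0 = i := (Finset.mem_filter.1 (T.min'_mem hTne)).2
    have himg : T.image (fun k : Fin N => (k : ℕ)) ⊆ Finset.Ico (k0 : ℕ) (k0 + 2) := by
      intro a ha
      rw [Finset.mem_image] at ha
      obtain ⟨k, hk, rfl⟩ := ha
      have hk1 : κ k = i := by
        rw [hT, Finset.mem_filter] at hk
        exact hk.2
      rw [Finset.mem_Ico]
      exact ⟨T.min'_le k hk, hclose k0 k hk0T hk1⟩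
    have h1 := Finset.card_le_card himg
    rw [Finset.card_image_of_injective _ Fin.val_injective, Nat.card_Ico] at h1
    omega
  omega

/-- Every finite pattern has a small affine copy in `K N`, `N` large. -/
theorem pattern {N m : ℕ} (hN : 8 ≤ N) (hm : 2 * m < N) (x : Fin m → ℝ) (hx : ∀ i, |x i| ≤ 1 / 4) :
    ∃ a : ℝ, ∀ i, a + x i ∈ K N := by
  have hNr : (8 : ℝ) ≤ N := by exact_mod_cast hN
  have hN0 : (0 : ℝ) < N := by linarith
  choose κ hκ1 hκ2 using fun (s : Fin m → ℝ) (C : ℝ) => exists_good hN hm s C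
  -- left endpoints
  let c : ℕ → ℝ := fun j => Nat.rec (1 / 4 : ℝ) (fun j cj =>
    cj + (κ (fun i => (N : ℝ) ^ j * x i) ((N : ℝ) ^ j * cj) : ℝ) / (2 * N) / (N : ℝ) ^ j) j
  have hc0 : c 0 = 1 / 4 := rfl
  have hcs : ∀ j, c (j + 1) = c j +
      (κ (fun i => (N : ℝ) ^ j * x i) ((N : ℝ) ^ j * c j) : ℝ) / (2 * N) / (N : ℝ) ^ j :=
    fun j => rfl
  have hmono : ∀ j, c j ≤ c (j + 1) := by
    intro j; rw [hcs]
    have : (0 : ℝ) ≤ (κ (fun i => (N : ℝ) ^ j * x i) ((N : ℝ) ^ j * c j) : ℝ) / (2 * N) /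
      (N : ℝ) ^ j := by positivity
    linarith
  -- right endpoints decrease
  have hright : ∀ j, c (j + 1) + 1 / 2 / (N : ℝ) ^ (j + 1) ≤ c j + 1 / 2 / (N : ℝ) ^ j := by
    intro j
    rw [hcs]
    have h1 : ((κ (fun i => (N : ℝ) ^ j * x i) ((N : ℝ) ^ j * c j) : ℝ)) + 1 ≤ N := by
      exact_mod_cast hκ1 _ _
    have h2 : (0 : ℝ) < (N : ℝ) ^ j := by positivity
    have h3 : 1 / 2 / (N : ℝ) ^ (j + 1) = 1 / (2 * N) / (N : ℝ) ^ j := by
      rw [pow_succ]; field_simp
    rw [h3, add_assoc, ← add_div, ← add_div]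
    have h4 : ((κ (fun i => (N : ℝ) ^ j * x i) ((N : ℝ) ^ j * c j) : ℝ) + 1) / (2 * N) ≤ 1 / 2 := by
      rw [div_le_iff₀ (by linarith)]; linarith
    have := div_le_div_of_nonneg_right h4 h2.le
    linarith
  have hcmono : Monotone c := monotone_nat_of_le_succ hmono
  have hanti : Antitone fun j => c j + 1 / 2 / (N : ℝ) ^ j := antitone_nat_of_succ_le hright
  have hle : ∀ i j, c i ≤ c j + 1 / 2 / (N : ℝ) ^ j := by
    intro i j
    rcases le_total i j with h | h
    · refine (hcmono h).trans ?_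
      have : (0 : ℝ) < 1 / 2 / (N : ℝ) ^ j := by positivity
      linarith
    · have h1 := hanti h
      have : (0 : ℝ) < 1 / 2 / (N : ℝ) ^ i := by positivity
      simp only at h1
      linarith
  have hbdd : BddAbove (Set.range c) := ⟨c 0 + 1 / 2 / (N : ℝ) ^ 0, by
    rintro _ ⟨i, rfl⟩; exact hle i 0⟩
  set a := ⨆ j, c j with ha
  have ha1 : ∀ j, c j ≤ a := fun j => le_ciSup hbdd j
  have ha2 : ∀ j, a ≤ c j + 1 / 2 / (N : ℝ) ^ j := fun j => ciSup_le fun i => hle i j
  refine ⟨a, fun i => ⟨?_, fun j => ?_⟩⟩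
  · have h1 := ha1 0
    have h2 := ha2 0
    rw [hc0] at h1 h2
    have h3 := abs_le.1 (hx i)
    norm_num at h2
    constructor <;> linarith [h3.1, h3.2]
  · have h1 := ha1 (j + 1)
    have h2 := ha2 (j + 1)
    rw [hcs] at h1 h2
    have hp : (0 : ℝ) < (N : ℝ) ^ j := by positivity
    set κj : ℝ := (κ (fun i => (N : ℝ) ^ j * x i) ((N : ℝ) ^ j * c j) : ℝ) with hκj
    have h3 := hκ2 (fun i => (N : ℝ) ^ j * x i) ((N : ℝ) ^ j * c j) ((N : ℝ) ^ j * a) ?_ ?_ i
    · rw [mul_add]; exact h3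
    · have := mul_le_mul_of_nonneg_left h1 hp.le
      rw [mul_add, mul_div_cancel₀ _ hp.ne'] at this
      exact this
    · have := mul_le_mul_of_nonneg_left h2 hp.le
      have e : (N : ℝ) ^ j * (c j + κj / (2 * N) / (N : ℝ) ^ j + 1 / 2 / (N : ℝ) ^ (j + 1)) =
          (N : ℝ) ^ j * c j + (κj + 1) / (2 * N) := by
        rw [pow_succ]; field_simp; ring
      rw [e] at this
      exact this


/-- distance to the integers in terms of the fractional part -/
lemma dz_ge_iff {y ρ : ℝ} (hρ : 0 < ρ) : ρ ≤ dz y ↔ ρ ≤ Int.fract y ∧ Int.fract y ≤ 1 - ρ := by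
  constructor
  · intro h
    constructor
    · have := h.trans (dz_le y ⌊y⌋)
      rwa [Int.self_sub_floor, abs_of_nonneg (Int.fract_nonneg y)] at this
    · have := h.trans (dz_le y (⌊y⌋ + 1))
      have e : y - ((⌊y⌋ + 1 : ℤ) : ℝ) = Int.fract y - 1 := by
        push_cast; rw [← Int.self_sub_floor]; ring
      rw [e, abs_of_nonpos (by linarith [Int.fract_lt_one y])] at this
      linarith
  · rintro ⟨h1, h2⟩
    apply le_of_forall_int
    intro n
    rcases le_or_gt n ⌊y⌋ with h | h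
    · have h3 : (n : ℝ) ≤ ⌊y⌋ := by exact_mod_cast h
      rw [← Int.self_sub_floor] at h1
      exact le_trans (by linarith) (le_abs_self _)
    · have h3 : (⌊y⌋ : ℝ) + 1 ≤ n := by exact_mod_cast h
      rw [← Int.self_sub_floor] at h2
      refine le_trans ?_ (neg_le_abs _)
      linarith

/-- In `K N` (with `4 ∣ N`) the inequalities are strict. -/
lemma strict {q : ℕ} (hq : 1 ≤ q) {x : ℝ} (hx : x ∈ K (4 * q)) (j : ℕ) :
    Int.fract (((4 * q : ℕ) : ℝ) ^ j * x) < 1 - 1 / (4 * ((4 * q : ℕ) : ℝ)) := by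
  have hN0 : (0 : ℝ) < ((4 * q : ℕ) : ℝ) := by positivity
  set N : ℝ := ((4 * q : ℕ) : ℝ) with hN
  have hρ : 0 < 1 / (4 * N) := by positivity
  have h1 := (dz_ge_iff hρ).1 (hx.2 j)
  refine lt_of_le_of_ne h1.2 fun heq => ?_
  have h2 := hx.2 (j + 2)
  rw [← hN] at h2
  -- N^(j+2) x is an integer
  have h3 : N ^ (j + 2) * x = ((N : ℝ) ^ 2 * ⌊N ^ j * x⌋ + N ^ 2 - q) := by
    have h4 : N ^ j * x = ⌊N ^ j * x⌋ + (1 - 1 / (4 * N)) := by
      rw [← heq, Int.floor_add_fract]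
    have h5 : N ^ (j + 2) * x = N ^ 2 * (N ^ j * x) := by ring
    have h6 : (N : ℝ) ^ 2 * (1 / (4 * N)) = q := by
      rw [hN]; push_cast; field_simp
    rw [h5]
    conv_lhs => rw [h4]
    linear_combination h6 * (-1)
  have h7 : dz (N ^ (j + 2) * x) = 0 := by
    have h8 : N ^ (j + 2) * x = 0 + (((4 * q : ℕ) : ℤ) ^ 2 * ⌊N ^ j * x⌋ + ((4 * q : ℕ) : ℤ) ^ 2 - q : ℤ) := by
      rw [h3, hN]; push_cast; ring
    rw [h8, dz_add_int]
    simp [dz]
  rw [h7] at h2
  linarith

/-- Replacing the tail of an element by a fixed point stays in the set. -/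
lemma modify {q : ℕ} (hq : 2 ≤ q) {x : ℝ} (hx : x ∈ K (4 * q)) (τ : ℝ) (c : ℤ)
    (hτ : ((4 * q : ℕ) : ℝ) * τ = c + τ) (h1 : 1 / 4 ≤ τ) (h2 : τ ≤ 3 / 4) (J : ℕ) :
    (⌊((4 * q : ℕ) : ℝ) ^ J * x⌋ + τ) / ((4 * q : ℕ) : ℝ) ^ J ∈ K (4 * q) := by
  have hN0 : (0 : ℝ) < ((4 * q : ℕ) : ℝ) := by positivity
  have hqr : (2 : ℝ) ≤ q := by exact_mod_cast hq
  set N : ℝ := ((4 * q : ℕ) : ℝ) with hN
  have hN4 : N = 4 * q := by rw [hN]; push_cast; ring
  have hN8 : 8 ≤ N := by rw [hN4]; linarith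
  have hρ : 0 < 1 / (4 * N) := by positivity
  have hρ1 : 1 / (4 * N) ≤ 1 / 4 := by
    apply one_div_le_one_div_of_le <;> linarith
  have hp : ∀ j : ℕ, (0 : ℝ) < N ^ j := fun j => by positivity
  set y := (⌊N ^ J * x⌋ + τ) / N ^ J with hy
  have hJ : N ^ J * y = ⌊N ^ J * x⌋ + τ := by
    rw [hy, mul_div_cancel₀ _ (hp J).ne']
  -- tail constraints
  have htail : ∀ i : ℕ, ∃ n : ℤ, N ^ (J + i) * y = n + τ := by
    intro i
    induction i with
    | zero => exact ⟨_, hJ⟩
    | succ i ih =>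
      obtain ⟨n, hn⟩ := ih
      refine ⟨(4 * q : ℕ) * n + c, ?_⟩
      have e : N ^ (J + (i + 1)) * y = N * (N ^ (J + i) * y) := by ring
      rw [e, hn, mul_add, hτ, hN]
      push_cast
      ring
  have hτdz : ∀ n : ℤ, 1 / (4 * N) ≤ dz (n + τ) := by
    intro n
    rw [add_comm, dz_add_int, dz_ge_iff hρ]
    have : Int.fract τ = τ := Int.fract_eq_self.2 ⟨by linarith, by linarith⟩
    rw [this]
    constructor <;> linarith
  have hxI := hx.1
  -- head constraints
  have hhead : ∀ j i : ℕ, j + (i + 1) = J → 1 / (4 * N) ≤ dz (N ^ j * y) := by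
    intro j i hji
    have hw := (dz_ge_iff hρ).1 (hx.2 j)
    rw [← hN] at hw
    have hw2 := strict (by omega) hx j
    rw [← hN] at hw2
    set w := Int.fract (N ^ j * x) with hwdef
    have hM : N ^ J = N ^ j * N ^ (i + 1) := by rw [← hji, pow_add]
    have hfl : ⌊N ^ J * x⌋ = (4 * q : ℕ) ^ (i + 1) * ⌊N ^ j * x⌋ + ⌊N ^ (i + 1) * w⌋ := by
      have e : N ^ J * x = N ^ (i + 1) * w + (((4 * q : ℕ) ^ (i + 1) * ⌊N ^ j * x⌋ : ℤ) : ℝ) := by
        rw [hM, hwdef, ← Int.self_sub_floor]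
        push_cast
        rw [← hN4]
        ring
      rw [e, Int.floor_add_intCast]
      push_cast
      ring
    have hyj : N ^ j * y = (⌊N ^ (i + 1) * w⌋ + τ) / N ^ (i + 1) + ⌊N ^ j * x⌋ := by
      have e : N ^ j * y = (N ^ J * y) / N ^ (i + 1) := by
        rw [hM]; field_simp
      rw [e, hJ, hfl, eq_comm]
      push_cast
      rw [← hN4]
      field_simp
      ring
    rw [hyj, dz_add_int, dz_ge_iff hρ]
    have hfl0 : 0 ≤ ⌊N ^ (i + 1) * w⌋ := Int.floor_nonneg.2 (by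
      have := hp (i + 1)
      have := Int.fract_nonneg (N ^ j * x)
      positivity)
    have hfl0' : (0 : ℝ) ≤ ⌊N ^ (i + 1) * w⌋ := by exact_mod_cast hfl0
    have hlow : 1 / (4 * N) ≤ (⌊N ^ (i + 1) * w⌋ + τ) / N ^ (i + 1) := by
      rw [le_div_iff₀ (hp _)]
      cases i with
      | zero =>
        have : 1 / (4 * N) * N ^ (0 + 1) = 1 / 4 := by field_simp; norm_num
        rw [this]
        linarith
      | succ i =>
        have e : 1 / (4 * N) * N ^ (i + 1 + 1) = (((4 * q : ℕ) ^ i * q : ℤ) : ℝ) := by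
          push_cast
          rw [← hN4, pow_succ, pow_succ]
          field_simp
          rw [hN4]
        have h3 : (((4 * q : ℕ) ^ i * q : ℤ) : ℝ) ≤ N ^ (i + 1 + 1) * w := by
          rw [← e, mul_comm]
          exact mul_le_mul_of_nonneg_left hw.1 (hp _).le
        have h4 := Int.le_floor.2 h3
        have h5 : (((4 * q : ℕ) ^ i * q : ℤ) : ℝ) ≤ (⌊N ^ (i + 1 + 1) * w⌋ : ℝ) := by
          exact_mod_cast h4
        rw [e]
        linarith
    have hupp : (⌊N ^ (i + 1) * w⌋ + τ) / N ^ (i + 1) ≤ 1 - 1 / (4 * N) := by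
      rw [div_le_iff₀ (hp _)]
      cases i with
      | zero =>
        have e : (1 - 1 / (4 * N)) * N ^ (0 + 1) = N - 1 / 4 := by field_simp; ring
        rw [e]
        have h3 : N ^ (0 + 1) * w < ((4 * q : ℕ) : ℤ) := by
          have := Int.fract_lt_one (N ^ j * x)
          push_cast
          rw [← hN4]
          simp only [pow_one]
          calc N * w < N * 1 := mul_lt_mul_of_pos_left this hN0
            _ = N := mul_one _
        have h4 := Int.floor_lt.2 h3
        have h5' : (⌊N ^ (0 + 1) * w⌋ : ℝ) + 1 ≤ (((4 * q : ℕ) : ℤ) : ℝ) := by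
          exact_mod_cast h4
        have h5 : (⌊N ^ (0 + 1) * w⌋ : ℝ) + 1 ≤ N := by
          rw [Int.cast_natCast] at h5'
          exact h5'
        linarith
      | succ i =>
        have e : 1 / (4 * N) * N ^ (i + 1 + 1) = (((4 * q : ℕ) ^ i * q : ℤ) : ℝ) := by
          push_cast
          rw [← hN4, pow_succ, pow_succ]
          field_simp
          rw [hN4]
        have e2 : (1 - 1 / (4 * N)) * N ^ (i + 1 + 1) =
            (((4 * q : ℕ) ^ (i + 2) - (4 * q : ℕ) ^ i * q : ℤ) : ℝ) := by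
          rw [sub_mul, one_mul, e]
          push_cast
          rw [← hN4]
        have h3 : N ^ (i + 1 + 1) * w < (((4 * q : ℕ) ^ (i + 2) - (4 * q : ℕ) ^ i * q : ℤ) : ℝ) := by
          rw [← e2, mul_comm]
          exact mul_lt_mul_of_pos_right hw2 (hp _)
        have h4 := Int.floor_lt.2 h3
        have h5 : (⌊N ^ (i + 1 + 1) * w⌋ : ℝ) + 1 ≤
            (((4 * q : ℕ) ^ (i + 2) - (4 * q : ℕ) ^ i * q : ℤ) : ℝ) := by
          exact_mod_cast h4
        rw [e2]
        linarith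
    have hfr : Int.fract ((⌊N ^ (i + 1) * w⌋ + τ) / N ^ (i + 1)) =
        (⌊N ^ (i + 1) * w⌋ + τ) / N ^ (i + 1) :=
      Int.fract_eq_self.2 ⟨by linarith, by linarith⟩
    rw [hfr]
    exact ⟨hlow, hupp⟩
  refine ⟨?_, fun j => ?_⟩
  · -- y in [0,1]
    cases J with
    | zero =>
      have hx01 : ⌊x⌋ = 0 := by
        have h3 := strict (by omega) hx 0
        have h4 := (dz_ge_iff hρ).1 (hx.2 0)
        rw [pow_zero, one_mul] at h3 h4
        have h5 : x < 1 := by
          rcases lt_or_eq_of_le hxI.2 with h | h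
          · exact h
          · rw [h, Int.fract_one] at h4
            linarith [h4.1]
        exact Int.floor_eq_zero_iff.2 ⟨hxI.1, h5⟩
      rw [hy, pow_zero, one_mul, hx01]
      constructor <;> simp <;> linarith
    | succ i =>
      have hw := (dz_ge_iff hρ).1 (hx.2 0)
      have h5 : x < 1 := by
        rcases lt_or_eq_of_le hxI.2 with h | h
        · exact h
        · rw [h, pow_zero, one_mul, Int.fract_one] at hw
          linarith [hw.1]
      have hfl0 : 0 ≤ ⌊N ^ (i + 1) * x⌋ := Int.floor_nonneg.2 (mul_nonneg (hp _).le hxI.1)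
      have hfl0' : (0 : ℝ) ≤ ⌊N ^ (i + 1) * x⌋ := by exact_mod_cast hfl0
      have h3 : N ^ (i + 1) * x < (((4 * q : ℕ) ^ (i + 1) : ℤ) : ℝ) := by
        push_cast
        rw [← hN4]
        calc N ^ (i + 1) * x < N ^ (i + 1) * 1 := mul_lt_mul_of_pos_left h5 (hp _)
          _ = N ^ (i + 1) := mul_one _
      have h4 := Int.floor_lt.2 h3
      have h6 : (⌊N ^ (i + 1) * x⌋ : ℝ) + 1 ≤ N ^ (i + 1) := by
        have : (⌊N ^ (i + 1) * x⌋ : ℝ) + 1 ≤ (((4 * q : ℕ) ^ (i + 1) : ℤ) : ℝ) := by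
          exact_mod_cast h4
        push_cast at this
        rwa [← hN4] at this
      constructor
      · rw [hy]
        apply div_nonneg _ (hp _).le
        linarith
      · rw [hy, div_le_one (hp _)]
        linarith
  · rw [← hN]
    rcases lt_or_ge j J with h | h
    · exact hhead j (J - j - 1) (by omega)
    · obtain ⟨i, rfl⟩ := Nat.exists_eq_add_of_le h
      obtain ⟨n, hn⟩ := htail i
      rw [hn]
      exact hτdz n

end Q84.HSet
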