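import Mathlib
import Pool.Agent.Q84.HSet

set_option autoImplicit false

namespace Q84.HSet

open Filter Topology

lemma near {q : ℕ} (hq : 2 ≤ q) {x : ℝ} (hx : x ∈ K (4 * q)) {ε : ℝ} (hε : 0 < ε) :
    ∃ y ∈ K (4 * q), y ≠ x ∧ |y - x| < ε := by
  have hqr : (2 : ℝ) ≤ q := by exact_mod_cast hq
  set N : ℝ := ((4 * q : ℕ) : ℝ) with hN
  have hN4 : N = 4 * q := by rw [hN]; push_cast; ring
  have hN8 : 8 ≤ N := by rw [hN4]; linarith
  have hN1 : (0 : ℝ) < 4 * q - 1 := by linarith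
  obtain ⟨J, hJ⟩ := exists_pow_lt_of_lt_one hε (by norm_num : (1 / 8 : ℝ) < 1)
  have hp : (0 : ℝ) < N ^ J := by positivity
  have hsmall : 1 / N ^ J < ε := by
    refine lt_of_le_of_lt ?_ hJ
    rw [one_div_pow]
    apply one_div_le_one_div_of_le (by positivity)
    exact pow_le_pow_left₀ (by norm_num) hN8 J
  set τ1 : ℝ := 2 * q / (4 * q - 1) with hτ1
  set τ2 : ℝ := (2 * q - 1) / (4 * q - 1) with hτ2
  have t1 := modify hq hx τ1 (2 * q) (by rw [hτ1]; push_cast; field_simp; ring)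
    (by rw [hτ1, le_div_iff₀ hN1]; linarith) (by rw [hτ1, div_le_iff₀ hN1]; linarith) J
  have t2 := modify hq hx τ2 (2 * q - 1) (by rw [hτ2]; push_cast; field_simp; ring)
    (by rw [hτ2, le_div_iff₀ hN1]; linarith) (by rw [hτ2, div_le_iff₀ hN1]; linarith) J
  rw [← hN] at t1 t2
  have hclose : ∀ τ : ℝ, 0 ≤ τ → τ ≤ 1 → |(⌊N ^ J * x⌋ + τ) / N ^ J - x| < ε := by
    intro τ h0 h1
    refine lt_of_le_of_lt ?_ hsmall
    have e : (⌊N ^ J * x⌋ + τ) / N ^ J - x = (τ - Int.fract (N ^ J * x)) / N ^ J := by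
      rw [← Int.self_sub_floor]; field_simp; ring
    rw [e, abs_div, abs_of_pos hp]
    apply div_le_div_of_nonneg_right _ hp.le
    have := Int.fract_nonneg (N ^ J * x)
    have := Int.fract_lt_one (N ^ J * x)
    rw [abs_le]
    constructor <;> linarith
  have hτ12 : τ1 ≠ τ2 := by
    rw [hτ1, hτ2]
    intro h
    rw [div_left_inj' hN1.ne'] at h
    linarith
  have hτ1a : 0 ≤ τ1 := by rw [hτ1]; positivity
  have hτ1b : τ1 ≤ 1 := by rw [hτ1, div_le_one hN1]; linarith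
  have hτ2a : 0 ≤ τ2 := by rw [hτ2]; apply div_nonneg <;> linarith
  have hτ2b : τ2 ≤ 1 := by rw [hτ2, div_le_one hN1]; linarith
  by_cases h : (⌊N ^ J * x⌋ + τ1) / N ^ J = x
  · refine ⟨_, t2, ?_, hclose τ2 hτ2a hτ2b⟩
    intro h2
    rw [← h2, div_left_inj' hp.ne'] at h
    apply hτ12
    have h3 : ((⌊N ^ J * ((⌊N ^ J * x⌋ + τ2) / N ^ J)⌋ : ℤ) : ℝ) = ⌊N ^ J * x⌋ := by
      rw [h2]
    rw [h3] at h
    linarith
  · exact ⟨_, t1, h, hclose τ1 hτ1a hτ1b⟩

/-- the perfect set -/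
def E : Set ℝ := {x | ∃ n : ℕ, x - 3 * n ∈ K (4 * (n + 2))}

lemma piece_sub {n : ℕ} {x : ℝ} (h : x - 3 * n ∈ K (4 * (n + 2))) :
    3 * (n : ℝ) ≤ x ∧ x ≤ 3 * n + 1 := by
  have := h.1
  constructor <;> linarith [this.1, this.2]

lemma E_closed : IsClosed E := by
  have h1 : E = ⋃ n : ℕ, {x : ℝ | x - 3 * n ∈ K (4 * (n + 2))} := by
    ext x; simp [E]
  rw [h1]
  apply LocallyFinite.isClosed_iUnion
  · intro x
    refine ⟨Metric.ball x 1, Metric.ball_mem_nhds x one_pos, ?_⟩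
    refine Set.Finite.subset (Set.finite_Iic ⌈|x| + 1⌉₊) ?_
    rintro n ⟨y, hy1, hy2⟩
    rw [Metric.mem_ball, Real.dist_eq, abs_lt] at hy2
    have h2 := piece_sub hy1
    have h3 := le_abs_self x
    rw [Set.mem_Iic]
    have h4 : (n : ℝ) ≤ |x| + 1 := by
      have : (0 : ℝ) ≤ n := Nat.cast_nonneg n
      linarith [h2.1, hy2.2]
    exact_mod_cast h4.trans (Nat.le_ceil _)
  · intro n
    exact (K_closed _).preimage (continuous_id.sub continuous_const)

lemma E_perfect : Perfect E := by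
  refine ⟨E_closed, ?_⟩
  rintro x ⟨n, hn⟩
  rw [accPt_iff_nhds]
  intro U hU
  obtain ⟨ε, hε, hball⟩ := Metric.mem_nhds_iff.1 hU
  obtain ⟨y, hy, hne, hlt⟩ := near (by omega) hn hε
  refine ⟨y + 3 * n, ⟨hball ?_, n, ?_⟩, ?_⟩
  · rw [Metric.mem_ball, Real.dist_eq]
    have : y + 3 * n - x = y - (x - 3 * n) := by ring
    rw [this]
    exact hlt
  · rw [add_sub_cancel_right]; exact hy
  · intro h
    apply hne
    rw [← h]; ring

/-- all finite patterns -/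
lemma E_pattern (F : Set ℝ) (hF : F.Finite) : ∃ a b : ℝ, b ≠ 0 ∧ (fun x => a + b * x) '' F ⊆ E := by
  obtain ⟨M, hM⟩ := hF.isBounded.exists_norm_le
  have := hF.to_subtype
  obtain ⟨m, ⟨e⟩⟩ := Finite.exists_equiv_fin F
  set b : ℝ := 1 / (4 * (|M| + 1)) with hb
  have hb0 : 0 < b := by positivity
  obtain ⟨a, ha⟩ := pattern (N := 4 * (m + 2)) (m := m) (by omega) (by omega)
    (fun i => b * (e.symm i : ℝ)) (by
      intro i
      rw [abs_mul, abs_of_pos hb0, hb]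
      have h1 := hM _ (e.symm i).2
      rw [Real.norm_eq_abs] at h1
      have h2 : |((e.symm i : F) : ℝ)| ≤ |M| + 1 := by
        have := le_abs_self M
        linarith
      calc 1 / (4 * (|M| + 1)) * |((e.symm i : F) : ℝ)| ≤ 1 / (4 * (|M| + 1)) * (|M| + 1) := by
            gcongr
        _ = 1 / 4 := by field_simp)
  refine ⟨a + 3 * m, b, hb0.ne', ?_⟩
  rintro _ ⟨x, hx, rfl⟩
  refine ⟨m, ?_⟩
  have h1 := ha (e ⟨x, hx⟩)
  simp only [Equiv.symm_apply_apply] at h1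
  have : a + 3 * (m : ℝ) + b * x - 3 * m = a + b * x := by ring
  simp only
  rw [this]
  exact h1

/-- pieces are separated -/
lemma piece_unique {n k : ℕ} {x : ℝ} (h : x - 3 * k ∈ K (4 * (k + 2)))
    (h1 : 3 * (n : ℝ) - 1 / 2 < x) (h2 : x < 3 * n + 3 / 2) : k = n := by
  have h3 := piece_sub h
  have h4 : (k : ℝ) < n + 1 := by linarith
  have h5 : (n : ℝ) < k + 1 := by linarith
  have h6 : k < n + 1 := by exact_mod_cast h4
  have h7 : n < k + 1 := by exact_mod_cast h5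
  omega

end Q84.HSet
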