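import Mathlib

/-!
# Khintchine's inequality (`L¹`–`L²`, constant `√3`) for complex coefficients, by induction
-/

set_option autoImplicit false

namespace Pool.Agent.Q84.Khin

open Finset

/-- the sign of a Boolean -/
noncomputable def sg (b : Bool) : ℂ := if b then 1 else -1

lemma sg_true : sg true = 1 := by simp [sg]
lemma sg_false : sg false = -1 := by simp [sg]
lemma norm_sg (b : Bool) : ‖sg b‖ = 1 := by cases b <;> simp [sg]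

/-- the average over all sign choices -/
noncomputable def avg (N : ℕ) (g : (Fin N → Bool) → ℝ) : ℝ := (2 ^ N : ℝ)⁻¹ * ∑ ε, g ε

lemma avg_succ (N : ℕ) (g : (Fin (N + 1) → Bool) → ℝ) :
    avg (N + 1) g = (avg N (fun ε => g (Fin.cons true ε)) + avg N (fun ε => g (Fin.cons false ε))) / 2 := by
  unfold avg
  rw [← Equiv.sum_comp (Fin.consEquiv (fun _ : Fin (N + 1) => Bool)), Fintype.sum_prod_type]
  simp only [Fintype.sum_bool]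
  rw [pow_succ]
  field_simp
  rfl

lemma avg_mono {N : ℕ} {g h : (Fin N → Bool) → ℝ} (hgh : ∀ ε, g ε ≤ h ε) : avg N g ≤ avg N h := by
  unfold avg
  gcongr with ε
  exact hgh ε

lemma avg_const (N : ℕ) (c : ℝ) : avg N (fun _ => c) = c := by
  unfold avg
  simp

lemma avg_add (N : ℕ) (g h : (Fin N → Bool) → ℝ) :
    avg N (fun ε => g ε + h ε) = avg N g + avg N h := by
  unfold avg
  rw [Finset.sum_add_distrib, mul_add]

lemma avg_mul_left (N : ℕ) (c : ℝ) (g : (Fin N → Bool) → ℝ) :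
    avg N (fun ε => c * g ε) = c * avg N g := by
  unfold avg
  rw [← Finset.mul_sum]
  ring

lemma avg_nonneg {N : ℕ} {g : (Fin N → Bool) → ℝ} (hg : ∀ ε, 0 ≤ g ε) : 0 ≤ avg N g := by
  unfold avg
  have := Finset.sum_nonneg (fun ε (_ : ε ∈ (Finset.univ : Finset (Fin N → Bool))) => hg ε)
  positivity

/-- the Rademacher sum -/
noncomputable def rad {N : ℕ} (a : Fin N → ℂ) (ε : Fin N → Bool) : ℂ := ∑ n, sg (ε n) * a n

lemma rad_cons {N : ℕ} (a : Fin (N + 1) → ℂ) (b : Bool) (ε : Fin N → Bool) :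
    rad a (Fin.cons b ε) = sg b * a 0 + rad (fun n => a n.succ) ε := by
  unfold rad
  rw [Fin.sum_univ_succ]
  simp

lemma par (s a : ℂ) : ‖1 * a + s‖ ^ 2 + ‖-1 * a + s‖ ^ 2 = 2 * (‖s‖ ^ 2 + ‖a‖ ^ 2) := by
  have h := parallelogram_law_with_norm ℝ s a
  have e1 : (1 : ℂ) * a + s = s + a := by ring
  have e2 : (-1 : ℂ) * a + s = s - a := by ring
  rw [e1, e2]
  nlinarith [h]

lemma second (N : ℕ) (a : Fin N → ℂ) : avg N (fun ε => ‖rad a ε‖ ^ 2) = ∑ n, ‖a n‖ ^ 2 := by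
  induction N with
  | zero => simp [avg, rad]
  | succ N ih =>
    rw [avg_succ]
    simp only [rad_cons, sg_true, sg_false]
    rw [← avg_add]
    simp only [par]
    rw [avg_mul_left, avg_add, avg_const, ih, Fin.sum_univ_succ]
    ring

lemma four_le (s a : ℂ) : ‖1 * a + s‖ ^ 4 + ‖-1 * a + s‖ ^ 4 ≤
    2 * (‖s‖ ^ 4 + 6 * ‖a‖ ^ 2 * ‖s‖ ^ 2 + ‖a‖ ^ 4) := by
  have h := par s a
  have h1 : ‖1 * a + s‖ ≤ ‖a‖ + ‖s‖ := by
    simpa using norm_add_le a s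
  have h2 : ‖-1 * a + s‖ ≤ ‖a‖ + ‖s‖ := by
    have := norm_add_le (-a) s
    rw [norm_neg] at this
    simpa using this
  set p := ‖1 * a + s‖ with hp
  set q := ‖-1 * a + s‖ with hq
  have hp0 : 0 ≤ p := norm_nonneg _
  have hq0 : 0 ≤ q := norm_nonneg _
  have ha0 : 0 ≤ ‖a‖ := norm_nonneg _
  have hs0 : 0 ≤ ‖s‖ := norm_nonneg _
  have hp2 : p ^ 2 ≤ (‖a‖ + ‖s‖) ^ 2 := pow_le_pow_left₀ hp0 h1 2
  have hq2 : q ^ 2 ≤ (‖a‖ + ‖s‖) ^ 2 := pow_le_pow_left₀ hq0 h2 2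
  -- with P + Q = 2(s²+a²), P, Q ≤ (a+s)²: P² + Q² ≤ ...
  have key : (p ^ 2) ^ 2 + (q ^ 2) ^ 2 ≤ (‖a‖ + ‖s‖) ^ 4 + ((‖a‖ - ‖s‖) ^ 2) ^ 2 := by
    have hQ : q ^ 2 = 2 * (‖s‖ ^ 2 + ‖a‖ ^ 2) - p ^ 2 := by linarith
    have h3 : (‖a‖ - ‖s‖) ^ 2 ≤ p ^ 2 := by nlinarith
    rw [hQ]
    nlinarith [mul_nonneg (sub_nonneg.mpr hp2) (sub_nonneg.mpr h3)]
  calc p ^ 4 + q ^ 4 = (p ^ 2) ^ 2 + (q ^ 2) ^ 2 := by ring
    _ ≤ (‖a‖ + ‖s‖) ^ 4 + ((‖a‖ - ‖s‖) ^ 2) ^ 2 := key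
    _ = 2 * (‖s‖ ^ 4 + 6 * ‖a‖ ^ 2 * ‖s‖ ^ 2 + ‖a‖ ^ 4) := by ring

lemma fourth (N : ℕ) (a : Fin N → ℂ) :
    avg N (fun ε => ‖rad a ε‖ ^ 4) ≤ 3 * (∑ n, ‖a n‖ ^ 2) ^ 2 := by
  induction N with
  | zero => simp [avg, rad]
  | succ N ih =>
    rw [avg_succ]
    simp only [rad_cons, sg_true, sg_false]
    rw [← avg_add]
    set b : Fin N → ℂ := fun n => a n.succ with hb
    have h1 : avg N (fun ε => ‖1 * a 0 + rad b ε‖ ^ 4 + ‖-1 * a 0 + rad b ε‖ ^ 4) ≤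
        avg N (fun ε => 2 * (‖rad b ε‖ ^ 4 + 6 * ‖a 0‖ ^ 2 * ‖rad b ε‖ ^ 2 + ‖a 0‖ ^ 4)) :=
      avg_mono fun ε => four_le _ _
    have h2 : avg N (fun ε => 2 * (‖rad b ε‖ ^ 4 + 6 * ‖a 0‖ ^ 2 * ‖rad b ε‖ ^ 2 + ‖a 0‖ ^ 4)) =
        2 * (avg N (fun ε => ‖rad b ε‖ ^ 4) + 6 * ‖a 0‖ ^ 2 * (∑ n, ‖b n‖ ^ 2) + ‖a 0‖ ^ 4) := by
      rw [avg_mul_left, avg_add, avg_add, avg_const, avg_mul_left, second]
    have h3 := ih b
    rw [Fin.sum_univ_succ]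
    set σ := ∑ n, ‖b n‖ ^ 2 with hσ
    have hσ0 : 0 ≤ σ := Finset.sum_nonneg fun n _ => by positivity
    nlinarith [sq_nonneg (‖a 0‖ ^ 2), mul_nonneg (sq_nonneg ‖a 0‖) hσ0]

/-- **Khintchine** -/
theorem khintchine (N : ℕ) (a : Fin N → ℂ) :
    Real.sqrt (∑ n, ‖a n‖ ^ 2) ≤ Real.sqrt 3 * avg N (fun ε => ‖rad a ε‖) := by
  set σ2 := ∑ n, ‖a n‖ ^ 2 with hσ2
  have hσ0 : 0 ≤ σ2 := Finset.sum_nonneg fun n _ => by positivity
  rcases hσ0.eq_or_lt with h0 | hpos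
  · rw [← h0, Real.sqrt_zero]
    have := avg_nonneg (fun ε : Fin N → Bool => norm_nonneg (rad a ε))
    positivity
  · set A := Real.sqrt (3 * σ2) with hA
    have hA0 : 0 < A := Real.sqrt_pos.mpr (by positivity)
    have hA2 : A ^ 2 = 3 * σ2 := Real.sq_sqrt (by positivity)
    have hpt : ∀ t : ℝ, 0 ≤ t → (3 / 2) / A * t ^ 2 + -(1 / (2 * A ^ 3)) * t ^ 4 ≤ t := by
      intro t ht
      have h1 : 0 ≤ t * (t - A) ^ 2 * (t + 2 * A) := by positivity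
      have h2 : (3 / 2) / A * t ^ 2 + -(1 / (2 * A ^ 3)) * t ^ 4 =
          t - t * (t - A) ^ 2 * (t + 2 * A) / (2 * A ^ 3) := by
        field_simp
        ring
      rw [h2]
      have : 0 ≤ t * (t - A) ^ 2 * (t + 2 * A) / (2 * A ^ 3) := by positivity
      linarith
    have h3 : avg N (fun ε => (3 / 2) / A * ‖rad a ε‖ ^ 2 + -(1 / (2 * A ^ 3)) * ‖rad a ε‖ ^ 4) ≤
        avg N (fun ε => ‖rad a ε‖) := avg_mono fun ε => hpt _ (norm_nonneg _)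
    rw [avg_add, avg_mul_left, avg_mul_left, second] at h3
    have h4 := fourth N a
    have h5 : (1 / (2 * A ^ 3)) * avg N (fun ε => ‖rad a ε‖ ^ 4) ≤
        (1 / (2 * A ^ 3)) * (3 * σ2 ^ 2) := by
      apply mul_le_mul_of_nonneg_left h4
      positivity
    have h6 : A / 3 ≤ avg N (fun ε => ‖rad a ε‖) := by
      have e : (3 / 2) / A * σ2 - (1 / (2 * A ^ 3)) * (3 * σ2 ^ 2) = A / 3 := by
        have hσ : σ2 = A ^ 2 / 3 := by linarith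
        rw [hσ]
        field_simp
        ring
      rw [← e]
      linarith
    have h7 : A = Real.sqrt 3 * Real.sqrt σ2 := Real.sqrt_mul (by norm_num) _
    have h8 : Real.sqrt 3 * Real.sqrt 3 = 3 := Real.mul_self_sqrt (by norm_num)
    have h9 : 0 ≤ Real.sqrt 3 := Real.sqrt_nonneg _
    calc Real.sqrt σ2 = Real.sqrt 3 * (A / 3) := by
          rw [h7]
          linear_combination (-(Real.sqrt σ2 / 3)) * h8
      _ ≤ Real.sqrt 3 * avg N (fun ε => ‖rad a ε‖) := mul_le_mul_of_nonneg_left h6 h9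

/-- `L¹ ≤ L²` -/
theorem l1_le_l2 (N : ℕ) (a : Fin N → ℂ) :
    avg N (fun ε => ‖rad a ε‖) ≤ Real.sqrt (∑ n, ‖a n‖ ^ 2) := by
  rw [← second]
  apply Real.le_sqrt_of_sq_le
  unfold avg
  have h1 := sq_sum_le_card_mul_sum_sq (s := (Finset.univ : Finset (Fin N → Bool)))
    (f := fun ε => ‖rad a ε‖)
  have hc : ((Finset.univ : Finset (Fin N → Bool)).card : ℝ) = 2 ^ N := by simp
  rw [hc] at h1
  rw [mul_pow]
  have h2 : (0 : ℝ) < 2 ^ N := by positivity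
  calc ((2 ^ N : ℝ)⁻¹) ^ 2 * (∑ ε, ‖rad a ε‖) ^ 2
      ≤ ((2 ^ N : ℝ)⁻¹) ^ 2 * (2 ^ N * ∑ ε, ‖rad a ε‖ ^ 2) := by gcongr
    _ = (2 ^ N : ℝ)⁻¹ * ∑ ε, ‖rad a ε‖ ^ 2 := by
      field_simp

end Pool.Agent.Q84.Khin
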