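import Mathlib
import Pool.Agent.Q138.Met.Floor

set_option autoImplicit false

/-! # The exceptional `α` for the integer parts `⌊α u_k⌋` and an arbitrary error function with
`N ^ θ` exceptional integers, and the countability of the number fields in `ℚ̄` -/

namespace Pool.Agent.Q84.LM1

open Filter Topology MeasureTheory Set
open scoped ENNReal NNReal
open Pool.Agent.Q138.Met (floor_null tendsto_of_summable)

/-- the errors `f ⌊α u_k⌋ x` are `o(π(x))` as `k → ∞`, uniformly for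
`u_k ^ C ≤ x ≤ exp ((log u_k) ^ (1 + κ))` -/
def Small (u : ℕ → ℝ) (C κ : ℝ) (g : ℕ → ℕ → ℝ) : Prop :=
  ∀ ε : ℝ, 0 < ε → ∀ᶠ k in atTop, ∀ x : ℕ, (u k) ^ C ≤ x →
    (x : ℝ) ≤ Real.exp ((Real.log (u k)) ^ (1 + κ)) →
      g k x ≤ ε * (Nat.primeCounting x : ℝ)

open Classical in
/-- the exceptional integers `n ≤ N` -/
noncomputable def badF (f : ℕ → ℕ → ℝ) (ε C0 κ : ℝ) (N : ℕ) : Finset ℕ :=
  (Finset.Icc 1 N).filter (fun n : ℕ =>
    ∃ x : ℕ, ((N : ℝ) ^ C0 ≤ x ∧ (x : ℝ) ≤ Real.exp ((Real.log N) ^ (1 + κ))) ∧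
      ε * (Nat.primeCounting x : ℝ) < f n x)

theorem null_gen {θ C C0 κ s : ℝ} (hθ : 0 ≤ θ) (hθs : θ < s) (hC0 : 0 ≤ C0) (hCC : C0 < C)
    (hκ : 0 < κ) (f : ℕ → ℕ → ℝ)
    (hall : ∀ ε : ℝ, 0 < ε → ∃ N₀ : ℕ, ∀ N : ℕ, N₀ ≤ N →
      ((badF f ε C0 κ N).card : ℝ) ≤ (N : ℝ) ^ θ)
    (u : ℕ → ℝ) (hu : ∀ k, 0 < u k) (hsum : Summable fun k => (u k) ^ (θ - s)) :
    μH[s] {α : ℝ | 0 < α ∧ ¬ Small u C κ (fun k x => f ⌊α * u k⌋₊ x)} = 0 := by
  classical
  have hut : Tendsto u atTop atTop := by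
    apply tendsto_of_summable (a := s - θ) (by linarith) u hu
    refine hsum.congr fun k => ?_
    congr 1
    ring
  have hsub : {α : ℝ | 0 < α ∧ ¬ Small u C κ (fun k x => f ⌊α * u k⌋₊ x)} ⊆
      ⋃ i : ℕ × ℕ, {α : ℝ | 0 < α ∧ α ≤ ((i.1 + 1 : ℕ) : ℝ) ∧
        ∃ᶠ k in atTop, ⌊α * u k⌋₊ ∈
          badF f (1 / ((i.2 : ℝ) + 1)) C0 κ ⌈((i.1 + 1 : ℕ) : ℝ) * u k⌉₊} := by
    rintro α ⟨hα, hn⟩
    unfold Small at hn
    push Not at hn
    obtain ⟨ε, hε, hfr⟩ := hn
    obtain ⟨m, hm⟩ := exists_nat_gt α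
    obtain ⟨j, hj⟩ := exists_nat_one_div_lt hε
    refine mem_iUnion.2 ⟨(m, j), hα, ?_, ?_⟩
    · push_cast
      linarith
    -- eventual conditions
    have e1 : ∀ᶠ k in atTop, 1 ≤ α * u k :=
      (hut.const_mul_atTop hα).eventually_ge_atTop 1
    have e2 : ∀ᶠ k in atTop, ((m : ℝ) + 2) ^ C0 ≤ (u k) ^ (C - C0) :=
      ((tendsto_rpow_atTop (by linarith : 0 < C - C0)).comp hut).eventually_ge_atTop _
    have e3 : ∀ᶠ k in atTop, 1 ≤ u k := hut.eventually_ge_atTop 1
    refine (hfr.and_eventually (e1.and (e2.and e3))).mono ?_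
    rintro k ⟨⟨x, hx1, hx2, hx3⟩, h1, h2, h3⟩
    set n := ⌊α * u k⌋₊ with hn
    set N := ⌈((m + 1 : ℕ) : ℝ) * u k⌉₊ with hN
    have huk := hu k
    have hmm : (0 : ℝ) ≤ m := Nat.cast_nonneg _
    have hNge : ((m + 1 : ℕ) : ℝ) * u k ≤ N := Nat.le_ceil _
    have hNle : (N : ℝ) ≤ ((m : ℝ) + 2) * u k := by
      have h4 := (Nat.ceil_lt_add_one (a := ((m + 1 : ℕ) : ℝ) * u k) (by positivity)).le
      rw [← hN] at h4
      push_cast at h4
      linarith
    have huN : u k ≤ N := by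
      refine le_trans ?_ hNge
      push_cast
      nlinarith
    simp only [badF, Finset.mem_filter, Finset.mem_Icc]
    refine ⟨⟨?_, ?_⟩, x, ⟨?_, ?_⟩, ?_⟩
    · rw [hn, Nat.one_le_floor_iff]
      exact h1
    · have h5 : (n : ℝ) ≤ N := by
        refine (Nat.floor_le (by positivity)).trans (le_trans ?_ hNge)
        apply mul_le_mul_of_nonneg_right _ huk.le
        push_cast
        linarith
      exact_mod_cast h5
    · refine le_trans ?_ hx1
      calc (N : ℝ) ^ C0 ≤ (((m : ℝ) + 2) * u k) ^ C0 :=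
            Real.rpow_le_rpow (Nat.cast_nonneg _) hNle hC0
        _ = ((m : ℝ) + 2) ^ C0 * (u k) ^ C0 := Real.mul_rpow (by positivity) huk.le
        _ ≤ (u k) ^ (C - C0) * (u k) ^ C0 := mul_le_mul_of_nonneg_right h2 (by positivity)
        _ = (u k) ^ C := by
            rw [← Real.rpow_add huk]
            congr 1
            ring
    · refine hx2.trans (Real.exp_le_exp.2 ?_)
      exact Real.rpow_le_rpow (Real.log_nonneg h3) (Real.log_le_log huk huN) (by linarith)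
    · refine lt_of_le_of_lt ?_ hx3
      apply mul_le_mul_of_nonneg_right hj.le (Nat.cast_nonneg _)
  refine measure_mono_null hsub (measure_iUnion_null fun i => ?_)
  exact floor_null hθ hθs u hu hsum (fun N => badF f (1 / ((i.2 : ℝ) + 1)) C0 κ N)
    (hall _ (by positivity)) (i.1 + 1) (by omega)

/-- the algebraic closure of `ℚ` is countable -/
theorem countable_closure : Countable (AlgebraicClosure ℚ) := by
  have h0 : Algebra.IsAlgebraic ℚ (AlgebraicClosure ℚ) := AlgebraicClosure.isAlgebraic ℚ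
  have h := Algebra.IsAlgebraic.cardinalMk_le_max ℚ (AlgebraicClosure ℚ)
  rw [← Cardinal.mk_le_aleph0_iff]
  refine h.trans ?_
  rw [Cardinal.mkRat]
  simp

/-- the number fields in `ℚ̄` form a countable set -/
theorem countable_fields :
    {F : IntermediateField ℚ (AlgebraicClosure ℚ) | FiniteDimensional ℚ F}.Countable := by
  have : Countable (AlgebraicClosure ℚ) := countable_closure
  refine (Set.countable_range (fun S : Finset (AlgebraicClosure ℚ) =>
    IntermediateField.adjoin ℚ (S : Set (AlgebraicClosure ℚ)))).mono ?_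
  intro F hF
  have hF' : Module.Finite ℚ F := hF
  have h1 : (Subalgebra.toSubmodule F.toSubalgebra).FG := Module.Finite.iff_fg.1 hF'
  obtain ⟨S, hS⟩ := F.fg_of_fg_toSubalgebra (Subalgebra.fg_of_fg_toSubmodule h1)
  exact ⟨S, hS⟩

/-- the finitely generated subgroups of `ℚˣ` form a countable set -/
theorem countable_fg : {W : Subgroup ℚˣ | W.FG}.Countable := by
  have : Countable ℚˣ := by
    refine Function.Injective.countable (f := fun x : ℚˣ => (x : ℚ)) ?_
    exact Units.val_injective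
  refine (Set.countable_range (fun S : Finset ℚˣ => Subgroup.closure (S : Set ℚˣ))).mono ?_
  rintro W ⟨S, hS⟩
  exact ⟨S, hS⟩

end Pool.Agent.Q84.LM1
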