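import Mathlib
import Pool.Agent.TH899.UG.Qd
import Pool.Agent.W59.GB.Cls

set_option autoImplicit false

/-! # Exact prime patterns in a residue class from a coloured Maynard-Tao theorem -/

namespace Pool.Agent.Q84.PP

open Finset Pool.Agent.H461R2.PD Pool.Agent.H947R3.GM Pool.Agent.H732R3.BigQ Pool.Agent.W59.GB

/-- the conclusion of the coloured Maynard-Tao theorem: `s` of `T` classes with `K` forms are hit -/
def Hit (T K s : ℕ) : Prop := ∀ (a b : Fin T → Fin K → ℤ), (∀ g i, 0 < a g i) →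
  Function.Injective (fun x : Fin T × Fin K => (a x.1 x.2, b x.1 x.2)) →
  (∀ p : ℕ, p.Prime → ∃ n : ℤ, ∀ g i, ¬ ((p : ℤ) ∣ a g i * n + b g i)) →
  ∃ (S : Finset (Fin T)) (c : Fin T → Fin K), s ≤ S.card ∧
    Big {n : ℕ | ∀ g ∈ S, 0 < a g (c g) * (n : ℤ) + b g (c g) ∧
      Prime (a g (c g) * (n : ℤ) + b g (c g))}

/-- **Exact patterns.** -/
theorem exactP {T K s : ℕ} (h : Hit T K s) {N a : ℕ} (hN : 0 < N) (ha : a.Coprime N)
    (H : Fin T → Fin K → ℕ) (hH : AdmN N H) (M : ℕ) (hM : ∀ g i, N * H g i ≤ M) :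
    ∃ (P : Finset ℕ) (S : Finset (Fin T)) (c : Fin T → Fin K), s ≤ S.card ∧
      (∀ g ∈ S, H g (c g) ∈ P) ∧ (∀ y ∈ P, ∃ g i, y = H g i) ∧
      Big {b : ℕ | b ≡ a [MOD N] ∧ ∀ t ≤ M, ((b + t).Prime ↔ ∃ y ∈ P, t = N * y)} := by
  classical
  set H' : Fin T → Fin K → ℕ := fun g i => N * H g i with hH'
  have hinjH' : Function.Injective (fun x : Fin T × Fin K => H' x.1 x.2) := by
    intro x y hxy
    exact hH.1 (Nat.eq_of_mul_eq_mul_left hN hxy)
  set q : ℕ → ℕ := fun t => Nat.nth Nat.Prime (M + N + t) with hq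
  have hqp : ∀ t, (q t).Prime := fun t => Nat.prime_nth_prime _
  have hqM : ∀ t, M + N + t < q t := fun t => by
    have := Nat.add_two_le_nth_prime (M + N + t)
    simp only [hq]; omega
  have hqinj : Function.Injective q := by
    intro s t hst
    have := Nat.nth_injective Nat.infinite_setOfPred_prime hst
    omega
  set U : Finset ℕ := (range (M + 1)).filter fun t => ∀ g i, H' g i ≠ t with hU
  have hpair : Set.Pairwise (U : Set ℕ) (Function.onFun Nat.Coprime q) := by
    intro s _ t _ hst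
    exact (Nat.coprime_primes (hqp s) (hqp t)).2 fun h => hst (hqinj h)
  obtain ⟨r₀, hr₀⟩ := Nat.chineseRemainderOfFinset (fun t => q t - t) q U
    (fun t _ => (hqp t).ne_zero) hpair
  set Q₀ : ℕ := ∏ t ∈ U, q t with hQ₀def
  have hQ₀ : 0 < Q₀ := prod_pos fun t _ => (hqp t).pos
  have hcopN : Nat.Coprime Q₀ N := by
    refine Nat.Coprime.prod_left fun t _ => ?_
    rw [Nat.Prime.coprime_iff_not_dvd (hqp t)]
    intro hd
    have h1 := Nat.le_of_dvd hN hd
    have h2 := hqM t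
    omega
  obtain ⟨r, hrQ, hrN⟩ := Nat.chineseRemainder hcopN r₀ a
  have hr' : ∀ t ∈ U, q t ∣ r + t := by
    intro t ht
    have h0 : r ≡ r₀ [MOD q t] := hrQ.of_dvd (dvd_prod_of_mem q ht)
    have h1 := (h0.trans (hr₀ t ht)).add_right t
    have h2 : q t - t + t = q t := by have := hqM t; omega
    rw [h2] at h1
    exact (Nat.modEq_zero_iff_dvd.1 (h1.trans (by simp [Nat.ModEq])))
  set Q : ℕ := Q₀ * N with hQdef
  have hQ0 : 0 < Q := Nat.mul_pos hQ₀ hN
  obtain ⟨S, c, hS, hinf⟩ := h (fun _ _ => (Q : ℤ)) (fun g i => ((r + H' g i : ℕ) : ℤ))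
    (fun _ _ => by exact_mod_cast hQ0)
    (by
      intro x y hxy
      apply hinjH'
      simp only [Prod.mk.injEq, Nat.cast_inj, true_and] at hxy
      exact Nat.add_left_cancel hxy)
    (by
      intro p hp
      by_cases hpN : p ∣ N
      · refine ⟨0, fun g i hd => ?_⟩
        rw [mul_zero, zero_add] at hd
        have hd' : p ∣ r + N * H g i := by exact_mod_cast hd
        have h1 : p ∣ r := (Nat.dvd_add_left (hpN.mul_right _)).1 hd'
        have h2 : p ∣ a := by
          have h3 : r ≡ a [MOD p] := hrN.of_dvd hpN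
          exact (h3.dvd_iff dvd_rfl).1 h1
        have h4 : p ∣ Nat.gcd a N := Nat.dvd_gcd h2 hpN
        rw [ha] at h4
        exact hp.one_lt.ne' (Nat.dvd_one.1 h4)
      by_cases hpQ : p ∣ Q₀
      · refine ⟨0, fun g i hd => ?_⟩
        obtain ⟨t, htU, hpt⟩ := (hp.prime.dvd_finsetProd_iff _).1 hpQ
        have hpq : p = q t := (Nat.prime_dvd_prime_iff_eq hp (hqp t)).1 hpt
        rw [mul_zero, zero_add] at hd
        have hd' : q t ∣ r + H' g i := by rw [← hpq]; exact_mod_cast hd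
        have h1 := hr' t htU
        have hne : H' g i ≠ t := (mem_filter.1 htU).2 g i
        have htM : t ≤ M := by
          have := (mem_filter.1 htU).1
          rw [mem_range] at this; omega
        have h2 : (q t : ℤ) ∣ (H' g i : ℤ) - t := by
          have h3 : (q t : ℤ) ∣ ((r + H' g i : ℕ) : ℤ) - ((r + t : ℕ) : ℤ) :=
            dvd_sub (by exact_mod_cast hd') (by exact_mod_cast h1)
          push_cast at h3
          have e : (r : ℤ) + H' g i - (r + t) = H' g i - t := by ring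
          rwa [e] at h3
        have h4 : |(H' g i : ℤ) - t| < q t := by
          have := hqM t
          have h5 : H' g i ≤ M := hM g i
          rw [abs_lt]
          constructor <;> omega
        have h6 := Int.eq_zero_of_abs_lt_dvd h2 h4
        omega
      · obtain ⟨n₀, hn₀⟩ := hH.2 p hp hpN
        have hpQ' : ¬ p ∣ Q := fun h => (hp.dvd_mul.1 h).elim hpQ hpN
        have hcop : IsCoprime (Q : ℤ) (p : ℤ) := by
          rw [Nat.isCoprime_iff_coprime]
          exact ((Nat.Prime.coprime_iff_not_dvd hp).2 hpQ').symm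
        obtain ⟨u, v, huv⟩ := hcop
        refine ⟨u * (N * n₀ - r), fun g i hd => ?_⟩
        have hd2 : (p : ℤ) ∣ N * (n₀ + H g i) := by
          have e : (N : ℤ) * (n₀ + H g i) = ((Q : ℤ) * (u * (N * n₀ - r)) + ((r + H' g i : ℕ) : ℤ)) +
              p * (v * (N * n₀ - r)) := by
            simp only [hH']
            push_cast
            linear_combination (-(N * n₀ - (r : ℤ))) * huv
          rw [e]
          exact dvd_add hd (dvd_mul_right _ _)
        rcases (Nat.prime_iff_prime_int.1 hp).dvd_or_dvd hd2 with h1 | h1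
        · exact hpN (by exact_mod_cast h1)
        · exact hn₀ g i h1)
  -- the set of positions
  set Y : Finset ℕ := univ.image (fun x : Fin T × Fin K => H x.1 x.2) with hY
  set X : Set ℕ := {n : ℕ | 2 ≤ n ∧ ∀ g ∈ S, (Q * n + r + N * H g (c g)).Prime} with hX
  have hXinf : Big X := by
    refine (big_ge hinf 2).mono ?_
    rintro n ⟨hn, hn2⟩
    refine ⟨hn2, fun g hg => ?_⟩
    have := (hn g hg).2
    rw [Nat.prime_iff_prime_int]
    push_cast at this ⊢
    rwa [add_assoc]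
  obtain ⟨⟨P, hP⟩, hPB⟩ := big_cover (ι := {P // P ∈ Y.powerset})
    (fun P => {n : ℕ | n ∈ X ∧ ∀ y ∈ Y, ((Q * n + r + N * y).Prime ↔ y ∈ P.1)}) X hXinf (by
      intro n hn
      rw [Set.mem_iUnion]
      refine ⟨⟨Y.filter fun y => (Q * n + r + N * y).Prime, ?_⟩, hn, ?_⟩
      · rw [mem_powerset]
        exact filter_subset _ _
      · intro y hy
        rw [mem_filter]
        exact ⟨fun h => ⟨hy, h⟩, fun h => h.2⟩)
  rw [mem_powerset] at hP
  have hYm : ∀ g i, H g i ∈ Y := fun g i => mem_image.2 ⟨(g, i), mem_univ _, rfl⟩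
  obtain ⟨n₀, hn₀⟩ := hPB.infinite.nonempty
  refine ⟨P, S, c, hS, ?_, ?_, ?_⟩
  · intro g hg
    exact (hn₀.2 _ (hYm g (c g))).1 (hn₀.1.2 g hg)
  · intro y hy
    obtain ⟨⟨g, i⟩, -, h1⟩ := mem_image.1 (hP hy)
    exact ⟨g, i, h1.symm⟩
  · refine hPB.affine Q (r : ℤ) hQ0 (fun n => Q * n + r) (fun n _ => by push_cast; ring) ?_
    rintro n ⟨hnX, hnP⟩
    refine ⟨?_, ?_⟩
    · have h1 : Q * n ≡ 0 [MOD N] := by
        rw [Nat.modEq_zero_iff_dvd, hQdef]
        exact (dvd_mul_left N Q₀).mul_right n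
      simpa using h1.add hrN
    · intro t ht
      by_cases hpos : ∀ g i, H' g i ≠ t
      · have htU : t ∈ U := by
          rw [hU, mem_filter, mem_range]; exact ⟨by omega, hpos⟩
        have h1 : q t ∣ Q * n + r + t := by
          rw [add_assoc]
          exact dvd_add (((dvd_prod_of_mem q htU).mul_right N).mul_right n) (hr' t htU)
        constructor
        · intro hpr
          exfalso
          have h2 : q t = Q * n + r + t :=
            ((Nat.dvd_prime hpr).1 h1).resolve_left (hqp t).one_lt.ne'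
          have h3 : q t ≤ Q := Nat.le_of_dvd hQ0 ((dvd_prod_of_mem q htU).mul_right N)
          have h4 : 2 ≤ n := hnX.1
          have h5 : Q * 2 ≤ Q * n := Nat.mul_le_mul_left Q h4
          omega
        · rintro ⟨y, hy, rfl⟩
          exfalso
          obtain ⟨⟨g, i⟩, -, h2⟩ := mem_image.1 (hP hy)
          apply hpos g i
          show N * H g i = N * y
          rw [← h2]
      · push Not at hpos
        obtain ⟨g, i, rfl⟩ := hpos
        show (Q * n + r + N * H g i).Prime ↔ _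
        rw [hnP _ (hYm g i)]
        constructor
        · intro h1
          exact ⟨_, h1, rfl⟩
        · rintro ⟨y, hy, h1⟩
          have h2 : H g i = y := Nat.eq_of_mul_eq_mul_left hN h1
          rw [h2]
          exact hy

/-- four classes -/
theorem hit_four : ∃ K : ℕ, 1 ≤ K ∧ Hit 4 K 2 := Pool.Agent.TH899.UG.fourC

/-- **Consecutive primes of a residue class in different classes.** -/
theorem four_gap {N a : ℕ} (hN : 0 < N) (ha : a.Coprime N) :
    ∃ K : ℕ, 1 ≤ K ∧ ∀ H : Fin 4 → Fin K → ℕ, AdmN N H →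
      ∃ g g' i i', g ≠ g' ∧ H g i < H g' i' ∧ H g' i' - H g i ∈ GapB N a := by
  classical
  obtain ⟨K, hK, hit⟩ := hit_four
  refine ⟨K, hK, fun H hH => ?_⟩
  obtain ⟨M, hM⟩ : ∃ M, ∀ g i, N * H g i ≤ M :=
    ⟨univ.sup fun x : Fin 4 × Fin K => N * H x.1 x.2, fun g i =>
      le_sup (f := fun x : Fin 4 × Fin K => N * H x.1 x.2) (mem_univ (g, i))⟩
  obtain ⟨P, S, c, hS, hSP, hPH, hB⟩ := exactP hit hN ha H hH M hM
  obtain ⟨g₁, hg₁, g₂, hg₂, hg12⟩ := one_lt_card.1 hS
  -- the pairs of elements of `P` in different classes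
  set Z : Finset ((Fin 4 × Fin K) × (Fin 4 × Fin K)) := univ.filter fun x =>
    x.1.1 ≠ x.2.1 ∧ H x.1.1 x.1.2 < H x.2.1 x.2.2 ∧ H x.1.1 x.1.2 ∈ P ∧ H x.2.1 x.2.2 ∈ P with hZ
  have hZne : Z.Nonempty := by
    rcases lt_trichotomy (H g₁ (c g₁)) (H g₂ (c g₂)) with hl | he | hl
    · refine ⟨((g₁, c g₁), (g₂, c g₂)), ?_⟩
      rw [hZ, mem_filter]
      exact ⟨mem_univ _, hg12, hl, hSP _ hg₁, hSP _ hg₂⟩
    · exfalso
      have := hH.1 (a₁ := (g₁, c g₁)) (a₂ := (g₂, c g₂)) he
      exact hg12 (Prod.mk.inj this).1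
    · refine ⟨((g₂, c g₂), (g₁, c g₁)), ?_⟩
      rw [hZ, mem_filter]
      exact ⟨mem_univ _, hg12.symm, hl, hSP _ hg₂, hSP _ hg₁⟩
  obtain ⟨⟨⟨g, i⟩, ⟨g', i'⟩⟩, hxZ, hmin⟩ := exists_min_image Z
    (fun x => H x.2.1 x.2.2 - H x.1.1 x.1.2) hZne
  rw [hZ, mem_filter] at hxZ
  obtain ⟨-, hne, hlt, hp1, hp2⟩ := hxZ
  simp only at hne hlt hp1 hp2
  have hno : ∀ y ∈ P, H g i < y → y < H g' i' → False := by
    intro y hy h1 h2
    obtain ⟨g'', i'', rfl⟩ := hPH y hy
    by_cases hgg : g'' = g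
    · have h3 : ((g'', i''), (g', i')) ∈ Z := by
        rw [hZ, mem_filter]
        exact ⟨mem_univ _, by rw [hgg]; exact hne, h2, hy, hp2⟩
      have h4 := hmin _ h3
      simp only at h4
      omega
    · have h3 : ((g, i), (g'', i'')) ∈ Z := by
        rw [hZ, mem_filter]
        exact ⟨mem_univ _, fun h => hgg h.symm, h1, hp1, hy⟩
      have h4 := hmin _ h3
      simp only at h4
      omega
  refine ⟨g, g', i, i', hne, hlt, ?_⟩
  refine hB.affine 1 ((N * H g i : ℕ) : ℤ) le_rfl (fun b => b + N * H g i)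
    (fun n _ => by push_cast; ring) ?_
  rintro b ⟨hb1, hb2⟩
  have e : b + N * H g i + N * (H g' i' - H g i) = b + N * H g' i' := by
    rw [Nat.mul_sub]
    have : N * H g i ≤ N * H g' i' := Nat.mul_le_mul_left N hlt.le
    omega
  refine ⟨(hb2 _ (hM g i)).2 ⟨_, hp1, rfl⟩, ?_, ?_, Nat.mul_pos hN (by omega), ?_⟩
  · have h1 : N * H g i ≡ 0 [MOD N] := by
      rw [Nat.modEq_zero_iff_dvd]
      exact dvd_mul_right N _
    simpa using hb1.add h1
  · rw [e]
    exact (hb2 _ (hM g' i')).2 ⟨_, hp2, rfl⟩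
  · intro m hm1 hm2 hmp
    rw [e] at hm2
    obtain ⟨t, rfl⟩ : ∃ t, m = b + t := ⟨m - b, by omega⟩
    have ht : t ≤ M := by
      have := hM g' i'
      omega
    obtain ⟨y, hy, rfl⟩ := (hb2 t ht).1 hmp
    exact hno y hy (Nat.lt_of_mul_lt_mul_left (a := N) (by omega))
      (Nat.lt_of_mul_lt_mul_left (a := N) (by omega))

end Pool.Agent.Q84.PP
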