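import Mathlib
import Pool.Agent.Q84.PP1
import Pool.Agent.H732R3.QuarterB
import Pool.Agent.H507R3.RamAll

set_option autoImplicit false

/-! # Patterns of consecutive primes inside arbitrary finite sets, in several residue classes at once -/

namespace Pool.Agent.Q84.PP

open Finset Pool.Agent.H461R2.PD Pool.Agent.H947R3.GM Pool.Agent.H732R3.BigQ Pool.Agent.W59.GB

/-- the pattern `c (z - min Z)`, `z ∈ Z` -/
noncomputable def pat (c : ℕ) (Z : Finset ℕ) : Finset ℕ :=
  Z.image fun z => c * (z - sInf (Z : Set ℕ))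

/-- the pattern `H` is realised by consecutive primes in the class `a` modulo `q` -/
def RealB (q a : ℕ) (H : Finset ℕ) : Prop :=
  Big {n : ℕ | n ≡ a [MOD q] ∧ ∀ t ≤ H.sup id, ((n + t).Prime ↔ t ∈ H)}

theorem hit_many (m : ℕ) : ∃ K : ℕ, 1 ≤ K ∧ Hit (4 * m) K m := by
  obtain ⟨K, hK, h⟩ := Pool.Agent.H732R3.BigQ.quarterB (4 * m)
  refine ⟨K, hK, fun a b h1 h2 h3 => ?_⟩
  obtain ⟨S, c, h4, h5⟩ := h a b h1 h2 h3
  exact ⟨S, c, by omega, h5⟩

/-- exact patterns inside an arbitrary set -/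
theorem inside {T K m : ℕ} (hit : Hit T K m) {q a c' : ℕ} (hq : 0 < q) (ha : a.Coprime q)
    (hc : 0 < c') (hcK : (T * K).factorial ∣ c') (W : Finset ℕ) (hW : T * K ≤ W.card) (M : ℕ)
    (hM : ∀ w ∈ W, q * c' * w ≤ M) :
    ∃ P ⊆ W, m ≤ P.card ∧
      Big {b : ℕ | b ≡ a [MOD q] ∧ ∀ t ≤ M, ((b + t).Prime ↔ ∃ w ∈ P, t = q * c' * w)} := by
  classical
  obtain ⟨W', hW', hWc⟩ := exists_subset_card_eq hW
  obtain ⟨e, he⟩ : ∃ e : Fin (T * K) ↪o ℕ, e = W'.orderEmbOfFin hWc := ⟨_, rfl⟩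
  have heW : ∀ x, e x ∈ W := fun x => by rw [he]; exact hW' (orderEmbOfFin_mem W' hWc x)
  have hinj : Function.Injective (fun x : Fin T × Fin K => c' * e (finProdFinEquiv (x.1, x.2))) := by
    intro x y hxy
    exact finProdFinEquiv.injective (e.injective (Nat.eq_of_mul_eq_mul_left hc hxy))
  obtain ⟨P, S, c, h1, h2, h3, h4⟩ := exactP hit hq ha
    (fun g i => c' * e (finProdFinEquiv (g, i))) (by
      refine ⟨hinj, fun p hp _ => ?_⟩
      by_cases hpK : p ≤ T * K
      · refine ⟨1, fun g i hd => ?_⟩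
        have h1 : (p : ℤ) ∣ ((c' * e (finProdFinEquiv (g, i)) : ℕ) : ℤ) := by
          exact_mod_cast ((Nat.dvd_factorial hp.pos hpK).trans hcK).mul_right _
        have h2 : (p : ℤ) ∣ 1 := (dvd_add_left h1).1 hd
        have h3 : p ∣ 1 := by exact_mod_cast h2
        exact hp.one_lt.ne' (Nat.dvd_one.1 h3)
      · have : NeZero p := ⟨hp.ne_zero⟩
        obtain ⟨z, -, hz⟩ := exists_mem_notMem_of_card_lt_card
          (s := (univ : Finset (Fin T × Fin K)).image
            (fun x => -((c' * e (finProdFinEquiv (x.1, x.2)) : ℕ) : ZMod p)))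
          (t := (univ : Finset (ZMod p))) (by
          refine lt_of_le_of_lt card_image_le ?_
          rw [card_univ, card_univ, ZMod.card, Fintype.card_prod, Fintype.card_fin,
            Fintype.card_fin]
          omega)
        refine ⟨(z.val : ℤ), fun g i hd => hz ?_⟩
        rw [mem_image]
        refine ⟨(g, i), mem_univ _, ?_⟩
        have h1 : (((z.val : ℤ) + ((c' * e (finProdFinEquiv (g, i)) : ℕ) : ℤ) : ℤ) : ZMod p) = 0 :=
          (ZMod.intCast_zmod_eq_zero_iff_dvd _ p).2 hd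
        push_cast at h1 ⊢
        rw [ZMod.natCast_zmod_val] at h1
        linear_combination -h1) M (fun g i => by
      show q * (c' * e (finProdFinEquiv (g, i))) ≤ M
      rw [← mul_assoc]
      exact hM _ (heW _))
  refine ⟨W.filter fun w => c' * w ∈ P, filter_subset _ _, ?_, ?_⟩
  · refine h1.trans ?_
    refine card_le_card_of_injOn (fun g => e (finProdFinEquiv (g, c g))) ?_ ?_
    · intro g hg
      rw [mem_coe, mem_filter]
      exact ⟨heW _, h2 g hg⟩
    · intro g _ g' _ hgg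
      have h5 := finProdFinEquiv.injective (e.injective hgg)
      exact (Prod.mk.inj h5).1
  · refine h4.mono ?_
    rintro b ⟨hb1, hb2⟩
    refine ⟨hb1, fun t ht => ?_⟩
    rw [hb2 t ht]
    constructor
    · rintro ⟨y, hy, rfl⟩
      obtain ⟨g, i, hgi⟩ := h3 y hy
      refine ⟨e (finProdFinEquiv (g, i)), ?_, ?_⟩
      · rw [mem_filter]
        exact ⟨heW _, by rw [← hgi]; exact hy⟩
      · rw [hgi, mul_assoc]
    · rintro ⟨w, hw, rfl⟩
      exact ⟨c' * w, (mem_filter.1 hw).2, by rw [mul_assoc]⟩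

/-- the first elements of a set -/
lemma initial (P : Finset ℕ) (s : ℕ) (hs : s ≤ P.card) : ∃ Z ⊆ P, Z.card = s ∧
    ∀ w ∈ P, ∀ z ∈ Z, w ≤ z → w ∈ Z := by
  classical
  induction s with
  | zero => exact ⟨∅, empty_subset _, rfl, fun _ _ z hz => absurd hz (notMem_empty z)⟩
  | succ s ih =>
    obtain ⟨Z, h1, h2, h3⟩ := ih (by omega)
    have hne : (P \ Z).Nonempty := by
      rw [← card_pos, card_sdiff_of_subset h1]
      omega
    obtain ⟨x, hx, hmin⟩ := exists_min_image (P \ Z) id hne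
    rw [mem_sdiff] at hx
    refine ⟨insert x Z, ?_, ?_, ?_⟩
    · exact insert_subset hx.1 h1
    · rw [card_insert_of_notMem hx.2, h2]
    · intro w hw z hz hwz
      rw [mem_insert] at hz ⊢
      by_cases hwZ : w ∈ Z
      · exact Or.inr hwZ
      · have h4 : x ≤ w := hmin w (mem_sdiff.2 ⟨hw, hwZ⟩)
        rcases hz with rfl | hz
        · left
          omega
        · exact absurd (h3 w hw z hz hwz) hwZ

/-- every set of `T K` integers contains a pattern of each size `≤ m` -/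
theorem pattern {T K m : ℕ} (hit : Hit T K m) {q a c' : ℕ} (hq : 0 < q) (ha : a.Coprime q)
    (hc : 0 < c') (hcK : (T * K).factorial ∣ c') (W : Finset ℕ) (hW : T * K ≤ W.card) (s : ℕ)
    (hs0 : 0 < s) (hs : s ≤ m) : ∃ Z ⊆ W, Z.card = s ∧ RealB q a (pat (q * c') Z) := by
  classical
  obtain ⟨M, hM⟩ : ∃ M : ℕ, ∀ w ∈ W, q * c' * w ≤ M :=
    ⟨W.sup fun w => q * c' * w, fun w hw => le_sup (f := fun w => q * c' * w) hw⟩
  obtain ⟨P, hPW, hPm, hB⟩ := inside hit hq ha hc hcK W hW M hM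
  obtain ⟨Z, hZP, hZs, hZi⟩ := initial P s (hs.trans hPm)
  have hZne : Z.Nonempty := by
    rw [← card_pos]
    omega
  refine ⟨Z, hZP.trans hPW, hZs, ?_⟩
  obtain ⟨z0, hz0⟩ : ∃ z0, z0 = sInf (Z : Set ℕ) := ⟨_, rfl⟩
  have hz0Z : z0 ∈ Z := by
    rw [hz0]
    exact mem_coe.1 (Nat.sInf_mem (coe_nonempty.2 hZne))
  have hz0le : ∀ z ∈ Z, z0 ≤ z := fun z hz => by
    rw [hz0]
    exact Nat.sInf_le (mem_coe.2 hz)
  have hcpos : 0 < q * c' := Nat.mul_pos hq hc
  unfold RealB
  refine hB.affine 1 ((q * c' * z0 : ℕ) : ℤ) le_rfl (fun b => b + q * c' * z0)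
    (fun n _ => by push_cast; ring) ?_
  rintro b ⟨hb1, hb2⟩
  refine ⟨?_, ?_⟩
  · have h1 : q * c' * z0 ≡ 0 [MOD q] := by
      rw [Nat.modEq_zero_iff_dvd, mul_assoc]
      exact dvd_mul_right q _
    simpa using hb1.add h1
  · intro t ht
    -- the largest element
    obtain ⟨z1, hz1, hz1max⟩ := exists_max_image Z id hZne
    have hsup : (pat (q * c') Z).sup id ≤ q * c' * (z1 - z0) := by
      apply Finset.sup_le
      intro y hy
      unfold pat at hy
      rw [mem_image] at hy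
      obtain ⟨z, hz, rfl⟩ := hy
      rw [← hz0]
      exact Nat.mul_le_mul_left _ (Nat.sub_le_sub_right (hz1max z hz) _)
    have ht1 : q * c' * z0 + t ≤ q * c' * z1 := by
      have h1 := ht.trans hsup
      have h2 : q * c' * z0 + q * c' * (z1 - z0) = q * c' * z1 := by
        rw [← mul_add]
        congr 1
        have := hz0le z1 hz1
        omega
      omega
    have htM : q * c' * z0 + t ≤ M := ht1.trans (hM _ (hPW (hZP hz1)))
    have h3 := hb2 _ htM
    rw [← add_assoc] at h3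
    rw [h3]
    unfold pat
    rw [mem_image, ← hz0]
    constructor
    · rintro ⟨w, hw, hwt⟩
      have h4 : w ≤ z1 := by
        have h5 : q * c' * w ≤ q * c' * z1 := by rw [← hwt]; exact ht1
        exact Nat.le_of_mul_le_mul_left h5 hcpos
      have h5 : w ∈ Z := hZi w hw z1 hz1 h4
      refine ⟨w, h5, ?_⟩
      rw [Nat.mul_sub, ← hwt]
      omega
    · rintro ⟨z, hz, rfl⟩
      refine ⟨z, hZP hz, ?_⟩
      rw [← mul_add]
      congr 1
      have := hz0le z hz
      omega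

/-- **Hereditary patterns in several classes at once.** -/
theorem hereditary (m r : ℕ) : ∃ K C : ℕ, m ≤ C ∧ ∀ (q a c' : Fin r → ℕ),
    (∀ j, 0 < q j) → (∀ j, (a j).Coprime (q j)) → (∀ j, 0 < c' j) → (∀ j, K.factorial ∣ c' j) →
    ∀ W : Finset ℕ, C ≤ W.card → ∃ Y ⊆ W, Y.card = m ∧ ∀ Z ⊆ Y, Z.Nonempty →
      ∀ j, RealB (q j) (a j) (pat (q j * c' j) Z) := by
  classical
  obtain ⟨K, hK, hit⟩ := hit_many m
  obtain ⟨N, hN⟩ := Pool.Agent.H507R3.RamAll.ramsey_all (Option (Fin r)) m (4 * m * K)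
  refine ⟨4 * m * K, max N m, le_max_right _ _, fun q a c' hq ha hc hcK W hW => ?_⟩
  obtain ⟨T, hT, hTc, hTk⟩ := hN W (fun Z => if h : ∃ j, ¬ RealB (q j) (a j) (pat (q j * c' j) Z)
    then some h.choose else none) ((le_max_left _ _).trans hW)
  have hmT : m ≤ T.card := by
    rw [hTc]
    have h1 : m * 1 ≤ m * (4 * K) := Nat.mul_le_mul_left m (by omega)
    nlinarith
  obtain ⟨Y, hYT, hYc⟩ := exists_subset_card_eq hmT
  refine ⟨Y, hYT.trans hT, hYc, fun Z hZ hZne j => ?_⟩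
  by_contra hcon
  have hs0 : 0 < Z.card := card_pos.2 hZne
  have hsm : Z.card ≤ m := by
    rw [← hYc]
    exact card_le_card hZ
  obtain ⟨k, hk⟩ := hTk Z.card hsm
  have h1 := hk Z (hZ.trans hYT) rfl
  have hex : ∃ j, ¬ RealB (q j) (a j) (pat (q j * c' j) Z) := ⟨j, hcon⟩
  rw [dif_pos hex] at h1
  obtain ⟨Z', hZ'T, hZ'c, hZ'⟩ := pattern hit (hq hex.choose) (ha hex.choose) (hc hex.choose)
    (hcK hex.choose) T hTc.ge Z.card hs0 hsm
  have h2 := hk Z' hZ'T hZ'c
  rw [← h1] at h2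
  by_cases hex' : ∃ j, ¬ RealB (q j) (a j) (pat (q j * c' j) Z')
  · rw [dif_pos hex'] at h2
    have h3 := hex'.choose_spec
    rw [Option.some_injective _ h2] at h3
    exact h3 hZ'
  · rw [dif_neg hex'] at h2
    exact absurd h2 (by simp)

end Pool.Agent.Q84.PP
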