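import Mathlib

set_option autoImplicit false

/-! # Counting sets with a translation invariant property which occurs in every set of `C` integers -/

namespace Pool.Agent.Q84.PP

open Finset

lemma supersets (S Y : Finset ℕ) (C : ℕ) (hY : Y ⊆ S) :
    ((powersetCard C S).filter fun W => Y ⊆ W).card ≤ (S.card - Y.card).choose (C - Y.card) := by
  classical
  rw [← card_sdiff_of_subset hY, ← card_powersetCard]
  refine card_le_card_of_injOn (fun W => W \ Y) ?_ ?_
  · intro W hW
    rw [mem_coe, mem_filter, mem_powersetCard] at hW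
    obtain ⟨⟨h1, h2⟩, h3⟩ := hW
    rw [mem_coe, mem_powersetCard]
    refine ⟨sdiff_subset_sdiff h1 (Subset.refl Y), ?_⟩
    rw [card_sdiff_of_subset h3, h2]
  · intro W hW W' hW' hEq
    rw [mem_coe, mem_filter] at hW hW'
    have h1 : W = (W \ Y) ∪ Y := (sdiff_union_of_subset hW.2).symm
    have h2 : W' = (W' \ Y) ∪ Y := (sdiff_union_of_subset hW'.2).symm
    simp only at hEq
    rw [h1, h2, hEq]

/-- **Counting.** -/
theorem counting (m C X : ℕ) (hmC : m + 1 ≤ C) (hX : C ≤ X + 1) (P : Finset ℕ → Prop)
    [DecidablePred P]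
    (hP : ∀ W : Finset ℕ, C ≤ W.card → ∃ Y ⊆ W, Y.card = m + 1 ∧ P Y)
    (hinv : ∀ (Y Y' : Finset ℕ) (t : ℕ), Y = Y'.image (fun y => y + t) → P Y → P Y') :
    X.choose m ≤ (m + 1) * C.choose (m + 1) *
      ((powersetCard (m + 1) (range (X + 1))).filter fun Y => 0 ∈ Y ∧ P Y).card := by
  classical
  set G := (powersetCard (m + 1) (range (X + 1))).filter fun Y => P Y with hG
  set G0 := (powersetCard (m + 1) (range (X + 1))).filter fun Y => 0 ∈ Y ∧ P Y with hG0
  -- step 1
  have h1 : (X + 1).choose C ≤ G.card * (X + 1 - (m + 1)).choose (C - (m + 1)) := by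
    have hcov : powersetCard C (range (X + 1)) ⊆
        G.biUnion fun Y => (powersetCard C (range (X + 1))).filter fun W => Y ⊆ W := by
      intro W hW
      obtain ⟨hW1, hW2⟩ := mem_powersetCard.1 hW
      obtain ⟨Y, hY1, hY2, hY3⟩ := hP W hW2.ge
      rw [mem_biUnion]
      refine ⟨Y, ?_, ?_⟩
      · rw [hG, mem_filter, mem_powersetCard]
        exact ⟨⟨hY1.trans hW1, hY2⟩, hY3⟩
      · rw [mem_filter]
        exact ⟨hW, hY1⟩
    have h2 := (card_le_card hcov).trans card_biUnion_le
    rw [card_powersetCard, card_range] at h2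
    refine h2.trans ?_
    rw [← smul_eq_mul, ← sum_const]
    refine sum_le_sum fun Y hY => ?_
    rw [hG, mem_filter, mem_powersetCard] at hY
    have h3 := supersets (range (X + 1)) Y C hY.1.1
    rw [card_range, hY.1.2] at h3
    exact h3
  -- step 2
  have h2 : (X + 1).choose (m + 1) ≤ G.card * C.choose (m + 1) := by
    have h3 := Nat.choose_mul (n := X + 1) (k := C) (s := m + 1) hmC
    have hpos : 0 < (X + 1 - (m + 1)).choose (C - (m + 1)) := Nat.choose_pos (by omega)
    have h4 : (X + 1).choose (m + 1) * (X + 1 - (m + 1)).choose (C - (m + 1)) ≤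
        G.card * C.choose (m + 1) * (X + 1 - (m + 1)).choose (C - (m + 1)) := by
      rw [← h3]
      calc (X + 1).choose C * C.choose (m + 1) ≤
          G.card * (X + 1 - (m + 1)).choose (C - (m + 1)) * C.choose (m + 1) :=
            Nat.mul_le_mul_right _ h1
        _ = _ := by ring
    exact Nat.le_of_mul_le_mul_right h4 hpos
  -- step 3
  have h3 : G.card ≤ (X + 1) * G0.card := by
    rw [← card_range (X + 1), ← card_product]
    have hmin : ∀ Y ∈ G, ∃ (t : ℕ) (Y' : Finset ℕ), t ∈ range (X + 1) ∧ Y' ∈ G0 ∧
        Y = Y'.image (fun y => y + t) := by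
      intro Y hY
      rw [hG, mem_filter, mem_powersetCard] at hY
      obtain ⟨⟨hY1, hY2⟩, hY3⟩ := hY
      have hne : Y.Nonempty := by
        rw [← card_pos]
        omega
      obtain ⟨t, ht⟩ : ∃ t, t = Y.min' hne := ⟨_, rfl⟩
      have htY : t ∈ Y := by rw [ht]; exact Y.min'_mem hne
      have hle : ∀ y ∈ Y, t ≤ y := fun y hy => by rw [ht]; exact Y.min'_le y hy
      have himg : Y = (Y.image (fun y => y - t)).image (fun y => y + t) := by
        rw [image_image]
        ext y
        rw [mem_image]
        constructor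
        · intro hy
          exact ⟨y, hy, by simp only [Function.comp]; have := hle y hy; omega⟩
        · rintro ⟨z, hz, hzy⟩
          have h4 := hle z hz
          have h5 : z = y := by
            simp only [Function.comp] at hzy
            omega
          rw [← h5]
          exact hz
      refine ⟨t, Y.image (fun y => y - t), hY1 htY, ?_, himg⟩
      rw [hG0, mem_filter, mem_powersetCard]
      refine ⟨⟨?_, ?_⟩, ?_, hinv Y _ t himg hY3⟩
      · intro y hy
        rw [mem_image] at hy
        obtain ⟨z, hz, rfl⟩ := hy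
        have := mem_range.1 (hY1 hz)
        rw [mem_range]
        omega
      · rw [← hY2]
        apply card_image_of_injOn
        intro y hy z hz hyz
        have h4 := hle y hy
        have h5 := hle z hz
        simp only at hyz
        omega
      · rw [mem_image]
        exact ⟨t, htY, Nat.sub_self t⟩
    choose! t Y' ht hY' him using hmin
    refine card_le_card_of_injOn (fun Y => (t Y, Y' Y)) ?_ ?_
    · intro Y hY
      rw [mem_coe, mem_product]
      exact ⟨ht Y hY, hY' Y hY⟩
    · intro Y hY Z hZ hYZ
      obtain ⟨h4, h5⟩ := Prod.mk.inj hYZ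
      rw [him Y hY, him Z hZ, h4, h5]
  -- step 4
  have h4 := Nat.add_one_mul_choose_eq X m
  have h5 : (X + 1) * X.choose m ≤ (X + 1) * ((m + 1) * C.choose (m + 1) * G0.card) := by
    calc (X + 1) * X.choose m = (X + 1).choose (m + 1) * (m + 1) := h4
      _ ≤ G.card * C.choose (m + 1) * (m + 1) := Nat.mul_le_mul_right _ h2
      _ ≤ (X + 1) * G0.card * C.choose (m + 1) * (m + 1) := by
          apply Nat.mul_le_mul_right
          exact Nat.mul_le_mul_right _ h3
      _ = _ := by ring
  exact Nat.le_of_mul_le_mul_left h5 (Nat.succ_pos X)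

end Pool.Agent.Q84.PP
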