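import Mathlib
import Pool.Agent.H507R3.RamAll

set_option autoImplicit false

/-!
# Intersections of sets which are hit by the quotients of classes in abelian groups
-/

namespace Pool.Agent.Q84.MS

open Finset

variable {G : Type*} [CommGroup G]

/-- among any `T` classes of `K` elements there are at least `T / (4 - c)` classes with elements all of whose
quotients are in `S` -/
def Hit (c : ℝ) (T K : ℕ) (S : Set G) : Prop :=
  ∀ A : Fin T → Fin K → G, Function.Injective (fun x : Fin T × Fin K => A x.1 x.2) →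
    ∃ (I : Finset (Fin T)) (x : Fin T → Fin K), (T : ℝ) ≤ (4 - c) * I.card ∧
      ∀ i ∈ I, ∀ j ∈ I, i ≠ j → A i (x i) / A j (x j) ∈ S

/-- among any `T` classes of `K` elements there are two elements of different classes with a quotient in `S` -/
def Cross (T K : ℕ) (S : Set G) : Prop :=
  ∀ A : Fin T → Fin K → G, Function.Injective (fun x : Fin T × Fin K => A x.1 x.2) →
    ∃ i j : Fin T, i ≠ j ∧ ∃ s t : Fin K, A i s / A j t ∈ S

/-- the number of classes -/
def nn : ℕ → ℕ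
  | 0 => 2
  | r + 1 => 4 * (nn r - 1)

lemma nn_eq (r : ℕ) : 3 * nn r = 2 * 4 ^ r + 4 := by
  induction r with
  | zero => rfl
  | succ r ih =>
    have h1 : 1 ≤ 4 ^ r := Nat.one_le_pow _ _ (by norm_num)
    show 3 * (4 * (nn r - 1)) = 2 * 4 ^ (r + 1) + 4
    rw [pow_succ]
    omega

lemma two_le_nn (r : ℕ) : 2 ≤ nn r := by
  have h1 : 1 ≤ 4 ^ r := Nat.one_le_pow _ _ (by norm_num)
  have h2 := nn_eq r
  omega

lemma Hit.mono {c : ℝ} {T K K' : ℕ} {S : Set G} (h : Hit c T K S) (hK : K ≤ K') : Hit c T K' S := by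
  intro A hA
  obtain ⟨I, x, h1, h2⟩ := h (fun i s => A i (Fin.castLE hK s)) (by
    intro u v huv
    have h3 := hA (a₁ := (u.1, Fin.castLE hK u.2)) (a₂ := (v.1, Fin.castLE hK v.2)) huv
    have h4 := Prod.mk.inj h3
    exact Prod.ext h4.1 (Fin.castLE_injective hK h4.2))
  exact ⟨I, fun i => Fin.castLE hK (x i), h1, h2⟩

/-- sets of classes without the first `r` colours -/
theorem chain {c : ℝ} (hc : 0 < c) (hc1 : c < 1) (k : ℕ → ℕ → ℕ) (N : ℕ) (r : ℕ)
    (h : ∀ l < r, ∀ J ⊆ range N, ∃ I ⊆ J, (J.card : ℝ) ≤ (4 - c) * I.card ∧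
      ∀ i ∈ I, ∀ j ∈ I, i < j → k i j ≠ l) :
    ∀ J ⊆ range N, nn r ≤ J.card → ∃ I ⊆ J, 2 ≤ I.card ∧
      ∀ i ∈ I, ∀ j ∈ I, i < j → ∀ l < r, k i j ≠ l := by
  induction r with
  | zero =>
    intro J _ hJ2
    exact ⟨J, Subset.refl _, hJ2, fun i _ j _ _ l hl => absurd hl (Nat.not_lt_zero _)⟩
  | succ r ih =>
    intro J hJ hJ2
    obtain ⟨I, hI, hc2, hk⟩ := h r (Nat.lt_succ_self r) J hJ
    have h1 : nn r ≤ I.card := by
      have h2 := two_le_nn r
      have h3 : 4 * (nn r - 1) ≤ J.card := hJ2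
      have h4 : ((4 * (nn r - 1) : ℕ) : ℝ) ≤ (4 - c) * I.card := le_trans (by exact_mod_cast h3) hc2
      by_contra hlt
      have h5 : I.card ≤ nn r - 1 := by omega
      have h6 : (I.card : ℝ) ≤ ((nn r - 1 : ℕ) : ℝ) := by exact_mod_cast h5
      have h7 : (1 : ℝ) ≤ ((nn r - 1 : ℕ) : ℝ) := by
        have : 1 ≤ nn r - 1 := by omega
        exact_mod_cast this
      push_cast at h4
      nlinarith
    obtain ⟨I', hI', hI2, hk'⟩ := ih (fun l hl => h l (Nat.lt_succ_of_lt hl)) I (hI.trans hJ) h1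
    refine ⟨I', hI'.trans hI, hI2, fun i hi j hj hij l hl => ?_⟩
    rcases Nat.lt_succ_iff_lt_or_eq.1 hl with h2 | h2
    · exact hk' i hi j hj hij l h2
    · rw [h2]
      exact hk i (hI' hi) j (hI' hj) hij

/-- **Intersections.** -/
theorem inter {c : ℝ} (hc : 0 < c) (hc1 : c < 1) (r K : ℕ) (hr : 0 < r) : ∃ K' : ℕ, 1 ≤ K' ∧
    ∀ S : Fin r → Set G, (∀ l, ∀ T ≤ nn r, Hit c T K (S l)) → Cross (nn r) K' {g | ∀ l, g ∈ S l} := by
  classical
  obtain ⟨n, hn⟩ : ∃ n, n = nn r := ⟨_, rfl⟩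
  have : Nonempty (Fin r) := ⟨⟨0, hr⟩⟩
  obtain ⟨N, hN⟩ := Pool.Agent.H507R3.RamAll.ramsey_finset (Fin n → Fin n → Fin r) 2 (n * K)
  refine ⟨N + 1, by omega, fun S hS => ?_⟩
  rw [← hn] at hS ⊢
  intro A hA
  by_contra hcon
  push Not at hcon
  have hfail : ∀ x y : G, ∃ j : Fin r, (∃ j, x / y ∉ S j) → x / y ∉ S j := by
    intro x y
    by_cases h : ∃ j, x / y ∉ S j
    · obtain ⟨j, hj⟩ := h
      exact ⟨j, fun _ => hj⟩
    · exact ⟨Classical.arbitrary _, fun h' => absurd h' h⟩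
  choose fail hfail using hfail
  have hcross : ∀ g g' i i', g ≠ g' → A g i / A g' i' ∉ S (fail (A g i) (A g' i')) := by
    intro g g' i i' hgg
    apply hfail
    have h1 := hcon g g' hgg i i'
    simp only [Set.mem_ofPred_eq, not_forall] at h1
    exact h1
  obtain ⟨Hx, hHx⟩ : ∃ Hx : Fin n → ℕ → G, ∀ g (i : ℕ) (hi : i < N + 1), Hx g i = A g ⟨i, hi⟩ :=
    ⟨fun g i => if hi : i < N + 1 then A g ⟨i, hi⟩ else 1, fun g i hi => dif_pos hi⟩
  obtain ⟨T, hT, hTc, k, hk⟩ := hN (range (N + 1)) (fun Q => fun g g' =>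
    if h : Q.Nonempty then fail (Hx g (Q.min' h)) (Hx g' (Q.max' h)) else Classical.arbitrary _)
    (by rw [card_range]; omega)
  have hk' : ∀ i ∈ T, ∀ i' ∈ T, i < i' → ∀ g g', fail (Hx g i) (Hx g' i') = k g g' := by
    intro i hi i' hi' hlt g g'
    have h1 := hk {i, i'} (by
      intro x hx
      rw [mem_insert, mem_singleton] at hx
      rcases hx with rfl | rfl
      · exact hi
      · exact hi') (card_pair hlt.ne)
    have h2 := congrFun (congrFun h1 g) g'
    have hne : ({i, i'} : Finset ℕ).Nonempty := ⟨i, by simp⟩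
    have hmin : ({i, i'} : Finset ℕ).min' hne = i := by
      apply le_antisymm
      · exact min'_le _ _ (by simp)
      · apply le_min'
        intro y hy
        rw [mem_insert, mem_singleton] at hy
        omega
    have hmax : ({i, i'} : Finset ℕ).max' hne = i' := by
      apply le_antisymm
      · apply max'_le
        intro y hy
        rw [mem_insert, mem_singleton] at hy
        omega
      · exact le_max' _ _ (by simp)
    simp only [hne, dif_pos] at h2
    rw [hmin, hmax] at h2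
    exact h2
  obtain ⟨e, he⟩ : ∃ e : Fin (n * K) ↪o ℕ, e = T.orderEmbOfFin hTc := ⟨_, rfl⟩
  have heT : ∀ a, e a ∈ T := fun a => by rw [he]; exact orderEmbOfFin_mem T hTc a
  have hidx : ∀ (g : Fin n) (s : Fin K), (g : ℕ) * K + s < n * K := by
    intro g s
    have h1 : ((g : ℕ) + 1) * K ≤ n * K := Nat.mul_le_mul_right K g.2
    have h2 := s.2
    nlinarith
  obtain ⟨B, hB⟩ : ∃ B : Fin n → Fin K → G, ∀ g s, B g s =
      A g ⟨e ⟨g * K + s, hidx g s⟩, mem_range.1 (hT (heT _))⟩ := ⟨fun g s => _, fun g s => rfl⟩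
  have hcol : ∀ g g' : Fin n, g < g' → ∀ s s', B g s / B g' s' ∉ S (k g g') := by
    intro g g' hgg s s'
    have hlt : e ⟨g * K + s, hidx g s⟩ < e ⟨g' * K + s', hidx g' s'⟩ := by
      rw [e.lt_iff_lt, Fin.mk_lt_mk]
      have h4 : ((g : ℕ) + 1) * K ≤ (g' : ℕ) * K := Nat.mul_le_mul_right K hgg
      have h5 := s.2
      nlinarith
    have h4 := hk' _ (heT ⟨g * K + s, hidx g s⟩) _ (heT ⟨g' * K + s', hidx g' s'⟩) hlt g g'
    rw [hHx _ _ (mem_range.1 (hT (heT _))), hHx _ _ (mem_range.1 (hT (heT _)))] at h4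
    have h5 := hcross g g' ⟨e ⟨g * K + s, hidx g s⟩, mem_range.1 (hT (heT _))⟩
      ⟨e ⟨g' * K + s', hidx g' s'⟩, mem_range.1 (hT (heT _))⟩ hgg.ne
    rw [h4, ← hB, ← hB] at h5
    exact h5
  have hBinj : Function.Injective (fun x : Fin n × Fin K => B x.1 x.2) := by
    intro x y hxy
    simp only [hB] at hxy
    have h1 := hA (a₁ := (_, _)) (a₂ := (_, _)) hxy
    obtain ⟨h2, h3⟩ := Prod.mk.inj h1
    have h6 := e.injective (Fin.mk.inj_iff.1 h3)
    have h7 := Fin.mk.inj_iff.1 h6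
    have h8 : (x.1 : ℕ) = y.1 := congrArg Fin.val h2
    rw [h8] at h7
    exact Prod.ext h2 (Fin.ext (by omega))
  obtain ⟨I, hI, hI2, hIk⟩ := chain hc hc1 (fun i j => if h : i < n ∧ j < n then (k ⟨i, h.1⟩ ⟨j, h.2⟩ : ℕ)
      else r) n r (by
    intro l hl J hJ
    obtain ⟨em, hem⟩ : ∃ em : Fin J.card ↪o ℕ, em = J.orderEmbOfFin rfl := ⟨_, rfl⟩
    have hemJ : ∀ a, em a ∈ J := fun a => by rw [hem]; exact orderEmbOfFin_mem J rfl a
    have hemn : ∀ a, em a < n := fun a => mem_range.1 (hJ (hemJ a))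
    have hJn : J.card ≤ n := by simpa using card_le_card hJ
    obtain ⟨I, x, hc2, hx⟩ := hS ⟨l, hl⟩ J.card hJn (fun t s => B ⟨em t, hemn t⟩ s) (by
      intro u v huv
      have h1 := hBinj (a₁ := (_, _)) (a₂ := (_, _)) huv
      obtain ⟨h2, h3⟩ := Prod.mk.inj h1
      exact Prod.ext (em.injective (Fin.mk.inj_iff.1 h2)) h3)
    refine ⟨I.map em.toEmbedding, ?_, ?_, ?_⟩
    · intro a ha
      obtain ⟨b, -, rfl⟩ := mem_map.1 ha
      exact hemJ b
    · rw [card_map]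
      exact hc2
    · intro i hi j hj hij
      obtain ⟨a, ha, rfl⟩ := mem_map.1 hi
      obtain ⟨b, hb, rfl⟩ := mem_map.1 hj
      have hab : a < b := em.lt_iff_lt.1 hij
      have h1 := hx a ha b hb hab.ne
      have h2 := hcol ⟨em a, hemn a⟩ ⟨em b, hemn b⟩ hij (x a) (x b)
      intro heq
      have h3 : (k ⟨em a, hemn a⟩ ⟨em b, hemn b⟩ : ℕ) = l := by
        have h4 : em a < n ∧ em b < n := ⟨hemn a, hemn b⟩
        simp only [RelEmbedding.coe_toEmbedding, h4, and_self, dif_pos] at heq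
        exact heq
      have h4 : k ⟨em a, hemn a⟩ ⟨em b, hemn b⟩ = ⟨l, hl⟩ := Fin.ext h3
      rw [h4] at h2
      exact h2 h1) (range n) (Subset.refl _) (by rw [card_range, hn])
  obtain ⟨i, hi, j, hj, hij⟩ := one_lt_card.1 (show 1 < I.card from hI2)
  have key : ∀ i ∈ I, ∀ j ∈ I, i < j → False := by
    intro i hi j hj hij
    have h4 : i < n ∧ j < n := ⟨mem_range.1 (hI hi), mem_range.1 (hI hj)⟩
    have h5 := hIk i hi j hj hij (k ⟨i, h4.1⟩ ⟨j, h4.2⟩ : ℕ) (k ⟨i, h4.1⟩ ⟨j, h4.2⟩).2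
    simp only [h4, and_self, dif_pos] at h5
    exact h5 rfl
  rcases lt_or_gt_of_ne hij with h | h
  · exact key i hi j hj h
  · exact key j hj i hi h

end Pool.Agent.Q84.MS
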