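import Pool.Agent.Q84.MS1

set_option autoImplicit false

/-!
# Few translates cover almost all of every large finite set
-/

namespace Pool.Agent.Q84.MS

open Finset

variable {G : Type*} [CommGroup G]

/-- `t` classes of `M` elements without quotients in `S` -/
def Templ (t M : ℕ) (S : Set G) : Prop :=
  ∃ A : Fin t → Fin M → G, Function.Injective (fun x : Fin t × Fin M => A x.1 x.2) ∧
    ∀ i j : Fin t, i ≠ j → ∀ s s', A i s / A j s' ∉ S

lemma templ_one [Infinite G] (M : ℕ) (S : Set G) : Templ 1 M S := by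
  refine ⟨fun _ s => Infinite.natEmbedding G (s : ℕ), fun x y h => ?_,
    fun i j hij => absurd (Subsingleton.elim i j) hij⟩
  exact Prod.ext (Subsingleton.elim _ _) (Fin.ext ((Infinite.natEmbedding G).injective h))

/-- one more class -/
theorem extend {S : Set G} (hinv : ∀ s ∈ S, s⁻¹ ∈ S) {t M K : ℕ} (A : Fin t → Fin M → G)
    (hA : Function.Injective (fun x : Fin t × Fin M => A x.1 x.2))
    (hbad : ∀ i j : Fin t, i ≠ j → ∀ s s', A i s / A j s' ∉ S) (Γ : Fin t → Finset (Fin M))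
    (hΓ : ∀ i, K ≤ (Γ i).card) (U : Finset G) (hU : K ≤ U.card)
    (hUA : ∀ u ∈ U, ∀ i s, u ≠ A i s) (hcr : ∀ u ∈ U, ∀ i, ∀ s ∈ Γ i, u / A i s ∉ S) :
    Templ (t + 1) K S := by
  classical
  choose Γ' hΓ' hΓc using fun i => exists_subset_card_eq (hΓ i)
  obtain ⟨U', hU', hUc⟩ := exists_subset_card_eq hU
  obtain ⟨e, he⟩ : ∃ e : ∀ i, Fin K → Fin M, ∀ i s, e i s = (Γ' i).orderEmbOfFin (hΓc i) s :=
    ⟨fun i s => _, fun i s => rfl⟩
  have heΓ : ∀ i s, e i s ∈ Γ i := fun i s => by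
    rw [he]; exact hΓ' i (orderEmbOfFin_mem _ _ _)
  have heinj : ∀ i, Function.Injective (e i) := by
    intro i s s' h
    rw [he, he] at h
    exact ((Γ' i).orderEmbOfFin (hΓc i)).injective h
  obtain ⟨v⟩ : Nonempty (Fin K ≃ U') := ⟨(U'.equivFinOfCardEq hUc).symm⟩
  have hvU : ∀ s, (v s : G) ∈ U := fun s => hU' (v s).2
  refine ⟨Fin.snoc (α := fun _ => Fin K → G) (fun i s => A i (e i s)) (fun s => (v s : G)), ?_, ?_⟩
  · rintro ⟨i, s⟩ ⟨j, s'⟩ h
    simp only at h
    revert h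
    refine Fin.lastCases ?_ (fun i => ?_) i
    · refine Fin.lastCases ?_ (fun j => ?_) j
      · intro h
        rw [Fin.snoc_last] at h
        rw [v.injective (Subtype.ext h)]
      · intro h
        rw [Fin.snoc_last, Fin.snoc_castSucc] at h
        exact absurd h (hUA _ (hvU s) _ _)
    · refine Fin.lastCases ?_ (fun j => ?_) j
      · intro h
        rw [Fin.snoc_last, Fin.snoc_castSucc] at h
        exact absurd h.symm (hUA _ (hvU s') _ _)
      · intro h
        rw [Fin.snoc_castSucc, Fin.snoc_castSucc] at h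
        have h1 := hA (a₁ := (i, e i s)) (a₂ := (j, e j s')) h
        obtain ⟨h2, h3⟩ := Prod.mk.inj h1
        subst h2
        rw [heinj i h3]
  · intro i j
    refine Fin.lastCases ?_ (fun i => ?_) i
    · refine Fin.lastCases (fun h => absurd rfl h) (fun j _ s s' => ?_) j
      rw [Fin.snoc_last, Fin.snoc_castSucc]
      exact hcr _ (hvU s) _ _ (heΓ _ _)
    · refine Fin.lastCases (fun _ s s' => ?_) (fun j hij s s' => ?_) j
      · rw [Fin.snoc_last, Fin.snoc_castSucc]
        intro h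
        refine hcr _ (hvU s') i _ (heΓ i s) ?_
        have := hinv _ h
        rwa [inv_div] at this
      · rw [Fin.snoc_castSucc, Fin.snoc_castSucc]
        exact hbad i j (fun h => hij (by rw [h])) _ _

/-- **Few translates cover almost all of every large finite set.** -/
theorem translates [Infinite G] {S : Set G} (hinv : ∀ s ∈ S, s⁻¹ ∈ S) {N K : ℕ} (hN : 2 ≤ N)
    (h : Cross N K S) : ∃ t : ℕ, 1 ≤ t ∧ t + 1 ≤ N ∧ ∀ ε : ℝ, 0 < ε → ∃ (E : Finset G) (n₀ : ℕ),
      ∀ (g : G) (F : Finset G), n₀ ≤ F.card → ∃ c : Fin t → G, (∀ i, c i ∈ E) ∧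
        ∃ Z ⊆ F, (∀ u ∈ F, u ∉ Z → ∃ i, u * (g * c i) ∈ S) ∧ (Z.card : ℝ) ≤ ε * F.card := by
  classical
  have hnot : ¬ Templ N K S := by
    rintro ⟨A, hA, hbad⟩
    obtain ⟨i, j, hij, s, s', h1⟩ := h A hA
    exact hbad i j hij s s' h1
  obtain ⟨t, ht1, htN, ht, K₀, hK₀⟩ : ∃ t, 1 ≤ t ∧ t + 1 ≤ N ∧ (∀ M, Templ t M S) ∧
      ∃ K₀, ¬ Templ (t + 1) K₀ S := by
    by_contra hcon
    push Not at hcon
    have h1 : ∀ t, 1 ≤ t → t ≤ N → ∀ M, Templ t M S := by
      intro t
      induction t with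
      | zero => intro h; omega
      | succ t ih =>
        intro _ h2
        rcases Nat.eq_zero_or_pos t with h0 | h0
        · subst h0
          exact fun M => templ_one M S
        · exact hcon t h0 h2 (ih h0 (by omega))
    exact hnot (h1 N (by omega) le_rfl K)
  refine ⟨t, ht1, htN, fun ε hε => ?_⟩
  obtain ⟨M, hM⟩ := exists_nat_ge (2 * ((K₀ : ℝ) + 1) / ε)
  have hM0 : (0 : ℝ) < M := lt_of_lt_of_le (by positivity) hM
  have hMK : (K₀ : ℝ) + 1 ≤ ε / 2 * M := by
    rw [div_le_iff₀ hε] at hM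
    linarith
  obtain ⟨A, hA, hbad⟩ := ht M
  obtain ⟨n₀, hn₀⟩ := exists_nat_ge (2 * (((Fintype.card (Fin t → Finset (Fin M)) * (K₀ + t * M) : ℕ) : ℝ) + 1) / ε)
  refine ⟨(univ : Finset (Fin t × Fin M)).image (fun x => (A x.1 x.2)⁻¹), n₀, fun g F hF => ?_⟩
  by_contra hcon
  push Not at hcon
  obtain ⟨bad, hbd⟩ : ∃ bad : (Fin t → Fin M) → Finset G, ∀ x, bad x =
      F.filter (fun u => ∀ i, u * g / A i (x i) ∉ S) := ⟨fun x => _, fun x => rfl⟩
  have hbadx : ∀ x : Fin t → Fin M, ε * F.card < (bad x).card := by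
    intro x
    refine hcon (fun i => (A i (x i))⁻¹) (fun i => mem_image.2 ⟨(i, x i), mem_univ _, rfl⟩) (bad x)
      (by rw [hbd]; exact filter_subset _ _) ?_
    intro u hu hux
    rw [hbd, mem_filter, not_and] at hux
    have h1 := hux hu
    push Not at h1
    obtain ⟨i, hi⟩ := h1
    refine ⟨i, ?_⟩
    rw [div_eq_mul_inv, mul_assoc] at hi
    exact hi
  obtain ⟨Γ, hΓ⟩ : ∃ Γ : G → Fin t → Finset (Fin M), ∀ u i, Γ u i =
      univ.filter (fun s => u * g / A i s ∉ S) := ⟨fun u i => _, fun u i => rfl⟩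
  have hcount : ∀ u ∈ F, (univ.filter (fun x : Fin t → Fin M => u ∈ bad x)).card =
      ∏ i, (Γ u i).card := by
    intro u hu
    rw [← Fintype.card_piFinset]
    congr 1
    ext x
    rw [mem_filter, Fintype.mem_piFinset, hbd, mem_filter]
    simp only [mem_univ, true_and, hu, hΓ, mem_filter]
  -- double counting
  have hF0 : 0 < F.card := by
    have h1 : (0 : ℝ) < n₀ := lt_of_lt_of_le (by positivity) hn₀
    have h2 : 0 < n₀ := by exact_mod_cast h1
    omega
  obtain ⟨F1, hF1⟩ : ∃ F1 : Finset G, F1 = F.filter (fun u => ε / 2 * (M : ℝ) ^ t ≤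
      ((∏ i, (Γ u i).card : ℕ) : ℝ)) := ⟨_, rfl⟩
  have hF1c : ε / 2 * F.card ≤ (F1.card : ℝ) := by
    have h1 : ∑ x : Fin t → Fin M, ((bad x).card : ℝ) = ∑ u ∈ F, ((∏ i, (Γ u i).card : ℕ) : ℝ) := by
      have h2 : ∑ x : Fin t → Fin M, (bad x).card = ∑ u ∈ F, ∏ i, (Γ u i).card := by
        calc ∑ x : Fin t → Fin M, (bad x).card
            = ∑ x : Fin t → Fin M, ∑ u ∈ F, if u ∈ bad x then 1 else 0 := by
              refine sum_congr rfl fun x _ => ?_
              rw [← sum_filter, sum_const, smul_eq_mul, mul_one]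
              congr 1
              ext u
              rw [mem_filter]
              refine ⟨fun hu => ⟨?_, hu⟩, fun hu => hu.2⟩
              rw [hbd] at hu
              exact (mem_filter.1 hu).1
          _ = ∑ u ∈ F, ∑ x : Fin t → Fin M, if u ∈ bad x then 1 else 0 := sum_comm
          _ = _ := by
              refine sum_congr rfl fun u hu => ?_
              rw [← hcount u hu, ← sum_filter, sum_const, smul_eq_mul, mul_one]
      exact_mod_cast h2
    have h2 : ε * F.card * (M : ℝ) ^ t ≤ ∑ x : Fin t → Fin M, ((bad x).card : ℝ) := by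
      calc ε * F.card * (M : ℝ) ^ t = ∑ _x : Fin t → Fin M, ε * (F.card : ℝ) := by
            rw [sum_const, card_univ, Fintype.card_fun, Fintype.card_fin, Fintype.card_fin,
              nsmul_eq_mul]
            push_cast
            ring
        _ ≤ _ := sum_le_sum fun x _ => (hbadx x).le
    have h3 : ∑ u ∈ F, ((∏ i, (Γ u i).card : ℕ) : ℝ) ≤
        F1.card * (M : ℝ) ^ t + F.card * (ε / 2 * (M : ℝ) ^ t) := by
      rw [← sum_filter_add_sum_filter_not F (fun u => ε / 2 * (M : ℝ) ^ t ≤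
        ((∏ i, (Γ u i).card : ℕ) : ℝ)), ← hF1]
      refine add_le_add ?_ ?_
      · refine (sum_le_card_nsmul _ _ ((M : ℝ) ^ t) fun u _ => ?_).trans (le_of_eq ?_)
        · have h4 : ∏ i, (Γ u i).card ≤ ∏ _i : Fin t, M := by
            refine prod_le_prod' fun i _ => ?_
            rw [hΓ]
            exact (card_filter_le _ _).trans (by simp)
          rw [prod_const, card_univ, Fintype.card_fin] at h4
          exact_mod_cast h4
        · rw [nsmul_eq_mul]
      · refine (sum_le_card_nsmul _ _ (ε / 2 * (M : ℝ) ^ t) fun u hu => ?_).trans ?_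
        · exact (not_le.1 (mem_filter.1 hu).2).le
        · rw [nsmul_eq_mul]
          refine mul_le_mul_of_nonneg_right ?_ (by positivity)
          exact_mod_cast card_filter_le _ _
    rw [h1] at h2
    have h4 : (0 : ℝ) < (M : ℝ) ^ t := by positivity
    have h5 := h2.trans h3
    have h6 : (ε / 2 * F.card) * (M : ℝ) ^ t ≤ F1.card * (M : ℝ) ^ t := by nlinarith
    exact le_of_mul_le_mul_right h6 h4
  -- pigeonhole
  have hbig : Fintype.card (Fin t → Finset (Fin M)) * (K₀ + t * M) < F1.card := by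
    have h1 : ((n₀ : ℕ) : ℝ) ≤ F.card := by exact_mod_cast hF
    have h2 : (((Fintype.card (Fin t → Finset (Fin M)) * (K₀ + t * M) : ℕ) : ℝ) + 1) ≤ ε / 2 * F.card := by
      have h3 := hn₀.trans h1
      rw [div_le_iff₀ hε] at h3
      linarith
    have h4 := h2.trans hF1c
    have h5 : ((Fintype.card (Fin t → Finset (Fin M)) * (K₀ + t * M) : ℕ) : ℝ) < F1.card := by linarith
    exact_mod_cast h5
  obtain ⟨γ, -, hγ⟩ := exists_lt_card_fiber_of_mul_lt_card_of_maps_to (s := F1)
    (t := (univ : Finset (Fin t → Finset (Fin M)))) (f := fun u => Γ u) (n := K₀ + t * M)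
    (fun _ _ => mem_univ _) (by rw [card_univ]; exact hbig)
  obtain ⟨U₁, hU₁⟩ : ∃ U₁ : Finset G, U₁ = (F1.filter fun u => Γ u = γ).image (fun u => u * g) := ⟨_, rfl⟩
  obtain ⟨V, hV⟩ : ∃ V : Finset G, V = (univ : Finset (Fin t × Fin M)).image (fun x => A x.1 x.2) := ⟨_, rfl⟩
  have hVc : V.card ≤ t * M := by
    rw [hV]
    refine card_image_le.trans ?_
    rw [card_univ, Fintype.card_prod, Fintype.card_fin, Fintype.card_fin]
  have hU₁c : K₀ + t * M < U₁.card := by
    rw [hU₁, card_image_of_injective _ (mul_left_injective g)]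
    exact hγ
  refine hK₀ (extend hinv A hA hbad γ ?_ (U₁ \ V) ?_ ?_ ?_)
  · intro i
    obtain ⟨u, hu⟩ : (F1.filter fun u => Γ u = γ).Nonempty := by
      rw [← card_pos]
      omega
    obtain ⟨hu1, hu2⟩ := mem_filter.1 hu
    rw [hF1] at hu1
    have h1 := (mem_filter.1 hu1).2
    rw [hu2] at h1
    have h2 : ∏ j, (γ j).card ≤ (γ i).card * M ^ (t - 1) := by
      rw [← mul_prod_erase univ _ (mem_univ i)]
      refine Nat.mul_le_mul_left _ ?_
      calc ∏ j ∈ univ.erase i, (γ j).card ≤ ∏ _j ∈ univ.erase i, M :=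
            prod_le_prod' fun j _ => by simpa using card_le_univ (γ j)
        _ = M ^ (t - 1) := by rw [prod_const, card_erase_of_mem (mem_univ _), card_univ, Fintype.card_fin]
    have h3 : ((∏ j, (γ j).card : ℕ) : ℝ) ≤ (γ i).card * (M : ℝ) ^ (t - 1) := by exact_mod_cast h2
    have h4 : (M : ℝ) ^ t = M * (M : ℝ) ^ (t - 1) := by
      rw [← pow_succ']
      congr 1
      omega
    rw [h4] at h1
    have h5 : (0 : ℝ) < (M : ℝ) ^ (t - 1) := by positivity
    have h6 : (ε / 2 * M) * (M : ℝ) ^ (t - 1) ≤ (γ i).card * (M : ℝ) ^ (t - 1) := by nlinarith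
    have h7 := le_of_mul_le_mul_right h6 h5
    have h8 : (K₀ : ℝ) ≤ (γ i).card := by linarith
    exact_mod_cast h8
  · have h1 := le_card_sdiff V U₁
    omega
  · intro u hu i s h1
    obtain ⟨-, h2⟩ := mem_sdiff.1 hu
    apply h2
    rw [hV, h1]
    exact mem_image.2 ⟨(i, s), mem_univ _, rfl⟩
  · intro u hu i s hs
    obtain ⟨h1, -⟩ := mem_sdiff.1 hu
    rw [hU₁] at h1
    obtain ⟨w, hw, rfl⟩ := mem_image.1 h1
    obtain ⟨-, hw2⟩ := mem_filter.1 hw
    rw [← hw2, hΓ] at hs
    exact (mem_filter.1 hs).2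

end Pool.Agent.Q84.MS
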