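import Pool.Agent.Q84.MS2
import Pool.Agent.Q178.RS.Nt

set_option autoImplicit false

/-!
# Ratios of shifted primes for several shifts simultaneously
-/

namespace Pool.Agent.Q84.MS

open Finset Filter Q178.RS Pool.Agent.H732R3.BigQ Pool.Agent.TH899.UG

theorem hit_rs : ∃ c₀ : ℝ, 0 < c₀ ∧ c₀ < 1 ∧ ∀ T : ℕ, ∃ K : ℕ, ∀ {κ : ℤ}, κ ≠ 0 →
    ∀ G : Subgroup ℚˣ, G ≤ adm κ → Hit c₀ T K {u : G | Solved κ ((u : ℚˣ) : ℚ)} := by
  classical
  obtain ⟨c₀, hc₀, hc₁, hQ⟩ := quarterD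
  refine ⟨c₀, hc₀, hc₁, fun T => ?_⟩
  obtain ⟨K, hK, hQT⟩ := hQ T
  refine ⟨K, fun {κ} hκ G hG A hA => ?_⟩
  have hov : ∀ i j : Fin T, i ≠ j → ∀ s t, A i s ≠ A j t := by
    intro i j hij s t h
    have h1 := hA (a₁ := (i, s)) (a₂ := (j, t)) h
    exact hij (Prod.mk.inj h1).1
  obtain ⟨v, hv⟩ : ∃ v : Fin T → Fin K → ℚ, v = fun i s => (((A i s : G) : ℚˣ) : ℚ) := ⟨_, rfl⟩
  have hv0 : ∀ i s, 0 < v i s := fun i s => by rw [hv]; exact (hG (A i s).2).1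
  have hvn : ∀ i s, IsCoprime (v i s).num κ := fun i s => by rw [hv]; exact (hG (A i s).2).2.1
  have hvd : ∀ i s, IsCoprime ((v i s).den : ℤ) κ := fun i s => by rw [hv]; exact (hG (A i s).2).2.2
  obtain ⟨N, hN⟩ : ∃ N : ℕ, N = ∏ x : Fin T × Fin K, (v x.1 x.2).den := ⟨_, rfl⟩
  have hNκ : IsCoprime (N : ℤ) κ := by
    rw [hN]
    push_cast
    exact IsCoprime.prod_left fun x _ => hvd _ _
  have hN0 : 0 < N := by rw [hN]; exact Finset.prod_pos fun x _ => Rat.pos _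
  have hdN : ∀ i s, (v i s).den ∣ N := fun i s => by
    rw [hN]; exact Finset.dvd_prod_of_mem (fun x : Fin T × Fin K => (v x.1 x.2).den) (Finset.mem_univ (i, s))
  choose M hM using hdN
  obtain ⟨a, ha⟩ : ∃ a : Fin T → Fin K → ℤ, a = fun i s => (v i s).num * M i s := ⟨_, rfl⟩
  have haq : ∀ i s, (a i s : ℚ) = v i s * N := by
    intro i s
    rw [ha, hM i s]
    push_cast
    have h1 : (v i s) * (v i s).den = (v i s).num := Rat.mul_den_eq_num _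
    rw [← mul_assoc, h1]
  have hNq : (0 : ℚ) < N := by exact_mod_cast hN0
  have ha0 : ∀ i s, 0 < a i s := by
    intro i s
    have h1 : (0 : ℚ) < a i s := by rw [haq]; exact mul_pos (hv0 i s) hNq
    exact_mod_cast h1
  have hMκ : ∀ i s, IsCoprime (M i s : ℤ) κ := by
    intro i s
    refine IsCoprime.of_isCoprime_of_dvd_left hNκ ?_
    rw [hM i s]
    push_cast
    exact Dvd.intro_left _ rfl
  have haκ : ∀ i s, IsCoprime (a i s) κ := by
    intro i s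
    rw [ha]
    exact (hvn i s).mul_left (hMκ i s)
  have hinj : Function.Injective (fun x : Fin T × Fin K => (a x.1 x.2, κ)) := by
    rintro ⟨i, s⟩ ⟨j, t⟩ h
    have h1 : a i s = a j t := (Prod.mk.inj h).1
    have h2 : v i s * N = v j t * N := by rw [← haq, ← haq, h1]
    have h3 : v i s = v j t := mul_right_cancel₀ hNq.ne' h2
    have h4 : A i s = A j t := by
      rw [hv] at h3
      exact Subtype.ext (Units.ext h3)
    exact hA (a₁ := (i, s)) (a₂ := (j, t)) h4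
  obtain ⟨S, c, hS, hBig⟩ := hQT a (fun _ _ => κ) ha0 hinj (by
    intro p hp
    have hpp := Nat.prime_iff_prime_int.1 hp
    by_cases hpκ : (p : ℤ) ∣ κ
    · refine ⟨1, fun g s hdv => ?_⟩
      rw [mul_one] at hdv
      have h1 : (p : ℤ) ∣ a g s := (dvd_add_left hpκ).1 hdv
      exact hpp.not_isUnit ((haκ g s).isUnit_of_dvd' h1 hpκ)
    · refine ⟨0, fun g s hdv => ?_⟩
      rw [mul_zero, zero_add] at hdv
      exact hpκ hdv)
  refine ⟨S, c, hS, fun i hi j hj hij => ?_⟩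
  show Solved κ (((A i (c i) / A j (c j) : G) : ℚˣ) : ℚ)
  obtain ⟨u, hu⟩ : ∃ u : G, u = A i (c i) / A j (c j) := ⟨_, rfl⟩
  rw [← hu]
  have huq : ((u : ℚˣ) : ℚ) = v i (c i) / v j (c j) := by
    rw [hu, hv]
    push_cast
    simp [div_eq_mul_inv]
  refine solved_of_big hκ _ (hG u.2).1 ?_ (hG u.2).2.1 (hG u.2).2.2 (a i (c i)) (a j (c j)) (ha0 _ _) ?_ _
    hBig (fun n hn => ⟨hn i hi, hn j hj⟩)
  · intro h1
    rw [huq, div_eq_one_iff_eq (hv0 _ _).ne'] at h1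
    apply hov i j hij (c i) (c j)
    rw [hv] at h1
    exact Subtype.ext (Units.ext h1)
  · rw [huq, haq, haq, mul_div_mul_right _ _ hNq.ne']

/-- the ratios which are solved for all `κ l` -/
def AllSolved {r : ℕ} (κ : Fin r → ℤ) (P : ℤ) : Set (adm P) := {u | ∀ l, Solved (κ l) ((u : ℚˣ) : ℚ)}

lemma adm_le {r : ℕ} (κ : Fin r → ℤ) (l : Fin r) : adm (∏ l, κ l) ≤ adm (κ l) := by
  rintro u ⟨h1, h2, h3⟩
  have hd : κ l ∣ ∏ l, κ l := dvd_prod_of_mem κ (mem_univ l)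
  exact ⟨h1, IsCoprime.of_isCoprime_of_dvd_right h2 hd, IsCoprime.of_isCoprime_of_dvd_right h3 hd⟩

theorem cross_rs (r : ℕ) (hr : 0 < r) (κ : Fin r → ℤ) (hκ : ∀ l, κ l ≠ 0) :
    ∃ K : ℕ, Cross (nn r) K (AllSolved κ (∏ l, κ l)) := by
  classical
  obtain ⟨c₀, hc₀, hc₁, h⟩ := hit_rs
  choose K hK using h
  obtain ⟨L, hL⟩ : ∃ L : ℕ, L = (range (nn r + 1)).sup K := ⟨_, rfl⟩
  have hKL : ∀ T ≤ nn r, K T ≤ L := fun T hT => by
    rw [hL]
    exact le_sup (f := K) (mem_range.2 (Nat.lt_succ_of_le hT))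
  obtain ⟨K', -, hi⟩ := inter (G := adm (∏ l, κ l)) hc₀ hc₁ r L hr
  exact ⟨K', hi (fun l => {u | Solved (κ l) ((u : ℚˣ) : ℚ)}) fun l T hT =>
    (hK T (hκ l) (adm (∏ l, κ l)) (adm_le κ l)).mono (hKL T hT)⟩

lemma all_inv {r : ℕ} (κ : Fin r → ℤ) (P : ℤ) (s : adm P) (hs : s ∈ AllSolved κ P) :
    s⁻¹ ∈ AllSolved κ P := fun l => by
  have := solved_inv (hs l)
  simpa using this

/-- a natural number as an element of the group -/
def ofNat (P : ℤ) (n : ℕ) (hn : 0 < n) (hc : IsCoprime (n : ℤ) P) : adm P :=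
  ⟨Units.mk0 (n : ℚ) (by exact_mod_cast hn.ne'), by
    refine ⟨by rw [Units.val_mk0]; exact_mod_cast hn, ?_, ?_⟩
    · rw [Units.val_mk0, Rat.num_natCast]
      exact hc
    · rw [Units.val_mk0, Rat.den_natCast]
      simpa using isCoprime_one_left⟩

lemma ofNat_val (P : ℤ) (n : ℕ) (hn : 0 < n) (hc : IsCoprime (n : ℤ) P) :
    ((ofNat P n hn hc : ℚˣ) : ℚ) = n := rfl

/-- a finite set becomes a set of natural numbers -/
lemma clear (P : ℤ) (hP : P ≠ 0) (E : Finset (adm P)) : ∃ g : adm P, ∀ e ∈ E, ∃ n : ℕ, 2 ≤ n ∧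
    IsCoprime (n : ℤ) P ∧ (((g * e : adm P) : ℚˣ) : ℚ) = n := by
  classical
  obtain ⟨w, hw⟩ : ∃ w : ℕ, w = P.natAbs + 1 := ⟨_, rfl⟩
  have hw2 : 2 ≤ w := by
    have := Int.natAbs_pos.2 hP
    omega
  have hwc : IsCoprime (w : ℤ) P := by
    obtain ⟨t, ht⟩ : P ∣ ((P.natAbs : ℕ) : ℤ) := Int.dvd_natAbs.2 dvd_rfl
    refine ⟨1, -t, ?_⟩
    rw [hw]
    push_cast at ht ⊢
    linear_combination ht
  obtain ⟨N, hN⟩ : ∃ N : ℕ, N = ∏ e ∈ E, (((e : adm P) : ℚˣ) : ℚ).den := ⟨_, rfl⟩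
  have hN0 : 0 < N := by rw [hN]; exact prod_pos fun x _ => Rat.pos _
  have hNc : IsCoprime (N : ℤ) P := by
    rw [hN]
    push_cast
    exact IsCoprime.prod_left fun x _ => x.2.2.2
  refine ⟨ofNat P (w * N) (Nat.mul_pos (by omega) hN0) (by push_cast; exact hwc.mul_left hNc), ?_⟩
  intro e he
  obtain ⟨M, hM⟩ : ((e : ℚˣ) : ℚ).den ∣ N := by
    rw [hN]
    exact dvd_prod_of_mem (fun e : adm P => ((e : ℚˣ) : ℚ).den) he
  have he0 : 0 < ((e : ℚˣ) : ℚ) := e.2.1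
  have hnum : 0 < ((e : ℚˣ) : ℚ).num := Rat.num_pos.2 he0
  obtain ⟨a, ha⟩ : ∃ a : ℕ, (a : ℤ) = ((e : ℚˣ) : ℚ).num := ⟨_, Int.toNat_of_nonneg hnum.le⟩
  have ha0 : 0 < a := by
    have : (0 : ℤ) < a := by rw [ha]; exact hnum
    exact_mod_cast this
  have hM0 : 0 < M := Nat.pos_of_ne_zero (by rintro rfl; omega)
  refine ⟨w * M * a, ?_, ?_, ?_⟩
  · calc 2 ≤ w := hw2
      _ ≤ w * (M * a) := Nat.le_mul_of_pos_right _ (Nat.mul_pos hM0 ha0)
      _ = w * M * a := by ring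
  · push_cast
    refine (hwc.mul_left ?_).mul_left ?_
    · refine IsCoprime.of_isCoprime_of_dvd_left hNc ?_
      rw [hM]
      push_cast
      exact Dvd.intro_left _ rfl
    · rw [ha]
      exact e.2.2.1
  · rw [Subgroup.coe_mul, Units.val_mul, ofNat_val]
    have h1 : ((e : ℚˣ) : ℚ) * ((e : ℚˣ) : ℚ).den = ((e : ℚˣ) : ℚ).num := Rat.mul_den_eq_num _
    have h2 : (((e : ℚˣ) : ℚ).num : ℚ) = a := by rw [← ha]; simp
    have h3 : (N : ℚ) = ((e : ℚˣ) : ℚ).den * M := by exact_mod_cast hM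
    push_cast
    rw [h3]
    rw [h2] at h1
    linear_combination (w : ℚ) * M * h1

/-- many primes `q` with `a + q d` prime -/
def Many (a d : ℤ) : Prop := ∀ η : ℝ, 0 < η → ∃ᶠ x : ℝ in atTop,
  x ^ (1 - η) ≤ ({q : ℕ | (q : ℝ) ≤ x ∧ q.Prime ∧ ∃ p : ℕ, p.Prime ∧ a + q * d = p}.ncard : ℝ)

lemma many_of {κ : ℤ} {D : ℕ} (h : Solved κ (D : ℚ)) : Many (κ * (1 - D)) D := by
  obtain ⟨a, b, hab, ha, hb, -, hco, -, -, -, -, hm⟩ := h
  have ha0 : (a : ℚ) ≠ 0 := by exact_mod_cast (by omega : a ≠ 0)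
  have h1 : b = D * a := by
    rw [eq_div_iff ha0] at hab
    exact_mod_cast hab.symm
  have h2 : a = 1 := by
    rw [h1] at hco
    push_cast at hco
    have h3 : IsCoprime (a : ℤ) a := IsCoprime.of_isCoprime_of_dvd_right hco (Dvd.intro_left _ rfl)
    have h4 := Int.natAbs_of_isUnit (isCoprime_self.1 h3)
    simpa using h4
  subst h2
  rw [mul_one] at h1
  subst h1
  intro η hη
  refine (hm η hη).mono fun x hx => hx.trans (le_of_eq ?_)
  congr 2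
  ext q
  simp only [Set.mem_ofPred_eq]
  constructor
  · rintro ⟨⟨hq, p, hp, hpq⟩, hx⟩
    refine ⟨hx, hq, p, hp, ?_⟩
    push_cast at hpq
    linear_combination -hpq
  · rintro ⟨hx, hq, p, hp, hpq⟩
    refine ⟨⟨hq, p, hp, ?_⟩, hx⟩
    push_cast
    linear_combination -hpq

/-- the number of multipliers -/
def mm (r : ℕ) : ℕ := (2 * 4 ^ r + 1) / 3

lemma nn_mm (r : ℕ) : nn r = mm r + 1 := by
  have h1 := nn_eq r
  have h2 : 1 ≤ 4 ^ r := Nat.one_le_pow _ _ (by norm_num)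
  unfold mm
  omega

/-- natural multipliers for almost all elements of a finite set -/
theorem cover (r : ℕ) (hr : 0 < r) (κ : Fin r → ℤ) (hκ : ∀ l, κ l ≠ 0) :
    ∃ t : ℕ, 1 ≤ t ∧ t ≤ mm r ∧ ∀ ε : ℝ, 0 < ε → ∃ B n₀ : ℕ, ∀ F : Finset ℕ,
      (∀ d ∈ F, 0 < d ∧ ∀ l, IsCoprime (d : ℤ) (κ l)) → n₀ ≤ F.card →
      ∃ c : Fin t → ℕ, (∀ i, 2 ≤ c i ∧ c i ≤ B ∧ ∀ l, IsCoprime (c i : ℤ) (κ l)) ∧
        ∃ Z ⊆ F, (Z.card : ℝ) ≤ ε * F.card ∧ ∀ d ∈ F, d ∉ Z → ∃ i, ∀ l,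
          Many (κ l * (1 - (c i * d : ℕ))) (c i * d : ℕ) := by
  classical
  obtain ⟨P, hP⟩ : ∃ P : ℤ, P = ∏ l, κ l := ⟨_, rfl⟩
  have hP0 : P ≠ 0 := by rw [hP]; exact prod_ne_zero_iff.2 fun l _ => hκ l
  have hcop : ∀ n : ℕ, (∀ l, IsCoprime (n : ℤ) (κ l)) → IsCoprime (n : ℤ) P := by
    intro n hn
    rw [hP]
    exact IsCoprime.prod_right fun l _ => hn l
  have hcop' : ∀ n : ℕ, IsCoprime (n : ℤ) P → ∀ l, IsCoprime (n : ℤ) (κ l) := by
    intro n hn l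
    refine IsCoprime.of_isCoprime_of_dvd_right hn ?_
    rw [hP]
    exact dvd_prod_of_mem κ (mem_univ l)
  obtain ⟨K, hK⟩ := cross_rs r hr κ hκ
  rw [← hP] at hK
  have := adm_infinite hP0
  obtain ⟨t, ht1, htN, ht⟩ := translates (all_inv κ P) (two_le_nn r) hK
  rw [nn_mm] at htN
  refine ⟨t, ht1, by omega, fun ε hε => ?_⟩
  obtain ⟨E, n₀, h⟩ := ht ε hε
  obtain ⟨g, hg⟩ := clear P hP0 E
  choose! nu hnu using hg
  refine ⟨E.sup nu, n₀, fun F hF hFc => ?_⟩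
  obtain ⟨em, hem⟩ : ∃ em : ℕ → adm P, ∀ n : ℕ, (∀ l, IsCoprime (n : ℤ) (κ l)) → 0 < n →
      ((em n : ℚˣ) : ℚ) = n := by
    refine ⟨fun n => if h : (∀ l, IsCoprime (n : ℤ) (κ l)) ∧ 0 < n then
      ofNat P n h.2 (hcop n h.1) else 1, fun n h1 h2 => ?_⟩
    beta_reduce
    rw [dif_pos ⟨h1, h2⟩]
    rfl
  have heminj : Set.InjOn em F := by
    intro a ha b hb hab
    have h1 := hem a (hF a ha).2 (hF a ha).1
    have h2 := hem b (hF b hb).2 (hF b hb).1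
    rw [hab, h2] at h1
    exact_mod_cast h1.symm
  obtain ⟨c, hc, Z, hZF, hZ, hZc⟩ := h g (F.image em) (by rw [card_image_of_injOn heminj]; exact hFc)
  rw [card_image_of_injOn heminj] at hZc
  refine ⟨fun i => nu (c i), fun i => ⟨(hnu _ (hc i)).1, le_sup (f := nu) (hc i), hcop' _ (hnu _ (hc i)).2.1⟩,
    F.filter (fun d => em d ∈ Z), filter_subset _ _, ?_, ?_⟩
  · refine le_trans ?_ hZc
    rw [Nat.cast_le]
    rw [← card_image_of_injOn (heminj.mono (filter_subset _ _) : Set.InjOn em (F.filter (fun d => em d ∈ Z)))]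
    refine card_le_card ?_
    intro x hx
    obtain ⟨d, hd, rfl⟩ := mem_image.1 hx
    exact (mem_filter.1 hd).2
  · intro d hd hdZ
    have h1 : em d ∉ Z := fun h2 => hdZ (mem_filter.2 ⟨hd, h2⟩)
    obtain ⟨i, hi⟩ := hZ (em d) (mem_image_of_mem _ hd) h1
    refine ⟨i, fun l => ?_⟩
    have h2 := hi l
    have h3 : (((em d * (g * c i) : adm P) : ℚˣ) : ℚ) = ((nu (c i) * d : ℕ) : ℚ) := by
      rw [Subgroup.coe_mul, Units.val_mul, hem d (hF d hd).2 (hF d hd).1, (hnu _ (hc i)).2.2]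
      push_cast
      ring
    rw [h3] at h2
    exact many_of h2

/-- density in almost invariant sets -/
theorem dens (r : ℕ) (hr : 0 < r) (κ : Fin r → ℤ) (hκ : ∀ l, κ l ≠ 0) (ε : ℝ) (hε : 0 < ε) :
    ∃ B : ℕ, ∀ F : Finset ℕ, (∀ d ∈ F, 0 < d ∧ ∀ l, IsCoprime (d : ℤ) (κ l)) → B ≤ F.card →
      (∀ k : ℕ, 1 ≤ k → k ≤ B → (∀ l, IsCoprime (k : ℤ) (κ l)) →
        B * ({n : ℕ | n ∈ F ∧ k * n ∉ F}.ncard) ≤ F.card) →
      (1 / (mm r : ℝ) - ε) * F.card ≤ ({D : ℕ | D ∈ F ∧ ∀ l, Many (κ l * (1 - D)) D}.ncard : ℝ) := by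
  classical
  obtain ⟨t, ht1, htm, h⟩ := cover r hr κ hκ
  obtain ⟨B, n₀, hB⟩ := h (ε / 2) (by positivity)
  obtain ⟨B', hB'⟩ := exists_nat_ge (2 / ε)
  refine ⟨B + B' + n₀ + 1, fun F hF hFc hinv => ?_⟩
  obtain ⟨c, hc, Z, hZF, hZ, hcov⟩ := hB F hF (by omega)
  have hF0 : (0 : ℝ) < F.card := by
    have : 0 < F.card := by omega
    exact_mod_cast this
  obtain ⟨W, hW⟩ : ∃ W : Finset ℕ, W = F.filter (fun D : ℕ => ∀ l, Many (κ l * (1 - D)) D) := ⟨_, rfl⟩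
  have hWn : ({D : ℕ | D ∈ F ∧ ∀ l, Many (κ l * (1 - D)) D}.ncard : ℝ) = W.card := by
    rw [hW, ← Set.ncard_coe_finset]
    congr 2
    ext D
    simp
  rw [hWn]
  -- each translate
  have hi : ∀ i, ((F.filter (fun d => ∀ l, Many (κ l * (1 - (c i * d : ℕ))) (c i * d : ℕ))).card : ℝ) ≤
      W.card + ε / 2 * F.card := by
    intro i
    obtain ⟨hc2, hcB, hcc⟩ := hc i
    have h1 := hinv (c i) (by omega) (by omega) hcc
    have h2 : ({n : ℕ | n ∈ F ∧ c i * n ∉ F}.ncard : ℝ) = ((F.filter (fun n => c i * n ∉ F)).card : ℝ) := by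
      rw [← Set.ncard_coe_finset]
      congr 2
      ext D
      simp
    have h3 : (F.filter (fun d => ∀ l, Many (κ l * (1 - (c i * d : ℕ))) (c i * d : ℕ))).card ≤
        W.card + (F.filter (fun n => c i * n ∉ F)).card := by
      have h4 : (F.filter (fun d => ∀ l, Many (κ l * (1 - (c i * d : ℕ))) (c i * d : ℕ))) ⊆
          (F.filter (fun d => c i * d ∈ W)) ∪ (F.filter (fun n => c i * n ∉ F)) := by
        intro d hd
        obtain ⟨hd1, hd2⟩ := mem_filter.1 hd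
        rw [mem_union, mem_filter, mem_filter]
        by_cases h5 : c i * d ∈ F
        · left
          refine ⟨hd1, ?_⟩
          rw [hW, mem_filter]
          exact ⟨h5, hd2⟩
        · exact Or.inr ⟨hd1, h5⟩
      refine (card_le_card h4).trans ((card_union_le _ _).trans (Nat.add_le_add_right ?_ _))
      refine card_le_card_of_injOn (fun d => c i * d) (fun d hd => (mem_filter.1 hd).2) ?_
      intro a _ b _ hab
      exact Nat.eq_of_mul_eq_mul_left (by omega : 0 < c i) hab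
    have h4 : ((F.filter (fun n => c i * n ∉ F)).card : ℝ) ≤ ε / 2 * F.card := by
      have h5 : ((B + B' + n₀ + 1 : ℕ) : ℝ) * ({n : ℕ | n ∈ F ∧ c i * n ∉ F}.ncard : ℝ) ≤ F.card := by
        exact_mod_cast h1
      rw [h2] at h5
      have h6 : 2 / ε ≤ ((B + B' + n₀ + 1 : ℕ) : ℝ) := by
        refine hB'.trans ?_
        exact_mod_cast (by omega : B' ≤ B + B' + n₀ + 1)
      have h7 : 2 / ε * ((F.filter (fun n => c i * n ∉ F)).card : ℝ) ≤ F.card :=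
        (mul_le_mul_of_nonneg_right h6 (Nat.cast_nonneg _)).trans h5
      rw [div_mul_eq_mul_div, div_le_iff₀ hε] at h7
      linarith
    have h5 : ((F.filter (fun d => ∀ l, Many (κ l * (1 - (c i * d : ℕ))) (c i * d : ℕ))).card : ℝ) ≤
        W.card + ((F.filter (fun n => c i * n ∉ F)).card : ℝ) := by exact_mod_cast h3
    linarith
  have hsum : (1 - ε / 2) * (F.card : ℝ) ≤ t * (W.card + ε / 2 * F.card) := by
    have h1 : (F \ Z).card ≤ ∑ i, (F.filter (fun d => ∀ l, Many (κ l * (1 - (c i * d : ℕ)))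
        (c i * d : ℕ))).card := by
      refine le_trans (card_le_card ?_) card_biUnion_le
      intro d hd
      obtain ⟨hd1, hd2⟩ := mem_sdiff.1 hd
      obtain ⟨i, hi⟩ := hcov d hd1 hd2
      exact mem_biUnion.2 ⟨i, mem_univ _, mem_filter.2 ⟨hd1, hi⟩⟩
    have h2 : ((F \ Z).card : ℝ) ≤ ∑ i, ((F.filter (fun d => ∀ l, Many (κ l * (1 - (c i * d : ℕ)))
        (c i * d : ℕ))).card : ℝ) := by exact_mod_cast h1
    have h3 := h2.trans (sum_le_sum fun i _ => hi i)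
    rw [sum_const, card_univ, Fintype.card_fin, nsmul_eq_mul] at h3
    have h4 : F.card ≤ (F \ Z).card + Z.card := by
      rw [card_sdiff_of_subset hZF]
      omega
    have h5 : (F.card : ℝ) ≤ ((F \ Z).card : ℝ) + Z.card := by exact_mod_cast h4
    linarith
  have ht0 : (1 : ℝ) ≤ t := by exact_mod_cast ht1
  have htm' : (t : ℝ) ≤ mm r := by exact_mod_cast htm
  have h1 : (1 / (mm r : ℝ) - ε) * F.card = (F.card - mm r * (ε * F.card)) / mm r := by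
    have : (mm r : ℝ) ≠ 0 := by linarith
    field_simp
  have hm0 : (0 : ℝ) < mm r := by linarith
  rw [h1, div_le_iff₀ hm0]
  have hW0 : (0 : ℝ) ≤ W.card := Nat.cast_nonneg _
  have h2 : (t : ℝ) * (W.card + ε / 2 * F.card) ≤ mm r * (W.card + ε / 2 * F.card) :=
    mul_le_mul_of_nonneg_right htm' (by positivity)
  have h3 : ε / 2 * (F.card : ℝ) ≤ mm r * (ε / 2 * F.card) :=
    le_mul_of_one_le_left (by positivity) (by linarith)
  nlinarith

end Pool.Agent.Q84.MS
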