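import Mathlib

/-!
# The moment functional `x ↦ (coefficient of z^d in ∏ J(x_i z))`, `J(z) = ∑ z^m / (m!)^2`

Two-variable smoothing and compactness: on the simplex the functional is maximal exactly at the
constant vector.
-/

namespace Pool.Agent.Q84.MomA

open Finset Polynomial

/-- `P_k(x,y) = ∑_a C(k,a)^2 x^a y^(k-a)`. -/
noncomputable def P (k : ℕ) (x y : ℝ) : ℝ :=
  ∑ a ∈ Finset.range (k + 1), ((k.choose a : ℝ)) ^ 2 * x ^ a * y ^ (k - a)

lemma coeff_lin_pow (x y : ℝ) (k n : ℕ) (hn : n ≤ k) :
    ((C x * X + C y : ℝ[X]) ^ k).coeff n = x ^ n * y ^ (k - n) * (k.choose n : ℝ) := by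
  rw [add_pow]
  simp only [mul_pow, ← C_pow]
  rw [Polynomial.finsetSum_coeff]
  rw [Finset.sum_eq_single n]
  · have : (C (x ^ n) * X ^ n * C (y ^ (k - n)) * ((k.choose n : ℕ) : ℝ[X])) =
        C (x ^ n * y ^ (k - n) * (k.choose n : ℝ)) * X ^ n := by
      simp only [C_mul, map_natCast]
      ring
    rw [this, coeff_C_mul_X_pow]
    simp
  · intro b _ hb
    have : (C (x ^ b) * X ^ b * C (y ^ (k - b)) * ((k.choose b : ℕ) : ℝ[X])) =
        C (x ^ b * y ^ (k - b) * (k.choose b : ℝ)) * X ^ b := by
      simp only [C_mul, map_natCast]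
      ring
    rw [this, coeff_C_mul_X_pow]
    simp [Ne.symm hb]
  · intro h
    exfalso
    apply h
    simp
    omega

lemma P_eq_coeff (k : ℕ) (x y : ℝ) :
    P k x y = (((C x * X + C y : ℝ[X]) ^ k) * (X + 1) ^ k).coeff k := by
  rw [coeff_mul, Finset.Nat.sum_antidiagonal_eq_sum_range_succ_mk, P]
  apply Finset.sum_congr rfl
  intro a ha
  have ha' : a ≤ k := by simpa [Nat.lt_succ_iff] using ha
  rw [coeff_lin_pow _ _ _ _ ha', coeff_X_add_one_pow]
  rw [Nat.choose_symm ha']
  ring

/-- the coefficient of `z^i` in `(x z^2 + y)^i` -/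
lemma coeff_sq_pow (x y : ℝ) (i : ℕ) :
    ((C x * X ^ 2 + C y : ℝ[X]) ^ i).coeff i =
      ∑ j ∈ Finset.range (i + 1), if 2 * j = i then (i.choose j : ℝ) * (x * y) ^ j else 0 := by
  rw [add_pow]
  simp only [mul_pow, ← C_pow]
  rw [Polynomial.finsetSum_coeff]
  apply Finset.sum_congr rfl
  intro j hj
  have hj' : j ≤ i := by simpa [Nat.lt_succ_iff] using hj
  have : (C (x ^ j) * (X ^ 2) ^ j * C (y ^ (i - j)) * ((i.choose j : ℕ) : ℝ[X])) =
        C (x ^ j * y ^ (i - j) * (i.choose j : ℝ)) * X ^ (2 * j) := by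
      simp only [C_mul, map_natCast, ← pow_mul]
      ring
  rw [this, coeff_C_mul_X_pow]
  by_cases h : 2 * j = i
  · rw [if_pos h.symm, if_pos h]
    have : i - j = j := by omega
    rw [this]
    ring
  · rw [if_neg (Ne.symm h), if_neg h]

lemma P_formula (k : ℕ) (x y : ℝ) :
    P k x y = ∑ i ∈ Finset.range (k + 1), ∑ j ∈ Finset.range (i + 1),
      if 2 * j = i then (k.choose i : ℝ) * (i.choose j : ℝ) * (x + y) ^ (k - i) * (x * y) ^ j
        else 0 := by
  rw [P_eq_coeff]
  have h1 : ((C x * X + C y : ℝ[X]) ^ k) * (X + 1) ^ k =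
      ((C x * X ^ 2 + C y) + C (x + y) * X) ^ k := by
    rw [← mul_pow]
    congr 1
    simp only [C_add]
    ring
  rw [h1, add_pow, Polynomial.finsetSum_coeff]
  apply Finset.sum_congr rfl
  intro i hi
  have hi' : i ≤ k := by simpa [Nat.lt_succ_iff] using hi
  have h2 : ((C x * X ^ 2 + C y : ℝ[X]) ^ i * (C (x + y) * X) ^ (k - i) *
      ((k.choose i : ℕ) : ℝ[X])) =
      (C ((x + y) ^ (k - i) * (k.choose i : ℝ)) * (C x * X ^ 2 + C y : ℝ[X]) ^ i) *
        X ^ (k - i) := by
    simp only [C_mul, map_natCast, mul_pow, C_pow]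
    ring
  rw [h2]
  have h3 := Polynomial.coeff_mul_X_pow
    (C ((x + y) ^ (k - i) * (k.choose i : ℝ)) * (C x * X ^ 2 + C y : ℝ[X]) ^ i) (k - i) i
  have h4 : i + (k - i) = k := by omega
  rw [h4] at h3
  rw [h3, coeff_C_mul, coeff_sq_pow, Finset.mul_sum]
  apply Finset.sum_congr rfl
  intro j _
  split_ifs
  · ring
  · ring

lemma P_mono (k : ℕ) {x y x' y' : ℝ} (hs : x + y = x' + y') (hs0 : 0 ≤ x + y)
    (hw : 0 ≤ x * y) (hw' : x * y ≤ x' * y') : P k x y ≤ P k x' y' := by
  rw [P_formula, P_formula]
  apply Finset.sum_le_sum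
  intro i _
  apply Finset.sum_le_sum
  intro j _
  split_ifs
  · rw [← hs]
    have : (x * y) ^ j ≤ (x' * y') ^ j := pow_le_pow_left₀ hw hw' j
    gcongr
  · exact le_rfl

lemma P_strict (k : ℕ) (hk : 2 ≤ k) {x y x' y' : ℝ} (hs : x + y = x' + y') (hs0 : 0 < x + y)
    (hw : 0 ≤ x * y) (hw' : x * y < x' * y') : P k x y < P k x' y' := by
  rw [P_formula, P_formula]
  apply Finset.sum_lt_sum
  · intro i _
    apply Finset.sum_le_sum
    intro j _
    split_ifs
    · rw [← hs]
      have : (x * y) ^ j ≤ (x' * y') ^ j := pow_le_pow_left₀ hw hw'.le j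
      gcongr
    · exact le_rfl
  · refine ⟨2, by simp; omega, ?_⟩
    apply Finset.sum_lt_sum
    · intro j _
      split_ifs
      · rw [← hs]
        have : (x * y) ^ j ≤ (x' * y') ^ j := pow_le_pow_left₀ hw hw'.le j
        gcongr
      · exact le_rfl
    · refine ⟨1, by simp, ?_⟩
      simp only [mul_one, if_true, pow_one]
      rw [← hs]
      have h1 : 0 < (k.choose 2 : ℝ) := by
        exact_mod_cast Nat.choose_pos hk
      have h2 : 0 < ((2 : ℕ).choose 1 : ℝ) := by norm_num
      gcongr


/-- `J(z) = ∑ x^m z^m / (m!)^2` -/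
noncomputable def J (x : ℝ) : PowerSeries ℝ :=
  PowerSeries.mk fun m => x ^ m / ((m.factorial : ℝ)) ^ 2

lemma coeff_J (x : ℝ) (m : ℕ) :
    PowerSeries.coeff m (J x) = x ^ m / ((m.factorial : ℝ)) ^ 2 := by
  simp [J]

lemma coeff_J_mul (x y : ℝ) (n : ℕ) :
    PowerSeries.coeff n (J x * J y) = P n x y / ((n.factorial : ℝ)) ^ 2 := by
  rw [PowerSeries.coeff_mul, Finset.Nat.sum_antidiagonal_eq_sum_range_succ_mk, P,
    Finset.sum_div]
  apply Finset.sum_congr rfl
  intro a ha
  have ha' : a ≤ n := by simpa [Nat.lt_succ_iff] using ha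
  simp only [coeff_J]
  have h := Nat.choose_mul_factorial_mul_factorial ha'
  have h' : ((n.choose a : ℝ)) * (a.factorial : ℝ) * ((n - a).factorial : ℝ) =
    (n.factorial : ℝ) := by exact_mod_cast h
  have ha0 : (a.factorial : ℝ) ≠ 0 := by positivity
  have hb0 : ((n - a).factorial : ℝ) ≠ 0 := by positivity
  have hn0 : (n.factorial : ℝ) ≠ 0 := by positivity
  rw [← h']
  have hc0 : ((n.choose a : ℝ)) ≠ 0 := by
    have := Nat.choose_pos ha'
    positivity
  field_simp

set_option linter.unusedSectionVars false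

variable {ι : Type*} [Fintype ι] [DecidableEq ι]

/-- the functional (up to the factor `(d!)^2`) -/
noncomputable def H (d : ℕ) (x : ι → ℝ) : ℝ := PowerSeries.coeff d (∏ i, J (x i))

lemma coeff_prod_nonneg (s : Finset ι) (x : ι → ℝ) (hx : ∀ i, 0 ≤ x i) (n : ℕ) :
    0 ≤ PowerSeries.coeff n (∏ i ∈ s, J (x i)) := by
  rw [PowerSeries.coeff_prod]
  apply Finset.sum_nonneg
  intro l _
  apply Finset.prod_nonneg
  intro i _
  rw [coeff_J]
  have := hx i
  positivity

lemma coeff_zero_prod (s : Finset ι) (x : ι → ℝ) :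
    PowerSeries.coeff 0 (∏ i ∈ s, J (x i)) = 1 := by
  rw [PowerSeries.coeff_zero_eq_constantCoeff_apply, map_prod]
  apply Finset.prod_eq_one
  intro i _
  rw [← PowerSeries.coeff_zero_eq_constantCoeff_apply, coeff_J]
  simp

lemma H_continuous (d : ℕ) : Continuous (H d : (ι → ℝ) → ℝ) := by
  have : (H d : (ι → ℝ) → ℝ) = fun x => ∑ l ∈ Finset.finsuppAntidiag Finset.univ d,
      ∏ i, (x i) ^ (l i) / (((l i).factorial : ℝ)) ^ 2 := by
    funext x
    rw [H, PowerSeries.coeff_prod]
    simp only [coeff_J]
  rw [this]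
  fun_prop

lemma prod_split (x : ι → ℝ) {i j : ι} (hij : i ≠ j) :
    ∏ k, J (x k) = (J (x i) * J (x j)) * ∏ k ∈ (Finset.univ.erase i).erase j, J (x k) := by
  rw [← Finset.mul_prod_erase Finset.univ (fun k => J (x k)) (Finset.mem_univ i),
    ← Finset.mul_prod_erase (Finset.univ.erase i) (fun k => J (x k)) (a := j)
      (by simp [hij.symm])]
  ring

/-- averaging two unequal coordinates strictly increases `H` -/
lemma smoothing (d : ℕ) (hd : 2 ≤ d) (x : ι → ℝ) (hx : ∀ i, 0 ≤ x i) {i j : ι} (hij : i ≠ j)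
    (hne : x i ≠ x j) :
    H d x < H d (Function.update (Function.update x i ((x i + x j) / 2)) j
      ((x i + x j) / 2)) := by
  set m := (x i + x j) / 2 with hm
  set x' := Function.update (Function.update x i m) j m with hx'
  have hi' : x' i = m := by simp [hx', Function.update_of_ne hij]
  have hj' : x' j = m := by simp [hx']
  have hB : ∏ k ∈ (Finset.univ.erase i).erase j, J (x' k) =
      ∏ k ∈ (Finset.univ.erase i).erase j, J (x k) := by
    apply Finset.prod_congr rfl
    intro k hk
    simp only [Finset.mem_erase, Finset.mem_univ, and_true] at hk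
    have : x' k = x k := by
      simp [hx', Function.update_of_ne hk.1, Function.update_of_ne hk.2]
    rw [this]
  set B := ∏ k ∈ (Finset.univ.erase i).erase j, J (x k) with hBdef
  have hBn : ∀ n, 0 ≤ PowerSeries.coeff n B := fun n => coeff_prod_nonneg _ x hx n
  have hB0 : PowerSeries.coeff 0 B = 1 := coeff_zero_prod _ x
  have hi := hx i
  have hj := hx j
  have hsum : x i + x j = m + m := by rw [hm]; ring
  have hs0 : 0 < x i + x j := by
    rcases lt_or_gt_of_ne hne with h | h
    · linarith
    · linarith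
  have hw : 0 ≤ x i * x j := mul_nonneg hi hj
  have hlt : x i * x j < m * m := by
    have : 0 < (x i - x j) ^ 2 := by
      have : x i - x j ≠ 0 := sub_ne_zero.mpr hne
      positivity
    rw [hm]
    nlinarith
  have hle : ∀ k, PowerSeries.coeff k (J (x i) * J (x j)) ≤ PowerSeries.coeff k (J m * J m) := by
    intro k
    rw [coeff_J_mul, coeff_J_mul]
    have := P_mono k hsum hs0.le hw hlt.le
    gcongr
  rw [H, H, prod_split x hij, prod_split x' hij, hi', hj', hB, PowerSeries.coeff_mul,
    PowerSeries.coeff_mul]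
  apply Finset.sum_lt_sum
  · intro p _
    exact mul_le_mul_of_nonneg_right (hle p.1) (hBn p.2)
  · refine ⟨(d, 0), by simp, ?_⟩
    simp only [hB0, coeff_zero_prod, mul_one]
    rw [coeff_J_mul, coeff_J_mul]
    have := P_strict d hd hsum hs0 hw hlt
    have hf : (0 : ℝ) < ((d.factorial : ℝ)) ^ 2 := by positivity
    exact div_lt_div_of_pos_right this hf

/-- on the simplex `H` is maximal exactly at the barycentre -/
theorem simplex_max (d : ℕ) (hd : 2 ≤ d) [Nonempty ι] (x : ι → ℝ) (hx : x ∈ stdSimplex ℝ ι) :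
    H d x ≤ H d (fun _ : ι => (1 : ℝ) / Fintype.card ι) ∧
      (H d x = H d (fun _ : ι => (1 : ℝ) / Fintype.card ι) →
        x = fun _ => (1 : ℝ) / Fintype.card ι) := by
  have hmax : ∃ z ∈ stdSimplex ℝ ι, IsMaxOn (H d) (stdSimplex ℝ ι) z :=
    (isCompact_stdSimplex ℝ ι).exists_isMaxOn ⟨x, hx⟩ (H_continuous d).continuousOn
  have key : ∀ z ∈ stdSimplex ℝ ι, IsMaxOn (H d) (stdSimplex ℝ ι) z →
      z = fun _ => (1 : ℝ) / Fintype.card ι := by
    intro z hz hzmax
    have heq : ∀ i j, z i = z j := by
      intro i j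
      by_contra hne
      have hij : i ≠ j := by
        rintro rfl
        exact hne rfl
      have h1 := smoothing d hd z hz.1 hij hne
      have h2 : Function.update (Function.update z i ((z i + z j) / 2)) j
          ((z i + z j) / 2) ∈ stdSimplex ℝ ι := by
        constructor
        · intro k
          by_cases hk : k = j
          · subst hk
            simp only [Function.update_self]
            have := hz.1 i
            have := hz.1 k
            positivity
          · rw [Function.update_of_ne hk]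
            by_cases hk2 : k = i
            · subst hk2
              simp only [Function.update_self]
              have := hz.1 j
              have := hz.1 k
              positivity
            · rw [Function.update_of_ne hk2]
              exact hz.1 k
        · have hsum := hz.2
          rw [← Finset.add_sum_erase Finset.univ _ (Finset.mem_univ i),
            ← Finset.add_sum_erase (Finset.univ.erase i) _ (a := j) (by simp [hij.symm])] at hsum ⊢
          rw [Function.update_self, Function.update_of_ne hij, Function.update_self]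
          have : ∑ k ∈ (Finset.univ.erase i).erase j,
              Function.update (Function.update z i ((z i + z j) / 2)) j ((z i + z j) / 2) k =
              ∑ k ∈ (Finset.univ.erase i).erase j, z k := by
            apply Finset.sum_congr rfl
            intro k hk
            simp only [Finset.mem_erase, Finset.mem_univ, and_true] at hk
            rw [Function.update_of_ne hk.1, Function.update_of_ne hk.2]
          rw [this]
          linarith
      exact absurd (hzmax h2) (not_le.mpr h1)
    obtain ⟨i0⟩ := (inferInstance : Nonempty ι)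
    have hsum := hz.2
    have h3 : ∑ i, z i = Fintype.card ι * z i0 := by
      rw [Finset.sum_congr rfl (fun i _ => heq i i0)]
      simp
    rw [h3] at hsum
    have hcard : (Fintype.card ι : ℝ) ≠ 0 := by
      have := Fintype.card_pos (α := ι)
      positivity
    funext i
    rw [heq i i0]
    field_simp
    linarith
  obtain ⟨z, hz, hzmax⟩ := hmax
  have hzeq := key z hz hzmax
  rw [← hzeq]
  refine ⟨hzmax hx, ?_⟩
  intro h
  rw [hzeq]
  apply key x hx
  intro y hy
  have := hzmax hy
  simp only [Set.mem_ofPred_eq] at this ⊢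
  rw [h]
  exact this


lemma H_formula (d : ℕ) (x : ι → ℝ) : H d x = ∑ l ∈ Finset.finsuppAntidiag Finset.univ d,
      ∏ i, (x i) ^ (l i) / (((l i).factorial : ℝ)) ^ 2 := by
  rw [H, PowerSeries.coeff_prod]
  simp only [coeff_J]

lemma H_smul (d : ℕ) (c : ℝ) (x : ι → ℝ) : H d (fun i => c * x i) = c ^ d * H d x := by
  rw [H_formula, H_formula, Finset.mul_sum]
  apply Finset.sum_congr rfl
  intro l hl
  have hl' := (Finset.mem_finsuppAntidiag.mp hl).1
  have : c ^ d = ∏ i, c ^ (l i) := by
    rw [Finset.prod_pow_eq_pow_sum, hl']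
  rw [this, ← Finset.prod_mul_distrib]
  apply Finset.prod_congr rfl
  intro i _
  rw [mul_pow]
  ring

lemma H_zero (d : ℕ) (hd : 1 ≤ d) : H d (fun _ : ι => (0 : ℝ)) = 0 := by
  have h := H_smul d 0 (fun _ : ι => (0 : ℝ))
  simp only [mul_zero] at h
  rw [h, zero_pow (by omega), zero_mul]

lemma H_one_pos (d : ℕ) [Nonempty ι] : 0 < H d (fun _ : ι => (1 : ℝ)) := by
  rw [H_formula]
  apply Finset.sum_pos
  · intro l _
    positivity
  · obtain ⟨i0⟩ := (inferInstance : Nonempty ι)
    refine ⟨Finsupp.single i0 d, ?_⟩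
    rw [Finset.mem_finsuppAntidiag]
    refine ⟨?_, by simp⟩
    simp [Finsupp.single_apply]

/-- the sharp inequality with its cases of equality -/
theorem final (d : ℕ) (hd : 2 ≤ d) [Nonempty ι] (x : ι → ℝ) (hx : ∀ i, 0 ≤ x i) :
    H d x ≤ ((∑ i, x i) / Fintype.card ι) ^ d * H d (fun _ : ι => (1 : ℝ)) ∧
      (H d x = ((∑ i, x i) / Fintype.card ι) ^ d * H d (fun _ : ι => (1 : ℝ)) ↔
        ∀ i j, x i = x j) := by
  have hcard : (0 : ℝ) < Fintype.card ι := by
    have := Fintype.card_pos (α := ι)
    exact_mod_cast this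
  have hconst : ∀ c : ℝ, H d (fun _ : ι => c) = c ^ d * H d (fun _ : ι => (1 : ℝ)) := by
    intro c
    have := H_smul d c (fun _ : ι => (1 : ℝ))
    simpa using this
  rcases (Finset.sum_nonneg (fun i _ => hx i)).eq_or_lt' with hS | hS
  · have hx0 : ∀ i, x i = 0 := by
      intro i
      exact (Finset.sum_eq_zero_iff_of_nonneg (fun i _ => hx i)).mp hS i (Finset.mem_univ i)
    have hx' : x = fun _ => (0 : ℝ) := funext hx0
    rw [hx', H_zero d (by omega)]
    simp only [Finset.sum_const_zero, zero_div]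
    rw [zero_pow (by omega), zero_mul]
    exact ⟨le_rfl, by simp⟩
  · set S := ∑ i, x i with hSdef
    set y : ι → ℝ := fun i => x i / S with hy
    have hxy : x = fun i => S * y i := by
      funext i
      simp only [hy]
      field_simp
    have hymem : y ∈ stdSimplex ℝ ι := by
      constructor
      · intro i
        exact div_nonneg (hx i) hS.le
      · simp only [hy]
        rw [← Finset.sum_div, ← hSdef]
        field_simp
    obtain ⟨h1, h2⟩ := simplex_max d hd y hymem
    have hHx : H d x = S ^ d * H d y := by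
      conv_lhs => rw [hxy]
      exact H_smul d S y
    have hRHS : (S / Fintype.card ι) ^ d * H d (fun _ : ι => (1 : ℝ)) =
        S ^ d * H d (fun _ : ι => (1 : ℝ) / Fintype.card ι) := by
      rw [hconst ((1 : ℝ) / Fintype.card ι), div_pow, div_pow]
      ring
    have hSd : 0 < S ^ d := by positivity
    rw [hRHS, hHx]
    refine ⟨mul_le_mul_of_nonneg_left h1 hSd.le, ?_⟩
    constructor
    · intro h
      have h3 := h2 (mul_left_cancel₀ hSd.ne' h)
      intro i j
      rw [hxy]
      simp only [h3]
    · intro h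
      obtain ⟨i0⟩ := (inferInstance : Nonempty ι)
      have hyc : y = fun _ => (1 : ℝ) / Fintype.card ι := by
        have hsum := hymem.2
        have h4 : ∀ i, y i = y i0 := by
          intro i
          simp only [hy, h i i0]
        rw [Finset.sum_congr rfl (fun i _ => h4 i)] at hsum
        simp only [Finset.sum_const, Finset.card_univ, nsmul_eq_mul] at hsum
        funext i
        rw [h4 i]
        field_simp
        linarith
      rw [hyc]

/-- relation with the multinomial sum -/
theorem H_eq_multinomial (d : ℕ) (x : ι → ℝ) :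
    ((d.factorial : ℝ)) ^ 2 * H d x =
      ∑ m ∈ (Finset.univ : Finset ι).piAntidiag d,
        ((Nat.multinomial Finset.univ m : ℝ)) ^ 2 * ∏ t, (x t) ^ m t := by
  rw [H_formula, Finset.mul_sum]
  symm
  apply Finset.sum_nbij' (fun m => Finsupp.equivFunOnFinite.symm m) (fun l => ⇑l)
  · intro m hm
    rw [Finset.mem_piAntidiag] at hm
    rw [Finset.mem_finsuppAntidiag]
    refine ⟨?_, by simp⟩
    simpa using hm.1
  · intro l hl
    rw [Finset.mem_finsuppAntidiag] at hl
    rw [Finset.mem_piAntidiag]
    refine ⟨hl.1, by simp⟩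
  · intro m _
    rfl
  · intro l _
    ext i
    simp
  · intro m hm
    rw [Finset.mem_piAntidiag] at hm
    have hspec := Nat.multinomial_spec Finset.univ m
    have hm1 : ∑ i, m i = d := hm.1
    rw [hm1] at hspec
    have hspec' : ((∏ i, (m i).factorial : ℕ) : ℝ) * (Nat.multinomial Finset.univ m : ℝ) =
        (d.factorial : ℝ) := by exact_mod_cast hspec
    simp only [Finsupp.equivFunOnFinite_symm_apply_apply]
    rw [Finset.prod_div_distrib, ← hspec']
    have hne : ((∏ i, (m i).factorial : ℕ) : ℝ) ≠ 0 := by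
      have : 0 < ∏ i, (m i).factorial := Finset.prod_pos (fun i _ => Nat.factorial_pos _)
      positivity
    rw [Finset.prod_pow]
    push_cast at hne ⊢
    field_simp

end Pool.Agent.Q84.MomA
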