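import Mathlib

/-!
# Newton's identities and the finite Fourier identity for the moment curve
-/

namespace Pool.Agent.Q84.MomB

open Finset

/-- equal power sums give equal elementary symmetric functions -/
lemma esymm_eq {F : Type*} [Field F] {d : ℕ} (hchar : ∀ k : ℕ, 0 < k → k ≤ d → (k : F) ≠ 0)
    (a b : Fin d → F) (hpow : ∀ k : ℕ, 0 < k → k ≤ d → ∑ i, a i ^ k = ∑ i, b i ^ k) :
    ∀ k : ℕ, k ≤ d → MvPolynomial.aeval a (MvPolynomial.esymm (Fin d) F k) =
      MvPolynomial.aeval b (MvPolynomial.esymm (Fin d) F k) := by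
  intro k
  induction k using Nat.strong_induction_on with
  | _ k ih =>
    intro hk
    rcases Nat.eq_zero_or_pos k with h0 | h0
    · subst h0
      simp
    · have h1 := MvPolynomial.mul_esymm_eq_sum (Fin d) F k
      have ha := congrArg (MvPolynomial.aeval a) h1
      have hb := congrArg (MvPolynomial.aeval b) h1
      simp only [map_mul, map_natCast, map_pow, map_neg, map_one, map_sum] at ha hb
      have h2 : ∑ x ∈ (antidiagonal k).filter (fun x => x.1 < k),
          (-1 : F) ^ x.1 * (MvPolynomial.aeval a) (MvPolynomial.esymm (Fin d) F x.1) *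
            (MvPolynomial.aeval a) (MvPolynomial.psum (Fin d) F x.2) =
          ∑ x ∈ (antidiagonal k).filter (fun x => x.1 < k),
          (-1 : F) ^ x.1 * (MvPolynomial.aeval b) (MvPolynomial.esymm (Fin d) F x.1) *
            (MvPolynomial.aeval b) (MvPolynomial.psum (Fin d) F x.2) := by
        apply Finset.sum_congr rfl
        intro x hx
        obtain ⟨hx1, hx2⟩ := Finset.mem_filter.mp hx
        rw [Finset.HasAntidiagonal.mem_antidiagonal] at hx1
        rw [ih x.1 hx2 (by omega)]
        congr 1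
        simp only [MvPolynomial.psum, map_sum, map_pow, MvPolynomial.aeval_X]
        exact hpow x.2 (by omega) (by omega)
      rw [h2, ← hb] at ha
      exact mul_left_cancel₀ (hchar k h0 hk) ha

lemma exists_tuple {α : Type*} (d : ℕ) (N : Multiset α) (hN : Multiset.card N = d) :
    ∃ a : Fin d → α, Finset.univ.val.map a = N := by
  obtain ⟨l, rfl⟩ := Quot.exists_rep N
  have hl : l.length = d := by simpa using hN
  subst hl
  refine ⟨l.get, ?_⟩
  rw [Fin.univ_val_map]
  simp [List.ofFn_get]

/-- a multiset of size `d < char` is determined by its power sums of order `1..d` -/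
lemma multiset_eq {F : Type*} [Field F] {d : ℕ} (hchar : ∀ k : ℕ, 0 < k → k ≤ d → (k : F) ≠ 0)
    (M N : Multiset F) (hM : Multiset.card M = d) (hN : Multiset.card N = d)
    (hpow : ∀ k : ℕ, 0 < k → k ≤ d → (M.map (fun t => t ^ k)).sum = (N.map (fun t => t ^ k)).sum) :
    M = N := by
  obtain ⟨a, ha⟩ := exists_tuple d M hM
  obtain ⟨b, hb⟩ := exists_tuple d N hN
  have h1 : ∀ k : ℕ, 0 < k → k ≤ d → ∑ i, a i ^ k = ∑ i, b i ^ k := by
    intro k h0 hk
    have := hpow k h0 hk
    rw [← ha, ← hb, Multiset.map_map, Multiset.map_map] at this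
    exact this
  have h2 := esymm_eq hchar a b h1
  have h3 : ∀ k ≤ d, M.esymm k = N.esymm k := by
    intro k hk
    have := h2 k hk
    rw [MvPolynomial.aeval_esymm_eq_multiset_esymm, MvPolynomial.aeval_esymm_eq_multiset_esymm,
      ha, hb] at this
    exact this
  have h4 : (M.map (fun t => Polynomial.X - Polynomial.C t)).prod =
      (N.map (fun t => Polynomial.X - Polynomial.C t)).prod := by
    rw [Multiset.prod_X_sub_X_eq_sum_esymm, Multiset.prod_X_sub_X_eq_sum_esymm, hM, hN]
    apply Finset.sum_congr rfl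
    intro j hj
    rw [h3 j (by simpa [Nat.lt_succ_iff] using hj)]
  have h5 := congrArg Polynomial.roots h4
  rwa [Polynomial.roots_multiset_prod_X_sub_C, Polynomial.roots_multiset_prod_X_sub_C] at h5

/-- the moment vector of a weight `m` -/
def vec {F : Type*} [Field F] [Fintype F] (d : ℕ) (m : F → ℕ) : Fin d → F :=
  fun i => ∑ t, m t • t ^ (i.val + 1)

lemma vec_inj {F : Type*} [Field F] [Fintype F] [DecidableEq F] {d : ℕ}
    (hchar : ∀ k : ℕ, 0 < k → k ≤ d → (k : F) ≠ 0)
    (m m' : F → ℕ) (hm : ∑ t, m t = d) (hm' : ∑ t, m' t = d) (hv : vec d m = vec d m') :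
    m = m' := by
  set M : Multiset F := ∑ t, m t • {t} with hM
  set M' : Multiset F := ∑ t, m' t • {t} with hM'
  have key : ∀ (n : F → ℕ), (∑ t, n t = d) → Multiset.card (∑ t, n t • ({t} : Multiset F)) = d ∧
      ∀ k, (Multiset.map (fun t => t ^ k) (∑ t, n t • ({t} : Multiset F))).sum =
        ∑ t, n t • t ^ k := by
    intro n hn
    constructor
    · rw [← hn, Multiset.card_sum]
      simp
    · intro k
      have h1 : ∀ s : Finset F,
          (Multiset.map (fun t => t ^ k) (∑ t ∈ s, n t • ({t} : Multiset F))).sum =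
          ∑ t ∈ s, n t • t ^ k := by
        intro s
        induction s using Finset.induction_on with
        | empty => simp
        | insert a s ha ih =>
          rw [Finset.sum_insert ha, Finset.sum_insert ha, Multiset.map_add, Multiset.sum_add, ih]
          congr 1
          rw [Multiset.map_nsmul, Multiset.sum_nsmul]
          simp
      exact h1 Finset.univ
  have hMN : M = M' := by
    apply multiset_eq hchar M M' (key m hm).1 (key m' hm').1
    intro k h0 hk
    rw [(key m hm).2 k, (key m' hm').2 k]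
    have := congrFun hv ⟨k - 1, by omega⟩
    simp only [vec] at this
    have hk1 : k - 1 + 1 = k := by omega
    rw [hk1] at this
    exact this
  have hcount : ∀ (n : F → ℕ) (t : F),
      Multiset.count t (∑ t, n t • ({t} : Multiset F)) = n t := by
    intro n t
    rw [Multiset.count_sum']
    simp [Multiset.count_nsmul, Multiset.count_singleton]
  funext t
  rw [← hcount m t, ← hcount m' t]
  exact congrArg (Multiset.count t) hMN

lemma addChar_sum {A κ : Type*} [AddCommGroup A] (ψ : AddChar A ℂ) (s : Finset κ) (f : κ → A) :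
    ψ (∑ i ∈ s, f i) = ∏ i ∈ s, ψ (f i) := by
  classical
  induction s using Finset.induction_on with
  | empty => simp
  | insert a s ha ih =>
    rw [Finset.sum_insert ha, Finset.prod_insert ha, AddChar.map_add_eq_mul, ih]

/-- orthogonality in `F^d` -/
lemma orth {F : Type*} [Field F] [Fintype F] [DecidableEq F] {d : ℕ} (ψ : AddChar F ℂ)
    (hψ : ψ.IsPrimitive) (u : Fin d → F) :
    ∑ x : Fin d → F, ψ (∑ i, x i * u i) = if u = 0 then ((Fintype.card F : ℂ)) ^ d else 0 := by
  have h1 : ∀ x : Fin d → F, ψ (∑ i, x i * u i) = ∏ i, ψ (x i * u i) := by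
    intro x
    exact addChar_sum ψ _ _
  simp only [h1]
  have h2 : ∑ x : Fin d → F, ∏ i, ψ (x i * u i) = ∏ i, ∑ y : F, ψ (y * u i) := by
    rw [Finset.prod_univ_sum, Fintype.piFinset_univ]
  rw [h2]
  simp only [AddChar.sum_mulShift _ hψ]
  by_cases hu : u = 0
  · simp [hu]
  · rw [if_neg hu]
    obtain ⟨i, hi⟩ := Function.ne_iff.mp hu
    apply Finset.prod_eq_zero (Finset.mem_univ i)
    have hi' : u i ≠ 0 := hi
    rw [if_neg hi']
    simp

/-- the Fourier sum over the moment curve -/
noncomputable def G {F : Type*} [Field F] [Fintype F] {d : ℕ} (ψ : AddChar F ℂ) (g : F → ℂ)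
    (x : Fin d → F) : ℂ := ∑ t, g t * ψ (∑ i, x i * t ^ (i.val + 1))

lemma G_pow {F : Type*} [Field F] [Fintype F] [DecidableEq F] {d : ℕ} (ψ : AddChar F ℂ)
    (g : F → ℂ) (x : Fin d → F) :
    (G ψ g x) ^ d = ∑ m ∈ (Finset.univ : Finset F).piAntidiag d,
      ((Nat.multinomial Finset.univ m : ℂ) * ∏ t, g t ^ m t) * ψ (∑ i, x i * vec d m i) := by
  rw [G, Finset.sum_pow_eq_sum_piAntidiag]
  apply Finset.sum_congr rfl
  intro m _
  have h1 : ∏ t, (g t * ψ (∑ i, x i * t ^ (i.val + 1))) ^ m t =
      (∏ t, g t ^ m t) * ψ (∑ i, x i * vec d m i) := by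
    simp only [mul_pow]
    rw [Finset.prod_mul_distrib]
    congr 1
    have h2 : ∀ t : F, ψ (∑ i : Fin d, x i * t ^ (i.val + 1)) ^ m t =
        ψ (m t • ∑ i : Fin d, x i * t ^ (i.val + 1)) := by
      intro t
      rw [AddChar.map_nsmul_eq_pow]
    simp only [h2]
    rw [← addChar_sum]
    congr 1
    simp only [vec, Finset.mul_sum, Finset.smul_sum]
    rw [Finset.sum_comm]
    apply Finset.sum_congr rfl
    intro i _
    apply Finset.sum_congr rfl
    intro t _
    rw [mul_smul_comm]
  rw [h1, mul_assoc]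

/-- **The `L^{2d}` identity.** -/
theorem moment_identity {F : Type*} [Field F] [Fintype F] [DecidableEq F] {d : ℕ}
    (hchar : ∀ k : ℕ, 0 < k → k ≤ d → (k : F) ≠ 0)
    (ψ : AddChar F ℂ) (hψ : ψ.IsPrimitive) (g : F → ℂ) :
    ∑ x : Fin d → F, ‖G ψ g x‖ ^ (2 * d) =
      ((Fintype.card F : ℝ)) ^ d * ∑ m ∈ (Finset.univ : Finset F).piAntidiag d,
        ((Nat.multinomial Finset.univ m : ℝ)) ^ 2 * ∏ t, (‖g t‖ ^ 2) ^ m t := by
  set S := (Finset.univ : Finset F).piAntidiag d with hS
  set c : (F → ℕ) → ℂ := fun m => (Nat.multinomial Finset.univ m : ℂ) * ∏ t, g t ^ m t with hc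
  have h1 : ∀ x : Fin d → F, ((‖G ψ g x‖ ^ (2 * d) : ℝ) : ℂ) =
      ∑ m ∈ S, ∑ m' ∈ S, c m * (starRingEnd ℂ) (c m') *
        ψ (∑ i, x i * (vec d m i - vec d m' i)) := by
    intro x
    have h2 : ((‖G ψ g x‖ ^ (2 * d) : ℝ) : ℂ) =
        (G ψ g x) ^ d * (starRingEnd ℂ) ((G ψ g x) ^ d) := by
      rw [Complex.mul_conj, Complex.normSq_eq_norm_sq, norm_pow, ← pow_mul, mul_comm 2 d]
    rw [h2, G_pow, map_sum, Finset.sum_mul_sum]
    apply Finset.sum_congr rfl
    intro m _
    apply Finset.sum_congr rfl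
    intro m' _
    have h3 : ψ (∑ i, x i * (vec d m i - vec d m' i)) =
        ψ (∑ i, x i * vec d m i) * (starRingEnd ℂ) (ψ (∑ i, x i * vec d m' i)) := by
      rw [← AddChar.map_neg_eq_conj, ← AddChar.map_add_eq_mul]
      congr 1
      simp only [mul_sub, Finset.sum_sub_distrib]
      ring
    rw [h3, map_mul]
    simp only [hc]
    ring
  have h4 : ((∑ x : Fin d → F, ‖G ψ g x‖ ^ (2 * d) : ℝ) : ℂ) =
      ∑ m ∈ S, ((Fintype.card F : ℂ)) ^ d * (c m * (starRingEnd ℂ) (c m)) := by
    rw [Complex.ofReal_sum]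
    simp only [h1]
    rw [Finset.sum_comm]
    apply Finset.sum_congr rfl
    intro m hm
    rw [Finset.sum_comm]
    rw [Finset.sum_eq_single m]
    · rw [← Finset.mul_sum, orth ψ hψ (fun i => vec d m i - vec d m i)]
      rw [if_pos (by funext i; simp)]
      ring
    · intro m' hm' hne
      rw [← Finset.mul_sum, orth ψ hψ (fun i => vec d m i - vec d m' i)]
      rw [if_neg, mul_zero]
      intro h0
      apply hne
      have hv : vec d m' = vec d m := by
        funext i
        have := congrFun h0 i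
        simp only [Pi.zero_apply] at this
        exact (sub_eq_zero.mp this).symm
      rw [hS, Finset.mem_piAntidiag] at hm hm'
      exact vec_inj hchar m' m hm'.1 hm.1 hv
    · intro h
      exact absurd hm h
  have h5 : ∀ m, c m * (starRingEnd ℂ) (c m) =
      ((((Nat.multinomial Finset.univ m : ℝ)) ^ 2 * ∏ t, (‖g t‖ ^ 2) ^ m t : ℝ) : ℂ) := by
    intro m
    rw [Complex.mul_conj, Complex.normSq_eq_norm_sq]
    congr 1
    simp only [hc, norm_mul, norm_prod, norm_pow, mul_pow, Complex.norm_natCast]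
    congr 1
    rw [← Finset.prod_pow]
    apply Finset.prod_congr rfl
    intro t _
    rw [← pow_mul, ← pow_mul, mul_comm]
  have h6 : ((∑ x : Fin d → F, ‖G ψ g x‖ ^ (2 * d) : ℝ) : ℂ) =
      ((((Fintype.card F : ℝ)) ^ d * ∑ m ∈ S,
        ((Nat.multinomial Finset.univ m : ℝ)) ^ 2 * ∏ t, (‖g t‖ ^ 2) ^ m t : ℝ) : ℂ) := by
    rw [h4]
    simp only [h5]
    push_cast
    rw [Finset.mul_sum]
  exact_mod_cast h6

end Pool.Agent.Q84.MomB
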