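import Mathlib

/-!
# Counting: functions with a prescribed multiset of values, and sorting
-/

namespace Pool.Agent.Q84.MomC

open Finset

set_option linter.unusedSectionVars false

lemma map_perm_univ {α : Type*} [Fintype α] (e : Equiv.Perm α) :
    Multiset.map e (Finset.univ : Finset α).val = (Finset.univ : Finset α).val := by
  have h2 := congrArg Finset.val (Finset.map_univ_equiv e)
  rw [Finset.map_val] at h2
  exact h2

variable {ι : Type*} [Fintype ι] [DecidableEq ι]

lemma exists_perm {m m' : ι → ℕ}
    (h : (Finset.univ.val.map m) = (Finset.univ.val.map m')) :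
    ∃ σ : Equiv.Perm ι, m ∘ σ = m' := by
  classical
  have hc : ∀ c : ℕ, Fintype.card {a // m' a = c} = Fintype.card {b // m b = c} := by
    intro c
    have h1 := congrArg (Multiset.count c) h
    rw [Multiset.count_map, Multiset.count_map] at h1
    rw [Fintype.card_subtype, Fintype.card_subtype]
    have e1 : ∀ f : ι → ℕ, (Finset.univ.filter fun a => f a = c).card =
        (Multiset.filter (fun a => c = f a) Finset.univ.val).card := by
      intro f
      rw [Finset.card_def, Finset.filter_val]
      congr 1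
      apply Multiset.filter_congr
      intro x _
      exact eq_comm
    rw [e1, e1, h1]
  let e : ∀ c, {a // m' a = c} ≃ {b // m b = c} := fun c => Fintype.equivOfCardEq (hc c)
  refine ⟨Equiv.ofFiberEquiv e, ?_⟩
  funext a
  exact Equiv.ofFiberEquiv_map e a

/-- functions with prescribed multiset of values, among those in a finset `S` containing them -/
lemma card_class (S : Finset (ι → ℕ)) (m0 : ι → ℕ)
    (hS : ∀ σ : Equiv.Perm ι, m0 ∘ σ ∈ S) :
    (S.filter fun m => Finset.univ.val.map m = Finset.univ.val.map m0).card *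
      ∏ j ∈ Finset.univ.image m0, (Multiset.count j (Finset.univ.val.map m0)).factorial =
      (Fintype.card ι).factorial := by
  classical
  set A := S.filter fun m => Finset.univ.val.map m = Finset.univ.val.map m0 with hA
  have hmap : ∀ σ : Equiv.Perm ι, Finset.univ.val.map (m0 ∘ σ) = Finset.univ.val.map m0 := by
    intro σ
    rw [← Multiset.map_map, map_perm_univ]
  have h1 : (Finset.univ : Finset (Equiv.Perm ι)).card =
      ∑ m ∈ A, (Finset.univ.filter fun σ : Equiv.Perm ι => m0 ∘ σ = m).card := by
    apply Finset.card_eq_sum_card_fiberwise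
    intro σ _
    simp only [hA, Finset.coe_filter, Set.mem_ofPred_eq]
    exact ⟨hS σ, hmap σ⟩
  have h2 : ∀ m ∈ A, (Finset.univ.filter fun σ : Equiv.Perm ι => m0 ∘ σ = m).card =
      (Finset.univ.filter fun σ : Equiv.Perm ι => m0 ∘ σ = m0).card := by
    intro m hm
    obtain ⟨σ0, hσ0⟩ := exists_perm ((Finset.mem_filter.mp hm).2.symm)
    apply Finset.card_bij (fun σ _ => σ * σ0⁻¹)
    · intro σ hσ
      simp only [Finset.mem_filter, Finset.mem_univ, true_and] at hσ ⊢
      funext a
      have h3 := congrFun hσ (σ0⁻¹ a)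
      have h4 := congrFun hσ0 (σ0⁻¹ a)
      simp only [Function.comp_apply, Equiv.Perm.coe_mul] at h3 h4 ⊢
      rw [h3, ← h4]
      simp
    · intro a _ b _ hab
      exact mul_right_cancel hab
    · intro σ hσ
      simp only [Finset.mem_filter, Finset.mem_univ, true_and] at hσ
      refine ⟨σ * σ0, ?_, by simp⟩
      simp only [Finset.mem_filter, Finset.mem_univ, true_and]
      funext a
      have h3 := congrFun hσ (σ0 a)
      have h4 := congrFun hσ0 a
      simp only [Function.comp_apply, Equiv.Perm.coe_mul] at h3 h4 ⊢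
      rw [h3, h4]
  rw [Finset.sum_congr rfl h2, Finset.sum_const, smul_eq_mul] at h1
  have h3 := DomMulAct.stabilizer_card' m0
  rw [Fintype.card_subtype] at h3
  have h4 : (Finset.univ.filter fun σ : Equiv.Perm ι => m0 ∘ σ = m0).card =
      ∏ j ∈ Finset.univ.image m0, (Multiset.count j (Finset.univ.val.map m0)).factorial := by
    rw [h3]
    apply Finset.prod_congr rfl
    intro j _
    rw [Multiset.count_map, Fintype.card_subtype, Finset.card_def, Finset.filter_val]
    congr 2
    apply Multiset.filter_congr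
    intro x _
    exact eq_comm
  rw [h4, Finset.card_univ, Fintype.card_perm] at h1
  exact h1.symm

lemma exists_antitone (d : ℕ) (N : Multiset ℕ) (hN : Multiset.card N = d) :
    ∃ ℓ : Fin d → ℕ, Antitone ℓ ∧ Finset.univ.val.map ℓ = N := by
  obtain ⟨l, rfl⟩ := Quot.exists_rep N
  have hl : l.length = d := by simpa using hN
  subst hl
  let a : Fin l.length → ℕ := l.get
  let s := Tuple.sort a
  have hmono := Tuple.monotone_sort a
  refine ⟨fun i => (a ∘ s) (Fin.rev i), ?_, ?_⟩
  · intro i j hij
    exact hmono (Fin.rev_le_rev.mpr hij)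
  · have h1 : (fun i => (a ∘ s) (Fin.rev i)) = a ∘ (Fin.revPerm.trans s) := by
      funext i
      simp [Fin.revPerm]
    rw [h1, ← Multiset.map_map, map_perm_univ, Fin.univ_val_map]
    simp [a, List.ofFn_get]

lemma antitone_unique {d : ℕ} {ℓ ℓ' : Fin d → ℕ} (h : Antitone ℓ) (h' : Antitone ℓ')
    (he : Finset.univ.val.map ℓ = Finset.univ.val.map ℓ') : ℓ = ℓ' := by
  obtain ⟨σ, hσ⟩ := exists_perm he
  have := Tuple.unique_antitone (f := ℓ) (σ := 1) (τ := σ) (by simpa using h)
    (by rw [hσ]; exact h')
  simpa [hσ] using this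


/-- the set `P_d` of antitone vectors with sum `d` -/
noncomputable def Pd (d : ℕ) : Finset (Fin d → ℕ) := by
  classical
  exact (Finset.univ.piAntidiag d).filter Antitone

lemma mem_Pd {d : ℕ} {ℓ : Fin d → ℕ} : ℓ ∈ Pd d ↔ Antitone ℓ ∧ ∑ i, ℓ i = d := by
  classical
  unfold Pd
  simp [Finset.mem_filter, Finset.mem_piAntidiag, and_comm]

/-- `b_j(ℓ)` -/
def bb (d q : ℕ) (ℓ : Fin d → ℕ) (j : ℕ) : ℕ :=
  (Finset.univ.filter fun i => ℓ i = j).card + if j = 0 then q - d else 0

/-- the relation: `m` has the values of `ℓ` and zeros -/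
def R (d q : ℕ) (m : ι → ℕ) (ℓ : Fin d → ℕ) : Prop :=
  Finset.univ.val.map m = Finset.univ.val.map ℓ + Multiset.replicate (q - d) 0

lemma count_map_univ {α : Type*} [Fintype α] (f : α → ℕ) (j : ℕ) :
    Multiset.count j (Finset.univ.val.map f) = (Finset.univ.filter fun i => f i = j).card := by
  rw [Multiset.count_map, Finset.card_def, Finset.filter_val]
  congr 1
  apply Multiset.filter_congr
  intro x _
  exact eq_comm

lemma sum_map_univ {α : Type*} [Fintype α] (f : α → ℕ) :
    (Finset.univ.val.map f).sum = ∑ i, f i := rfl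

lemma exists_R (d : ℕ) (hq : d ≤ Fintype.card ι) (m : ι → ℕ) (hm : ∑ i, m i = d) :
    ∃ ℓ ∈ Pd d, R d (Fintype.card ι) m ℓ := by
  set M := Finset.univ.val.map m with hM
  set M' := M.filter (fun x => x ≠ 0) with hM'
  have hcard : Multiset.card M = Fintype.card ι := by simp [hM]
  have hsumM : M.sum = d := by rw [hM, sum_map_univ, hm]
  have hsplit : M = M' + Multiset.replicate (Multiset.card M - Multiset.card M') 0 := by
    have h1 := Multiset.filter_add_not (fun x => x ≠ 0) M
    have h2 : Multiset.filter (fun x => ¬ x ≠ 0) M =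
        Multiset.replicate (Multiset.card M - Multiset.card M') 0 := by
      rw [Multiset.eq_replicate]
      constructor
      · have h5 : Multiset.card M' + Multiset.card (Multiset.filter (fun x => ¬ x ≠ 0) M) =
            Multiset.card M := by
          rw [← Multiset.card_add, hM']
          exact congrArg Multiset.card h1
        omega
      · intro b hb
        have := (Multiset.mem_filter.mp hb).2
        simpa using this
    rw [← h2]
    exact h1.symm
  have hsum' : M'.sum = d := by
    have := congrArg Multiset.sum hsplit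
    rw [Multiset.sum_add, Multiset.sum_replicate] at this
    simp at this
    omega
  have hle : Multiset.card M' ≤ d := by
    have : ∀ x ∈ M', 1 ≤ x := by
      intro x hx
      have := (Multiset.mem_filter.mp hx).2
      omega
    have h3 := Multiset.card_nsmul_le_sum this
    simpa [hsum'] using h3
  obtain ⟨ℓ, hanti, hmap⟩ := exists_antitone d
    (M' + Multiset.replicate (d - Multiset.card M') 0) (by
      rw [Multiset.card_add, Multiset.card_replicate]
      omega)
  refine ⟨ℓ, ?_, ?_⟩
  · rw [mem_Pd]
    refine ⟨hanti, ?_⟩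
    rw [← sum_map_univ, hmap, Multiset.sum_add, Multiset.sum_replicate, hsum']
    simp
  · unfold R
    rw [hmap, ← hM, add_assoc, ← Multiset.replicate_add]
    conv_lhs => rw [hsplit]
    congr 2
    rw [hcard]
    have : Multiset.card M' ≤ d := hle
    omega

lemma R_unique {d q : ℕ} {m : ι → ℕ} {ℓ ℓ' : Fin d → ℕ} (h : ℓ ∈ Pd d) (h' : ℓ' ∈ Pd d)
    (hR : R d q m ℓ) (hR' : R d q m ℓ') : ℓ = ℓ' := by
  unfold R at hR hR'
  rw [hR] at hR'
  exact antitone_unique (mem_Pd.mp h).1 (mem_Pd.mp h').1 (add_right_cancel hR')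

lemma R_sum {d q : ℕ} {m : ι → ℕ} {ℓ : Fin d → ℕ} (h : ℓ ∈ Pd d) (hR : R d q m ℓ) :
    ∑ i, m i = d := by
  unfold R at hR
  have := congrArg Multiset.sum hR
  rw [sum_map_univ, Multiset.sum_add, sum_map_univ, (mem_Pd.mp h).2] at this
  simpa using this

lemma R_prod {d q : ℕ} {m : ι → ℕ} {ℓ : Fin d → ℕ} (hR : R d q m ℓ) :
    ∏ i, (m i).factorial = ∏ i, (ℓ i).factorial := by
  unfold R at hR
  have := congrArg (fun M : Multiset ℕ => (M.map Nat.factorial).prod) hR
  simp only [Multiset.map_map, Multiset.map_add, Multiset.prod_add, Multiset.map_replicate,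
    Multiset.prod_replicate, Nat.factorial_zero, one_pow, mul_one] at this
  exact this

lemma exists_m (N : Multiset ℕ) (hN : Multiset.card N = Fintype.card ι) :
    ∃ m : ι → ℕ, Finset.univ.val.map m = N := by
  obtain ⟨ℓ, _, hℓ⟩ := exists_antitone (Fintype.card ι) N hN
  let e := Fintype.equivFin ι
  refine ⟨ℓ ∘ e, ?_⟩
  rw [← Multiset.map_map]
  have h2 := congrArg Finset.val (Finset.map_univ_equiv e)
  rw [Finset.map_val] at h2
  have h3 : Multiset.map (e : ι → Fin (Fintype.card ι)) (Finset.univ : Finset ι).val =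
    (Finset.univ : Finset (Fin (Fintype.card ι))).val := h2
  rw [h3, hℓ]

/-- the number of `m` related to a given `ℓ` -/
lemma card_R (d : ℕ) (hq : d ≤ Fintype.card ι) (ℓ : Fin d → ℕ) (hℓ : ℓ ∈ Pd d)
    [DecidablePred fun m : ι → ℕ => R d (Fintype.card ι) m ℓ] :
    ((Finset.univ.piAntidiag d).filter fun m : ι → ℕ => R d (Fintype.card ι) m ℓ).card *
      ∏ j ∈ Finset.range (d + 1), (bb d (Fintype.card ι) ℓ j).factorial =
      (Fintype.card ι).factorial := by
  classical
  obtain ⟨m0, hm0⟩ := exists_m (ι := ι)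
    (Finset.univ.val.map ℓ + Multiset.replicate (Fintype.card ι - d) 0) (by
      simp; omega)
  have hR0 : R d (Fintype.card ι) m0 ℓ := hm0
  have hsum0 := R_sum hℓ hR0
  have h1 := card_class (Finset.univ.piAntidiag d) m0 (by
    intro σ
    rw [Finset.mem_piAntidiag]
    refine ⟨?_, by simp⟩
    rw [← hsum0]
    exact Equiv.sum_comp σ m0)
  have h2 : ((Finset.univ.piAntidiag d).filter
      fun m : ι → ℕ => R d (Fintype.card ι) m ℓ) =
      ((Finset.univ.piAntidiag d).filter
        fun m => Finset.univ.val.map m = Finset.univ.val.map m0) := by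
    apply Finset.filter_congr
    intro m _
    unfold R
    rw [hm0]
  rw [h2]
  have h3 : ∏ j ∈ Finset.range (d + 1), (bb d (Fintype.card ι) ℓ j).factorial =
      ∏ j ∈ Finset.univ.image m0,
        (Multiset.count j (Finset.univ.val.map m0)).factorial := by
    have h4 : ∀ j, bb d (Fintype.card ι) ℓ j = Multiset.count j (Finset.univ.val.map m0) := by
      intro j
      rw [hm0, Multiset.count_add, count_map_univ, Multiset.count_replicate, bb]
      congr 1
      by_cases hj : j = 0
      · simp [hj]
      · simp [hj, Ne.symm hj]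
    simp only [h4]
    symm
    apply Finset.prod_subset
    · intro j hj
      obtain ⟨i, _, rfl⟩ := Finset.mem_image.mp hj
      rw [Finset.mem_range]
      have : m0 i ≤ ∑ i, m0 i := Finset.single_le_sum (fun _ _ => Nat.zero_le _)
        (Finset.mem_univ i)
      omega
    · intro j _ hj
      have : Multiset.count j (Finset.univ.val.map m0) = 0 := by
        rw [Multiset.count_eq_zero]
        intro hmem
        apply hj
        obtain ⟨i, hi, rfl⟩ := Multiset.mem_map.mp hmem
        exact Finset.mem_image.mpr ⟨i, Finset.mem_univ i, rfl⟩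
      rw [this]
      rfl
  rw [h3]
  exact h1

/-- regrouping the sum over `m` -/
theorem regroup (d : ℕ) (hq : d ≤ Fintype.card ι) (g : ℕ → ℝ) :
    ∑ m ∈ (Finset.univ : Finset ι).piAntidiag d, g (∏ i, (m i).factorial) =
      ∑ ℓ ∈ Pd d, g (∏ i, (ℓ i).factorial) *
        (((Fintype.card ι).factorial : ℝ) /
          ((∏ j ∈ Finset.range (d + 1), (bb d (Fintype.card ι) ℓ j).factorial : ℕ) : ℝ)) := by
  classical
  have h1 : (Finset.univ : Finset ι).piAntidiag d =
      (Pd d).biUnion fun ℓ => (Finset.univ.piAntidiag d).filter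
        fun m : ι → ℕ => R d (Fintype.card ι) m ℓ := by
    ext m
    simp only [Finset.mem_biUnion, Finset.mem_filter]
    constructor
    · intro hm
      obtain ⟨ℓ, hℓ, hR⟩ := exists_R d hq m (Finset.mem_piAntidiag.mp hm).1
      exact ⟨ℓ, hℓ, hm, hR⟩
    · rintro ⟨ℓ, _, hm, _⟩
      exact hm
  rw [h1, Finset.sum_biUnion]
  · apply Finset.sum_congr rfl
    intro ℓ hℓ
    have h2 : ∀ m ∈ ((Finset.univ.piAntidiag d).filter
        fun m : ι → ℕ => R d (Fintype.card ι) m ℓ),
        g (∏ i, (m i).factorial) = g (∏ i, (ℓ i).factorial) := by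
      intro m hm
      rw [R_prod (Finset.mem_filter.mp hm).2]
    rw [Finset.sum_congr rfl h2, Finset.sum_const, nsmul_eq_mul, mul_comm]
    congr 1
    have h3 := card_R d hq ℓ hℓ
    have h4 : ((∏ j ∈ Finset.range (d + 1), (bb d (Fintype.card ι) ℓ j).factorial : ℕ) : ℝ) ≠ 0 := by
      have : 0 < ∏ j ∈ Finset.range (d + 1), (bb d (Fintype.card ι) ℓ j).factorial :=
        Finset.prod_pos (fun j _ => Nat.factorial_pos _)
      positivity
    rw [eq_div_iff h4]
    exact_mod_cast h3
  · intro ℓ hℓ ℓ' hℓ' hne
    rw [Function.onFun, Finset.disjoint_left]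
    intro m hm hm'
    exact hne (R_unique hℓ hℓ' (Finset.mem_filter.mp hm).2 (Finset.mem_filter.mp hm').2)

end Pool.Agent.Q84.MomC
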