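import Pool.Agent.Q84.PG2
import Pool.Agent.Y862.OGI

set_option autoImplicit false

/-!
# Times between consecutive isolated primes of the orbits of `n ↦ D n + e`
-/

namespace Pool.Agent.Q84.OT

open Filter Finset Pool.Agent.Q84.PG

/-- the `j`-th term of the orbit of `p` under `n ↦ D n + e` (for `D ≥ 2`, `e > -D` and `p ≥ 1` all terms
are positive) -/
def orb (D : ℕ) (e : ℤ) (p j : ℕ) : ℕ := ((fun x : ℤ => D * x + e)^[j] (p : ℤ)).toNat

/-- `j` is a recurring time of level `R` of the orbits of `n ↦ D n + e`: for every `η > 0` and arbitrarily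
large `x` there are at least `x ^ (1 - η)` primes `p ≤ x` for which the term at time `j` is prime, the
terms at times `0 < l < j` are not prime, the `R` terms after time `j` are not prime, and `p` is not a
term at a time `0 < l ≤ R` of the orbit of a prime -/
def Time (D : ℕ) (e : ℤ) (R j : ℕ) : Prop :=
  ∀ η : ℝ, 0 < η → ∃ᶠ x : ℝ in atTop,
    x ^ (1 - η) ≤ ({p : ℕ | (p : ℝ) ≤ x ∧ p.Prime ∧ (orb D e p j).Prime ∧
      (∀ l, 0 < l → l < j → ¬ (orb D e p l).Prime) ∧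
      ∀ l, 0 < l → l ≤ R → ¬ (orb D e p (j + l)).Prime ∧
        ∀ q : ℕ, q.Prime → orb D e q l ≠ p}.ncard : ℝ)

lemma iter_pos (D : ℕ) (e : ℤ) (hD : 2 ≤ D) (he : -(D : ℤ) < e) (p : ℕ) (hp : 1 ≤ p) (j : ℕ) :
    (1 : ℤ) ≤ (fun x : ℤ => D * x + e)^[j] (p : ℤ) := by
  induction j with
  | zero => simpa using (by exact_mod_cast hp : (1 : ℤ) ≤ (p : ℤ))
  | succ j ih =>
    rw [Function.iterate_succ_apply']
    have hD' : (2 : ℤ) ≤ D := by exact_mod_cast hD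
    show (1 : ℤ) ≤ D * ((fun x : ℤ => D * x + e)^[j] (p : ℤ)) + e
    nlinarith

lemma orb_cast (D : ℕ) (e : ℤ) (hD : 2 ≤ D) (he : -(D : ℤ) < e) (p j : ℕ) (hp : p.Prime) :
    ((orb D e p j : ℕ) : ℤ) = (Pool.Agent.H447R3.IT.S D e)^[j] (p : ℤ) := by
  unfold orb
  have h := iter_pos D e hD he p hp.one_lt.le j
  rw [Int.toNat_of_nonneg (by linarith)]
  rfl

lemma card_eq (P : ℕ → Prop) (u l : ℕ) :
    ({k : ℕ | u < k ∧ k ≤ u + l ∧ P k}.ncard) = (nwin {k | P k} u l).card := by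
  rw [← Set.ncard_coe_finset]
  congr 1
  ext k
  simp only [Set.mem_ofPred_eq, Finset.mem_coe, mem_nwin]
  tauto

/-- one half of the multiples of a highly divisible number -/
theorem half (D : ℕ) (e : ℤ) (hD : 2 ≤ D) (he0 : e ≠ 0) (he : -(D : ℤ) < e)
    (hcop : IsCoprime e (D : ℤ)) (R : ℕ) (ε : ℝ) (hε : 0 < ε) :
    ∃ M : ℕ, 0 < M ∧ ∀ N : ℕ, 0 < N → M ∣ N → ∃ L : ℕ, ∀ l : ℕ, L ≤ l → ∀ u : ℕ,
      (1 / 2 - ε) * (l : ℝ) ≤ ((nwin {k | Time D e R (N * k)} u l).card : ℝ) := by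
  obtain ⟨M, hM, h⟩ := Pool.Agent.Y862.transferH D e (D - 1) hD he0 hcop (by omega)
    (fun p _ hd => Dvd.dvd.mul_left (by exact_mod_cast hd) e) (orb D e)
    (fun p j hp => orb_cast D e hD he p j hp) R ε hε
  refine ⟨M, hM, fun N hN hd => ?_⟩
  obtain ⟨L, hL⟩ := h N hN hd
  refine ⟨L, fun l hl u => ?_⟩
  have h1 := hL l hl u
  rw [card_eq (fun k => ∀ η : ℝ, 0 < η → ∃ᶠ x : ℝ in atTop,
        x ^ (1 - η) ≤ ({p : ℕ | (p : ℝ) ≤ x ∧ p.Prime ∧ (orb D e p (N * k)).Prime ∧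
          (∀ l, 0 < l → l < N * k → ¬ (orb D e p l).Prime) ∧
          ∀ l, 0 < l → l ≤ R → ¬ (orb D e p (N * k + l)).Prime ∧
            ∀ q : ℕ, q.Prime → orb D e q l ≠ p}.ncard : ℝ))] at h1
  exact h1

end Pool.Agent.Q84.OT
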