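import Mathlib
import Pool.Agent.W59.GB.Mult
import Pool.Agent.TH709.RGap.Dens
import Pool.Agent.H507R3.RamAll

set_option autoImplicit false

/-! # Sets which contain a cross difference of any `T` classes of integers: intersections, density in
windows, multiples -/

namespace Pool.Agent.Q84.PP

open Finset Pool.Agent.H461R2.PD Pool.Agent.H947R3.GM Pool.Agent.W59.GB

/-- any `T` classes of `K` integers have a cross difference in `D` -/
def Pure (D : Set ℕ) (T K : ℕ) : Prop := ∀ H : Fin T → Fin K → ℕ,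
  Function.Injective (fun x : Fin T × Fin K => H x.1 x.2) →
    ∃ g g' i i', g ≠ g' ∧ H g i < H g' i' ∧ H g' i' - H g i ∈ D

lemma Pure.mono {D : Set ℕ} {T K K' : ℕ} (h : Pure D T K) (hK : K ≤ K') : Pure D T K' := by
  intro H hH
  obtain ⟨g, g', i, i', h1, h2, h3⟩ := h (fun g i => H g (Fin.castLE hK i)) (by
    intro x y hxy
    have h1 := hH (a₁ := (x.1, Fin.castLE hK x.2)) (a₂ := (y.1, Fin.castLE hK y.2)) hxy
    have h2 := Prod.mk.inj h1
    exact Prod.ext h2.1 (Fin.castLE_injective hK h2.2))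
  exact ⟨g, g', _, _, h1, h2, h3⟩

/-- the Ramsey number -/
def R (r : ℕ) : ℕ := ∑ i ∈ range (2 * r + 1), r ^ i

lemma one_le_R (r : ℕ) : 1 ≤ R r := by
  unfold R
  have h := single_le_sum (f := fun i => r ^ i) (s := range (2 * r + 1)) (fun _ _ => Nat.zero_le _)
    (mem_range.2 (Nat.succ_pos _) : 0 ∈ range (2 * r + 1))
  simpa using h

/-- sequences with colours depending on the first element only -/
lemma seqs (r : ℕ) (k : ℕ → ℕ → Fin r) (L : ℕ) : ∀ S : Finset ℕ,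
    1 + ∑ i ∈ range L, r ^ i ≤ S.card → ∃ (f : ℕ → ℕ) (c : ℕ → Fin r), (∀ i ≤ L, f i ∈ S) ∧
      ∀ i j, i < j → j ≤ L → f i < f j ∧ k (f i) (f j) = c i := by
  classical
  induction L with
  | zero =>
    intro S hS
    have h1 : S.Nonempty := by
      rw [range_zero, sum_empty] at hS
      rw [← card_pos]
      omega
    obtain ⟨x, hx⟩ := h1
    refine ⟨fun _ => x, fun _ => k x x, fun _ _ => hx, fun i j hij hj => ?_⟩
    omega
  | succ L ih =>
    intro S hS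
    have hne : S.Nonempty := by
      rw [← card_pos]
      omega
    obtain ⟨x, hx⟩ : ∃ x, x = S.min' hne := ⟨_, rfl⟩
    have hxS : x ∈ S := by rw [hx]; exact S.min'_mem hne
    have hlt : ∀ y ∈ S.erase x, x < y := fun y hy => by
      rw [hx] at hy ⊢
      exact S.min'_lt_of_mem_erase_min' hne hy
    have hcard : r * (∑ i ∈ range L, r ^ i) < (S.erase x).card := by
      rw [card_erase_of_mem hxS]
      have h1 : ∑ i ∈ range (L + 1), r ^ i = r * (∑ i ∈ range L, r ^ i) + 1 := by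
        rw [sum_range_succ', mul_sum, pow_zero]
        congr 1
        exact sum_congr rfl fun i _ => by rw [pow_succ]; ring
      rw [h1] at hS
      omega
    obtain ⟨c, -, hc⟩ := exists_lt_card_fiber_of_mul_lt_card_of_maps_to (s := S.erase x)
      (t := (univ : Finset (Fin r))) (f := fun y => k x y) (n := ∑ i ∈ range L, r ^ i)
      (fun _ _ => mem_univ _) (by rw [card_univ, Fintype.card_fin]; exact hcard)
    obtain ⟨f, d, h1, h2⟩ := ih ((S.erase x).filter fun y => k x y = c) (by omega)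
    refine ⟨fun n => if n = 0 then x else f (n - 1), fun n => if n = 0 then c else d (n - 1), ?_, ?_⟩
    · intro i hi
      rcases Nat.eq_zero_or_pos i with h0 | h0
      · simp only [h0, if_true]
        exact hxS
      · simp only [Nat.pos_iff_ne_zero.1 h0, if_false]
        exact mem_of_mem_erase (mem_filter.1 (h1 (i - 1) (by omega))).1
    · intro i j hij hj
      have hj0 : j ≠ 0 := by omega
      rcases Nat.eq_zero_or_pos i with h0 | h0
      · simp only [h0, if_true, hj0, if_false]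
        obtain ⟨h3, h4⟩ := mem_filter.1 (h1 (j - 1) (by omega))
        exact ⟨hlt _ h3, h4⟩
      · simp only [Nat.pos_iff_ne_zero.1 h0, hj0, if_false]
        exact h2 (i - 1) (j - 1) (by omega) (by omega)

/-- four integers with one colour -/
lemma mono4 (r : ℕ) (k : ℕ → ℕ → Fin r) (S : Finset ℕ) (hS : R r + 1 ≤ S.card) :
    ∃ (g : Fin 4 → ℕ) (c : Fin r), (∀ a, g a ∈ S) ∧ ∀ a b, a < b → g a < g b ∧ k (g a) (g b) = c := by
  classical
  obtain ⟨f, c, hf, hk⟩ := seqs r k (2 * r + 1) S (by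
    unfold R at hS
    omega)
  obtain ⟨c₀, -, hc⟩ := exists_lt_card_fiber_of_mul_lt_card_of_maps_to (s := range (2 * r + 1))
    (t := (univ : Finset (Fin r))) (f := c) (n := 2)
    (fun _ _ => mem_univ _) (by rw [card_univ, Fintype.card_fin, card_range]; omega)
  obtain ⟨I, hI, hI3⟩ := exists_subset_card_eq (show 3 ≤ _ from hc)
  obtain ⟨e, he⟩ : ∃ e : Fin 3 ↪o ℕ, e = I.orderEmbOfFin hI3 := ⟨_, rfl⟩
  have heI : ∀ a, e a ∈ I := fun a => by rw [he]; exact orderEmbOfFin_mem I hI3 a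
  have hlt : ∀ a, e a < 2 * r + 1 ∧ c (e a) = c₀ := fun a => by
    obtain ⟨h1, h2⟩ := mem_filter.1 (hI (heI a))
    exact ⟨mem_range.1 h1, h2⟩
  refine ⟨Fin.snoc (fun a : Fin 3 => f (e a)) (f (2 * r + 1)), c₀, ?_, ?_⟩
  · intro a
    refine Fin.lastCases ?_ (fun a => ?_) a
    · rw [Fin.snoc_last]
      exact hf _ le_rfl
    · rw [Fin.snoc_castSucc]
      exact hf _ (hlt a).1.le
  · intro a b
    refine Fin.lastCases ?_ (fun b => ?_) b
    · refine Fin.lastCases (fun h => absurd h (lt_irrefl _)) (fun a _ => ?_) a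
      rw [Fin.snoc_last, Fin.snoc_castSucc]
      have h1 := hk (e a) (2 * r + 1) (hlt a).1 le_rfl
      exact ⟨h1.1, h1.2.trans (hlt a).2⟩
    · refine Fin.lastCases (fun h => ?_) (fun a h => ?_) a
      · exact absurd h (not_lt.2 (Fin.le_last _))
      · rw [Fin.snoc_castSucc, Fin.snoc_castSucc]
        have h0 : a < b := Fin.castSucc_lt_castSucc_iff.1 h
        have h1 := hk (e a) (e b) (e.lt_iff_lt.2 h0) (hlt b).1.le
        exact ⟨h1.1, h1.2.trans (hlt a).2⟩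

/-- **Intersections.** -/
theorem inter (r K : ℕ) (hr : 0 < r) : ∃ K' : ℕ, 1 ≤ K' ∧ ∀ D : Fin r → Set ℕ,
    (∀ j, Pure (D j) 4 K) → Pure {k | ∀ j, k ∈ D j} (R r + 1) K' := by
  classical
  obtain ⟨n, hn⟩ : ∃ n, n = R r + 1 := ⟨_, rfl⟩
  have : Nonempty (Fin r) := ⟨⟨0, hr⟩⟩
  obtain ⟨N, hN⟩ := Pool.Agent.H507R3.RamAll.ramsey_finset (Fin n → Fin n → Fin r) 2 (n * K)
  refine ⟨N + 1, by omega, fun D hD => ?_⟩
  rw [← hn]
  intro H hH
  by_contra hcon
  push Not at hcon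
  -- the colour
  have hfail : ∀ x y : ℕ, ∃ j : Fin r, (∃ j, Bad (D j) x y) → Bad (D j) x y := by
    intro x y
    by_cases h : ∃ j, Bad (D j) x y
    · obtain ⟨j, hj⟩ := h
      exact ⟨j, fun _ => hj⟩
    · exact ⟨Classical.arbitrary _, fun h' => absurd h' h⟩
  choose fail hfail using hfail
  have hcross : ∀ g g' i i', g ≠ g' → Bad (D (fail (H g i) (H g' i'))) (H g i) (H g' i') := by
    intro g g' i i' hgg
    apply hfail
    rcases lt_trichotomy (H g i) (H g' i') with h | h | h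
    · have h1 := hcon g g' i i' hgg h
      simp only [Set.mem_ofPred_eq, not_forall] at h1
      obtain ⟨j, hj⟩ := h1
      exact ⟨j, fun _ => hj, fun h' => absurd h' (by omega)⟩
    · exfalso
      exact hgg (Prod.mk.inj (hH (a₁ := (g, i)) (a₂ := (g', i')) h)).1
    · have h1 := hcon g' g i' i hgg.symm h
      simp only [Set.mem_ofPred_eq, not_forall] at h1
      obtain ⟨j, hj⟩ := h1
      exact ⟨j, fun h' => absurd h' (by omega), fun _ => hj⟩
  obtain ⟨Hx, hHx⟩ : ∃ Hx : Fin n → ℕ → ℕ, ∀ g (i : ℕ) (hi : i < N + 1), Hx g i = H g ⟨i, hi⟩ :=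
    ⟨fun g i => if hi : i < N + 1 then H g ⟨i, hi⟩ else 0, fun g i hi => dif_pos hi⟩
  obtain ⟨T, hT, hTc, k, hk⟩ := hN (range (N + 1)) (fun Q => fun g g' =>
    if h : Q.Nonempty then fail (Hx g (Q.min' h)) (Hx g' (Q.max' h)) else Classical.arbitrary _)
    (by rw [card_range]; omega)
  have hk' : ∀ i ∈ T, ∀ i' ∈ T, i < i' → ∀ g g', fail (Hx g i) (Hx g' i') = k g g' := by
    intro i hi i' hi' hlt g g'
    have h1 := hk {i, i'} (by
      intro x hx
      rw [mem_insert, mem_singleton] at hx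
      rcases hx with rfl | rfl
      · exact hi
      · exact hi') (card_pair hlt.ne)
    have h2 := congrFun (congrFun h1 g) g'
    have hne : ({i, i'} : Finset ℕ).Nonempty := ⟨i, by simp⟩
    have hmin : ({i, i'} : Finset ℕ).min' hne = i := by
      apply le_antisymm
      · exact min'_le _ _ (by simp)
      · apply le_min'
        intro y hy
        rw [mem_insert, mem_singleton] at hy
        omega
    have hmax : ({i, i'} : Finset ℕ).max' hne = i' := by
      apply le_antisymm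
      · apply max'_le
        intro y hy
        rw [mem_insert, mem_singleton] at hy
        omega
      · exact le_max' _ _ (by simp)
    simp only [hne, dif_pos] at h2
    rw [hmin, hmax] at h2
    exact h2
  obtain ⟨e, he⟩ : ∃ e : Fin (n * K) ↪o ℕ, e = T.orderEmbOfFin hTc := ⟨_, rfl⟩
  have heT : ∀ a, e a ∈ T := fun a => by rw [he]; exact orderEmbOfFin_mem T hTc a
  have hidx : ∀ (g : Fin n) (s : Fin K), (g : ℕ) * K + s < n * K := by
    intro g s
    have h1 : ((g : ℕ) + 1) * K ≤ n * K := Nat.mul_le_mul_right K g.2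
    have h2 := s.2
    nlinarith
  obtain ⟨g, c, hgS, hg⟩ := mono4 r (fun x y => if h : x < n ∧ y < n then k ⟨x, h.1⟩ ⟨y, h.2⟩
    else Classical.arbitrary _) (range n) (by rw [card_range, hn])
  have hgn : ∀ a, g a < n := fun a => mem_range.1 (hgS a)
  obtain ⟨H4, hH4⟩ : ∃ H4 : Fin 4 → Fin K → ℕ, ∀ a s, H4 a s =
      H ⟨g a, hgn a⟩ ⟨e ⟨g a * K + s, hidx ⟨g a, hgn a⟩ s⟩, mem_range.1 (hT (heT _))⟩ :=
    ⟨fun a s => _, fun a s => rfl⟩
  have hcol : ∀ a b, a < b → ∀ s s', Bad (D c) (H4 a s) (H4 b s') := by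
    intro a b hab s s'
    obtain ⟨h1, h2⟩ := hg a b hab
    have h3 : fail (H4 a s) (H4 b s') = c := by
      have hlt : e ⟨g a * K + s, hidx ⟨g a, hgn a⟩ s⟩ < e ⟨g b * K + s', hidx ⟨g b, hgn b⟩ s'⟩ := by
        rw [e.lt_iff_lt, Fin.mk_lt_mk]
        have h4 : (g a + 1) * K ≤ g b * K := Nat.mul_le_mul_right K h1
        have h5 := s.2
        nlinarith
      have h4 := hk' _ (heT ⟨g a * K + s, hidx ⟨g a, hgn a⟩ s⟩) _
        (heT ⟨g b * K + s', hidx ⟨g b, hgn b⟩ s'⟩) hlt ⟨g a, hgn a⟩ ⟨g b, hgn b⟩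
      rw [hHx _ _ (mem_range.1 (hT (heT _))), hHx _ _ (mem_range.1 (hT (heT _)))] at h4
      rw [hH4, hH4, h4]
      rw [dif_pos ⟨hgn a, hgn b⟩] at h2
      exact h2
    have h4 := hcross ⟨g a, hgn a⟩ ⟨g b, hgn b⟩
      ⟨e ⟨g a * K + s, hidx ⟨g a, hgn a⟩ s⟩, mem_range.1 (hT (heT _))⟩
      ⟨e ⟨g b * K + s', hidx ⟨g b, hgn b⟩ s'⟩, mem_range.1 (hT (heT _))⟩
      (fun h => h1.ne (Fin.mk.inj_iff.1 h))
    rw [← hH4, ← hH4, h3] at h4
    exact h4
  obtain ⟨a, b, s, s', hab, hlt, hmem⟩ := hD c H4 (by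
    intro x y hxy
    simp only [hH4] at hxy
    have h1 := hH (a₁ := (_, _)) (a₂ := (_, _)) hxy
    obtain ⟨h2, h3⟩ := Prod.mk.inj h1
    have h4 : g x.1 = g y.1 := Fin.mk.inj_iff.1 h2
    have h5 : x.1 = y.1 := by
      rcases lt_trichotomy x.1 y.1 with h | h | h
      · exact absurd h4 (hg _ _ h).1.ne
      · exact h
      · exact absurd h4 (hg _ _ h).1.ne'
    have h6 := e.injective (Fin.mk.inj_iff.1 h3)
    have h7 := Fin.mk.inj_iff.1 h6
    rw [h4] at h7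
    exact Prod.ext h5 (Fin.ext (by omega)))
  rcases lt_or_gt_of_ne hab with h | h
  · exact (hcol a b h s s').1 hlt hmem
  · exact (hcol b a h s' s).2 hlt hmem

/-- **Density in windows.** -/
theorem density {D : Set ℕ} {n K : ℕ} (hn : 1 ≤ n) (h : Pure D (n + 1) K) (ε : ℝ) (hε : 0 < ε) :
    ∃ L : ℕ, ∀ l : ℕ, L ≤ l → ∀ u : ℕ, (1 / (n : ℝ) - ε) * (l : ℝ) ≤
      ({k : ℕ | u < k ∧ k ≤ u + l ∧ k ∈ D}.ncard : ℝ) := by
  classical
  have hnot : ¬ TemplC D 1 (n + 1) (fun _ => True) K := by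
    rintro ⟨A, r, -, hA, hdis, hbad, -⟩
    have hen : ∀ g : Fin (n + 1), ∃ e : Fin K → ℕ, Function.Injective e ∧ ∀ i, e i ∈ A g := by
      intro g
      refine ⟨(A g).orderEmbOfFin (hA g), ((A g).orderEmbOfFin (hA g)).injective, fun i => ?_⟩
      exact orderEmbOfFin_mem (A g) (hA g) i
    choose e he1 he2 using hen
    obtain ⟨g, g', i, i', h1, h2, h3⟩ := h e (by
      rintro ⟨g, i⟩ ⟨g', i'⟩ hxy
      simp only at hxy
      have hgg : g = g' := by
        by_contra hgg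
        exact disjoint_left.1 (hdis g g' hgg) (he2 g i) (by rw [hxy]; exact he2 g' i')
      subst hgg
      rw [he1 g hxy])
    exact (hbad g g' h1 _ (he2 g i) _ (he2 g' i')).1 h2 h3
  obtain ⟨t, ht1, htn, ht, K₀, hK₀⟩ : ∃ t, 1 ≤ t ∧ t ≤ n ∧ (∀ M, TemplC D 1 t (fun _ => True) M) ∧
      ∃ K₀, ¬ TemplC D 1 (t + 1) (fun _ => True) K₀ := by
    by_contra hcon
    push Not at hcon
    have h1 : ∀ t, 1 ≤ t → t ≤ n + 1 → ∀ M, TemplC D 1 t (fun _ => True) M := by
      intro t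
      induction t with
      | zero => intro h; omega
      | succ t ih =>
        intro _ h2
        rcases Nat.eq_zero_or_pos t with h0 | h0
        · subst h0
          exact fun M => templ_one D one_pos 0 trivial M
        · exact hcon t h0 (by omega) (ih h0 (by omega))
    exact hnot (h1 (n + 1) (by omega) le_rfl K)
  obtain ⟨N₀, hN₀⟩ := Pool.Agent.W59.GB.step (X := Set.univ) (Y := Set.univ) one_pos (fun _ _ _ _ => trivial) ht hK₀
    (fun _ _ _ _ _ _ _ => trivial) hε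
  refine ⟨N₀, fun l hl u => ?_⟩
  have h1 := hN₀ l hl u
  have e1 : win Set.univ u l = l := by
    rw [win_eq]
    simp
  have e2 : (win (D ∩ Set.univ) u l : ℝ) = ({k : ℕ | u < k ∧ k ≤ u + l ∧ k ∈ D}.ncard : ℝ) := by
    rw [Set.inter_univ, win_eq, ← Set.ncard_coe_finset]
    congr 2
    ext k
    simp only [coe_filter, mem_Ioc, Set.mem_ofPred_eq]
    tauto
  rw [e1, e2] at h1
  set w : ℝ := ({k : ℕ | u < k ∧ k ≤ u + l ∧ k ∈ D}.ncard : ℝ) with hw
  have hw0 : 0 ≤ w := by positivity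
  have ht' : (t : ℝ) ≤ n := by exact_mod_cast htn
  have hn0 : (1 : ℝ) ≤ n := by exact_mod_cast hn
  have hl0 : (0 : ℝ) ≤ l := Nat.cast_nonneg _
  have h2 : (l : ℝ) ≤ n * w + ε * l := by nlinarith
  have h3 : (1 / (n : ℝ) - ε) * l = (l - n * (ε * l)) / n := by
    field_simp
  rw [h3, div_le_iff₀ (by linarith)]
  have h4 : ε * (l : ℝ) ≤ n * (ε * l) := le_mul_of_one_le_left (by positivity) hn0
  linarith

/-- **One of the multiples `k, 2 k, …, n k` of almost all `k`.** -/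
theorem multiples {D : Set ℕ} {n K : ℕ} (h : Pure D (n + 1) K) (ε : ℝ) (hε : 0 < ε) :
    ∃ L : ℕ, ∀ l : ℕ, L ≤ l → ∀ u : ℕ,
      ({k : ℕ | u < k ∧ k ≤ u + l ∧ ¬ ∃ d, 1 ≤ d ∧ d ≤ n ∧ d * k ∈ D}.ncard : ℝ) ≤ ε * l := by
  classical
  by_contra hcon0
  have hcon : ∀ L : ℕ, ∃ l, L ≤ l ∧ ∃ u : ℕ, ε * l <
      ({k : ℕ | u < k ∧ k ≤ u + l ∧ ¬ ∃ d, 1 ≤ d ∧ d ≤ n ∧ d * k ∈ D}.ncard : ℝ) := by
    intro L
    by_contra h'
    exact hcon0 ⟨L, fun l hl u => not_lt.1 fun h'' => h' ⟨l, hl, u, h''⟩⟩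
  set B : Set ℕ := {k : ℕ | ¬ ∃ d, 1 ≤ d ∧ d ≤ n ∧ d * k ∈ D} with hB
  set F : ℕ := n.factorial with hF
  have hF0 : 0 < F := Nat.factorial_pos _
  obtain ⟨r, η, hη, hr⟩ := Pool.Agent.TH709.RGap.ipr (2 * (K * F)) ε hε
  set A : Set (Fin 1 → ℤ) := {v | ∃ k : ℕ, k ∈ B ∧ v 0 = k} with hA
  have hdense : Pool.Agent.TH709.RGap.Dense A ε := by
    intro L
    obtain ⟨l, hl, u, hu⟩ := hcon L
    refine ⟨l, hl, fun _ => (u : ℤ) + 1, ?_⟩
    rw [pow_one]
    refine hu.le.trans ?_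
    rw [Nat.cast_le]
    have hinj : Set.InjOn (fun k : ℕ => (fun _ : Fin 1 => (k : ℤ)))
        {k : ℕ | u < k ∧ k ≤ u + l ∧ ¬ ∃ d, 1 ≤ d ∧ d ≤ n ∧ d * k ∈ D} := by
      intro a _ b _ hab
      have := congrFun hab 0
      simpa using this
    rw [← hinj.ncard_image]
    refine Set.ncard_le_ncard ?_ ?_
    · rintro _ ⟨k, ⟨h1, h2, h3⟩, rfl⟩
      refine ⟨⟨k, h3, rfl⟩, fun i => ⟨?_, ?_⟩⟩
      · change (u : ℤ) + 1 ≤ (k : ℤ)
        exact_mod_cast h1
      · change (k : ℤ) < (u : ℤ) + 1 + l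
        have : (k : ℤ) ≤ u + l := by exact_mod_cast h2
        linarith
    · have hfin : (Pool.Agent.TH709.RGap.box (fun _ : Fin 1 => (u : ℤ) + 1) l :
          Set (Fin 1 → ℤ)).Finite := Finset.finite_toSet _
      refine hfin.subset ?_
      rintro v ⟨-, hv⟩
      exact (Pool.Agent.TH709.RGap.mem_box _ _ _).2 hv
  obtain ⟨I, hI, hdI⟩ := hr 1 A hdense (fun t _ => ((t : ℕ) : ℤ)) (fun _ => 1)
  obtain ⟨N, hN, x, hx⟩ := hdI 1
  have hpos : (0 : ℝ) < ({v : Fin 1 → ℤ | v ∈ {a : Fin 1 → ℤ | ∀ t : Fin (2 * (K * F) + 1),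
      a + (∑ i ∈ I, (fun _ : Fin r => (1 : ℤ)) i) • (fun _ : Fin 1 => ((t : ℕ) : ℤ)) ∈ A} ∧
      ∀ i, x i ≤ v i ∧ v i < x i + N}.ncard : ℝ) := by
    refine lt_of_lt_of_le ?_ hx
    have : (0 : ℝ) < N := by exact_mod_cast hN
    positivity
  obtain ⟨a, ha, -⟩ := Set.nonempty_of_ncard_ne_zero (by exact_mod_cast hpos.ne')
  have hcard : ∑ i ∈ I, (fun _ : Fin r => (1 : ℤ)) i = (I.card : ℤ) := by simp
  rw [hcard] at ha
  -- the progression
  obtain ⟨n0, hn0B, ha0⟩ := ha 0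
  have ha0' : a 0 = n0 := by simpa using ha0
  set e : ℕ := I.card with he
  have he0 : 0 < e := card_pos.2 hI
  have hAP : ∀ t : ℕ, t ≤ 2 * (K * F) → n0 + t * e ∈ B := by
    intro t ht
    obtain ⟨k, hk, hkt⟩ := ha ⟨t, Nat.lt_succ_of_le ht⟩
    have h1 : (k : ℤ) = n0 + (e : ℤ) * t := by
      rw [← hkt, ← ha0']
      simp
    have h2 : n0 + t * e = k := by
      have : ((n0 + t * e : ℕ) : ℤ) = (k : ℤ) := by rw [h1]; push_cast; ring
      exact_mod_cast this
    rw [h2]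
    exact hk
  -- the middle
  set d0 : ℕ := n0 + (K * F) * e with hd0
  have hd0pos : K * F * e ≤ d0 := by omega
  obtain ⟨H, hH⟩ : ∃ H : Fin (n + 1) → Fin K → ℕ, ∀ g s, H g s = (g : ℕ) * d0 + (s : ℕ) * (e * F) :=
    ⟨fun g s => _, fun g s => rfl⟩
  have hsF : ∀ s : Fin K, (s : ℕ) * (e * F) + e * F ≤ K * F * e := by
    intro s
    have h1 : ((s : ℕ) + 1) * (e * F) ≤ K * (e * F) := Nat.mul_le_mul_right _ s.2
    nlinarith
  have heF : 0 < e * F := Nat.mul_pos he0 hF0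
  have hltH : ∀ g g' : Fin (n + 1), g < g' → ∀ s s' : Fin K, H g s < H g' s' := by
    intro g g' hgg s s'
    rw [hH, hH]
    have h1 : ((g : ℕ) + 1) * d0 ≤ (g' : ℕ) * d0 := Nat.mul_le_mul_right _ hgg
    have h2 := hsF s
    nlinarith
  obtain ⟨g, g', s, s', hgg, hlt, hmem⟩ := h H (by
    rintro ⟨g, s⟩ ⟨g', s'⟩ hxy
    simp only at hxy
    rcases lt_trichotomy g g' with h1 | h1 | h1
    · exact absurd hxy (hltH g g' h1 s s').ne
    · subst h1
      rw [hH, hH] at hxy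
      have h2 : (s : ℕ) * (e * F) = (s' : ℕ) * (e * F) := Nat.add_left_cancel hxy
      have h3 := Nat.eq_of_mul_eq_mul_right heF h2
      rw [Fin.ext h3]
    · exact absurd hxy (hltH g' g h1 s' s).ne')
  have hg : g < g' := by
    rcases lt_or_gt_of_ne hgg with h1 | h1
    · exact h1
    · have := hltH g' g h1 s' s
      omega
  obtain ⟨δ, hδ⟩ : ∃ δ : ℕ, (g' : ℕ) = g + δ := ⟨(g' : ℕ) - g, by
    have : (g : ℕ) < g' := hg
    omega⟩
  have hδ1 : 1 ≤ δ := by
    have : (g : ℕ) < g' := hg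
    omega
  have hδn : δ ≤ n := by
    have := g'.2
    omega
  obtain ⟨F', hF'⟩ : δ ∣ F := Nat.dvd_factorial hδ1 hδn
  have hF'F : F' ≤ F := by
    rw [hF']
    exact Nat.le_mul_of_pos_left _ hδ1
  -- the element of the progression
  have hkey : H g' s' - H g s = δ * (n0 + (K * F + (s' : ℕ) * F' - (s : ℕ) * F') * e) := by
    have h1 : (s : ℕ) * F' ≤ K * F := by
      have h2 : (s : ℕ) ≤ K := s.2.le
      exact Nat.mul_le_mul h2 hF'F
    obtain ⟨w, hw⟩ : ∃ w, K * F + (s' : ℕ) * F' = (s : ℕ) * F' + w :=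
      ⟨K * F + (s' : ℕ) * F' - (s : ℕ) * F', by omega⟩
    have hw' : K * F + (s' : ℕ) * F' - (s : ℕ) * F' = w := by omega
    rw [hw']
    have h3 : H g' s' = H g s + δ * (n0 + w * e) := by
      rw [hH, hH, hδ, hd0]
      have h4 : (s' : ℕ) * (e * F) = δ * ((s' : ℕ) * F' * e) := by rw [hF']; ring
      have h5 : (s : ℕ) * (e * F) = δ * ((s : ℕ) * F' * e) := by rw [hF']; ring
      rw [h4, h5]
      have h6 : δ * ((K * F) * e) + δ * ((s' : ℕ) * F' * e) = δ * ((s : ℕ) * F' * e) + δ * (w * e) := by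
        have h7 := congrArg (fun z => δ * (z * e)) hw
        simp only [add_mul, mul_add] at h7
        exact h7
      calc (↑g + δ) * (n0 + K * F * e) + δ * (↑s' * F' * e)
          = ↑g * (n0 + K * F * e) + δ * n0 + (δ * ((K * F) * e) + δ * ((s' : ℕ) * F' * e)) := by ring
        _ = ↑g * (n0 + K * F * e) + δ * n0 + (δ * ((s : ℕ) * F' * e) + δ * (w * e)) := by rw [h6]
        _ = _ := by ring
    omega
  have hB' := hAP (K * F + (s' : ℕ) * F' - (s : ℕ) * F') (by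
    have h2 : (s' : ℕ) * F' ≤ K * F := Nat.mul_le_mul s'.2.le hF'F
    omega)
  rw [hkey] at hmem
  exact hB' ⟨δ, hδ1, hδn, hmem⟩

/-- **Arbitrary large finite sets.** -/
theorem finite_sets {D : Set ℕ} {T K : ℕ} (h : Pure D T K) (W : Finset ℕ) (hW : T * K ≤ W.card) :
    ∃ w ∈ W, ∃ w' ∈ W, w < w' ∧ w' - w ∈ D := by
  obtain ⟨W', hW', hc⟩ := exists_subset_card_eq hW
  obtain ⟨e, he⟩ : ∃ e : Fin (T * K) ↪o ℕ, e = W'.orderEmbOfFin hc := ⟨_, rfl⟩
  have heW : ∀ a, e a ∈ W := fun a => by rw [he]; exact hW' (orderEmbOfFin_mem W' hc a)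
  obtain ⟨g, g', i, i', -, h2, h3⟩ := h (fun g i => e (finProdFinEquiv (g, i))) (by
    intro x y hxy
    exact finProdFinEquiv.injective (e.injective hxy))
  exact ⟨_, heW _, _, heW _, h2, h3⟩

end Pool.Agent.Q84.PP
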