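import Pool.Agent.Q84.OT1
import Pool.Agent.Q84.PP2

set_option autoImplicit false

/-!
# Recurring times of orbits: any four classes, dilates
-/

namespace Pool.Agent.Q84.OT

open Filter Finset Pool.Agent.H447R3.IT Pool.Agent.H732R3.BigQ Pool.Agent.W59.GB Pool.Agent.Y862
open Pool.Agent.W218.OG (Pr pr_nat big_count)

lemma pure_orb (D : ℕ) (e : ℤ) (m : ℕ) (hD : 2 ≤ D) (he : e ≠ 0) (hcop : IsCoprime e (D : ℤ))
    (hm0 : 0 < m) (hm : ∀ p : ℕ, p.Prime → p ∣ D - 1 → (p : ℤ) ∣ e * m) (R : ℕ) (hR : R < m) :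
    ∃ K : ℕ, 1 ≤ K ∧ ∀ c : ℕ, 0 < c → Pool.Agent.Q84.PP.Pure {k | c * k ∈ GapOI D e m R} 4 K := by
  obtain ⟨K, hK, h⟩ := consecM D e m hD he hcop hm0 hm R hR
  refine ⟨K, hK, fun c hc H hH => ?_⟩
  obtain ⟨g, g', i, i', h1, h2, h3⟩ := h (fun g i => c * H g i)
    (fun x y hxy => hH (Nat.eq_of_mul_eq_mul_left hc hxy))
  refine ⟨g, g', i, i', h1, Nat.lt_of_mul_lt_mul_left h2, ?_⟩
  show c * (H g' i' - H g i) ∈ GapOI D e m R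
  rw [Nat.mul_sub]
  exact h3

lemma time_of (D : ℕ) (e : ℤ) (hD : 2 ≤ D) (he : -(D : ℤ) < e) (m R k : ℕ)
    (hk : k ∈ GapOI D e m R) : Time D e R (m * k) := by
  have hpr : ∀ p j : ℕ, p.Prime → (Pr ((S D e)^[j] (p : ℤ)) ↔ (orb D e p j).Prime) := by
    intro p j hp
    rw [← orb_cast D e hD he p j hp, pr_nat]
  refine big_count (Big.mono ?_ hk)
  rintro p ⟨hp, hp1, hp2, hp3⟩
  refine ⟨hp, (hpr p _ hp).1 hp1, fun l h0 h1 h2 => hp2 l h0 h1 ((hpr p _ hp).2 h2),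
    fun l hl0 hl1 => ?_⟩
  obtain ⟨k1, k2⟩ := hp3 l hl0 hl1
  refine ⟨fun h => k1 ((hpr p _ hp).2 h), fun q hq h => ?_⟩
  refine k2 (q : ℤ) ?_ ?_
  · exact ⟨by exact_mod_cast hq.pos, Nat.prime_iff_prime_int.1 hq⟩
  · rw [← orb_cast D e hD he q l hq, h]

/-- **Times which are recurring for all the maps simultaneously.** -/
theorem simul (r : ℕ) (hr : 0 < r) (D A : Fin r → ℕ) (e : Fin r → ℤ) (hD : ∀ j, 2 ≤ D j)
    (he0 : ∀ j, e j ≠ 0) (he : ∀ j, -(D j : ℤ) < e j) (hcop : ∀ j, IsCoprime (e j) (D j : ℤ))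
    (hA : ∀ j, 0 < A j) (T : ℕ) :
    ∃ M C : ℕ, 0 < M ∧ ∀ N : ℕ, 0 < N → M ∣ N →
      (∀ ε : ℝ, 0 < ε → ∃ L : ℕ, ∀ l : ℕ, L ≤ l → ∀ u : ℕ,
        (1 / (PP.R r : ℝ) - ε) * (l : ℝ) ≤ ({k : ℕ | u < k ∧ k ≤ u + l ∧
          ∀ j, Time (D j) (e j) T (A j * (N * k))}.ncard : ℝ)) ∧
      (∀ ε : ℝ, 0 < ε → ∃ L : ℕ, ∀ l : ℕ, L ≤ l → ∀ u : ℕ,
        ({k : ℕ | u < k ∧ k ≤ u + l ∧ ¬ ∃ d, 1 ≤ d ∧ d ≤ PP.R r ∧
          ∀ j, Time (D j) (e j) T (A j * (N * (d * k)))}.ncard : ℝ) ≤ ε * l) ∧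
      ∀ W : Finset ℕ, C ≤ W.card → ∃ w ∈ W, ∃ w' ∈ W, w < w' ∧
        ∀ j, Time (D j) (e j) T (A j * (N * (w' - w))) := by
  classical
  obtain ⟨m, hm⟩ : ∃ m : Fin r → ℕ, ∀ j, m j = (D j - 1) * (T + 1) := ⟨fun j => _, fun j => rfl⟩
  have hmT : ∀ j, T < m j := by
    intro j
    have h1 : 1 ≤ D j - 1 := by have := hD j; omega
    have h2 : 1 * (T + 1) ≤ (D j - 1) * (T + 1) := Nat.mul_le_mul_right _ h1
    rw [hm]
    omega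
  have hm0 : ∀ j, 0 < m j := fun j => by have := hmT j; omega
  choose K hK hp using fun j => pure_orb (D j) (e j) (m j) (hD j) (he0 j) (hcop j) (hm0 j)
    (fun p _ hd => by
      rw [hm]
      exact Dvd.dvd.mul_left (by exact_mod_cast hd.mul_right (T + 1)) (e j)) T (hmT j)
  obtain ⟨K₀, hK₀⟩ : ∃ K₀ : ℕ, ∀ j, K j ≤ K₀ := ⟨univ.sup K, fun j => le_sup (mem_univ j)⟩
  obtain ⟨K', hK', hint⟩ := PP.inter r K₀ hr
  refine ⟨∏ j, m j, (PP.R r + 1) * K', prod_pos fun j _ => hm0 j, fun N hN hd => ?_⟩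
  have hc : ∀ j, ∃ c : ℕ, 0 < c ∧ m j * c = A j * N := by
    intro j
    obtain ⟨s, hs⟩ : m j ∣ N := (dvd_prod_of_mem m (mem_univ j)).trans hd
    have hs0 : 0 < s := Nat.pos_of_ne_zero (by
      rintro rfl
      rw [mul_zero] at hs
      omega)
    exact ⟨A j * s, Nat.mul_pos (hA j) hs0, by rw [hs]; ring⟩
  choose c hc0 hcq using hc
  have hDD := hint (fun j => {k | c j * k ∈ GapOI (D j) (e j) (m j) T})
    (fun j => (hp j (c j) (hc0 j)).mono (hK₀ j))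
  have hRec : ∀ k : ℕ, (∀ j, k ∈ {k | c j * k ∈ GapOI (D j) (e j) (m j) T}) →
      ∀ j, Time (D j) (e j) T (A j * (N * k)) := by
    intro k hk j
    have h1 := time_of (D j) (e j) (hD j) (he j) (m j) T (c j * k) (hk j)
    have h2 : m j * (c j * k) = A j * (N * k) := by
      rw [← mul_assoc, hcq, mul_assoc]
    rw [h2] at h1
    exact h1
  refine ⟨fun ε hε => ?_, fun ε hε => ?_, fun W hW => ?_⟩
  · obtain ⟨L, hL⟩ := PP.density (PP.one_le_R r) hDD ε hε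
    refine ⟨L, fun l hl u => (hL l hl u).trans ?_⟩
    rw [Nat.cast_le]
    refine Set.ncard_le_ncard ?_ ((Set.finite_Ioc u (u + l)).subset fun k hk => ⟨hk.1, hk.2.1⟩)
    rintro k ⟨h1, h2, h3⟩
    exact ⟨h1, h2, hRec k h3⟩
  · obtain ⟨L, hL⟩ := PP.multiples hDD ε hε
    refine ⟨L, fun l hl u => le_trans ?_ (hL l hl u)⟩
    rw [Nat.cast_le]
    refine Set.ncard_le_ncard ?_ ((Set.finite_Ioc u (u + l)).subset fun k hk => ⟨hk.1, hk.2.1⟩)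
    rintro k ⟨h1, h2, h3⟩
    refine ⟨h1, h2, ?_⟩
    rintro ⟨d, hd1, hd2, hd3⟩
    exact h3 ⟨d, hd1, hd2, hRec _ hd3⟩
  · obtain ⟨w, hw, w', hw', h1, h2⟩ := PP.finite_sets hDD W hW
    exact ⟨w, hw, w', hw', h1, hRec _ h2⟩

end Pool.Agent.Q84.OT
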