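import Pool.Agent.Q84.OT2
import Pool.Agent.Q84.PP3
import Pool.Agent.W218.OG.Orb

set_option autoImplicit false

/-! # The same patterns of primes in the orbits of several affine maps -/

namespace Pool.Agent.Q84.OT

open Filter Finset Pool.Agent.H447R3.IT Pool.Agent.H732R3.BigQ Pool.Agent.W59.GB
open Pool.Agent.W218.OG (Pr pr_nat big_count big_shift orbit_classesW S_iter_add)
open Pool.Agent.Q84.PP (pat initial)

/-- many starting points with the same exact pattern up to time `W₀`; times divisible by `m` -/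
theorem exactOm (D : ℕ) (e : ℤ) (m : ℕ) (hD : 2 ≤ D) (he : e ≠ 0) (hcop : IsCoprime e (D : ℤ))
    (hm0 : 0 < m) (hm : ∀ p : ℕ, p.Prime → p ∣ D - 1 → (p : ℤ) ∣ e * m) {T K : ℕ}
    (hQ : ∀ (a b : Fin T → Fin K → ℤ), (∀ g i, 0 < a g i) →
      Function.Injective (fun x : Fin T × Fin K => (a x.1 x.2, b x.1 x.2)) →
      (∀ p : ℕ, p.Prime → ∃ n : ℤ, ∀ g i, ¬ ((p : ℤ) ∣ a g i * n + b g i)) →
      ∃ (F : Finset (Fin T)) (c : Fin T → Fin K), T ≤ 4 * F.card ∧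
        Big {n : ℕ | ∀ g ∈ F, 0 < a g (c g) * (n : ℤ) + b g (c g) ∧
          Prime (a g (c g) * (n : ℤ) + b g (c g))})
    (W₀ : ℕ) (H : Fin T → Fin K → ℕ)
    (hinj : Function.Injective (fun x : Fin T × Fin K => H x.1 x.2)) :
    ∃ (P : Finset ℕ) (F : Finset (Fin T)) (c : Fin T → Fin K),
      (∀ t ∈ P, ∃ g i, m * H g i = t) ∧ T ≤ 4 * F.card ∧ (∀ g ∈ F, m * H g (c g) ∈ P) ∧
      Big {n : ℕ | ∀ t ≤ W₀, (Pr ((S D e)^[t] (n : ℤ)) ↔ t ∈ P)} := by
  classical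
  obtain ⟨W, Q, r, F, c, hQ0, hW0, hW, hF, hB⟩ := orbit_classesW W₀ D e m hD he hcop hm0 hm hQ H hinj
  set O : Finset ℕ := univ.image fun x : Fin T × Fin K => m * H x.1 x.2 with hO
  have hOm : ∀ g i, m * H g i ∈ O := fun g i => mem_image.2 ⟨(g, i), mem_univ _, rfl⟩
  set X : Set ℕ := {n : ℕ | (∀ g ∈ F, Pr ((S D e)^[m * H g (c g)] ((Q * n + r : ℕ) : ℤ))) ∧
        ∀ t ≤ W, (∀ g i, m * H g i ≠ t) → ¬ Pr ((S D e)^[t] ((Q * n + r : ℕ) : ℤ))} with hX
  set Y : {P // P ∈ O.powerset} → Set ℕ := fun P => {n | n ∈ X ∧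
    O.filter (fun t => Pr ((S D e)^[t] ((Q * n + r : ℕ) : ℤ))) = P.1} with hY
  obtain ⟨⟨P, hP⟩, hPB⟩ := big_cover Y X hB (by
    intro n hn
    rw [Set.mem_iUnion]
    exact ⟨⟨_, mem_powerset.2 (filter_subset _ _)⟩, hn, rfl⟩)
  have hPO := mem_powerset.1 hP
  refine ⟨P, F, c, fun t ht => ?_, hF, fun g hg => ?_, ?_⟩
  · obtain ⟨x, -, hx⟩ := mem_image.1 (hPO ht)
    exact ⟨x.1, x.2, hx⟩
  · obtain ⟨n, hn, hnP⟩ := hPB.infinite.nonempty
    have hnP' : O.filter (fun t => Pr ((S D e)^[t] ((Q * n + r : ℕ) : ℤ))) = P := hnP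
    rw [← hnP']
    exact mem_filter.2 ⟨hOm _ _, hn.1 g hg⟩
  · refine hPB.affine Q r hQ0 (fun n => Q * n + r) (fun n _ => by push_cast; ring) fun n hn => ?_
    obtain ⟨hn1, hn2⟩ := hn
    have hn2' : O.filter (fun t => Pr ((S D e)^[t] ((Q * n + r : ℕ) : ℤ))) = P := hn2
    intro t ht
    rw [← hn2', mem_filter]
    constructor
    · intro h
      refine ⟨?_, h⟩
      by_contra hO'
      exact hn1.2 t (ht.trans hW0) (fun g i h' => hO' (h' ▸ hOm g i)) h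
    · exact fun h => h.2

/-- the statement of the coloured Maynard-Tao theorem for `T` classes of `K` forms -/
def Q4 (T K : ℕ) : Prop := ∀ (a b : Fin T → Fin K → ℤ), (∀ g i, 0 < a g i) →
      Function.Injective (fun x : Fin T × Fin K => (a x.1 x.2, b x.1 x.2)) →
      (∀ p : ℕ, p.Prime → ∃ n : ℤ, ∀ g i, ¬ ((p : ℤ) ∣ a g i * n + b g i)) →
      ∃ (F : Finset (Fin T)) (c : Fin T → Fin K), T ≤ 4 * F.card ∧
        Big {n : ℕ | ∀ g ∈ F, 0 < a g (c g) * (n : ℤ) + b g (c g) ∧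
          Prime (a g (c g) * (n : ℤ) + b g (c g))}

lemma q4 (T : ℕ) : ∃ K : ℕ, 1 ≤ K ∧ Q4 T K := Pool.Agent.H732R3.BigQ.quarterB T

/-- the pattern `H` is realised in the orbits of many natural numbers -/
def RealO (D : ℕ) (e : ℤ) (H : Finset ℕ) : Prop :=
  Big {n : ℕ | ∀ t ≤ H.sup id, (Pr ((S D e)^[t] (n : ℤ)) ↔ t ∈ H)}

/-- the conditions on a map and a factor of the times -/
structure Map (D : ℕ) (e : ℤ) (s : ℕ) : Prop where
  hD : 2 ≤ D
  he : e ≠ 0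
  hcop : IsCoprime e (D : ℤ)
  hs : 0 < s
  hds : ∀ p : ℕ, p.Prime → p ∣ D - 1 → (p : ℤ) ∣ e * s

/-- exact patterns inside an arbitrary set -/
theorem insideO {m K : ℕ} (hit : Q4 (4 * m) K) {D : ℕ} {e : ℤ} {s c' : ℕ} (h : Map D e s)
    (hc : 0 < c') (W : Finset ℕ) (hW : 4 * m * K ≤ W.card) (M : ℕ)
    (hM : ∀ w ∈ W, s * c' * w ≤ M) :
    ∃ P ⊆ W, m ≤ P.card ∧
      Big {b : ℕ | ∀ t ≤ M, (Pr ((S D e)^[t] (b : ℤ)) ↔ ∃ w ∈ P, t = s * c' * w)} := by
  classical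
  obtain ⟨W', hW', hWc⟩ := exists_subset_card_eq hW
  obtain ⟨f, hf⟩ : ∃ f : Fin (4 * m * K) ↪o ℕ, f = W'.orderEmbOfFin hWc := ⟨_, rfl⟩
  have hfW : ∀ x, f x ∈ W := fun x => by rw [hf]; exact hW' (orderEmbOfFin_mem W' hWc x)
  have hinj : Function.Injective (fun x : Fin (4 * m) × Fin K => c' * f (finProdFinEquiv (x.1, x.2))) := by
    intro x y hxy
    exact finProdFinEquiv.injective (f.injective (Nat.eq_of_mul_eq_mul_left hc hxy))
  obtain ⟨P, F, c, h1, h2, h3, h4⟩ := exactOm D e s h.hD h.he h.hcop h.hs h.hds hit M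
    (fun g i => c' * f (finProdFinEquiv (g, i))) hinj
  refine ⟨W.filter fun w => s * (c' * w) ∈ P, filter_subset _ _, ?_, ?_⟩
  · refine (show m ≤ F.card by omega).trans ?_
    refine card_le_card_of_injOn (fun g => f (finProdFinEquiv (g, c g))) ?_ ?_
    · intro g hg
      rw [mem_coe, mem_filter]
      exact ⟨hfW _, h3 g hg⟩
    · intro g _ g' _ hgg
      have h5 := finProdFinEquiv.injective (f.injective hgg)
      exact (Prod.mk.inj h5).1
  · refine h4.mono ?_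
    intro b hb t ht
    rw [hb t ht]
    constructor
    · intro hy
      obtain ⟨g, i, hgi⟩ := h1 t hy
      refine ⟨f (finProdFinEquiv (g, i)), ?_, ?_⟩
      · rw [mem_filter]
        exact ⟨hfW _, by rw [hgi]; exact hy⟩
      · exact hgi.symm.trans (mul_assoc s c' _).symm
    · rintro ⟨w, hw, rfl⟩
      rw [mul_assoc]
      exact (mem_filter.1 hw).2

/-- every set of `4 m K` integers contains a pattern of each size `≤ m` -/
theorem patternO {m K : ℕ} (hit : Q4 (4 * m) K) {D : ℕ} {e : ℤ} {s c' : ℕ} (h : Map D e s)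
    (hc : 0 < c') (W : Finset ℕ) (hW : 4 * m * K ≤ W.card) (k : ℕ)
    (hk0 : 0 < k) (hk : k ≤ m) : ∃ Z ⊆ W, Z.card = k ∧ RealO D e (pat (s * c') Z) := by
  classical
  obtain ⟨M, hM⟩ : ∃ M : ℕ, ∀ w ∈ W, s * c' * w ≤ M :=
    ⟨W.sup fun w => s * c' * w, fun w hw => le_sup (f := fun w => s * c' * w) hw⟩
  obtain ⟨P, hPW, hPm, hB⟩ := insideO hit h hc W hW M hM
  obtain ⟨Z, hZP, hZs, hZi⟩ := initial P k (hk.trans hPm)
  have hZne : Z.Nonempty := by
    rw [← card_pos]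
    omega
  refine ⟨Z, hZP.trans hPW, hZs, ?_⟩
  obtain ⟨z0, hz0⟩ : ∃ z0, z0 = sInf (Z : Set ℕ) := ⟨_, rfl⟩
  have hz0Z : z0 ∈ Z := by
    rw [hz0]
    exact mem_coe.1 (Nat.sInf_mem (coe_nonempty.2 hZne))
  have hz0le : ∀ z ∈ Z, z0 ≤ z := fun z hz => by
    rw [hz0]
    exact Nat.sInf_le (mem_coe.2 hz)
  have hcpos : 0 < s * c' := Nat.mul_pos h.hs hc
  unfold RealO
  refine big_shift D e h.hD (s * c' * z0) hB ?_
  intro b hb n' hn' t ht
  rw [hn', ← S_iter_add]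
  -- the largest element
  obtain ⟨z1, hz1, hz1max⟩ := exists_max_image Z id hZne
  have hsup : (pat (s * c') Z).sup id ≤ s * c' * (z1 - z0) := by
    apply Finset.sup_le
    intro y hy
    unfold pat at hy
    rw [mem_image] at hy
    obtain ⟨z, hz, rfl⟩ := hy
    rw [← hz0]
    exact Nat.mul_le_mul_left _ (Nat.sub_le_sub_right (hz1max z hz) _)
  have ht1 : s * c' * z0 + t ≤ s * c' * z1 := by
    have h1 := ht.trans hsup
    have h2 : s * c' * z0 + s * c' * (z1 - z0) = s * c' * z1 := by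
      rw [← mul_add]
      congr 1
      have := hz0le z1 hz1
      omega
    omega
  have htM : s * c' * z0 + t ≤ M := ht1.trans (hM _ (hPW (hZP hz1)))
  have h3 := hb _ htM
  rw [h3]
  unfold pat
  rw [mem_image, ← hz0]
  constructor
  · rintro ⟨w, hw, hwt⟩
    have h4 : w ≤ z1 := by
      have h5 : s * c' * w ≤ s * c' * z1 := by rw [← hwt]; exact ht1
      exact Nat.le_of_mul_le_mul_left h5 hcpos
    have h5 : w ∈ Z := hZi w hw z1 hz1 h4
    refine ⟨w, h5, ?_⟩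
    rw [Nat.mul_sub, ← hwt]
    omega
  · rintro ⟨z, hz, rfl⟩
    refine ⟨z, hZP hz, ?_⟩
    rw [← mul_add]
    congr 1
    have := hz0le z hz
    omega

/-- **Hereditary patterns for several maps at once.** -/
theorem hereditaryO (m r : ℕ) : ∃ C : ℕ, m ≤ C ∧ ∀ (D : Fin r → ℕ) (e : Fin r → ℤ) (s c' : Fin r → ℕ),
    (∀ j, Map (D j) (e j) (s j)) → (∀ j, 0 < c' j) →
    ∀ W : Finset ℕ, C ≤ W.card → ∃ Y ⊆ W, Y.card = m ∧ ∀ Z ⊆ Y, Z.Nonempty →
      ∀ j, RealO (D j) (e j) (pat (s j * c' j) Z) := by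
  classical
  obtain ⟨K, hK, hit⟩ := q4 (4 * m)
  obtain ⟨N, hN⟩ := Pool.Agent.H507R3.RamAll.ramsey_all (Option (Fin r)) m (4 * m * K)
  refine ⟨max N m, le_max_right _ _, fun D e s c' hM hc W hW => ?_⟩
  obtain ⟨T, hT, hTc, hTk⟩ := hN W (fun Z => if h : ∃ j, ¬ RealO (D j) (e j) (pat (s j * c' j) Z)
    then some h.choose else none) ((le_max_left _ _).trans hW)
  have hmT : m ≤ T.card := by
    rw [hTc]
    have h1 : m * 1 ≤ m * (4 * K) := Nat.mul_le_mul_left m (by omega)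
    nlinarith
  obtain ⟨Y, hYT, hYc⟩ := exists_subset_card_eq hmT
  refine ⟨Y, hYT.trans hT, hYc, fun Z hZ hZne j => ?_⟩
  by_contra hcon
  have hs0 : 0 < Z.card := card_pos.2 hZne
  have hsm : Z.card ≤ m := by
    rw [← hYc]
    exact card_le_card hZ
  obtain ⟨k, hk⟩ := hTk Z.card hsm
  have h1 := hk Z (hZ.trans hYT) rfl
  have hex : ∃ j, ¬ RealO (D j) (e j) (pat (s j * c' j) Z) := ⟨j, hcon⟩
  rw [dif_pos hex] at h1
  obtain ⟨Z', hZ'T, hZ'c, hZ'⟩ := patternO hit (hM hex.choose) (hc hex.choose) T hTc.ge Z.card hs0 hsm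
  have h2 := hk Z' hZ'T hZ'c
  rw [← h1] at h2
  by_cases hex' : ∃ j, ¬ RealO (D j) (e j) (pat (s j * c' j) Z')
  · rw [dif_pos hex'] at h2
    have h3 := hex'.choose_spec
    rw [Option.some_injective _ h2] at h3
    exact h3 hZ'
  · rw [dif_neg hex'] at h2
    exact absurd h2 (by simp)

end Pool.Agent.Q84.OT
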