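import Pool.Agent.Q84.PP2
import Pool.Agent.Q84.MS2

set_option autoImplicit false

/-! # Few translates of a pure set cover almost all of every large finite set of integers -/

namespace Pool.Agent.Q84.PP

open Finset Pool.Agent.Q84.MS

/-- the symmetric set in the (multiplicatively written) group of integers -/
def sym (D : Set ℕ) : Set (Multiplicative ℤ) := {z | (Multiplicative.toAdd z).natAbs ∈ D}

lemma sym_inv (D : Set ℕ) (s : Multiplicative ℤ) (hs : s ∈ sym D) : s⁻¹ ∈ sym D := by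
  unfold sym at *
  simp only [Set.mem_ofPred_eq, toAdd_inv, Int.natAbs_neg] at *
  exact hs

lemma cross_of_pure {D : Set ℕ} {T K : ℕ} (h : Pure D T K) : Cross T K (sym D) := by
  intro A hA
  obtain ⟨M, hM⟩ : ∃ M : ℕ, ∀ g i, (Multiplicative.toAdd (A g i)).natAbs ≤ M :=
    ⟨univ.sup fun x : Fin T × Fin K => (Multiplicative.toAdd (A x.1 x.2)).natAbs, fun g i =>
      le_sup (f := fun x : Fin T × Fin K => (Multiplicative.toAdd (A x.1 x.2)).natAbs) (mem_univ (g, i))⟩
  obtain ⟨H, hH⟩ : ∃ H : Fin T → Fin K → ℕ, ∀ g i, (H g i : ℤ) = Multiplicative.toAdd (A g i) + M := by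
    refine ⟨fun g i => (Multiplicative.toAdd (A g i) + M).toNat, fun g i => ?_⟩
    have := hM g i
    show ((Multiplicative.toAdd (A g i) + (M : ℤ)).toNat : ℤ) = _
    omega
  obtain ⟨g, g', i, i', hg, hlt, hmem⟩ := h H (by
    intro x y hxy
    apply hA
    have h1 := hH x.1 x.2
    have h2 := hH y.1 y.2
    have h3 : H x.1 x.2 = H y.1 y.2 := hxy
    rw [h3, h2] at h1
    exact Multiplicative.toAdd.injective (by linarith))
  refine ⟨g', g, hg.symm, i', i, ?_⟩
  unfold sym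
  simp only [Set.mem_ofPred_eq, toAdd_div]
  have h1 := hH g i
  have h2 := hH g' i'
  have h3 : (Multiplicative.toAdd (A g' i') - Multiplicative.toAdd (A g i)).natAbs = H g' i' - H g i := by
    omega
  rw [h3]
  exact hmem

/-- **Few translates.** -/
theorem transl {D : Set ℕ} {n K : ℕ} (hn : 1 ≤ n) (h : Pure D (n + 1) K) :
    ∃ t : ℕ, 1 ≤ t ∧ t ≤ n ∧ ∀ ε : ℝ, 0 < ε → ∃ B n₀ : ℕ, ∀ F : Finset ℕ, n₀ ≤ F.card →
      ∃ c : Fin t → ℕ, (∀ i, c i ≤ B) ∧ ∃ Z ⊆ F, (Z.card : ℝ) ≤ ε * F.card ∧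
        ∀ u ∈ F, u ∉ Z → ∃ i, u + c i ∈ D := by
  classical
  obtain ⟨t, ht1, ht2, ht⟩ := translates (sym_inv D) (show 2 ≤ n + 1 by omega) (cross_of_pure h)
  refine ⟨t, ht1, by omega, fun ε hε => ?_⟩
  obtain ⟨E, n₀, hE⟩ := ht ε hε
  obtain ⟨M, hM⟩ : ∃ M : ℕ, ∀ e ∈ E, (Multiplicative.toAdd e).natAbs ≤ M :=
    ⟨E.sup fun e => (Multiplicative.toAdd e).natAbs, fun e he =>
      le_sup (f := fun e : Multiplicative ℤ => (Multiplicative.toAdd e).natAbs) he⟩
  refine ⟨2 * M, n₀, fun F hF => ?_⟩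
  obtain ⟨em, hem⟩ : ∃ em : ℕ → Multiplicative ℤ, ∀ u, em u = Multiplicative.ofAdd (u : ℤ) :=
    ⟨_, fun u => rfl⟩
  have hinj : Function.Injective em := by
    intro a b hab
    rw [hem, hem] at hab
    exact_mod_cast Multiplicative.ofAdd.injective hab
  obtain ⟨c, hc, Z, hZF, hZ, hZc⟩ := hE (Multiplicative.ofAdd (M : ℤ)) (F.image em)
    (by rw [card_image_of_injective _ hinj]; exact hF)
  rw [card_image_of_injective _ hinj] at hZc
  refine ⟨fun i => ((M : ℤ) + Multiplicative.toAdd (c i)).toNat, fun i => ?_,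
    F.filter (fun u => em u ∈ Z), filter_subset _ _, ?_, ?_⟩
  · have := hM _ (hc i)
    show ((M : ℤ) + Multiplicative.toAdd (c i)).toNat ≤ 2 * M
    omega
  · refine le_trans ?_ hZc
    rw [Nat.cast_le, ← card_image_of_injective (F.filter (fun u => em u ∈ Z)) hinj]
    refine card_le_card ?_
    intro x hx
    obtain ⟨d, hd, rfl⟩ := mem_image.1 hx
    exact (mem_filter.1 hd).2
  · intro u hu huZ
    have h1 : em u ∉ Z := fun h2 => huZ (mem_filter.2 ⟨hu, h2⟩)
    obtain ⟨i, hi⟩ := hZ (em u) (mem_image_of_mem _ hu) h1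
    refine ⟨i, ?_⟩
    unfold sym at hi
    simp only [Set.mem_ofPred_eq, toAdd_mul, hem, toAdd_ofAdd] at hi
    have h2 := hM _ (hc i)
    have h3 : ((u : ℤ) + (M + Multiplicative.toAdd (c i))).natAbs =
        u + ((M : ℤ) + Multiplicative.toAdd (c i)).toNat := by omega
    rw [h3] at hi
    exact hi

end Pool.Agent.Q84.PP
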