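import Pool.Agent.Q84.OT2
import Pool.Agent.Q84.PP5

set_option autoImplicit false

/-! # Recurring times of several maps: few translates -/

namespace Pool.Agent.Q84.OT

open Filter Finset Pool.Agent.H447R3.IT Pool.Agent.H732R3.BigQ Pool.Agent.W59.GB Pool.Agent.Y862

/-- the set of the `k` such that `A_j N k` is a recurring time of the `j`-th map for all `j` is pure -/
theorem pure_times (r : ℕ) (hr : 0 < r) (D A : Fin r → ℕ) (e : Fin r → ℤ) (hD : ∀ j, 2 ≤ D j)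
    (he0 : ∀ j, e j ≠ 0) (he : ∀ j, -(D j : ℤ) < e j) (hcop : ∀ j, IsCoprime (e j) (D j : ℤ))
    (hA : ∀ j, 0 < A j) (T : ℕ) :
    ∃ M K : ℕ, 0 < M ∧ ∀ N : ℕ, 0 < N → M ∣ N →
      PP.Pure {k | ∀ j, Time (D j) (e j) T (A j * (N * k))} (PP.R r + 1) K := by
  classical
  obtain ⟨m, hm⟩ : ∃ m : Fin r → ℕ, ∀ j, m j = (D j - 1) * (T + 1) := ⟨fun j => _, fun j => rfl⟩
  have hmT : ∀ j, T < m j := by
    intro j
    have h1 : 1 ≤ D j - 1 := by have := hD j; omega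
    have h2 : 1 * (T + 1) ≤ (D j - 1) * (T + 1) := Nat.mul_le_mul_right _ h1
    rw [hm]
    omega
  have hm0 : ∀ j, 0 < m j := fun j => by have := hmT j; omega
  choose K hK hp using fun j => pure_orb (D j) (e j) (m j) (hD j) (he0 j) (hcop j) (hm0 j)
    (fun p _ hd => by
      rw [hm]
      exact Dvd.dvd.mul_left (by exact_mod_cast hd.mul_right (T + 1)) (e j)) T (hmT j)
  obtain ⟨K₀, hK₀⟩ : ∃ K₀ : ℕ, ∀ j, K j ≤ K₀ := ⟨univ.sup K, fun j => le_sup (mem_univ j)⟩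
  obtain ⟨K', hK', hint⟩ := PP.inter r K₀ hr
  refine ⟨∏ j, m j, K', prod_pos fun j _ => hm0 j, fun N hN hd => ?_⟩
  have hc : ∀ j, ∃ c : ℕ, 0 < c ∧ m j * c = A j * N := by
    intro j
    obtain ⟨s, hs⟩ : m j ∣ N := (dvd_prod_of_mem m (mem_univ j)).trans hd
    have hs0 : 0 < s := Nat.pos_of_ne_zero (by
      rintro rfl
      rw [mul_zero] at hs
      omega)
    exact ⟨A j * s, Nat.mul_pos (hA j) hs0, by rw [hs]; ring⟩
  choose c hc0 hcq using hc
  have hDD := hint (fun j => {k | c j * k ∈ GapOI (D j) (e j) (m j) T})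
    (fun j => (hp j (c j) (hc0 j)).mono (hK₀ j))
  intro H hH
  obtain ⟨g, g', i, i', h1, h2, h3⟩ := hDD H hH
  refine ⟨g, g', i, i', h1, h2, fun j => ?_⟩
  have h4 := time_of (D j) (e j) (hD j) (he j) (m j) T _ (h3 j)
  have h5 : ∀ k : ℕ, m j * (c j * k) = A j * (N * k) := fun k => by
    rw [← mul_assoc, hcq, mul_assoc]
  rw [h5] at h4
  exact h4

end Pool.Agent.Q84.OT
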