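import Mathlib

/-!
# A lower bound for the `L²` mean of an exponential sum with repeated frequencies
-/

set_option autoImplicit false

namespace Pool.Agent.Q84.OpT

open MeasureTheory Set Complex

/-- the character `x ↦ exp(2πi n x)` -/
noncomputable def E (n : ℕ) (x : ℝ) : ℂ := Complex.exp (((2 * Real.pi * (n * x) : ℝ) : ℂ) * I)

lemma E_norm (n : ℕ) (x : ℝ) : ‖E n x‖ = 1 := Complex.norm_exp_ofReal_mul_I _

lemma E_cont (n : ℕ) : Continuous (E n) := by unfold E; fun_prop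

lemma E_add (n m : ℕ) (x : ℝ) : E (n + m) x = E n x * E m x := by
  unfold E
  rw [← Complex.exp_add]
  congr 1
  push_cast
  ring

lemma E_mul_conj (n m : ℕ) (x : ℝ) :
    E n x * (starRingEnd ℂ) (E m x) =
      Complex.exp ((2 * Real.pi * I * (((n : ℤ) - (m : ℤ) : ℤ) : ℂ)) * x) := by
  unfold E
  rw [← Complex.exp_conj, ← Complex.exp_add]
  congr 1
  rw [map_mul, Complex.conj_ofReal, Complex.conj_I]
  push_cast
  ring

lemma int_exp (m : ℤ) : ∫ x in (-(1 / 2) : ℝ)..(1 / 2),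
    Complex.exp ((2 * Real.pi * I * (m : ℂ)) * x) = if m = 0 then 1 else 0 := by
  by_cases h : m = 0
  · subst h
    simp
    norm_num
  · rw [if_neg h, integral_exp_mul_complex]
    · have h1 : Complex.exp (2 * Real.pi * I * (m : ℂ) * ((1 / 2 : ℝ) : ℂ)) =
          Complex.exp (2 * Real.pi * I * (m : ℂ) * ((-(1 / 2) : ℝ) : ℂ)) := by
        rw [Complex.exp_eq_exp_iff_exists_int]
        refine ⟨m, ?_⟩
        push_cast
        ring
      rw [h1, sub_self, zero_div]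
    · have : (m : ℂ) ≠ 0 := by exact_mod_cast h
      have h2 : (Real.pi : ℂ) ≠ 0 := by exact_mod_cast Real.pi_ne_zero
      simp [this, h2, Complex.I_ne_zero]

lemma parseval {ι : Type*} [DecidableEq ι] (J : Finset ι) (n : ι → ℕ) :
    ∫ x in (-(1 / 2) : ℝ)..(1 / 2), ‖∑ i ∈ J, E (n i) x‖ ^ 2 =
      (((J ×ˢ J).filter fun p => n p.1 = n p.2).card : ℝ) := by
  have h1 : ∀ x : ℝ, ((‖∑ i ∈ J, E (n i) x‖ ^ 2 : ℝ) : ℂ) =
      ∑ p ∈ J ×ˢ J, Complex.exp ((2 * Real.pi * I * (((n p.1 : ℤ) - (n p.2 : ℤ) : ℤ) : ℂ)) * x) := by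
    intro x
    rw [← Complex.normSq_eq_norm_sq, ← Complex.mul_conj, map_sum, Finset.sum_mul_sum,
      ← Finset.sum_product']
    apply Finset.sum_congr rfl
    intro p _
    exact E_mul_conj _ _ _
  have h2 : ((∫ x in (-(1 / 2) : ℝ)..(1 / 2), ‖∑ i ∈ J, E (n i) x‖ ^ 2 : ℝ) : ℂ) =
      ((((J ×ˢ J).filter fun p => n p.1 = n p.2).card : ℝ) : ℂ) := by
    rw [← intervalIntegral.integral_ofReal]
    rw [intervalIntegral.integral_congr (fun x _ => h1 x)]
    rw [intervalIntegral.integral_finsetSum]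
    · rw [Finset.sum_congr rfl (fun p _ => int_exp _)]
      rw [Finset.card_filter]
      push_cast
      apply Finset.sum_congr rfl
      intro p _
      have : ((n p.1 : ℤ) - (n p.2 : ℤ) = 0) ↔ n p.1 = n p.2 := by omega
      by_cases h : n p.1 = n p.2
      · rw [if_pos (this.mpr h), if_pos h]
        simp
      · rw [if_neg (fun h' => h (this.mp h')), if_neg h]
        simp
    · intro p _
      apply Continuous.intervalIntegrable
      fun_prop
  exact_mod_cast h2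

lemma card_sq_le {ι : Type*} [DecidableEq ι] (J : Finset ι) (n : ι → ℕ) (Λ : Finset ℕ)
    (h : ∀ i ∈ J, n i ∈ Λ) :
    (J.card : ℝ) ^ 2 ≤ Λ.card * (((J ×ˢ J).filter fun p => n p.1 = n p.2).card : ℝ) := by
  have h1 : (((J ×ˢ J).filter fun p => n p.1 = n p.2).card) =
      ∑ l ∈ Λ, ((J.filter fun i => n i = l).card) ^ 2 := by
    rw [Finset.card_eq_sum_card_fiberwise (f := fun p : ι × ι => n p.1) (t := Λ)]
    · apply Finset.sum_congr rfl
      intro l _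
      rw [sq, ← Finset.card_product]
      congr 1
      ext p
      simp only [Finset.mem_filter, Finset.mem_product]
      constructor
      · rintro ⟨⟨⟨h1, h2⟩, h3⟩, h4⟩
        exact ⟨⟨h1, h4⟩, ⟨h2, by rw [← h3]; exact h4⟩⟩
      · rintro ⟨⟨h1, h4⟩, ⟨h2, h5⟩⟩
        exact ⟨⟨⟨h1, h2⟩, by rw [h4, h5]⟩, h4⟩
    · intro p hp
      have hp' := Finset.mem_filter.mp (Finset.mem_coe.mp hp)
      exact h _ (Finset.mem_product.mp hp'.1).1
  rw [h1, Finset.card_eq_sum_card_fiberwise (f := n) (t := Λ) (fun i hi => h i hi)]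
  push_cast
  exact sq_sum_le_card_mul_sum_sq

/-- lower bound -/
lemma mean_ge {ι : Type*} [DecidableEq ι] (J : Finset ι) (n : ι → ℕ) (Λ : Finset ℕ)
    (h : ∀ i ∈ J, n i ∈ Λ) :
    (J.card : ℝ) ^ 2 ≤ Λ.card * ∫ x in (-(1 / 2) : ℝ)..(1 / 2), ‖∑ i ∈ J, E (n i) x‖ ^ 2 := by
  rw [parseval]
  exact card_sq_le J n Λ h

/-- the sum `∑_{k ∈ K} ∑_{j < r} e((2^k + j) x)` -/
noncomputable def QQ (K : Finset ℕ) (r : ℕ) (x : ℝ) : ℂ :=
  ∑ p ∈ K ×ˢ Finset.range r, E (2 ^ p.1 + p.2) x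

lemma QQ_cont (K : Finset ℕ) (r : ℕ) : Continuous (QQ K r) := by
  unfold QQ
  exact continuous_finsetSum _ fun p _ => E_cont _

lemma QQ_four (K : Finset ℕ) (r : ℕ) :
    ((K.card : ℝ) ^ 2 * r ^ 2) ^ 2 ≤ (2 * K.card ^ 2 * r) *
      ∫ x in (-(1 / 2) : ℝ)..(1 / 2), ‖QQ K r x‖ ^ 4 := by
  set J := (K ×ˢ Finset.range r) ×ˢ (K ×ˢ Finset.range r) with hJ
  set n : (ℕ × ℕ) × (ℕ × ℕ) → ℕ := fun p => (2 ^ p.1.1 + p.1.2) + (2 ^ p.2.1 + p.2.2) with hn
  set Λ : Finset ℕ := ((K ×ˢ K) ×ˢ Finset.range (2 * r)).image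
    (fun p => 2 ^ p.1.1 + 2 ^ p.1.2 + p.2) with hΛ
  have h1 := mean_ge J n Λ (by
    rintro ⟨⟨k, j⟩, ⟨k', j'⟩⟩ hp
    simp only [hJ, Finset.mem_product, Finset.mem_range] at hp
    simp only [hΛ, hn, Finset.mem_image, Finset.mem_product, Finset.mem_range]
    refine ⟨⟨⟨k, k'⟩, j + j'⟩, ⟨⟨hp.1.1, hp.2.1⟩, by simp only; omega⟩, by simp only; ring⟩)
  have h2 : ∀ x : ℝ, ‖∑ p ∈ J, E (n p) x‖ ^ 2 = ‖QQ K r x‖ ^ 4 := by
    intro x
    have : ∑ p ∈ J, E (n p) x = QQ K r x * QQ K r x := by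
      unfold QQ
      rw [Finset.sum_mul_sum, ← Finset.sum_product']
      apply Finset.sum_congr rfl
      intro p _
      exact E_add _ _ _
    rw [this, norm_mul]
    ring
  have h3 : (Λ.card : ℝ) ≤ 2 * K.card ^ 2 * r := by
    have : Λ.card ≤ ((K ×ˢ K) ×ˢ Finset.range (2 * r)).card := Finset.card_image_le
    rw [Finset.card_product, Finset.card_product, Finset.card_range] at this
    calc (Λ.card : ℝ) ≤ ((K.card * K.card * (2 * r) : ℕ) : ℝ) := by exact_mod_cast this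
      _ = _ := by push_cast; ring
  have h4 : J.card = K.card ^ 2 * r ^ 2 := by
    rw [hJ, Finset.card_product, Finset.card_product, Finset.card_range]
    ring
  rw [h4] at h1
  have h5 : ∫ x in (-(1 / 2) : ℝ)..(1 / 2), ‖∑ p ∈ J, E (n p) x‖ ^ 2 =
      ∫ x in (-(1 / 2) : ℝ)..(1 / 2), ‖QQ K r x‖ ^ 4 :=
    intervalIntegral.integral_congr fun x _ => h2 x
  rw [h5] at h1
  have h6 : 0 ≤ ∫ x in (-(1 / 2) : ℝ)..(1 / 2), ‖QQ K r x‖ ^ 4 := by
    apply intervalIntegral.integral_nonneg (by norm_num)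
    intro x _
    positivity
  push_cast at h1
  exact h1.trans (by gcongr)

lemma QQ_four' (K : Finset ℕ) (r : ℕ) (hK : K.Nonempty) (hr : 0 < r) :
    (K.card : ℝ) ^ 2 * r ^ 3 / 2 ≤ ∫ x in (-(1 / 2) : ℝ)..(1 / 2), ‖QQ K r x‖ ^ 4 := by
  have h := QQ_four K r
  have h1 : (0 : ℝ) < K.card := by exact_mod_cast hK.card_pos
  have h2 : (0 : ℝ) < r := by exact_mod_cast hr
  have h3 : ((K.card : ℝ) ^ 2 * r ^ 2) ^ 2 = (2 * K.card ^ 2 * r) * ((K.card : ℝ) ^ 2 * r ^ 3 / 2) := by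
    ring
  rw [h3] at h
  exact le_of_mul_le_mul_left h (by positivity)

end Pool.Agent.Q84.OpT
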