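import Mathlib
import Pool.Agent.Q84.OpT

/-!
# A bump function and its inverse Fourier transform
-/

set_option autoImplicit false

namespace Pool.Agent.Q84.OpB

open MeasureTheory Set Complex
open scoped ENNReal NNReal FourierTransform SchwartzMap

/-- a bump centred at `1/2` -/
noncomputable def bump : ContDiffBump (1 / 2 : ℝ) := ⟨1 / 8, 1 / 4, by norm_num, by norm_num⟩

/-- normalised bump -/
noncomputable def b (ξ : ℝ) : ℝ := bump.normed volume ξ

lemma b_nonneg (ξ : ℝ) : 0 ≤ b ξ := bump.nonneg_normed ξ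

lemma b_int : ∫ ξ, b ξ = 1 := bump.integral_normed

lemma b_smooth : ContDiff ℝ (⊤ : ℕ∞) b := bump.contDiff_normed

lemma b_cont : Continuous b := bump.continuous_normed

lemma b_zero {ξ : ℝ} (h : ξ ≤ 1 / 4 ∨ 3 / 4 ≤ ξ) : b ξ = 0 := by
  by_contra h0
  have h1 : ξ ∈ Function.support b := h0
  have h2 : Function.support b = Metric.ball (1 / 2 : ℝ) (1 / 4) := bump.support_normed_eq
  rw [h2, Metric.mem_ball, Real.dist_eq, abs_lt] at h1
  rcases h with h | h <;> linarith [h1.1, h1.2]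

lemma b_hcs : HasCompactSupport b := bump.hasCompactSupport_normed

lemma b_integrable : Integrable b := b_cont.integrable_of_hasCompactSupport b_hcs

lemma bc_hcs : HasCompactSupport fun ξ => (b ξ : ℂ) := b_hcs.comp_left (g := fun x : ℝ => (x : ℂ)) rfl

lemma bc_smooth : ContDiff ℝ (⊤ : ℕ∞) fun ξ => (b ξ : ℂ) := Complex.ofRealCLM.contDiff.comp b_smooth

lemma bc_integrable : Integrable fun ξ => (b ξ : ℂ) := b_integrable.ofReal

/-- as a Schwartz function -/
noncomputable def bS : 𝓢(ℝ, ℂ) := bc_hcs.toSchwartzMap bc_smooth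

/-- inverse Fourier transform of the bump -/
noncomputable def B (x : ℝ) : ℂ := 𝓕⁻ (fun ξ => (b ξ : ℂ)) x

lemma B_eq (x : ℝ) : B x = ∫ ξ, Complex.exp (((2 * Real.pi * (ξ * x) : ℝ) : ℂ) * I) * (b ξ : ℂ) := by
  unfold B
  rw [Real.fourierInv_eq']
  apply integral_congr_ae
  refine Filter.Eventually.of_forall fun ξ => ?_
  simp only [smul_eq_mul]
  congr 4
  simp [mul_comm]

lemma B_lower {x : ℝ} (hx : |x| ≤ 1 / 2) : 1 / 4 ≤ ‖B x‖ ^ 4 := by
  have hint : Integrable fun ξ : ℝ => Complex.exp (((2 * Real.pi * ((ξ - 1 / 2) * x) : ℝ) : ℂ) * I) * (b ξ : ℂ) := by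
    refine bc_integrable.bdd_mul (c := 1) ?_ ?_
    · apply Continuous.aestronglyMeasurable
      fun_prop
    · refine Filter.Eventually.of_forall fun ξ => ?_
      rw [Complex.norm_exp_ofReal_mul_I]
  have h1 : B x = Complex.exp (((2 * Real.pi * (1 / 2 * x) : ℝ) : ℂ) * I) *
      ∫ ξ, Complex.exp (((2 * Real.pi * ((ξ - 1 / 2) * x) : ℝ) : ℂ) * I) * (b ξ : ℂ) := by
    rw [B_eq, ← integral_const_mul]
    apply integral_congr_ae
    refine Filter.Eventually.of_forall fun ξ => ?_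
    simp only
    rw [← mul_assoc (Complex.exp _) (Complex.exp _) _, ← Complex.exp_add]
    congr 2
    push_cast
    ring
  have h2 : ‖B x‖ = ‖∫ ξ, Complex.exp (((2 * Real.pi * ((ξ - 1 / 2) * x) : ℝ) : ℂ) * I) * (b ξ : ℂ)‖ := by
    rw [h1, norm_mul, Complex.norm_exp_ofReal_mul_I, one_mul]
  have h3 : Real.sqrt 2 / 2 ≤ (∫ ξ, Complex.exp (((2 * Real.pi * ((ξ - 1 / 2) * x) : ℝ) : ℂ) * I) * (b ξ : ℂ)).re := by
    have h4 : (∫ ξ, Complex.exp (((2 * Real.pi * ((ξ - 1 / 2) * x) : ℝ) : ℂ) * I) * (b ξ : ℂ)).re =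
        ∫ ξ, Real.cos (2 * Real.pi * ((ξ - 1 / 2) * x)) * b ξ := by
      have := integral_re hint
      simp only [RCLike.re_to_complex] at this
      rw [← this]
      apply integral_congr_ae
      refine Filter.Eventually.of_forall fun ξ => ?_
      simp only
      rw [Complex.re_mul_ofReal, Complex.exp_ofReal_mul_I_re]
    rw [h4]
    have h5 : Real.sqrt 2 / 2 = ∫ ξ, Real.sqrt 2 / 2 * b ξ := by
      rw [integral_const_mul, b_int, mul_one]
    rw [h5]
    apply integral_mono (b_integrable.const_mul _)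
    · have := hint.re
      simp only [RCLike.re_to_complex] at this
      refine this.congr (Filter.Eventually.of_forall fun ξ => ?_)
      simp only
      rw [Complex.re_mul_ofReal, Complex.exp_ofReal_mul_I_re]
    · intro ξ
      simp only
      by_cases hξ : ξ ≤ 1 / 4 ∨ 3 / 4 ≤ ξ
      · rw [b_zero hξ, mul_zero, mul_zero]
      · push Not at hξ
        apply mul_le_mul_of_nonneg_right _ (b_nonneg ξ)
        rw [← Real.cos_pi_div_four, ← Real.cos_abs (2 * Real.pi * ((ξ - 1 / 2) * x))]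
        apply Real.cos_le_cos_of_nonneg_of_le_pi (abs_nonneg _)
        · linarith [Real.pi_pos]
        · rw [abs_mul (2 * Real.pi), abs_mul (ξ - 1 / 2), abs_of_pos (by positivity : (0 : ℝ) < 2 * Real.pi)]
          have : |ξ - 1 / 2| ≤ 1 / 4 := by
            rw [abs_le]
            constructor <;> linarith
          have h6 : |ξ - 1 / 2| * |x| ≤ 1 / 4 * (1 / 2) :=
            mul_le_mul this hx (abs_nonneg _) (by norm_num)
          nlinarith [Real.pi_pos]
  have h4 : Real.sqrt 2 / 2 ≤ ‖B x‖ := by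
    rw [h2]
    exact h3.trans (Complex.re_le_norm _)
  calc (1 : ℝ) / 4 = (Real.sqrt 2 / 2) ^ 4 := by
        have : Real.sqrt 2 ^ 2 = 2 := Real.sq_sqrt (by norm_num)
        have h5 : Real.sqrt 2 ^ 4 = 4 := by
          calc Real.sqrt 2 ^ 4 = (Real.sqrt 2 ^ 2) ^ 2 := by ring
            _ = 4 := by rw [this]; norm_num
        rw [div_pow, h5]
        norm_num
    _ ≤ ‖B x‖ ^ 4 := pow_le_pow_left₀ (by positivity) h4 4

lemma B_schwartz : (fun x => B x) = (𝓕⁻ bS : 𝓢(ℝ, ℂ)) := by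
  rw [SchwartzMap.fourierInv_coe]
  rfl

lemma B_cont : Continuous B := by
  have : B = (𝓕⁻ bS : 𝓢(ℝ, ℂ)) := B_schwartz
  rw [this]
  exact (𝓕⁻ bS : 𝓢(ℝ, ℂ)).continuous

lemma B_four : ∫⁻ x, ENNReal.ofReal (‖B x‖ ^ 4) < ∞ := by
  have h := (𝓕⁻ bS : 𝓢(ℝ, ℂ)).eLpNorm_lt_top 4 volume
  rw [← B_schwartz] at h
  have h2 := lintegral_rpow_enorm_lt_top_of_eLpNorm_lt_top (p := 4) (by norm_num) (by norm_num) h
  refine lt_of_le_of_lt (le_of_eq ?_) h2
  apply lintegral_congr
  intro x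
  have : (4 : ℝ≥0∞).toReal = ((4 : ℕ) : ℝ) := by norm_num
  rw [this, ENNReal.rpow_natCast, ← ofReal_norm, ENNReal.ofReal_pow (norm_nonneg _)]

/-- translation of the bump -/
lemma int_shift (N : ℕ) (x : ℝ) :
    ∫ ξ : ℝ, Complex.exp (((2 * Real.pi * (ξ * x) : ℝ) : ℂ) * I) * (b (ξ - N) : ℂ) = OpT.E N x * B x := by
  rw [B_eq, ← integral_const_mul]
  rw [← integral_sub_right_eq_self (fun ξ : ℝ => OpT.E N x *
    (Complex.exp (((2 * Real.pi * (ξ * x) : ℝ) : ℂ) * I) * (b ξ : ℂ))) (N : ℝ)]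
  apply integral_congr_ae
  refine Filter.Eventually.of_forall fun ξ => ?_
  simp only
  unfold OpT.E
  rw [← mul_assoc (Complex.exp _) (Complex.exp _) _, ← Complex.exp_add]
  congr 2
  push_cast
  ring

lemma shift_integrable (N : ℕ) (x : ℝ) :
    Integrable fun ξ : ℝ => Complex.exp (((2 * Real.pi * (ξ * x) : ℝ) : ℂ) * I) * (b (ξ - N) : ℂ) := by
  have h1 : Integrable fun ξ : ℝ => (b (ξ - N) : ℂ) := bc_integrable.comp_sub_right (N : ℝ)
  refine h1.bdd_mul (c := 1) ?_ ?_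
  · apply Continuous.aestronglyMeasurable
    fun_prop
  · refine Filter.Eventually.of_forall fun ξ => ?_
    rw [Complex.norm_exp_ofReal_mul_I]

end Pool.Agent.Q84.OpB
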