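import Mathlib

/-! Rudin-Shapiro polynomials. -/

set_option autoImplicit false

namespace Q84.RS

open Polynomial

/-- the pair of Rudin-Shapiro polynomials -/
noncomputable def PQ : ℕ → ℂ[X] × ℂ[X]
  | 0 => (1, 1)
  | k + 1 => ((PQ k).1 + X ^ (2 ^ k) * (PQ k).2, (PQ k).1 - X ^ (2 ^ k) * (PQ k).2)

noncomputable def P (k : ℕ) : ℂ[X] := (PQ k).1

lemma sq_sum (k : ℕ) (z : ℂ) (hz : ‖z‖ = 1) :
    ‖(PQ k).1.eval z‖ ^ 2 + ‖(PQ k).2.eval z‖ ^ 2 = 2 ^ (k + 1) := by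
  induction k with
  | zero => simp [PQ]; norm_num
  | succ k ih =>
    have h1 : (PQ (k + 1)).1.eval z = (PQ k).1.eval z + z ^ (2 ^ k) * (PQ k).2.eval z := by
      simp [PQ]
    have h2 : (PQ (k + 1)).2.eval z = (PQ k).1.eval z - z ^ (2 ^ k) * (PQ k).2.eval z := by
      simp [PQ]
    rw [h1, h2]
    have h3 := parallelogram_law_with_norm ℝ ((PQ k).1.eval z) (z ^ (2 ^ k) * (PQ k).2.eval z)
    have h4 : ‖z ^ (2 ^ k) * (PQ k).2.eval z‖ = ‖(PQ k).2.eval z‖ := by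
      rw [norm_mul, norm_pow, hz, one_pow, one_mul]
    rw [h4] at h3
    rw [pow_succ (2 : ℝ) (k + 1), ← ih]
    linarith

lemma P_sq_le (k : ℕ) (z : ℂ) (hz : ‖z‖ = 1) : ‖(P k).eval z‖ ^ 2 ≤ 2 ^ (k + 1) := by
  have := sq_sum k z hz
  unfold P
  nlinarith [sq_nonneg ‖(PQ k).2.eval z‖]

lemma coeffs (k n : ℕ) :
    (n < 2 ^ k → ((PQ k).1.coeff n = 1 ∨ (PQ k).1.coeff n = -1) ∧
      ((PQ k).2.coeff n = 1 ∨ (PQ k).2.coeff n = -1)) ∧
    (2 ^ k ≤ n → (PQ k).1.coeff n = 0 ∧ (PQ k).2.coeff n = 0) := by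
  induction k generalizing n with
  | zero =>
    constructor
    · intro h
      have : n = 0 := by simpa using h
      subst this
      simp [PQ]
    · intro h
      have : n ≠ 0 := by simp at h; omega
      simp [PQ, coeff_one, this]
  | succ k ih =>
    have h1 : (PQ (k + 1)).1.coeff n = (PQ k).1.coeff n +
        (if 2 ^ k ≤ n then (PQ k).2.coeff (n - 2 ^ k) else 0) := by
      simp [PQ, coeff_X_pow_mul']
    have h2 : (PQ (k + 1)).2.coeff n = (PQ k).1.coeff n -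
        (if 2 ^ k ≤ n then (PQ k).2.coeff (n - 2 ^ k) else 0) := by
      simp [PQ, coeff_X_pow_mul']
    rw [h1, h2]
    have hp : 2 ^ (k + 1) = 2 ^ k + 2 ^ k := by ring
    constructor
    · intro hn
      by_cases h : 2 ^ k ≤ n
      · rw [if_pos h, ((ih n).2 h).1]
        have := ((ih (n - 2 ^ k)).1 (by omega)).2
        rcases this with h3 | h3 <;> rw [h3] <;> simp
      · rw [if_neg h, add_zero, sub_zero]
        have := ((ih n).1 (by omega)).1
        exact ⟨this, this⟩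
    · intro hn
      rw [if_pos (by omega), ((ih n).2 (by omega)).1, ((ih (n - 2 ^ k)).2 (by omega)).2]
      simp

lemma P_coeff_lt {k n : ℕ} (h : n < 2 ^ k) : (P k).coeff n = 1 ∨ (P k).coeff n = -1 :=
  ((coeffs k n).1 h).1

lemma P_coeff_ge {k n : ℕ} (h : 2 ^ k ≤ n) : (P k).coeff n = 0 := ((coeffs k n).2 h).1

lemma P_coeff_norm (k n : ℕ) : ‖(P k).coeff n‖ ≤ 1 := by
  by_cases h : n < 2 ^ k
  · rcases P_coeff_lt h with h | h <;> rw [h] <;> simp
  · rw [P_coeff_ge (not_lt.1 h)]; simp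

lemma P_eval (k : ℕ) (z : ℂ) :
    (P k).eval z = ∑ n ∈ Finset.range (2 ^ k), (P k).coeff n * z ^ n := by
  apply eval_eq_sum_range'
  by_contra h
  have h2 : 2 ^ k ≤ (P k).natDegree := not_lt.1 h
  have h3 : (P k).leadingCoeff = 0 := P_coeff_ge h2
  rw [leadingCoeff_eq_zero] at h3
  have h4 := P_coeff_lt (k := k) (n := 0) (by positivity)
  rw [h3] at h4
  simp at h4

lemma P_coeff_mul_star {k n : ℕ} (h : n < 2 ^ k) : (P k).coeff n * star ((P k).coeff n) = 1 := by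
  rcases P_coeff_lt h with h | h <;> rw [h] <;> simp

end Q84.RS
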