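import Mathlib
import Pool.Agent.Q84.RudinShapiro
import Pool.Agent.Q84.Khin

/-!
# An operator-valued step multiplier `ℓ⁴ → ℂ` of bounded variation with `R`-bounded range
-/

set_option autoImplicit false

namespace Pool.Agent.Q84.OpM

open MeasureTheory Set Pool.Agent.Q84.Khin
open scoped ENNReal NNReal

instance fact4 : Fact ((1 : ℝ≥0∞) ≤ 4) := ⟨by norm_num⟩

/-- the space `ℓ⁴` -/
noncomputable abbrev X := lp (fun _ : ℕ => ℂ) (4 : ℝ≥0∞)

/-- block index of the dyadic interval `[2^k, 2^(k+1))` -/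
def nn (k : ℕ) : ℕ := Nat.log (2 ^ 20) (k / 2)

/-- amplitude -/
noncomputable def ww (k : ℕ) : ℝ := (1 / 64) ^ nn k

lemma ww_pos (k : ℕ) : 0 < ww k := by unfold ww; positivity

/-- the values of the multiplier on `[2^k + j, 2^k + j + 1)` -/
noncomputable def al (k j : ℕ) : ℂ := (ww k : ℂ) * (Q84.RS.P (5 * nn k)).coeff j

lemma al_norm (k j : ℕ) : ‖al k j‖ ≤ ww k := by
  unfold al
  rw [norm_mul, Complex.norm_real, Real.norm_of_nonneg (ww_pos k).le]
  have := Q84.RS.P_coeff_norm (5 * nn k) j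
  have := (ww_pos k).le
  nlinarith

lemma al_zero (k j : ℕ) (h : 2 ^ (5 * nn k) ≤ j) : al k j = 0 := by
  unfold al
  rw [Q84.RS.P_coeff_ge h, mul_zero]

/-- the coordinate functional `e_k^*` -/
noncomputable def ev (k : ℕ) : X →L[ℂ] ℂ := lp.evalCLM ℂ (fun _ : ℕ => ℂ) 4 k

lemma ev_apply (k : ℕ) (x : X) : ev k x = x k := rfl

lemma ev_norm (k : ℕ) : ‖ev k‖ ≤ 1 := by
  apply ContinuousLinearMap.opNorm_le_bound _ zero_le_one
  intro x
  rw [ev_apply, one_mul]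
  exact lp.norm_apply_le_norm (by norm_num) x k

lemma smul_ev_apply (c : ℂ) (k : ℕ) (x : X) : (c • ev k) x = c * x k := rfl

lemma norm_smul_ev (c : ℂ) (k : ℕ) : ‖c • ev k‖ ≤ ‖c‖ := by
  apply ContinuousLinearMap.opNorm_le_bound _ (norm_nonneg _)
  intro x
  rw [smul_ev_apply, norm_mul]
  gcongr
  exact lp.norm_apply_le_norm (by norm_num) x k

lemma sub_ev (a b : ℂ) (k : ℕ) : a • ev k - b • ev k = (a - b) • ev k := by
  apply ContinuousLinearMap.ext
  intro x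
  rw [smul_ev_apply, sub_mul]
  rfl

lemma zero_ev (k : ℕ) : (0 : ℂ) • ev k = 0 := by
  apply ContinuousLinearMap.ext
  intro x
  rw [smul_ev_apply, zero_mul]
  rfl

/-- the multiplier on `[N, N+1)` -/
noncomputable def MM (N : ℕ) : X →L[ℂ] ℂ :=
  if N = 0 then 0 else al (Nat.log 2 N) (N - 2 ^ Nat.log 2 N) • ev (Nat.log 2 N)

/-- the multiplier -/
noncomputable def mul (ξ : ℝ) : X →L[ℂ] ℂ := MM ⌊ξ⌋₊

lemma MM_eq {k N : ℕ} (h1 : 2 ^ k ≤ N) (h2 : N < 2 ^ (k + 1)) :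
    MM N = al k (N - 2 ^ k) • ev k := by
  have hN : N ≠ 0 := by
    have : 0 < 2 ^ k := by positivity
    omega
  have hlog : Nat.log 2 N = k := Nat.log_eq_of_pow_le_of_lt_pow h1 h2
  unfold MM
  rw [if_neg hN, hlog]

lemma MM_form (N : ℕ) : ∃ k : ℕ, ∃ a : ℂ, MM N = a • ev k ∧ ‖a‖ ≤ ww k := by
  by_cases h : N = 0
  · refine ⟨0, 0, by rw [zero_ev]; simp [MM, h], ?_⟩
    rw [norm_zero]
    exact (ww_pos 0).le
  · refine ⟨Nat.log 2 N, al (Nat.log 2 N) (N - 2 ^ Nat.log 2 N), ?_, al_norm _ _⟩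
    unfold MM
    rw [if_neg h]

/-! ### measurability -/

lemma mul_stronglyMeasurable : StronglyMeasurable mul := by
  have h1 : StronglyMeasurable MM := StronglyMeasurable.of_discrete
  exact h1.comp_measurable Nat.measurable_floor

/-! ### variation -/

lemma pow_ww (k : ℕ) : ww k * 2 ^ (5 * nn k) ≤ 1 := by
  unfold ww
  have : ((1 : ℝ) / 64) ^ nn k * 2 ^ (5 * nn k) = (1 / 2) ^ nn k := by
    rw [pow_mul, ← mul_pow]
    norm_num
  rw [this]
  exact pow_le_one₀ (by norm_num) (by norm_num)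

lemma MM_diff {k a b : ℕ} (h1 : 2 ^ k ≤ a) (hab : a ≤ b) (h2 : b < 2 ^ (k + 1)) :
    ‖MM b - MM a‖ ≤ 2 * ww k * (((min (b - 2 ^ k) (2 ^ (5 * nn k)) : ℕ) : ℝ) -
      ((min (a - 2 ^ k) (2 ^ (5 * nn k)) : ℕ) : ℝ)) := by
  rw [MM_eq (h1.trans hab) h2, MM_eq h1 (lt_of_le_of_lt hab h2), sub_ev]
  refine (norm_smul_ev _ _).trans ?_
  have hw := (ww_pos k).le
  set R := 2 ^ (5 * nn k) with hR
  have hmono : min (a - 2 ^ k) R ≤ min (b - 2 ^ k) R := by omega
  rcases hmono.eq_or_lt with heq | hlt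
  · have hz : al k (b - 2 ^ k) - al k (a - 2 ^ k) = 0 := by
      by_cases h : a = b
      · rw [h, sub_self]
      · have h3 : R ≤ a - 2 ^ k := by omega
        have h4 : R ≤ b - 2 ^ k := by omega
        rw [al_zero k _ h3, al_zero k _ h4, sub_self]
    rw [hz, norm_zero, heq, sub_self, mul_zero]
  · have h3 : (1 : ℝ) ≤ ((min (b - 2 ^ k) R : ℕ) : ℝ) - ((min (a - 2 ^ k) R : ℕ) : ℝ) := by
      have : min (a - 2 ^ k) R + 1 ≤ min (b - 2 ^ k) R := hlt
      have h4 : ((min (a - 2 ^ k) R : ℕ) : ℝ) + 1 ≤ ((min (b - 2 ^ k) R : ℕ) : ℝ) := by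
        exact_mod_cast this
      linarith
    have h5 : ‖al k (b - 2 ^ k) - al k (a - 2 ^ k)‖ ≤ 2 * ww k := by
      refine (norm_sub_le _ _).trans ?_
      linarith [al_norm k (b - 2 ^ k), al_norm k (a - 2 ^ k)]
    calc ‖al k (b - 2 ^ k) - al k (a - 2 ^ k)‖
        ≤ (2 * ww k) * 1 := by rw [mul_one]; exact h5
      _ ≤ _ := by
        apply mul_le_mul_of_nonneg_left h3
        positivity

lemma variation_pos (k : ℕ) :
    eVariationOn mul (Ico ((2 : ℝ) ^ k) (2 ^ (k + 1))) ≤ 2 := by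
  unfold eVariationOn
  apply iSup_le
  rintro ⟨n, u, hu, hus⟩
  simp only
  set φ : ℕ → ℝ := fun i => ((min (⌊u i⌋₊ - 2 ^ k) (2 ^ (5 * nn k)) : ℕ) : ℝ) with hφ
  have hfl : ∀ i, 2 ^ k ≤ ⌊u i⌋₊ ∧ ⌊u i⌋₊ < 2 ^ (k + 1) := by
    intro i
    have h1 := (hus i).1
    have h2 := (hus i).2
    constructor
    · apply Nat.le_floor
      push_cast
      exact h1
    · have h0 : (0 : ℝ) ≤ u i := le_trans (by positivity) h1
      rw [Nat.floor_lt h0]
      push_cast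
      exact h2
  have hstep : ∀ i ∈ Finset.range n, edist (mul (u (i + 1))) (mul (u i)) ≤
      ENNReal.ofReal (2 * ww k * (φ (i + 1) - φ i)) := by
    intro i _
    rw [edist_dist, dist_eq_norm]
    apply ENNReal.ofReal_le_ofReal
    exact MM_diff (hfl i).1 (Nat.floor_le_floor (hu (Nat.le_succ i))) (hfl (i + 1)).2
  have hφm : ∀ i, φ i ≤ φ (i + 1) := by
    intro i
    have h1 : ⌊u i⌋₊ ≤ ⌊u (i + 1)⌋₊ := Nat.floor_le_floor (hu (Nat.le_succ i))
    simp only [hφ]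
    have : min (⌊u i⌋₊ - 2 ^ k) (2 ^ (5 * nn k)) ≤ min (⌊u (i + 1)⌋₊ - 2 ^ k) (2 ^ (5 * nn k)) := by
      omega
    exact_mod_cast this
  have hw := (ww_pos k).le
  calc ∑ i ∈ Finset.range n, edist (mul (u (i + 1))) (mul (u i))
      ≤ ∑ i ∈ Finset.range n, ENNReal.ofReal (2 * ww k * (φ (i + 1) - φ i)) :=
        Finset.sum_le_sum hstep
    _ = ENNReal.ofReal (∑ i ∈ Finset.range n, 2 * ww k * (φ (i + 1) - φ i)) := by
        rw [ENNReal.ofReal_sum_of_nonneg]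
        intro i _
        have := hφm i
        have : 0 ≤ φ (i + 1) - φ i := by linarith
        positivity
    _ = ENNReal.ofReal (2 * ww k * (φ n - φ 0)) := by
        rw [← Finset.mul_sum, Finset.sum_range_sub]
    _ ≤ ENNReal.ofReal 2 := by
        apply ENNReal.ofReal_le_ofReal
        have h1 : φ n ≤ 2 ^ (5 * nn k) := by
          simp only [hφ]
          have : min (⌊u n⌋₊ - 2 ^ k) (2 ^ (5 * nn k)) ≤ 2 ^ (5 * nn k) := min_le_right _ _
          exact_mod_cast this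
        have h2 : 0 ≤ φ 0 := by simp only [hφ]; positivity
        have h3 := pow_ww k
        calc 2 * ww k * (φ n - φ 0) ≤ 2 * ww k * 2 ^ (5 * nn k) := by
              apply mul_le_mul_of_nonneg_left _ (by positivity)
              linarith
          _ = 2 * (ww k * 2 ^ (5 * nn k)) := by ring
          _ ≤ 2 * 1 := by gcongr
          _ = 2 := by norm_num
    _ = 2 := by norm_num

lemma mul_of_lt_one {ξ : ℝ} (h : ξ < 1) : mul ξ = 0 := by
  unfold mul
  rw [Nat.floor_eq_zero.mpr h]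
  simp [MM]

/-- the dyadic partition of `ℝ \ {0}` -/
def Dyadic : Set (Set ℝ) :=
  {J | ∃ k : ℤ, J = Ico ((2 : ℝ) ^ k) (2 ^ (k + 1)) ∨ J = {ξ | -ξ ∈ Ico ((2 : ℝ) ^ k) (2 ^ (k + 1))}}

lemma variation_bound : ∀ J ∈ Dyadic, eVariationOn mul J ≤ 2 := by
  rintro J ⟨k, rfl | rfl⟩
  · rcases le_or_gt 0 k with hk | hk
    · obtain ⟨n, rfl⟩ := Int.eq_ofNat_of_zero_le hk
      have := variation_pos n
      have e1 : (2 : ℝ) ^ ((n : ℤ)) = 2 ^ n := zpow_natCast _ _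
      have e2 : (2 : ℝ) ^ ((n : ℤ) + 1) = 2 ^ (n + 1) := by
        have : ((n : ℤ) + 1) = ((n + 1 : ℕ) : ℤ) := by push_cast; ring
        rw [this, zpow_natCast]
      rw [e1, e2]
      exact this
    · have : eVariationOn mul (Ico ((2 : ℝ) ^ k) (2 ^ (k + 1))) = 0 := by
        apply eVariationOn.constant_on
        rintro _ ⟨x, hx, rfl⟩ _ ⟨y, hy, rfl⟩
        have h1 : (2 : ℝ) ^ (k + 1) ≤ 1 := zpow_le_one_of_nonpos₀ (by norm_num) (by omega)
        rw [mul_of_lt_one (lt_of_lt_of_le hx.2 h1), mul_of_lt_one (lt_of_lt_of_le hy.2 h1)]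
      rw [this]
      exact zero_le
  · have : eVariationOn mul {ξ | -ξ ∈ Ico ((2 : ℝ) ^ k) (2 ^ (k + 1))} = 0 := by
      apply eVariationOn.constant_on
      rintro _ ⟨x, hx, rfl⟩ _ ⟨y, hy, rfl⟩
      have h0 : (0 : ℝ) < 2 ^ k := by positivity
      have hx' : x < 1 := by
        have := hx.1
        linarith
      have hy' : y < 1 := by
        have := hy.1
        linarith
      rw [mul_of_lt_one hx', mul_of_lt_one hy']
    rw [this]
    exact zero_le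

/-! ### `R`-boundedness -/

/-- `R`-boundedness of a set of operators (averages over all choices of signs) -/
def RBounded {E F : Type*} [NormedAddCommGroup E] [NormedSpace ℂ E] [NormedAddCommGroup F]
    [NormedSpace ℂ F] (T : Set (E →L[ℂ] F)) : Prop :=
  ∃ C : ℝ, ∀ (N : ℕ) (S : Fin N → (E →L[ℂ] F)) (x : Fin N → E), (∀ n, S n ∈ T) →
    avg N (fun ε => ‖∑ n, sg (ε n) • S n (x n)‖) ≤ C * avg N (fun ε => ‖∑ n, sg (ε n) • x n‖)

lemma ww_four (k : ℕ) (hk : 1 ≤ k) : ww k ^ 4 ≤ 2 ^ 26 * (1 / (k : ℝ) ^ (6 / 5 : ℝ)) := by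
  have h1 : k < 2 ^ (20 * nn k + 21) := by
    have h2 : k / 2 < (2 ^ 20) ^ (nn k + 1) := Nat.lt_pow_succ_log_self (by norm_num) _
    have h3 : (2 ^ 20) ^ (nn k + 1) = 2 ^ (20 * nn k + 20) := by
      rw [← pow_mul]; ring_nf
    rw [h3] at h2
    have h4 : 2 ^ (20 * nn k + 21) = 2 * 2 ^ (20 * nn k + 20) := by
      rw [← pow_succ']
    rw [h4]
    omega
  have hk0 : (0 : ℝ) < k := by exact_mod_cast hk
  have h2 : (k : ℝ) ^ (6 / 5 : ℝ) ≤ 2 ^ (24 * nn k + 26) := by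
    have h3 : (k : ℝ) ≤ (2 : ℝ) ^ (20 * nn k + 21) := by exact_mod_cast h1.le
    calc (k : ℝ) ^ (6 / 5 : ℝ) ≤ ((2 : ℝ) ^ (20 * nn k + 21)) ^ (6 / 5 : ℝ) :=
          Real.rpow_le_rpow hk0.le h3 (by norm_num)
      _ = (2 : ℝ) ^ (((20 * nn k + 21 : ℕ) : ℝ) * (6 / 5)) := by
          rw [← Real.rpow_natCast, ← Real.rpow_mul (by norm_num)]
      _ ≤ (2 : ℝ) ^ (((24 * nn k + 26 : ℕ) : ℝ)) := by
          apply Real.rpow_le_rpow_of_exponent_le (by norm_num)
          push_cast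
          linarith
      _ = 2 ^ (24 * nn k + 26) := Real.rpow_natCast _ _
  have h3 : ww k ^ 4 * 2 ^ (24 * nn k + 26) = 2 ^ 26 := by
    unfold ww
    rw [← pow_mul, pow_add, ← mul_assoc]
    have : (1 / 64 : ℝ) ^ (nn k * 4) * 2 ^ (24 * nn k) = 1 := by
      rw [mul_comm (nn k) 4, pow_mul, pow_mul, ← mul_pow]
      norm_num
    rw [this, one_mul]
  have hkp : 0 < (k : ℝ) ^ (6 / 5 : ℝ) := by positivity
  rw [mul_one_div, le_div_iff₀ hkp, ← h3]
  have : 0 ≤ ww k ^ 4 := by have := ww_pos k; positivity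
  gcongr

lemma ww_summable : Summable fun k => ww k ^ 4 := by
  have h1 : Summable fun k : ℕ => 2 ^ 26 * (1 / (k : ℝ) ^ (6 / 5 : ℝ)) :=
    (Real.summable_one_div_nat_rpow.mpr (by norm_num)).mul_left _
  rw [← summable_nat_add_iff 1] at h1 ⊢
  apply Summable.of_nonneg_of_le _ _ h1
  · intro k
    have := ww_pos (k + 1)
    positivity
  · intro k
    exact ww_four (k + 1) (by omega)

/-- the constant `∑ ww^4` -/
noncomputable def CW : ℝ := ∑' k, ww k ^ 4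

lemma ww_sum_le (F : Finset ℕ) : ∑ k ∈ F, ww k ^ 4 ≤ CW :=
  ww_summable.sum_le_tsum F fun k _ => by
    have := ww_pos k
    positivity

lemma four_toReal : (4 : ℝ≥0∞).toReal = 4 := by norm_num

lemma sum_coord_le (x : X) (F : Finset ℕ) : ∑ k ∈ F, ‖x k‖ ^ 4 ≤ ‖x‖ ^ 4 := by
  have h := lp.sum_rpow_le_norm_rpow (p := 4) (E := fun _ : ℕ => ℂ) (by rw [four_toReal]; norm_num) x F
  rw [four_toReal] at h
  exact_mod_cast h

lemma norm_sum_single4 (f : ℕ → ℂ) (F : Finset ℕ) :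
    ‖(∑ k ∈ F, lp.single 4 k (f k) : X)‖ ^ 4 = ∑ k ∈ F, ‖f k‖ ^ 4 := by
  have h := lp.norm_sum_single (p := 4) (E := fun _ : ℕ => ℂ) (by rw [four_toReal]; norm_num) f F
  rw [four_toReal] at h
  exact_mod_cast h

/-- Minkowski step -/
lemma minkowski (N : ℕ) (v : (Fin N → Bool) → X) (F : Finset ℕ) :
    ∑ k ∈ F, (avg N fun ε => ‖v ε k‖) ^ 4 ≤ (avg N fun ε => ‖v ε‖) ^ 4 := by
  set m : ℕ → ℝ := fun k => avg N fun ε => ‖v ε k‖ with hm
  have hm0 : ∀ k, 0 ≤ m k := fun k => avg_nonneg fun ε => norm_nonneg _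
  set y : X := ∑ k ∈ F, lp.single 4 k ((m k : ℝ) : ℂ) with hy
  have hy4 : ‖y‖ ^ 4 = ∑ k ∈ F, m k ^ 4 := by
    rw [hy, norm_sum_single4]
    apply Finset.sum_congr rfl
    intro k _
    rw [Complex.norm_real, Real.norm_of_nonneg (hm0 k)]
  have hye : y = (((2 ^ N : ℝ)⁻¹ : ℝ) : ℂ) • ∑ ε : Fin N → Bool,
      (∑ k ∈ F, lp.single 4 k ((‖v ε k‖ : ℝ) : ℂ) : X) := by
    rw [Finset.sum_comm, Finset.smul_sum, hy]
    apply Finset.sum_congr rfl
    intro k _
    have e1 : ∑ ε : Fin N → Bool, (lp.single 4 k ((‖v ε k‖ : ℝ) : ℂ) : X) =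
        lp.single 4 k (∑ ε : Fin N → Bool, ((‖v ε k‖ : ℝ) : ℂ)) :=
      (map_sum (lp.singleAddMonoidHom (E := fun _ : ℕ => ℂ) 4 k) _ _).symm
    rw [e1, ← lp.single_smul]
    congr 1
    simp only [hm, avg]
    push_cast
    rw [smul_eq_mul]
  have hle : ‖y‖ ≤ avg N fun ε => ‖v ε‖ := by
    rw [hye]
    have h1 : ‖(((2 ^ N : ℝ)⁻¹ : ℝ) : ℂ) • ∑ ε : Fin N → Bool,
        (∑ k ∈ F, lp.single 4 k ((‖v ε k‖ : ℝ) : ℂ) : X)‖ ≤
        (2 ^ N : ℝ)⁻¹ * ∑ ε : Fin N → Bool,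
          ‖(∑ k ∈ F, lp.single 4 k ((‖v ε k‖ : ℝ) : ℂ) : X)‖ := by
      refine (norm_smul_le _ _).trans ?_
      rw [Complex.norm_real, Real.norm_of_nonneg (by positivity)]
      gcongr
      exact norm_sum_le _ _
    refine h1.trans ?_
    unfold avg
    gcongr with ε
    have h2 : ‖(∑ k ∈ F, lp.single 4 k ((‖v ε k‖ : ℝ) : ℂ) : X)‖ ^ 4 ≤ ‖v ε‖ ^ 4 := by
      rw [norm_sum_single4]
      refine le_trans (le_of_eq ?_) (sum_coord_le (v ε) F)
      apply Finset.sum_congr rfl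
      intro k _
      rw [Complex.norm_real, norm_norm]
    exact le_of_pow_le_pow_left₀ (by norm_num) (norm_nonneg _) h2
  rw [← hy4]
  exact pow_le_pow_left₀ (norm_nonneg _) hle 4

lemma rbounded : RBounded (Set.range mul) := by
  refine ⟨Real.sqrt (3 * Real.sqrt CW), ?_⟩
  intro N S x hS
  have hform : ∀ n, ∃ k : ℕ, ∃ a : ℂ, S n = a • ev k ∧ ‖a‖ ≤ ww k := by
    intro n
    obtain ⟨ξ, hξ⟩ := hS n
    rw [← hξ]
    exact MM_form _
  choose k a hSk ha using hform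
  set A := avg N (fun ε => ‖∑ n, sg (ε n) • x n‖) with hA
  have hA0 : 0 ≤ A := avg_nonneg fun ε => norm_nonneg _
  set F : Finset ℕ := Finset.univ.image k with hF
  set z : ℕ → ℝ := fun j => ∑ n, ‖x n j‖ ^ 2 with hz
  have hz0 : ∀ j, 0 ≤ z j := fun j => Finset.sum_nonneg fun n _ => by positivity
  -- Step A
  have h1 : avg N (fun ε => ‖∑ n, sg (ε n) • S n (x n)‖) ≤
      Real.sqrt (∑ n, ‖a n * x n (k n)‖ ^ 2) := by
    refine le_trans (le_of_eq ?_) (l1_le_l2 N fun n => a n * x n (k n))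
    congr 1
    funext ε
    unfold rad
    congr 1
    apply Finset.sum_congr rfl
    intro n _
    rw [hSk n, smul_ev_apply, smul_eq_mul]
  -- Step B
  have h2 : ∑ n, ‖a n * x n (k n)‖ ^ 2 ≤ ∑ j ∈ F, ww j ^ 2 * z j := by
    rw [← Finset.sum_fiberwise_of_maps_to (s := Finset.univ) (t := F) (g := k)
      (fun n _ => Finset.mem_image_of_mem k (Finset.mem_univ n))]
    apply Finset.sum_le_sum
    intro j _
    simp only [hz]
    rw [Finset.mul_sum]
    calc ∑ n ∈ Finset.univ.filter (fun n => k n = j), ‖a n * x n (k n)‖ ^ 2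
        ≤ ∑ n ∈ Finset.univ.filter (fun n => k n = j), ww j ^ 2 * ‖x n j‖ ^ 2 := by
          apply Finset.sum_le_sum
          intro n hn
          have hkn : k n = j := (Finset.mem_filter.mp hn).2
          rw [norm_mul, mul_pow, hkn]
          have := ha n
          rw [hkn] at this
          gcongr
      _ ≤ ∑ n, ww j ^ 2 * ‖x n j‖ ^ 2 := by
          apply Finset.sum_le_sum_of_subset_of_nonneg (Finset.filter_subset _ _)
          intro n _ _
          positivity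
  -- Step C
  have h3 : (∑ j ∈ F, ww j ^ 2 * z j) ^ 2 ≤ CW * ∑ j ∈ F, z j ^ 2 := by
    have h4 := Finset.sum_mul_sq_le_sq_mul_sq F (fun j => ww j ^ 2) z
    refine h4.trans ?_
    have h5 : ∑ j ∈ F, (ww j ^ 2) ^ 2 ≤ CW := by
      refine le_trans (le_of_eq ?_) (ww_sum_le F)
      apply Finset.sum_congr rfl
      intro j _
      ring
    have h6 : 0 ≤ ∑ j ∈ F, z j ^ 2 := Finset.sum_nonneg fun j _ => by positivity
    gcongr
  -- Step D
  have h4 : ∑ j ∈ F, z j ^ 2 ≤ 9 * A ^ 4 := by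
    have h5 : ∀ j ∈ F, z j ^ 2 ≤ 9 * (avg N fun ε => ‖(∑ n, sg (ε n) • x n : X) j‖) ^ 4 := by
      intro j _
      have h6 := khintchine N (fun n => x n j)
      have h7 : (avg N fun ε => ‖rad (fun n => x n j) ε‖) =
          avg N fun ε => ‖(∑ n, sg (ε n) • x n : X) j‖ := by
        congr 1
        funext ε
        unfold rad
        congr 1
        rw [← ev_apply, map_sum]
        apply Finset.sum_congr rfl
        intro n _
        rw [ev_apply]
        rfl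
      rw [h7] at h6
      set M := avg N fun ε => ‖(∑ n, sg (ε n) • x n : X) j‖ with hM
      have hM0 : 0 ≤ M := avg_nonneg fun ε => norm_nonneg _
      have h8 : z j ≤ 3 * M ^ 2 := by
        have h9 : Real.sqrt (z j) ^ 2 ≤ (Real.sqrt 3 * M) ^ 2 :=
          pow_le_pow_left₀ (Real.sqrt_nonneg _) h6 2
        rw [Real.sq_sqrt (hz0 j), mul_pow, Real.sq_sqrt (by norm_num)] at h9
        exact h9
      calc z j ^ 2 ≤ (3 * M ^ 2) ^ 2 := pow_le_pow_left₀ (hz0 j) h8 2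
        _ = 9 * M ^ 4 := by ring
    calc ∑ j ∈ F, z j ^ 2 ≤ ∑ j ∈ F, 9 * (avg N fun ε => ‖(∑ n, sg (ε n) • x n : X) j‖) ^ 4 :=
          Finset.sum_le_sum h5
      _ = 9 * ∑ j ∈ F, (avg N fun ε => ‖(∑ n, sg (ε n) • x n : X) j‖) ^ 4 := by
          rw [Finset.mul_sum]
      _ ≤ 9 * A ^ 4 := by
          have := minkowski N (fun ε => ∑ n, sg (ε n) • x n) F
          gcongr
  -- conclusion
  have hCW0 : 0 ≤ CW := tsum_nonneg fun j => by have := ww_pos j; positivity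
  set B := ∑ j ∈ F, ww j ^ 2 * z j with hB
  have hB0 : 0 ≤ B := Finset.sum_nonneg fun j _ => by
    have := hz0 j
    positivity
  have h5 : B ^ 2 ≤ (3 * Real.sqrt CW * A ^ 2) ^ 2 := by
    have e : (3 * Real.sqrt CW * A ^ 2) ^ 2 = CW * (9 * A ^ 4) := by
      rw [mul_pow, mul_pow, Real.sq_sqrt hCW0]
      ring
    rw [e]
    refine h3.trans ?_
    gcongr
  have h6 : B ≤ 3 * Real.sqrt CW * A ^ 2 :=
    le_of_pow_le_pow_left₀ (by norm_num) (by positivity) h5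
  calc avg N (fun ε => ‖∑ n, sg (ε n) • S n (x n)‖)
      ≤ Real.sqrt (∑ n, ‖a n * x n (k n)‖ ^ 2) := h1
    _ ≤ Real.sqrt (3 * Real.sqrt CW * A ^ 2) := Real.sqrt_le_sqrt (h2.trans h6)
    _ = Real.sqrt (3 * Real.sqrt CW) * A := by
        rw [Real.sqrt_mul (by positivity), Real.sqrt_sq hA0]

end Pool.Agent.Q84.OpM
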