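import Mathlib
import Pool.Agent.Q84.OpM
import Pool.Agent.Q84.OpT
import Pool.Agent.Q84.OpB

/-!
# Test functions for the operator-valued multiplier
-/

set_option autoImplicit false

namespace Pool.Agent.Q84.OpF

open MeasureTheory Set Complex
open Pool.Agent.Q84.OpM Pool.Agent.Q84.OpT Pool.Agent.Q84.OpB
open scoped ENNReal NNReal FourierTransform SchwartzMap

/-- the real structure of `ℓ⁴` is the restriction of the complex one -/
noncomputable local instance realX : NormedSpace ℝ X := NormedSpace.complexToReal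

/-- the Fourier multiplier operator -/
noncomputable def FM {E F : Type*} [NormedAddCommGroup E] [NormedSpace ℂ E] [NormedAddCommGroup F]
    [NormedSpace ℂ F] (m : ℝ → E →L[ℂ] F) (f : 𝓢(ℝ, E)) : ℝ → F :=
  𝓕⁻ (fun ξ => m ξ (𝓕 (f : ℝ → E) ξ))

/-- `T_m` is bounded from `L^p(ℝ; E)` to `L^p(ℝ; F)`, tested on Schwartz functions -/
def FMBounded {E F : Type*} [NormedAddCommGroup E] [NormedSpace ℂ E] [NormedAddCommGroup F]
    [NormedSpace ℂ F] (p : ℝ≥0∞) (m : ℝ → E →L[ℂ] F) : Prop :=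
  ∃ C : ℝ≥0, ∀ f : 𝓢(ℝ, E), eLpNorm (FM m f) p volume ≤ C * eLpNorm f p volume

/-- the set of block indices -/
def KK (n : ℕ) : Finset ℕ := Finset.Ico (2 * 2 ^ (20 * n)) (3 * 2 ^ (20 * n))

lemma KK_card (n : ℕ) : (KK n).card = 2 ^ (20 * n) := by
  unfold KK
  rw [Nat.card_Ico]
  omega

lemma KK_nn {n k : ℕ} (hk : k ∈ KK n) : nn k = n := by
  unfold KK at hk
  rw [Finset.mem_Ico] at hk
  unfold nn
  apply Nat.log_eq_of_pow_le_of_lt_pow
  · rw [← pow_mul]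
    omega
  · rw [← pow_mul]
    have : 2 ^ (20 * (n + 1)) = 2 ^ 20 * 2 ^ (20 * n) := by rw [← pow_add]; ring_nf
    rw [this]
    omega

lemma KK_big {n k : ℕ} (hk : k ∈ KK n) : 2 ^ (5 * n) ≤ 2 ^ k := by
  unfold KK at hk
  rw [Finset.mem_Ico] at hk
  apply Nat.pow_le_pow_right (by norm_num)
  have : 20 * n < 2 ^ (20 * n) := Nat.lt_two_pow_self
  omega

/-- the coefficients -/
noncomputable def cc (n j : ℕ) : ℂ := (Q84.RS.P (5 * n)).coeff j

lemma cc_sq {n j : ℕ} (hj : j < 2 ^ (5 * n)) : cc n j * cc n j = 1 := by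
  unfold cc
  rcases Q84.RS.P_coeff_lt hj with h | h <;> rw [h] <;> norm_num

/-- pairs -/
def PP (n : ℕ) : Finset (ℕ × ℕ) := KK n ×ˢ Finset.range (2 ^ (5 * n))

/-- the unit vectors of `ℓ⁴` -/
noncomputable def ee (k : ℕ) : X := lp.single 4 k (1 : ℂ)

/-- Fourier transform of the test function -/
noncomputable def G (n : ℕ) (ξ : ℝ) : X :=
  ∑ p ∈ PP n, (cc n p.2 * (b (ξ - ((2 ^ p.1 + p.2 : ℕ) : ℝ)) : ℂ)) • ee p.1

lemma G_smooth (n : ℕ) : ContDiff ℝ (⊤ : ℕ∞) (G n) := by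
  unfold G
  apply ContDiff.sum
  intro p _
  apply ContDiff.fun_smul _ contDiff_const
  apply contDiff_const.mul
  exact bc_smooth.comp (contDiff_id.sub contDiff_const)

lemma G_hcs (n : ℕ) : HasCompactSupport (G n) := by
  set M : ℝ := ∑ p ∈ PP n, (((2 ^ p.1 + p.2 : ℕ) : ℝ) + 1) with hM
  apply HasCompactSupport.intro (K := Icc 0 M) isCompact_Icc
  intro ξ hξ
  unfold G
  apply Finset.sum_eq_zero
  intro p hp
  have h1 : b (ξ - ((2 ^ p.1 + p.2 : ℕ) : ℝ)) = 0 := by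
    apply b_zero
    have h0 : (0 : ℝ) ≤ ((2 ^ p.1 + p.2 : ℕ) : ℝ) := Nat.cast_nonneg _
    by_cases h : ξ < 0
    · left
      linarith
    · right
      push Not at h
      have h2 : M < ξ := by
        by_contra h3
        exact hξ ⟨h, not_lt.mp h3⟩
      have h3 : ((2 ^ p.1 + p.2 : ℕ) : ℝ) + 1 ≤ M := by
        rw [hM]
        exact Finset.single_le_sum (f := fun p : ℕ × ℕ => ((2 ^ p.1 + p.2 : ℕ) : ℝ) + 1)
          (fun q _ => by positivity) hp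
      linarith
  rw [h1]
  simp

/-- as Schwartz function -/
noncomputable def GS (n : ℕ) : 𝓢(ℝ, X) := (G_hcs n).toSchwartzMap (G_smooth n)

lemma GS_coe (n : ℕ) : (GS n : ℝ → X) = G n := rfl

/-- the test function -/
noncomputable def f (n : ℕ) : 𝓢(ℝ, X) := 𝓕⁻ (GS n)

lemma four_f (n : ℕ) : 𝓕 (f n : ℝ → X) = G n := by
  have h1 : 𝓕 (f n) = GS n := by
    unfold f
    exact FourierTransform.fourier_fourierInv_eq (GS n)
  have h2 : (𝓕 (f n) : 𝓢(ℝ, X)) = 𝓕 (f n : ℝ → X) := SchwartzMap.fourier_coe (f n)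
  rw [← h2, h1, GS_coe]

lemma f_eq (n : ℕ) (x : ℝ) : f n x = 𝓕⁻ (G n) x := by
  unfold f
  rw [SchwartzMap.fourierInv_coe, GS_coe]

lemma f_formula (n : ℕ) (x : ℝ) :
    f n x = ∑ p ∈ PP n, (cc n p.2 * (E (2 ^ p.1 + p.2) x * B x)) • ee p.1 := by
  rw [f_eq, Real.fourierInv_eq']
  have h1 : ∀ ξ : ℝ, Complex.exp (((2 * Real.pi * inner ℝ ξ x : ℝ) : ℂ) * I) • G n ξ =
      ∑ p ∈ PP n, (cc n p.2 * (Complex.exp (((2 * Real.pi * (ξ * x) : ℝ) : ℂ) * I) *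
        (b (ξ - ((2 ^ p.1 + p.2 : ℕ) : ℝ)) : ℂ))) • ee p.1 := by
    intro ξ
    unfold G
    rw [Finset.smul_sum]
    apply Finset.sum_congr rfl
    intro p _
    rw [smul_smul]
    congr 1
    have : inner ℝ ξ x = ξ * x := by simp [mul_comm]
    rw [this]
    ring
  rw [integral_congr_ae (Filter.Eventually.of_forall h1)]
  rw [integral_finsetSum]
  · apply Finset.sum_congr rfl
    intro p _
    rw [integral_smul_const, integral_const_mul, int_shift]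
  · intro p _
    exact (((shift_integrable (2 ^ p.1 + p.2) x).const_mul _).smul_const _)

lemma single_smul_ee (k : ℕ) (c : ℂ) : c • ee k = lp.single 4 k c := by
  unfold ee
  rw [← lp.single_smul, smul_eq_mul, mul_one]

lemma E_pow (j : ℕ) (x : ℝ) : E j x = (E 1 x) ^ j := by
  unfold E
  rw [← Complex.exp_nat_mul]
  congr 1
  push_cast
  ring

lemma f_norm (n : ℕ) (x : ℝ) : ‖f n x‖ ^ 4 ≤ 4 * (2 ^ (20 * n)) * (2 ^ (5 * n)) ^ 2 * ‖B x‖ ^ 4 := by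
  have h1 : f n x = ∑ k ∈ KK n, lp.single 4 k (E (2 ^ k) x * B x *
      (Q84.RS.P (5 * n)).eval (E 1 x)) := by
    rw [f_formula]
    unfold PP
    rw [Finset.sum_product]
    apply Finset.sum_congr rfl
    intro k _
    rw [← single_smul_ee]
    simp only
    rw [← Finset.sum_smul]
    congr 1
    rw [Q84.RS.P_eval, Finset.mul_sum]
    apply Finset.sum_congr rfl
    intro j _
    rw [E_add, E_pow j]
    unfold cc
    ring
  rw [h1, norm_sum_single4]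
  have h0 : ∀ k ∈ KK n, ‖E (2 ^ k) x * B x * Polynomial.eval (E 1 x) (Q84.RS.P (5 * n))‖ ^ 4 =
      (‖B x‖ * ‖(Q84.RS.P (5 * n)).eval (E 1 x)‖) ^ 4 := by
    intro k _
    rw [norm_mul, norm_mul, E_norm, one_mul]
  rw [Finset.sum_congr rfl h0, Finset.sum_const, KK_card, nsmul_eq_mul]
  have h2 := Q84.RS.P_sq_le (5 * n) (E 1 x) (E_norm 1 x)
  set p := ‖(Q84.RS.P (5 * n)).eval (E 1 x)‖ with hp
  have h3 : p ^ 4 ≤ 4 * (2 ^ (5 * n)) ^ 2 := by
    calc p ^ 4 = (p ^ 2) ^ 2 := by ring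
      _ ≤ (2 ^ (5 * n + 1)) ^ 2 := pow_le_pow_left₀ (by positivity) h2 2
      _ = 4 * (2 ^ (5 * n)) ^ 2 := by rw [pow_succ]; ring
  push_cast
  calc (2 : ℝ) ^ (20 * n) * (‖B x‖ * p) ^ 4 = 2 ^ (20 * n) * ‖B x‖ ^ 4 * p ^ 4 := by ring
    _ ≤ 2 ^ (20 * n) * ‖B x‖ ^ 4 * (4 * (2 ^ (5 * n)) ^ 2) := by gcongr
    _ = _ := by ring

/-! ### the image of the test function -/

lemma mul_G (n : ℕ) (ξ : ℝ) : mul ξ (G n ξ) =
    (((1 / 64 : ℝ) ^ n : ℝ) : ℂ) * ∑ p ∈ PP n, (b (ξ - ((2 ^ p.1 + p.2 : ℕ) : ℝ)) : ℂ) := by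
  unfold G
  rw [map_sum, Finset.mul_sum]
  apply Finset.sum_congr rfl
  intro p hp
  unfold PP at hp
  rw [Finset.mem_product, Finset.mem_range] at hp
  rw [map_smul, smul_eq_mul]
  by_cases h0 : b (ξ - ((2 ^ p.1 + p.2 : ℕ) : ℝ)) = 0
  · rw [h0]
    simp
  · have h1 : ¬ (ξ - ((2 ^ p.1 + p.2 : ℕ) : ℝ) ≤ 1 / 4 ∨ 3 / 4 ≤ ξ - ((2 ^ p.1 + p.2 : ℕ) : ℝ)) :=
      fun h => h0 (b_zero h)
    push Not at h1
    have h2 : ⌊ξ⌋₊ = 2 ^ p.1 + p.2 := by
      rw [Nat.floor_eq_iff]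
      · constructor
        · linarith [h1.1]
        · linarith [h1.2]
      · have : (0 : ℝ) ≤ ((2 ^ p.1 + p.2 : ℕ) : ℝ) := Nat.cast_nonneg _
        linarith [h1.1]
    have hbig := KK_big hp.1
    have h3 : mul ξ (ee p.1) = (((1 / 64 : ℝ) ^ n : ℝ) : ℂ) * cc n p.2 := by
      unfold mul
      rw [h2, MM_eq (k := p.1) (by omega) (by rw [pow_succ]; omega), smul_ev_apply]
      have : (ee p.1 : X) p.1 = 1 := by
        unfold ee
        simp
      rw [this, mul_one]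
      unfold al ww cc
      rw [KK_nn hp.1]
      congr 3
      omega
    rw [h3]
    have h4 := cc_sq hp.2
    calc cc n p.2 * (b (ξ - ((2 ^ p.1 + p.2 : ℕ) : ℝ)) : ℂ) * ((((1 / 64 : ℝ) ^ n : ℝ) : ℂ) * cc n p.2)
        = (((1 / 64 : ℝ) ^ n : ℝ) : ℂ) * (b (ξ - ((2 ^ p.1 + p.2 : ℕ) : ℝ)) : ℂ) * (cc n p.2 * cc n p.2) := by
          ring
      _ = _ := by rw [h4, mul_one]

lemma FM_formula (n : ℕ) (x : ℝ) :
    FM mul (f n) x = (((1 / 64 : ℝ) ^ n : ℝ) : ℂ) * (B x * QQ (KK n) (2 ^ (5 * n)) x) := by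
  unfold FM
  rw [four_f, Real.fourierInv_eq']
  have h1 : ∀ ξ : ℝ, Complex.exp (((2 * Real.pi * inner ℝ ξ x : ℝ) : ℂ) * I) • mul ξ (G n ξ) =
      ∑ p ∈ PP n, ((((1 / 64 : ℝ) ^ n : ℝ) : ℂ) * (Complex.exp (((2 * Real.pi * (ξ * x) : ℝ) : ℂ) * I) *
        (b (ξ - ((2 ^ p.1 + p.2 : ℕ) : ℝ)) : ℂ))) := by
    intro ξ
    rw [mul_G, smul_eq_mul, Finset.mul_sum, Finset.mul_sum]
    apply Finset.sum_congr rfl
    intro p _
    have : inner ℝ ξ x = ξ * x := by simp [mul_comm]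
    rw [this]
    ring
  rw [integral_congr_ae (Filter.Eventually.of_forall h1)]
  rw [integral_finsetSum]
  · unfold QQ PP
    rw [Finset.mul_sum, Finset.mul_sum]
    apply Finset.sum_congr rfl
    intro p _
    rw [integral_const_mul, int_shift]
    ring
  · intro p _
    exact ((shift_integrable (2 ^ p.1 + p.2) x).const_mul _)

/-! ### the contradiction -/

lemma lower (n : ℕ) : ENNReal.ofReal ((1 / 64 : ℝ) ^ (4 * n) * ((2 ^ (20 * n)) ^ 2 * (2 ^ (5 * n)) ^ 3 / 8)) ≤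
    ∫⁻ x, ENNReal.ofReal (‖FM mul (f n) x‖ ^ 4) := by
  set K := KK n with hK
  set r := 2 ^ (5 * n) with hr
  have hKn : K.Nonempty := by
    rw [← Finset.card_pos, hK, KK_card]
    positivity
  have h1 := QQ_four' K r hKn (by positivity)
  have hcard : (K.card : ℝ) = 2 ^ (20 * n) := by
    rw [hK, KK_card]
    push_cast
    rfl
  rw [hcard] at h1
  have hr' : (r : ℝ) = 2 ^ (5 * n) := by
    rw [hr]
    push_cast
    rfl
  rw [hr'] at h1
  have hint : IntegrableOn (fun x => ‖QQ K r x‖ ^ 4) (Ioc (-(1 / 2) : ℝ) (1 / 2)) := by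
    have : Continuous fun x => ‖QQ K r x‖ ^ 4 := ((QQ_cont K r).norm).pow 4
    exact (this.intervalIntegrable _ _).1
  calc ENNReal.ofReal ((1 / 64 : ℝ) ^ (4 * n) * ((2 ^ (20 * n)) ^ 2 * (2 ^ (5 * n)) ^ 3 / 8))
      ≤ ENNReal.ofReal (∫ x in Ioc (-(1 / 2) : ℝ) (1 / 2),
          (1 / 64 : ℝ) ^ (4 * n) * (1 / 4) * ‖QQ K r x‖ ^ 4) := by
        apply ENNReal.ofReal_le_ofReal
        rw [integral_const_mul]
        rw [intervalIntegral.integral_of_le (by norm_num)] at h1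
        have h0 : (0 : ℝ) ≤ (1 / 64 : ℝ) ^ (4 * n) * (1 / 4) := by positivity
        have := mul_le_mul_of_nonneg_left h1 h0
        refine le_trans (le_of_eq ?_) this
        ring
    _ = ∫⁻ x in Ioc (-(1 / 2) : ℝ) (1 / 2),
          ENNReal.ofReal ((1 / 64 : ℝ) ^ (4 * n) * (1 / 4) * ‖QQ K r x‖ ^ 4) := by
        rw [ofReal_integral_eq_lintegral_ofReal (hint.const_mul _)]
        exact Filter.Eventually.of_forall fun x => by positivity
    _ ≤ ∫⁻ x in Ioc (-(1 / 2) : ℝ) (1 / 2), ENNReal.ofReal (‖FM mul (f n) x‖ ^ 4) := by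
        apply setLIntegral_mono' measurableSet_Ioc
        intro x hx
        apply ENNReal.ofReal_le_ofReal
        rw [FM_formula, norm_mul, norm_mul, Complex.norm_real, Real.norm_of_nonneg (by positivity)]
        have h2 : 1 / 4 ≤ ‖B x‖ ^ 4 := B_lower (by rw [abs_le]; exact ⟨by linarith [hx.1], hx.2⟩)
        calc (1 / 64 : ℝ) ^ (4 * n) * (1 / 4) * ‖QQ K r x‖ ^ 4
            ≤ (1 / 64 : ℝ) ^ (4 * n) * (‖B x‖ ^ 4) * ‖QQ K r x‖ ^ 4 := by gcongr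
          _ = _ := by
            rw [mul_comm 4 n, pow_mul]
            ring
    _ ≤ _ := setLIntegral_le_lintegral _ _

lemma upper (n : ℕ) : ∫⁻ x, ENNReal.ofReal (‖f n x‖ ^ 4) ≤
    ENNReal.ofReal (4 * (2 ^ (20 * n)) * (2 ^ (5 * n)) ^ 2) * ∫⁻ x, ENNReal.ofReal (‖B x‖ ^ 4) := by
  rw [← lintegral_const_mul' _ _ ENNReal.ofReal_ne_top]
  apply lintegral_mono
  intro x
  simp only
  rw [← ENNReal.ofReal_mul (by positivity)]
  exact ENNReal.ofReal_le_ofReal (f_norm n x)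

lemma four_cast : (4 : ℝ≥0∞).toReal = ((4 : ℕ) : ℝ) := by norm_num

lemma eLp4 {F : Type*} [NormedAddCommGroup F] (g : ℝ → F) :
    eLpNorm g 4 volume ^ 4 = ∫⁻ x, ENNReal.ofReal (‖g x‖ ^ 4) := by
  rw [eLpNorm_eq_lintegral_rpow_enorm_toReal (by norm_num) (by norm_num), four_cast,
    ← ENNReal.rpow_natCast, ← ENNReal.rpow_mul]
  norm_num

theorem unbounded : ¬ FMBounded 4 mul := by
  rintro ⟨C, hC⟩
  set β := (∫⁻ x, ENNReal.ofReal (‖B x‖ ^ 4)).toReal with hβ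
  have hβ0 : 0 ≤ β := ENNReal.toReal_nonneg
  have hβe : ∫⁻ x, ENNReal.ofReal (‖B x‖ ^ 4) = ENNReal.ofReal β :=
    (ENNReal.ofReal_toReal B_four.ne).symm
  have key : ∀ n : ℕ, (2 : ℝ) ^ n ≤ 32 * (C : ℝ) ^ 4 * β := by
    intro n
    have h1 : eLpNorm (FM mul (f n)) 4 volume ^ 4 ≤ (C * eLpNorm (f n) 4 volume) ^ 4 :=
      pow_le_pow_left₀ zero_le (hC (f n)) 4
    rw [mul_pow, eLp4, eLp4] at h1
    have h2 := (lower n).trans (h1.trans (mul_le_mul_right (upper n) _))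
    rw [hβe, ← ENNReal.ofReal_mul (by positivity)] at h2
    have h3 : (C : ℝ≥0∞) ^ 4 = ENNReal.ofReal ((C : ℝ) ^ 4) := by
      rw [ENNReal.ofReal_pow (by positivity), ENNReal.ofReal_coe_nnreal]
    rw [h3, ← ENNReal.ofReal_mul (by positivity), ENNReal.ofReal_le_ofReal_iff (by positivity)] at h2
    have e1 : (1 / 64 : ℝ) ^ (4 * n) * ((2 ^ (20 * n)) ^ 2 * (2 ^ (5 * n)) ^ 3 / 8) =
        (2 ^ (20 * n) * (2 ^ (5 * n)) ^ 2 / 8) * 2 ^ n := by
      have a1 : (1 / 64 : ℝ) ^ (4 * n) * (2 : ℝ) ^ (24 * n) = 1 := by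
        rw [pow_mul, pow_mul, ← mul_pow]
        norm_num
      have a2 : (2 : ℝ) ^ (20 * n) * 2 ^ (5 * n) = 2 ^ (24 * n) * 2 ^ n := by
        rw [← pow_add, ← pow_add]
        congr 1
        ring
      calc (1 / 64 : ℝ) ^ (4 * n) * ((2 ^ (20 * n)) ^ 2 * (2 ^ (5 * n)) ^ 3 / 8)
          = (1 / 64 : ℝ) ^ (4 * n) * (2 ^ (20 * n) * 2 ^ (5 * n)) * (2 ^ (20 * n) * (2 ^ (5 * n)) ^ 2 / 8) := by
            ring
        _ = ((1 / 64 : ℝ) ^ (4 * n) * (2 : ℝ) ^ (24 * n)) * (2 ^ (20 * n) * (2 ^ (5 * n)) ^ 2 / 8) * 2 ^ n := by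
            rw [a2]
            ring
        _ = _ := by rw [a1, one_mul]
    rw [e1] at h2
    have e2 : (C : ℝ) ^ 4 * (4 * 2 ^ (20 * n) * (2 ^ (5 * n)) ^ 2 * β) =
        (2 ^ (20 * n) * (2 ^ (5 * n)) ^ 2 / 8) * (32 * (C : ℝ) ^ 4 * β) := by
      ring
    rw [e2] at h2
    exact le_of_mul_le_mul_left h2 (by positivity)
  obtain ⟨n, hn⟩ := pow_unbounded_of_one_lt (32 * (C : ℝ) ^ 4 * β) (by norm_num : (1 : ℝ) < 2)
  exact absurd (key n) (not_le.mpr hn)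

end Pool.Agent.Q84.OpF
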