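import Mathlib

set_option autoImplicit false

namespace Q84.Osss

open MeasureTheory Filter

/-- outcome space: 36 equally likely points -/
abbrev Om : Type := Fin 6 × Fin 6

noncomputable def P : Measure Om := (PMF.uniformOfFintype Om).toMeasure

noncomputable instance : IsProbabilityMeasure P := by unfold P; infer_instance

lemma integral_P {E : Type*} [NormedAddCommGroup E] [NormedSpace ℝ E] [CompleteSpace E]
    (f : Om → E) : ∫ ω, f ω ∂P = ∑ ω, (1 / 36 : ℝ) • f ω := by
  unfold P
  rw [PMF.integral_eq_sum]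
  refine Finset.sum_congr rfl fun ω _ => ?_
  congr 1
  simp

/-- path of one coordinate after `s` moves -/
noncomputable def Y (s : ℕ) (u : Fin 6) : ℝ :=
  if s = 0 then 0 else if s = 1 then (if u < 2 then -1 else 1 / 2) else (if u < 3 then -1 else 1)

def a (t : ℕ) : ℕ := if t = 0 then 0 else if t ≤ 2 then 1 else 2
def b (t : ℕ) : ℕ := if t ≤ 1 then 0 else if t ≤ 3 then 1 else 2

noncomputable def X (t : ℕ) (ω : Om) : Fin 2 → ℝ := ![Y (a t) ω.1, Y (b t) ω.2]

/-- representatives -/
def r (s : ℕ) (u : Fin 6) : Fin 6 :=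
  if s = 0 then 0 else if s = 1 then (if u < 2 then 0 else 2)
    else (if u < 2 then 0 else if u < 3 then 2 else 3)

def rep (t : ℕ) (ω : Om) : Om := (r (a t) ω.1, r (b t) ω.2)

lemma a_mono {s t : ℕ} (h : s ≤ t) : a s ≤ a t := by
  unfold a; split_ifs <;> omega

lemma b_mono {s t : ℕ} (h : s ≤ t) : b s ≤ b t := by
  unfold b; split_ifs <;> omega

lemma Y_r {s s' : ℕ} (h : s ≤ s') (u : Fin 6) : Y s (r s' u) = Y s u := by
  unfold Y r
  by_cases h0 : s = 0
  · simp [h0]
  by_cases h1 : s = 1
  · subst h1
    have : s' ≠ 0 := by omega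
    fin_cases u <;> by_cases h2 : s' = 1 <;> simp [this, h2]
  · have h2 : s' ≠ 0 := by omega
    have h3 : s' ≠ 1 := by omega
    fin_cases u <;> simp [h0, h1, h2, h3]

lemma X_rep {s t : ℕ} (h : s ≤ t) (ω : Om) : X s (rep t ω) = X s ω := by
  unfold X rep
  rw [Y_r (a_mono h), Y_r (b_mono h)]

lemma X_meas (t : ℕ) : StronglyMeasurable (X t) :=
  (measurable_of_finite (X t)).stronglyMeasurable

lemma mem_rep {t : ℕ} {A : Set Om}
    (hA : MeasurableSet[Filtration.natural X X_meas t] A) (ω : Om) : rep t ω ∈ A ↔ ω ∈ A := by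
  rw [Filtration.natural_eq_comap] at hA
  obtain ⟨B, _, rfl⟩ := hA
  simp only [Set.mem_preimage]
  have : (fun (j : Set.Iic t) => X j (rep t ω)) = (fun (j : Set.Iic t) => X j ω) := by
    funext j
    exact X_rep j.2 ω
  rw [this]

/-- generic martingale criterion on the 36 point space. -/
lemma martingale_of {E : Type*} [NormedAddCommGroup E] [NormedSpace ℝ E] [CompleteSpace E]
    (f : ℕ → Om → E) (hadp : StronglyAdapted (Filtration.natural X X_meas) f)
    (h : ∀ t, ∀ c : Om → ℝ, (∀ ω, c (rep t ω) = c ω) →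
      ∑ ω, c ω • f t ω = ∑ ω, c ω • f (t + 1) ω) :
    Martingale f (Filtration.natural X X_meas) P := by
  have hint : ∀ (g : Om → E), Integrable g P := fun g => .of_finite
  refine martingale_nat hadp (fun i => hint _) fun t => ?_
  refine ae_eq_condExp_of_forall_setIntegral_eq _ (hint _) (fun s _ _ => (hint _).integrableOn)
    (fun s hs _ => ?_) (hadp t).aestronglyMeasurable
  have hs' : MeasurableSet s := (Filtration.natural X X_meas).le t _ hs
  rw [← integral_indicator hs', ← integral_indicator hs', integral_P, integral_P]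
  have key := h t (s.indicator fun _ => (1 / 36 : ℝ)) (by
    intro ω
    have := mem_rep hs ω
    by_cases hω : ω ∈ s
    · rw [Set.indicator_of_mem hω, Set.indicator_of_mem (this.2 hω)]
    · rw [Set.indicator_of_notMem hω, Set.indicator_of_notMem (fun hc => hω (this.1 hc))])
  have conv : ∀ g : Om → E, ∑ ω, (1 / 36 : ℝ) • s.indicator g ω
      = ∑ ω, (s.indicator (fun _ => (1 / 36 : ℝ)) ω) • g ω := by
    intro g
    refine Finset.sum_congr rfl fun ω _ => ?_
    by_cases hω : ω ∈ s
    · rw [Set.indicator_of_mem hω, Set.indicator_of_mem hω]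
    · rw [Set.indicator_of_notMem hω, Set.indicator_of_notMem hω]; simp
  rw [conv, conv]
  exact key


lemma r_idem (s : ℕ) (u : Fin 6) : r s (r s u) = r s u := by
  unfold r
  by_cases h0 : s = 0
  · simp [h0]
  by_cases h1 : s = 1
  · subst h1
    fin_cases u <;> simp
  · fin_cases u <;> simp [h0, h1]

lemma Y_step (s : ℕ) (hs : s ≤ 1) (d : Fin 6 → ℝ) (hd : ∀ u, d (r s u) = d u) :
    ∑ u, d u * Y s u = ∑ u, d u * Y (s + 1) u := by
  interval_cases s
  · have h : ∀ u, d u = d 0 := by
      intro u; rw [← hd u]; simp [r]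
    simp only [Fin.sum_univ_succ, h (Fin.succ _), Y]
    simp
    ring
  · have h1 : d 1 = d 0 := by
      rw [← hd 1]; simp [r]
    have h3 : d 3 = d 2 := by
      rw [← hd 3]; simp [r]
    have h4 : d 4 = d 2 := by
      rw [← hd 4]; simp [r]
    have h5 : d 5 = d 2 := by
      rw [← hd 5]; simp [r]
    simp [Fin.sum_univ_six, Y, h1, h3, h4, h5]
    ring

lemma stepA (t : ℕ) (d : Fin 6 → ℝ) (hd : ∀ u, d (r (a t) u) = d u) :
    ∑ u, d u * Y (a t) u = ∑ u, d u * Y (a (t + 1)) u := by
  by_cases h : a (t + 1) = a t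
  · rw [h]
  · have h1 : a (t + 1) = a t + 1 ∧ a t ≤ 1 := by
      unfold a at *; split_ifs at * <;> omega
    rw [h1.1]
    exact Y_step _ h1.2 d hd

lemma stepB (t : ℕ) (d : Fin 6 → ℝ) (hd : ∀ u, d (r (b t) u) = d u) :
    ∑ u, d u * Y (b t) u = ∑ u, d u * Y (b (t + 1)) u := by
  by_cases h : b (t + 1) = b t
  · rw [h]
  · have h1 : b (t + 1) = b t + 1 ∧ b t ≤ 1 := by
      unfold b at *; split_ifs at * <;> omega
    rw [h1.1]
    exact Y_step _ h1.2 d hd

lemma ab (t : ℕ) : a (t + 1) = a t ∨ b (t + 1) = b t := by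
  match t with
  | 0 => simp [a, b]
  | 1 => simp [a, b]
  | 2 => simp [a, b]
  | n + 3 => left; unfold a; simp

lemma c_fst {t : ℕ} {c : Om → ℝ} (hc : ∀ ω, c (rep t ω) = c ω) (u v : Fin 6) :
    c (r (a t) u, v) = c (u, v) := by
  rw [← hc (u, v), ← hc (r (a t) u, v)]
  simp only [rep, r_idem]

lemma c_snd {t : ℕ} {c : Om → ℝ} (hc : ∀ ω, c (rep t ω) = c ω) (u v : Fin 6) :
    c (u, r (b t) v) = c (u, v) := by
  rw [← hc (u, v), ← hc (u, r (b t) v)]
  simp only [rep, r_idem]

lemma step (t : ℕ) (c : Om → ℝ) (hc : ∀ ω, c (rep t ω) = c ω) (p q : Bool) :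
    ∑ ω : Om, c ω * ((if p then Y (a t) ω.1 else 1) * (if q then Y (b t) ω.2 else 1)) =
    ∑ ω : Om, c ω * ((if p then Y (a (t + 1)) ω.1 else 1) *
      (if q then Y (b (t + 1)) ω.2 else 1)) := by
  rcases ab t with h | h
  · rw [h]
    cases q with
    | false => simp
    | true =>
      rw [Fintype.sum_prod_type, Fintype.sum_prod_type]
      refine Finset.sum_congr rfl fun u _ => ?_
      have := stepB t (fun v => c (u, v) * (if p then Y (a t) u else 1))
        (fun v => by simp only [c_snd hc])
      simp only [if_true]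
      simp only [← mul_assoc]
      exact this
  · rw [h]
    cases p with
    | false => simp
    | true =>
      rw [Fintype.sum_prod_type_right, Fintype.sum_prod_type_right]
      refine Finset.sum_congr rfl fun v _ => ?_
      have := stepA t (fun u => c (u, v) * (if q then Y (b t) v else 1))
        (fun u => by simp only [c_fst hc])
      simp only [if_true]
      calc _ = ∑ u, c (u, v) * (if q then Y (b t) v else 1) * Y (a t) u := by
            refine Finset.sum_congr rfl fun u _ => ?_
            ring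
        _ = _ := this
        _ = _ := by
            refine Finset.sum_congr rfl fun u _ => ?_
            ring

lemma X_adapted : StronglyAdapted (Filtration.natural X X_meas) X :=
  Filtration.stronglyAdapted_natural X_meas

theorem X_martingale : Martingale X (Filtration.natural X X_meas) P := by
  refine martingale_of X X_adapted fun t c hc => ?_
  funext i
  have h0 := step t c hc true false
  have h1 := step t c hc false true
  simp only [if_true, Bool.false_eq_true, if_false, mul_one, one_mul] at h0 h1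
  fin_cases i
  · simpa [X, Finset.sum_apply] using h0
  · simpa [X, Finset.sum_apply] using h1

theorem prod_martingale (S : Finset (Fin 2)) :
    Martingale (fun t ω => ∏ i ∈ S, X t ω i) (Filtration.natural X X_meas) P := by
  refine martingale_of _ ?_ fun t c hc => ?_
  · intro t
    have h := X_adapted t
    apply Finset.stronglyMeasurable_fun_prod
    intro i _
    exact (measurable_pi_apply i).stronglyMeasurable.comp_measurable h.measurable
  · have := step t c hc (decide (0 ∈ S)) (decide (1 ∈ S))
    have e : ∀ t ω, ∏ i ∈ S, X t ω i = ((if decide (0 ∈ S) then Y (a t) ω.1 else 1) *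
        (if decide (1 ∈ S) then Y (b t) ω.2 else 1)) := by
      intro t ω
      rw [← Finset.prod_filter_mul_prod_filter_not S (fun i => i = 0)]
      congr 1
      · rw [Finset.filter_eq']
        by_cases h : (0 : Fin 2) ∈ S <;> simp [h, X]
      · have : S.filter (fun i => ¬ i = 0) = S.filter (fun i => i = 1) := by
          apply Finset.filter_congr
          intro i _
          fin_cases i <;> simp
        rw [this, Finset.filter_eq']
        by_cases h : (1 : Fin 2) ∈ S <;> simp [h, X]
    simp only [smul_eq_mul, e]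
    exact this

def tau (ω : Om) : ℕ := if ω.1 < 2 then 1 else if ω.2 < 2 then 2 else if ω.1 < 3 then 3 else 4

theorem tau_stopping :
    IsStoppingTime (Filtration.natural X X_meas) (fun ω => (tau ω : WithTop ℕ)) := by
  intro t
  have key : {ω | (tau ω : WithTop ℕ) ≤ t} =
      (X t) ⁻¹' {y | 4 ≤ t ∨ y 0 = -1 ∨ y 1 = -1} := by
    ext ω
    simp only [Set.mem_ofPred_eq, Set.mem_preimage]
    have h1 : ((tau ω : WithTop ℕ) ≤ t) ↔ tau ω ≤ t := by norm_cast
    rw [h1]
    by_cases h4 : 4 ≤ t
    · simp only [h4, true_or, iff_true]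
      refine le_trans ?_ h4
      unfold tau; split_ifs <;> omega
    · simp only [h4, false_or]
      obtain ⟨u, v⟩ := ω
      have : t = 0 ∨ t = 1 ∨ t = 2 ∨ t = 3 := by omega
      rcases this with rfl | rfl | rfl | rfl <;>
      fin_cases u <;> fin_cases v <;> simp [tau, X, Y, a, b] <;> norm_num
  change MeasurableSet[Filtration.natural X X_meas t] {ω | (tau ω : WithTop ℕ) ≤ t}
  rw [key]
  refine (X_adapted t).measurable ?_
  refine MeasurableSet.union (MeasurableSet.const _) ?_
  refine MeasurableSet.union ?_ ?_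
  · exact measurable_pi_apply 0 (measurableSet_singleton (-1))
  · exact measurable_pi_apply 1 (measurableSet_singleton (-1))


lemma Y2_eq (u : Fin 6) (c : Bool) :
    (Y 2 u = (if c then (1 : ℝ) else -1)) ↔ (decide (3 ≤ u) = c) := by
  fin_cases u <;> cases c <;> simp [Y] <;> norm_num

lemma X4_eq (ω : Om) (c d : Bool) :
    (X 4 ω = ![if c then (1 : ℝ) else -1, if d then (1 : ℝ) else -1]) ↔
      (decide (3 ≤ ω.1) = c ∧ decide (3 ≤ ω.2) = d) := by
  rw [← Y2_eq, ← Y2_eq]
  constructor
  · intro h
    exact ⟨congrFun h 0, congrFun h 1⟩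
  · rintro ⟨h3, h4⟩
    funext i
    fin_cases i
    · exact h3
    · exact h4

lemma real_P (s : Set Om) [DecidablePred (· ∈ s)] :
    P.real s = ∑ ω, (1 / 36 : ℝ) * (if ω ∈ s then 1 else 0) := by
  have h := integral_P (E := ℝ) (s.indicator fun _ => 1)
  rw [integral_indicator (Set.toFinite _).measurableSet] at h
  simp only [integral_const, smul_eq_mul, mul_one, measureReal_restrict_apply_univ] at h
  rw [h]
  refine Finset.sum_congr rfl fun ω _ => ?_
  rw [Set.indicator_apply]

lemma law (c d : Bool) :
    P.real {ω | X 4 ω = ![if c then (1 : ℝ) else -1, if d then (1 : ℝ) else -1]} = 1 / 4 := by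
  have : {ω | X 4 ω = ![if c then (1 : ℝ) else -1, if d then (1 : ℝ) else -1]} =
      {ω | decide (3 ≤ ω.1) = c ∧ decide (3 ≤ ω.2) = d} := by
    ext ω; exact X4_eq ω c d
  rw [this, real_P]
  have hcard : (Finset.univ.filter
      (fun ω : Om => ω ∈ {ω : Om | decide (3 ≤ ω.1) = c ∧ decide (3 ≤ ω.2) = d})).card = 9 := by
    cases c <;> cases d <;> decide
  rw [← Finset.mul_sum, Finset.sum_boole, hcard]
  norm_num

end Q84.Osss
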