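import Mathlib
set_option autoImplicit false

/-!
# A sum of two sets of density almost one half meets a third one

`A`, `B` are sets of integers which contain almost one half of a window of length `100 s`, and `C`
contains almost one half of every window of length at least `s`; moreover all three contain even
numbers in every window of length `s`. Then `A + B` meets `C`.
-/

namespace Pool.Agent.Q84.PG

open Finset

open scoped Classical in
/-- the members of `A` in `(w, w + l]` -/
noncomputable def win (A : Set ℤ) (w l : ℤ) : Finset ℤ := (Ioc w (w + l)).filter (· ∈ A)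

lemma mem_win {A : Set ℤ} {w l z : ℤ} : z ∈ win A w l ↔ (w < z ∧ z ≤ w + l) ∧ z ∈ A := by
  simp [win]

/-- the hypotheses on the three sets -/
structure Sys (A B C : Set ℤ) (x y s : ℤ) : Prop where
  hs : 2 ≤ s
  hA : 49 * s ≤ ((win A x (100 * s)).card : ℤ)
  hB : 49 * s ≤ ((win B y (100 * s)).card : ℤ)
  hC : ∀ w l : ℤ, x + y ≤ w → w + l ≤ x + y + 200 * s → s ≤ l →
    49 * l ≤ 100 * ((win C w l).card : ℤ)
  hno : ∀ a ∈ win A x (100 * s), ∀ b ∈ win B y (100 * s), a + b ∉ C

lemma Sys.symm {A B C : Set ℤ} {x y s : ℤ} (h : Sys A B C x y s) : Sys B A C y x s where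
  hs := h.hs
  hA := h.hB
  hB := h.hA
  hC := fun w l h1 h2 h3 => h.hC w l (by linarith) (by linarith) h3
  hno := fun a ha b hb => by rw [add_comm]; exact h.hno b hb a ha

/-- a set in a window which avoids `C` -/
lemma avoid {A B C : Set ℤ} {x y s : ℤ} (h : Sys A B C x y s) (F : Finset ℤ) (w l : ℤ)
    (h1 : x + y ≤ w) (h2 : w + l ≤ x + y + 200 * s) (h3 : s ≤ l)
    (hF : ∀ z ∈ F, w < z ∧ z ≤ w + l ∧ z ∉ C) : 100 * (F.card : ℤ) ≤ 51 * l := by
  have hs := h.hs
  have hl : 0 ≤ l := by linarith
  have hd : Disjoint F (win C w l) := by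
    rw [Finset.disjoint_left]
    intro z hz hz'
    exact (hF z hz).2.2 (mem_win.1 hz').2
  have hsub : F ∪ win C w l ⊆ Ioc w (w + l) := by
    intro z hz
    rw [Finset.mem_union] at hz
    rw [Finset.mem_Ioc]
    rcases hz with hz | hz
    · exact ⟨(hF z hz).1, (hF z hz).2.1⟩
    · exact (mem_win.1 hz).1
  have hc := Finset.card_le_card hsub
  rw [Finset.card_union_of_disjoint hd, Int.card_Ioc] at hc
  have hc' : (F.card : ℤ) + ((win C w l).card : ℤ) ≤ l := by
    have : ((F.card + (win C w l).card : ℕ) : ℤ) ≤ ((w + l - w).toNat : ℤ) := by exact_mod_cast hc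
    rw [Int.toNat_of_nonneg (by linarith)] at this
    push_cast at this
    linarith
  have := h.hC w l h1 h2 h3
  linarith

lemma Sys.neB {A B C : Set ℤ} {x y s : ℤ} (h : Sys A B C x y s) : (win B y (100 * s)).Nonempty := by
  rw [← Finset.card_pos]
  have := h.hB
  have := h.hs
  zify
  linarith

/-- upper bound in windows -/
lemma up {A B C : Set ℤ} {x y s : ℤ} (h : Sys A B C x y s) (w l : ℤ) (h1 : x ≤ w)
    (h2 : w + l ≤ x + 100 * s) (h3 : s ≤ l) : 100 * ((win A w l).card : ℤ) ≤ 51 * l := by
  obtain ⟨b, hb⟩ := h.neB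
  have hb' := (mem_win.1 hb).1
  have hs := h.hs
  have hcard : ((win A w l).map (addRightEmbedding b)).card = (win A w l).card :=
    Finset.card_map _
  rw [← hcard]
  refine avoid h _ (w + b) l (by linarith) (by linarith) h3 ?_
  intro z hz
  rw [Finset.mem_map] at hz
  obtain ⟨a, ha, rfl⟩ := hz
  simp only [addRightEmbedding_apply]
  obtain ⟨⟨ha1, ha2⟩, ha3⟩ := mem_win.1 ha
  exact ⟨by linarith, by linarith, h.hno a (mem_win.2 ⟨⟨by linarith, by linarith⟩, ha3⟩) b hb⟩

/-- almost periods -/
lemma per {A B C : Set ℤ} {x y s : ℤ} (h : Sys A B C x y s) (t : ℤ) (ht : |t| ≤ s)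
    (hR : ∃ b ∈ win B y (100 * s), b + t ∈ win B y (100 * s)) :
    100 * ((((win A x (100 * s)).filter fun z => z + t ∉ win A x (100 * s)).card : ℕ) : ℤ)
      ≤ 251 * s := by
  classical
  obtain ⟨b, hb, hbt⟩ := hR
  have hs := h.hs
  set F := win A x (100 * s) with hF
  set G := F.filter fun z => z + t ∉ F with hG
  have hb' := (mem_win.1 hb).1
  have hbt' := (mem_win.1 hbt).1
  obtain ⟨ht1, ht2⟩ := abs_le.1 ht
  set F1 := F.map (addRightEmbedding b) with hF1
  set G1 := G.map (addRightEmbedding (b + t)) with hG1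
  have hd : Disjoint F1 G1 := by
    rw [Finset.disjoint_left]
    intro z hz hz'
    rw [hF1, Finset.mem_map] at hz
    rw [hG1, Finset.mem_map] at hz'
    obtain ⟨a, ha, rfl⟩ := hz
    obtain ⟨a', ha', he⟩ := hz'
    simp only [addRightEmbedding_apply] at he
    rw [hG, Finset.mem_filter] at ha'
    apply ha'.2
    have : a' + t = a := by linarith
    rw [this]
    exact ha
  have hav : 100 * (((F1 ∪ G1).card : ℕ) : ℤ) ≤ 51 * (100 * s + |t|) := by
    refine avoid h _ (x + min b (b + t)) (100 * s + |t|) ?_ ?_ ?_ ?_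
    · rcases min_choice b (b + t) with h5 | h5 <;> rw [h5] <;> linarith
    · have : min b (b + t) + |t| = max b (b + t) := by
        rcases le_total 0 t with h6 | h6
        · rw [abs_of_nonneg h6, min_eq_left (by linarith), max_eq_right (by linarith)]
        · rw [abs_of_nonpos h6, min_eq_right (by linarith), max_eq_left (by linarith)]
          ring
      have h7 : max b (b + t) ≤ y + 100 * s := max_le hb'.2 hbt'.2
      linarith
    · have := abs_nonneg t
      linarith
    · have hmm : min b (b + t) + |t| = max b (b + t) := by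
        rcases le_total 0 t with h6 | h6
        · rw [abs_of_nonneg h6, min_eq_left (by linarith), max_eq_right (by linarith)]
        · rw [abs_of_nonpos h6, min_eq_right (by linarith), max_eq_left (by linarith)]
          ring
      intro z hz
      rw [Finset.mem_union] at hz
      rcases hz with hz | hz
      · rw [hF1, Finset.mem_map] at hz
        obtain ⟨a, ha, rfl⟩ := hz
        simp only [addRightEmbedding_apply]
        have ha' := (mem_win.1 ha).1
        refine ⟨?_, ?_, h.hno a ha b hb⟩
        · have := min_le_left b (b + t)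
          linarith
        · have := le_max_left b (b + t)
          linarith
      · rw [hG1, Finset.mem_map] at hz
        obtain ⟨a, ha, rfl⟩ := hz
        simp only [addRightEmbedding_apply]
        rw [hG, Finset.mem_filter] at ha
        have ha' := (mem_win.1 ha.1).1
        refine ⟨?_, ?_, h.hno a ha.1 (b + t) hbt⟩
        · have := min_le_right b (b + t)
          linarith
        · have := le_max_right b (b + t)
          linarith
  rw [Finset.card_union_of_disjoint hd, hF1, hG1, Finset.card_map, Finset.card_map] at hav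
  push_cast at hav
  have hA := h.hA
  rw [← hF] at hA
  linarith

/-- `t` is a difference of two members of `A` in the window -/
def Rel (A : Set ℤ) (x s t : ℤ) : Prop :=
  ∃ a ∈ win A x (100 * s), a + t ∈ win A x (100 * s)

lemma Rel.neg {A : Set ℤ} {x s t : ℤ} (h : Rel A x s t) : Rel A x s (-t) := by
  obtain ⟨a, ha, hb⟩ := h
  exact ⟨a + t, hb, by simpa using ha⟩

/-- the periods of the two sets are the same -/
lemma rel_swap {A B C : Set ℤ} {x y s : ℤ} (h : Sys A B C x y s) {t : ℤ} (ht : |t| ≤ s)
    (hR : Rel B y s t) : Rel A x s t := by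
  classical
  have h1 := per h t ht hR
  by_contra hcon
  have h2 : (win A x (100 * s)).filter (fun z => z + t ∉ win A x (100 * s)) = win A x (100 * s) := by
    rw [Finset.filter_eq_self]
    intro z hz hz'
    exact hcon ⟨z, hz, hz'⟩
  rw [h2] at h1
  have := h.hA
  have := h.hs
  linarith

lemma per' {A B C : Set ℤ} {x y s : ℤ} (h : Sys A B C x y s) {t : ℤ} (ht : |t| ≤ s)
    (hR : Rel A x s t) :
    100 * ((((win A x (100 * s)).filter fun z => z + t ∉ win A x (100 * s)).card : ℕ) : ℤ)
      ≤ 251 * s :=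
  per h t ht (rel_swap h.symm ht hR)

lemma rel_add {A B C : Set ℤ} {x y s : ℤ} (h : Sys A B C x y s) {t u : ℤ} (ht : |t| ≤ s)
    (hu : |u| ≤ s) (hRt : Rel A x s t) (hRu : Rel A x s u) : Rel A x s (t + u) := by
  classical
  have h1 := per' h ht hRt
  have h2 := per' h (by rwa [abs_neg]) hRu.neg
  by_contra hcon
  have h3 : win A x (100 * s) ⊆ ((win A x (100 * s)).filter fun z => z + t ∉ win A x (100 * s)) ∪
      ((win A x (100 * s)).filter fun z => z + -u ∉ win A x (100 * s)) := by
    intro z hz
    by_contra h4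
    rw [Finset.mem_union, Finset.mem_filter, Finset.mem_filter, not_or] at h4
    obtain ⟨h5, h6⟩ := h4
    have h7 : z + t ∈ win A x (100 * s) := by
      by_contra h8; exact h5 ⟨hz, h8⟩
    have h8 : z + -u ∈ win A x (100 * s) := by
      by_contra h9; exact h6 ⟨hz, h9⟩
    exact hcon ⟨z + -u, h8, by
      have : z + -u + (t + u) = z + t := by ring
      rwa [this]⟩
  have h4 := (Finset.card_le_card h3).trans (Finset.card_union_le _ _)
  have h5 : ((win A x (100 * s)).card : ℤ) ≤
      (((win A x (100 * s)).filter fun z => z + t ∉ win A x (100 * s)).card : ℤ) +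
      (((win A x (100 * s)).filter fun z => z + -u ∉ win A x (100 * s)).card : ℤ) := by
    exact_mod_cast h4
  have := h.hA
  have := h.hs
  linarith

lemma one_or_two {A B C : Set ℤ} {x y s : ℤ} (h : Sys A B C x y s) :
    Rel A x s 1 ∨ Rel A x s 2 := by
  classical
  by_contra hcon
  rw [not_or] at hcon
  obtain ⟨h1, h2⟩ := hcon
  set F := win A x (100 * s) with hF
  set F1 := F.map (addRightEmbedding (1 : ℤ)) with hF1
  set F2 := F.map (addRightEmbedding (2 : ℤ)) with hF2
  have hs := h.hs
  have d1 : Disjoint F F1 := by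
    rw [Finset.disjoint_left]
    intro z hz hz'
    rw [hF1, Finset.mem_map] at hz'
    obtain ⟨a, ha, rfl⟩ := hz'
    exact h1 ⟨a, ha, hz⟩
  have d2 : Disjoint (F ∪ F1) F2 := by
    rw [Finset.disjoint_left]
    intro z hz hz'
    rw [hF2, Finset.mem_map] at hz'
    obtain ⟨a, ha, rfl⟩ := hz'
    simp only [addRightEmbedding_apply] at hz
    rw [Finset.mem_union] at hz
    rcases hz with hz | hz
    · exact h2 ⟨a, ha, hz⟩
    · rw [hF1, Finset.mem_map] at hz
      obtain ⟨a', ha', he⟩ := hz
      simp only [addRightEmbedding_apply] at he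
      have : a' = a + 1 := by linarith
      rw [this] at ha'
      exact h1 ⟨a, ha, ha'⟩
  have hsub : (F ∪ F1) ∪ F2 ⊆ Ioc x (x + 100 * s + 2) := by
    intro z hz
    rw [Finset.mem_Ioc]
    simp only [Finset.mem_union, hF1, hF2, Finset.mem_map, addRightEmbedding_apply] at hz
    rcases hz with (hz | ⟨a, ha, rfl⟩) | ⟨a, ha, rfl⟩
    · have := (mem_win.1 hz).1
      exact ⟨this.1, by linarith⟩
    · have := (mem_win.1 ha).1
      exact ⟨by linarith, by linarith⟩
    · have := (mem_win.1 ha).1
      exact ⟨by linarith, by linarith⟩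
  have hc := Finset.card_le_card hsub
  rw [Finset.card_union_of_disjoint d2, Finset.card_union_of_disjoint d1, hF1, hF2,
    Finset.card_map, Finset.card_map, Int.card_Ioc] at hc
  have hc' : (F.card : ℤ) + F.card + F.card ≤ 100 * s + 2 := by
    have h5 : ((F.card + F.card + F.card : ℕ) : ℤ) ≤ ((x + 100 * s + 2 - x).toNat : ℤ) := by
      exact_mod_cast hc
    rw [Int.toNat_of_nonneg (by linarith)] at h5
    push_cast at h5
    linarith
  have := h.hA
  linarith

lemma rel_all {A B C : Set ℤ} {x y s : ℤ} (h : Sys A B C x y s) (h1 : Rel A x s 1) (t : ℕ)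
    (ht : 1 ≤ t) (hts : (t : ℤ) ≤ s) : Rel A x s t := by
  have hs := h.hs
  induction t with
  | zero => omega
  | succ n ih =>
    by_cases hn : n = 0
    · subst hn; simpa using h1
    · have h2 := ih (by omega) (by push_cast at hts; linarith)
      push_cast at hts ⊢
      exact rel_add h (by rw [abs_of_nonneg (by positivity)]; linarith) (by simp; linarith) h2 h1

/-- the case of the period one -/
lemma case_one {A B C : Set ℤ} {x y s : ℤ} (h : Sys A B C x y s) (h1 : Rel A x s 1) : False := by
  classical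
  have hs := h.hs
  set F := win A x (100 * s) with hF
  have hA := h.hA
  rw [← hF] at hA
  -- the number of the pairs `(a, t)` with `a - t` outside
  have hup : 100 * ((∑ t ∈ Icc (1 : ℤ) s, (F.filter fun z => z + -t ∉ F).card : ℕ) : ℤ) ≤
      251 * s * s := by
    push_cast
    rw [Finset.mul_sum]
    calc ∑ t ∈ Icc (1 : ℤ) s, 100 * (((F.filter fun z => z + -t ∉ F).card : ℕ) : ℤ)
        ≤ ∑ _t ∈ Icc (1 : ℤ) s, 251 * s := by
          refine Finset.sum_le_sum fun t ht => ?_
          rw [Finset.mem_Icc] at ht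
          have h2 : Rel A x s t := by
            have := rel_all h h1 t.toNat (by omega) (by omega)
            rwa [Int.toNat_of_nonneg (by omega)] at this
          exact per' h (by rw [abs_neg, abs_of_nonneg (by omega)]; exact ht.2) h2.neg
      _ = 251 * s * s := by
          rw [Finset.sum_const, Int.card_Icc, nsmul_eq_mul]
          rw [show s + 1 - 1 = s by ring, Int.toNat_of_nonneg (by omega)]
          ring
  -- the members of the window which are not too small
  set F' := F.filter fun a => x + s < a with hF'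
  have hF'c : 48 * s ≤ (F'.card : ℤ) := by
    have h2 : F.card ≤ F'.card + (Ioc x (x + s)).card := by
      rw [← Finset.card_union_add_card_inter]
      refine le_trans (Finset.card_le_card ?_) (Nat.le_add_right _ _)
      intro z hz
      rw [Finset.mem_union, hF', Finset.mem_filter, Finset.mem_Ioc]
      by_cases h3 : x + s < z
      · exact Or.inl ⟨hz, h3⟩
      · exact Or.inr ⟨(mem_win.1 hz).1.1, not_lt.1 h3⟩
    rw [Int.card_Ioc] at h2
    have h3 : (F.card : ℤ) ≤ F'.card + s := by
      have h4 : (F.card : ℤ) ≤ ((F'.card + (x + s - x).toNat : ℕ) : ℤ) := by exact_mod_cast h2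
      push_cast at h4
      rw [show x + s - x = s by ring] at h4
      have : max s 0 = s := max_eq_left (by linarith)
      omega
    linarith
  have hcomm : ∑ t ∈ Icc (1 : ℤ) s, (F.filter fun z => z + -t ∉ F).card
      = ∑ a ∈ F, ((Icc (1 : ℤ) s).filter fun t => a + -t ∉ F).card := by
    simp only [Finset.card_filter]
    rw [Finset.sum_comm]
  have hlow : 49 * s * F'.card ≤
      100 * ((∑ a ∈ F, ((Icc (1 : ℤ) s).filter fun t => a + -t ∉ F).card : ℕ) : ℤ) := by
    have h2 : (∑ a ∈ F', ((Icc (1 : ℤ) s).filter fun t => a + -t ∉ F).card) ≤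
        ∑ a ∈ F, ((Icc (1 : ℤ) s).filter fun t => a + -t ∉ F).card :=
      Finset.sum_le_sum_of_subset (Finset.filter_subset _ _)
    have h3 : ∀ a ∈ F', 49 * s ≤
        100 * ((((Icc (1 : ℤ) s).filter fun t => a + -t ∉ F).card : ℕ) : ℤ) := by
      intro a ha
      rw [hF', Finset.mem_filter] at ha
      have ha' := (mem_win.1 ha.1).1
      have h4 : 100 * ((win A (a - s - 1) s).card : ℤ) ≤ 51 * s :=
        up h (a - s - 1) s (by linarith [ha.2]) (by linarith [ha'.2]) le_rfl
      have h5 : (((Icc (1 : ℤ) s).filter fun t => a + -t ∈ F).card) ≤ (win A (a - s - 1) s).card := by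
        refine Finset.card_le_card_of_injOn (fun t => a + -t) ?_ ?_
        · intro t ht
          rw [Finset.mem_coe, Finset.mem_filter, Finset.mem_Icc] at ht
          rw [Finset.mem_coe, mem_win]
          refine ⟨⟨?_, ?_⟩, (mem_win.1 ht.2).2⟩ <;> linarith [ht.1.1, ht.1.2]
        · intro t _ u _ he
          simpa using he
      have h6 := Finset.card_filter_add_card_filter_not (s := Icc (1 : ℤ) s) (fun t => a + -t ∈ F)
      rw [Int.card_Icc] at h6
      have h7 : ((((Icc (1 : ℤ) s).filter fun t => a + -t ∈ F).card : ℕ) : ℤ) +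
          ((((Icc (1 : ℤ) s).filter fun t => a + -t ∉ F).card : ℕ) : ℤ) = s := by
        have h8 : ((((Icc (1 : ℤ) s).filter fun t => a + -t ∈ F).card +
          ((Icc (1 : ℤ) s).filter fun t => a + -t ∉ F).card : ℕ) : ℤ) = ((s + 1 - 1).toNat : ℤ) := by
          exact_mod_cast h6
        push_cast at h8
        rw [show s + 1 - 1 = s by ring] at h8
        have : max s 0 = s := max_eq_left (by linarith)
        omega
      have h5' : ((((Icc (1 : ℤ) s).filter fun t => a + -t ∈ F).card : ℕ) : ℤ) ≤
          ((win A (a - s - 1) s).card : ℤ) := by exact_mod_cast h5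
      linarith
    calc 49 * s * F'.card = ∑ _a ∈ F', 49 * s := by rw [Finset.sum_const, nsmul_eq_mul]; ring
      _ ≤ ∑ a ∈ F', 100 * ((((Icc (1 : ℤ) s).filter fun t => a + -t ∉ F).card : ℕ) : ℤ) :=
          Finset.sum_le_sum h3
      _ = 100 * ((∑ a ∈ F', ((Icc (1 : ℤ) s).filter fun t => a + -t ∉ F).card : ℕ) : ℤ) := by
          rw [← Finset.mul_sum]; push_cast; rfl
      _ ≤ _ := by
          have : ((∑ a ∈ F', ((Icc (1 : ℤ) s).filter fun t => a + -t ∉ F).card : ℕ) : ℤ) ≤
            ((∑ a ∈ F, ((Icc (1 : ℤ) s).filter fun t => a + -t ∉ F).card : ℕ) : ℤ) := by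
            exact_mod_cast h2
          linarith
  rw [← hcomm] at hlow
  have h9 : 49 * s * (48 * s) ≤ 49 * s * F'.card := by
    apply mul_le_mul_of_nonneg_left hF'c
    linarith
  nlinarith

/-- odd differences lead to the difference one -/
lemma odd_one {A B C : Set ℤ} {x y s : ℤ} (h : Sys A B C x y s) (h2 : Rel A x s 2) (n : ℕ)
    (hn : ((2 * n + 1 : ℕ) : ℤ) ≤ s) (hR : Rel A x s ((2 * n + 1 : ℕ) : ℤ)) : Rel A x s 1 := by
  have hs := h.hs
  induction n with
  | zero => simpa using hR
  | succ n ih =>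
    apply ih
    · push_cast at hn ⊢; linarith
    · have := rel_add h (t := ((2 * (n + 1) + 1 : ℕ) : ℤ)) (u := -2)
        (by rw [abs_of_nonneg (by positivity)]; exact hn) (by simp; linarith) hR h2.neg
      have he : ((2 * (n + 1) + 1 : ℕ) : ℤ) + -2 = ((2 * n + 1 : ℕ) : ℤ) := by push_cast; ring
      rwa [he] at this

/-- in the second case all members of the window are even -/
lemma all_even {A B C : Set ℤ} {x y s : ℤ} (h : Sys A B C x y s)
    (hA2 : ∀ w, x ≤ w → w + s ≤ x + 100 * s → ∃ a ∈ A, w < a ∧ a ≤ w + s ∧ Even a) :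
    ∀ a ∈ win A x (100 * s), Even a := by
  have hs := h.hs
  have h1 : ¬ Rel A x s 1 := fun h1 => case_one h h1
  have h2 : Rel A x s 2 := (one_or_two h).resolve_left h1
  have hev : ∀ t : ℤ, 0 ≤ t → t ≤ s → Rel A x s t → Even t := by
    intro t ht0 hts hR
    by_contra hodd
    rw [Int.not_even_iff_odd] at hodd
    obtain ⟨k, hk⟩ := hodd
    apply h1
    refine odd_one h h2 k.toNat ?_ ?_
    · have : ((2 * k.toNat + 1 : ℕ) : ℤ) = t := by
        omega
      rw [this]; exact hts
    · have : ((2 * k.toNat + 1 : ℕ) : ℤ) = t := by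
        omega
      rw [this]; exact hR
  intro a ha
  have ha' := (mem_win.1 ha).1
  by_cases hx : x ≤ a - s
  · obtain ⟨a0, h3, h4, h5, h6⟩ := hA2 (a - s) hx (by linarith)
    have h7 : Rel A x s (a - a0) := ⟨a0, mem_win.2 ⟨⟨by linarith, by linarith⟩, h3⟩, by
      simpa using ha⟩
    have h8 := hev (a - a0) (by linarith) (by linarith) h7
    have : a = (a - a0) + a0 := by ring
    rw [this]
    exact h8.add h6
  · obtain ⟨a0, h3, h4, h5, h6⟩ := hA2 a (by linarith) (by linarith)
    have h7 : Rel A x s (a0 - a) := ⟨a, ha, by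
      have : a + (a0 - a) = a0 := by ring
      rw [this]
      exact mem_win.2 ⟨⟨by linarith, by linarith⟩, h3⟩⟩
    have h8 := hev (a0 - a) (by linarith) (by linarith) h7
    have : a = a0 - (a0 - a) := by ring
    rw [this]
    exact h6.sub h8

/-- **The combinatorial theorem.** -/
theorem core {A B C : Set ℤ} {x y s : ℤ} (hs : 2 ≤ s)
    (hA : 49 * s ≤ ((win A x (100 * s)).card : ℤ)) (hB : 49 * s ≤ ((win B y (100 * s)).card : ℤ))
    (hC : ∀ w l : ℤ, x + y ≤ w → w + l ≤ x + y + 200 * s → s ≤ l →
      49 * l ≤ 100 * ((win C w l).card : ℤ))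
    (hA2 : ∀ w, x ≤ w → w + s ≤ x + 100 * s → ∃ a ∈ A, w < a ∧ a ≤ w + s ∧ Even a)
    (hB2 : ∀ w, y ≤ w → w + s ≤ y + 100 * s → ∃ b ∈ B, w < b ∧ b ≤ w + s ∧ Even b)
    (hC2 : ∃ c ∈ C, x + y + 99 * s < c ∧ c ≤ x + y + 100 * s ∧ Even c) :
    ∃ a ∈ win A x (100 * s), ∃ b ∈ win B y (100 * s), a + b ∈ C := by
  classical
  by_contra hcon
  have hno : ∀ a ∈ win A x (100 * s), ∀ b ∈ win B y (100 * s), a + b ∉ C := by
    intro a ha b hb hc
    exact hcon ⟨a, ha, b, hb, hc⟩
  have h : Sys A B C x y s := ⟨hs, hA, hB, hC, hno⟩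
  have heA := all_even h hA2
  have heB := all_even h.symm hB2
  obtain ⟨c, hc, hc1, hc2, hc3⟩ := hC2
  set F := win A x (100 * s) with hF
  set G := (win B y (100 * s)).image (fun b => c - b) with hG
  have hGc : G.card = (win B y (100 * s)).card := by
    rw [hG]
    apply Finset.card_image_of_injective
    intro b b' he
    simpa using he
  have hd : Disjoint F G := by
    rw [Finset.disjoint_left]
    intro z hz hz'
    rw [hG, Finset.mem_image] at hz'
    obtain ⟨b, hb, rfl⟩ := hz'
    apply hno _ hz b hb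
    simpa using hc
  have hsub : (F ∪ G).image (fun z => z / 2) ⊆ Icc ((x - s) / 2) ((x + 100 * s) / 2) := by
    intro z hz
    rw [Finset.mem_image] at hz
    obtain ⟨u, hu, rfl⟩ := hz
    rw [Finset.mem_union] at hu
    rw [Finset.mem_Icc]
    rcases hu with hu | hu
    · have := (mem_win.1 hu).1
      constructor <;> omega
    · rw [hG, Finset.mem_image] at hu
      obtain ⟨b, hb, rfl⟩ := hu
      have := (mem_win.1 hb).1
      constructor <;> omega
  have hinj : Set.InjOn (fun z : ℤ => z / 2) (↑(F ∪ G) : Set ℤ) := by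
    have hev : ∀ z ∈ F ∪ G, Even z := by
      intro z hz
      rw [Finset.mem_union] at hz
      rcases hz with hz | hz
      · exact heA z hz
      · rw [hG, Finset.mem_image] at hz
        obtain ⟨b, hb, rfl⟩ := hz
        exact hc3.sub (heB b hb)
    intro z hz u hu he
    have h1 := hev z (by simpa using hz)
    have h2 := hev u (by simpa using hu)
    obtain ⟨k, hk⟩ := h1
    obtain ⟨l, hl⟩ := h2
    simp only at he
    omega
  have hcard := Finset.card_le_card hsub
  rw [Finset.card_image_of_injOn hinj, Finset.card_union_of_disjoint hd, hGc, Int.card_Icc] at hcard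
  have h5 : ((F.card + (win B y (100 * s)).card : ℕ) : ℤ) ≤
      (((x + 100 * s) / 2 + 1 - (x - s) / 2).toNat : ℤ) := by exact_mod_cast hcard
  push_cast at h5
  omega

end Pool.Agent.Q84.PG
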