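import Pool.Agent.Q84.PG1
set_option autoImplicit false

/-!
# Solutions of `± x₁ ± x₂ = n` and of `± x₁ ± x₂ ± x₃ = n` near elements of a set of natural numbers
-/

namespace Pool.Agent.Q84.PG

open Finset

open scoped Classical in
/-- the members of `G` in `(u, u + l]` -/
noncomputable def nwin (G : Set ℕ) (u l : ℕ) : Finset ℕ := (Ioc u (u + l)).filter (· ∈ G)

lemma mem_nwin {G : Set ℕ} {u l k : ℕ} : k ∈ nwin G u l ↔ (u < k ∧ k ≤ u + l) ∧ k ∈ G := by
  simp [nwin]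

/-- the image of `G` under an affine map of slope `± 1` -/
def aff (G : Set ℕ) (c τ : ℤ) : Set ℤ := {z | ∃ k ∈ G, (k : ℤ) = c + τ * z}

/-- the counts of the affine image -/
lemma aff_card (G : Set ℕ) (c τ : ℤ) (hτ : τ = 1 ∨ τ = -1) (w l : ℤ) (hl : 1 ≤ l)
    (hpos : ∀ z, w < z → z ≤ w + l → 0 < c + τ * z) :
    ∃ u : ℕ, (nwin G u l.toNat).card ≤ (win (aff G c τ) w l).card := by
  classical
  have hl' : (l.toNat : ℤ) = l := Int.toNat_of_nonneg (by linarith)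
  rcases hτ with rfl | rfl
  · have h0 := hpos (w + 1) (by linarith) (by linarith)
    have hu : ((c + w).toNat : ℤ) = c + w := Int.toNat_of_nonneg (by linarith)
    refine ⟨(c + w).toNat, Finset.card_le_card_of_injOn (fun k : ℕ => (k : ℤ) - c) ?_ ?_⟩
    · intro k hk
      rw [Finset.mem_coe] at hk ⊢
      rw [mem_nwin] at hk
      rw [mem_win]
      obtain ⟨⟨h1, h2⟩, h3⟩ := hk
      have h1' : ((c + w).toNat : ℤ) < k := by exact_mod_cast h1
      have h2' : (k : ℤ) ≤ (c + w).toNat + l.toNat := by exact_mod_cast h2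
      refine ⟨⟨by linarith, by linarith⟩, k, h3, by ring⟩
    · intro k _ k' _ he
      simpa using he
  · have h0 := hpos (w + l) (by linarith) (by linarith)
    have hu : ((c - w - l - 1).toNat : ℤ) = c - w - l - 1 := Int.toNat_of_nonneg (by linarith)
    refine ⟨(c - w - l - 1).toNat, Finset.card_le_card_of_injOn (fun k : ℕ => c - (k : ℤ)) ?_ ?_⟩
    · intro k hk
      rw [Finset.mem_coe] at hk ⊢
      rw [mem_nwin] at hk
      rw [mem_win]
      obtain ⟨⟨h1, h2⟩, h3⟩ := hk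
      have h1' : ((c - w - l - 1).toNat : ℤ) < k := by exact_mod_cast h1
      have h2' : (k : ℤ) ≤ (c - w - l - 1).toNat + l.toNat := by exact_mod_cast h2
      refine ⟨⟨by linarith, by linarith⟩, k, h3, by ring⟩
    · intro k _ k' _ he
      simpa using he

/-- even members of the affine image -/
lemma aff_even (G : Set ℕ) (s : ℕ) (hs : 1 ≤ s)
    (hev : ∀ u : ℕ, ∃ k ∈ G, u < k ∧ k ≤ u + s ∧ Even k) (c τ : ℤ) (hc : Even c)
    (hτ : τ = 1 ∨ τ = -1) (w : ℤ) (hpos : ∀ z, w < z → z ≤ w + s → 0 < c + τ * z) :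
    ∃ z ∈ aff G c τ, w < z ∧ z ≤ w + s ∧ Even z := by
  have hs' : (1 : ℤ) ≤ s := by exact_mod_cast hs
  rcases hτ with rfl | rfl
  · have h0 := hpos (w + 1) (by linarith) (by linarith)
    have hu : ((c + w).toNat : ℤ) = c + w := Int.toNat_of_nonneg (by linarith)
    obtain ⟨k, hk, h1, h2, h3⟩ := hev (c + w).toNat
    have h1' : ((c + w).toNat : ℤ) < k := by exact_mod_cast h1
    have h2' : (k : ℤ) ≤ (c + w).toNat + s := by exact_mod_cast h2
    refine ⟨(k : ℤ) - c, ⟨k, hk, by ring⟩, by linarith, by linarith, ?_⟩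
    have h4 : Even (k : ℤ) := by exact_mod_cast h3
    exact h4.sub hc
  · have h0 := hpos (w + s) (by linarith) (by linarith)
    have hu : ((c - w - s - 1).toNat : ℤ) = c - w - s - 1 := Int.toNat_of_nonneg (by linarith)
    obtain ⟨k, hk, h1, h2, h3⟩ := hev (c - w - s - 1).toNat
    have h1' : ((c - w - s - 1).toNat : ℤ) < k := by exact_mod_cast h1
    have h2' : (k : ℤ) ≤ (c - w - s - 1).toNat + s := by exact_mod_cast h2
    refine ⟨c - (k : ℤ), ⟨k, hk, by ring⟩, by linarith, by linarith, ?_⟩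
    have h4 : Even (k : ℤ) := by exact_mod_cast h3
    exact hc.sub h4

lemma sg_cases {t : ℤ} (h : t = 1 ∨ t = -1) : t * t = 1 := by
  rcases h with rfl | rfl <;> norm_num

lemma sg_abs {t : ℤ} (h : t = 1 ∨ t = -1) (u : ℤ) : |t * u| = |u| := by
  rcases h with rfl | rfl
  · rw [one_mul]
  · rw [neg_one_mul, abs_neg]

/-- **Three variables.** -/
theorem three (G : Fin 3 → Set ℕ) (s B : ℕ) (hs : 2 ≤ s) (hB : B ≤ s)
    (hd : ∀ i, ∀ u l : ℕ, s ≤ l → 49 * l ≤ 100 * (nwin (G i) u l).card)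
    (hev : ∀ i, ∀ u : ℕ, ∃ k ∈ G i, u < k ∧ k ≤ u + s ∧ Even k)
    (σ : Fin 3 → ℤ) (x : Fin 3 → ℕ) (hσ : ∀ i, σ i = 1 ∨ σ i = -1) (hx : ∀ i, 400 * s ≤ x i)
    (n : ℤ) (hn : |∑ i, σ i * (x i : ℤ) - 2 * n| ≤ B) :
    ∃ k : Fin 3 → ℕ, (∀ i, k i ∈ G i ∧ |(k i : ℤ) - x i| ≤ 300 * s) ∧
      ∑ i, σ i * (k i : ℤ) = 2 * n := by
  have hs' : (2 : ℤ) ≤ s := by exact_mod_cast hs
  have hB' : (B : ℤ) ≤ s := by exact_mod_cast hB
  have hx0 : (400 * s : ℤ) ≤ x 0 := by exact_mod_cast hx 0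
  have hx1 : (400 * s : ℤ) ≤ x 1 := by exact_mod_cast hx 1
  have hx2 : (400 * s : ℤ) ≤ x 2 := by exact_mod_cast hx 2
  rw [Fin.sum_univ_three] at hn
  obtain ⟨hn1, hn2⟩ := abs_le.1 hn
  -- density of the affine images
  have hden : ∀ (i : Fin 3) (c τ : ℤ), (τ = 1 ∨ τ = -1) → ∀ w l : ℤ, (s : ℤ) ≤ l →
      (∀ z, w < z → z ≤ w + l → 0 < c + τ * z) →
      49 * l ≤ 100 * ((win (aff (G i) c τ) w l).card : ℤ) := by
    intro i c τ hτ w l hl hpos
    obtain ⟨u, hu⟩ := aff_card (G i) c τ hτ w l (by linarith) hpos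
    have hl' : (l.toNat : ℤ) = l := Int.toNat_of_nonneg (by linarith)
    have h1 := hd i u l.toNat (by
      have : (s : ℤ) ≤ (l.toNat : ℤ) := by rw [hl']; exact hl
      exact_mod_cast this)
    have h2 : (49 * (l.toNat : ℤ)) ≤ 100 * ((nwin (G i) u l.toNat).card : ℤ) := by exact_mod_cast h1
    rw [hl'] at h2
    have h3 : ((nwin (G i) u l.toNat).card : ℤ) ≤ ((win (aff (G i) c τ) w l).card : ℤ) := by
      exact_mod_cast hu
    linarith
  -- positivity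
  have pos0 : ∀ z : ℤ, σ 0 * x 0 - 50 * s < z → z ≤ σ 0 * x 0 - 50 * s + 100 * s →
      0 < 0 + σ 0 * z := by
    intro z h1 h2
    rcases hσ 0 with h | h <;> rw [h] at h1 h2 ⊢ <;> linarith
  have pos1 : ∀ z : ℤ, σ 1 * x 1 - 50 * s < z → z ≤ σ 1 * x 1 - 50 * s + 100 * s →
      0 < 0 + σ 1 * z := by
    intro z h1 h2
    rcases hσ 1 with h | h <;> rw [h] at h1 h2 ⊢ <;> linarith
  have pos2 : ∀ z : ℤ, σ 0 * x 0 - 50 * s + (σ 1 * x 1 - 50 * s) < z →
      z ≤ σ 0 * x 0 - 50 * s + (σ 1 * x 1 - 50 * s) + 200 * s →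
      0 < 2 * n * σ 2 + -σ 2 * z := by
    intro z h1 h2
    rcases hσ 2 with h | h <;> rw [h] at hn1 hn2 ⊢ <;> linarith
  have hneg : -σ 2 = 1 ∨ -σ 2 = -1 := by
    rcases hσ 2 with h | h
    · right; rw [h]
    · left; rw [h]; norm_num
  have hceven : Even (2 * n * σ 2) := (even_two_mul n).mul_right _
  obtain ⟨a, ha, b, hb, hab⟩ := core (A := aff (G 0) 0 (σ 0)) (B := aff (G 1) 0 (σ 1))
    (C := aff (G 2) (2 * n * σ 2) (-σ 2)) (x := σ 0 * x 0 - 50 * s) (y := σ 1 * x 1 - 50 * s)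
    (s := (s : ℤ)) hs' (by
      have := hden 0 0 (σ 0) (hσ 0) (σ 0 * x 0 - 50 * s) (100 * s) (by linarith) pos0
      linarith) (by
      have := hden 1 0 (σ 1) (hσ 1) (σ 1 * x 1 - 50 * s) (100 * s) (by linarith) pos1
      linarith) (by
      intro w l h1 h2 h3
      exact hden 2 _ _ hneg w l h3 fun z h4 h5 => pos2 z (by linarith) (by linarith)) (by
      intro w h1 h2
      exact aff_even (G 0) s (by omega) (hev 0) 0 (σ 0) (by simp) (hσ 0) w fun z h4 h5 =>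
        pos0 z (by linarith) (by linarith)) (by
      intro w h1 h2
      exact aff_even (G 1) s (by omega) (hev 1) 0 (σ 1) (by simp) (hσ 1) w fun z h4 h5 =>
        pos1 z (by linarith) (by linarith)) (by
      obtain ⟨z, h1, h2, h3, h4⟩ := aff_even (G 2) s (by omega) (hev 2) _ _ hceven hneg
        (σ 0 * x 0 - 50 * s + (σ 1 * x 1 - 50 * s) + 99 * s) fun z h4 h5 =>
        pos2 z (by linarith) (by linarith)
      exact ⟨z, h1, h2, by linarith, h4⟩)
  obtain ⟨⟨ha1, ha2⟩, k0, hk0, e0⟩ := mem_win.1 ha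
  obtain ⟨⟨hb1, hb2⟩, k1, hk1, e1⟩ := mem_win.1 hb
  obtain ⟨k2, hk2, e2⟩ := hab
  have q0 := sg_cases (hσ 0)
  have q1 := sg_cases (hσ 1)
  have q2 := sg_cases (hσ 2)
  refine ⟨![k0, k1, k2], ?_, ?_⟩
  · intro i
    fin_cases i
    · refine ⟨hk0, ?_⟩
      change |(k0 : ℤ) - x 0| ≤ 300 * s
      have : (k0 : ℤ) - x 0 = σ 0 * (a - σ 0 * x 0) := by
        rw [e0]; linear_combination (x 0 : ℤ) * q0
      rw [this, sg_abs (hσ 0), abs_le]
      constructor <;> linarith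
    · refine ⟨hk1, ?_⟩
      change |(k1 : ℤ) - x 1| ≤ 300 * s
      have : (k1 : ℤ) - x 1 = σ 1 * (b - σ 1 * x 1) := by
        rw [e1]; linear_combination (x 1 : ℤ) * q1
      rw [this, sg_abs (hσ 1), abs_le]
      constructor <;> linarith
    · refine ⟨hk2, ?_⟩
      change |(k2 : ℤ) - x 2| ≤ 300 * s
      have : (k2 : ℤ) - x 2 = σ 2 * (2 * n - a - b - σ 2 * x 2) := by
        rw [e2]; linear_combination (x 2 : ℤ) * q2
      rw [this, sg_abs (hσ 2), abs_le]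
      constructor <;> linarith
  · rw [Fin.sum_univ_three]
    change σ 0 * (k0 : ℤ) + σ 1 * (k1 : ℤ) + σ 2 * (k2 : ℤ) = 2 * n
    rw [e0, e1, e2]
    linear_combination a * q0 + b * q1 + (2 * n - a - b) * q2

/-- **Two variables.** -/
theorem two (G : Fin 2 → Set ℕ) (s B : ℕ) (hs : 1 ≤ s) (hB : B ≤ s) (δ : ℝ) (hδ : 0 < δ)
    (hd : ∀ i, ∀ u l : ℕ, s ≤ l → (1 / 2 + δ) * l ≤ ((nwin (G i) u l).card : ℝ))
    (σ : Fin 2 → ℤ) (x : Fin 2 → ℕ) (hσ : ∀ i, σ i = 1 ∨ σ i = -1) (hx : ∀ i, 4 * s ≤ x i)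
    (n : ℤ) (hn : |∑ i, σ i * (x i : ℤ) - n| ≤ B) :
    ∃ k : Fin 2 → ℕ, (∀ i, k i ∈ G i ∧ |(k i : ℤ) - x i| ≤ 4 * s) ∧
      ∑ i, σ i * (k i : ℤ) = n := by
  classical
  have hs' : (1 : ℤ) ≤ s := by exact_mod_cast hs
  have hB' : (B : ℤ) ≤ s := by exact_mod_cast hB
  have hx0 : (4 * s : ℤ) ≤ x 0 := by exact_mod_cast hx 0
  have hx1 : (4 * s : ℤ) ≤ x 1 := by exact_mod_cast hx 1
  rw [Fin.sum_univ_two] at hn
  obtain ⟨hn1, hn2⟩ := abs_le.1 hn
  have hden : ∀ (i : Fin 2) (c τ : ℤ), (τ = 1 ∨ τ = -1) → ∀ w : ℤ,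
      (∀ z, w < z → z ≤ w + s → 0 < c + τ * z) →
      (1 / 2 + δ) * s ≤ ((win (aff (G i) c τ) w s).card : ℝ) := by
    intro i c τ hτ w hpos
    obtain ⟨u, hu⟩ := aff_card (G i) c τ hτ w s hs' hpos
    rw [Int.toNat_natCast] at hu
    exact (hd i u s le_rfl).trans (by exact_mod_cast hu)
  have pos0 : ∀ z : ℤ, σ 0 * x 0 < z → z ≤ σ 0 * x 0 + s → 0 < 0 + σ 0 * z := by
    intro z h1 h2
    rcases hσ 0 with h | h <;> rw [h] at h1 h2 ⊢ <;> linarith
  have pos1 : ∀ z : ℤ, σ 0 * x 0 < z → z ≤ σ 0 * x 0 + s → 0 < n * σ 1 + -σ 1 * z := by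
    intro z h1 h2
    rcases hσ 1 with h | h <;> rw [h] at hn1 hn2 ⊢ <;> linarith
  have hneg : -σ 1 = 1 ∨ -σ 1 = -1 := by
    rcases hσ 1 with h | h
    · right; rw [h]
    · left; rw [h]; norm_num
  have c0 := hden 0 0 (σ 0) (hσ 0) (σ 0 * x 0) pos0
  have c1 := hden 1 (n * σ 1) (-σ 1) hneg (σ 0 * x 0) pos1
  have hne : ¬ Disjoint (win (aff (G 0) 0 (σ 0)) (σ 0 * x 0) s)
      (win (aff (G 1) (n * σ 1) (-σ 1)) (σ 0 * x 0) s) := by
    intro hdis
    have hsub : win (aff (G 0) 0 (σ 0)) (σ 0 * x 0) s ∪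
        win (aff (G 1) (n * σ 1) (-σ 1)) (σ 0 * x 0) s ⊆
        Ioc (σ 0 * (x 0 : ℤ)) (σ 0 * x 0 + s) := by
      intro z hz
      rw [Finset.mem_union] at hz
      rw [Finset.mem_Ioc]
      rcases hz with hz | hz
      · exact (mem_win.1 hz).1
      · exact (mem_win.1 hz).1
    have h1 := Finset.card_le_card hsub
    rw [Finset.card_union_of_disjoint hdis, Int.card_Ioc] at h1
    have h2 : (σ 0 * (x 0 : ℤ) + s - σ 0 * x 0).toNat = s := by
      have : σ 0 * (x 0 : ℤ) + s - σ 0 * x 0 = s := by ring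
      rw [this, Int.toNat_natCast]
    rw [h2] at h1
    have h3 : (((win (aff (G 0) 0 (σ 0)) (σ 0 * x 0) s).card : ℕ) : ℝ) +
        (((win (aff (G 1) (n * σ 1) (-σ 1)) (σ 0 * x 0) s).card : ℕ) : ℝ) ≤ s := by
      exact_mod_cast h1
    have h4 : (0 : ℝ) < s := by exact_mod_cast (by omega : 0 < s)
    nlinarith
  rw [Finset.not_disjoint_iff] at hne
  obtain ⟨a, ha, ha'⟩ := hne
  obtain ⟨⟨ha1, ha2⟩, k0, hk0, e0⟩ := mem_win.1 ha
  obtain ⟨-, k1, hk1, e1⟩ := mem_win.1 ha'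
  have q0 := sg_cases (hσ 0)
  have q1 := sg_cases (hσ 1)
  refine ⟨![k0, k1], ?_, ?_⟩
  · intro i
    fin_cases i
    · refine ⟨hk0, ?_⟩
      change |(k0 : ℤ) - x 0| ≤ 4 * s
      have : (k0 : ℤ) - x 0 = σ 0 * (a - σ 0 * x 0) := by
        rw [e0]; linear_combination (x 0 : ℤ) * q0
      rw [this, sg_abs (hσ 0), abs_le]
      constructor <;> linarith
    · refine ⟨hk1, ?_⟩
      change |(k1 : ℤ) - x 1| ≤ 4 * s
      have : (k1 : ℤ) - x 1 = σ 1 * (n - a - σ 1 * x 1) := by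
        rw [e1]; linear_combination (x 1 : ℤ) * q1
      rw [this, sg_abs (hσ 1), abs_le]
      constructor <;> linarith
  · rw [Fin.sum_univ_two]
    change σ 0 * (k0 : ℤ) + σ 1 * (k1 : ℤ) = n
    rw [e0, e1]
    linear_combination a * q0 + (n - a) * q1

/-- the signs -/
lemma sign_cases {c : ℤ} (hc : c ≠ 0) : Int.sign c = 1 ∨ Int.sign c = -1 := by
  rcases lt_or_gt_of_ne hc with h | h
  · right; exact Int.sign_eq_neg_one_of_neg h
  · left; exact Int.sign_eq_one_of_pos h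

/-- rounding of the prescribed values: the `i`-th variable is rounded to a multiple of `m i`, where
`|c i| m i = m` for all `i` -/
lemma round {r : ℕ} (m : ℕ) (hm : 0 < m) (mi : Fin r → ℕ) (c : Fin r → ℤ)
    (hmi : ∀ i, (c i).natAbs * mi i = m) (x : Fin r → ℕ) (n : ℤ) (B : ℕ)
    (hn : |∑ i, c i * (x i : ℤ) - m * n| ≤ B) :
    |∑ i, Int.sign (c i) * ((x i / mi i : ℕ) : ℤ) - n| ≤ r + B := by
  have hm' : (0 : ℤ) < m := by exact_mod_cast hm
  have hci : ∀ i, Int.sign (c i) * (m : ℤ) = c i * mi i := by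
    intro i
    rw [← hmi i]
    push_cast
    rw [← mul_assoc, Int.sign_mul_abs]
  have hmi0 : ∀ i, 0 < mi i := fun i => by
    rcases Nat.eq_zero_or_pos (mi i) with h | h
    · have := hmi i
      rw [h, mul_zero] at this
      omega
    · exact h
  have h1 : (m : ℤ) * (∑ i, Int.sign (c i) * ((x i / mi i : ℕ) : ℤ) - n)
      = (∑ i, c i * (x i : ℤ) - m * n) - ∑ i, c i * ((x i % mi i : ℕ) : ℤ) := by
    rw [mul_sub, Finset.mul_sum]
    have : ∑ i, (m : ℤ) * (Int.sign (c i) * ((x i / mi i : ℕ) : ℤ)) =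
        ∑ i, (c i * (x i : ℤ) - c i * ((x i % mi i : ℕ) : ℤ)) := by
      refine Finset.sum_congr rfl fun i _ => ?_
      have h2 : (x i : ℤ) = mi i * ((x i / mi i : ℕ) : ℤ) + ((x i % mi i : ℕ) : ℤ) := by
        exact_mod_cast (Nat.div_add_mod (x i) (mi i)).symm
      have h3 := hci i
      linear_combination ((x i / mi i : ℕ) : ℤ) * h3 - c i * h2
    rw [this, Finset.sum_sub_distrib]
    ring
  have h3 : (m : ℤ) * |∑ i, Int.sign (c i) * ((x i / mi i : ℕ) : ℤ) - n| ≤ m * (r + B) := by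
    calc (m : ℤ) * |∑ i, Int.sign (c i) * ((x i / mi i : ℕ) : ℤ) - n|
        = |(m : ℤ) * (∑ i, Int.sign (c i) * ((x i / mi i : ℕ) : ℤ) - n)| := by
          rw [abs_mul, abs_of_pos hm']
      _ ≤ |∑ i, c i * (x i : ℤ) - m * n| + |∑ i, c i * ((x i % mi i : ℕ) : ℤ)| := by
          rw [h1]; exact abs_sub _ _
      _ ≤ B + ∑ i, |c i * ((x i % mi i : ℕ) : ℤ)| :=
          add_le_add hn (Finset.abs_sum_le_sum_abs _ _)
      _ ≤ m * B + ∑ _i : Fin r, (m : ℤ) := by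
          refine add_le_add ?_ (Finset.sum_le_sum fun i _ => ?_)
          · have : (1 : ℤ) ≤ m := by exact_mod_cast hm
            have h0 : (0 : ℤ) ≤ B := by positivity
            nlinarith
          · rw [abs_mul, abs_of_nonneg (by positivity : (0 : ℤ) ≤ ((x i % mi i : ℕ) : ℤ))]
            have h4 : (x i % mi i : ℕ) ≤ mi i := (Nat.mod_lt _ (hmi0 i)).le
            calc |c i| * ((x i % mi i : ℕ) : ℤ) ≤ |c i| * (mi i : ℤ) := by
                  apply mul_le_mul_of_nonneg_left _ (abs_nonneg _)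
                  exact_mod_cast h4
              _ = m := by
                  rw [← hmi i]; push_cast; rfl
      _ = m * (r + B) := by simp; ring
  exact le_of_mul_le_mul_left h3 hm'

/-- a multiple of `m` close to a prescribed value -/
lemma scale {m x k : ℕ} {R : ℤ} (h : |(k : ℤ) - ((x / m : ℕ) : ℤ)| ≤ R) (hm : 0 < m) :
    |((m * k : ℕ) : ℤ) - x| ≤ m * (R + 1) := by
  have hm' : (0 : ℤ) < m := by exact_mod_cast hm
  have h2 : (x : ℤ) = m * ((x / m : ℕ) : ℤ) + ((x % m : ℕ) : ℤ) := by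
    exact_mod_cast (Nat.div_add_mod x m).symm
  have h3 : ((x % m : ℕ) : ℤ) ≤ m := by exact_mod_cast (Nat.mod_lt x hm).le
  have h4 : (0 : ℤ) ≤ ((x % m : ℕ) : ℤ) := by positivity
  obtain ⟨h5, h6⟩ := abs_le.1 h
  rw [abs_le]
  push_cast at *
  constructor <;> nlinarith

/-- every approximate solution of `∑ c i * x i = n`, `n` a multiple of `N`, is close to a solution in
elements of `R` -/
def Solv (R : Set ℕ) {r : ℕ} (c : Fin r → ℤ) : Prop :=
  ∃ M : ℕ, 0 < M ∧ ∀ N : ℕ, 0 < N → M ∣ N → ∀ B : ℕ, ∃ T : ℕ, ∀ x : Fin r → ℕ, (∀ i, T ≤ x i) →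
    ∀ n : ℤ, (N : ℤ) ∣ n → |∑ i, c i * (x i : ℤ) - n| ≤ B →
    ∃ g : Fin r → ℕ, (∀ i, g i ∈ R ∧ |(g i : ℤ) - x i| ≤ T) ∧ ∑ i, c i * (g i : ℤ) = n

/-- one more variable -/
lemma Solv.succ {R : Set ℕ} {M : ℕ} (hM : 0 < M)
    (hsyn : ∀ N : ℕ, 0 < N → M ∣ N → ∃ L : ℕ, ∀ u : ℕ, ∃ k, u < k ∧ k ≤ u + L ∧ N * k ∈ R)
    {r : ℕ} (c : Fin (r + 1) → ℤ) (h : Solv R (fun i : Fin r => c i.castSucc)) : Solv R c := by
  obtain ⟨M1, hM1, h1⟩ := h
  refine ⟨M1 * M, Nat.mul_pos hM1 hM, fun N hN hd B => ?_⟩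
  obtain ⟨L, hL⟩ := hsyn N hN ((Dvd.intro_left _ rfl).trans hd)
  set cl : ℤ := c (Fin.last r) with hcl
  set B' : ℕ := B + cl.natAbs * (N * (L + 1)) with hB'
  obtain ⟨T, hT⟩ := h1 N hN ((Dvd.intro _ rfl).trans hd) B'
  refine ⟨T + N * (L + 1), fun x hx n hn hxn => ?_⟩
  obtain ⟨k, hk1, hk2, hk3⟩ := hL (x (Fin.last r) / N)
  have hsc : |((N * k : ℕ) : ℤ) - x (Fin.last r)| ≤ N * ((L : ℤ) + 1) := by
    apply scale _ hN
    rw [abs_le]
    have h5 : ((x (Fin.last r) / N : ℕ) : ℤ) < k := by exact_mod_cast hk1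
    have h6 : (k : ℤ) ≤ ((x (Fin.last r) / N : ℕ) : ℤ) + L := by exact_mod_cast hk2
    constructor
    · have : (0 : ℤ) ≤ L := by positivity
      linarith
    · linarith
  have hsum : ∑ i, c i * (x i : ℤ) = ∑ i : Fin r, c i.castSucc * (x i.castSucc : ℤ)
      + cl * x (Fin.last r) := Fin.sum_univ_castSucc _
  obtain ⟨g, hg1, hg2⟩ := hT (fun i => x i.castSucc) (fun i => (Nat.le_add_right _ _).trans (hx _))
    (n - cl * ((N * k : ℕ) : ℤ)) (by
      apply dvd_sub hn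
      apply Dvd.dvd.mul_left
      push_cast
      exact Dvd.intro _ rfl) (by
      have e : ∑ i : Fin r, c i.castSucc * (x i.castSucc : ℤ) - (n - cl * ((N * k : ℕ) : ℤ))
          = (∑ i, c i * (x i : ℤ) - n) + cl * (((N * k : ℕ) : ℤ) - x (Fin.last r)) := by
        rw [hsum]; ring
      rw [e]
      refine (abs_add_le _ _).trans ?_
      rw [hB']
      push_cast
      refine add_le_add hxn ?_
      rw [abs_mul]
      apply mul_le_mul_of_nonneg_left _ (abs_nonneg _)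
      simpa using hsc)
  refine ⟨Fin.snoc g (N * k), ?_, ?_⟩
  · intro i
    refine Fin.lastCases ?_ (fun j => ?_) i
    · simp only [Fin.snoc_last]
      refine ⟨hk3, hsc.trans ?_⟩
      push_cast
      have : (0 : ℤ) ≤ T := by positivity
      linarith
    · simp only [Fin.snoc_castSucc]
      refine ⟨(hg1 j).1, (hg1 j).2.trans ?_⟩
      push_cast
      have : (0 : ℤ) ≤ N * ((L : ℤ) + 1) := by positivity
      linarith
  · rw [Fin.sum_univ_castSucc]
    simp only [Fin.snoc_last, Fin.snoc_castSucc]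
    rw [hg2]
    ring

/-- the sets of multipliers have almost one half of every long window -/
def Half (R : Set ℕ) (M : ℕ) : Prop :=
  ∀ N : ℕ, 0 < N → M ∣ N → ∃ L : ℕ, ∀ l : ℕ, L ≤ l → ∀ u : ℕ,
    49 * l ≤ 100 * (nwin {k | N * k ∈ R} u l).card

/-- the sets of multipliers have more than one half of every long window -/
def More (R : Set ℕ) (M : ℕ) (δ : ℝ) : Prop :=
  ∀ N : ℕ, 0 < N → M ∣ N → ∃ L : ℕ, ∀ l : ℕ, L ≤ l → ∀ u : ℕ,
    (1 / 2 + δ) * l ≤ ((nwin {k | N * k ∈ R} u l).card : ℝ)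

lemma Half.syn {R : Set ℕ} {M : ℕ} (h : Half R M) (N : ℕ) (hN : 0 < N) (hd : M ∣ N) :
    ∃ L : ℕ, ∀ u : ℕ, ∃ k, u < k ∧ k ≤ u + L ∧ N * k ∈ R := by
  obtain ⟨L, hL⟩ := h N hN hd
  refine ⟨L + 1, fun u => ?_⟩
  have h1 := hL (L + 1) (by omega) u
  obtain ⟨k, hk⟩ := Finset.card_pos.1 (by omega : 0 < (nwin {k | N * k ∈ R} u (L + 1)).card)
  obtain ⟨⟨h3, h4⟩, h5⟩ := mem_nwin.1 hk
  exact ⟨k, h3, h4, h5⟩

lemma More.syn {R : Set ℕ} {M : ℕ} {δ : ℝ} (hδ : 0 < δ) (h : More R M δ) (N : ℕ) (hN : 0 < N)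
    (hd : M ∣ N) : ∃ L : ℕ, ∀ u : ℕ, ∃ k, u < k ∧ k ≤ u + L ∧ N * k ∈ R := by
  obtain ⟨L, hL⟩ := h N hN hd
  refine ⟨L + 1, fun u => ?_⟩
  have h1 := hL (L + 1) (by omega) u
  have h2 : 0 < (nwin {k | N * k ∈ R} u (L + 1)).card := by
    have : (0 : ℝ) < ((nwin {k | N * k ∈ R} u (L + 1)).card : ℝ) :=
      lt_of_lt_of_le (by positivity) h1
    exact_mod_cast this
  obtain ⟨k, hk⟩ := Finset.card_pos.1 h2
  obtain ⟨⟨h3, h4⟩, h5⟩ := mem_nwin.1 hk
  exact ⟨k, h3, h4, h5⟩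

/-- the numbers `m / |c i|` for a common multiple `m` of the coefficients -/
lemma quot {r : ℕ} (c : Fin r → ℤ) (P : ℕ) (hP : 0 < P)
    (hdiv : ∀ i, (c i).natAbs ∣ P) (m0 : ℕ) (hm0 : 0 < m0) :
    (∀ i, (c i).natAbs * (m0 * (P / (c i).natAbs)) = m0 * P) ∧
      ∀ i, 0 < m0 * (P / (c i).natAbs) ∧ m0 ∣ m0 * (P / (c i).natAbs) := by
  refine ⟨fun i => ?_, fun i => ⟨?_, Dvd.intro _ rfl⟩⟩
  · calc (c i).natAbs * (m0 * (P / (c i).natAbs)) = m0 * ((c i).natAbs * (P / (c i).natAbs)) := by ring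
      _ = m0 * P := by rw [Nat.mul_div_cancel' (hdiv i)]
  · apply Nat.mul_pos hm0
    exact Nat.div_pos (Nat.le_of_dvd hP (hdiv i)) (Nat.pos_of_dvd_of_pos (hdiv i) hP)

theorem solv_three {R : Set ℕ} {M : ℕ} (hM : 0 < M) (h : Half R M) (c : Fin 3 → ℤ)
    (hc : ∀ i, c i ≠ 0) : Solv R c := by
  classical
  set P : ℕ := ∏ i, (c i).natAbs with hP
  have hP0 : 0 < P := Finset.prod_pos fun i _ => Int.natAbs_pos.2 (hc i)
  have hdiv : ∀ i, (c i).natAbs ∣ P := fun i => Finset.dvd_prod_of_mem _ (Finset.mem_univ i)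
  refine ⟨2 * M * P, by positivity, fun N hN hd B => ?_⟩
  obtain ⟨r, rfl⟩ := hd
  have hr : 0 < r := Nat.pos_of_ne_zero (by rintro rfl; simp at hN)
  set m0 := M * r with hm0
  have hm00 : 0 < m0 := Nat.mul_pos hM hr
  obtain ⟨hq1, hq2⟩ := quot c P hP0 hdiv m0 hm00
  set mi : Fin 3 → ℕ := fun i => m0 * (P / (c i).natAbs) with hmi
  have hMmi : ∀ i, M ∣ mi i := fun i => (Dvd.intro _ rfl : M ∣ m0).trans (hq2 i).2
  choose L hL using fun i => h (mi i) (hq2 i).1 (hMmi i)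
  choose L2 hL2 using fun i => h (2 * mi i) (Nat.mul_pos two_pos (hq2 i).1)
    ((hMmi i).trans (Dvd.intro_left _ rfl))
  set s : ℕ := ∑ i, L i + 2 * (∑ i, L2 i + 3) + (B + 3) with hs
  have hLs : ∀ i, L i ≤ s := fun i => by
    have := Finset.single_le_sum (f := L) (fun j _ => Nat.zero_le _) (Finset.mem_univ i)
    omega
  set G : Fin 3 → Set ℕ := fun i => {k | mi i * k ∈ R} with hG
  have hd : ∀ i, ∀ u l : ℕ, s ≤ l → 49 * l ≤ 100 * (nwin (G i) u l).card :=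
    fun i u l hl => hL i l ((hLs i).trans hl) u
  have hev : ∀ i, ∀ u : ℕ, ∃ k ∈ G i, u < k ∧ k ≤ u + s ∧ Even k := by
    intro i u
    have h2 := Finset.single_le_sum (f := L2) (fun j _ => Nat.zero_le _) (Finset.mem_univ i)
    have h1 := hL2 i (L2 i + 3) (by omega) (u / 2)
    obtain ⟨k, hk⟩ := Finset.card_pos.1
      (by omega : 0 < (nwin {k | 2 * mi i * k ∈ R} (u / 2) (L2 i + 3)).card)
    obtain ⟨⟨h3, h4⟩, h5⟩ := mem_nwin.1 hk
    refine ⟨2 * k, ?_, by omega, by omega, even_two_mul k⟩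
    change mi i * (2 * k) ∈ R
    have : mi i * (2 * k) = 2 * mi i * k := by ring
    rw [this]
    exact h5
  set μ : ℕ := ∑ i, mi i with hμ
  have hμi : ∀ i, mi i ≤ μ := fun i =>
    Finset.single_le_sum (f := mi) (fun j _ => Nat.zero_le _) (Finset.mem_univ i)
  refine ⟨μ * (400 * s + 1), fun x hx n hn hxn => ?_⟩
  obtain ⟨n', rfl⟩ := hn
  have hnn : ((2 * M * P * r : ℕ) : ℤ) * n' = ((m0 * P : ℕ) : ℤ) * (2 * n') := by
    rw [hm0]; push_cast; ring
  rw [hnn] at hxn ⊢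
  have hround := round (m0 * P) (Nat.mul_pos hm00 hP0) mi c hq1 x (2 * n') B hxn
  obtain ⟨k, hk1, hk2⟩ := three G s (B + 3) (by omega) (by omega) hd hev (fun i => Int.sign (c i))
    (fun i => x i / mi i) (fun i => sign_cases (hc i)) (fun i => by
      rw [Nat.le_div_iff_mul_le (hq2 i).1]
      refine le_trans ?_ (hx i)
      rw [mul_comm]
      exact Nat.mul_le_mul (hμi i) (by omega)) n' (by
      refine hround.trans ?_
      push_cast
      linarith)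
  refine ⟨fun i => mi i * k i, fun i => ⟨(hk1 i).1, ?_⟩, ?_⟩
  · have h1 := scale (hk1 i).2 (hq2 i).1
    refine h1.trans ?_
    push_cast
    have h2 : (mi i : ℤ) ≤ μ := by exact_mod_cast hμi i
    have h3 : (0 : ℤ) ≤ s := by positivity
    apply mul_le_mul h2 (by linarith) (by positivity) (by positivity)
  · rw [← hk2, Finset.mul_sum]
    refine Finset.sum_congr rfl fun i _ => ?_
    have h3 : ((m0 * P : ℕ) : ℤ) * Int.sign (c i) = c i * (mi i : ℤ) := by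
      rw [← hq1 i]
      push_cast
      calc |c i| * ((m0 : ℤ) * ((P : ℤ) / |c i|)) * Int.sign (c i)
          = (Int.sign (c i) * |c i|) * ((m0 : ℤ) * ((P : ℤ) / |c i|)) := by ring
        _ = c i * ((mi i : ℕ) : ℤ) := by
            rw [Int.sign_mul_abs, hmi]
            push_cast
            rfl
    push_cast at h3 ⊢
    linear_combination (-(k i : ℤ)) * h3

theorem solv_two {R : Set ℕ} {M : ℕ} (hM : 0 < M) {δ : ℝ} (hδ : 0 < δ) (h : More R M δ)
    (c : Fin 2 → ℤ) (hc : ∀ i, c i ≠ 0) : Solv R c := by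
  classical
  set P : ℕ := ∏ i, (c i).natAbs with hP
  have hP0 : 0 < P := Finset.prod_pos fun i _ => Int.natAbs_pos.2 (hc i)
  have hdiv : ∀ i, (c i).natAbs ∣ P := fun i => Finset.dvd_prod_of_mem _ (Finset.mem_univ i)
  refine ⟨M * P, by positivity, fun N hN hd B => ?_⟩
  obtain ⟨r, rfl⟩ := hd
  have hr : 0 < r := Nat.pos_of_ne_zero (by rintro rfl; simp at hN)
  set m0 := M * r with hm0
  have hm00 : 0 < m0 := Nat.mul_pos hM hr
  obtain ⟨hq1, hq2⟩ := quot c P hP0 hdiv m0 hm00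
  set mi : Fin 2 → ℕ := fun i => m0 * (P / (c i).natAbs) with hmi
  have hMmi : ∀ i, M ∣ mi i := fun i => (Dvd.intro _ rfl : M ∣ m0).trans (hq2 i).2
  choose L hL using fun i => h (mi i) (hq2 i).1 (hMmi i)
  set s : ℕ := ∑ i, L i + (B + 3) with hs
  have hLs : ∀ i, L i ≤ s := fun i => by
    have := Finset.single_le_sum (f := L) (fun j _ => Nat.zero_le _) (Finset.mem_univ i)
    omega
  set G : Fin 2 → Set ℕ := fun i => {k | mi i * k ∈ R} with hG
  have hd : ∀ i, ∀ u l : ℕ, s ≤ l → (1 / 2 + δ) * l ≤ ((nwin (G i) u l).card : ℝ) :=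
    fun i u l hl => hL i l ((hLs i).trans hl) u
  set μ : ℕ := ∑ i, mi i with hμ
  have hμi : ∀ i, mi i ≤ μ := fun i =>
    Finset.single_le_sum (f := mi) (fun j _ => Nat.zero_le _) (Finset.mem_univ i)
  refine ⟨μ * (4 * s + 1), fun x hx n hn hxn => ?_⟩
  obtain ⟨n', rfl⟩ := hn
  have hnn : ((M * P * r : ℕ) : ℤ) * n' = ((m0 * P : ℕ) : ℤ) * n' := by
    rw [hm0]; push_cast; ring
  rw [hnn] at hxn ⊢
  have hround := round (m0 * P) (Nat.mul_pos hm00 hP0) mi c hq1 x n' B hxn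
  obtain ⟨k, hk1, hk2⟩ := two G s (B + 2) (by omega) (by omega) δ hδ hd (fun i => Int.sign (c i))
    (fun i => x i / mi i) (fun i => sign_cases (hc i)) (fun i => by
      rw [Nat.le_div_iff_mul_le (hq2 i).1]
      refine le_trans ?_ (hx i)
      rw [mul_comm]
      exact Nat.mul_le_mul (hμi i) (by omega)) n' (by
      refine hround.trans ?_
      push_cast
      linarith)
  refine ⟨fun i => mi i * k i, fun i => ⟨(hk1 i).1, ?_⟩, ?_⟩
  · have h1 := scale (hk1 i).2 (hq2 i).1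
    refine h1.trans ?_
    push_cast
    have h2 : (mi i : ℤ) ≤ μ := by exact_mod_cast hμi i
    have h3 : (0 : ℤ) ≤ s := by positivity
    apply mul_le_mul h2 (by linarith) (by positivity) (by positivity)
  · rw [← hk2, Finset.mul_sum]
    refine Finset.sum_congr rfl fun i _ => ?_
    have h3 : ((m0 * P : ℕ) : ℤ) * Int.sign (c i) = c i * (mi i : ℤ) := by
      rw [← hq1 i]
      push_cast
      calc |c i| * ((m0 : ℤ) * ((P : ℤ) / |c i|)) * Int.sign (c i)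
          = (Int.sign (c i) * |c i|) * ((m0 : ℤ) * ((P : ℤ) / |c i|)) := by ring
        _ = c i * ((mi i : ℕ) : ℤ) := by
            rw [Int.sign_mul_abs, hmi]
            push_cast
            rfl
    push_cast at h3 ⊢
    linear_combination (-(k i : ℤ)) * h3

/-- **Linear equations in at least three variables.** -/
theorem solv_half {R : Set ℕ} {M : ℕ} (hM : 0 < M) (h : Half R M) (r : ℕ) (hr : 3 ≤ r) :
    ∀ c : Fin r → ℤ, (∀ i, c i ≠ 0) → Solv R c := by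
  induction r, hr using Nat.le_induction with
  | base => exact fun c hc => solv_three hM h c hc
  | succ r _ ih => exact fun c hc => Solv.succ hM h.syn c (ih _ fun i => hc _)

/-- **Linear equations in at least two variables.** -/
theorem solv_more {R : Set ℕ} {M : ℕ} (hM : 0 < M) {δ : ℝ} (hδ : 0 < δ) (h : More R M δ) (r : ℕ)
    (hr : 2 ≤ r) : ∀ c : Fin r → ℤ, (∀ i, c i ≠ 0) → Solv R c := by
  induction r, hr using Nat.le_induction with
  | base => exact fun c hc => solv_two hM hδ h c hc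
  | succ r _ ih => exact fun c hc => Solv.succ hM (h.syn hδ) c (ih _ fun i => hc _)

end Pool.Agent.Q84.PG
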