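import Mathlib
set_option autoImplicit false

/-!
# Sets of multiplicative density at least one half

A finite set of positive integers is almost invariant if most of its elements stay in it after
multiplication by small numbers. A set `G` has density at least one half if it contains almost one half
of every almost invariant set. Either every positive rational number is of the form `a b / c` with
`a, b, c` in `G`, or a nontrivial completely multiplicative function with the values `± 1` is constant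
on `G`, and `G` contains almost all numbers with this value of the function.
-/

namespace Pool.Agent.Q84.PG

open Finset

/-- almost invariant -/
def MInv (K : ℕ) (F : Finset ℕ) : Prop :=
  ∀ k, 1 ≤ k → k ≤ K → K * (F.filter (fun n => k * n ∉ F)).card ≤ F.card

open scoped Classical in
/-- null sets -/
def Nul (B : Set ℕ) : Prop :=
  ∀ ε : ℝ, 0 < ε → ∃ K : ℕ, 1 ≤ K ∧ ∀ F : Finset ℕ, (∀ n ∈ F, 1 ≤ n) → MInv K F →
    ((F.filter (· ∈ B)).card : ℝ) ≤ ε * F.card

open scoped Classical in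
/-- density at least one half -/
def Dh (A : Set ℕ) : Prop :=
  ∀ ε : ℝ, 0 < ε → ∃ K : ℕ, 1 ≤ K ∧ ∀ F : Finset ℕ, (∀ n ∈ F, 1 ≤ n) → MInv K F →
    (1 / 2 - ε) * (F.card : ℝ) ≤ ((F.filter (· ∈ A)).card : ℝ)

lemma MInv.mono {K K' : ℕ} {F : Finset ℕ} (h : MInv K' F) (hK : K ≤ K') : MInv K F :=
  fun k h1 h2 => (Nat.mul_le_mul_right _ hK).trans (h k h1 (h2.trans hK))

lemma MInv.image {K : ℕ} {F : Finset ℕ} (h : MInv K F) {m : ℕ} (hm : 1 ≤ m) :
    MInv K (F.image (fun n => m * n)) := by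
  classical
  have hinj : Function.Injective (fun n : ℕ => m * n) := fun a b hab =>
    Nat.eq_of_mul_eq_mul_left hm hab
  intro k h1 h2
  have h3 := h k h1 h2
  rw [Finset.card_image_of_injective _ hinj]
  have h4 : (F.image (fun n => m * n)).filter (fun n => k * n ∉ F.image (fun n => m * n)) =
      (F.filter (fun n => k * n ∉ F)).image (fun n => m * n) := by
    ext z
    simp only [Finset.mem_filter, Finset.mem_image]
    constructor
    · rintro ⟨⟨a, ha, rfl⟩, hz⟩
      refine ⟨a, ⟨ha, fun hka => hz ⟨k * a, hka, by ring⟩⟩, rfl⟩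
    · rintro ⟨a, ⟨ha, hka⟩, rfl⟩
      refine ⟨⟨a, ha, rfl⟩, ?_⟩
      rintro ⟨b, hb, hb'⟩
      apply hka
      have : b = k * a := by
        apply hinj
        simp only
        rw [hb']; ring
      rwa [this] at hb
  rw [h4, Finset.card_image_of_injective _ hinj]
  exact h3

/-- most elements of an almost invariant set are multiples -/
lemma few_not_mul {K : ℕ} {F : Finset ℕ} (h : MInv K F) {k : ℕ} (h1 : 1 ≤ k) (h2 : k ≤ K) :
    K * (F.filter (fun z => ¬ ∃ n ∈ F, k * n = z)).card ≤ F.card := by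
  classical
  have hinj : Function.Injective (fun n : ℕ => k * n) := fun a b hab =>
    Nat.eq_of_mul_eq_mul_left h1 hab
  refine le_trans (Nat.mul_le_mul_left _ ?_) (h k h1 h2)
  have e1 : (F.filter (fun n => k * n ∈ F)).card + (F.filter (fun n => k * n ∉ F)).card = F.card :=
    Finset.card_filter_add_card_filter_not _
  have e2 : (F.filter (fun z => ∃ n ∈ F, k * n = z)).card +
      (F.filter (fun z => ¬ ∃ n ∈ F, k * n = z)).card = F.card :=
    Finset.card_filter_add_card_filter_not _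
  have e3 : (F.filter (fun n => k * n ∈ F)).card = (F.filter (fun z => ∃ n ∈ F, k * n = z)).card := by
    rw [← Finset.card_image_of_injective _ hinj]
    congr 1
    ext z
    simp only [Finset.mem_filter, Finset.mem_image]
    constructor
    · rintro ⟨a, ⟨ha, hka⟩, rfl⟩
      exact ⟨hka, a, ha, rfl⟩
    · rintro ⟨hz, a, ha, rfl⟩
      exact ⟨a, ⟨ha, hz⟩, rfl⟩
  omega

lemma Nul.mono {A B : Set ℕ} (h : Nul B) (hAB : ∀ n, 1 ≤ n → n ∈ A → n ∈ B) : Nul A := by
  classical
  intro ε hε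
  obtain ⟨K, hK, hF⟩ := h ε hε
  refine ⟨K, hK, fun F h1 h2 => le_trans ?_ (hF F h1 h2)⟩
  have : (F.filter (· ∈ A)).card ≤ (F.filter (· ∈ B)).card := by
    apply Finset.card_le_card
    intro z hz
    rw [Finset.mem_filter] at hz ⊢
    exact ⟨hz.1, hAB z (h1 z hz.1) hz.2⟩
  exact_mod_cast this

lemma Nul.union {A B : Set ℕ} (hA : Nul A) (hB : Nul B) : Nul (A ∪ B) := by
  classical
  intro ε hε
  obtain ⟨K, hK, hF⟩ := hA (ε / 2) (by positivity)
  obtain ⟨K', hK', hF'⟩ := hB (ε / 2) (by positivity)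
  refine ⟨max K K', le_max_of_le_left hK, fun F h1 h2 => ?_⟩
  have e1 := hF F h1 (h2.mono (le_max_left _ _))
  have e2 := hF' F h1 (h2.mono (le_max_right _ _))
  have e3 : (F.filter (· ∈ A ∪ B)).card ≤ (F.filter (· ∈ A)).card + (F.filter (· ∈ B)).card := by
    refine le_trans (Finset.card_le_card ?_) (Finset.card_union_le _ _)
    intro z hz
    rw [Finset.mem_filter] at hz
    rw [Finset.mem_union, Finset.mem_filter, Finset.mem_filter]
    rcases hz.2 with h | h
    · exact Or.inl ⟨hz.1, h⟩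
    · exact Or.inr ⟨hz.1, h⟩
  have e4 : ((F.filter (· ∈ A ∪ B)).card : ℝ) ≤
      ((F.filter (· ∈ A)).card : ℝ) + ((F.filter (· ∈ B)).card : ℝ) := by exact_mod_cast e3
  have e5 : ((F.filter (· ∈ A ∪ B)).card : ℝ) ≤ ε * F.card := by linarith
  convert e5

lemma Nul.empty : Nul ∅ := by
  classical
  intro ε hε
  refine ⟨1, le_rfl, fun F _ _ => ?_⟩
  simp only [Set.mem_empty_iff_false, Finset.filter_false, Finset.card_empty, Nat.cast_zero]
  positivity

lemma Nul.biUnion {ι : Type} (D : Finset ι) (B : ι → Set ℕ) (h : ∀ d ∈ D, Nul (B d)) :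
    Nul {n | ∃ d ∈ D, n ∈ B d} := by
  classical
  induction D using Finset.induction_on with
  | empty => simpa using Nul.empty
  | insert a s ha ih =>
    have h1 := ih fun d hd => h d (Finset.mem_insert_of_mem hd)
    have h2 := h a (Finset.mem_insert_self a s)
    refine (h2.union h1).mono fun n _ hn => ?_
    obtain ⟨d, hd, hn⟩ := hn
    rw [Finset.mem_insert] at hd
    rcases hd with rfl | hd
    · exact Or.inl hn
    · exact Or.inr ⟨d, hd, hn⟩

/-- large parameters -/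
lemma large {K : ℕ} (k : ℕ) (ε : ℝ) (hε : 0 < ε) :
    ∃ K' : ℕ, K ≤ K' ∧ k ≤ K' ∧ 1 ≤ K' ∧ ∀ a b : ℕ, K' * a ≤ b → (a : ℝ) ≤ ε * b := by
  obtain ⟨m, hm⟩ := exists_nat_gt (1 / ε)
  refine ⟨max (max K k) (max 1 m), le_max_of_le_left (le_max_left _ _),
    le_max_of_le_left (le_max_right _ _), le_max_of_le_right (le_max_left _ _), fun a b hab => ?_⟩
  have h1 : m * a ≤ b := (Nat.mul_le_mul_right _ (le_max_of_le_right (le_max_right _ _))).trans hab
  have h2 : (m : ℝ) * a ≤ b := by exact_mod_cast h1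
  have h3 : 1 < ε * m := by
    rw [div_lt_iff₀ hε] at hm
    linarith
  have h4 : (0 : ℝ) ≤ a := by positivity
  nlinarith

/-- dilations of null sets -/
lemma Nul.dil {B : Set ℕ} (h : Nul B) {k : ℕ} (hk : 1 ≤ k) : Nul {n | k * n ∈ B} := by
  classical
  have hinj : Function.Injective (fun n : ℕ => k * n) := fun a b hab =>
    Nat.eq_of_mul_eq_mul_left hk hab
  intro ε hε
  obtain ⟨K, hK, hF⟩ := h (ε / 2) (by positivity)
  obtain ⟨K', h1, h2, h3, h4⟩ := large (K := K) k (ε / 2) (by positivity)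
  refine ⟨K', h3, fun F hF1 hF2 => ?_⟩
  have e1 := hF F hF1 (hF2.mono h1)
  have e2 := h4 _ _ (hF2 k hk h2)
  have e3 : (F.filter (· ∈ {n | k * n ∈ B})).card ≤
      (F.filter (· ∈ B)).card + (F.filter (fun n => k * n ∉ F)).card := by
    have : F.filter (· ∈ {n | k * n ∈ B}) ⊆
        (F.filter (fun n => k * n ∈ F ∧ k * n ∈ B)) ∪ (F.filter (fun n => k * n ∉ F)) := by
      intro z hz
      rw [Finset.mem_filter] at hz
      rw [Finset.mem_union, Finset.mem_filter, Finset.mem_filter]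
      by_cases h5 : k * z ∈ F
      · exact Or.inl ⟨hz.1, h5, hz.2⟩
      · exact Or.inr ⟨hz.1, h5⟩
    refine (Finset.card_le_card this).trans ((Finset.card_union_le _ _).trans ?_)
    refine Nat.add_le_add_right ?_ _
    rw [← Finset.card_image_of_injective _ hinj]
    apply Finset.card_le_card
    intro z hz
    rw [Finset.mem_image] at hz
    obtain ⟨a, ha, rfl⟩ := hz
    rw [Finset.mem_filter] at ha ⊢
    exact ha.2
  have e4 : ((F.filter (· ∈ {n | k * n ∈ B})).card : ℝ) ≤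
      ((F.filter (· ∈ B)).card : ℝ) + ((F.filter (fun n => k * n ∉ F)).card : ℝ) := by
    exact_mod_cast e3
  linarith

lemma Nul.undil {B : Set ℕ} {k : ℕ} (hk : 1 ≤ k) (h : Nul {n | k * n ∈ B}) : Nul B := by
  classical
  have hinj : Function.Injective (fun n : ℕ => k * n) := fun a b hab =>
    Nat.eq_of_mul_eq_mul_left hk hab
  intro ε hε
  obtain ⟨K, hK, hF⟩ := h (ε / 2) (by positivity)
  obtain ⟨K', h1, h2, h3, h4⟩ := large (K := K) k (ε / 2) (by positivity)
  refine ⟨K', h3, fun F hF1 hF2 => ?_⟩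
  have e1 := hF F hF1 (hF2.mono h1)
  have e2 := h4 _ _ (few_not_mul hF2 hk h2)
  have e3 : (F.filter (· ∈ B)).card ≤ (F.filter (· ∈ {n | k * n ∈ B})).card +
      (F.filter (fun z => ¬ ∃ n ∈ F, k * n = z)).card := by
    have : F.filter (· ∈ B) ⊆ ((F.filter (· ∈ {n | k * n ∈ B})).image (fun n => k * n)) ∪
        (F.filter (fun z => ¬ ∃ n ∈ F, k * n = z)) := by
      intro z hz
      rw [Finset.mem_filter] at hz
      rw [Finset.mem_union, Finset.mem_filter, Finset.mem_image]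
      by_cases h5 : ∃ n ∈ F, k * n = z
      · obtain ⟨n, hn, rfl⟩ := h5
        exact Or.inl ⟨n, Finset.mem_filter.2 ⟨hn, hz.2⟩, rfl⟩
      · exact Or.inr ⟨hz.1, h5⟩
    refine (Finset.card_le_card this).trans ((Finset.card_union_le _ _).trans ?_)
    rw [Finset.card_image_of_injective _ hinj]
  have e4 : ((F.filter (· ∈ B)).card : ℝ) ≤ ((F.filter (· ∈ {n | k * n ∈ B})).card : ℝ) +
      ((F.filter (fun z => ¬ ∃ n ∈ F, k * n = z)).card : ℝ) := by
    exact_mod_cast e3
  linarith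

lemma Dh.dil {A : Set ℕ} (h : Dh A) {k : ℕ} (hk : 1 ≤ k) : Dh {n | k * n ∈ A} := by
  classical
  have hinj : Function.Injective (fun n : ℕ => k * n) := fun a b hab =>
    Nat.eq_of_mul_eq_mul_left hk hab
  intro ε hε
  obtain ⟨K, hK, hF⟩ := h (ε / 2) (by positivity)
  obtain ⟨K', h1, h2, h3, h4⟩ := large (K := K) k (ε / 2) (by positivity)
  refine ⟨K', h3, fun F hF1 hF2 => ?_⟩
  have e1 := hF F hF1 (hF2.mono h1)
  have e2 := h4 _ _ (few_not_mul hF2 hk h2)
  have e3 : (F.filter (· ∈ A)).card ≤ (F.filter (· ∈ {n | k * n ∈ A})).card +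
      (F.filter (fun z => ¬ ∃ n ∈ F, k * n = z)).card := by
    have : F.filter (· ∈ A) ⊆ ((F.filter (· ∈ {n | k * n ∈ A})).image (fun n => k * n)) ∪
        (F.filter (fun z => ¬ ∃ n ∈ F, k * n = z)) := by
      intro z hz
      rw [Finset.mem_filter] at hz
      rw [Finset.mem_union, Finset.mem_filter, Finset.mem_image]
      by_cases h5 : ∃ n ∈ F, k * n = z
      · obtain ⟨n, hn, rfl⟩ := h5
        exact Or.inl ⟨n, Finset.mem_filter.2 ⟨hn, hz.2⟩, rfl⟩
      · exact Or.inr ⟨hz.1, h5⟩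
    refine (Finset.card_le_card this).trans ((Finset.card_union_le _ _).trans ?_)
    rw [Finset.card_image_of_injective _ hinj]
  have e4 : ((F.filter (· ∈ A)).card : ℝ) ≤ ((F.filter (· ∈ {n | k * n ∈ A})).card : ℝ) +
      ((F.filter (fun z => ¬ ∃ n ∈ F, k * n = z)).card : ℝ) := by
    exact_mod_cast e3
  linarith

/-- existence of almost invariant sets -/
def HasInv : Prop := ∀ K : ℕ, ∃ F : Finset ℕ, F.Nonempty ∧ (∀ n ∈ F, 1 ≤ n) ∧ MInv K F

lemma not_nul_all (hI : HasInv) {B : Set ℕ} (hB : ∀ n, 1 ≤ n → n ∈ B) : ¬ Nul B := by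
  classical
  intro h
  obtain ⟨K, hK, hF⟩ := h (1 / 2) (by norm_num)
  obtain ⟨F, hne, h1, h2⟩ := hI K
  have := hF F h1 h2
  rw [Finset.filter_true_of_mem fun n hn => hB n (h1 n hn)] at this
  have h3 : (0 : ℝ) < F.card := by exact_mod_cast hne.card_pos
  linarith

/-- two disjoint sets of density one half -/
lemma disj_two {A B : Set ℕ} (hA : Dh A) (hB : Dh B) (hd : ∀ n, 1 ≤ n → n ∈ A → n ∉ B) :
    Nul {n | n ∉ A ∧ n ∉ B} := by
  classical
  intro ε hε
  obtain ⟨K, hK, hF⟩ := hA (ε / 2) (by positivity)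
  obtain ⟨K', hK', hF'⟩ := hB (ε / 2) (by positivity)
  refine ⟨max K K', le_max_of_le_left hK, fun F h1 h2 => ?_⟩
  have e1 := hF F h1 (h2.mono (le_max_left _ _))
  have e2 := hF' F h1 (h2.mono (le_max_right _ _))
  have e3 : (F.filter (· ∈ A)).card + (F.filter (· ∈ B)).card +
      (F.filter (· ∈ {n | n ∉ A ∧ n ∉ B})).card ≤ F.card := by
    rw [← Finset.card_union_of_disjoint, ← Finset.card_union_of_disjoint]
    · apply Finset.card_le_card
      intro z hz
      simp only [Finset.mem_union, Finset.mem_filter] at hz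
      rcases hz with (hz | hz) | hz
      · exact hz.1
      · exact hz.1
      · exact hz.1
    · rw [Finset.disjoint_left]
      intro z hz hz'
      simp only [Finset.mem_union, Finset.mem_filter, Set.mem_ofPred_eq] at hz hz'
      rcases hz with hz | hz
      · exact hz'.2.1 hz.2
      · exact hz'.2.2 hz.2
    · rw [Finset.disjoint_left]
      intro z hz hz'
      simp only [Finset.mem_filter] at hz hz'
      exact hd z (h1 z hz.1) hz.2 hz'.2
  have e4 : ((F.filter (· ∈ A)).card : ℝ) + ((F.filter (· ∈ B)).card : ℝ) +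
      ((F.filter (· ∈ {n | n ∉ A ∧ n ∉ B})).card : ℝ) ≤ F.card := by exact_mod_cast e3
  have e5 : ((F.filter (· ∈ {n | n ∉ A ∧ n ∉ B})).card : ℝ) ≤ ε * F.card := by linarith
  convert e5

/-- three disjoint sets of density one half do not exist -/
lemma disj_three (hI : HasInv) {A B C : Set ℕ} (hA : Dh A) (hB : Dh B) (hC : Dh C)
    (h1 : ∀ n, 1 ≤ n → n ∈ A → n ∉ B) (h2 : ∀ n, 1 ≤ n → n ∈ A → n ∉ C)
    (h3 : ∀ n, 1 ≤ n → n ∈ B → n ∉ C) : False := by
  classical
  have hN := disj_two hA hB h1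
  have hC' : Nul C := hN.mono fun n hn hnC =>
    ⟨fun h => h2 n hn h hnC, fun h => h3 n hn h hnC⟩
  obtain ⟨K, hK, hF⟩ := hC (1 / 4) (by norm_num)
  obtain ⟨K', hK', hF'⟩ := hC' (1 / 8) (by norm_num)
  obtain ⟨F, hne, h4, h5⟩ := hI (max K K')
  have e1 := hF F h4 (h5.mono (le_max_left _ _))
  have e2 := hF' F h4 (h5.mono (le_max_right _ _))
  have h6 : (0 : ℝ) < F.card := by exact_mod_cast hne.card_pos
  linarith

/-- the multipliers `a` and `b` see the same set -/
def Eqv (G : Set ℕ) (a b : ℕ) : Prop := Nul {n | ¬ (a * n ∈ G ↔ b * n ∈ G)}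

lemma Eqv.refl (G : Set ℕ) (a : ℕ) : Eqv G a a := by
  refine Nul.empty.mono fun n _ hn => ?_
  exact absurd Iff.rfl hn

lemma Eqv.symm {G : Set ℕ} {a b : ℕ} (h : Eqv G a b) : Eqv G b a :=
  h.mono fun _ _ hn h' => hn h'.symm

lemma Eqv.trans {G : Set ℕ} {a b c : ℕ} (h : Eqv G a b) (h' : Eqv G b c) : Eqv G a c := by
  refine (h.union h').mono fun n _ hn => ?_
  by_contra hcon
  simp only [Set.mem_union, Set.mem_ofPred_eq, not_or, not_not] at hcon
  exact hn (hcon.1.trans hcon.2)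

lemma Eqv.mul {G : Set ℕ} {a b k : ℕ} (hk : 1 ≤ k) (h : Eqv G a b) : Eqv G (k * a) (k * b) := by
  have := Nul.dil h hk
  refine this.mono fun n _ hn => ?_
  simp only [Set.mem_ofPred_eq] at hn ⊢
  rwa [show a * (k * n) = k * a * n by ring, show b * (k * n) = k * b * n by ring]

lemma Eqv.cancel {G : Set ℕ} {a b k : ℕ} (hk : 1 ≤ k) (h : Eqv G (k * a) (k * b)) : Eqv G a b := by
  refine Nul.undil hk (h.mono fun n _ hn => ?_)
  simp only [Set.mem_ofPred_eq] at hn ⊢
  rwa [show a * (k * n) = k * a * n by ring, show b * (k * n) = k * b * n by ring] at hn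

/-- the multiplicative ternary theorem -/
theorem dichotomy (hI : HasInv) (G : Set ℕ) (hG : Dh G) (hpos : ∀ n ∈ G, 1 ≤ n) :
    (∀ u v : ℕ, 1 ≤ u → 1 ≤ v → ∃ a ∈ G, ∃ b ∈ G, ∃ c ∈ G, v * (a * b) = u * c) ∨
    ∃ χ : ℕ → ℤ, (∀ n, 1 ≤ n → χ n = 1 ∨ χ n = -1) ∧
      (∀ m n, 1 ≤ m → 1 ≤ n → χ (m * n) = χ m * χ n) ∧ (∃ n, 1 ≤ n ∧ χ n = -1) ∧
      ∃ e : ℤ, (∀ g ∈ G, χ g = e) ∧ Nul {n | χ n = e ∧ n ∉ G} ∧
      ∀ u v : ℕ, 1 ≤ u → 1 ≤ v → χ u * χ v = e →
        ∃ a ∈ G, ∃ b ∈ G, ∃ c ∈ G, v * (a * b) = u * c := by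
  classical
  by_cases hall : ∀ u v : ℕ, 1 ≤ u → 1 ≤ v → ∃ a ∈ G, ∃ b ∈ G, ∃ c ∈ G, v * (a * b) = u * c
  · exact Or.inl hall
  right
  push Not at hall
  obtain ⟨u, v, hu, hv, hno⟩ := hall
  -- a member
  obtain ⟨a0, ha0⟩ : ∃ a0, a0 ∈ G := by
    by_contra hcon
    push Not at hcon
    obtain ⟨K, hK, hF⟩ := hG (1 / 4) (by norm_num)
    obtain ⟨F, hne, h1, h2⟩ := hI K
    have := hF F h1 h2
    rw [Finset.filter_false_of_mem fun n _ => hcon n] at this
    have h3 : (0 : ℝ) < F.card := by exact_mod_cast hne.card_pos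
    simp only [Finset.card_empty, Nat.cast_zero] at this
    linarith
  have hdis : ∀ a ∈ G, ∀ n, n ∈ {n | u * n ∈ G} → n ∉ {n | (v * a) * n ∈ G} := by
    intro a ha n h1 h2
    exact hno a ha (u * n) h1 ((v * a) * n) h2 (by ring)
  have hnull : ∀ a ∈ G, Nul {n | n ∉ {n | u * n ∈ G} ∧ n ∉ {n | (v * a) * n ∈ G}} := by
    intro a ha
    exact disj_two (hG.dil hu) (hG.dil (Nat.mul_pos hv (hpos a ha))) fun n _ => hdis a ha n
  have heq : ∀ a ∈ G, ∀ b ∈ G, Eqv G a b := by
    intro a ha b hb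
    apply Eqv.cancel hv
    refine ((hnull a ha).union (hnull b hb)).mono fun n _ hn => ?_
    simp only [Set.mem_ofPred_eq] at hn
    simp only [Set.mem_union, Set.mem_ofPred_eq]
    have h1 := hdis a ha n
    have h2 := hdis b hb n
    simp only [Set.mem_ofPred_eq] at h1 h2
    tauto
  -- two classes
  have hcls : ∀ b1 b2 b3 : ℕ, 1 ≤ b1 → 1 ≤ b2 → 1 ≤ b3 → ¬ Eqv G b1 b2 → ¬ Eqv G b1 b3 →
      ¬ Eqv G b2 b3 → False := by
    intro b1 b2 b3 p1 p2 p3 h1 h2 h3
    have key : ∀ b b' : ℕ, ¬ Eqv G b b' → ∀ n, 1 ≤ n → n ∈ {n | b * n ∈ G} →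
        n ∉ {n | b' * n ∈ G} := by
      intro b b' h n hn m1 m2
      apply h
      have h5 := heq _ m1 _ m2
      rw [mul_comm b n, mul_comm b' n] at h5
      exact Eqv.cancel hn h5
    exact disj_three hI (hG.dil p1) (hG.dil p2) (hG.dil p3) (key _ _ h1) (key _ _ h2) (key _ _ h3)
  -- density one
  have hone : Nul {n | Eqv G n a0 ∧ n ∉ G} := by
    obtain ⟨K, hK, hF⟩ := hG (1 / 4) (by norm_num)
    obtain ⟨D, hne, h1, h2⟩ := hI K
    have hD : ∀ n, 1 ≤ n → ∃ d ∈ D, n * d ∈ G := by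
      intro n hn
      have h3 := hF (D.image (fun d => n * d)) (by
        intro z hz
        rw [Finset.mem_image] at hz
        obtain ⟨d, hd, rfl⟩ := hz
        exact Nat.mul_pos hn (h1 d hd)) (h2.image hn)
      have h4 : 0 < (D.image (fun d => n * d)).card := (hne.image _).card_pos
      have h5 : (0 : ℝ) < ((D.image (fun d => n * d)).card : ℝ) := by exact_mod_cast h4
      have h6 : 0 < ((D.image (fun d => n * d)).filter (· ∈ G)).card := by
        have : (0 : ℝ) < (((D.image (fun d => n * d)).filter (· ∈ G)).card : ℝ) := by linarith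
        exact_mod_cast this
      obtain ⟨z, hz⟩ := Finset.card_pos.1 h6
      rw [Finset.mem_filter, Finset.mem_image] at hz
      obtain ⟨⟨d, hd, rfl⟩, hz⟩ := hz
      exact ⟨d, hd, hz⟩
    have hun := Nul.biUnion (D.filter fun d => Eqv G d 1) (fun d => {n | ¬ (d * n ∈ G ↔ 1 * n ∈ G)})
      fun d hd => (Finset.mem_filter.1 hd).2
    refine hun.mono fun n hn hn' => ?_
    obtain ⟨h3, h4⟩ := hn'
    obtain ⟨d, hd, hdG⟩ := hD n hn
    have h5 : Eqv G (n * d) a0 := heq _ hdG _ ha0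
    have h6 : Eqv G (n * d) (n * 1) := by
      rw [mul_one]
      exact h5.trans h3.symm
    refine ⟨d, Finset.mem_filter.2 ⟨hd, Eqv.cancel hn h6⟩, ?_⟩
    simp only [Set.mem_ofPred_eq, one_mul]
    intro h7
    rw [mul_comm] at hdG
    exact h4 (h7.1 hdG)
  -- there is a second class
  obtain ⟨b0, hb0, hb0'⟩ : ∃ b0, 1 ≤ b0 ∧ ¬ Eqv G b0 1 := by
    by_contra hcon
    push Not at hcon
    have hco : Nul {n | 1 ≤ n ∧ n ∉ G} := by
      refine hone.mono fun n hn hn' => ⟨?_, hn'.2⟩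
      exact (hcon n hn).trans (hcon a0 (hpos a0 ha0)).symm
    have h1 := (hco.dil hu).union (hco.dil (Nat.mul_pos hv (hpos a0 ha0)))
    refine not_nul_all hI (fun n hn => ?_) h1
    simp only [Set.mem_union, Set.mem_ofPred_eq]
    have h2 := hdis a0 ha0 n
    simp only [Set.mem_ofPred_eq] at h2
    by_cases h3 : u * n ∈ G
    · right
      exact ⟨Nat.mul_pos (Nat.mul_pos hv (hpos a0 ha0)) hn, h2 h3⟩
    · left
      exact ⟨Nat.mul_pos hu hn, h3⟩
  have htwo : ∀ b, 1 ≤ b → ¬ Eqv G b 1 → Eqv G b b0 := by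
    intro b hb h
    by_contra hcon
    exact hcls b b0 1 hb hb0 le_rfl hcon h hb0'
  set χ : ℕ → ℤ := fun n => if Eqv G n 1 then 1 else -1 with hχ
  have hχ1 : ∀ n, χ n = 1 ↔ Eqv G n 1 := by
    intro n
    rw [hχ]
    simp only
    split_ifs with h
    · exact ⟨fun _ => h, fun _ => rfl⟩
    · exact ⟨fun h' => absurd h' (by norm_num), fun h' => absurd h' h⟩
  have hχ2 : ∀ n, χ n = -1 ↔ ¬ Eqv G n 1 := by
    intro n
    rw [hχ]
    simp only
    split_ifs with h
    · exact ⟨fun h' => absurd h' (by norm_num), fun h' => absurd h h'⟩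
    · exact ⟨fun _ => h, fun _ => rfl⟩
  have hχpm : ∀ n, χ n = 1 ∨ χ n = -1 := by
    intro n
    by_cases h : Eqv G n 1
    · exact Or.inl ((hχ1 n).2 h)
    · exact Or.inr ((hχ2 n).2 h)
  have hmul : ∀ m n, 1 ≤ m → 1 ≤ n → χ (m * n) = χ m * χ n := by
    intro m n hm hn
    by_cases h1 : Eqv G m 1
    · have h2 : Eqv G (m * n) n := by
        have := h1.mul hn
        rwa [mul_comm n m, mul_one] at this
      rw [(hχ1 m).2 h1, one_mul]
      by_cases h3 : Eqv G n 1
      · rw [(hχ1 n).2 h3, (hχ1 _).2 (h2.trans h3)]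
      · rw [(hχ2 n).2 h3, (hχ2 _).2 fun h4 => h3 (h2.symm.trans h4)]
    · by_cases h3 : Eqv G n 1
      · have h2 : Eqv G (m * n) m := by
          have := h3.mul hm
          rwa [mul_one] at this
        rw [(hχ2 m).2 h1, (hχ1 n).2 h3, mul_one, (hχ2 _).2 fun h4 => h1 (h2.symm.trans h4)]
      · rw [(hχ2 m).2 h1, (hχ2 n).2 h3]
        have h5 : Eqv G (m * n) 1 := by
          by_contra h6
          have h7 := htwo _ (Nat.mul_pos hm hn) h6
          have h8 := htwo m hm h1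
          have h9 : Eqv G (m * n) (m * 1) := by
            rw [mul_one]
            exact h7.trans h8.symm
          exact h3 (Eqv.cancel hm h9)
        rw [(hχ1 _).2 h5]
        norm_num
  have hcl : ∀ a b, 1 ≤ a → 1 ≤ b → χ a = χ b → Eqv G a b := by
    intro a b ha hb h
    rcases hχpm a with h1 | h1
    · exact ((hχ1 a).1 h1).trans ((hχ1 b).1 (h ▸ h1)).symm
    · exact (htwo a ha ((hχ2 a).1 h1)).trans (htwo b hb ((hχ2 b).1 (h ▸ h1))).symm
  have hcl' : ∀ a b, Eqv G a b → χ a = χ b := by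
    intro a b h
    by_cases h1 : Eqv G a 1
    · rw [(hχ1 a).2 h1, (hχ1 b).2 (h.symm.trans h1)]
    · rw [(hχ2 a).2 h1, (hχ2 b).2 fun h2 => h1 (h.trans h2)]
  have hsq : ∀ n, χ n * χ n = 1 := by
    intro n
    rcases hχpm n with h | h <;> rw [h] <;> norm_num
  have hNul : Nul {n | χ n = χ a0 ∧ n ∉ G} :=
    hone.mono fun n hn hn' => ⟨hcl n a0 hn (hpos a0 ha0) hn'.1, hn'.2⟩
  refine ⟨χ, fun n _ => hχpm n, hmul, ⟨b0, hb0, (hχ2 b0).2 hb0'⟩, χ a0,
    fun g hg => hcl' _ _ (heq g hg a0 ha0), hNul, ?_⟩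
  intro u' v' hu' hv' he
  -- a class is not null
  have hnn : ¬ Nul {n | χ n = χ a0 * χ u'} := by
    intro h
    refine not_nul_all hI (fun n hn => ?_) (h.union (h.dil hb0))
    simp only [Set.mem_union, Set.mem_ofPred_eq]
    rw [hmul b0 n hb0 hn, (hχ2 b0).2 hb0']
    rcases hχpm n with h1 | h1 <;> rcases hχpm a0 with h2 | h2 <;> rcases hχpm u' with h3 | h3 <;>
      rw [h1, h2, h3] <;> norm_num
  by_contra hcon
  push Not at hcon
  apply hnn
  refine ((hNul.dil hu').union (hNul.dil (Nat.mul_pos hv' (hpos a0 ha0)))).mono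
    fun n hn hn' => ?_
  simp only [Set.mem_ofPred_eq] at hn'
  simp only [Set.mem_union, Set.mem_ofPred_eq]
  have e1 : χ (u' * n) = χ a0 := by
    rw [hmul u' n hu' hn, hn']
    linear_combination (χ a0) * hsq u'
  have e2 : χ (v' * a0 * n) = χ a0 := by
    rw [hmul _ n (Nat.mul_pos hv' (hpos a0 ha0)) hn, hmul v' a0 hv' (hpos a0 ha0), hn']
    linear_combination (χ v' * χ u') * hsq a0 + he
  by_cases h1 : u' * n ∈ G
  · right
    refine ⟨e2, fun h2 => ?_⟩
    exact hcon a0 ha0 (u' * n) h1 (v' * a0 * n) h2 (by ring)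
  · exact Or.inl ⟨e1, h1⟩

/-- two sets of density more than one half: a common element after dilations -/
theorem ratio {δ : ℝ} (hδ : 0 < δ) (K : ℕ) (u v : ℕ) (hu : 1 ≤ u) (hv : 1 ≤ v) :
    ∃ K' : ℕ, K ≤ K' ∧ ∀ F : Finset ℕ, F.Nonempty → (∀ n ∈ F, 1 ≤ n) → MInv K' F →
      ∀ A ⊆ F, (1 / 2 + δ) * (F.card : ℝ) ≤ A.card → ∃ n ∈ F, u * n ∈ A ∧ v * n ∈ A := by
  classical
  obtain ⟨K', h1, h2, h3, h4⟩ := large (K := K) (max u v) (δ / 2) (by positivity)
  refine ⟨K', h1, fun F hne hF hinv A hA hc => ?_⟩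
  have key : ∀ k, 1 ≤ k → k ≤ K' → (1 / 2 + δ / 2) * (F.card : ℝ) ≤
      ((F.filter (fun n => k * n ∈ A)).card : ℝ) := by
    intro k hk hk'
    have hinj : Function.Injective (fun n : ℕ => k * n) := fun a b hab =>
      Nat.eq_of_mul_eq_mul_left hk hab
    have e2 := h4 _ _ (few_not_mul hinv hk hk')
    have e3 : A.card ≤ (F.filter (fun n => k * n ∈ A)).card +
        (F.filter (fun z => ¬ ∃ n ∈ F, k * n = z)).card := by
      have : A ⊆ ((F.filter (fun n => k * n ∈ A)).image (fun n => k * n)) ∪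
          (F.filter (fun z => ¬ ∃ n ∈ F, k * n = z)) := by
        intro z hz
        rw [Finset.mem_union, Finset.mem_filter, Finset.mem_image]
        by_cases h5 : ∃ n ∈ F, k * n = z
        · obtain ⟨n, hn, rfl⟩ := h5
          exact Or.inl ⟨n, Finset.mem_filter.2 ⟨hn, hz⟩, rfl⟩
        · exact Or.inr ⟨hA hz, h5⟩
      refine (Finset.card_le_card this).trans ((Finset.card_union_le _ _).trans ?_)
      rw [Finset.card_image_of_injective _ hinj]
    have e4 : (A.card : ℝ) ≤ ((F.filter (fun n => k * n ∈ A)).card : ℝ) +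
        ((F.filter (fun z => ¬ ∃ n ∈ F, k * n = z)).card : ℝ) := by
      exact_mod_cast e3
    linarith
  have k1 := key u hu ((le_max_left _ _).trans h2)
  have k2 := key v hv ((le_max_right _ _).trans h2)
  have hpos : (0 : ℝ) < F.card := by exact_mod_cast hne.card_pos
  by_contra hcon
  push Not at hcon
  have hd : Disjoint (F.filter (fun n => u * n ∈ A)) (F.filter (fun n => v * n ∈ A)) := by
    rw [Finset.disjoint_left]
    intro z hz hz'
    rw [Finset.mem_filter] at hz hz'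
    exact hcon z hz.1 hz.2 hz'.2
  have h5 : (F.filter (fun n => u * n ∈ A)).card + (F.filter (fun n => v * n ∈ A)).card ≤
      F.card := by
    rw [← Finset.card_union_of_disjoint hd]
    apply Finset.card_le_card
    intro z hz
    rw [Finset.mem_union, Finset.mem_filter, Finset.mem_filter] at hz
    rcases hz with hz | hz
    · exact hz.1
    · exact hz.1
  have h6 : ((F.filter (fun n => u * n ∈ A)).card : ℝ) + ((F.filter (fun n => v * n ∈ A)).card : ℝ)
      ≤ F.card := by exact_mod_cast h5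
  nlinarith

end Pool.Agent.Q84.PG
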