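import Pool.Agent.Q84.PG2
set_option autoImplicit false

/-!
# Almost all even numbers are sums of two elements of a set of density almost one half

If `2 u` is not a sum of two elements of `A` near `u`, then `A` is almost complementary to its
reflection in `u`. Three reflections in points `u₁, u₂, u₃` of the set `U` of such `u` have the fixed
point `u₁ - u₂ + u₃`, and an odd cycle of complementary pairs is impossible. So `U` is small.
-/

namespace Pool.Agent.Q84.PG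

open Finset

/-- the odd cycle argument -/
lemma cyc (A : Set ℤ) (w l : ℤ) (U : Finset ℤ) (hU : ∀ u ∈ U, w < u ∧ u ≤ w + l)
    (hno : ∀ u ∈ U, ∀ x, w - 2 * l < x → x ≤ w + 3 * l → x ∈ A → 2 * u - x ∉ A)
    (X : ℤ → Finset ℤ)
    (hX : ∀ u ∈ U, ∀ x, w - 2 * l < x → x ≤ w + 3 * l → x ∉ A → 2 * u - x ∉ A → x ∈ X u)
    (κ : ℕ) (hκ : ∀ u ∈ U, (X u).card ≤ κ) : U.card ≤ 3 * κ := by
  classical
  set S : Finset (ℤ × (Σ _ : ℤ, ℤ)) := U ×ˢ (U.sigma fun u => X u) with hS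
  have hScard : S.card ≤ U.card * (U.card * κ) := by
    rw [hS, Finset.card_product, Finset.card_sigma]
    refine Nat.mul_le_mul_left _ ?_
    calc ∑ u ∈ U, (X u).card ≤ ∑ _u ∈ U, κ := Finset.sum_le_sum hκ
      _ = U.card * κ := by rw [Finset.sum_const, smul_eq_mul]
  set P : Finset (ℤ × ℤ × ℤ) := U ×ˢ (U ×ˢ U) with hP
  set P1 := P.filter (fun t => t.1 - t.2.1 + t.2.2 ∈ X t.2.2) with hP1
  set P2 := P.filter (fun t => t.2.2 + t.2.1 - t.1 ∈ X t.2.1) with hP2
  set P3 := P.filter (fun t => t.1 + t.2.1 - t.2.2 ∈ X t.1) with hP3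
  have h1 : P1.card ≤ S.card := by
    refine Finset.card_le_card_of_injOn (fun t => (t.2.1, ⟨t.2.2, t.1 - t.2.1 + t.2.2⟩)) ?_ ?_
    · rintro ⟨u1, u2, u3⟩ ht
      simp only [hP1, hP, hS, Finset.coe_filter, Set.mem_ofPred_eq, Finset.mem_product,
        Finset.coe_product, Finset.mem_coe, Set.mem_prod, Finset.mem_sigma] at ht ⊢
      exact ⟨ht.1.2.1, ht.1.2.2, ht.2⟩
    · rintro ⟨u1, u2, u3⟩ _ ⟨v1, v2, v3⟩ _ he
      simp only [Prod.mk.injEq, Sigma.mk.injEq, heq_eq_eq] at he ⊢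
      omega
  have h2 : P2.card ≤ S.card := by
    refine Finset.card_le_card_of_injOn (fun t => (t.1, ⟨t.2.1, t.2.2 + t.2.1 - t.1⟩)) ?_ ?_
    · rintro ⟨u1, u2, u3⟩ ht
      simp only [hP2, hP, hS, Finset.coe_filter, Set.mem_ofPred_eq, Finset.mem_product,
        Finset.coe_product, Finset.mem_coe, Set.mem_prod, Finset.mem_sigma] at ht ⊢
      exact ⟨ht.1.1, ht.1.2.1, ht.2⟩
    · rintro ⟨u1, u2, u3⟩ _ ⟨v1, v2, v3⟩ _ he
      simp only [Prod.mk.injEq, Sigma.mk.injEq, heq_eq_eq] at he ⊢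
      omega
  have h3 : P3.card ≤ S.card := by
    refine Finset.card_le_card_of_injOn (fun t => (t.2.1, ⟨t.1, t.1 + t.2.1 - t.2.2⟩)) ?_ ?_
    · rintro ⟨u1, u2, u3⟩ ht
      simp only [hP3, hP, hS, Finset.coe_filter, Set.mem_ofPred_eq, Finset.mem_product,
        Finset.coe_product, Finset.mem_coe, Set.mem_prod, Finset.mem_sigma] at ht ⊢
      exact ⟨ht.1.2.1, ht.1.1, ht.2⟩
    · rintro ⟨u1, u2, u3⟩ _ ⟨v1, v2, v3⟩ _ he
      simp only [Prod.mk.injEq, Sigma.mk.injEq, heq_eq_eq] at he ⊢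
      omega
  have hcov : P ⊆ (P1 ∪ P2) ∪ P3 := by
    rintro ⟨u1, u2, u3⟩ ht
    have ht' : u1 ∈ U ∧ u2 ∈ U ∧ u3 ∈ U := by
      simpa [hP] using ht
    obtain ⟨m1, m2, m3⟩ := ht'
    obtain ⟨a1, a2⟩ := hU u1 m1
    obtain ⟨b1, b2⟩ := hU u2 m2
    obtain ⟨c1, c2⟩ := hU u3 m3
    set x := u1 - u2 + u3 with hx
    set y := u3 + u2 - u1 with hy
    set z := u1 + u2 - u3 with hz
    have n1 : x ∈ A → y ∉ A := by
      intro h
      have := hno u3 m3 x (by omega) (by omega) h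
      rwa [show 2 * u3 - x = y by omega] at this
    have n2 : y ∈ A → z ∉ A := by
      intro h
      have := hno u2 m2 y (by omega) (by omega) h
      rwa [show 2 * u2 - y = z by omega] at this
    have n3 : z ∈ A → x ∉ A := by
      intro h
      have := hno u1 m1 z (by omega) (by omega) h
      rwa [show 2 * u1 - z = x by omega] at this
    have k1 : x ∉ A → y ∉ A → x ∈ X u3 := fun h h' =>
      hX u3 m3 x (by omega) (by omega) h (by rwa [show 2 * u3 - x = y by omega])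
    have k2 : y ∉ A → z ∉ A → y ∈ X u2 := fun h h' =>
      hX u2 m2 y (by omega) (by omega) h (by rwa [show 2 * u2 - y = z by omega])
    have k3 : z ∉ A → x ∉ A → z ∈ X u1 := fun h h' =>
      hX u1 m1 z (by omega) (by omega) h (by rwa [show 2 * u1 - z = x by omega])
    have hmain : x ∈ X u3 ∨ y ∈ X u2 ∨ z ∈ X u1 := by
      by_cases hxA : x ∈ A
      · exact Or.inr (Or.inl (k2 (n1 hxA) fun h => n3 h hxA))
      · by_cases hyA : y ∈ A
        · exact Or.inr (Or.inr (k3 (n2 hyA) hxA))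
        · exact Or.inl (k1 hxA hyA)
    simp only [Finset.mem_union, hP1, hP2, hP3, Finset.mem_filter]
    rcases hmain with h | h | h
    · exact Or.inl (Or.inl ⟨ht, h⟩)
    · exact Or.inl (Or.inr ⟨ht, h⟩)
    · exact Or.inr ⟨ht, h⟩
  have hPc : P.card = U.card * (U.card * U.card) := by
    rw [hP, Finset.card_product, Finset.card_product]
  have h4 : P.card ≤ S.card + S.card + S.card :=
    (Finset.card_le_card hcov).trans ((Finset.card_union_le _ _).trans
      (add_le_add ((Finset.card_union_le _ _).trans (add_le_add h1 h2)) h3))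
  rw [hPc] at h4
  rcases Nat.eq_zero_or_pos U.card with h0 | h0
  · omega
  · have h5 : (U.card * U.card) * U.card ≤ (U.card * U.card) * (3 * κ) := by
      calc (U.card * U.card) * U.card = U.card * (U.card * U.card) := by ring
        _ ≤ S.card + S.card + S.card := h4
        _ ≤ U.card * (U.card * κ) + U.card * (U.card * κ) + U.card * (U.card * κ) := by gcongr
        _ = _ := by ring
    exact Nat.le_of_mul_le_mul_left h5 (Nat.mul_pos h0 h0)

/-- `2 k` is a sum of two elements of `G` within distance `R` of `k` -/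
def Rep (G : Set ℕ) (R k : ℕ) : Prop :=
  ∃ a ∈ G, ∃ b ∈ G, a + b = 2 * k ∧ |(a : ℤ) - k| ≤ R

/-- one window -/
lemma block {G : Set ℕ} {L : ℕ} {ε : ℝ} (hε : 0 ≤ ε)
    (hd : ∀ u l : ℕ, L ≤ l → (1 / 2 - ε) * l ≤ ((nwin G u l).card : ℝ)) (w l : ℕ) (hl : L ≤ l)
    (hl1 : 1 ≤ l) (hw : 3 * l ≤ w) :
    ((nwin {k | ¬ Rep G (3 * l) k} w l).card : ℝ) ≤ 30 * ε * l := by
  classical
  set A : Set ℤ := aff G 0 1 with hA
  have hmemA : ∀ z : ℤ, z ∈ A ↔ ∃ k ∈ G, (k : ℤ) = z := by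
    intro z
    rw [hA]
    unfold aff
    simp only [Set.mem_ofPred_eq, zero_add, one_mul]
  set U : Finset ℤ := (nwin {k | ¬ Rep G (3 * l) k} w l).map Nat.castEmbedding with hU
  set X : ℤ → Finset ℤ := fun u =>
    (Ioc ((w : ℤ) - 2 * l) (w + 3 * l)).filter (fun x => x ∉ A ∧ 2 * u - x ∉ A) with hX
  have hUmem : ∀ u ∈ U, ∃ k : ℕ, (k : ℤ) = u ∧ w < k ∧ k ≤ w + l ∧ ¬ Rep G (3 * l) k := by
    intro u hu
    rw [hU, Finset.mem_map] at hu
    obtain ⟨k, hk, rfl⟩ := hu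
    obtain ⟨⟨h1, h2⟩, h3⟩ := mem_nwin.1 hk
    exact ⟨k, rfl, h1, h2, h3⟩
  have hno : ∀ u ∈ U, ∀ x, (w : ℤ) - 2 * l < x → x ≤ w + 3 * l → x ∈ A → 2 * u - x ∉ A := by
    intro u hu x h1 h2 h3 h4
    obtain ⟨k, hk, h5, h6, h7⟩ := hUmem u hu
    obtain ⟨a, ha, ha'⟩ := (hmemA x).1 h3
    obtain ⟨b, hb, hb'⟩ := (hmemA _).1 h4
    apply h7
    refine ⟨a, ha, b, hb, by omega, ?_⟩
    rw [abs_le]
    push_cast
    constructor <;> omega
  have hXc : ∀ u ∈ U, ((X u).card : ℝ) ≤ 10 * ε * l := by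
    intro u hu
    obtain ⟨k, hk, h5, h6, h7⟩ := hUmem u hu
    -- the two disjoint sets
    have p1 : ∀ z : ℤ, (w : ℤ) - 2 * l < z → z ≤ (w : ℤ) - 2 * l + 5 * l → 0 < 0 + 1 * z := by
      intro z h1 h2; omega
    have p2 : ∀ z : ℤ, (w : ℤ) - 2 * l < z → z ≤ (w : ℤ) - 2 * l + 5 * l → 0 < 2 * u + -1 * z := by
      intro z h1 h2; omega
    obtain ⟨v1, hv1⟩ := aff_card G 0 1 (Or.inl rfl) ((w : ℤ) - 2 * l) (5 * l) (by omega) p1
    obtain ⟨v2, hv2⟩ := aff_card G (2 * u) (-1) (Or.inr rfl) ((w : ℤ) - 2 * l) (5 * l) (by omega) p2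
    have e5 : (5 * (l : ℤ)).toNat = 5 * l := by omega
    rw [e5] at hv1 hv2
    have q1 := hd v1 (5 * l) (by omega)
    have q2 := hd v2 (5 * l) (by omega)
    set W1 := win (aff G 0 1) ((w : ℤ) - 2 * l) (5 * l) with hW1
    set W2 := win (aff G (2 * u) (-1)) ((w : ℤ) - 2 * l) (5 * l) with hW2
    have r1 : ((nwin G v1 (5 * l)).card : ℝ) ≤ (W1.card : ℝ) := by exact_mod_cast hv1
    have r2 : ((nwin G v2 (5 * l)).card : ℝ) ≤ (W2.card : ℝ) := by exact_mod_cast hv2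
    have hm2 : ∀ z : ℤ, z ∈ aff G (2 * u) (-1) ↔ 2 * u - z ∈ A := by
      intro z
      rw [hmemA]
      unfold aff
      simp only [Set.mem_ofPred_eq]
      constructor
      · rintro ⟨k, hk, e⟩; exact ⟨k, hk, by omega⟩
      · rintro ⟨k, hk, e⟩; exact ⟨k, hk, by omega⟩
    have d1 : Disjoint W1 W2 := by
      rw [Finset.disjoint_left]
      intro z hz hz'
      obtain ⟨⟨s1, s2⟩, s3⟩ := mem_win.1 hz
      obtain ⟨_, s4⟩ := mem_win.1 hz'
      exact hno u hu z (by omega) (by omega) s3 ((hm2 z).1 s4)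
    have d2 : Disjoint (W1 ∪ W2) (X u) := by
      rw [Finset.disjoint_left]
      intro z hz hz'
      rw [hX, Finset.mem_filter] at hz'
      rw [Finset.mem_union] at hz
      rcases hz with hz | hz
      · exact hz'.2.1 (mem_win.1 hz).2
      · exact hz'.2.2 ((hm2 z).1 (mem_win.1 hz).2)
    have hsub : (W1 ∪ W2) ∪ X u ⊆ Ioc ((w : ℤ) - 2 * l) (w + 3 * l) := by
      intro z hz
      rw [Finset.mem_union, Finset.mem_union] at hz
      rcases hz with (hz | hz) | hz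
      · have := (mem_win.1 hz).1
        rw [Finset.mem_Ioc]; omega
      · have := (mem_win.1 hz).1
        rw [Finset.mem_Ioc]; omega
      · rw [hX, Finset.mem_filter] at hz
        exact hz.1
    have hc := Finset.card_le_card hsub
    rw [Finset.card_union_of_disjoint d2, Finset.card_union_of_disjoint d1, Int.card_Ioc] at hc
    have e6 : ((w : ℤ) + 3 * l - (w - 2 * l)).toNat = 5 * l := by omega
    rw [e6] at hc
    have hc' : (W1.card : ℝ) + W2.card + (X u).card ≤ 5 * l := by exact_mod_cast hc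
    push_cast at q1 q2
    linarith
  -- conclusion
  have hcard : U.card = (nwin {k | ¬ Rep G (3 * l) k} w l).card := by
    rw [hU, Finset.card_map]
  rw [← hcard]
  have h0 : 0 ≤ 10 * ε * l := by positivity
  have hκ : ∀ u ∈ U, (X u).card ≤ ⌊10 * ε * l⌋₊ := fun u hu => Nat.le_floor (hXc u hu)
  have h1 := cyc A w l U (fun u hu => by
    obtain ⟨k, hk, h5, h6, -⟩ := hUmem u hu
    constructor <;> omega) hno X (fun u hu x h1 h2 h3 h4 => by
      rw [hX, Finset.mem_filter, Finset.mem_Ioc]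
      exact ⟨⟨h1, h2⟩, h3, h4⟩) _ hκ
  have h2 : (U.card : ℝ) ≤ 3 * (⌊10 * ε * l⌋₊ : ℝ) := by exact_mod_cast h1
  have h3 := Nat.floor_le h0
  linarith

/-- all windows -/
theorem almost {G : Set ℕ} {L : ℕ} {ε : ℝ} (hε : 0 < ε)
    (hd : ∀ u l : ℕ, L ≤ l → (1 / 2 - ε) * l ≤ ((nwin G u l).card : ℝ)) :
    ∃ T : ℕ, ∀ l, T ≤ l → ∀ u : ℕ, (1 - 31 * ε) * (l : ℝ) ≤ ((nwin {k | Rep G T k} u l).card : ℝ) := by
  classical
  set l0 : ℕ := L + 1 with hl0
  have hblock : ∀ w, 3 * l0 ≤ w →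
      ((nwin {k | ¬ Rep G (3 * l0) k} w l0).card : ℝ) ≤ 30 * ε * l0 :=
    fun w hw => block hε.le hd w l0 (by omega) (by omega) hw
  have hind : ∀ m u : ℕ, ((nwin {k | ¬ Rep G (3 * l0) k} (u + 3 * l0) (m * l0)).card : ℝ) ≤
      m * (30 * ε * l0) := by
    intro m u
    induction m with
    | zero =>
      simp [nwin]
    | succ m ih =>
      have hsub : nwin {k | ¬ Rep G (3 * l0) k} (u + 3 * l0) ((m + 1) * l0) ⊆
          nwin {k | ¬ Rep G (3 * l0) k} (u + 3 * l0) (m * l0) ∪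
          nwin {k | ¬ Rep G (3 * l0) k} (u + 3 * l0 + m * l0) l0 := by
        intro k hk
        rw [Finset.mem_union, mem_nwin, mem_nwin]
        obtain ⟨⟨h1, h2⟩, h3⟩ := mem_nwin.1 hk
        by_cases h4 : k ≤ u + 3 * l0 + m * l0
        · exact Or.inl ⟨⟨h1, h4⟩, h3⟩
        · refine Or.inr ⟨⟨by omega, ?_⟩, h3⟩
          calc k ≤ u + 3 * l0 + (m + 1) * l0 := h2
            _ = u + 3 * l0 + m * l0 + l0 := by ring
      have h1 := (Finset.card_le_card hsub).trans (Finset.card_union_le _ _)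
      have h2 : ((nwin {k | ¬ Rep G (3 * l0) k} (u + 3 * l0) ((m + 1) * l0)).card : ℝ) ≤
          ((nwin {k | ¬ Rep G (3 * l0) k} (u + 3 * l0) (m * l0)).card : ℝ) +
          ((nwin {k | ¬ Rep G (3 * l0) k} (u + 3 * l0 + m * l0) l0).card : ℝ) := by
        exact_mod_cast h1
      have h3 := hblock (u + 3 * l0 + m * l0) (by
        have : 0 ≤ m * l0 := Nat.zero_le _
        omega)
      push_cast
      linarith
  obtain ⟨T0, hT0⟩ := exists_nat_gt (4 * l0 / ε)
  refine ⟨T0 + 3 * l0, fun l hl u => ?_⟩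
  have hl' : (4 * l0 : ℝ) ≤ ε * l := by
    have h1 : (T0 : ℝ) ≤ l := by exact_mod_cast (by omega : T0 ≤ l)
    rw [div_lt_iff₀ hε] at hT0
    nlinarith
  set m := (l - 3 * l0) / l0 with hm
  have hl0pos : 0 < l0 := by omega
  have hm1 : m * l0 ≤ l - 3 * l0 := Nat.div_mul_le_self _ _
  have hm2 : l - 3 * l0 < (m + 1) * l0 := by
    rw [hm, add_mul, one_mul]
    have h1 := Nat.div_add_mod (l - 3 * l0) l0
    have h2 := Nat.mod_lt (l - 3 * l0) hl0pos
    rw [mul_comm] at h1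
    omega
  -- bad elements
  have hbad : ((nwin {k | ¬ Rep G (3 * l0) k} u l).card : ℝ) ≤ 31 * ε * l := by
    have hsub : nwin {k | ¬ Rep G (3 * l0) k} u l ⊆
        (Ioc u (u + 3 * l0) ∪ nwin {k | ¬ Rep G (3 * l0) k} (u + 3 * l0) (m * l0)) ∪
        Ioc (u + 3 * l0 + m * l0) (u + 3 * l0 + m * l0 + l0) := by
      intro k hk
      obtain ⟨⟨h1, h2⟩, h3⟩ := mem_nwin.1 hk
      rw [Finset.mem_union, Finset.mem_union, Finset.mem_Ioc, Finset.mem_Ioc, mem_nwin]
      by_cases h4 : k ≤ u + 3 * l0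
      · exact Or.inl (Or.inl ⟨h1, h4⟩)
      · by_cases h5 : k ≤ u + 3 * l0 + m * l0
        · exact Or.inl (Or.inr ⟨⟨by omega, h5⟩, h3⟩)
        · refine Or.inr ⟨by omega, ?_⟩
          rw [add_mul, one_mul] at hm2
          omega
    have h1 := (Finset.card_le_card hsub).trans ((Finset.card_union_le _ _).trans
      (Nat.add_le_add_right (Finset.card_union_le _ _) _))
    rw [Nat.card_Ioc, Nat.card_Ioc] at h1
    have h2 : (nwin {k | ¬ Rep G (3 * l0) k} u l).card ≤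
        4 * l0 + (nwin {k | ¬ Rep G (3 * l0) k} (u + 3 * l0) (m * l0)).card := by omega
    have h3 : ((nwin {k | ¬ Rep G (3 * l0) k} u l).card : ℝ) ≤
        4 * l0 + ((nwin {k | ¬ Rep G (3 * l0) k} (u + 3 * l0) (m * l0)).card : ℝ) := by
      exact_mod_cast h2
    have h4 := hind m u
    have h5 : ((m * l0 : ℕ) : ℝ) ≤ l := by exact_mod_cast (by omega : m * l0 ≤ l)
    push_cast at h5
    have h6 : (m : ℝ) * (30 * ε * l0) ≤ 30 * ε * l := by
      calc (m : ℝ) * (30 * ε * l0) = 30 * ε * (m * l0) := by ring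
        _ ≤ 30 * ε * l := by gcongr
    linarith
  have htot : nwin Set.univ u l ⊆ nwin {k | ¬ Rep G (3 * l0) k} u l ∪
      nwin {k | Rep G (T0 + 3 * l0) k} u l := by
    intro k hk
    obtain ⟨h1, -⟩ := mem_nwin.1 hk
    rw [Finset.mem_union, mem_nwin, mem_nwin]
    by_cases h2 : Rep G (3 * l0) k
    · right
      refine ⟨h1, ?_⟩
      obtain ⟨a, ha, b, hb, hab, h3⟩ := h2
      refine ⟨a, ha, b, hb, hab, h3.trans ?_⟩
      exact_mod_cast Nat.le_add_left _ _
    · exact Or.inl ⟨h1, h2⟩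
  have h1 := (Finset.card_le_card htot).trans (Finset.card_union_le _ _)
  have h2 : (nwin Set.univ u l).card = l := by
    have h4 : nwin Set.univ u l = Ioc u (u + l) := by
      ext z
      simp [mem_nwin]
    rw [h4, Nat.card_Ioc]
    omega
  rw [h2] at h1
  have h3 : (l : ℝ) ≤ ((nwin {k | ¬ Rep G (3 * l0) k} u l).card : ℝ) +
      ((nwin {k | Rep G (T0 + 3 * l0) k} u l).card : ℝ) := by exact_mod_cast h1
  linarith

end Pool.Agent.Q84.PG
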