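import Mathlib
import Pool.Agent.Helper549.Kneser
set_option autoImplicit false

/-!
# Four summands: the finite group part

Let `X, Y` be nonempty subsets of `R ∋ 0` in a finite abelian group `G`, `|R|` at least about `|G| / 3`
and `|X| + |Y|` at least about `2 |G| / 3`. Then `X + Y + R + R` contains all elements `6 y`.
-/

namespace Pool.Agent.Q84.PG5

open Finset Pool.Agent.Helper549.Kneser
open scoped Pointwise

section grp

variable {G : Type*} [AddCommGroup G] [Fintype G] [DecidableEq G]

open Classical in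
lemma card_add_fs (H : AddSubgroup G) (S : Finset G) :
    (S + fs H).card = (S.image (fun x => (QuotientAddGroup.mk x : G ⧸ H))).card * (fs H).card := by
  have hm : Set.MapsTo (fun x => (QuotientAddGroup.mk x : G ⧸ H)) (↑(S + fs H) : Set G)
      (↑(S.image (fun x => (QuotientAddGroup.mk x : G ⧸ H))) : Set (G ⧸ H)) := by
    intro x hx
    rw [Finset.mem_coe, Finset.mem_add] at hx
    obtain ⟨s, hs, g, hg, rfl⟩ := hx
    rw [Finset.mem_coe, Finset.mem_image]
    refine ⟨s, hs, ?_⟩
    rw [QuotientAddGroup.eq]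
    have : -s + (s + g) = g := by abel
    rw [this]
    exact mem_fs.1 hg
  rw [Finset.card_eq_sum_card_fiberwise hm, Finset.sum_const_nat]
  intro b hb
  rw [Finset.mem_image] at hb
  obtain ⟨s, hs, rfl⟩ := hb
  have : (S + fs H).filter (fun a => (QuotientAddGroup.mk a : G ⧸ H) = QuotientAddGroup.mk s) =
      (fs H).image (fun g => s + g) := by
    ext a
    rw [Finset.mem_filter, Finset.mem_image]
    constructor
    · rintro ⟨_, h⟩
      rw [eq_comm, QuotientAddGroup.eq] at h
      exact ⟨-s + a, mem_fs.2 h, by abel⟩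
    · rintro ⟨g, hg, rfl⟩
      refine ⟨Finset.add_mem_add hs hg, ?_⟩
      rw [eq_comm, QuotientAddGroup.eq]
      have : -s + (s + g) = g := by abel
      rw [this]
      exact mem_fs.1 hg
  rw [this, Finset.card_image_of_injective _ (add_right_injective s)]

lemma fs_add_fs (H : AddSubgroup G) : fs H + fs H = fs H := by
  apply add_fs_stab
  intro g hg x
  rw [mem_fs, mem_fs]
  exact ⟨fun hx => H.add_mem hx hg, fun hx => by
    have := H.sub_mem hx hg
    rwa [add_sub_cancel_right] at this⟩

/-- Kneser's theorem for two summands of a longer sum, relative to the stabiliser of the whole sum -/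
lemma kn (A B C : Finset G) (hA : A.Nonempty) (hB : B.Nonempty) (H : AddSubgroup G)
    (hH : H = stab ((A + B) + C)) :
    (A + fs H).card + (B + fs H).card ≤ ((A + B) + fs H).card + (fs H).card := by
  have hS : ((A + B) + C) + fs H = (A + B) + C := add_fs_stab _ _ hH.le
  set P := (A + B) + fs H with hP
  have e1 : (A + fs H) + (B + fs H) = P := by
    calc (A + fs H) + (B + fs H) = (A + B) + (fs H + fs H) := by rw [add_add_add_comm]
      _ = P := by rw [fs_add_fs]
  have e2 : P + C = (A + B) + C := by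
    calc P + C = ((A + B) + C) + fs H := by rw [hP, add_assoc, add_comm (fs H) C, ← add_assoc]
      _ = (A + B) + C := hS
  have e3 : stab P = H := by
    apply le_antisymm
    · intro g hg
      rw [hH]
      apply mem_stab_of_forall
      intro x hx
      rw [← e2] at hx ⊢
      obtain ⟨p, hp, r, hr, rfl⟩ := Finset.mem_add.1 hx
      have : p + r + g = (p + g) + r := by abel
      rw [this]
      exact Finset.add_mem_add (stab_add hg hp) hr
    · intro g hg
      apply mem_stab_of_forall
      intro x hx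
      rw [hP] at hx ⊢
      obtain ⟨p, hp, r, hr, rfl⟩ := Finset.mem_add.1 hx
      rw [add_assoc p r g]
      exact Finset.add_mem_add hp (mem_fs.2 (H.add_mem (mem_fs.1 hr) hg))
  have h := kneser' (A + fs H) (B + fs H) (hA.add (fs_nonempty H)) (hB.add (fs_nonempty H))
  rw [e1, e3, add_assoc, fs_add_fs, add_assoc, fs_add_fs] at h
  exact h

omit [AddCommGroup G] [Fintype G] [DecidableEq G] in
lemma arith (x y ρ s g h cG cX cY cR PP QQ : ℕ) (hh : 0 < h) (k1 : PP + QQ ≤ s * h + h)
    (k2 : x * h + y * h ≤ PP + h) (k3 : ρ * h + ρ * h ≤ QQ + h) (c5 : cG = g * h)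
    (l1 : cX ≤ x * h) (l2 : cY ≤ y * h) (l3 : cR ≤ ρ * h) (hxy : 197 * cG ≤ 300 * (cX + cY))
    (hR : 97 * cG ≤ 300 * cR) (hx1 : 1 ≤ x) (hy1 : 1 ≤ y) (hxρ : x ≤ ρ) (hyρ : y ≤ ρ) (hsg : s < g) :
    x = ρ ∧ y = ρ ∧ g ∣ 6 := by
  have m1 : (x + y + 2 * ρ) * h ≤ (s + 3) * h := by nlinarith
  have m2 : x + y + 2 * ρ ≤ s + 3 := Nat.le_of_mul_le_mul_right m1 hh
  have m3 : (197 * g) * h ≤ (300 * (x + y)) * h := by
    calc (197 * g) * h = 197 * cG := by rw [c5]; ring
      _ ≤ 300 * (cX + cY) := hxy
      _ ≤ 300 * (x * h + y * h) := by gcongr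
      _ = (300 * (x + y)) * h := by ring
  have m4 : (97 * g) * h ≤ (300 * ρ) * h := by
    calc (97 * g) * h = 97 * cG := by rw [c5]; ring
      _ ≤ 300 * cR := hR
      _ ≤ 300 * (ρ * h) := by gcongr
      _ = (300 * ρ) * h := by ring
  have m3' := Nat.le_of_mul_le_mul_right m3 hh
  have m4' := Nat.le_of_mul_le_mul_right m4 hh
  have hg6 : g ≤ 6 := by omega
  interval_cases g <;> first | (exfalso; omega) | (refine ⟨by omega, by omega, by norm_num⟩)

lemma grp (X Y R : Finset G) (hX : X.Nonempty) (hY : Y.Nonempty) (h0 : (0 : G) ∈ R) (hXR : X ⊆ R)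
    (hYR : Y ⊆ R) (hxy : 197 * Fintype.card G ≤ 300 * (X.card + Y.card))
    (hR : 97 * Fintype.card G ≤ 300 * R.card) (c : G) (hc : ∃ y : G, c = 6 • y) :
    c ∈ (X + Y) + (R + R) := by
  classical
  by_contra hcS
  set S := (X + Y) + (R + R) with hS
  set H := stab S with hH
  have hRn : R.Nonempty := ⟨0, h0⟩
  have hSH : S + fs H = S := add_fs_stab _ _ le_rfl
  have k1 : ((X + Y) + fs H).card + ((R + R) + fs H).card ≤ S.card + (fs H).card :=
    kneser' (X + Y) (R + R) (hX.add hY) (hRn.add hRn)
  have k2 := kn X Y (R + R) hX hY H rfl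
  have k3 := kn R R (X + Y) hRn hRn H (by rw [hH, hS, add_comm (R + R)])
  set π : G → G ⧸ H := fun x => (QuotientAddGroup.mk x : G ⧸ H) with hπ
  have c1 := card_add_fs H X
  have c2 := card_add_fs H Y
  have c3 := card_add_fs H R
  have c4 := card_add_fs H S
  have c5 := card_add_fs H (Finset.univ : Finset G)
  have hun : (Finset.univ : Finset G) + fs H = Finset.univ := by
    apply Finset.eq_univ_of_forall
    intro x
    have := Finset.add_mem_add (Finset.mem_univ x) (fs_nonempty H).choose_spec
    have h1 : x = (x - (fs_nonempty H).choose) + (fs_nonempty H).choose := by abel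
    rw [h1]
    exact Finset.add_mem_add (Finset.mem_univ _) (fs_nonempty H).choose_spec
  rw [hSH] at c4
  rw [hun, Finset.card_univ] at c5
  have hh : 0 < (fs H).card := fs_card_pos H
  set h := (fs H).card with hhdef
  set x := (X.image π).card with hx
  set y := (Y.image π).card with hy
  set ρ := (R.image π).card with hρ
  set s := (S.image π).card with hs
  set g := ((Finset.univ : Finset G).image π).card with hg
  have l1 : X.card ≤ x * h := by
    rw [← c1]
    apply Finset.card_le_card
    intro a ha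
    have := Finset.add_mem_add ha (mem_fs.2 H.zero_mem)
    rwa [add_zero] at this
  have l2 : Y.card ≤ y * h := by
    rw [← c2]
    apply Finset.card_le_card
    intro a ha
    have := Finset.add_mem_add ha (mem_fs.2 H.zero_mem)
    rwa [add_zero] at this
  have l3 : R.card ≤ ρ * h := by
    rw [← c3]
    apply Finset.card_le_card
    intro a ha
    have := Finset.add_mem_add ha (mem_fs.2 H.zero_mem)
    rwa [add_zero] at this
  have hxρ : x ≤ ρ := Finset.card_le_card (Finset.image_subset_image hXR)
  have hyρ : y ≤ ρ := Finset.card_le_card (Finset.image_subset_image hYR)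
  have hx1 : 1 ≤ x := Finset.card_pos.2 (hX.image _)
  have hy1 : 1 ≤ y := Finset.card_pos.2 (hY.image _)
  have hper : ∀ a b : G, a ∈ S → π a = π b → b ∈ S := by
    intro a b ha hab
    have hab' : (QuotientAddGroup.mk a : G ⧸ H) = QuotientAddGroup.mk b := hab
    rw [QuotientAddGroup.eq] at hab'
    rw [← hSH]
    have : b = a + (-a + b) := by abel
    rw [this]
    exact Finset.add_mem_add ha (mem_fs.2 hab')
  have hsg : s < g := by
    apply Finset.card_lt_card
    refine ⟨Finset.image_subset_image (Finset.subset_univ _), fun hsub => ?_⟩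
    have h1 : π c ∈ (Finset.univ : Finset G).image π := Finset.mem_image_of_mem _ (Finset.mem_univ _)
    obtain ⟨a, ha, hac⟩ := Finset.mem_image.1 (hsub h1)
    exact hcS (hper a c ha hac)
  rw [c1, c2] at k2
  rw [c3] at k3
  rw [c4] at k1
  have key : x = ρ ∧ y = ρ ∧ g ∣ 6 :=
    arith x y ρ s g h _ _ _ _ _ _ hh k1 k2 k3 c5 l1 l2 l3 hxy hR hx1 hy1 hxρ hyρ hsg
  obtain ⟨kx, ky, kg⟩ := key
  have eX : X.image π = R.image π :=
    Finset.eq_of_subset_of_card_le (Finset.image_subset_image hXR) (by rw [← hx, ← hρ, kx])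
  have eY : Y.image π = R.image π :=
    Finset.eq_of_subset_of_card_le (Finset.image_subset_image hYR) (by rw [← hy, ← hρ, ky])
  have z0 : π 0 ∈ R.image π := Finset.mem_image_of_mem _ h0
  obtain ⟨x0, hx0, hx0'⟩ := Finset.mem_image.1 (eX ▸ z0)
  obtain ⟨y0, hy0, hy0'⟩ := Finset.mem_image.1 (eY ▸ z0)
  have hx0H : x0 ∈ H := (QuotientAddGroup.eq_zero_iff x0).1 hx0'
  have hy0H : y0 ∈ H := (QuotientAddGroup.eq_zero_iff y0).1 hy0'
  have zS : x0 + y0 + (0 + 0) ∈ S := Finset.add_mem_add (Finset.add_mem_add hx0 hy0)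
    (Finset.add_mem_add h0 h0)
  have zH : x0 + y0 + (0 + 0) ∈ H := H.add_mem (H.add_mem hx0H hy0H) (H.add_mem H.zero_mem H.zero_mem)
  have cH : c ∈ H := by
    have hidx : H.index = g := by
      have h1 := H.card_mul_index
      have h2 : Nat.card H = h := by
        rw [hhdef, Nat.card_eq_fintype_card]
        rw [Fintype.card_of_subtype (fs H)]
        intro z
        exact mem_fs
      rw [h2, Nat.card_eq_fintype_card, c5] at h1
      have h3 : h * H.index = h * g := by rw [h1]; ring
      exact Nat.eq_of_mul_eq_mul_left hh h3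
    obtain ⟨z, rfl⟩ := hc
    obtain ⟨k, hk⟩ := kg
    have h1 : g • (k • z) ∈ H := by rw [← hidx]; exact H.nsmul_index_mem _
    rw [hk, mul_nsmul']
    exact h1
  apply hcS
  rw [← hSH]
  have e : c = (x0 + y0 + (0 + 0)) + (-(x0 + y0 + (0 + 0)) + c) := by abel
  rw [e]
  exact Finset.add_mem_add zS (mem_fs.2 (H.add_mem (H.neg_mem zH) cH))

end grp

end Pool.Agent.Q84.PG5
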