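import Mathlib
import Pool.Agent.Q84.PG5
set_option autoImplicit false

/-!
# Four summands: level sets, windows
-/

namespace Pool.Agent.Q84.PG5

open Finset

/-- layer cake -/
lemma layer {ι : Type*} (R : Finset ι) (h : ι → ℕ) (K : ℕ) (hK : ∀ r ∈ R, h r ≤ K) :
    ∑ r ∈ R, h r ≤ ∑ j ∈ Finset.Icc 2 K, (R.filter (fun r => j ≤ h r)).card + R.card := by
  classical
  have h1 : ∑ j ∈ Finset.Icc 2 K, (R.filter (fun r => j ≤ h r)).card =
      ∑ r ∈ R, ((Finset.Icc 2 K).filter (fun j => j ≤ h r)).card := by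
    simp only [Finset.card_filter]
    rw [Finset.sum_comm]
  rw [h1, Finset.card_eq_sum_ones, ← Finset.sum_add_distrib]
  refine Finset.sum_le_sum fun r hr => ?_
  have h2 : (Finset.Icc 2 (h r)) ⊆ (Finset.Icc 2 K).filter (fun j => j ≤ h r) := by
    intro j hj
    rw [Finset.mem_Icc] at hj
    rw [Finset.mem_filter, Finset.mem_Icc]
    exact ⟨⟨hj.1, hj.2.trans (hK r hr)⟩, hj.2⟩
  have h3 := Finset.card_le_card h2
  rw [Nat.card_Icc] at h3
  omega

/-- two complementary level sets, both nonempty, with large total size -/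
lemma levels {ι : Type*} (R : Finset ι) (h : ι → ℕ) (K m : ℕ) (hK : ∀ r ∈ R, h r ≤ K)
    (hRm : 2 * R.card ≤ m) (hs : 197 * (K * m) + 600 * R.card < 600 * ∑ r ∈ R, h r) :
    ∃ j, 2 ≤ j ∧ j ≤ K ∧ (R.filter (fun r => j ≤ h r)).Nonempty ∧
      (R.filter (fun r => K + 2 - j ≤ h r)).Nonempty ∧
      197 * m ≤ 300 * ((R.filter (fun r => j ≤ h r)).card +
        (R.filter (fun r => K + 2 - j ≤ h r)).card) := by
  classical
  by_contra hcon
  push Not at hcon
  set c : ℕ → ℕ := fun j => (R.filter (fun r => j ≤ h r)).card with hc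
  have hbd : ∀ j ∈ Finset.Icc 2 K, 300 * (c j + c (K + 2 - j)) ≤ 197 * m := by
    intro j hj
    rw [Finset.mem_Icc] at hj
    have hcR : ∀ i, c i ≤ R.card := fun i => Finset.card_filter_le _ _
    by_cases e1 : (R.filter (fun r => j ≤ h r)).Nonempty
    · by_cases e2 : (R.filter (fun r => K + 2 - j ≤ h r)).Nonempty
      · exact (hcon j hj.1 hj.2 e1 e2).le
      · have h0 : c (K + 2 - j) = 0 := by
          rw [Finset.not_nonempty_iff_eq_empty] at e2
          simp only [hc]
          rw [e2, Finset.card_empty]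
        have := hcR j
        omega
    · have h0 : c j = 0 := by
        rw [Finset.not_nonempty_iff_eq_empty] at e1
        simp only [hc]
        rw [e1, Finset.card_empty]
      have := hcR (K + 2 - j)
      omega
  have hrefl : ∑ j ∈ Finset.Icc 2 K, c (K + 2 - j) = ∑ j ∈ Finset.Icc 2 K, c j := by
    refine Finset.sum_nbij' (fun j => K + 2 - j) (fun j => K + 2 - j) ?_ ?_ ?_ ?_ ?_
    · intro j hj; rw [Finset.mem_Icc] at hj ⊢; omega
    · intro j hj; rw [Finset.mem_Icc] at hj ⊢; omega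
    · intro j hj; rw [Finset.mem_Icc] at hj; omega
    · intro j hj; rw [Finset.mem_Icc] at hj; omega
    · intro j hj; rfl
  have h1 : 600 * ∑ j ∈ Finset.Icc 2 K, c j ≤ 197 * (K * m) := by
    calc 600 * ∑ j ∈ Finset.Icc 2 K, c j = ∑ j ∈ Finset.Icc 2 K, 300 * (c j + c (K + 2 - j)) := by
          rw [← Finset.mul_sum, Finset.sum_add_distrib, hrefl]; ring
      _ ≤ ∑ _j ∈ Finset.Icc 2 K, 197 * m := Finset.sum_le_sum hbd
      _ = (K + 1 - 2) * (197 * m) := by rw [Finset.sum_const, Nat.card_Icc, smul_eq_mul]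
      _ ≤ K * (197 * m) := Nat.mul_le_mul_right _ (by omega)
      _ = 197 * (K * m) := by ring
  have h2 := layer R h K hK
  have h3 : ∑ j ∈ Finset.Icc 2 K, (R.filter (fun r => j ≤ h r)).card = ∑ j ∈ Finset.Icc 2 K, c j := rfl
  rw [h3] at h2
  omega

/-- the number of elements of a class in a window whose length is a multiple of the modulus -/
lemma class_card (M : ℕ) [NeZero M] (r : ZMod M) (v L : ℕ) (hL : M ∣ L) :
    ((Finset.Ioc v (v + L)).filter (fun a : ℕ => (a : ZMod M) = r)).card = L / M := by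
  obtain ⟨k, rfl⟩ := hL
  have hM : 0 < M := Nat.pos_of_ne_zero (NeZero.ne M)
  rw [Nat.mul_div_cancel_left k hM]
  have h1 : (Finset.Ioc v (v + M * k)).filter (fun a : ℕ => (a : ZMod M) = r) =
      (Finset.Ioc v (v + M * k)).filter (fun a : ℕ => a ≡ r.val [MOD M]) := by
    refine Finset.filter_congr fun a _ => ?_
    rw [← ZMod.natCast_eq_natCast_iff, ZMod.natCast_val, ZMod.cast_id', id]
  rw [h1]
  have h2 := Nat.Ioc_filter_modEq_card v (v + M * k) hM r.val
  have h3 : (((v + M * k : ℕ) : ℚ) - (r.val : ℚ)) / M = ((v : ℚ) - r.val) / M + ((k : ℤ) : ℚ) := by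
    have : (M : ℚ) ≠ 0 := by exact_mod_cast hM.ne'
    push_cast
    field_simp
    ring
  rw [h3, Int.floor_add_intCast] at h2
  have h4 : max (⌊((v : ℚ) - r.val) / M⌋ + (k : ℤ) - ⌊((v : ℚ) - r.val) / M⌋) 0 = k := by
    rw [add_sub_cancel_left]
    exact max_eq_left (by positivity)
  rw [h4] at h2
  exact_mod_cast h2

lemma class_card_le (M : ℕ) [NeZero M] (r : ZMod M) (v L : ℕ) :
    M * ((Finset.Ioc v (v + L)).filter (fun a : ℕ => (a : ZMod M) = r)).card ≤ L + M := by
  have hM : 0 < M := Nat.pos_of_ne_zero (NeZero.ne M)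
  have h1 : ((Finset.Ioc v (v + L)).filter (fun a : ℕ => (a : ZMod M) = r)).card ≤
      ((Finset.Ioc v (v + M * (L / M + 1))).filter (fun a : ℕ => (a : ZMod M) = r)).card := by
    apply Finset.card_le_card
    apply Finset.filter_subset_filter
    apply Finset.Ioc_subset_Ioc_right
    have := Nat.div_add_mod L M
    have := Nat.mod_lt L hM
    nlinarith
  rw [class_card M r v _ (dvd_mul_right _ _), Nat.mul_div_cancel_left _ hM] at h1
  calc M * _ ≤ M * (L / M + 1) := Nat.mul_le_mul_left _ h1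
    _ = M * (L / M) + M := by ring
    _ ≤ L + M := Nat.add_le_add_right (Nat.mul_div_le L M) _

open Classical in
/-- the elements of `A` in the class `r` and in the window -/
noncomputable def cls (A : Set ℕ) (M : ℕ) (r : ZMod M) (v L : ℕ) : Finset ℕ :=
  (Finset.Ioc v (v + L)).filter (fun a : ℕ => a ∈ A ∧ (a : ZMod M) = r)

lemma mem_cls {A : Set ℕ} {M : ℕ} {r : ZMod M} {v L a : ℕ} :
    a ∈ cls A M r v L ↔ (v < a ∧ a ≤ v + L) ∧ a ∈ A ∧ (a : ZMod M) = r := by
  classical
  unfold cls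
  simp only [Finset.mem_filter, Finset.mem_Ioc]

lemma cls_le (A : Set ℕ) (M : ℕ) [NeZero M] (r : ZMod M) (v L : ℕ) (hL : M ∣ L) :
    (cls A M r v L).card ≤ L / M := by
  rw [← class_card M r v L hL]
  apply Finset.card_le_card
  intro a ha
  rw [mem_cls] at ha
  rw [Finset.mem_filter, Finset.mem_Ioc]
  exact ⟨ha.1, ha.2.2⟩

lemma cls_sum (A : Set ℕ) (M : ℕ) [NeZero M] (v L : ℕ) [DecidablePred (· ∈ A)] :
    ∑ r : ZMod M, (cls A M r v L).card = ((Finset.Ioc v (v + L)).filter (fun a => a ∈ A)).card := by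
  classical
  rw [Finset.card_eq_sum_card_fiberwise (f := fun a : ℕ => (a : ZMod M)) (t := Finset.univ)
    (fun _ _ => Finset.mem_coe.2 (Finset.mem_univ _))]
  refine Finset.sum_congr rfl fun r _ => ?_
  congr 1
  ext a
  rw [mem_cls, Finset.mem_filter, Finset.mem_filter, Finset.mem_Ioc]
  tauto

/-- two classes which together are more than full represent every number near the centre -/
lemma full (A : Set ℕ) (M : ℕ) [NeZero M] (r s : ZMod M) (v L D z : ℕ) (hz : (z : ZMod M) = r + s)
    (hD : D < v) (h1 : z ≤ 2 * v + L + D) (h2 : 2 * v + L ≤ z + D)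
    (hbig : L + 2 * D + 1 + M < M * ((cls A M r v L).card + (cls A M s v L).card)) :
    ∃ a ∈ A, ∃ b ∈ A, a + b = z ∧ v < a ∧ a ≤ v + L ∧ v < b ∧ b ≤ v + L := by
  classical
  by_contra hno
  push Not at hno
  have hzv : v + L ≤ z := by omega
  set B := (cls A M s v L).image (fun x => z - x) with hB
  have hBc : B.card = (cls A M s v L).card := by
    apply Finset.card_image_of_injOn
    intro x hx y hy hxy
    rw [Finset.mem_coe, mem_cls] at hx hy
    simp only at hxy
    omega
  have hdis : Disjoint (cls A M r v L) B := by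
    rw [Finset.disjoint_left]
    intro a ha hab
    obtain ⟨b, hb, hba⟩ := Finset.mem_image.1 hab
    rw [mem_cls] at ha hb
    have := hno a ha.2.1 b hb.2.1 (by omega) ha.1.1 ha.1.2 hb.1.1
    omega
  have hsub : cls A M r v L ∪ B ⊆
      (Finset.Ioc (v - D - 1) ((v - D - 1) + (L + 2 * D + 1))).filter
        (fun a : ℕ => (a : ZMod M) = r) ∪ ∅ := by
    intro a ha
    rw [Finset.union_empty, Finset.mem_filter, Finset.mem_Ioc]
    rcases Finset.mem_union.1 ha with h | h
    · rw [mem_cls] at h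
      exact ⟨by omega, h.2.2⟩
    · obtain ⟨b, hb, hba⟩ := Finset.mem_image.1 h
      rw [mem_cls] at hb
      refine ⟨by omega, ?_⟩
      rw [← hba, Nat.cast_sub (by omega), hz, hb.2.2, add_sub_cancel_right]
  have hc := Finset.card_le_card hsub
  rw [Finset.union_empty, Finset.card_union_of_disjoint hdis, hBc] at hc
  have hle := class_card_le M r (v - D - 1) (L + 2 * D + 1)
  have := Nat.mul_le_mul_left M hc
  omega

end Pool.Agent.Q84.PG5
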