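import Mathlib
import Pool.Agent.Q84.PG2
import Pool.Agent.Q84.PG6
set_option autoImplicit false

/-!
# Four summands: a set of density one third in all windows of all progressions `M ℕ`, almost all of whose
doubles are sums, has all large multiples of six as sums of four elements
-/

namespace Pool.Agent.Q84.PG5

open Finset
open scoped Pointwise

open Pool.Agent.Q84.PG (nwin mem_nwin)

/-- a long decreasing chain has a step which is short on average -/
lemma chain (f : ℕ → ℕ) (J m : ℕ) (hJ : 0 < J) (hanti : ∀ i < J, f (i + 1) ≤ f i) (h0 : f 0 ≤ m) :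
    ∃ i < J, J * (f i - f (i + 1)) ≤ m := by
  by_contra hno
  push Not at hno
  have tel : ∀ k ≤ J, ∑ i ∈ Finset.range k, (f i - f (i + 1)) + f k = f 0 := by
    intro k
    induction k with
    | zero => intro _; simp
    | succ k ih =>
      intro hk
      rw [Finset.sum_range_succ]
      have := ih (by omega)
      have := hanti k (by omega)
      omega
  have h1 := tel J le_rfl
  have h2 : ∑ _i ∈ Finset.range J, m < ∑ i ∈ Finset.range J, J * (f i - f (i + 1)) := by
    apply Finset.sum_lt_sum_of_nonempty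
    · exact Finset.nonempty_range_iff.2 hJ.ne'
    · intro i hi; exact hno i (Finset.mem_range.1 hi)
  rw [Finset.sum_const, Finset.card_range, smul_eq_mul, ← Finset.mul_sum] at h2
  have h3 := Nat.lt_of_mul_lt_mul_left h2
  omega

/-- `M k` is a sum of two elements of `A` at distance at most `T` -/
def Rp (A : Set ℕ) (M T k : ℕ) : Prop := ∃ a ∈ A, ∃ b ∈ A, a + b = M * k ∧ a ≤ b + T ∧ b ≤ a + T

open Classical in
lemma core (A : Set ℕ) (M : ℕ) [NeZero M] (T θ v v' N N' u n q : ℕ) (hθ : 1 ≤ θ) (hN' : 2000 * θ ≤ N')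
    (hq : 2000 ≤ q) (hN : N = q * N')
    (htot : 1997 * (M * N) ≤ 6000 * ∑ r : ZMod M, (cls A M r v (M * N)).card)
    (hv : 2 * v + M * N = 2 * u) (hv' : 2 * v' + M * N' = 2 * u) (hvbig : M * N' + 3 < v)
    (hn1 : 4 * u ≤ n) (hn2 : n ≤ 4 * u + 3)
    (R R' : Finset (ZMod M)) (hR : ∀ r, r ∈ R ↔ θ ≤ (cls A M r v (M * N)).card)
    (hR' : ∀ r, r ∈ R' ↔ θ ≤ (cls A M r v' (M * N')).card) (hRR : R' ⊆ R)
    (hst : 1000 * (R.card - R'.card) ≤ M) (h0 : (0 : ZMod M) ∈ R')
    (hc : ∃ y : ZMod M, (n : ZMod M) = 6 • y)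
    (hbad : ∀ k0 : ℕ, ((Finset.Ioc k0 (k0 + N')).filter (fun k => ¬ Rp A M T k)).card < θ) :
    ∃ a ∈ A, ∃ b ∈ A, ∃ c ∈ A, ∃ d ∈ A, a + b + c + d = n ∧
      (∀ x : ℕ, (x = a ∨ x = b ∨ x = c ∨ x = d) → 4 * x ≤ n + (2 * T + 8 * (M * N) + 6) ∧
        n ≤ 4 * x + (2 * T + 8 * (M * N) + 6)) := by
  have hM : 0 < M := Nat.pos_of_ne_zero (NeZero.ne M)
  have hN'0 : 0 < N' := by omega
  have hN0 : 0 < N := by rw [hN]; positivity
  have hNN' : 2000 * N' ≤ N := by rw [hN]; exact Nat.mul_le_mul_right _ hq
  have hMNN : 2000 * (M * N') ≤ M * N := by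
    calc 2000 * (M * N') = M * (2000 * N') := by ring
      _ ≤ M * N := Nat.mul_le_mul_left _ hNN'
  have hMN' : 2000 * M ≤ M * N' := by
    calc 2000 * M = M * 2000 := by ring
      _ ≤ M * N' := Nat.mul_le_mul_left _ (by omega)
  have hne : ∀ r ∈ R', (cls A M r v' (M * N')).Nonempty := by
    intro r hr
    have := (hR' r).1 hr
    exact Finset.card_pos.1 (by omega)
  by_cases hcase : ∃ r1 ∈ R', ∃ r2 ∈ R', r1 + r2 = (n : ZMod M)
  · obtain ⟨r1, hr1, r2, hr2, hrr⟩ := hcase
    obtain ⟨a1, ha1⟩ := hne r1 hr1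
    rw [mem_cls] at ha1
    set S := cls A M r2 v' (M * N') with hS
    have hSc : θ ≤ S.card := (hR' r2).1 hr2
    set y := n - a1 - v' - M * N' with hy
    have hy1 : 1 ≤ y := by omega
    have hdiv : ∀ a ∈ S, M ∣ n - a1 - a := by
      intro a ha
      rw [mem_cls] at ha
      rw [← ZMod.natCast_eq_zero_iff, Nat.cast_sub (by omega), Nat.cast_sub (by omega), ← hrr,
        ha1.2.2, ha.2.2]
      ring
    by_contra hno
    have hsub : S.image (fun a => (n - a1 - a) / M) ⊆
        (Finset.Ioc ((y - 1) / M) ((y - 1) / M + N')).filter (fun k => ¬ Rp A M T k) := by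
      intro k hk
      obtain ⟨a, ha, rfl⟩ := Finset.mem_image.1 hk
      obtain ⟨k, hk⟩ := hdiv a ha
      have ha' := mem_cls.1 ha
      rw [hk, Nat.mul_div_cancel_left _ hM, Finset.mem_filter, Finset.mem_Ioc]
      have e1 : (y - 1) / M < k := by
        rw [Nat.div_lt_iff_lt_mul hM]
        rw [mul_comm k M]
        omega
      have e2 : k ≤ (y - 1) / M + N' := by
        have : (y - 1) / M + N' = (y - 1 + M * N') / M := by
          rw [Nat.add_mul_div_left _ _ hM]
        rw [this, Nat.le_div_iff_mul_le hM, mul_comm k M]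
        omega
      refine ⟨⟨e1, e2⟩, fun hrep => hno ?_⟩
      obtain ⟨b, hb, b', hb', hbb, hT⟩ := hrep
      refine ⟨a1, ha1.2.1, a, ha'.2.1, b, hb, b', hb', by omega, ?_⟩
      rintro x (rfl | rfl | rfl | rfl) <;> constructor <;> omega
    have hinj : (S.image (fun a => (n - a1 - a) / M)).card = S.card := by
      apply Finset.card_image_of_injOn
      intro a ha a' ha' haa
      rw [Finset.mem_coe] at ha ha'
      obtain ⟨k, hk⟩ := hdiv a ha
      obtain ⟨k', hk'⟩ := hdiv a' ha'
      have m1 := mem_cls.1 ha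
      have m2 := mem_cls.1 ha'
      simp only at haa
      rw [hk, hk', Nat.mul_div_cancel_left _ hM, Nat.mul_div_cancel_left _ hM] at haa
      subst haa
      omega
    have := Finset.card_le_card hsub
    have := hbad ((y - 1) / M)
    omega
  · push Not at hcase
    -- the set of classes is at most one half
    have hhalf : 2 * R'.card ≤ M := by
      have hdis : Disjoint R' (R'.image (fun r => (n : ZMod M) - r)) := by
        rw [Finset.disjoint_left]
        intro a ha hab
        obtain ⟨b, hb, hba⟩ := Finset.mem_image.1 hab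
        exact hcase a ha b hb (by rw [← hba]; ring)
      have h1 : (R'.image (fun r => (n : ZMod M) - r)).card = R'.card :=
        Finset.card_image_of_injective _ sub_right_injective
      have h2 := Finset.card_le_univ (R' ∪ R'.image (fun r => (n : ZMod M) - r))
      rw [Finset.card_union_of_disjoint hdis, h1, ZMod.card] at h2
      omega
    have hle : ∀ r, (cls A M r v (M * N)).card ≤ N := by
      intro r
      have := cls_le A M r v (M * N) (dvd_mul_right _ _)
      rwa [Nat.mul_div_cancel_left _ hM] at this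
    -- total of the classes in R'
    have hsumR' : 1988 * (M * N) ≤ 6000 * ∑ r ∈ R', (cls A M r v (M * N)).card := by
      have s1 : ∑ r : ZMod M, (cls A M r v (M * N)).card =
          ∑ r ∈ R', (cls A M r v (M * N)).card + ∑ r ∈ R \ R', (cls A M r v (M * N)).card +
            ∑ r ∈ Rᶜ, (cls A M r v (M * N)).card := by
        rw [← Finset.sum_add_sum_compl R, ← Finset.sum_sdiff hRR]
        ring
      have s2 : ∑ r ∈ R \ R', (cls A M r v (M * N)).card ≤ (R.card - R'.card) * N := by
        rw [← Finset.card_sdiff_of_subset hRR, ← smul_eq_mul]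
        exact Finset.sum_le_card_nsmul _ _ _ fun r _ => hle r
      have s3 : ∑ r ∈ Rᶜ, (cls A M r v (M * N)).card ≤ M * θ := by
        calc ∑ r ∈ Rᶜ, (cls A M r v (M * N)).card ≤ Rᶜ.card • θ := by
              refine Finset.sum_le_card_nsmul _ _ _ fun r hr => ?_
              rw [Finset.mem_compl, hR] at hr
              omega
          _ ≤ M * θ := by
              rw [smul_eq_mul]
              apply Nat.mul_le_mul_right
              have := Finset.card_le_univ Rᶜ
              rwa [ZMod.card] at this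
      have s4 : 1000 * ((R.card - R'.card) * N) ≤ M * N := by
        rw [← mul_assoc]
        exact Nat.mul_le_mul_right _ hst
      have s5 : 2000 * (M * θ) ≤ M * N := by
        calc 2000 * (M * θ) = M * (2000 * θ) := by ring
          _ ≤ M * N := Nat.mul_le_mul_left _ (by omega)
      rw [s1] at htot
      omega
    set h : ZMod M → ℕ := fun r => 1000 * (cls A M r v (M * N)).card / N with hh
    have hhK : ∀ r ∈ R', h r ≤ 1000 := by
      intro r _
      simp only [hh]
      apply Nat.div_le_of_le_mul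
      rw [mul_comm N]
      exact Nat.mul_le_mul_left _ (hle r)
    have hsumh : 1988 * M ≤ 6 * (∑ r ∈ R', h r + R'.card) := by
      have t1 : ∑ r ∈ R', 1000 * (cls A M r v (M * N)).card ≤ ∑ r ∈ R', N * (h r + 1) := by
        refine Finset.sum_le_sum fun r _ => ?_
        have := Nat.div_add_mod (1000 * (cls A M r v (M * N)).card) N
        have := Nat.mod_lt (1000 * (cls A M r v (M * N)).card) hN0
        simp only [hh]
        nlinarith
      rw [← Finset.mul_sum, ← Finset.mul_sum, Finset.sum_add_distrib, Finset.sum_const,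
        smul_eq_mul, mul_one] at t1
      have t2 : N * (1988 * M) ≤ N * (6 * (∑ r ∈ R', h r + R'.card)) := by
        calc N * (1988 * M) = 1988 * (M * N) := by ring
          _ ≤ 6000 * ∑ r ∈ R', (cls A M r v (M * N)).card := hsumR'
          _ = 6 * (1000 * ∑ r ∈ R', (cls A M r v (M * N)).card) := by ring
          _ ≤ 6 * (N * (∑ r ∈ R', h r + R'.card)) := Nat.mul_le_mul_left _ t1
          _ = N * (6 * (∑ r ∈ R', h r + R'.card)) := by ring
      exact Nat.le_of_mul_le_mul_left t2 hN0
    obtain ⟨j, hj2, hjK, hX, hY, hXY⟩ := levels R' h 1000 M hhK hhalf (by omega)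
    set X := R'.filter (fun r => j ≤ h r) with hXdef
    set Y := R'.filter (fun r => 1000 + 2 - j ≤ h r) with hYdef
    have hRbig : 97 * Fintype.card (ZMod M) ≤ 300 * R'.card := by
      rw [ZMod.card]
      have t3 : ∑ r ∈ R', (cls A M r v (M * N)).card ≤ R'.card * N := by
        rw [← smul_eq_mul]
        exact Finset.sum_le_card_nsmul _ _ _ fun r _ => hle r
      have t4 : N * (1988 * M) ≤ N * (6000 * R'.card) := by
        calc N * (1988 * M) = 1988 * (M * N) := by ring
          _ ≤ 6000 * ∑ r ∈ R', (cls A M r v (M * N)).card := hsumR'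
          _ ≤ 6000 * (R'.card * N) := Nat.mul_le_mul_left _ t3
          _ = N * (6000 * R'.card) := by ring
      have := Nat.le_of_mul_le_mul_left t4 hN0
      omega
    have hmem := grp X Y R' hX hY h0 (Finset.filter_subset _ _) (Finset.filter_subset _ _)
      (by rw [ZMod.card]; exact hXY) hRbig (n : ZMod M) hc
    obtain ⟨p, hp, w, hw, hpw⟩ := Finset.mem_add.1 hmem
    obtain ⟨x, hx, y, hy, hxy⟩ := Finset.mem_add.1 hp
    obtain ⟨r3, hr3, r4, hr4, hr34⟩ := Finset.mem_add.1 hw
    obtain ⟨a3, ha3⟩ := hne r3 hr3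
    obtain ⟨a4, ha4⟩ := hne r4 hr4
    rw [mem_cls] at ha3 ha4
    have hx' := (Finset.mem_filter.1 hx).2
    have hy' := (Finset.mem_filter.1 hy).2
    have hbig : (1000 + 2) * N ≤ 1000 * ((cls A M x v (M * N)).card + (cls A M y v (M * N)).card) := by
      have b1 : j * N ≤ 1000 * (cls A M x v (M * N)).card :=
        (Nat.mul_le_mul_right _ hx').trans (Nat.div_mul_le_self _ _)
      have b2 : (1000 + 2 - j) * N ≤ 1000 * (cls A M y v (M * N)).card :=
        (Nat.mul_le_mul_right _ hy').trans (Nat.div_mul_le_self _ _)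
      have b3 : (1000 + 2) * N = j * N + (1000 + 2 - j) * N := by
        rw [← Nat.add_mul]; congr 1; omega
      omega
    set z := n - a3 - a4 with hz
    have hzc : (z : ZMod M) = x + y := by
      rw [hz, Nat.cast_sub (by omega), Nat.cast_sub (by omega), ha3.2.2, ha4.2.2, ← hpw, ← hxy, ← hr34]
      ring
    have hbig2 : M * N + 2 * (M * N' + 3) + 1 + M <
        M * ((cls A M x v (M * N)).card + (cls A M y v (M * N)).card) := by
      have b4 : (1000 + 2) * (M * N) ≤
          1000 * (M * ((cls A M x v (M * N)).card + (cls A M y v (M * N)).card)) := by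
        calc (1000 + 2) * (M * N) = M * ((1000 + 2) * N) := by ring
          _ ≤ M * (1000 * ((cls A M x v (M * N)).card + (cls A M y v (M * N)).card)) :=
              Nat.mul_le_mul_left _ hbig
          _ = _ := by ring
      omega
    obtain ⟨a, ha, b, hb, hab, q1, q2, q3, q4⟩ := full A M x y v (M * N) (M * N' + 3) z hzc hvbig
      (by omega) (by omega) hbig2
    refine ⟨a, ha, b, hb, a3, ha3.2.1, a4, ha4.2.1, by omega, ?_⟩
    rintro x (rfl | rfl | rfl | rfl) <;> constructor <;> omega

end Pool.Agent.Q84.PG5
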