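import Mathlib
import Pool.Agent.Q84.PG7
set_option autoImplicit false

/-!
# Four summands: the theorem for sets
-/

namespace Pool.Agent.Q84.PG5

open Finset

open Pool.Agent.Q84.PG (nwin mem_nwin)

theorem four (A : Set ℕ)
    (hden : ∀ M : ℕ, 0 < M → ∀ ε : ℝ, 0 < ε → ∃ L : ℕ, ∀ l : ℕ, L ≤ l → ∀ u : ℕ,
      (1 / 3 - ε) * (l : ℝ) ≤ ((nwin {k | M * k ∈ A} u l).card : ℝ))
    (hsum : ∀ ε : ℝ, 0 < ε → ∃ M : ℕ, 0 < M ∧ ∃ T : ℕ, ∀ l : ℕ, T ≤ l → ∀ u : ℕ,
      (1 - ε) * (l : ℝ) ≤ ((nwin {k | Rp A M T k} u l).card : ℝ)) :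
    ∃ C : ℕ, ∀ n : ℕ, C ≤ n → 6 ∣ n → ∃ a ∈ A, ∃ b ∈ A, ∃ c ∈ A, ∃ d ∈ A, a + b + c + d = n ∧
      ∀ x : ℕ, (x = a ∨ x = b ∨ x = c ∨ x = d) → 4 * x ≤ n + C ∧ n ≤ 4 * x + C := by
  classical
  obtain ⟨q, J, hq, hJ⟩ : ∃ q J : ℕ, 2000 ≤ q ∧ 1000 ≤ J := ⟨2000, 1000, le_rfl, le_rfl⟩
  have hq0 : 0 < q := by omega
  have hqJ : (0 : ℝ) < (q : ℝ) ^ J := by positivity
  obtain ⟨M, hM, T, hT⟩ := hsum (1 / (4000 * (q : ℝ) ^ J)) (by positivity)
  obtain ⟨L1, hL1⟩ := hden 1 one_pos (1 / 2000) (by norm_num)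
  obtain ⟨L2, hL2⟩ := hden M hM (1 / 12) (by norm_num)
  have : NeZero M := ⟨hM.ne'⟩
  set θ := T + L1 + L2 + 1 with hθ
  set hl : ℕ → ℕ := fun i => q ^ (J - i) * (1000 * M * θ) with hhl
  set N : ℕ → ℕ := fun i => q ^ (J - i) * (2000 * θ) with hNdef
  have hMN : ∀ i, M * N i = 2 * hl i := by
    intro i; simp only [hhl, hNdef]; ring
  have hNθ : ∀ i, 2000 * θ ≤ N i := by
    intro i
    simp only [hNdef]
    exact Nat.le_mul_of_pos_left _ (by positivity)
  have hNstep : ∀ i, i < J → N i = q * N (i + 1) := by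
    intro i hi
    simp only [hNdef]
    have : J - i = (J - (i + 1)) + 1 := by omega
    rw [this, pow_succ]
    ring
  have hlstep : ∀ i, i < J → hl (i + 1) ≤ hl i := by
    intro i hi
    have h1 := hMN i
    have h2 := hMN (i + 1)
    rw [hNstep i hi] at h1
    have h3 : M * N (i + 1) ≤ M * (q * N (i + 1)) :=
      Nat.mul_le_mul_left _ (Nat.le_mul_of_pos_left _ hq0)
    omega
  have hl0 : ∀ i, i ≤ J → hl i ≤ hl 0 := by
    intro i
    induction i with
    | zero => intro _; exact le_rfl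
    | succ i ih => intro hi; exact (hlstep i (by omega)).trans (ih (by omega))
  set C := 100 * (hl 0 + 1) + 2 * T with hC
  refine ⟨C, fun n hn h6 => ?_⟩
  set u := n / 4 with hu
  have hu1 : 4 * u ≤ n := Nat.mul_div_le n 4
  have hu2 : n ≤ 4 * u + 3 := by omega
  have hubig : 20 * (hl 0 + 1) ≤ u := by omega
  set Rs : ℕ → Finset (ZMod M) := fun i => Finset.univ.filter
    (fun r => θ ≤ (cls A M r (u - hl i) (M * N i)).card) with hRs
  have hsub : ∀ i, i < J → Rs (i + 1) ⊆ Rs i := by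
    intro i hi r hr
    simp only [hRs, Finset.mem_filter, Finset.mem_univ, true_and] at hr ⊢
    refine hr.trans (Finset.card_le_card ?_)
    intro a ha
    rw [mem_cls] at ha ⊢
    refine ⟨?_, ha.2⟩
    have h1 := hMN i
    have h2 := hMN (i + 1)
    have h3 := hlstep i hi
    have h4 := hl0 i hi.le
    omega
  obtain ⟨i, hi, hst⟩ := chain (fun i => (Rs i).card) J M (by omega)
    (fun i hi => Finset.card_le_card (hsub i hi)) (by
      have := Finset.card_le_univ (Rs 0)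
      rwa [ZMod.card] at this)
  have hst' : 1000 * ((Rs i).card - (Rs (i + 1)).card) ≤ M :=
    (Nat.mul_le_mul_right _ hJ).trans hst
  have hli := hl0 i hi.le
  have hli' := hlstep i hi
  have e1 := hMN i
  have e2 := hMN (i + 1)
  have hNi := hNθ i
  have hNi' := hNθ (i + 1)
  have hMN1 : N i ≤ M * N i := Nat.le_mul_of_pos_left _ hM
  have htot : 1997 * (M * N i) ≤ 6000 * ∑ r : ZMod M, (cls A M r (u - hl i) (M * N i)).card := by
    have h1 := hL1 (M * N i) (by omega) (u - hl i)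
    have h2 : nwin {k | 1 * k ∈ A} (u - hl i) (M * N i) =
        (Finset.Ioc (u - hl i) ((u - hl i) + M * N i)).filter (fun a => a ∈ A) := by
      ext k
      rw [mem_nwin, Finset.mem_filter, Finset.mem_Ioc, Set.mem_ofPred_eq, one_mul]
    rw [h2, ← cls_sum A M (u - hl i) (M * N i)] at h1
    have h3 : (1997 : ℝ) * ((M * N i : ℕ) : ℝ) ≤
        6000 * ((∑ r : ZMod M, (cls A M r (u - hl i) (M * N i)).card : ℕ) : ℝ) := by
      nlinarith
    exact_mod_cast h3
  have h0 : (0 : ZMod M) ∈ Rs (i + 1) := by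
    simp only [hRs, Finset.mem_filter, Finset.mem_univ, true_and]
    set v' := u - hl (i + 1) with hv'
    have h1 := hL2 (N (i + 1)) (by omega) (v' / M)
    have h2 : (nwin {k | M * k ∈ A} (v' / M) (N (i + 1))).card ≤
        (cls A M 0 v' (M * N (i + 1))).card := by
      refine Finset.card_le_card_of_injOn (fun k => M * k) ?_ ?_
      · intro k hk
        rw [Finset.mem_coe, mem_nwin] at hk
        rw [Finset.mem_coe, mem_cls]
        have m1 := Nat.div_add_mod v' M
        have m2 := Nat.mod_lt v' hM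
        refine ⟨⟨?_, ?_⟩, hk.2, by simp⟩
        · have : M * (v' / M + 1) ≤ M * k := Nat.mul_le_mul_left _ hk.1.1
          rw [Nat.mul_add, Nat.mul_one] at this
          show v' < M * k
          omega
        · have : M * k ≤ M * (v' / M + N (i + 1)) := Nat.mul_le_mul_left _ hk.1.2
          rw [Nat.mul_add] at this
          show M * k ≤ v' + M * N (i + 1)
          omega
      · intro k _ k' _ hkk
        exact Nat.eq_of_mul_eq_mul_left hM hkk
    have h3 : ((2000 * θ : ℕ) : ℝ) ≤ ((N (i + 1) : ℕ) : ℝ) := by exact_mod_cast hNi'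
    have h4 : ((nwin {k | M * k ∈ A} (v' / M) (N (i + 1))).card : ℝ) ≤
        ((cls A M 0 v' (M * N (i + 1))).card : ℝ) := by exact_mod_cast h2
    push_cast at h3
    have h5 : (θ : ℝ) ≤ ((cls A M 0 v' (M * N (i + 1))).card : ℝ) := by
      have : (0 : ℝ) ≤ θ := by positivity
      nlinarith
    exact_mod_cast h5
  have hbad : ∀ k0 : ℕ, ((Finset.Ioc k0 (k0 + N (i + 1))).filter (fun k => ¬ Rp A M T k)).card < θ := by
    intro k0
    have h1 := hT (N (i + 1)) (by omega) k0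
    have h2 : (nwin {k | Rp A M T k} k0 (N (i + 1))).card +
        ((Finset.Ioc k0 (k0 + N (i + 1))).filter (fun k => ¬ Rp A M T k)).card = N (i + 1) := by
      have h3 : nwin {k | Rp A M T k} k0 (N (i + 1)) =
          (Finset.Ioc k0 (k0 + N (i + 1))).filter (fun k => Rp A M T k) := by
        ext k
        rw [mem_nwin, Finset.mem_filter, Finset.mem_Ioc, Set.mem_ofPred_eq]
      rw [h3, Finset.card_filter_add_card_filter_not, Nat.card_Ioc]
      omega
    have h3 : (((nwin {k | Rp A M T k} k0 (N (i + 1))).card : ℕ) : ℝ) +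
        (((Finset.Ioc k0 (k0 + N (i + 1))).filter (fun k => ¬ Rp A M T k)).card : ℝ) =
          ((N (i + 1) : ℕ) : ℝ) := by exact_mod_cast h2
    have h4 : ((N (i + 1) : ℕ) : ℝ) ≤ (q : ℝ) ^ J * (2000 * θ) := by
      have : N (i + 1) ≤ q ^ J * (2000 * θ) := by
        simp only [hNdef]
        exact Nat.mul_le_mul_right _ (Nat.pow_le_pow_right hq0 (by omega))
      exact_mod_cast this
    have h5 : 1 / (4000 * (q : ℝ) ^ J) * ((N (i + 1) : ℕ) : ℝ) ≤ θ / 2 := by
      calc 1 / (4000 * (q : ℝ) ^ J) * ((N (i + 1) : ℕ) : ℝ) ≤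
            1 / (4000 * (q : ℝ) ^ J) * ((q : ℝ) ^ J * (2000 * θ)) := by gcongr
        _ = θ / 2 := by field_simp; ring
    have hθ0 : (0 : ℝ) < θ := by rw [hθ]; positivity
    have h6 : (((Finset.Ioc k0 (k0 + N (i + 1))).filter (fun k => ¬ Rp A M T k)).card : ℝ) < θ := by
      nlinarith
    exact_mod_cast h6
  obtain ⟨a, ha, b, hb, c, hc, d, hd, hs, hx⟩ := core A M T θ (u - hl i) (u - hl (i + 1)) (N i)
    (N (i + 1)) u n q (by omega) hNi' hq (hNstep i hi) htot (by omega) (by omega) (by omega) hu1 hu2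
    (Rs i) (Rs (i + 1)) (by intro r; simp only [hRs, Finset.mem_filter, Finset.mem_univ, true_and])
    (by intro r; simp only [hRs, Finset.mem_filter, Finset.mem_univ, true_and]) (hsub i hi) hst' h0
    (by
      obtain ⟨m, rfl⟩ := h6
      exact ⟨(m : ZMod M), by push_cast; simp [nsmul_eq_mul]⟩) hbad
  refine ⟨a, ha, b, hb, c, hc, d, hd, hs, fun x hx' => ?_⟩
  have := hx x hx'
  constructor <;> omega

end Pool.Agent.Q84.PG5
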