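import Mathlib

/-!
A polynomial hypergroup on `ℕ` whose second Haar weight is `15/8`.

`x p₀ = p₁`, `x p₁ = (3/5) p₂ + (2/5) p₀`, `x p₂ = (1/5) p₃ + (4/5) p₁`,
`x pₙ = (49/50) pₙ₊₁ + (1/50) pₙ₋₁` for odd `n ≥ 3`, `x pₙ = (1/10) pₙ₊₁ + (9/10) pₙ₋₁` for even `n ≥ 4`.

The products `p m * p n` are nonnegative combinations of the `p k`. The proof: for `m, n ≥ 2`
the difference `F m n = p (m + 2) p (n + 2) - (9/49) p m p n` satisfies `F (m + 2) n = F m (n + 2)`,
and `F 2 n`, `F 3 n` are explicit.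
-/

set_option autoImplicit false

open Finset

namespace Pool.Agent.Q84.PH

/-- the recurrence coefficients `c n` -/
noncomputable def cc (n : ℕ) : ℝ :=
  if n = 0 then 0 else if n = 1 then 2 / 5 else if n = 2 then 4 / 5 else
    if n % 2 = 1 then 1 / 50 else 9 / 10

/-- the polynomials, as functions -/
noncomputable def p : ℕ → ℝ → ℝ
  | 0, _ => 1
  | 1, x => x
  | (n + 2), x => (x * p (n + 1) x - cc (n + 1) * p n x) / (1 - cc (n + 1))

theorem p_zero (x : ℝ) : p 0 x = 1 := rfl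
theorem p_one (x : ℝ) : p 1 x = x := rfl
theorem p_add_two (n : ℕ) (x : ℝ) :
    p (n + 2) x = (x * p (n + 1) x - cc (n + 1) * p n x) / (1 - cc (n + 1)) := by
  rw [p]

theorem cc_lt (n : ℕ) : cc n < 1 := by
  unfold cc; split_ifs <;> norm_num

theorem cc_nonneg (n : ℕ) : 0 ≤ cc n := by
  unfold cc; split_ifs <;> norm_num

theorem cc_pos (n : ℕ) (hn : 1 ≤ n) : 0 < cc n := by
  unfold cc; split_ifs <;> first | omega | norm_num

theorem rec_gen (n : ℕ) (x : ℝ) :
    x * p (n + 1) x = (1 - cc (n + 1)) * p (n + 2) x + cc (n + 1) * p n x := by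
  rw [p_add_two]
  have h := cc_lt (n + 1)
  have h2 : (1 - cc (n + 1)) ≠ 0 := by linarith
  field_simp
  ring

theorem cc_one : cc 1 = 2 / 5 := by norm_num [cc]
theorem cc_two : cc 2 = 4 / 5 := by norm_num [cc]
theorem cc_odd (n : ℕ) : cc (2 * n + 3) = 1 / 50 := by
  unfold cc
  rw [if_neg (by omega), if_neg (by omega), if_neg (by omega), if_pos (by omega)]
theorem cc_even (n : ℕ) : cc (2 * n + 4) = 9 / 10 := by
  unfold cc
  rw [if_neg (by omega), if_neg (by omega), if_neg (by omega), if_neg (by omega)]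

theorem rec_one (x : ℝ) : x * p 1 x = 3 / 5 * p 2 x + 2 / 5 * p 0 x := by
  have h := rec_gen 0 x
  norm_num [cc_one] at h
  linarith

theorem rec_two (x : ℝ) : x * p 2 x = 1 / 5 * p 3 x + 4 / 5 * p 1 x := by
  have h := rec_gen 1 x
  norm_num [cc_two] at h
  linarith

theorem rec_odd (n : ℕ) (x : ℝ) :
    x * p (2 * n + 3) x = 49 / 50 * p (2 * n + 4) x + 1 / 50 * p (2 * n + 2) x := by
  have h := rec_gen (2 * n + 2) x
  rw [show 2 * n + 2 + 1 = 2 * n + 3 from rfl, cc_odd] at h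
  rw [h]
  ring

theorem rec_even (n : ℕ) (x : ℝ) :
    x * p (2 * n + 4) x = 1 / 10 * p (2 * n + 5) x + 9 / 10 * p (2 * n + 3) x := by
  have h := rec_gen (2 * n + 3) x
  rw [show 2 * n + 3 + 1 = 2 * n + 4 from rfl, cc_even] at h
  rw [h]
  ring

/-- the two-step recurrence -/
theorem rec_sq (k : ℕ) (x : ℝ) :
    x ^ 2 * p (k + 4) x = 49 / 500 * p (k + 6) x + 442 / 500 * p (k + 4) x
      + 9 / 500 * p (k + 2) x := by
  rcases Nat.even_or_odd' k with ⟨i, hi | hi⟩
  · subst hi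
    have h1 := rec_even i x
    have h2 := rec_odd (i + 1) x
    have h3 := rec_odd i x
    rw [show 2 * (i + 1) + 3 = 2 * i + 5 by ring, show 2 * (i + 1) + 4 = 2 * i + 6 by ring,
      show 2 * (i + 1) + 2 = 2 * i + 4 by ring] at h2
    linear_combination x * h1 + 1 / 10 * h2 + 9 / 10 * h3
  · subst hi
    have h1 := rec_odd (i + 1) x
    have h2 := rec_even (i + 1) x
    have h3 := rec_even i x
    rw [show 2 * (i + 1) + 3 = 2 * i + 5 by ring, show 2 * (i + 1) + 4 = 2 * i + 6 by ring,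
      show 2 * (i + 1) + 2 = 2 * i + 4 by ring] at h1
    rw [show 2 * (i + 1) + 3 = 2 * i + 5 by ring, show 2 * (i + 1) + 4 = 2 * i + 6 by ring,
      show 2 * (i + 1) + 5 = 2 * i + 7 by ring] at h2
    rw [show 2 * i + 1 + 4 = 2 * i + 5 by ring, show 2 * i + 1 + 6 = 2 * i + 7 by ring,
      show 2 * i + 1 + 2 = 2 * i + 3 by ring]
    linear_combination x * h1 + 49 / 50 * h2 + 1 / 50 * h3

theorem p2_eq (x : ℝ) : p 2 x = (5 * x ^ 2 - 2) / 3 := by
  have h := rec_one x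
  rw [p_zero, p_one] at h
  linarith

theorem p3_eq (x : ℝ) : p 3 x = (25 * x ^ 3 - 22 * x) / 3 := by
  have h := rec_two x
  rw [p_one, p2_eq] at h
  linarith

theorem p4_eq (x : ℝ) : p 4 x = (1250 * x ^ 4 - 1105 * x ^ 2 + 2) / 147 := by
  have h := rec_odd 0 x
  norm_num only at h
  rw [p3_eq, p2_eq] at h
  linarith

theorem p5_eq (x : ℝ) : p 5 x = (12500 * x ^ 5 - 22075 * x ^ 3 + 9722 * x) / 147 := by
  have h := rec_even 0 x
  norm_num only at h
  rw [p4_eq, p3_eq] at h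
  linarith

theorem p6_eq (x : ℝ) : p 6 x = (625000 * x ^ 6 - 1105000 * x ^ 4 + 487205 * x ^ 2 - 2) / 7203 := by
  have h := rec_odd 1 x
  norm_num only at h
  rw [p5_eq, p4_eq] at h
  linarith

theorem p7_eq (x : ℝ) : p 7 x = (6250000 * x ^ 7 - 16562500 * x ^ 5 + 14607125 * x ^ 3 - 4287422 * x) / 7203 := by
  have h := rec_even 1 x
  norm_num only at h
  rw [p6_eq, p5_eq] at h
  linarith

theorem p8_eq (x : ℝ) : p 8 x = (312500000 * x ^ 8 - 828750000 * x ^ 6 + 731461250 * x ^ 4 - 214858305 * x ^ 2 + 2) / 352947 := by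
  have h := rec_odd 2 x
  norm_num only at h
  rw [p7_eq, p6_eq] at h
  linarith

theorem p9_eq (x : ℝ) : p 9 x = (3125000000 * x ^ 9 - 11043750000 * x ^ 7 + 14618675000 * x ^ 5 - 8590325175 * x ^ 3 + 1890753122 * x) / 352947 := by
  have h := rec_even 2 x
  norm_num only at h
  rw [p8_eq, p7_eq] at h
  linarith

theorem p10_eq (x : ℝ) : p 10 x = (156250000000 * x ^ 10 - 552500000000 * x ^ 8 + 731762500000 * x ^ 6 - 430247720000 * x ^ 4 + 94752514405 * x ^ 2 - 2) / 17294403 := by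
  have h := rec_odd 3 x
  norm_num only at h
  rw [p9_eq, p8_eq] at h
  linarith

theorem p11_eq (x : ℝ) : p 11 x = (1562500000000 * x ^ 11 - 6903125000000 * x ^ 9 + 12187918750000 * x ^ 7 - 10749312875000 * x ^ 5 + 4735858546225 * x ^ 3 - 833822126822 * x) / 17294403 := by
  have h := rec_even 3 x
  norm_num only at h
  rw [p10_eq, p9_eq] at h
  linarith

end Pool.Agent.Q84.PH
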