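import Pool.Agent.Q84.PH1

/-!
The products `p m * p n` as nonnegative combinations.
-/

set_option autoImplicit false

open Finset

namespace Pool.Agent.Q84.PH

/-! ### Explicit products -/

theorem bulk2 (k : ℕ) (x : ℝ) : p 2 x * p (k + 4) x =
    49 / 300 * p (k + 6) x + 121 / 150 * p (k + 4) x + 3 / 100 * p (k + 2) x := by
  rw [p2_eq]
  linear_combination 5 / 3 * rec_sq k x

theorem bulk4 (k : ℕ) (x : ℝ) : p 4 x * p (k + 6) x =
    49 / 600 * p (k + 10) x + 221 / 300 * p (k + 8) x + 641 / 14700 * p (k + 6) x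
      + 663 / 4900 * p (k + 4) x + 27 / 9800 * p (k + 2) x := by
  have h0 := rec_sq (k + 2) x
  have h2 := rec_sq (k + 4) x
  have h1 := rec_sq k x
  rw [show k + 2 + 4 = k + 6 by ring, show k + 2 + 6 = k + 8 by ring,
    show k + 2 + 2 = k + 4 by ring] at h0
  rw [show k + 4 + 4 = k + 8 by ring, show k + 4 + 6 = k + 10 by ring,
    show k + 4 + 2 = k + 6 by ring] at h2
  rw [p4_eq]
  linear_combination (1250 / 147 * x ^ 2) * h0 + 1250 / 147 * 49 / 500 * h2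
    + 1250 / 147 * 442 / 500 * h0 + 1250 / 147 * 9 / 500 * h1 - 1105 / 147 * h0

theorem bulk3e (i : ℕ) (x : ℝ) : p 3 x * p (2 * i + 6) x =
    49 / 600 * p (2 * i + 9) x + 443 / 600 * p (2 * i + 7) x + 9 / 200 * p (2 * i + 5) x
      + 27 / 200 * p (2 * i + 3) x := by
  have h0 := rec_even (i + 1) x
  have h1 := rec_sq (2 * i + 3) x
  have h2 := rec_sq (2 * i + 1) x
  rw [show 2 * (i + 1) + 3 = 2 * i + 5 by ring, show 2 * (i + 1) + 4 = 2 * i + 6 by ring,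
      show 2 * (i + 1) + 5 = 2 * i + 7 by ring] at h0
  rw [show 2 * i + 3 + 4 = 2 * i + 7 by ring, show 2 * i + 3 + 6 = 2 * i + 9 by ring,
    show 2 * i + 3 + 2 = 2 * i + 5 by ring] at h1
  rw [show 2 * i + 1 + 4 = 2 * i + 5 by ring, show 2 * i + 1 + 6 = 2 * i + 7 by ring,
    show 2 * i + 1 + 2 = 2 * i + 3 by ring] at h2
  rw [p3_eq]
  linear_combination (25 * x ^ 2 - 22) / 3 * h0 + 25 / 3 * (1 / 10) * h1
    + 25 / 3 * (9 / 10) * h2

theorem bulk3o (i : ℕ) (x : ℝ) : p 3 x * p (2 * i + 5) x =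
    2401 / 3000 * p (2 * i + 8) x + 49 / 1000 * p (2 * i + 6) x + 443 / 3000 * p (2 * i + 4) x
      + 3 / 1000 * p (2 * i + 2) x := by
  have h0 := rec_odd (i + 1) x
  have h1 := rec_sq (2 * i + 2) x
  have h2 := rec_sq (2 * i) x
  rw [show 2 * (i + 1) + 3 = 2 * i + 5 by ring, show 2 * (i + 1) + 4 = 2 * i + 6 by ring,
      show 2 * (i + 1) + 2 = 2 * i + 4 by ring] at h0
  rw [show 2 * i + 2 + 4 = 2 * i + 6 by ring, show 2 * i + 2 + 6 = 2 * i + 8 by ring,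
    show 2 * i + 2 + 2 = 2 * i + 4 by ring] at h1
  rw [p3_eq]
  linear_combination (25 * x ^ 2 - 22) / 3 * h0 + 25 / 3 * (49 / 50) * h1
    + 25 / 3 * (1 / 50) * h2

theorem bulk5e (i : ℕ) (x : ℝ) : p 5 x * p (2 * i + 8) x =
    49 / 600 * p (2 * i + 13) x + 221 / 300 * p (2 * i + 11) x + 841 / 29400 * p (2 * i + 9) x
      + 1203 / 9800 * p (2 * i + 7) x + 27 / 4900 * p (2 * i + 5) x
      + 243 / 9800 * p (2 * i + 3) x := by
  have h0 := rec_even (i + 2) x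
  have h9 := rec_sq (2 * i + 5) x
  have h7 := rec_sq (2 * i + 3) x
  have h5 := rec_sq (2 * i + 1) x
  have h11 := rec_sq (2 * i + 7) x
  rw [show 2 * (i + 2) + 3 = 2 * i + 7 by ring, show 2 * (i + 2) + 4 = 2 * i + 8 by ring,
      show 2 * (i + 2) + 5 = 2 * i + 9 by ring] at h0
  rw [show 2 * i + 5 + 4 = 2 * i + 9 by ring, show 2 * i + 5 + 6 = 2 * i + 11 by ring,
    show 2 * i + 5 + 2 = 2 * i + 7 by ring] at h9
  rw [show 2 * i + 3 + 4 = 2 * i + 7 by ring, show 2 * i + 3 + 6 = 2 * i + 9 by ring,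
    show 2 * i + 3 + 2 = 2 * i + 5 by ring] at h7
  rw [show 2 * i + 1 + 4 = 2 * i + 5 by ring, show 2 * i + 1 + 6 = 2 * i + 7 by ring,
    show 2 * i + 1 + 2 = 2 * i + 3 by ring] at h5
  rw [show 2 * i + 7 + 4 = 2 * i + 11 by ring, show 2 * i + 7 + 6 = 2 * i + 13 by ring,
    show 2 * i + 7 + 2 = 2 * i + 9 by ring] at h11
  rw [p5_eq]
  linear_combination (12500 * x ^ 4 - 22075 * x ^ 2 + 9722) / 147 * h0
    + (12500 * x ^ 2 - 22075) / 147 * (1 / 10 * h9 + 9 / 10 * h7)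
    + 12500 / 147 * (1 / 10) * (49 / 500 * h11 + 442 / 500 * h9 + 9 / 500 * h7)
    + 12500 / 147 * (9 / 10) * (49 / 500 * h9 + 442 / 500 * h7 + 9 / 500 * h5)

theorem bulk5o (i : ℕ) (x : ℝ) : p 5 x * p (2 * i + 7) x =
    2401 / 3000 * p (2 * i + 12) x + 49 / 1500 * p (2 * i + 10) x + 401 / 3000 * p (2 * i + 8) x
      + 841 / 147000 * p (2 * i + 6) x + 663 / 24500 * p (2 * i + 4) x
      + 27 / 49000 * p (2 * i + 2) x := by
  have h0 := rec_odd (i + 2) x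
  have h8 := rec_sq (2 * i + 4) x
  have h6 := rec_sq (2 * i + 2) x
  have h4 := rec_sq (2 * i) x
  have h10 := rec_sq (2 * i + 6) x
  rw [show 2 * (i + 2) + 3 = 2 * i + 7 by ring, show 2 * (i + 2) + 4 = 2 * i + 8 by ring,
      show 2 * (i + 2) + 2 = 2 * i + 6 by ring] at h0
  rw [show 2 * i + 4 + 4 = 2 * i + 8 by ring, show 2 * i + 4 + 6 = 2 * i + 10 by ring,
    show 2 * i + 4 + 2 = 2 * i + 6 by ring] at h8
  rw [show 2 * i + 2 + 4 = 2 * i + 6 by ring, show 2 * i + 2 + 6 = 2 * i + 8 by ring,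
    show 2 * i + 2 + 2 = 2 * i + 4 by ring] at h6
  rw [show 2 * i + 6 + 4 = 2 * i + 10 by ring, show 2 * i + 6 + 6 = 2 * i + 12 by ring,
    show 2 * i + 6 + 2 = 2 * i + 8 by ring] at h10
  rw [p5_eq]
  linear_combination (12500 * x ^ 4 - 22075 * x ^ 2 + 9722) / 147 * h0
    + (12500 * x ^ 2 - 22075) / 147 * (49 / 50 * h8 + 1 / 50 * h6)
    + 12500 / 147 * (49 / 50) * (49 / 500 * h10 + 442 / 500 * h8 + 9 / 500 * h6)
    + 12500 / 147 * (1 / 50) * (49 / 500 * h8 + 442 / 500 * h6 + 9 / 500 * h4)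

theorem sp22 (x : ℝ) : p 2 x * p 2 x = 49 / 150 * p 4 x + 7 / 50 * p 2 x + 8 / 15 * p 0 x := by
  rw [p4_eq, p2_eq, p_zero]; ring
theorem sp23 (x : ℝ) : p 2 x * p 3 x = 49 / 300 * p 5 x + 81 / 100 * p 3 x + 2 / 75 * p 1 x := by
  rw [p5_eq, p2_eq, p3_eq, p_one]; ring
theorem sp33 (x : ℝ) : p 3 x * p 3 x = 2401 / 3000 * p 6 x + 49 / 750 * p 4 x
    + 81 / 1000 * p 2 x + 4 / 75 * p 0 x := by
  rw [p6_eq, p2_eq, p3_eq, p4_eq, p_zero]; ring
theorem sp34 (x : ℝ) : p 3 x * p 4 x = 49 / 600 * p 7 x + 443 / 600 * p 5 x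
    + 3 / 50 * p 3 x + 3 / 25 * p 1 x := by
  rw [p7_eq, p5_eq, p3_eq, p4_eq, p_one]; ring
theorem sp44 (x : ℝ) : p 4 x * p 4 x = 49 / 600 * p 8 x + 221 / 300 * p 6 x
    + 1723 / 29400 * p 4 x + 363 / 4900 * p 2 x + 12 / 245 * p 0 x := by
  rw [p8_eq, p6_eq, p2_eq, p4_eq, p_zero]; ring
theorem sp45 (x : ℝ) : p 4 x * p 5 x = 49 / 600 * p 9 x + 221 / 300 * p 7 x
    + 641 / 14700 * p 5 x + 1329 / 9800 * p 3 x + 3 / 1225 * p 1 x := by
  rw [p9_eq, p7_eq, p5_eq, p4_eq, p3_eq, p_one]; ring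
theorem sp55 (x : ℝ) : p 5 x * p 5 x = 2401 / 3000 * p 10 x + 49 / 1500 * p 8 x
    + 401 / 3000 * p 6 x + 641 / 73500 * p 4 x + 363 / 24500 * p 2 x + 12 / 1225 * p 0 x := by
  rw [p10_eq, p8_eq, p6_eq, p5_eq, p4_eq, p2_eq, p_zero]; ring
theorem sp56 (x : ℝ) : p 5 x * p 6 x = 49 / 600 * p 11 x + 221 / 300 * p 9 x
    + 841 / 29400 * p 7 x + 1203 / 9800 * p 5 x + 81 / 9800 * p 3 x + 27 / 1225 * p 1 x := by
  rw [p11_eq, p9_eq, p7_eq, p6_eq, p5_eq, p3_eq, p_one]; ring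

/-! ### The wave equation -/

/-- the difference of two consecutive products -/
noncomputable def F (m n : ℕ) (x : ℝ) : ℝ := p (m + 2) x * p (n + 2) x - 9 / 49 * (p m x * p n x)

theorem F_shift (a b : ℕ) (x : ℝ) : F (a + 4) (b + 2) x = F (a + 2) (b + 4) x := by
  unfold F
  rw [show a + 4 + 2 = a + 6 by ring, show b + 2 + 2 = b + 4 by ring,
    show a + 2 + 2 = a + 4 by ring, show b + 4 + 2 = b + 6 by ring]
  linear_combination (500 / 49) * (p (a + 4) x * rec_sq b x - p (b + 4) x * rec_sq a x)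

theorem F_even (j b : ℕ) (x : ℝ) : F (2 * j + 2) (b + 2) x = F 2 (2 * j + b + 2) x := by
  induction j generalizing b with
  | zero => simp
  | succ j ih =>
    rw [show 2 * (j + 1) + 2 = 2 * j + 4 by ring, F_shift, ih (b + 2)]
    congr 1
    ring

theorem F_odd (j b : ℕ) (x : ℝ) : F (2 * j + 3) (b + 2) x = F 3 (2 * j + b + 2) x := by
  induction j generalizing b with
  | zero => simp
  | succ j ih =>
    rw [show 2 * (j + 1) + 3 = 2 * j + 1 + 4 by ring, F_shift,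
      show 2 * j + 1 + 2 = 2 * j + 3 by ring, ih (b + 2)]
    congr 1
    ring

theorem F2_eq (k : ℕ) (x : ℝ) : F 2 (k + 4) x = 49 / 600 * p (k + 10) x + 221 / 300 * p (k + 8) x
    + 2 / 147 * p (k + 6) x - 9 / 700 * p (k + 4) x - 27 / 9800 * p (k + 2) x := by
  unfold F
  rw [show 2 + 2 = 4 from rfl, show k + 4 + 2 = k + 6 by ring, bulk4, bulk2]
  ring

theorem F3e_eq (i : ℕ) (x : ℝ) : F 3 (2 * i + 6) x = 49 / 600 * p (2 * i + 13) x
    + 221 / 300 * p (2 * i + 11) x + 2 / 147 * p (2 * i + 9) x - 9 / 700 * p (2 * i + 7) x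
    - 27 / 9800 * p (2 * i + 5) x := by
  unfold F
  rw [show 3 + 2 = 5 from rfl, show 2 * i + 6 + 2 = 2 * i + 8 by ring, bulk5e, bulk3e]
  ring

theorem F3o_eq (i : ℕ) (x : ℝ) : F 3 (2 * i + 5) x = 2401 / 3000 * p (2 * i + 12) x
    + 49 / 1500 * p (2 * i + 10) x - 1 / 75 * p (2 * i + 8) x - 241 / 73500 * p (2 * i + 6) x
    - 3 / 49000 * p (2 * i + 4) x := by
  unfold F
  rw [show 3 + 2 = 5 from rfl, show 2 * i + 5 + 2 = 2 * i + 7 by ring, bulk5o, bulk3o]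
  ring

/-! ### The cones -/

/-- nonnegative combinations of the `p k`, `l ≤ k ≤ u` -/
def Cone (l u : ℕ) (f : ℝ → ℝ) : Prop :=
  ∃ g : ℕ → ℝ, (∀ k, 0 ≤ g k) ∧ ∀ x, f x = ∑ k ∈ Icc l u, g k * p k x

theorem Cone.congr {l u : ℕ} {f g : ℝ → ℝ} (hf : Cone l u f) (h : ∀ x, g x = f x) :
    Cone l u g := by
  obtain ⟨c, hc, h2⟩ := hf
  exact ⟨c, hc, fun x => by rw [h x, h2 x]⟩

theorem Cone.add {l u : ℕ} {f g : ℝ → ℝ} (hf : Cone l u f) (hg : Cone l u g) :
    Cone l u (fun x => f x + g x) := by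
  obtain ⟨c, hc, h⟩ := hf
  obtain ⟨d, hd, h2⟩ := hg
  refine ⟨fun k => c k + d k, fun k => add_nonneg (hc k) (hd k), fun x => ?_⟩
  beta_reduce
  rw [h x, h2 x, ← Finset.sum_add_distrib]
  exact Finset.sum_congr rfl fun k _ => by ring

theorem Cone.smul {l u : ℕ} {f : ℝ → ℝ} (hf : Cone l u f) {t : ℝ} (ht : 0 ≤ t) :
    Cone l u (fun x => t * f x) := by
  obtain ⟨c, hc, h⟩ := hf
  refine ⟨fun k => t * c k, fun k => mul_nonneg ht (hc k), fun x => ?_⟩
  beta_reduce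
  rw [h x, Finset.mul_sum]
  exact Finset.sum_congr rfl fun k _ => by ring

theorem Cone.pt {l u k : ℕ} {t : ℝ} (h1 : l ≤ k) (h2 : k ≤ u) (ht : 0 ≤ t) :
    Cone l u (fun x => t * p k x) := by
  refine ⟨fun i => if i = k then t else 0,
    fun i => by beta_reduce; split_ifs <;> simp [ht], fun x => ?_⟩
  beta_reduce
  rw [Finset.sum_eq_single k]
  · simp
  · intro b _ hb; simp [hb]
  · intro h; exact absurd (Finset.mem_Icc.2 ⟨h1, h2⟩) h

theorem Cone.mono {l u l' u' : ℕ} {f : ℝ → ℝ} (hf : Cone l u f) (h1 : l' ≤ l) (h2 : u ≤ u') :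
    Cone l' u' f := by
  obtain ⟨c, hc, h⟩ := hf
  refine ⟨fun k => if k ∈ Icc l u then c k else 0,
    fun k => by beta_reduce; split_ifs <;> simp [hc], fun x => ?_⟩
  rw [h x]
  have hs : Icc l u ⊆ Icc l' u' := Finset.Icc_subset_Icc h1 h2
  rw [← Finset.sum_subset hs]
  · exact Finset.sum_congr rfl fun k hk => by beta_reduce; rw [if_pos hk]
  · intro k _ hk; beta_reduce; rw [if_neg hk, zero_mul]

/-! ### The claims -/

/-- even `m` -/
def ClA (j d : ℕ) : Prop := Cone d (4 * j + 4 + d) (fun x =>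
  p (2 * j + 2) x * p (2 * j + 2 + d) x
    - (2 / 25 * p (4 * j + 4 + d) x + 1 / 10 * p (4 * j + 2 + d) x + 1 / 50 * p (4 * j + d) x))

/-- odd `m`, even `n` -/
def ClB (j e : ℕ) : Prop := Cone (2 * e + 1) (4 * j + 7 + 2 * e) (fun x =>
  p (2 * j + 3) x * p (2 * j + 4 + 2 * e) x
    - (2 / 25 * p (4 * j + 7 + 2 * e) x + 1 / 10 * p (4 * j + 5 + 2 * e) x
      + 1 / 50 * p (4 * j + 3 + 2 * e) x))

/-- odd `m`, odd `n` -/
def ClC (j e : ℕ) : Prop := Cone (2 * e) (4 * j + 6 + 2 * e) (fun x =>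
  p (2 * j + 3) x * p (2 * j + 3 + 2 * e) x
    - (1 / 2 * p (4 * j + 6 + 2 * e) x + 3 / 100 * p (4 * j + 4 + 2 * e) x
      + 1 / 100 * p (4 * j + 2 + 2 * e) x))

theorem clA_zero (d : ℕ) : ClA 0 d := by
  unfold ClA
  match d with
  | 0 =>
    refine ((((Cone.pt (k := 4) (t := 49 / 150 - 2 / 25) ?_ ?_ ?_).add
      (Cone.pt (k := 2) (t := 7 / 50 - 1 / 10) ?_ ?_ ?_)).add
      (Cone.pt (k := 0) (t := 8 / 15 - 1 / 50) ?_ ?_ ?_))).congr fun x => ?_
    any_goals first | omega | norm_num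
    linear_combination sp22 x
  | 1 =>
    refine ((((Cone.pt (k := 5) (t := 49 / 300 - 2 / 25) ?_ ?_ ?_).add
      (Cone.pt (k := 3) (t := 81 / 100 - 1 / 10) ?_ ?_ ?_)).add
      (Cone.pt (k := 1) (t := 2 / 75 - 1 / 50) ?_ ?_ ?_))).congr fun x => ?_
    any_goals first | omega | norm_num
    linear_combination sp23 x
  | k + 2 =>
    refine ((((Cone.pt (k := k + 6) (t := 49 / 300 - 2 / 25) ?_ ?_ ?_).add
      (Cone.pt (k := k + 4) (t := 121 / 150 - 1 / 10) ?_ ?_ ?_)).add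
      (Cone.pt (k := k + 2) (t := 3 / 100 - 1 / 50) ?_ ?_ ?_))).congr fun x => ?_
    any_goals first | omega | norm_num
    rw [show 2 + (k + 2) = k + 4 by ring, show 4 + (k + 2) = k + 6 by ring]
    linear_combination bulk2 k x


theorem clA_special0 : ClA 1 0 := by
  unfold ClA
  refine (((((Cone.pt (k := 8) (t := 49 / 600 - 2 / 25) ?_ ?_ ?_).add
    (Cone.pt (k := 6) (t := 221 / 300 - 1 / 10) ?_ ?_ ?_)).add
    (Cone.pt (k := 4) (t := 1723 / 29400 - 1 / 50) ?_ ?_ ?_)).add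
    (Cone.pt (k := 2) (t := 363 / 4900) ?_ ?_ ?_)).add
    (Cone.pt (k := 0) (t := 12 / 245) ?_ ?_ ?_)).congr fun x => ?_
  any_goals first | omega | norm_num
  linear_combination sp44 x

theorem clA_special1 : ClA 1 1 := by
  unfold ClA
  refine (((((Cone.pt (k := 9) (t := 49 / 600 - 2 / 25) ?_ ?_ ?_).add
    (Cone.pt (k := 7) (t := 221 / 300 - 1 / 10) ?_ ?_ ?_)).add
    (Cone.pt (k := 5) (t := 641 / 14700 - 1 / 50) ?_ ?_ ?_)).add
    (Cone.pt (k := 3) (t := 1329 / 9800) ?_ ?_ ?_)).add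
    (Cone.pt (k := 1) (t := 3 / 1225) ?_ ?_ ?_)).congr fun x => ?_
  any_goals first | omega | norm_num
  linear_combination sp45 x

theorem clA_step {j d k : ℕ} (hk : 4 * j + d = k + 2) (h : ClA j d) : ClA (j + 1) d := by
  unfold ClA at h ⊢
  refine ((((((Cone.pt (k := k + 10) (t := 49 / 600 - 2 / 25) ?_ ?_ ?_).add
    (Cone.pt (k := k + 8) (t := 221 / 300 - 1 / 10) ?_ ?_ ?_)).add
    (Cone.pt (k := k + 6) (t := 2 / 147 + 9 / 49 * (2 / 25) - 1 / 50) ?_ ?_ ?_)).add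
    (Cone.pt (k := k + 4) (t := - 9 / 700 + 9 / 49 * (1 / 10)) ?_ ?_ ?_)).add
    (Cone.pt (k := k + 2) (t := - 27 / 9800 + 9 / 49 * (1 / 50)) ?_ ?_ ?_)).add
    ((h.mono (l' := d) (u' := 4 * (j + 1) + 4 + d) le_rfl (by omega)).smul
      (t := 9 / 49) (by norm_num))).congr fun x => ?_
  any_goals first | omega | norm_num
  have h1 := F_even j (2 * j + d) x
  rw [show 2 * j + (2 * j + d) + 2 = k + 4 by omega, F2_eq] at h1
  unfold F at h1
  rw [show 2 * (j + 1) + 2 = 2 * j + 2 + 2 by ring, show 2 * j + 2 + 2 + d = 2 * j + d + 2 + 2 by ring,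
    show 4 * (j + 1) + 4 + d = k + 10 by omega, show 4 * (j + 1) + 2 + d = k + 8 by omega,
    show 4 * (j + 1) + d = k + 6 by omega, show 4 * j + 4 + d = k + 6 by omega,
    show 4 * j + 2 + d = k + 4 by omega, hk, show 2 * j + 2 + d = 2 * j + d + 2 by ring]
  linear_combination h1

theorem clA (j d : ℕ) : ClA j d := by
  induction j with
  | zero => exact clA_zero d
  | succ j ih =>
    rcases Nat.eq_zero_or_pos j with rfl | hj
    · match d with
      | 0 => exact clA_special0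
      | 1 => exact clA_special1
      | k + 2 => exact clA_step (k := k) (by omega) ih
    · obtain ⟨k, hk⟩ : ∃ k, 4 * j + d = k + 2 := ⟨4 * j + d - 2, by omega⟩
      exact clA_step hk ih

theorem clB_zero (e : ℕ) : ClB 0 e := by
  unfold ClB
  match e with
  | 0 =>
    refine ((((Cone.pt (k := 7) (t := 49 / 600 - 2 / 25) ?_ ?_ ?_).add
      (Cone.pt (k := 5) (t := 443 / 600 - 1 / 10) ?_ ?_ ?_)).add
      (Cone.pt (k := 3) (t := 3 / 50 - 1 / 50) ?_ ?_ ?_)).add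
      (Cone.pt (k := 1) (t := 3 / 25) ?_ ?_ ?_)).congr fun x => ?_
    any_goals first | omega | norm_num
    linear_combination sp34 x
  | i + 1 =>
    refine ((((Cone.pt (k := 2 * i + 9) (t := 49 / 600 - 2 / 25) ?_ ?_ ?_).add
      (Cone.pt (k := 2 * i + 7) (t := 443 / 600 - 1 / 10) ?_ ?_ ?_)).add
      (Cone.pt (k := 2 * i + 5) (t := 9 / 200 - 1 / 50) ?_ ?_ ?_)).add
      (Cone.pt (k := 2 * i + 3) (t := 27 / 200) ?_ ?_ ?_)).congr fun x => ?_
    any_goals first | omega | norm_num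
    rw [show 4 + 2 * (i + 1) = 2 * i + 6 by ring, show 7 + 2 * (i + 1) = 2 * i + 9 by ring,
      show 5 + 2 * (i + 1) = 2 * i + 7 by ring, show 3 + 2 * (i + 1) = 2 * i + 5 by ring]
    linear_combination bulk3e i x

theorem clB_special : ClB 1 0 := by
  unfold ClB
  refine ((((((Cone.pt (k := 11) (t := 49 / 600 - 2 / 25) ?_ ?_ ?_).add
    (Cone.pt (k := 9) (t := 221 / 300 - 1 / 10) ?_ ?_ ?_)).add
    (Cone.pt (k := 7) (t := 841 / 29400 - 1 / 50) ?_ ?_ ?_)).add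
    (Cone.pt (k := 5) (t := 1203 / 9800) ?_ ?_ ?_)).add
    (Cone.pt (k := 3) (t := 81 / 9800) ?_ ?_ ?_)).add
    (Cone.pt (k := 1) (t := 27 / 1225) ?_ ?_ ?_)).congr fun x => ?_
  any_goals first | omega | norm_num
  linear_combination sp56 x

theorem clB_step {j e i : ℕ} (hi : 2 * j + e = i + 1) (h : ClB j e) : ClB (j + 1) e := by
  unfold ClB at h ⊢
  refine ((((((Cone.pt (k := 2 * i + 13) (t := 49 / 600 - 2 / 25) ?_ ?_ ?_).add
    (Cone.pt (k := 2 * i + 11) (t := 221 / 300 - 1 / 10) ?_ ?_ ?_)).add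
    (Cone.pt (k := 2 * i + 9) (t := 2 / 147 + 9 / 49 * (2 / 25) - 1 / 50) ?_ ?_ ?_)).add
    (Cone.pt (k := 2 * i + 7) (t := - 9 / 700 + 9 / 49 * (1 / 10)) ?_ ?_ ?_)).add
    (Cone.pt (k := 2 * i + 5) (t := - 27 / 9800 + 9 / 49 * (1 / 50)) ?_ ?_ ?_)).add
    ((h.mono (l' := 2 * e + 1) (u' := 4 * (j + 1) + 7 + 2 * e) le_rfl (by omega)).smul
      (t := 9 / 49) (by norm_num))).congr fun x => ?_
  any_goals first | omega | norm_num
  have h1 := F_odd j (2 * j + 2 + 2 * e) x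
  rw [show 2 * j + (2 * j + 2 + 2 * e) + 2 = 2 * i + 6 by omega, F3e_eq] at h1
  unfold F at h1
  rw [show 2 * (j + 1) + 3 = 2 * j + 3 + 2 by ring,
    show 2 * (j + 1) + 4 + 2 * e = 2 * j + 2 + 2 * e + 2 + 2 by ring,
    show 4 * (j + 1) + 7 + 2 * e = 2 * i + 13 by omega,
    show 4 * (j + 1) + 5 + 2 * e = 2 * i + 11 by omega,
    show 4 * (j + 1) + 3 + 2 * e = 2 * i + 9 by omega,
    show 4 * j + 7 + 2 * e = 2 * i + 9 by omega, show 4 * j + 5 + 2 * e = 2 * i + 7 by omega,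
    show 4 * j + 3 + 2 * e = 2 * i + 5 by omega,
    show 2 * j + 4 + 2 * e = 2 * j + 2 + 2 * e + 2 by ring]
  linear_combination h1

theorem clB (j e : ℕ) : ClB j e := by
  induction j with
  | zero => exact clB_zero e
  | succ j ih =>
    rcases Nat.eq_zero_or_pos (2 * j + e) with h | h
    · obtain ⟨rfl, rfl⟩ : j = 0 ∧ e = 0 := by omega
      exact clB_special
    · exact clB_step (i := 2 * j + e - 1) (by omega) ih

theorem clC_zero (e : ℕ) : ClC 0 e := by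
  unfold ClC
  match e with
  | 0 =>
    refine ((((Cone.pt (k := 6) (t := 2401 / 3000 - 1 / 2) ?_ ?_ ?_).add
      (Cone.pt (k := 4) (t := 49 / 750 - 3 / 100) ?_ ?_ ?_)).add
      (Cone.pt (k := 2) (t := 81 / 1000 - 1 / 100) ?_ ?_ ?_)).add
      (Cone.pt (k := 0) (t := 4 / 75) ?_ ?_ ?_)).congr fun x => ?_
    any_goals first | omega | norm_num
    linear_combination sp33 x
  | i + 1 =>
    refine ((((Cone.pt (k := 2 * i + 8) (t := 2401 / 3000 - 1 / 2) ?_ ?_ ?_).add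
      (Cone.pt (k := 2 * i + 6) (t := 49 / 1000 - 3 / 100) ?_ ?_ ?_)).add
      (Cone.pt (k := 2 * i + 4) (t := 443 / 3000 - 1 / 100) ?_ ?_ ?_)).add
      (Cone.pt (k := 2 * i + 2) (t := 3 / 1000) ?_ ?_ ?_)).congr fun x => ?_
    any_goals first | omega | norm_num
    rw [show 3 + 2 * (i + 1) = 2 * i + 5 by ring, show 6 + 2 * (i + 1) = 2 * i + 8 by ring,
      show 4 + 2 * (i + 1) = 2 * i + 6 by ring, show 2 + 2 * (i + 1) = 2 * i + 4 by ring]
    linear_combination bulk3o i x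

theorem clC_special : ClC 1 0 := by
  unfold ClC
  refine ((((((Cone.pt (k := 10) (t := 2401 / 3000 - 1 / 2) ?_ ?_ ?_).add
    (Cone.pt (k := 8) (t := 49 / 1500 - 3 / 100) ?_ ?_ ?_)).add
    (Cone.pt (k := 6) (t := 401 / 3000 - 1 / 100) ?_ ?_ ?_)).add
    (Cone.pt (k := 4) (t := 641 / 73500) ?_ ?_ ?_)).add
    (Cone.pt (k := 2) (t := 363 / 24500) ?_ ?_ ?_)).add
    (Cone.pt (k := 0) (t := 12 / 1225) ?_ ?_ ?_)).congr fun x => ?_
  any_goals first | omega | norm_num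
  linear_combination sp55 x

theorem clC_step {j e i : ℕ} (hi : 2 * j + e = i + 1) (h : ClC j e) : ClC (j + 1) e := by
  unfold ClC at h ⊢
  refine ((((((Cone.pt (k := 2 * i + 12) (t := 2401 / 3000 - 1 / 2) ?_ ?_ ?_).add
    (Cone.pt (k := 2 * i + 10) (t := 49 / 1500 - 3 / 100) ?_ ?_ ?_)).add
    (Cone.pt (k := 2 * i + 8) (t := - 1 / 75 + 9 / 49 * (1 / 2) - 1 / 100) ?_ ?_ ?_)).add
    (Cone.pt (k := 2 * i + 6) (t := - 241 / 73500 + 9 / 49 * (3 / 100)) ?_ ?_ ?_)).add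
    (Cone.pt (k := 2 * i + 4) (t := - 3 / 49000 + 9 / 49 * (1 / 100)) ?_ ?_ ?_)).add
    ((h.mono (l' := 2 * e) (u' := 4 * (j + 1) + 6 + 2 * e) le_rfl (by omega)).smul
      (t := 9 / 49) (by norm_num))).congr fun x => ?_
  any_goals first | omega | norm_num
  have h1 := F_odd j (2 * j + 1 + 2 * e) x
  rw [show 2 * j + (2 * j + 1 + 2 * e) + 2 = 2 * i + 5 by omega, F3o_eq] at h1
  unfold F at h1
  rw [show 2 * (j + 1) + 3 = 2 * j + 3 + 2 by ring,
    show 2 * j + 3 + 2 + 2 * e = 2 * j + 1 + 2 * e + 2 + 2 by ring,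
    show 4 * (j + 1) + 6 + 2 * e = 2 * i + 12 by omega,
    show 4 * (j + 1) + 4 + 2 * e = 2 * i + 10 by omega,
    show 4 * (j + 1) + 2 + 2 * e = 2 * i + 8 by omega,
    show 4 * j + 6 + 2 * e = 2 * i + 8 by omega, show 4 * j + 4 + 2 * e = 2 * i + 6 by omega,
    show 4 * j + 2 + 2 * e = 2 * i + 4 by omega,
    show 2 * j + 3 + 2 * e = 2 * j + 1 + 2 * e + 2 by ring]
  linear_combination h1

theorem clC (j e : ℕ) : ClC j e := by
  induction j with
  | zero => exact clC_zero e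
  | succ j ih =>
    rcases Nat.eq_zero_or_pos (2 * j + e) with h | h
    · obtain ⟨rfl, rfl⟩ : j = 0 ∧ e = 0 := by omega
      exact clC_special
    · exact clC_step (i := 2 * j + e - 1) (by omega) ih

/-- products are nonnegative combinations -/
theorem prod_of_le {m n : ℕ} (h : m ≤ n) : Cone (n - m) (m + n) (fun x => p m x * p n x) := by
  rcases Nat.lt_or_ge m 2 with hm | hm
  · rcases Nat.eq_zero_or_pos m with rfl | hm0
    · refine (Cone.pt (k := n) (t := 1) (by omega) (by omega) (by norm_num)).congr fun x => ?_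
      rw [p_zero]
    · obtain rfl : m = 1 := by omega
      obtain ⟨k, rfl⟩ : ∃ k, n = k + 1 := ⟨n - 1, by omega⟩
      refine ((Cone.pt (k := k + 2) (t := 1 - cc (k + 1)) ?_ ?_ ?_).add
        (Cone.pt (k := k) (t := cc (k + 1)) ?_ ?_ ?_)).congr fun x => ?_
      · omega
      · omega
      · have := cc_lt (k + 1); linarith
      · omega
      · omega
      · exact cc_nonneg _
      · rw [p_one]; exact rec_gen k x
  · obtain ⟨d, rfl⟩ : ∃ d, n = m + d := ⟨n - m, by omega⟩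
    rcases Nat.even_or_odd' m with ⟨i, hi | hi⟩
    · obtain ⟨j, rfl⟩ : ∃ j, m = 2 * j + 2 := ⟨i - 1, by omega⟩
      have h1 := clA j d
      unfold ClA at h1
      refine ((((h1.mono (l' := 2 * j + 2 + d - (2 * j + 2)) (u' := 2 * j + 2 + (2 * j + 2 + d))
        (by omega) (by omega)).add
        (Cone.pt (k := 4 * j + 4 + d) (t := 2 / 25) ?_ ?_ ?_)).add
        (Cone.pt (k := 4 * j + 2 + d) (t := 1 / 10) ?_ ?_ ?_)).add
        (Cone.pt (k := 4 * j + d) (t := 1 / 50) ?_ ?_ ?_)).congr fun x => ?_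
      any_goals first | omega | norm_num
      ring
    · obtain ⟨j, rfl⟩ : ∃ j, m = 2 * j + 3 := ⟨i - 1, by omega⟩
      rcases Nat.even_or_odd' d with ⟨e, he | he⟩
      · subst he
        have h1 := clC j e
        unfold ClC at h1
        refine ((((h1.mono (l' := 2 * j + 3 + 2 * e - (2 * j + 3))
          (u' := 2 * j + 3 + (2 * j + 3 + 2 * e)) (by omega) (by omega)).add
          (Cone.pt (k := 4 * j + 6 + 2 * e) (t := 1 / 2) ?_ ?_ ?_)).add
          (Cone.pt (k := 4 * j + 4 + 2 * e) (t := 3 / 100) ?_ ?_ ?_)).add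
          (Cone.pt (k := 4 * j + 2 + 2 * e) (t := 1 / 100) ?_ ?_ ?_)).congr fun x => ?_
        any_goals first | omega | norm_num
        ring
      · subst he
        have h1 := clB j e
        unfold ClB at h1
        refine ((((h1.mono (l' := 2 * j + 3 + (2 * e + 1) - (2 * j + 3))
          (u' := 2 * j + 3 + (2 * j + 3 + (2 * e + 1))) (by omega) (by omega)).add
          (Cone.pt (k := 4 * j + 7 + 2 * e) (t := 2 / 25) ?_ ?_ ?_)).add
          (Cone.pt (k := 4 * j + 5 + 2 * e) (t := 1 / 10) ?_ ?_ ?_)).add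
          (Cone.pt (k := 4 * j + 3 + 2 * e) (t := 1 / 50) ?_ ?_ ?_)).congr fun x => ?_
        any_goals first | omega | norm_num
        rw [show 2 * j + 3 + (2 * e + 1) = 2 * j + 4 + 2 * e by ring]
        ring

/-- nonnegative linearization -/
theorem lin (m n : ℕ) : ∃ g : ℕ → ℝ, (∀ k, 0 ≤ g k) ∧
    ∀ x, p m x * p n x = ∑ k ∈ Icc (max (m - n) (n - m)) (m + n), g k * p k x := by
  rcases le_total m n with h | h
  · rw [show max (m - n) (n - m) = n - m by omega]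
    exact prod_of_le h
  · rw [show max (m - n) (n - m) = m - n by omega, add_comm m n]
    obtain ⟨g, h1, h2⟩ := prod_of_le h
    exact ⟨g, h1, fun x => by rw [mul_comm]; exact h2 x⟩

end Pool.Agent.Q84.PH
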