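import Pool.Agent.Q84.PP1
import Pool.Agent.Q84.PP5

set_option autoImplicit false

/-! # Consecutive primes: the pure set of the numbers which are recurring gaps for several classes -/

namespace Pool.Agent.Q84.PP

open Finset Filter Pool.Agent.H947R3.GM Pool.Agent.H732R3.BigQ Pool.Agent.W59.GB

lemma pure_gap {q a : ℕ} (hq : 0 < q) (ha : a.Coprime q) : ∃ K : ℕ, 1 ≤ K ∧ ∀ c : ℕ, 0 < c →
    (4 * K).factorial ∣ c → Pure {k | c * k ∈ GapB q a} 4 K := by
  classical
  obtain ⟨K, hK, h⟩ := four_gap hq ha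
  refine ⟨K, hK, fun c hc hcK H hH => ?_⟩
  obtain ⟨g, g', i, i', h1, h2, h3⟩ := h (fun g i => c * H g i) (by
    refine ⟨fun x y hxy => hH (Nat.eq_of_mul_eq_mul_left hc hxy), fun p hp _ => ?_⟩
    by_cases hpK : p ≤ 4 * K
    · refine ⟨1, fun g i hd => ?_⟩
      have h1 : (p : ℤ) ∣ ((c * H g i : ℕ) : ℤ) := by
        exact_mod_cast ((Nat.dvd_factorial hp.pos hpK).trans hcK).mul_right _
      have h2 : (p : ℤ) ∣ 1 := (dvd_add_left h1).1 hd
      have h3 : p ∣ 1 := by exact_mod_cast h2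
      exact hp.one_lt.ne' (Nat.dvd_one.1 h3)
    · have : NeZero p := ⟨hp.ne_zero⟩
      obtain ⟨z, -, hz⟩ := exists_mem_notMem_of_card_lt_card
        (s := (univ : Finset (Fin 4 × Fin K)).image
          (fun x => -((c * H x.1 x.2 : ℕ) : ZMod p))) (t := (univ : Finset (ZMod p))) (by
        refine lt_of_le_of_lt card_image_le ?_
        rw [card_univ, card_univ, ZMod.card, Fintype.card_prod, Fintype.card_fin, Fintype.card_fin]
        omega)
      refine ⟨(z.val : ℤ), fun g i hd => hz ?_⟩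
      rw [mem_image]
      refine ⟨(g, i), mem_univ _, ?_⟩
      have h1 : (((z.val : ℤ) + ((c * H g i : ℕ) : ℤ) : ℤ) : ZMod p) = 0 :=
        (ZMod.intCast_zmod_eq_zero_iff_dvd _ p).2 hd
      push_cast at h1 ⊢
      rw [ZMod.natCast_zmod_val] at h1
      linear_combination -h1)
  refine ⟨g, g', i, i', h1, Nat.lt_of_mul_lt_mul_left h2, ?_⟩
  show c * (H g' i' - H g i) ∈ GapB q a
  rw [Nat.mul_sub]
  exact h3

/-- the set of the `k` such that all `A_j N k` are recurring gaps is pure of order `R r + 1` -/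
theorem pure_all (r : ℕ) (hr : 0 < r) (A q a : Fin r → ℕ) (hA : ∀ j, 0 < A j) (hq : ∀ j, 0 < q j)
    (ha : ∀ j, (a j).Coprime (q j)) : ∃ M K : ℕ, 0 < M ∧ ∀ N : ℕ, 0 < N → M ∣ N →
      Pure {k | ∀ j, ∃ g ∈ GapB (q j) (a j), q j * g = A j * (N * k)} (R r + 1) K := by
  classical
  choose K hK hp using fun j => pure_gap (hq j) (ha j)
  obtain ⟨K₀, hK₀⟩ : ∃ K₀ : ℕ, ∀ j, K j ≤ K₀ := ⟨univ.sup K, fun j => le_sup (mem_univ j)⟩
  obtain ⟨K', hK', hint⟩ := inter r K₀ hr
  refine ⟨(∏ j, q j) * (4 * K₀).factorial, K',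
    Nat.mul_pos (prod_pos fun j _ => hq j) (Nat.factorial_pos _), fun N hN hd => ?_⟩
  have hc : ∀ j, ∃ c : ℕ, 0 < c ∧ (4 * K j).factorial ∣ c ∧ q j * c = A j * N := by
    intro j
    obtain ⟨t, rfl⟩ := hd
    obtain ⟨s, hs⟩ : q j ∣ ∏ j, q j := dvd_prod_of_mem q (mem_univ j)
    have ht : 0 < t := Nat.pos_of_ne_zero (by rintro rfl; simp at hN)
    have hs0 : 0 < s := Nat.pos_of_ne_zero (by
      rintro rfl
      rw [mul_zero] at hs
      have := prod_pos (s := (univ : Finset (Fin r))) (fun j _ => hq j)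
      omega)
    refine ⟨A j * (s * (4 * K₀).factorial * t), Nat.mul_pos (hA j)
      (Nat.mul_pos (Nat.mul_pos hs0 (Nat.factorial_pos _)) ht), ?_, ?_⟩
    · have h1 : (4 * K j).factorial ∣ (4 * K₀).factorial :=
        Nat.factorial_dvd_factorial (Nat.mul_le_mul_left 4 (hK₀ j))
      exact ((h1.mul_left s).mul_right t).mul_left _
    · rw [hs]
      ring
  choose c hc0 hcK hcq using hc
  have hD := hint (fun j => {k | c j * k ∈ GapB (q j) (a j)})
    (fun j => (hp j (c j) (hc0 j) (hcK j)).mono (hK₀ j))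
  intro H hH
  obtain ⟨g, g', i, i', h1, h2, h3⟩ := hD H hH
  refine ⟨g, g', i, i', h1, h2, fun j => ⟨_, h3 j, ?_⟩⟩
  rw [← mul_assoc, hcq, mul_assoc]

end Pool.Agent.Q84.PP
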