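import Mathlib

set_option autoImplicit false

namespace Q84.Pauli

open MeasureTheory Filter Complex

/-- indicator that the `k`-th ternary digit of `x` is `1` -/
noncomputable def d (k : ℕ) (x : ℝ) : ℝ := if ⌊(3 : ℝ) ^ (k + 1) * x⌋ % 3 = 1 then 1 else 0

lemma d_nonneg (k : ℕ) (x : ℝ) : 0 ≤ d k x := by unfold d; split_ifs <;> norm_num
lemma d_le (k : ℕ) (x : ℝ) : d k x ≤ 1 := by unfold d; split_ifs <;> norm_num
lemma d_abs (k : ℕ) (x : ℝ) : |d k x| ≤ 1 := by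
  rw [abs_of_nonneg (d_nonneg k x)]; exact d_le k x

lemma d_meas (k : ℕ) : Measurable (d k) := by
  unfold d
  refine Measurable.ite ?_ measurable_const measurable_const
  have : Measurable fun x : ℝ => ⌊(3 : ℝ) ^ (k + 1) * x⌋ := by fun_prop
  exact this (MeasurableSpace.measurableSet_top (s := {n : ℤ | n % 3 = 1}))

/-- the phase -/
noncomputable def Ph (t : ℕ → ℝ) (x : ℝ) : ℝ := ∑' k, t k * d k x

lemma sum_td {t : ℕ → ℝ} (ht : Summable fun k => |t k|) (x : ℝ) :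
    Summable fun k => t k * d k x := by
  refine Summable.of_norm_bounded ht fun k => ?_
  rw [Real.norm_eq_abs, abs_mul]
  exact mul_le_of_le_one_right (abs_nonneg _) (d_abs k x)

lemma Ph_meas {t : ℕ → ℝ} (ht : Summable fun k => |t k|) : Measurable (Ph t) := by
  refine measurable_of_tendsto_metrizable (f := fun n x => ∑ k ∈ Finset.range n, t k * d k x)
    (fun n => ?_) ?_
  · exact Finset.measurable_fun_sum _ fun k _ => (measurable_const.mul (d_meas k))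
  · rw [tendsto_pi_nhds]
    intro x
    exact (sum_td ht x).hasSum.tendsto_sum_nat

lemma Ph_sub {t s : ℕ → ℝ} (ht : Summable fun k => |t k|) (hs : Summable fun k => |s k|)
    (x : ℝ) : Ph t x - Ph s x = Ph (fun k => t k - s k) x := by
  unfold Ph
  rw [← (sum_td ht x).tsum_sub (sum_td hs x)]
  congr 1
  funext k
  ring

lemma Ph_abs {t : ℕ → ℝ} (ht : Summable fun k => |t k|) (x : ℝ) : |Ph t x| ≤ ∑' k, |t k| := by
  unfold Ph
  refine (norm_tsum_le_tsum_norm (f := fun k => t k * d k x) ?_).trans ?_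
  · exact (sum_td ht x).norm
  · refine Summable.tsum_le_tsum (fun k => ?_) (sum_td ht x).norm ht
    rw [Real.norm_eq_abs, abs_mul]
    exact mul_le_of_le_one_right (abs_nonneg _) (d_abs k x)

/-- shift -/
def sh (t : ℕ → ℝ) : ℕ → ℝ := fun k => t (k + 1)

lemma sh_sum {t : ℕ → ℝ} (ht : Summable fun k => |t k|) : Summable fun k => |sh t k| :=
  (summable_nat_add_iff 1).2 ht

lemma d_succ (k : ℕ) (y : ℝ) (j : ℕ) : d (k + 1) (y / 3 + j / 3) = d k y := by
  unfold d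
  have h : (3 : ℝ) ^ (k + 1 + 1) * (y / 3 + j / 3) = 3 ^ (k + 1) * y + ((3 ^ (k + 1) * j : ℤ) : ℝ) := by
    push_cast; ring
  rw [h, Int.floor_add_intCast]
  have h2 : (⌊(3 : ℝ) ^ (k + 1) * y⌋ + 3 ^ (k + 1) * (j : ℤ)) % 3 = ⌊(3 : ℝ) ^ (k + 1) * y⌋ % 3 := by
    have : (3 : ℤ) ^ (k + 1) * j = 3 * (3 ^ k * j) := by ring
    rw [this, Int.add_mul_emod_self_left]
  rw [h2]

lemma d_zero (y : ℝ) (hy0 : 0 ≤ y) (hy1 : y < 1) (j : ℕ) (hj : j < 3) :
    d 0 (y / 3 + j / 3) = if j = 1 then 1 else 0 := by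
  unfold d
  have h : (3 : ℝ) ^ (0 + 1) * (y / 3 + j / 3) = y + ((j : ℤ) : ℝ) := by
    push_cast; ring
  rw [h, Int.floor_add_intCast]
  have h0 : ⌊y⌋ = 0 := Int.floor_eq_zero_iff.2 ⟨hy0, hy1⟩
  rw [h0, zero_add]
  interval_cases j <;> simp

lemma Ph_rec {t : ℕ → ℝ} (ht : Summable fun k => |t k|) (y : ℝ) (hy0 : 0 ≤ y) (hy1 : y < 1)
    (j : ℕ) (hj : j < 3) :
    Ph t (y / 3 + j / 3) = (if j = 1 then t 0 else 0) + Ph (sh t) y := by
  unfold Ph
  rw [(sum_td ht _).tsum_eq_zero_add, d_zero y hy0 hy1 j hj]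
  congr 1
  · split_ifs <;> simp
  · refine tsum_congr fun k => ?_
    rw [d_succ]
    rfl

/-- integrand -/
noncomputable def u (t : ℕ → ℝ) (ξ x : ℝ) : ℂ :=
  cexp (I * (Ph t x : ℂ)) * cexp (-(2 * Real.pi * x * ξ : ℝ) * I)

noncomputable def G (t : ℕ → ℝ) (ξ : ℝ) : ℂ := ∫ x in (0 : ℝ)..1, u t ξ x

lemma u_norm (t : ℕ → ℝ) (ξ x : ℝ) : ‖u t ξ x‖ = 1 := by
  unfold u
  rw [norm_mul, mul_comm I, Complex.norm_exp_ofReal_mul_I, ← Complex.ofReal_neg,
    Complex.norm_exp_ofReal_mul_I, mul_one]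

lemma u_meas {t : ℕ → ℝ} (ht : Summable fun k => |t k|) (ξ : ℝ) : Measurable (u t ξ) := by
  unfold u
  have := Ph_meas ht
  fun_prop

lemma u_int {t : ℕ → ℝ} (ht : Summable fun k => |t k|) (ξ a b : ℝ) :
    IntervalIntegrable (u t ξ) volume a b := by
  rw [intervalIntegrable_iff]
  refine Measure.integrableOn_of_bounded (M := 1) ?_ (u_meas ht ξ).aestronglyMeasurable ?_
  · simp [Set.uIoc]
  · exact Eventually.of_forall fun x => (u_norm t ξ x).le

lemma G_rec {t : ℕ → ℝ} (ht : Summable fun k => |t k|) (ξ : ℝ) :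
    G t ξ = (1 / 3 : ℂ) * (1 + cexp (I * t 0) * cexp (-(2 * Real.pi * (ξ / 3) : ℝ) * I)
      + cexp (-(2 * Real.pi * (ξ / 3) : ℝ) * I) ^ 2) * G (sh t) (ξ / 3) := by
  have piece : ∀ j : ℕ, j < 3 → ∫ x in (j / 3 : ℝ)..((j + 1) / 3), u t ξ x =
      (1 / 3 : ℂ) * ((if j = 1 then cexp (I * t 0) else 1) *
        cexp (-(2 * Real.pi * (ξ / 3) : ℝ) * I) ^ j) * G (sh t) (ξ / 3) := by
    intro j hj
    have h1 := intervalIntegral.inv_smul_integral_comp_div_add (f := u t ξ) (a := 0) (b := 1)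
      (3 : ℝ) ((j : ℝ) / 3)
    have e1 : (0 : ℝ) / 3 + j / 3 = j / 3 := by ring
    have e2 : (1 : ℝ) / 3 + j / 3 = (j + 1) / 3 := by ring
    rw [e1, e2] at h1
    rw [← h1]
    unfold G
    have h2 : ∫ x in (0 : ℝ)..1, u t ξ (x / 3 + j / 3) =
        ∫ x in (0 : ℝ)..1, ((if j = 1 then cexp (I * t 0) else 1) *
        cexp (-(2 * Real.pi * (ξ / 3) : ℝ) * I) ^ j) * u (sh t) (ξ / 3) x := by
      apply intervalIntegral.integral_congr_ae
      have hne : ∀ᵐ x : ℝ, x ≠ 1 := by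
        rw [ae_iff]; simp
      filter_upwards [hne] with x hx1 hx
      rw [Set.uIoc_of_le zero_le_one] at hx
      have hx2 : x < 1 := lt_of_le_of_ne hx.2 hx1
      unfold u
      rw [Ph_rec ht x hx.1.le hx2 j hj]
      rw [← Complex.exp_nat_mul]
      have e3 : cexp (I * (((if j = 1 then t 0 else 0) + Ph (sh t) x : ℝ) : ℂ)) =
          (if j = 1 then cexp (I * t 0) else 1) * cexp (I * (Ph (sh t) x : ℂ)) := by
        split_ifs
        · rw [← Complex.exp_add]; congr 1; push_cast; ring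
        · simp
      have e4 : cexp (-((2 * Real.pi * (x / 3 + j / 3) * ξ : ℝ) : ℂ) * I) =
          cexp (j * (-((2 * Real.pi * (ξ / 3) : ℝ) : ℂ) * I)) *
            cexp (-((2 * Real.pi * x * (ξ / 3) : ℝ) : ℂ) * I) := by
        rw [← Complex.exp_add]; congr 1; push_cast; ring
      rw [e3, e4]
      ring
    rw [h2, intervalIntegral.integral_const_mul, Complex.real_smul]
    push_cast
    ring
  have p0 := piece 0 (by norm_num)
  have p1 := piece 1 (by norm_num)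
  have p2 := piece 2 (by norm_num)
  have hs : G t ξ = (∫ x in ((0 : ℕ) / 3 : ℝ)..(((0 : ℕ) + 1) / 3), u t ξ x) +
      (∫ x in ((1 : ℕ) / 3 : ℝ)..(((1 : ℕ) + 1) / 3), u t ξ x) +
      (∫ x in ((2 : ℕ) / 3 : ℝ)..(((2 : ℕ) + 1) / 3), u t ξ x) := by
    unfold G
    have a1 : (((0 : ℕ) : ℝ) + 1) / 3 = ((1 : ℕ) : ℝ) / 3 := by norm_num
    have a2 : (((1 : ℕ) : ℝ) + 1) / 3 = ((2 : ℕ) : ℝ) / 3 := by norm_num
    have a3 : (((2 : ℕ) : ℝ) + 1) / 3 = 1 := by norm_num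
    have a0 : (((0 : ℕ) : ℝ)) / 3 = 0 := by norm_num
    rw [a1, a2, a3, a0, intervalIntegral.integral_add_adjacent_intervals (u_int ht _ _ _)
      (u_int ht _ _ _), intervalIntegral.integral_add_adjacent_intervals (u_int ht _ _ _)
      (u_int ht _ _ _)]
  rw [hs, p0, p1, p2]
  simp
  ring

/-- The factor has modulus depending only on `cos`. -/
lemma factor_norm (τ τ' φ : ℝ) (h : τ' = τ ∨ τ' = -τ) :
    ‖(1 + cexp (I * τ) * cexp (-(φ : ℝ) * I) + cexp (-(φ : ℝ) * I) ^ 2 : ℂ)‖ =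
    ‖(1 + cexp (I * τ') * cexp (-(φ : ℝ) * I) + cexp (-(φ : ℝ) * I) ^ 2 : ℂ)‖ := by
  have key : ∀ τ : ℝ, ‖(1 + cexp (I * τ) * cexp (-(φ : ℝ) * I) + cexp (-(φ : ℝ) * I) ^ 2 : ℂ)‖ =
      ‖(2 * Real.cos φ + cexp (I * τ) : ℂ)‖ := by
    intro τ
    have e : (1 + cexp (I * τ) * cexp (-(φ : ℝ) * I) + cexp (-(φ : ℝ) * I) ^ 2 : ℂ) =
        cexp (((-φ : ℝ) : ℂ) * I) * (2 * Real.cos φ + cexp (I * τ)) := by
      have h1 : (2 * Real.cos φ : ℂ) = cexp (φ * I) + cexp (-φ * I) := by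
        rw [Complex.ofReal_cos, Complex.cos]; ring
      have h2 : cexp (((-φ : ℝ) : ℂ) * I) * cexp (φ * I) = 1 := by
        rw [← Complex.exp_add]; simp
      rw [h1, mul_add, mul_add, h2]
      push_cast
      ring
    rw [e, norm_mul, Complex.norm_exp_ofReal_mul_I, one_mul]
  rw [key, key]
  rcases h with rfl | rfl
  · rfl
  · have : (2 * Real.cos φ + cexp (I * ((-τ : ℝ) : ℂ)) : ℂ) =
        (starRingEnd ℂ) (2 * Real.cos φ + cexp (I * τ)) := by
      rw [map_add, map_mul, Complex.conj_ofReal, ← Complex.exp_conj, map_mul, Complex.conj_I,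
        Complex.conj_ofReal]
      push_cast
      simp [Complex.conj_ofNat]
    rw [this, Complex.norm_conj]

lemma factor_le (τ φ : ℝ) :
    ‖(1 / 3 : ℂ) * (1 + cexp (I * τ) * cexp (-(φ : ℝ) * I) + cexp (-(φ : ℝ) * I) ^ 2 : ℂ)‖ ≤ 1 := by
  rw [norm_mul]
  have h1 : ‖cexp (I * τ)‖ = 1 := by rw [mul_comm, Complex.norm_exp_ofReal_mul_I]
  have h2 : ‖cexp (-(φ : ℝ) * I)‖ = 1 := by
    rw [← Complex.ofReal_neg, Complex.norm_exp_ofReal_mul_I]
  have h3 := norm_add₃_le (a := (1 : ℂ)) (b := cexp (I * τ) * cexp (-(φ : ℝ) * I))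
    (c := cexp (-(φ : ℝ) * I) ^ 2)
  rw [norm_mul, norm_pow, h1, h2, norm_one] at h3
  have h4 : ‖(1 / 3 : ℂ)‖ = 1 / 3 := by norm_num
  rw [h4]
  linarith

lemma exp_sub_one_le (θ : ℝ) : ‖cexp (θ * I) - 1‖ ≤ |θ| := by
  have := Real.norm_exp_I_mul_ofReal_sub_one_le (x := θ)
  rw [mul_comm]
  simpa using this

lemma G_near {t : ℕ → ℝ} (ht : Summable fun k => |t k|) (ξ : ℝ) :
    ‖G t ξ - 1‖ ≤ (∑' k, |t k|) + 2 * Real.pi * |ξ| := by
  unfold G
  have h1 : (1 : ℂ) = ∫ x in (0 : ℝ)..1, (1 : ℂ) := by simp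
  rw [h1, ← intervalIntegral.integral_sub (u_int ht ξ 0 1) (by simp)]
  have h2 : ∀ x ∈ Set.uIoc (0 : ℝ) 1, ‖u t ξ x - 1‖ ≤ (∑' k, |t k|) + 2 * Real.pi * |ξ| := by
    intro x hx
    rw [Set.uIoc_of_le zero_le_one] at hx
    have e : u t ξ x = cexp (((Ph t x - 2 * Real.pi * x * ξ : ℝ) : ℂ) * I) := by
      unfold u
      rw [← Complex.exp_add]; congr 1; push_cast; ring
    rw [e]
    refine (exp_sub_one_le _).trans ?_
    refine (abs_sub _ _).trans ?_
    refine add_le_add (Ph_abs ht x) ?_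
    rw [abs_mul, abs_mul, abs_of_pos (by positivity : (0 : ℝ) < 2 * Real.pi), abs_of_pos hx.1]
    have : |ξ| * x ≤ |ξ| := mul_le_of_le_one_right (abs_nonneg _) hx.2
    nlinarith [Real.pi_pos]
  have := intervalIntegral.norm_integral_le_of_norm_le_const h2
  simpa using this

/-- iterated shift -/
def shn (K : ℕ) (t : ℕ → ℝ) : ℕ → ℝ := fun k => t (k + K)

lemma shn_sum {t : ℕ → ℝ} (ht : Summable fun k => |t k|) (K : ℕ) :
    Summable fun k => |shn K t k| := (summable_nat_add_iff K).2 ht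

lemma G_iter {t s : ℕ → ℝ} (ht : Summable fun k => |t k|) (hs : Summable fun k => |s k|)
    (hts : ∀ k, s k = t k ∨ s k = -t k) (ξ : ℝ) (K : ℕ) :
    |‖G t ξ‖ - ‖G s ξ‖| ≤ |‖G (shn K t) (ξ / 3 ^ K)‖ - ‖G (shn K s) (ξ / 3 ^ K)‖| := by
  induction K with
  | zero =>
    have h1 : shn 0 t = t := by funext k; simp [shn]
    have h2 : shn 0 s = s := by funext k; simp [shn]
    simp [h1, h2]
  | succ K ih =>
    refine ih.trans ?_
    rw [G_rec (shn_sum ht K), G_rec (shn_sum hs K)]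
    have h0 : shn K t 0 = t K := by simp [shn]
    have h0' : shn K s 0 = s K := by simp [shn]
    have e1 : sh (shn K t) = shn (K + 1) t := by
      funext k; simp only [sh, shn]; congr 1; ring
    have e2 : sh (shn K s) = shn (K + 1) s := by
      funext k; simp only [sh, shn]; congr 1; ring
    have e3 : ξ / 3 ^ K / 3 = ξ / 3 ^ (K + 1) := by rw [pow_succ]; field_simp
    rw [h0, h0', e1, e2, e3, norm_mul, norm_mul, norm_mul, norm_mul,
      ← factor_norm (t K) (s K) (2 * Real.pi * (ξ / 3 ^ (K + 1))) (hts K)]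
    have h3 := factor_le (t K) (2 * Real.pi * (ξ / 3 ^ (K + 1)))
    rw [norm_mul] at h3
    rw [← mul_sub, abs_mul, abs_of_nonneg (by positivity)]
    exact mul_le_of_le_one_left (abs_nonneg _) h3

theorem G_norm_eq {t s : ℕ → ℝ} (ht : Summable fun k => |t k|) (hs : Summable fun k => |s k|)
    (hts : ∀ k, s k = t k ∨ s k = -t k) (ξ : ℝ) : ‖G t ξ‖ = ‖G s ξ‖ := by
  have hlim : Tendsto (fun K : ℕ => ((∑' k, |shn K t k|) + 2 * Real.pi * |ξ / 3 ^ K|) +
      ((∑' k, |shn K s k|) + 2 * Real.pi * |ξ / 3 ^ K|)) atTop (nhds 0) := by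
    have h1 : Tendsto (fun K : ℕ => ∑' k, |shn K t k|) atTop (nhds 0) :=
      tendsto_sum_nat_add (fun k => |t k|)
    have h2 : Tendsto (fun K : ℕ => ∑' k, |shn K s k|) atTop (nhds 0) :=
      tendsto_sum_nat_add (fun k => |s k|)
    have h3 : Tendsto (fun K : ℕ => 2 * Real.pi * |ξ / 3 ^ K|) atTop (nhds 0) := by
      have h4 : Tendsto (fun K : ℕ => ξ / 3 ^ K) atTop (nhds 0) := by
        have := tendsto_pow_atTop_nhds_zero_of_lt_one (r := (1 / 3 : ℝ)) (by norm_num) (by norm_num)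
        have := this.const_mul ξ
        simpa [div_eq_mul_inv] using this
      have := (h4.abs).const_mul (2 * Real.pi)
      simpa using this
    have := (h1.add h3).add (h2.add h3)
    simpa using this
  have hle : ∀ K : ℕ, |‖G t ξ‖ - ‖G s ξ‖| ≤
      ((∑' k, |shn K t k|) + 2 * Real.pi * |ξ / 3 ^ K|) +
      ((∑' k, |shn K s k|) + 2 * Real.pi * |ξ / 3 ^ K|) := by
    intro K
    refine (G_iter ht hs hts ξ K).trans ?_
    have h1 := G_near (shn_sum ht K) (ξ / 3 ^ K)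
    have h2 := G_near (shn_sum hs K) (ξ / 3 ^ K)
    have h3 : |‖G (shn K t) (ξ / 3 ^ K)‖ - ‖G (shn K s) (ξ / 3 ^ K)‖| ≤
        ‖G (shn K t) (ξ / 3 ^ K) - G (shn K s) (ξ / 3 ^ K)‖ := abs_norm_sub_norm_le _ _
    refine h3.trans ?_
    have : G (shn K t) (ξ / 3 ^ K) - G (shn K s) (ξ / 3 ^ K) =
        (G (shn K t) (ξ / 3 ^ K) - 1) - (G (shn K s) (ξ / 3 ^ K) - 1) := by ring
    rw [this]
    exact (norm_sub_le _ _).trans (add_le_add h1 h2)
  have := ge_of_tendsto' hlim hle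
  have h0 : |‖G t ξ‖ - ‖G s ξ‖| = 0 := le_antisymm this (abs_nonneg _)
  exact sub_eq_zero.1 (abs_eq_zero.1 h0)


/-- the function on the line -/
noncomputable def fn (t : ℕ → ℝ) : ℝ → ℂ :=
  (Set.Ico (0 : ℝ) 1).indicator fun x => cexp (I * (Ph t x : ℂ))

lemma fn_norm (t : ℕ → ℝ) (x : ℝ) : ‖fn t x‖ = (Set.Ico (0 : ℝ) 1).indicator (fun _ => 1) x := by
  unfold fn
  by_cases hx : x ∈ Set.Ico (0 : ℝ) 1
  · rw [Set.indicator_of_mem hx, Set.indicator_of_mem hx, mul_comm, Complex.norm_exp_ofReal_mul_I]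
  · rw [Set.indicator_of_notMem hx, Set.indicator_of_notMem hx, norm_zero]

lemma fn_meas {t : ℕ → ℝ} (ht : Summable fun k => |t k|) : Measurable (fn t) := by
  unfold fn
  have := Ph_meas ht
  refine Measurable.indicator (by fun_prop) measurableSet_Ico

lemma fn_memLp {t : ℕ → ℝ} (ht : Summable fun k => |t k|) (p : ENNReal) :
    MemLp (fn t) p volume := by
  have h1 : MemLp ((Set.Ico (0 : ℝ) 1).indicator (fun _ => (1 : ℝ))) p volume :=
    memLp_indicator_const p measurableSet_Ico 1 (Or.inr (by simp))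
  refine MemLp.mono h1 (fn_meas ht).aestronglyMeasurable ?_
  refine Eventually.of_forall fun x => ?_
  rw [fn_norm]
  exact le_abs_self _

open FourierTransform in
lemma fourier_fn (t : ℕ → ℝ) (ξ : ℝ) : 𝓕 (fn t) ξ = G t ξ := by
  rw [Real.fourier_real_eq_integral_exp_smul]
  unfold G fn
  rw [intervalIntegral.integral_of_le zero_le_one, ← integral_Ico_eq_integral_Ioc,
    ← integral_indicator measurableSet_Ico]
  refine integral_congr_ae (Eventually.of_forall fun x => ?_)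
  simp only
  by_cases hx : x ∈ Set.Ico (0 : ℝ) 1
  · rw [Set.indicator_of_mem hx, Set.indicator_of_mem hx, u, smul_eq_mul, mul_comm]
    congr 2
    push_cast
    ring
  · rw [Set.indicator_of_notMem hx, Set.indicator_of_notMem hx, smul_zero]

lemma fn_dist {t s : ℕ → ℝ} (ht : Summable fun k => |t k|) (hs : Summable fun k => |s k|)
    (x : ℝ) : ‖fn t x - fn s x‖ ≤
      (Set.Ico (0 : ℝ) 1).indicator (fun _ => ∑' k, |t k - s k|) x := by
  have hsum : Summable fun k => |t k - s k| := by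
    refine Summable.of_nonneg_of_le (fun k => abs_nonneg _) (fun k => ?_) (ht.add hs)
    exact abs_sub _ _
  unfold fn
  by_cases hx : x ∈ Set.Ico (0 : ℝ) 1
  · rw [Set.indicator_of_mem hx, Set.indicator_of_mem hx, Set.indicator_of_mem hx]
    have e : cexp (I * (Ph t x : ℂ)) - cexp (I * (Ph s x : ℂ)) =
        cexp ((Ph s x : ℂ) * I) * (cexp (((Ph t x - Ph s x : ℝ) : ℂ) * I) - 1) := by
      rw [mul_sub, ← Complex.exp_add, mul_one]
      congr 2
      · push_cast; ring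
      · ring
    rw [e, norm_mul, Complex.norm_exp_ofReal_mul_I, one_mul]
    refine (exp_sub_one_le _).trans ?_
    rw [Ph_sub ht hs]
    exact Ph_abs hsum x
  · rw [Set.indicator_of_notMem hx, Set.indicator_of_notMem hx, Set.indicator_of_notMem hx]
    simp

lemma fn_eLpNorm {t s : ℕ → ℝ} (ht : Summable fun k => |t k|) (hs : Summable fun k => |s k|) :
    eLpNorm (fun x => fn t x - fn s x) 2 volume ≤ ENNReal.ofReal (∑' k, |t k - s k|) := by
  have h1 : eLpNorm (fun x => fn t x - fn s x) 2 volume ≤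
      eLpNorm ((Set.Ico (0 : ℝ) 1).indicator (fun _ => ∑' k, |t k - s k|)) 2 volume := by
    apply eLpNorm_mono
    intro x
    refine (fn_dist ht hs x).trans (le_abs_self _)
  refine h1.trans ?_
  rw [eLpNorm_indicator_const measurableSet_Ico (by norm_num) (by norm_num)]
  simp only [Real.volume_Ico, sub_zero, ENNReal.ofReal_one, ENNReal.one_rpow, mul_one]
  rw [Real.enorm_eq_ofReal (tsum_nonneg fun k => abs_nonneg _)]

/-- Shifting a small `x` by `3^{-(k+1)}` changes exactly the `k`-th digit. -/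
lemma d_shift (k j : ℕ) (x : ℝ) (hx0 : 0 ≤ x) (hx1 : x < (1 / 3 : ℝ) ^ (k + 1)) :
    d j (x + (1 / 3 : ℝ) ^ (k + 1)) = d j x + (if j = k then 1 else 0) := by
  have hp : ∀ n : ℕ, (3 : ℝ) ^ n * (1 / 3) ^ n = 1 := by
    intro n; rw [← mul_pow]; norm_num
  rcases lt_trichotomy j k with h | h | h
  · -- j < k
    rw [if_neg h.ne, add_zero]
    obtain ⟨m, rfl⟩ : ∃ m, k = j + 1 + m := ⟨k - (j + 1), by omega⟩
    have e : (3 : ℝ) ^ (j + 1) * (1 / 3) ^ (j + 1 + m + 1) = (1 / 3) ^ (m + 1) := by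
      rw [show j + 1 + m + 1 = (j + 1) + (m + 1) by ring, pow_add (1 / 3 : ℝ), ← mul_assoc, hp,
        one_mul]
    have hm : (1 / 3 : ℝ) ^ (m + 1) ≤ 1 / 3 := by
      rw [pow_succ]
      have : (1 / 3 : ℝ) ^ m ≤ 1 := pow_le_one₀ (by norm_num) (by norm_num)
      linarith
    have h1 : (3 : ℝ) ^ (j + 1) * x < 1 / 3 := by
      have := mul_lt_mul_of_pos_left hx1 (by positivity : (0 : ℝ) < 3 ^ (j + 1))
      rw [e] at this
      linarith
    have h2 : 0 ≤ (3 : ℝ) ^ (j + 1) * x := by positivity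
    have f1 : ⌊(3 : ℝ) ^ (j + 1) * x⌋ = 0 := Int.floor_eq_zero_iff.2 ⟨h2, by linarith⟩
    have f2 : ⌊(3 : ℝ) ^ (j + 1) * (x + (1 / 3) ^ (j + 1 + m + 1))⌋ = 0 := by
      rw [mul_add, e]
      refine Int.floor_eq_zero_iff.2 ⟨by positivity, by linarith⟩
    unfold d
    rw [f1, f2]
  · subst h
    rw [if_pos rfl]
    have h1 : (3 : ℝ) ^ (j + 1) * x < 1 := by
      have := mul_lt_mul_of_pos_left hx1 (by positivity : (0 : ℝ) < 3 ^ (j + 1))
      rw [hp] at this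
      exact this
    have h2 : 0 ≤ (3 : ℝ) ^ (j + 1) * x := by positivity
    have f1 : ⌊(3 : ℝ) ^ (j + 1) * x⌋ = 0 := Int.floor_eq_zero_iff.2 ⟨h2, h1⟩
    have f2 : ⌊(3 : ℝ) ^ (j + 1) * (x + (1 / 3) ^ (j + 1))⌋ = 1 := by
      rw [mul_add, hp, Int.floor_add_one, f1]
      rfl
    unfold d
    rw [f1, f2]
    norm_num
  · rw [if_neg h.ne', add_zero]
    obtain ⟨m, rfl⟩ : ∃ m, j = k + 1 + m := ⟨j - (k + 1), by omega⟩
    have e : (3 : ℝ) ^ (k + 1 + m + 1) * (1 / 3) ^ (k + 1) = ((3 * 3 ^ m : ℤ) : ℝ) := by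
      rw [show k + 1 + m + 1 = (k + 1) + (m + 1) by ring, pow_add (3 : ℝ)]
      have := hp (k + 1)
      calc _ = ((3 : ℝ) ^ (k + 1) * (1 / 3) ^ (k + 1)) * 3 ^ (m + 1) := by ring
        _ = _ := by rw [this]; push_cast; ring
    unfold d
    rw [mul_add, e, Int.floor_add_intCast, Int.add_mul_emod_self_left]

lemma Ph_shift {t : ℕ → ℝ} (ht : Summable fun k => |t k|) (k : ℕ) (x : ℝ) (hx0 : 0 ≤ x)
    (hx1 : x < (1 / 3 : ℝ) ^ (k + 1)) :
    Ph t (x + (1 / 3 : ℝ) ^ (k + 1)) = Ph t x + t k := by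
  unfold Ph
  have h1 : ∀ j, t j * d j (x + (1 / 3 : ℝ) ^ (k + 1)) = t j * d j x + (if j = k then t k else 0) := by
    intro j
    rw [d_shift k j x hx0 hx1, mul_add]
    congr 1
    split_ifs with h
    · rw [h, mul_one]
    · rw [mul_zero]
  simp_rw [h1]
  rw [(sum_td ht x).tsum_add (summable_of_ne_finset_zero (s := {k}) (by
    intro b hb; rw [if_neg (by simpa using hb)])), tsum_ite_eq]

/-- No nontrivial relation. -/
lemma not_const {t : ℕ → ℝ} (ht : Summable fun k => |t k|) (k : ℕ) (hk0 : t k ≠ 0)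
    (hk1 : |t k| < 2 * Real.pi) (c : ℂ)
    (hc : ∀ᵐ x : ℝ, x ∈ Set.Ico (0 : ℝ) 1 → cexp (I * (Ph t x : ℂ)) = c) : False := by
  have h1 : ∀ᵐ x : ℝ, x + (1 / 3 : ℝ) ^ (k + 1) ∈ Set.Ico (0 : ℝ) 1 →
      cexp (I * (Ph t (x + (1 / 3 : ℝ) ^ (k + 1)) : ℂ)) = c :=
    (measurePreserving_add_right volume ((1 / 3 : ℝ) ^ (k + 1))).quasiMeasurePreserving.ae hc
  have h2 : ∃ x : ℝ, x ∈ Set.Ico (0 : ℝ) ((1 / 3 : ℝ) ^ (k + 1)) ∧
      (x ∈ Set.Ico (0 : ℝ) 1 → cexp (I * (Ph t x : ℂ)) = c) ∧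
      (x + (1 / 3 : ℝ) ^ (k + 1) ∈ Set.Ico (0 : ℝ) 1 →
      cexp (I * (Ph t (x + (1 / 3 : ℝ) ^ (k + 1)) : ℂ)) = c) := by
    by_contra hcon
    push Not at hcon
    have h3 := hc.and h1
    rw [ae_iff] at h3
    have h4 : volume (Set.Ico (0 : ℝ) ((1 / 3 : ℝ) ^ (k + 1))) = 0 := by
      refine measure_mono_null ?_ h3
      intro x hx
      have := hcon x hx
      intro hc2
      obtain ⟨h5, h6⟩ := this hc2.1
      exact h6 (hc2.2 h5)
    rw [Real.volume_Ico, sub_zero, ENNReal.ofReal_eq_zero] at h4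
    have : (0 : ℝ) < (1 / 3 : ℝ) ^ (k + 1) := by positivity
    linarith
  obtain ⟨x, hx, hA, hB⟩ := h2
  have hq : (1 / 3 : ℝ) ^ (k + 1) ≤ 1 / 3 := by
    rw [pow_succ]
    have : (1 / 3 : ℝ) ^ k ≤ 1 := pow_le_one₀ (by norm_num) (by norm_num)
    linarith
  have hq0 : (0 : ℝ) < (1 / 3 : ℝ) ^ (k + 1) := by positivity
  have e1 := hA ⟨hx.1, by linarith [hx.2]⟩
  have e2 := hB ⟨by linarith [hx.1], by linarith [hx.2]⟩
  rw [Ph_shift ht k x hx.1 hx.2, ← e1] at e2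
  have e3 : cexp (I * (t k : ℂ)) = 1 := by
    have h5 : cexp (I * ((Ph t x + t k : ℝ) : ℂ)) = cexp (I * (Ph t x : ℂ)) * cexp (I * (t k : ℂ)) := by
      rw [← Complex.exp_add]; congr 1; push_cast; ring
    rw [h5] at e2
    exact mul_left_cancel₀ (Complex.exp_ne_zero _) (by rw [e2, mul_one])
  rw [Complex.exp_eq_one_iff] at e3
  obtain ⟨n, hn⟩ := e3
  have h6 : (t k : ℂ) = ((n * (2 * Real.pi) : ℝ) : ℂ) := by
    have : I * (t k : ℂ) = I * ((n * (2 * Real.pi) : ℝ) : ℂ) := by rw [hn]; push_cast; ring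
    exact mul_left_cancel₀ Complex.I_ne_zero this
  have h7 : t k = n * (2 * Real.pi) := by exact_mod_cast h6
  have hn0 : n ≠ 0 := by
    rintro rfl; apply hk0; rw [h7]; simp
  have h8 : (1 : ℝ) ≤ |(n : ℝ)| := by exact_mod_cast Int.one_le_abs hn0
  rw [h7, abs_mul, abs_of_pos (by positivity : (0 : ℝ) < 2 * Real.pi)] at hk1
  nlinarith [Real.pi_pos]

end Q84.Pauli
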