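import Pool.Agent.Y877.RecB
import Pool.Agent.Q84.PP2

set_option autoImplicit false

/-! # Record scale: differences of the positions in `T₀` classes are gaps between consecutive primes -/

namespace Pool.Agent.Q84.RS

open Finset Filter Topology
open Pool.Agent.H256R2.SC (ff)
open Pool.Agent.H362R2.RQ (fib)
open Pool.Agent.Y877

/-- any `T` classes of `K` integers of the set `V` have a cross difference in `D` -/
def PureOn (V D : Set ℕ) (T K : ℕ) : Prop := ∀ H : Fin T → Fin K → ℕ,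
  Function.Injective (fun x : Fin T × Fin K => H x.1 x.2) → (∀ g i, H g i ∈ V) →
    ∃ g g' i i', g ≠ g' ∧ H g i < H g' i' ∧ H g' i' - H g i ∈ D

lemma PureOn.mono {V D : Set ℕ} {T K K' : ℕ} (h : PureOn V D T K) (hK : K ≤ K') :
    PureOn V D T K' := by
  intro H hH hV
  obtain ⟨g, g', i, i', h1, h2, h3⟩ := h (fun g i => H g (Fin.castLE hK i)) (by
    intro x y hxy
    have h1 := hH (a₁ := (x.1, Fin.castLE hK x.2)) (a₂ := (y.1, Fin.castLE hK y.2)) hxy
    have h2 := Prod.mk.inj h1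
    exact Prod.ext h2.1 (Fin.castLE_injective hK h2.2)) (fun g i => hV _ _)
  exact ⟨g, g', _, _, h1, h2, h3⟩

lemma PureOn.subset {V V' D : Set ℕ} {T K : ℕ} (h : PureOn V D T K) (hV : V' ⊆ V) :
    PureOn V' D T K := fun H hH hHV => h H hH fun g i => hV (hHV g i)

/-- **The record scale.** -/
theorem pure_rec : ∃ T₀ : ℕ, 2 ≤ T₀ ∧ ∃ K : ℕ, 1 ≤ K ∧ ∀ d : ℕ, Squarefree d →
    ∃ c : ℝ, 0 < c ∧ ∀ᶠ X : ℝ in atTop, ∀ a b : ℕ, a.Coprime d → 0 < b → d ∣ b → K.factorial ∣ b →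
      PureOn {k : ℕ | ((b * k : ℕ) : ℝ) ≤ c * ff X}
        {k : ℕ | X ^ (6 / 7 : ℝ) ≤ gapCount X d a (b * k)} T₀ K := by
  classical
  obtain ⟨η, hη, HM⟩ := Pool.Agent.TH101.RG.tuple_multiples
  obtain ⟨T, hT2, hηT⟩ : ∃ T : ℕ, 2 ≤ T ∧ 2 ≤ η * T := by
    obtain ⟨n, hn⟩ := exists_nat_ge (2 / η)
    refine ⟨n + 2, by omega, ?_⟩
    rw [div_le_iff₀ hη] at hn
    push_cast
    nlinarith
  have hT : 1 ≤ T := by omega
  obtain ⟨K, hTK, HM⟩ := HM T hT
  have hK : 1 ≤ K := hT.trans hTK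
  refine ⟨T, hT2, K, hK, fun d hd => ?_⟩
  obtain ⟨c, hc, HM⟩ := HM 1 1 1 d hd
  refine ⟨c, hc, ?_⟩
  have hpow : ∀ᶠ X : ℝ in atTop, (K : ℝ) ^ 2 * X ^ (6 / 7 : ℝ) ≤ X ^ (7 / 8 : ℝ) := by
    filter_upwards [(tendsto_rpow_atTop (by norm_num : (0 : ℝ) < 1 / 56)).eventually_ge_atTop ((K : ℝ) ^ 2),
      eventually_gt_atTop (0 : ℝ)] with X h1 h2
    calc (K : ℝ) ^ 2 * X ^ (6 / 7 : ℝ) ≤ X ^ (1 / 56 : ℝ) * X ^ (6 / 7 : ℝ) :=
          mul_le_mul_of_nonneg_right h1 (Real.rpow_nonneg h2.le _)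
      _ = X ^ (7 / 8 : ℝ) := by
          rw [← Real.rpow_add h2]
          norm_num
  filter_upwards [HM, Pool.Agent.H312R2.RG.ev_ff c hc, hpow, eventually_ge_atTop (1 : ℝ),
    Real.tendsto_log_atTop.eventually_ge_atTop (1 : ℝ)] with X hX hff hXp hX1 hXl a b ha hb hdb hKb
  intro H hinj hV
  obtain ⟨t, ht⟩ : ∃ t : Fin K → ℕ, ∀ j, t j = b * H (clz T hT j) j := ⟨fun j => _, fun _ => rfl⟩
  have htinj : Function.Injective t := by
    intro j j' h
    rw [ht, ht] at h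
    exact clz_inj T hT H hinj (Nat.eq_of_mul_eq_mul_left hb h)
  have htff : ∀ j, (t j : ℝ) ≤ c * ff X := by
    intro j
    rw [ht]
    exact hV _ _
  have hadm : ∀ p : ℕ, p.Prime → ∃ v : ℕ, ∀ j, ¬ p ∣ v + t j := by
    intro p hp
    by_cases hpK : p ≤ K
    · refine ⟨1, fun j hd' => ?_⟩
      have h1 : p ∣ t j := by
        rw [ht]
        exact ((Nat.dvd_factorial hp.pos hpK).trans hKb).mul_right _
      have h3 : p ∣ 1 := (Nat.dvd_add_left h1).1 hd'
      exact hp.one_lt.ne' (Nat.dvd_one.1 h3)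
    · have : NeZero p := ⟨hp.ne_zero⟩
      obtain ⟨z, -, hz⟩ := exists_mem_notMem_of_card_lt_card
        (s := (univ : Finset (Fin K)).image (fun j => -((t j : ℕ) : ZMod p)))
        (t := (univ : Finset (ZMod p))) (by
        refine lt_of_le_of_lt card_image_le ?_
        rw [card_univ, card_univ, ZMod.card, Fintype.card_fin]
        omega)
      refine ⟨z.val, fun j hd' => hz ?_⟩
      rw [mem_image]
      refine ⟨j, mem_univ _, ?_⟩
      have h1 : (((z.val + t j : ℕ)) : ZMod p) = 0 := (ZMod.natCast_eq_zero_iff _ _).2 hd'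
      push_cast at h1
      rw [ZMod.natCast_zmod_val] at h1
      linear_combination -h1
  have htd : ∀ j, d ∣ t j := fun j => by
    rw [ht]
    exact hdb.mul_right _
  obtain ⟨bad, hbadc, hbad⟩ := bad_set X (by linarith) d a t
  obtain ⟨n, hXn, hn3, hnb, hnd, ⟨E, hE1, hE2⟩, hiso⟩ := hX 1 0 one_ne_zero (by
      rw [pow_one]
      simpa using hXl)
    (by simp) (by
      rw [pow_one]
      simp only [Int.cast_zero, abs_zero]
      linarith) t htinj (fun j => (htff j).trans hff.1) hadm a (fun j => by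
      obtain ⟨e, he⟩ := htd j
      rw [he]
      have h1 : Nat.Coprime (a + d * e) d := by
        rw [Nat.coprime_add_mul_left_left]
        exact ha
      exact h1)
    (clz T hT) (fun e => clz_card T K hT hTK e) bad (hbadc.trans hXp)
  have hiso' : ∀ q : ℕ, q.Prime → n ≤ q → (q : ℝ) ≤ n + c * ff X → ∃ l, q = n + t l := by
    intro q hq hnq hqn
    refine hiso 1 1 (by simp) (by simp) (by simp) (by simp) q hq ?_
    have h1 : ((1 * (q : ℤ) - 1 * (1 * (n : ℤ) + 0) : ℤ) : ℝ) = (q : ℝ) - n := by push_cast; ring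
    have h2 : (n : ℝ) ≤ q := by exact_mod_cast hnq
    rw [h1, abs_of_nonneg (by linarith)]
    linarith
  -- two classes are hit
  have hE : 1 < E.card := by
    have h1 : (2 : ℝ) ≤ E.card := hηT.trans hE1
    exact_mod_cast h1
  obtain ⟨e, he, e', he', hee⟩ := one_lt_card.1 hE
  obtain ⟨j, hj, hjp⟩ := hE2 e he
  obtain ⟨j', hj', hjp'⟩ := hE2 e' he'
  -- the closest pair of hits of different classes
  obtain ⟨Q, hQ⟩ : ∃ Q : Finset (Fin K × Fin K), ∀ z, z ∈ Q ↔ ((n + t z.1).Prime ∧ (n + t z.2).Prime ∧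
      t z.1 < t z.2 ∧ clz T hT z.1 ≠ clz T hT z.2) :=
    ⟨univ.filter fun z => ((n + t z.1).Prime ∧ (n + t z.2).Prime ∧
      t z.1 < t z.2 ∧ clz T hT z.1 ≠ clz T hT z.2), fun z => by rw [mem_filter]; simp⟩
  have hQne : Q.Nonempty := by
    have hcol : clz T hT j ≠ clz T hT j' := by rw [hj, hj']; exact hee
    have hne : t j ≠ t j' := fun h => hcol (by rw [htinj h])
    rcases lt_or_gt_of_ne hne with h | h
    · exact ⟨(j, j'), (hQ _).2 ⟨hjp, hjp', h, hcol⟩⟩
    · exact ⟨(j', j), (hQ _).2 ⟨hjp', hjp, h, hcol.symm⟩⟩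
  obtain ⟨⟨w, z⟩, hwz, hmin⟩ := exists_min_image Q (fun z => t z.2 - t z.1) hQne
  obtain ⟨hw, hz, hlt, hcol⟩ := (hQ _).1 hwz
  simp only at hw hz hlt hcol
  have hcons : ∀ q, n + t w < q → q < n + t z → ¬ q.Prime := by
    intro q hq1 hq2 hq
    have hqr : (q : ℝ) ≤ n + c * ff X := by
      have h1 : (q : ℝ) ≤ ((n + t z : ℕ) : ℝ) := by exact_mod_cast hq2.le
      push_cast at h1
      linarith [htff z]
    obtain ⟨l, rfl⟩ := hiso' q hq (by omega) hqr
    have hl1 : t w < t l := by omega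
    have hl2 : t l < t z := by omega
    by_cases hc1 : clz T hT w = clz T hT l
    · have h1 := hmin (l, z) ((hQ _).2 ⟨hq, hz, hl2, by rw [← hc1]; exact hcol⟩)
      simp only at h1
      omega
    · have h1 := hmin (w, l) ((hQ _).2 ⟨hw, hq, hl1, hc1⟩)
      simp only at h1
      omega
  have hg : n + t w ∈ gset X d a (t z - t w) := by
    rw [mem_gset]
    have e1 : n + t w + (t z - t w) = n + t z := by omega
    have hw0 : (0 : ℝ) ≤ t w := Nat.cast_nonneg _
    have h1 : (t w : ℝ) ≤ X := by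
      have h2 := htff w
      have h3 := hff.2.2
      have h4 : 0 ≤ c * ff X := mul_nonneg hc.le hff.2.1
      linarith
    refine ⟨by push_cast; linarith, by push_cast; linarith, ?_, hw, ?_, ?_⟩
    · have h5 : t w ≡ 0 [MOD d] := (Nat.modEq_zero_iff_dvd).2 (htd w)
      have h6 := hnd.add h5
      simpa using h6
    · rw [e1]
      exact hz
    · intro q hq1 hq2
      rw [e1] at hq2
      exact hcons q hq1 hq2
  have hgood := hbad n w z hnb hg
  have hdiff : t z - t w = b * (H (clz T hT z) z - H (clz T hT w) w) := by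
    rw [ht, ht, Nat.mul_sub]
  refine ⟨clz T hT w, clz T hT z, w, z, hcol, ?_, ?_⟩
  · rw [ht, ht] at hlt
    exact Nat.lt_of_mul_lt_mul_left hlt
  · rw [hdiff] at hgood
    exact hgood

end Pool.Agent.Q84.RS
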