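import Pool.Agent.Q84.RS1

set_option autoImplicit false

/-! # Record scale: several classes at once, one of the multiples `k, 2 k, …, R k` of almost all `k` -/

namespace Pool.Agent.Q84.RS

open Finset Filter Topology Pool.Agent.Y877
open Pool.Agent.H256R2.SC (ff)
open Pool.Agent.Q84.PP (seqs)

/-- the Ramsey number -/
def RR (T r : ℕ) : ℕ := ∑ i ∈ range ((T - 2) * r + 1), r ^ i

lemma one_le_RR (T r : ℕ) : 1 ≤ RR T r := by
  unfold RR
  have h := single_le_sum (f := fun i => r ^ i) (s := range ((T - 2) * r + 1)) (fun _ _ => Nat.zero_le _)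
    (mem_range.2 (Nat.succ_pos _) : 0 ∈ range ((T - 2) * r + 1))
  simpa using h

/-- `T` integers with one colour -/
lemma monoT (T r : ℕ) (hT : 2 ≤ T) (k : ℕ → ℕ → Fin r) (S : Finset ℕ) (hS : RR T r + 1 ≤ S.card) :
    ∃ (g : Fin T → ℕ) (c : Fin r), (∀ a, g a ∈ S) ∧ ∀ a b, a < b → g a < g b ∧ k (g a) (g b) = c := by
  classical
  obtain ⟨T, rfl⟩ : ∃ T', T = T' + 1 := ⟨T - 1, by omega⟩
  obtain ⟨L, hL⟩ : ∃ L, L = (T + 1 - 2) * r + 1 := ⟨_, rfl⟩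
  obtain ⟨f, c, hf, hk⟩ := seqs r k L S (by
    unfold RR at hS
    rw [hL]
    omega)
  obtain ⟨c₀, -, hc⟩ := exists_lt_card_fiber_of_mul_lt_card_of_maps_to (s := range L)
    (t := (univ : Finset (Fin r))) (f := c) (n := T + 1 - 2)
    (fun _ _ => mem_univ _) (by
      rw [card_univ, Fintype.card_fin, card_range, hL, mul_comm]
      omega)
  obtain ⟨I, hI, hI3⟩ := exists_subset_card_eq (show T ≤ ((range L).filter fun x => c x = c₀).card by omega)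
  obtain ⟨e, he⟩ : ∃ e : Fin T ↪o ℕ, e = I.orderEmbOfFin hI3 := ⟨_, rfl⟩
  have heI : ∀ a, e a ∈ I := fun a => by rw [he]; exact orderEmbOfFin_mem I hI3 a
  have hlt : ∀ a, e a < L ∧ c (e a) = c₀ := fun a => by
    obtain ⟨h1, h2⟩ := mem_filter.1 (hI (heI a))
    exact ⟨mem_range.1 h1, h2⟩
  refine ⟨Fin.snoc (fun a : Fin T => f (e a)) (f L), c₀, ?_, ?_⟩
  · intro a
    refine Fin.lastCases ?_ (fun a => ?_) a
    · rw [Fin.snoc_last]
      exact hf _ le_rfl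
    · rw [Fin.snoc_castSucc]
      exact hf _ (hlt a).1.le
  · intro a b
    refine Fin.lastCases ?_ (fun b => ?_) b
    · refine Fin.lastCases (fun h => absurd h (lt_irrefl _)) (fun a _ => ?_) a
      rw [Fin.snoc_last, Fin.snoc_castSucc]
      have h1 := hk (e a) L (hlt a).1 le_rfl
      exact ⟨h1.1, h1.2.trans (hlt a).2⟩
    · refine Fin.lastCases (fun h => ?_) (fun a h => ?_) a
      · exact absurd h (not_lt.2 (Fin.le_last _))
      · rw [Fin.snoc_castSucc, Fin.snoc_castSucc]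
        have h0 : a < b := Fin.castSucc_lt_castSucc_iff.1 h
        have h1 := hk (e a) (e b) (e.lt_iff_lt.2 h0) (hlt b).1.le
        exact ⟨h1.1, h1.2.trans (hlt a).2⟩

/-- the difference of `x` and `y` does not belong to `D` -/
def BadD (D : Set ℕ) (x y : ℕ) : Prop := (x < y → y - x ∉ D) ∧ (y < x → x - y ∉ D)

/-- **Intersections.** -/
theorem interV (T r K : ℕ) (hT : 2 ≤ T) (hr : 0 < r) : ∃ K' : ℕ, 1 ≤ K' ∧
    ∀ (V : Set ℕ) (D : Fin r → Set ℕ), (∀ j, PureOn V (D j) T K) →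
      PureOn V {k | ∀ j, k ∈ D j} (RR T r + 1) K' := by
  classical
  obtain ⟨n, hn⟩ : ∃ n, n = RR T r + 1 := ⟨_, rfl⟩
  have : Nonempty (Fin r) := ⟨⟨0, hr⟩⟩
  obtain ⟨N, hN⟩ := Pool.Agent.H507R3.RamAll.ramsey_finset (Fin n → Fin n → Fin r) 2 (n * K)
  refine ⟨N + 1, by omega, fun V D hD => ?_⟩
  rw [← hn]
  intro H hH hV
  by_contra hcon
  push Not at hcon
  -- the colour
  have hfail : ∀ x y : ℕ, ∃ j : Fin r, (∃ j, BadD (D j) x y) → BadD (D j) x y := by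
    intro x y
    by_cases h : ∃ j, BadD (D j) x y
    · obtain ⟨j, hj⟩ := h
      exact ⟨j, fun _ => hj⟩
    · exact ⟨Classical.arbitrary _, fun h' => absurd h' h⟩
  choose fail hfail using hfail
  have hcross : ∀ g g' i i', g ≠ g' → BadD (D (fail (H g i) (H g' i'))) (H g i) (H g' i') := by
    intro g g' i i' hgg
    apply hfail
    rcases lt_trichotomy (H g i) (H g' i') with h | h | h
    · have h1 := hcon g g' i i' hgg h
      simp only [Set.mem_ofPred_eq, not_forall] at h1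
      obtain ⟨j, hj⟩ := h1
      exact ⟨j, fun _ => hj, fun h' => absurd h' (by omega)⟩
    · exfalso
      exact hgg (Prod.mk.inj (hH (a₁ := (g, i)) (a₂ := (g', i')) h)).1
    · have h1 := hcon g' g i' i hgg.symm h
      simp only [Set.mem_ofPred_eq, not_forall] at h1
      obtain ⟨j, hj⟩ := h1
      exact ⟨j, fun h' => absurd h' (by omega), fun _ => hj⟩
  obtain ⟨Hx, hHx⟩ : ∃ Hx : Fin n → ℕ → ℕ, ∀ g (i : ℕ) (hi : i < N + 1), Hx g i = H g ⟨i, hi⟩ :=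
    ⟨fun g i => if hi : i < N + 1 then H g ⟨i, hi⟩ else 0, fun g i hi => dif_pos hi⟩
  obtain ⟨Z, hZ, hZc, k, hk⟩ := hN (range (N + 1)) (fun Q => fun g g' =>
    if h : Q.Nonempty then fail (Hx g (Q.min' h)) (Hx g' (Q.max' h)) else Classical.arbitrary _)
    (by rw [card_range]; omega)
  have hk' : ∀ i ∈ Z, ∀ i' ∈ Z, i < i' → ∀ g g', fail (Hx g i) (Hx g' i') = k g g' := by
    intro i hi i' hi' hlt g g'
    have h1 := hk {i, i'} (by
      intro x hx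
      rw [mem_insert, mem_singleton] at hx
      rcases hx with rfl | rfl
      · exact hi
      · exact hi') (card_pair hlt.ne)
    have h2 := congrFun (congrFun h1 g) g'
    have hne : ({i, i'} : Finset ℕ).Nonempty := ⟨i, by simp⟩
    have hmin : ({i, i'} : Finset ℕ).min' hne = i := by
      apply le_antisymm
      · exact min'_le _ _ (by simp)
      · apply le_min'
        intro y hy
        rw [mem_insert, mem_singleton] at hy
        omega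
    have hmax : ({i, i'} : Finset ℕ).max' hne = i' := by
      apply le_antisymm
      · apply max'_le
        intro y hy
        rw [mem_insert, mem_singleton] at hy
        omega
      · exact le_max' _ _ (by simp)
    simp only [hne, dif_pos] at h2
    rw [hmin, hmax] at h2
    exact h2
  obtain ⟨e, he⟩ : ∃ e : Fin (n * K) ↪o ℕ, e = Z.orderEmbOfFin hZc := ⟨_, rfl⟩
  have heZ : ∀ a, e a ∈ Z := fun a => by rw [he]; exact orderEmbOfFin_mem Z hZc a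
  have hidx : ∀ (g : Fin n) (s : Fin K), (g : ℕ) * K + s < n * K := by
    intro g s
    have h1 : ((g : ℕ) + 1) * K ≤ n * K := Nat.mul_le_mul_right K g.2
    have h2 := s.2
    nlinarith
  obtain ⟨g, c, hgS, hg⟩ := monoT T r hT (fun x y => if h : x < n ∧ y < n then k ⟨x, h.1⟩ ⟨y, h.2⟩
    else Classical.arbitrary _) (range n) (by rw [card_range, hn])
  have hgn : ∀ a, g a < n := fun a => mem_range.1 (hgS a)
  obtain ⟨H4, hH4⟩ : ∃ H4 : Fin T → Fin K → ℕ, ∀ a s, H4 a s =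
      H ⟨g a, hgn a⟩ ⟨e ⟨g a * K + s, hidx ⟨g a, hgn a⟩ s⟩, mem_range.1 (hZ (heZ _))⟩ :=
    ⟨fun a s => _, fun a s => rfl⟩
  have hcol : ∀ a b, a < b → ∀ s s', BadD (D c) (H4 a s) (H4 b s') := by
    intro a b hab s s'
    obtain ⟨h1, h2⟩ := hg a b hab
    have h3 : fail (H4 a s) (H4 b s') = c := by
      have hlt : e ⟨g a * K + s, hidx ⟨g a, hgn a⟩ s⟩ < e ⟨g b * K + s', hidx ⟨g b, hgn b⟩ s'⟩ := by
        rw [e.lt_iff_lt, Fin.mk_lt_mk]
        have h4 : (g a + 1) * K ≤ g b * K := Nat.mul_le_mul_right K h1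
        have h5 := s.2
        nlinarith
      have h4 := hk' _ (heZ ⟨g a * K + s, hidx ⟨g a, hgn a⟩ s⟩) _
        (heZ ⟨g b * K + s', hidx ⟨g b, hgn b⟩ s'⟩) hlt ⟨g a, hgn a⟩ ⟨g b, hgn b⟩
      rw [hHx _ _ (mem_range.1 (hZ (heZ _))), hHx _ _ (mem_range.1 (hZ (heZ _)))] at h4
      rw [hH4, hH4, h4]
      rw [dif_pos ⟨hgn a, hgn b⟩] at h2
      exact h2
    have h4 := hcross ⟨g a, hgn a⟩ ⟨g b, hgn b⟩
      ⟨e ⟨g a * K + s, hidx ⟨g a, hgn a⟩ s⟩, mem_range.1 (hZ (heZ _))⟩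
      ⟨e ⟨g b * K + s', hidx ⟨g b, hgn b⟩ s'⟩, mem_range.1 (hZ (heZ _))⟩
      (fun h => h1.ne (Fin.mk.inj_iff.1 h))
    rw [← hH4, ← hH4, h3] at h4
    exact h4
  obtain ⟨a, b, s, s', hab, hlt, hmem⟩ := hD c H4 (by
    intro x y hxy
    simp only [hH4] at hxy
    have h1 := hH (a₁ := (_, _)) (a₂ := (_, _)) hxy
    obtain ⟨h2, h3⟩ := Prod.mk.inj h1
    have h4 : g x.1 = g y.1 := Fin.mk.inj_iff.1 h2
    have h5 : x.1 = y.1 := by
      rcases lt_trichotomy x.1 y.1 with h | h | h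
      · exact absurd h4 (hg _ _ h).1.ne
      · exact h
      · exact absurd h4 (hg _ _ h).1.ne'
    have h6 := e.injective (Fin.mk.inj_iff.1 h3)
    have h7 := Fin.mk.inj_iff.1 h6
    rw [h4] at h7
    exact Prod.ext h5 (Fin.ext (by omega))) (fun a s => by rw [hH4]; exact hV _ _)
  rcases lt_or_gt_of_ne hab with h | h
  · exact (hcol a b h s s').1 hlt hmem
  · exact (hcol b a h s' s).2 hlt hmem

open Classical in
/-- **One of the multiples `k, 2 k, …, R k`, all systems at once, in every window up to the record scale.** -/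
theorem main : ∃ T₀ : ℕ, 2 ≤ T₀ ∧ ∀ (r : ℕ), 0 < r → ∀ A d : Fin r → ℕ, (∀ j, 0 < A j) →
    (∀ j, Squarefree (d j)) → ∃ M : ℕ, 0 < M ∧ ∀ ε : ℝ, 0 < ε → ∃ C : ℕ, ∀ᶠ X : ℝ in atTop,
      ∀ a : Fin r → ℕ, (∀ j, (a j).Coprime (d j)) → ∀ N : ℕ, 0 < N → M ∣ N →
      ∀ u H : ℕ, C ≤ H → ((C * (N * (u + H)) : ℕ) : ℝ) ≤ ff X →
        (((Ioc u (u + H)).filter (fun k : ℕ => ¬ ∃ δ, 1 ≤ δ ∧ δ ≤ RR T₀ r ∧
          ∀ j, X ^ (6 / 7 : ℝ) ≤ gapCount X (d j) (a j) (A j * (N * (δ * k))))).card : ℝ) ≤ ε * H := by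
  obtain ⟨T₀, hT₀, K, hK, hp⟩ := pure_rec
  refine ⟨T₀, hT₀, fun r hr A d hA hd => ?_⟩
  obtain ⟨K', hK', hint⟩ := interV T₀ r K hT₀ hr
  choose c hc hcX using fun j => hp (d j) (hd j)
  obtain ⟨R, hR⟩ : ∃ R, R = RR T₀ r := ⟨_, rfl⟩
  have hd0 : ∀ j, 0 < d j := fun j => Nat.pos_of_ne_zero (hd j).ne_zero
  refine ⟨(∏ j, d j) * K.factorial, Nat.mul_pos (prod_pos fun j _ => hd0 j) (Nat.factorial_pos _),
    fun ε hε => ?_⟩
  obtain ⟨C₁, hC₁, HB⟩ := combB (R + 1) K' (by omega) hK' (fun g : Fin (R + 1) => (g : ℕ))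
    Fin.val_injective 1 1 le_rfl (dvd_refl _) le_rfl ε hε
  -- the constant
  obtain ⟨Q, hQ⟩ : ∃ Q : ℕ, ∀ j, (C₁ * A j : ℝ) ≤ c j * Q := by
    have h1 : ∀ j, ∃ Q : ℕ, (C₁ * A j : ℝ) ≤ c j * Q := fun j => by
      obtain ⟨Q, hQ⟩ := exists_nat_ge ((C₁ * A j : ℝ) / c j)
      rw [div_le_iff₀ (hc j)] at hQ
      exact ⟨Q, by linarith⟩
    choose Q hQ using h1
    refine ⟨univ.sup Q, fun j => (hQ j).trans ?_⟩
    exact mul_le_mul_of_nonneg_left (by exact_mod_cast le_sup (f := Q) (mem_univ j)) (hc j).le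
  refine ⟨C₁ + Q, ?_⟩
  filter_upwards [eventually_all.2 hcX, Pool.Agent.H312R2.RG.ev_ff 1 one_pos] with X hX hff a ha N hN hMN u H hCH hHX
  by_contra hcon
  rw [not_le] at hcon
  obtain ⟨B, hB⟩ : ∃ B, B = ((Ioc u (u + H)).filter (fun k : ℕ => ¬ ∃ δ, 1 ≤ δ ∧ δ ≤ RR T₀ r ∧
          ∀ j, X ^ (6 / 7 : ℝ) ≤ gapCount X (d j) (a j) (A j * (N * (δ * k))))) := ⟨_, rfl⟩
  rw [← hB] at hcon
  obtain ⟨P, hPinj, hPle, hPd, -⟩ := HB H (by omega) u B (by rw [hB]; exact filter_subset _ _) hcon.le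
  have hpure : PureOn {k : ℕ | k ≤ C₁ * (u + H)}
      {k | ∀ j, k ∈ {k : ℕ | X ^ (6 / 7 : ℝ) ≤ gapCount X (d j) (a j) (A j * N * k)}} (RR T₀ r + 1) K' := by
    refine hint _ _ fun j => ?_
    refine (hX j (a j) (A j * N) (ha j) (Nat.mul_pos (hA j) hN) ?_ ?_).subset ?_
    · have h1 : d j ∣ ∏ j, d j := dvd_prod_of_mem d (mem_univ j)
      exact ((h1.mul_right _).trans hMN).mul_left _
    · exact ((dvd_mul_left _ _).trans hMN).mul_left _
    · intro k hk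
      have hk' : k ≤ C₁ * (u + H) := hk
      show ((A j * N * k : ℕ) : ℝ) ≤ c j * ff X
      have h1 : ((A j * N * k : ℕ) : ℝ) ≤ ((A j * N * (C₁ * (u + H)) : ℕ) : ℝ) := by
        exact_mod_cast Nat.mul_le_mul_left _ hk'
      have h2 : ((A j * N * (C₁ * (u + H)) : ℕ) : ℝ) = (C₁ * A j : ℝ) * ((N * (u + H) : ℕ) : ℝ) := by
        push_cast; ring
      have h3 : (C₁ * A j : ℝ) * ((N * (u + H) : ℕ) : ℝ) ≤ c j * Q * ((N * (u + H) : ℕ) : ℝ) :=
        mul_le_mul_of_nonneg_right (hQ j) (Nat.cast_nonneg _)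
      have h4 : ((Q * (N * (u + H)) : ℕ) : ℝ) ≤ ff X := by
        refine le_trans ?_ hHX
        exact_mod_cast Nat.mul_le_mul_right _ (by omega : Q ≤ C₁ + Q)
      have h5 : c j * Q * ((N * (u + H) : ℕ) : ℝ) = c j * ((Q * (N * (u + H)) : ℕ) : ℝ) := by
        push_cast; ring
      have h6 : c j * ((Q * (N * (u + H)) : ℕ) : ℝ) ≤ c j * ff X :=
        mul_le_mul_of_nonneg_left h4 (hc j).le
      linarith
  rw [← hR] at hpure
  obtain ⟨g, g', i, i', hgg, hlt, hmem⟩ := hpure P hPinj (fun g i => hPle g i)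
  obtain ⟨k, hkB, hk⟩ := hPd g' g i' i hgg.symm
  have hk0 : 0 < k := by
    rw [hB, mem_filter, mem_Ioc] at hkB
    omega
  have hgl : (g : ℕ) < g' := by
    have h1 : (0 : ℤ) < (P g' i' : ℤ) - P g i := by
      have : (P g i : ℤ) < P g' i' := by exact_mod_cast hlt
      linarith
    rw [hk] at h1
    have h2 : (0 : ℤ) < k := by exact_mod_cast hk0
    have h3 := pos_of_mul_pos_left h1 h2.le
    have h4 : ((g : ℕ) : ℤ) < ((g' : ℕ) : ℤ) := by linarith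
    exact_mod_cast h4
  have hdiff : P g' i' - P g i = ((g' : ℕ) - (g : ℕ)) * k := by
    have h1 : ((P g' i' - P g i : ℕ) : ℤ) = (((g' : ℕ) - (g : ℕ) : ℕ) : ℤ) * k := by
      rw [Nat.cast_sub hlt.le, Nat.cast_sub hgl.le]
      exact hk
    exact_mod_cast h1
  rw [hB, mem_filter] at hkB
  refine hkB.2 ⟨(g' : ℕ) - (g : ℕ), by omega, ?_, fun j => ?_⟩
  · have := g'.2
    omega
  · have h1 := hmem j
    have h2 : A j * N * (P g' i' - P g i) = A j * (N * (((g' : ℕ) - (g : ℕ)) * k)) := by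
      rw [hdiff, mul_assoc]
    have h3 : X ^ (6 / 7 : ℝ) ≤ gapCount X (d j) (a j) (A j * N * (P g' i' - P g i)) := h1
    rw [h2] at h3
    exact h3

open Classical in
/-- from multiples to a positive proportion -/
lemma proportion (R : ℕ) (hR : 1 ≤ R) (G : ℕ → Prop) (Y : ℕ) (hY : 2 * R ≤ Y)
    (h : (((Ioc 0 (0 + Y / R)).filter (fun k : ℕ => ¬ ∃ δ, 1 ≤ δ ∧ δ ≤ R ∧ G (δ * k))).card : ℝ) ≤
      1 / 2 * (Y / R : ℕ)) :
    (Y : ℝ) ≤ 4 * R ^ 2 * ((Ioc 0 Y).filter (fun k => G k)).card := by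
  obtain ⟨H, hH⟩ : ∃ H, H = Y / R := ⟨_, rfl⟩
  rw [← hH, zero_add] at h
  have hsum : ((Ioc 0 H).filter (fun k : ℕ => ∃ δ, 1 ≤ δ ∧ δ ≤ R ∧ G (δ * k))).card +
      ((Ioc 0 H).filter (fun k : ℕ => ¬ ∃ δ, 1 ≤ δ ∧ δ ≤ R ∧ G (δ * k))).card = H := by
    rw [card_filter_add_card_filter_not, Nat.card_Ioc, Nat.sub_zero]
  have hsumr : ((((Ioc 0 H).filter (fun k : ℕ => ∃ δ, 1 ≤ δ ∧ δ ≤ R ∧ G (δ * k))).card : ℕ) : ℝ) +
      (((Ioc 0 H).filter (fun k : ℕ => ¬ ∃ δ, 1 ≤ δ ∧ δ ≤ R ∧ G (δ * k))).card : ℝ) = H := by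
    exact_mod_cast hsum
  have hsub : (Ioc 0 H).filter (fun k : ℕ => ∃ δ, 1 ≤ δ ∧ δ ≤ R ∧ G (δ * k)) ⊆
      ((Icc 1 R) ×ˢ ((Ioc 0 Y).filter (fun k => G k))).image (fun z => z.2 / z.1) := by
    intro k hk
    rw [mem_filter, mem_Ioc] at hk
    obtain ⟨⟨hk0, hkH⟩, δ, h1, h2, h3⟩ := hk
    rw [mem_image]
    refine ⟨(δ, δ * k), ?_, ?_⟩
    · rw [mem_product, mem_Icc, mem_filter, mem_Ioc]
      refine ⟨⟨h1, h2⟩, ⟨Nat.mul_pos h1 hk0, ?_⟩, h3⟩
      calc δ * k ≤ R * (Y / R) := Nat.mul_le_mul h2 (by rw [← hH]; exact hkH)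
        _ ≤ Y := Nat.mul_div_le Y R
    · show δ * k / δ = k
      exact Nat.mul_div_cancel_left k h1
  have h1 := (card_le_card hsub).trans card_image_le
  rw [card_product, Nat.card_Icc, Nat.add_sub_cancel] at h1
  have h1r : (((Ioc 0 H).filter (fun k : ℕ => ∃ δ, 1 ≤ δ ∧ δ ≤ R ∧ G (δ * k))).card : ℝ) ≤
      R * ((Ioc 0 Y).filter (fun k => G k)).card := by exact_mod_cast h1
  have h2 : Y < R * (H + 1) := by
    rw [hH]
    have := Nat.lt_mul_div_succ Y (show 0 < R by omega)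
    exact this
  have h2r : (Y : ℝ) < R * (H + 1) := by exact_mod_cast h2
  have hYr : 2 * (R : ℝ) ≤ Y := by exact_mod_cast hY
  have hRr : (1 : ℝ) ≤ R := by exact_mod_cast hR
  have h3 : (Y : ℝ) ≤ 2 * (R * H) := by linarith
  have h4 : (H : ℝ) ≤ 2 * (R * ((Ioc 0 Y).filter (fun k => G k)).card) := by linarith
  have h5 : (R : ℝ) * H ≤ R * (2 * (R * ((Ioc 0 Y).filter (fun k => G k)).card)) :=
    mul_le_mul_of_nonneg_left h4 (by linarith)
  nlinarith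

open Classical in
/-- both conclusions -/
theorem both : ∃ T₀ : ℕ, 2 ≤ T₀ ∧ ∀ (r : ℕ), 0 < r → ∀ A d : Fin r → ℕ, (∀ j, 0 < A j) →
    (∀ j, Squarefree (d j)) → ∃ M : ℕ, 0 < M ∧
    (∀ ε : ℝ, 0 < ε → ∃ C : ℕ, ∀ᶠ X : ℝ in atTop,
      ∀ a : Fin r → ℕ, (∀ j, (a j).Coprime (d j)) → ∀ N : ℕ, 0 < N → M ∣ N →
      ∀ u H : ℕ, C ≤ H → ((C * (N * (u + H)) : ℕ) : ℝ) ≤ ff X →
        (((Ioc u (u + H)).filter (fun k : ℕ => ¬ ∃ δ, 1 ≤ δ ∧ δ ≤ RR T₀ r ∧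
          ∀ j, X ^ (6 / 7 : ℝ) ≤ gapCount X (d j) (a j) (A j * (N * (δ * k))))).card : ℝ) ≤ ε * H) ∧
    ∃ C : ℕ, ∀ᶠ X : ℝ in atTop,
      ∀ a : Fin r → ℕ, (∀ j, (a j).Coprime (d j)) → ∀ N : ℕ, 0 < N → M ∣ N →
      ∀ Y : ℕ, C ≤ Y → ((C * (N * Y) : ℕ) : ℝ) ≤ ff X →
        (Y : ℝ) ≤ 4 * (RR T₀ r) ^ 2 * ((Ioc 0 Y).filter (fun k : ℕ =>
          ∀ j, X ^ (6 / 7 : ℝ) ≤ gapCount X (d j) (a j) (A j * (N * k)))).card := by
  obtain ⟨T₀, hT₀, h⟩ := main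
  refine ⟨T₀, hT₀, fun r hr A d hA hd => ?_⟩
  obtain ⟨M, hM, h⟩ := h r hr A d hA hd
  refine ⟨M, hM, h, ?_⟩
  obtain ⟨C, hC⟩ := h (1 / 2) (by norm_num)
  have hR := one_le_RR T₀ r
  refine ⟨RR T₀ r * (C + 2), ?_⟩
  filter_upwards [hC] with X hX a ha N hN hMN Y hCY hY
  have h1 : C + 2 ≤ Y / RR T₀ r := by
    rw [Nat.le_div_iff_mul_le (by omega), mul_comm]
    exact hCY
  have h2 : ((C * (N * (0 + Y / RR T₀ r)) : ℕ) : ℝ) ≤ ff X := by
    refine le_trans ?_ hY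
    have h3 : C * (N * (0 + Y / RR T₀ r)) ≤ RR T₀ r * (C + 2) * (N * Y) := by
      apply Nat.mul_le_mul
      · calc C ≤ 1 * (C + 2) := by omega
          _ ≤ RR T₀ r * (C + 2) := Nat.mul_le_mul_right _ hR
      · rw [zero_add]
        exact Nat.mul_le_mul_left _ (Nat.div_le_self _ _)
    exact_mod_cast h3
  have h4 := hX a ha N hN hMN 0 (Y / RR T₀ r) (by omega) h2
  have h5 : 2 * RR T₀ r ≤ Y := by
    rw [mul_comm]
    exact (Nat.mul_le_mul_left _ (by omega)).trans hCY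
  generalize RR T₀ r = R at *
  have h6 := proportion R hR (fun k => ∀ j, X ^ (6 / 7 : ℝ) ≤ gapCount X (d j) (a j) (A j * (N * k))) Y h5 h4
  convert h6

end Pool.Agent.Q84.RS
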