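import Mathlib

/-! Riesz product probability measures on the circle over dissociate sets. -/

set_option autoImplicit false
set_option linter.unusedSectionVars false
open Complex Filter Topology MeasureTheory AddCircle
open scoped ComplexConjugate ENNReal

namespace Q84.RZ

variable {T : ℝ} [hT : Fact (0 < T)] {ι : Type} [DecidableEq ι]

/-- the frequency of a pair `t' ⊆ t` -/
def D (p : ι → ℤ) (t t' : Finset ι) : ℤ := ∑ i ∈ t', p i - ∑ i ∈ t \ t', p i

/-- the coefficient of a pair -/
def coef (c : ι → ℂ) (t t' : Finset ι) : ℂ := (∏ i ∈ t', conj (c i)) * ∏ i ∈ t \ t', c i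

/-- dissociate family of integers -/
def Dissoc (p : ι → ℤ) : Prop :=
  ∀ t t' s s' : Finset ι, t' ⊆ t → s' ⊆ s → D p t t' = D p s s' → t = s ∧ t' = s'

/-- finite Riesz product -/
noncomputable def fR (p : ι → ℤ) (c : ι → ℂ) (s : Finset ι) (x : AddCircle T) : ℝ :=
  ∏ i ∈ s, (1 + 2 * (conj (c i) * fourier (p i) x).re)

lemma fR_cont (p : ι → ℤ) (c : ι → ℂ) (s : Finset ι) : Continuous (fR (T := T) p c s) := by
  unfold fR
  fun_prop

lemma norm_fourier_apply (n : ℤ) (x : AddCircle T) : ‖fourier n x‖ = 1 := by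
  rw [fourier_apply]
  exact Circle.norm_coe _

lemma fR_nonneg (p : ι → ℤ) {c : ι → ℂ} (hc : ∀ i, ‖c i‖ ≤ 1 / 2) (s : Finset ι)
    (x : AddCircle T) : 0 ≤ fR p c s x := by
  apply Finset.prod_nonneg
  intro i _
  have h1 := Complex.abs_re_le_norm (conj (c i) * fourier (p i) x)
  rw [norm_mul, norm_fourier_apply, mul_one, RCLike.norm_conj] at h1
  have h2 := neg_le_of_abs_le h1
  linarith [hc i]

lemma fourier_sum (p : ι → ℤ) (t : Finset ι) (x : AddCircle T) :
    ∏ i ∈ t, fourier (p i) x = fourier (∑ i ∈ t, p i) x := by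
  induction t using Finset.induction_on with
  | empty => simp
  | insert a t ha ih => rw [Finset.prod_insert ha, Finset.sum_insert ha, ih, fourier_add]

lemma fR_expand (p : ι → ℤ) (c : ι → ℂ) (s : Finset ι) (x : AddCircle T) :
    (fR p c s x : ℂ) = ∑ t ∈ s.powerset, ∑ t' ∈ t.powerset, coef c t t' * fourier (D p t t') x := by
  have h1 : (fR p c s x : ℂ) = ∏ i ∈ s, (1 + (conj (c i) * fourier (p i) x +
      c i * fourier (-(p i)) x)) := by
    unfold fR
    push_cast
    apply Finset.prod_congr rfl
    intro i _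
    congr 1
    have := Complex.add_conj (conj (c i) * fourier (p i) x)
    rw [map_mul, Complex.conj_conj, ← fourier_neg] at this
    rw [this]
    push_cast
    ring
  rw [h1, Finset.prod_one_add]
  apply Finset.sum_congr rfl
  intro t _
  rw [Finset.prod_add]
  apply Finset.sum_congr rfl
  intro t' _
  rw [Finset.prod_mul_distrib, Finset.prod_mul_distrib, fourier_sum, fourier_sum (fun i => -(p i)),
    coef, D, sub_eq_add_neg, fourier_add, Finset.sum_neg_distrib]
  ring

lemma integral_fourier (n : ℤ) : ∫ x : AddCircle T, fourier n x ∂haarAddCircle =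
    if n = 0 then 1 else 0 := by
  have h := fourierCoeff_fourier (T := T) n
  have h0 := congrFun h 0
  rw [fourierCoeff] at h0
  simp only [neg_zero, fourier_zero, one_smul] at h0
  rw [h0, Pi.single_apply]
  simp [eq_comm]

lemma integral_fR (p : ι → ℤ) (c : ι → ℂ) (s : Finset ι) (n : ℤ) :
    ∫ x : AddCircle T, (fR p c s x : ℂ) * fourier n x ∂haarAddCircle =
      ∑ t ∈ s.powerset, ∑ t' ∈ t.powerset, coef c t t' * if D p t t' + n = 0 then 1 else 0 := by
  have hint : ∀ (a : ℂ) (m : ℤ), Integrable (fun x : AddCircle T => a * fourier m x)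
      haarAddCircle := by
    intro a m
    exact ((map_continuous (fourier m)).const_smul a).integrable_of_hasCompactSupport
      (HasCompactSupport.of_compactSpace _)
  have h1 : ∀ x : AddCircle T, (fR p c s x : ℂ) * fourier n x =
      ∑ t ∈ s.powerset, ∑ t' ∈ t.powerset, coef c t t' * fourier (D p t t' + n) x := by
    intro x
    rw [fR_expand, Finset.sum_mul]
    apply Finset.sum_congr rfl
    intro t _
    rw [Finset.sum_mul]
    apply Finset.sum_congr rfl
    intro t' _
    rw [fourier_add]
    ring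
  simp_rw [h1]
  rw [integral_finsetSum _ (fun t _ => integrable_finsetSum _ fun t' _ => hint _ _)]
  apply Finset.sum_congr rfl
  intro t _
  rw [integral_finsetSum _ (fun t' _ => hint _ _)]
  apply Finset.sum_congr rfl
  intro t' _
  rw [integral_const_mul, integral_fourier]

/-- value of the coefficient at a represented frequency -/
lemma sum_eq {p : ι → ℤ} (hp : Dissoc p) (c : ι → ℂ) {s t₀ t₀' : Finset ι} (h0 : t₀' ⊆ t₀)
    (hs : t₀ ⊆ s) {n : ℤ} (hn : D p t₀ t₀' + n = 0) :
    ∑ t ∈ s.powerset, ∑ t' ∈ t.powerset, coef c t t' * (if D p t t' + n = 0 then 1 else 0) =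
      coef c t₀ t₀' := by
  rw [Finset.sum_eq_single_of_mem t₀ (Finset.mem_powerset.2 hs),
    Finset.sum_eq_single_of_mem t₀' (Finset.mem_powerset.2 h0)]
  · rw [if_pos hn, mul_one]
  · intro t' ht' hne
    rw [if_neg, mul_zero]
    intro h
    exact hne (hp t₀ t' t₀ t₀' (Finset.mem_powerset.1 ht') h0 (by linarith)).2
  · intro t ht hne
    apply Finset.sum_eq_zero
    intro t' ht'
    rw [if_neg, mul_zero]
    intro h
    exact hne (hp t t' t₀ t₀' (Finset.mem_powerset.1 ht') h0 (by linarith)).1

lemma sum_eq_zero {p : ι → ℤ} (c : ι → ℂ) {s : Finset ι} {n : ℤ}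
    (hn : ∀ t t' : Finset ι, t' ⊆ t → D p t t' + n ≠ 0) :
    ∑ t ∈ s.powerset, ∑ t' ∈ t.powerset, coef c t t' * (if D p t t' + n = 0 then (1 : ℂ) else 0) =
      0 := by
  apply Finset.sum_eq_zero
  intro t ht
  apply Finset.sum_eq_zero
  intro t' ht'
  rw [if_neg (hn t t' (Finset.mem_powerset.1 ht')), mul_zero]

/-- the finite stage probability measures -/
noncomputable def nu (p : ι → ℤ) (c : ι → ℂ) (s : Finset ι) : Measure (AddCircle T) :=
  haarAddCircle.withDensity fun x => ENNReal.ofReal (fR p c s x)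

lemma integral_nu (p : ι → ℤ) {c : ι → ℂ} (hc : ∀ i, ‖c i‖ ≤ 1 / 2) (s : Finset ι)
    (g : AddCircle T → ℂ) :
    ∫ x, g x ∂(nu p c s) = ∫ x : AddCircle T, (fR p c s x : ℂ) * g x ∂haarAddCircle := by
  unfold nu
  rw [integral_withDensity_eq_integral_toReal_smul]
  · apply integral_congr_ae
    filter_upwards with x
    rw [ENNReal.toReal_ofReal (fR_nonneg p hc s x), Complex.real_smul]
  · exact (fR_cont p c s).measurable.ennreal_ofReal
  · filter_upwards with x
    exact ENNReal.ofReal_lt_top

lemma isProb_nu {p : ι → ℤ} (hp : Dissoc p) {c : ι → ℂ} (hc : ∀ i, ‖c i‖ ≤ 1 / 2)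
    (s : Finset ι) : IsProbabilityMeasure (nu (T := T) p c s) := by
  constructor
  have hi : Integrable (fR (T := T) p c s) haarAddCircle :=
    (fR_cont p c s).integrable_of_hasCompactSupport (HasCompactSupport.of_compactSpace _)
  rw [nu, withDensity_apply _ MeasurableSet.univ, setLIntegral_univ,
    ← ofReal_integral_eq_lintegral_ofReal hi (Eventually.of_forall (fR_nonneg p hc s))]
  have h1 : ∫ x : AddCircle T, fR p c s x ∂haarAddCircle = 1 := by
    have h2 := integral_fR (T := T) p c s 0
    rw [sum_eq hp c (t₀ := ∅) (t₀' := ∅) (by simp) (by simp) (by simp [D])] at h2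
    simp only [fourier_zero, mul_one, coef] at h2
    rw [integral_complex_ofReal] at h2
    simp at h2
    exact_mod_cast h2
  rw [h1, ENNReal.ofReal_one]

/-- existence of the infinite Riesz product -/
theorem exists_riesz {p : ι → ℤ} (hp : Dissoc p) {c : ι → ℂ} (hc : ∀ i, ‖c i‖ ≤ 1 / 2)
    (hc0 : Tendsto (fun i => ‖c i‖) cofinite (𝓝 0)) :
    ∃ μ : Measure (AddCircle T), IsProbabilityMeasure μ ∧
      Tendsto (fun n : ℤ => ∫ x, fourier n x ∂μ) cofinite (𝓝 0) ∧
      (∀ i, ∫ x, fourier (p i) x ∂μ = c i) ∧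
      (∀ i l, i ≠ l → ∫ x, fourier (p i - p l) x ∂μ = c i * conj (c l)) := by
  classical
  let P : Finset ι → ProbabilityMeasure (AddCircle T) := fun s => ⟨nu p c s, isProb_nu hp hc s⟩
  obtain ⟨μ, -, hμ⟩ := (isCompact_univ (X := ProbabilityMeasure (AddCircle T))).ultrafilter_le_nhds
    ((Ultrafilter.of (atTop : Filter (Finset ι))).map P) (by simp)
  have hlim : Tendsto P (Ultrafilter.of (atTop : Filter (Finset ι))) (𝓝 μ) := hμ
  rw [ProbabilityMeasure.tendsto_iff_forall_integral_rclike_tendsto ℂ] at hlim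
  have hcoef : ∀ (n : ℤ) (L : ℂ), (∀ᶠ s in (atTop : Filter (Finset ι)),
      ∫ x : AddCircle T, (fR p c s x : ℂ) * fourier n x ∂haarAddCircle = L) →
      ∫ x, fourier n x ∂(μ : Measure (AddCircle T)) = L := by
    intro n L hL
    have h1 := hlim (BoundedContinuousFunction.mkOfCompact (fourier n))
    simp only [BoundedContinuousFunction.mkOfCompact_apply] at h1
    refine tendsto_nhds_unique h1 ?_
    apply tendsto_const_nhds.congr'
    have h2 := (Ultrafilter.of_le (atTop : Filter (Finset ι))) hL
    filter_upwards [h2] with s hs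
    rw [← hs]
    exact (integral_nu p hc s _).symm
  have hrep : ∀ (t t' : Finset ι) (n : ℤ), t' ⊆ t → D p t t' + n = 0 →
      ∫ x, fourier n x ∂(μ : Measure (AddCircle T)) = coef c t t' := by
    intro t t' n ht hn
    apply hcoef
    filter_upwards [eventually_ge_atTop t] with s hs
    rw [integral_fR, sum_eq hp c ht hs hn]
  have hnrep : ∀ n : ℤ, (∀ t t' : Finset ι, t' ⊆ t → D p t t' + n ≠ 0) →
      ∫ x, fourier n x ∂(μ : Measure (AddCircle T)) = 0 := by
    intro n hn
    apply hcoef
    filter_upwards with s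
    rw [integral_fR, sum_eq_zero c hn]
  refine ⟨μ, inferInstance, ?_, ?_, ?_⟩
  · rw [Metric.tendsto_nhds]
    intro ε hε
    have hfin : {i | ¬ ‖c i‖ < ε}.Finite := by
      have := hc0.eventually (gt_mem_nhds hε)
      exact this
    set S : Finset ι := hfin.toFinset with hS
    have hbig : ∀ n : ℤ, ¬ dist (∫ x, fourier n x ∂(μ : Measure (AddCircle T))) 0 < ε →
        n ∈ (S.powerset ×ˢ S.powerset).image (fun q => -(D p q.1 q.2)) := by
      intro n hn
      rw [dist_zero_right] at hn
      by_cases hr : ∀ t t' : Finset ι, t' ⊆ t → D p t t' + n ≠ 0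
      · rw [hnrep n hr, norm_zero] at hn
        exact absurd hε hn
      · push Not at hr
        obtain ⟨t, t', ht, hD⟩ := hr
        rw [hrep t t' n ht hD] at hn
        have htS : t ⊆ S := by
          intro i hi
          rw [hS, Set.Finite.mem_toFinset]
          show ¬ ‖c i‖ < ε
          intro hlt
          apply hn
          refine lt_of_le_of_lt ?_ hlt
          have h1 : ‖coef c t t'‖ = ∏ j ∈ t, ‖c j‖ := by
            rw [coef, norm_mul, norm_prod, norm_prod, ← Finset.prod_sdiff ht, mul_comm]
            congr 1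
            apply Finset.prod_congr rfl
            intro j _
            rw [RCLike.norm_conj]
          rw [h1, ← Finset.mul_prod_erase t _ hi]
          have h2 : ∏ j ∈ t.erase i, ‖c j‖ ≤ 1 :=
            Finset.prod_le_one (fun j _ => norm_nonneg _) fun j _ => (hc j).trans (by norm_num)
          calc ‖c i‖ * ∏ j ∈ t.erase i, ‖c j‖ ≤ ‖c i‖ * 1 :=
                mul_le_mul_of_nonneg_left h2 (norm_nonneg _)
            _ = ‖c i‖ := mul_one _
        rw [Finset.mem_image]
        refine ⟨(t, t'), ?_, ?_⟩
        · rw [Finset.mem_product, Finset.mem_powerset, Finset.mem_powerset]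
          exact ⟨htS, ht.trans htS⟩
        · show -(D p t t') = n
          linarith
    exact (Finset.finite_toSet _).subset hbig
  · intro i
    rw [hrep {i} ∅ (p i) (by simp) (by simp [D])]
    simp [coef]
  · intro i l hil
    rw [hrep {i, l} {l} (p i - p l) (by simp) ?_]
    · have : ({i, l} : Finset ι) \ {l} = {i} := by
        ext j
        simp only [Finset.mem_sdiff, Finset.mem_insert, Finset.mem_singleton]
        constructor
        · rintro ⟨h1 | h1, h2⟩
          · exact h1
          · exact absurd h1 h2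
        · rintro rfl
          exact ⟨Or.inl rfl, hil⟩
      rw [coef, this]
      simp [mul_comm]
    · have : ({i, l} : Finset ι) \ {l} = {i} := by
        ext j
        simp only [Finset.mem_sdiff, Finset.mem_insert, Finset.mem_singleton]
        constructor
        · rintro ⟨h1 | h1, h2⟩
          · exact h1
          · exact absurd h1 h2
        · rintro rfl
          exact ⟨Or.inl rfl, hil⟩
      rw [D, this]
      simp

end Q84.RZ
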