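import Mathlib
import Pool.Agent.Q84.RZ1

/-! Clustered dissociate frequencies. -/

set_option autoImplicit false
open Finset

namespace Q84.RZ

lemma base5 : ∀ (K : ℕ) (δ : Fin K → ℤ), (∀ k, |δ k| ≤ 2) → ∑ k, δ k * 5 ^ (k : ℕ) = 0 →
    ∀ k, δ k = 0 := by
  intro K
  induction K with
  | zero => intro δ _ _ k; exact k.elim0
  | succ K ih =>
    intro δ hδ h0
    rw [Fin.sum_univ_succ] at h0
    simp only [Fin.val_zero, pow_zero, mul_one, Fin.val_succ, pow_succ] at h0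
    have h1 : ∑ k : Fin K, δ k.succ * (5 ^ (k : ℕ) * 5) = 5 * ∑ k : Fin K, δ k.succ * 5 ^ (k : ℕ) := by
      rw [Finset.mul_sum]
      apply Finset.sum_congr rfl
      intro k _
      ring
    rw [h1] at h0
    have h2 := abs_le.1 (hδ 0)
    have h3 : δ 0 = 0 := by omega
    have h4 : ∑ k : Fin K, δ k.succ * 5 ^ (k : ℕ) = 0 := by omega
    have h5 := ih (fun k => δ k.succ) (fun k => hδ _) h4
    intro k
    refine Fin.cases h3 (fun j => h5 j) k

/-- the data of the clusters -/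
structure Clus (K : ℕ → ℕ) where
  B : ℕ → ℕ
  L : ℕ → ℕ
  N : ℕ → ℕ
  hL : ∀ j, B j < L j
  hN : ∀ j, B j + 2 * L j * ∑ k : Fin (K j), 5 ^ (k : ℕ) < N j
  hB : ∀ j, B (j + 1) = B j + 2 * ∑ k : Fin (K j), (N j + L j * 5 ^ (k : ℕ))

/-- the frequencies -/
def Clus.p {K : ℕ → ℕ} (C : Clus K) (i : Σ j, Fin (K j)) : ℤ :=
  (C.N i.1 : ℤ) + C.L i.1 * 5 ^ (i.2 : ℕ)

lemma Clus.key {K : ℕ → ℕ} (C : Clus K) : ∀ (J : ℕ) (δ : (Σ j, Fin (K j)) → ℤ),
    (∀ i, |δ i| ≤ 2) → ∑ j ∈ range J, ∑ k : Fin (K j), δ ⟨j, k⟩ * C.p ⟨j, k⟩ = 0 →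
    ∀ j < J, ∀ k : Fin (K j), δ ⟨j, k⟩ = 0 := by
  intro J
  induction J with
  | zero => intro δ _ _ j hj; exact absurd hj (Nat.not_lt_zero j)
  | succ J ih =>
    intro δ hδ h0
    rw [Finset.sum_range_succ] at h0
    set X : ℤ := ∑ j ∈ range J, ∑ k : Fin (K j), δ ⟨j, k⟩ * C.p ⟨j, k⟩ with hX
    have hXb : ∀ J : ℕ, |∑ j ∈ range J, ∑ k : Fin (K j), δ ⟨j, k⟩ * C.p ⟨j, k⟩| ≤ C.B J := by
      intro J
      induction J with
      | zero => simp
      | succ J ihJ =>
        rw [Finset.sum_range_succ, C.hB J]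
        refine (abs_add_le _ _).trans ?_
        push_cast
        refine add_le_add ihJ ?_
        rw [Finset.mul_sum]
        refine (Finset.abs_sum_le_sum_abs _ _).trans (Finset.sum_le_sum fun k _ => ?_)
        rw [abs_mul]
        have hp : |C.p ⟨J, k⟩| = (C.N J : ℤ) + C.L J * 5 ^ (k : ℕ) := by
          rw [Clus.p]
          exact abs_of_nonneg (by positivity)
        rw [hp]
        exact mul_le_mul_of_nonneg_right (hδ _) (by positivity)
    have hXb' := hXb J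
    rw [← hX] at hXb'
    set a : ℤ := ∑ k : Fin (K J), δ ⟨J, k⟩ with ha
    set b : ℤ := ∑ k : Fin (K J), δ ⟨J, k⟩ * 5 ^ (k : ℕ) with hb
    have hY : ∑ k : Fin (K J), δ ⟨J, k⟩ * C.p ⟨J, k⟩ = C.N J * a + C.L J * b := by
      rw [ha, hb, Finset.mul_sum, Finset.mul_sum, ← Finset.sum_add_distrib]
      apply Finset.sum_congr rfl
      intro k _
      rw [Clus.p]
      ring
    rw [hY] at h0
    have hbb : |b| ≤ 2 * ∑ k : Fin (K J), 5 ^ (k : ℕ) := by
      rw [hb, Finset.mul_sum]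
      refine (Finset.abs_sum_le_sum_abs _ _).trans (Finset.sum_le_sum fun k _ => ?_)
      rw [abs_mul, abs_of_nonneg (by positivity : (0 : ℤ) ≤ 5 ^ (k : ℕ))]
      exact mul_le_mul_of_nonneg_right (hδ _) (by positivity)
    have hN : (C.B J : ℤ) + 2 * C.L J * ∑ k : Fin (K J), 5 ^ (k : ℕ) < C.N J := by
      exact_mod_cast C.hN J
    have hL : (C.B J : ℤ) < C.L J := by exact_mod_cast C.hL J
    have ha0 : a = 0 := by
      by_contra hne
      have h1 : 1 ≤ |a| := Int.one_le_abs hne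
      have h2 : (C.N J : ℤ) ≤ |C.N J * a| := by
        rw [abs_mul, abs_of_nonneg (by positivity : (0 : ℤ) ≤ C.N J)]
        nlinarith [(by positivity : (0 : ℤ) ≤ C.N J)]
      have h3 : |C.N J * a| ≤ |X| + C.L J * |b| := by
        have : C.N J * a = -X - C.L J * b := by linarith
        rw [this]
        refine (abs_sub _ _).trans ?_
        rw [abs_neg, abs_mul, abs_of_nonneg (by positivity : (0 : ℤ) ≤ C.L J)]
      have h4 : C.L J * |b| ≤ C.L J * (2 * ∑ k : Fin (K J), 5 ^ (k : ℕ)) :=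
        mul_le_mul_of_nonneg_left hbb (by positivity)
      have h5 : (C.L J : ℤ) * (2 * ∑ k : Fin (K J), 5 ^ (k : ℕ)) =
          2 * C.L J * ∑ k : Fin (K J), 5 ^ (k : ℕ) := by ring
      rw [h5] at h4
      linarith
    have hb0 : b = 0 := by
      by_contra hne
      have h1 : 1 ≤ |b| := Int.one_le_abs hne
      have h2 : C.L J * |b| = |X| := by
        have : X = -(C.L J * b) := by
          rw [ha0] at h0
          linarith
        rw [this, abs_neg, abs_mul, abs_of_nonneg (by positivity : (0 : ℤ) ≤ C.L J)]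
      nlinarith [(by positivity : (0 : ℤ) ≤ C.L J)]
    have hJ := base5 (K J) (fun k => δ ⟨J, k⟩) (fun k => hδ _) hb0
    have hX0 : X = 0 := by
      rw [ha0, hb0] at h0
      linarith
    have hIH := ih δ hδ hX0
    intro j hj k
    rcases Nat.lt_succ_iff_lt_or_eq.1 hj with h | h
    · exact hIH j h k
    · subst h
      exact hJ k

/-- sign of an index in a pair -/
def sg {ι : Type} [DecidableEq ι] (t t' : Finset ι) (i : ι) : ℤ :=
  if i ∈ t' then 1 else if i ∈ t then -1 else 0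

lemma D_eq {ι : Type} [DecidableEq ι] (p : ι → ℤ) {t t' S : Finset ι} (ht : t' ⊆ t) (hS : t ⊆ S) :
    D p t t' = ∑ i ∈ S, sg t t' i * p i := by
  have h1 : ∀ i, sg t t' i * p i = (if i ∈ t' then p i else 0) - (if i ∈ t \ t' then p i else 0) := by
    intro i
    unfold sg
    by_cases h1 : i ∈ t'
    · simp [h1]
    · by_cases h2 : i ∈ t
      · simp [h1, h2]
      · simp [h1, h2]
  simp_rw [h1]
  rw [Finset.sum_sub_distrib, D]
  congr 1
  · rw [Finset.sum_ite_mem, Finset.inter_eq_right.2 (ht.trans hS)]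
  · rw [Finset.sum_ite_mem, Finset.inter_eq_right.2 (Finset.sdiff_subset.trans hS)]

lemma Clus.dissoc {K : ℕ → ℕ} (C : Clus K) : Dissoc C.p := by
  intro t t' s s' ht hs h
  obtain ⟨J, hJ⟩ : ∃ J : ℕ, ∀ i ∈ t ∪ s, i.1 < J := by
    refine ⟨(t ∪ s).sup (fun i => i.1) + 1, fun i hi => ?_⟩
    exact Nat.lt_succ_of_le (Finset.le_sup (f := fun i : (Σ j, Fin (K j)) => i.1) hi)
  set S : Finset (Σ j, Fin (K j)) := (range J).sigma fun _ => univ with hS
  have hsub : ∀ i ∈ t ∪ s, i ∈ S := by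
    intro i hi
    rw [hS, Finset.mem_sigma]
    exact ⟨Finset.mem_range.2 (hJ i hi), Finset.mem_univ _⟩
  have htS : t ⊆ S := fun i hi => hsub i (Finset.mem_union_left _ hi)
  have hsS : s ⊆ S := fun i hi => hsub i (Finset.mem_union_right _ hi)
  rw [D_eq C.p ht htS, D_eq C.p hs hsS, ← sub_eq_zero, ← Finset.sum_sub_distrib] at h
  have h2 : ∑ j ∈ range J, ∑ k : Fin (K j), (sg t t' ⟨j, k⟩ - sg s s' ⟨j, k⟩) * C.p ⟨j, k⟩ = 0 := by
    rw [← h, hS, Finset.sum_sigma]
    apply Finset.sum_congr rfl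
    intro j _
    apply Finset.sum_congr rfl
    intro k _
    ring
  have hb : ∀ i, |sg t t' i - sg s s' i| ≤ 2 := by
    intro i
    unfold sg
    split_ifs <;> norm_num
  have h3 := C.key J (fun i => sg t t' i - sg s s' i) hb h2
  have h4 : ∀ i, sg t t' i = sg s s' i := by
    intro i
    by_cases hi : i.1 < J
    · have := h3 i.1 hi i.2
      exact sub_eq_zero.1 this
    · have h5 : i ∉ t := fun h => hi (hJ i (Finset.mem_union_left _ h))
      have h6 : i ∉ s := fun h => hi (hJ i (Finset.mem_union_right _ h))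
      have h7 : i ∉ t' := fun h => h5 (ht h)
      have h8 : i ∉ s' := fun h => h6 (hs h)
      simp [sg, h5, h6, h7, h8]
  have h5 : ∀ i, (i ∈ t ↔ i ∈ s) ∧ (i ∈ t' ↔ i ∈ s') := by
    intro i
    have := h4 i
    unfold sg at this
    have ht1 := @ht i
    have hs1 := @hs i
    by_cases a1 : i ∈ t' <;> by_cases a2 : i ∈ t <;> by_cases a3 : i ∈ s' <;> by_cases a4 : i ∈ s <;>
      simp_all
  exact ⟨Finset.ext fun i => (h5 i).1, Finset.ext fun i => (h5 i).2⟩

/-- existence of clusters with prescribed gaps -/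
lemma exists_clus (K : ℕ → ℕ) (M : ℕ → ℕ → ℕ) : ∃ C : Clus K, ∀ j, M j (C.L j) < C.N j := by
  let nx : ℕ → ℕ → ℕ := fun j B => B + 2 * (B + 1) * (∑ k : Fin (K j), 5 ^ (k : ℕ)) + M j (B + 1) + 1
  let B : ℕ → ℕ := fun j => Nat.rec 0
    (fun j B => B + 2 * ∑ k : Fin (K j), (nx j B + (B + 1) * 5 ^ (k : ℕ))) j
  refine ⟨⟨B, fun j => B j + 1, fun j => nx j (B j), fun j => Nat.lt_succ_self _, fun j => ?_,
    fun j => rfl⟩, fun j => ?_⟩
  · show B j + 2 * (B j + 1) * _ < B j + 2 * (B j + 1) * _ + _ + 1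
    omega
  · show M j (B j + 1) < B j + 2 * (B j + 1) * _ + M j (B j + 1) + 1
    omega

end Q84.RZ
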