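import Mathlib
import Pool.Agent.Q84.RZ1

/-! Approximate eigenfunctions: homogeneous functions of an average of characters. -/

set_option autoImplicit false
set_option linter.unusedSectionVars false
open Complex Filter Topology MeasureTheory AddCircle
open scoped ComplexConjugate ENNReal

namespace Q84.RZ

variable {T : ℝ} [hT : Fact (0 < T)]

/-- homogeneous function of degree `1/m` -/
noncomputable def hm (m : ℕ) (z : ℂ) : ℂ := z * ((‖z‖ ^ ((1 : ℝ) / m - 1) : ℝ) : ℂ)

lemma norm_hm {m : ℕ} (hm0 : 0 < m) (z : ℂ) : ‖hm m z‖ = ‖z‖ ^ ((1 : ℝ) / m) := by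
  have hm1 : (0 : ℝ) < 1 / m := by positivity
  unfold hm
  rw [norm_mul, Complex.norm_real, Real.norm_of_nonneg (by positivity)]
  by_cases hz : z = 0
  · subst hz
    rw [norm_zero, zero_mul, Real.zero_rpow hm1.ne']
  · have hz' : 0 < ‖z‖ := norm_pos_iff.2 hz
    have : ‖z‖ ^ ((1 : ℝ) / m) = ‖z‖ ^ (1 + ((1 : ℝ) / m - 1)) := by ring_nf
    rw [this, Real.rpow_add hz', Real.rpow_one]

lemma hm_cont {m : ℕ} (hm0 : 0 < m) : Continuous (hm m) := by
  rw [continuous_iff_continuousAt]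
  intro z
  by_cases hz : z = 0
  · subst hz
    have h0 : hm m 0 = 0 := by simp [hm]
    rw [ContinuousAt, h0, tendsto_zero_iff_norm_tendsto_zero]
    simp_rw [norm_hm hm0]
    have hm1 : (0 : ℝ) < 1 / m := by positivity
    have h1 : ContinuousAt (fun z : ℂ => ‖z‖ ^ ((1 : ℝ) / m)) 0 :=
      continuous_norm.continuousAt.rpow_const (Or.inr hm1.le)
    have h2 := h1.tendsto
    simp only [norm_zero, Real.zero_rpow hm1.ne'] at h2
    exact h2
  · unfold hm
    refine continuousAt_id.mul (Complex.continuous_ofReal.continuousAt.comp ?_)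
    exact continuous_norm.continuousAt.rpow_const (Or.inl (norm_ne_zero_iff.2 hz))

lemma exists_block {θ : ℂ} (h0 : 0 < ‖θ‖) (h1 : ‖θ‖ < 1) {ε : ℝ} (hε : 0 < ε) :
    ∃ (K : ℕ) (c : ℂ) (h : ℂ → ℂ), 0 < K ∧ ‖c‖ ≤ ε ∧ Continuous h ∧
      (∀ z, ‖z‖ ≤ 1 → ‖h z‖ ≤ 1) ∧ h 1 = 1 ∧ (∀ u z, ‖u‖ = 1 → h (u * z) = u * h z) ∧
      (∀ z, h (c * z) = θ * h z) ∧
      (∀ w w', ‖w‖ ≤ 1 → ‖w'‖ ≤ 1 → ‖h w - h w'‖ ≤ ε + K * ε * ‖w - w'‖ ^ 2) := by
  obtain ⟨m, hmε⟩ := exists_pow_lt_of_lt_one hε h1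
  set n : ℕ := m + 1 with hn
  have hn0 : 0 < n := Nat.succ_pos m
  have hn0' : (n : ℝ) ≠ 0 := by positivity
  set c : ℂ := θ * ((‖θ‖ ^ (n - 1) : ℝ) : ℂ) with hc
  have hcn : ‖c‖ = ‖θ‖ ^ n := by
    rw [hc, norm_mul, Complex.norm_real, Real.norm_of_nonneg (by positivity)]
    rw [← pow_succ']
    congr 1
  have hcε : ‖c‖ ≤ ε := by
    rw [hcn, hn, pow_succ]
    calc ‖θ‖ ^ m * ‖θ‖ ≤ ‖θ‖ ^ m * 1 := mul_le_mul_of_nonneg_left h1.le (by positivity)
      _ ≤ ε := by rw [mul_one]; exact hmε.le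
  have hunif : UniformContinuousOn (hm n) (Metric.closedBall (0 : ℂ) 1) :=
    (isCompact_closedBall 0 1).uniformContinuousOn_of_continuous (hm_cont hn0).continuousOn
  rw [Metric.uniformContinuousOn_iff] at hunif
  obtain ⟨δ, hδ, hδ2⟩ := hunif ε hε
  obtain ⟨K, hK⟩ := exists_nat_gt (2 / (δ ^ 2 * ε))
  have hK0 : 0 < (K : ℝ) := lt_trans (by positivity) hK
  have hbd : ∀ z, ‖z‖ ≤ 1 → ‖RZ.hm n z‖ ≤ 1 := by
    intro z hz
    rw [norm_hm hn0]
    exact Real.rpow_le_one (norm_nonneg _) hz (by positivity)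
  refine ⟨K, c, RZ.hm n, by exact_mod_cast hK0, hcε, hm_cont hn0, hbd, by simp [RZ.hm], ?_, ?_, ?_⟩
  · intro u z hu
    unfold RZ.hm
    rw [norm_mul, hu, one_mul, mul_assoc]
  · intro z
    unfold RZ.hm
    rw [norm_mul, Real.mul_rpow (norm_nonneg _) (norm_nonneg _), hcn, ← Real.rpow_natCast,
      ← Real.rpow_mul (norm_nonneg _)]
    have e1 : (n : ℝ) * (1 / n - 1) = -((n - 1 : ℕ) : ℝ) := by
      rw [Nat.cast_sub (by omega)]
      field_simp
      push_cast
      ring
    rw [e1, Real.rpow_neg (norm_nonneg _), Real.rpow_natCast, hc]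
    push_cast
    have h2 : ((‖θ‖ : ℂ)) ^ (n - 1) ≠ 0 := by
      apply pow_ne_zero
      exact_mod_cast h0.ne'
    field_simp
  · intro w w' hw hw'
    by_cases hd : dist w w' < δ
    · have := hδ2 w (by simpa using hw) w' (by simpa using hw') hd
      rw [dist_eq_norm] at this
      have h3 : 0 ≤ K * ε * ‖w - w'‖ ^ 2 := by positivity
      linarith
    · rw [dist_eq_norm] at hd
      push Not at hd
      have h3 : ‖RZ.hm n w - RZ.hm n w'‖ ≤ 2 := by
        refine (norm_sub_le _ _).trans ?_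
        linarith [hbd w hw, hbd w' hw']
      have h4 : 2 ≤ K * ε * ‖w - w'‖ ^ 2 := by
        have h5 : δ ^ 2 ≤ ‖w - w'‖ ^ 2 := by gcongr
        have h6 : 2 < K * (δ ^ 2 * ε) := by
          rwa [div_lt_iff₀ (by positivity)] at hK
        calc (2 : ℝ) ≤ K * (δ ^ 2 * ε) := h6.le
          _ = K * ε * δ ^ 2 := by ring
          _ ≤ K * ε * ‖w - w'‖ ^ 2 := by gcongr
      linarith

/-- average of characters -/
noncomputable def Wav {K : ℕ} (p : Fin K → ℤ) (x : AddCircle T) : ℂ :=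
  (1 / K : ℂ) * ∑ k, fourier (p k) x

lemma Wav_cont {K : ℕ} (p : Fin K → ℤ) : Continuous (Wav (T := T) p) := by
  unfold Wav
  fun_prop

lemma norm_Wav_le {K : ℕ} (p : Fin K → ℤ) (x : AddCircle T) : ‖Wav p x‖ ≤ 1 := by
  unfold Wav
  rw [norm_mul]
  have h1 : ‖∑ k, fourier (p k) x‖ ≤ K := by
    refine (norm_sum_le _ _).trans ?_
    simp_rw [norm_fourier_apply]
    simp
  rcases Nat.eq_zero_or_pos K with h | h
  · subst h
    simp
  · have hK : (0 : ℝ) < K := by exact_mod_cast h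
    have : ‖(1 / K : ℂ)‖ = 1 / K := by simp
    rw [this]
    calc 1 / (K : ℝ) * ‖∑ k, fourier (p k) x‖ ≤ 1 / K * K := by gcongr
      _ = 1 := by field_simp

lemma fourier_add_apply (n : ℤ) (x y : AddCircle T) :
    fourier n (x + y) = fourier n x * fourier n y := by
  rw [fourier_apply, fourier_apply, fourier_apply, smul_add, toCircle_add, Circle.coe_mul]

/-- second moment estimate -/
lemma second_moment {μ : Measure (AddCircle T)} [IsProbabilityMeasure μ] {K : ℕ} (hK : 0 < K)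
    (p : Fin K → ℤ) {c : ℂ} (h1 : ∀ k, ∫ y, fourier (p k) y ∂μ = c)
    (h2 : ∀ k l, k ≠ l → ∫ y, fourier (p k - p l) y ∂μ = c * conj c) (t : AddCircle T) :
    ∫ y, ‖Wav p (t + y) - c * Wav p t‖ ^ 2 ∂μ ≤ 1 / K := by
  have hint : ∀ (f : AddCircle T → ℂ), Continuous f → Integrable f μ := fun f hf =>
    hf.integrable_of_hasCompactSupport (HasCompactSupport.of_compactSpace _)
  have hK' : (0 : ℝ) < K := by exact_mod_cast hK
  set X : Fin K → AddCircle T → ℂ := fun k y => fourier (p k) y - c with hX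
  have hXc : ∀ k, Continuous (X k) := by
    intro k
    rw [hX]
    fun_prop
  set a : Fin K → ℂ := fun k => fourier (p k) t with ha
  have han : ∀ k, ‖a k‖ = 1 := fun k => norm_fourier_apply _ _
  have hW : ∀ y, Wav p (t + y) - c * Wav p t = (1 / K : ℂ) * ∑ k, a k * X k y := by
    intro y
    unfold Wav
    rw [Finset.mul_sum, Finset.mul_sum, Finset.mul_sum, Finset.mul_sum, ← Finset.sum_sub_distrib]
    apply Finset.sum_congr rfl
    intro k _
    rw [fourier_add_apply]
    simp only [ha, hX]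
    ring
  have hXX : ∀ k l, ∫ y, X k y * conj (X l y) ∂μ = if k = l then 1 - c * conj c else 0 := by
    intro k l
    have e1 : ∀ y, X k y * conj (X l y) = fourier (p k - p l) y - c * fourier (-(p l)) y -
        conj c * fourier (p k) y + c * conj c := by
      intro y
      simp only [hX]
      rw [map_sub, ← fourier_neg, sub_eq_add_neg (p k), fourier_add]
      ring
    have e2 : ∫ y, fourier (-(p l)) y ∂μ = conj c := by
      simp_rw [fourier_neg]
      rw [integral_conj, h1]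
    simp_rw [e1]
    rw [integral_add (hint _ (by fun_prop)) (hint _ (by fun_prop)),
      integral_sub (hint _ (by fun_prop)) (hint _ (by fun_prop)),
      integral_sub (hint _ (by fun_prop)) (hint _ (by fun_prop)),
      integral_const_mul, integral_const_mul, e2, h1]
    have e3 : ∫ _ : AddCircle T, c * conj c ∂μ = c * conj c := by simp
    rw [e3]
    by_cases hkl : k = l
    · subst hkl
      rw [if_pos rfl, sub_self]
      have e4 : ∫ y : AddCircle T, fourier 0 y ∂μ = 1 := by simp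
      rw [e4]
      ring
    · rw [if_neg hkl, h2 k l hkl]
      ring
  have hsq : ∀ y, ((‖Wav p (t + y) - c * Wav p t‖ ^ 2 : ℝ) : ℂ) =
      (1 / K : ℂ) ^ 2 * ∑ k, ∑ l, a k * conj (a l) * (X k y * conj (X l y)) := by
    intro y
    rw [hW y]
    have := Complex.mul_conj' ((1 / K : ℂ) * ∑ k, a k * X k y)
    push_cast
    rw [← this, map_mul, map_sum]
    have e5 : conj (1 / (K : ℂ)) = 1 / K := by simp
    rw [e5]
    have e6 : (1 / (K : ℂ)) * (∑ k, a k * X k y) * (1 / K * ∑ l, conj (a l * X l y)) =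
        (1 / K : ℂ) ^ 2 * ((∑ k, a k * X k y) * ∑ l, conj (a l * X l y)) := by ring
    rw [e6, Finset.sum_mul_sum]
    congr 1
    apply Finset.sum_congr rfl
    intro k _
    apply Finset.sum_congr rfl
    intro l _
    rw [map_mul]
    ring
  have hval : ((∫ y, ‖Wav p (t + y) - c * Wav p t‖ ^ 2 ∂μ : ℝ) : ℂ) =
      (1 / K : ℂ) ^ 2 * (K * (1 - c * conj c)) := by
    rw [← integral_complex_ofReal]
    simp_rw [hsq]
    rw [integral_const_mul, integral_finsetSum]
    · congr 1
      have : ∀ k : Fin K, ∫ y, ∑ l, a k * conj (a l) * (X k y * conj (X l y)) ∂μ =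
          1 - c * conj c := by
        intro k
        rw [integral_finsetSum]
        · simp_rw [integral_const_mul, hXX]
          rw [Finset.sum_eq_single k]
          · rw [if_pos rfl, Complex.mul_conj', han k]
            simp
          · intro l _ hl
            rw [if_neg (Ne.symm hl), mul_zero]
          · intro h
            exact absurd (Finset.mem_univ k) h
        · intro l _
          apply hint
          exact continuous_const.mul ((hXc k).mul (Complex.continuous_conj.comp (hXc l)))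
      rw [Finset.sum_congr rfl fun k _ => this k]
      simp
      ring
    · intro k _
      apply hint
      apply continuous_finsetSum
      intro l _
      exact continuous_const.mul ((hXc k).mul (Complex.continuous_conj.comp (hXc l)))
  have hval2 : ∫ y, ‖Wav p (t + y) - c * Wav p t‖ ^ 2 ∂μ = (1 - ‖c‖ ^ 2) / K := by
    have : ((∫ y, ‖Wav p (t + y) - c * Wav p t‖ ^ 2 ∂μ : ℝ) : ℂ) = (((1 - ‖c‖ ^ 2) / K : ℝ) : ℂ) := by
      rw [hval, Complex.mul_conj']
      push_cast
      have : (K : ℂ) ≠ 0 := by exact_mod_cast hK.ne'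
      field_simp
    exact_mod_cast this
  rw [hval2]
  gcongr
  have : 0 ≤ ‖c‖ ^ 2 := by positivity
  linarith

/-- approximate eigenfunction -/
lemma approx_eigen {μ : Measure (AddCircle T)} [IsProbabilityMeasure μ] {K : ℕ} (hK : 0 < K)
    (p : Fin K → ℤ) {c θ : ℂ} (h1 : ∀ k, ∫ y, fourier (p k) y ∂μ = c)
    (h2 : ∀ k l, k ≠ l → ∫ y, fourier (p k - p l) y ∂μ = c * conj c)
    {h : ℂ → ℂ} {ε : ℝ} (hε : 0 < ε) (hcn : ‖c‖ ≤ 1) (hc : Continuous h)
    (hh : ∀ z, h (c * z) = θ * h z)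
    (hb : ∀ w w', ‖w‖ ≤ 1 → ‖w'‖ ≤ 1 → ‖h w - h w'‖ ≤ ε + K * ε * ‖w - w'‖ ^ 2)
    (t : AddCircle T) : ‖∫ y, h (Wav p (t + y)) ∂μ - θ * h (Wav p t)‖ ≤ 2 * ε := by
  have hint : ∀ (f : AddCircle T → ℂ), Continuous f → Integrable f μ := fun f hf =>
    hf.integrable_of_hasCompactSupport (HasCompactSupport.of_compactSpace _)
  have hint' : ∀ (f : AddCircle T → ℝ), Continuous f → Integrable f μ := fun f hf =>
    hf.integrable_of_hasCompactSupport (HasCompactSupport.of_compactSpace _)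
  have hWc : Continuous fun y => Wav p (t + y) := (Wav_cont p).comp (by fun_prop)
  have e1 : ∫ y, h (Wav p (t + y)) ∂μ - θ * h (Wav p t) =
      ∫ y, (h (Wav p (t + y)) - h (c * Wav p t)) ∂μ := by
    have i1 : Integrable (fun y => h (Wav p (t + y))) μ := hint _ (hc.comp hWc)
    rw [integral_sub i1 (integrable_const _), hh]
    simp
  rw [e1]
  have hcW : ‖c * Wav p t‖ ≤ 1 := by
    rw [norm_mul]
    calc ‖c‖ * ‖Wav p t‖ ≤ 1 * 1 := mul_le_mul hcn (norm_Wav_le p t) (norm_nonneg _) zero_le_one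
      _ = 1 := one_mul 1
  have hK' : (0 : ℝ) < K := by exact_mod_cast hK
  calc ‖∫ y, (h (Wav p (t + y)) - h (c * Wav p t)) ∂μ‖
      ≤ ∫ y, (ε + K * ε * ‖Wav p (t + y) - c * Wav p t‖ ^ 2) ∂μ := by
        apply norm_integral_le_of_norm_le
        · apply hint'
          fun_prop
        · filter_upwards with y
          exact hb _ _ (norm_Wav_le _ _) hcW
    _ = ε + K * ε * ∫ y, ‖Wav p (t + y) - c * Wav p t‖ ^ 2 ∂μ := by
        rw [integral_add (integrable_const _) (hint' _ (by fun_prop)), integral_const_mul]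
        simp
    _ ≤ ε + K * ε * (1 / K) := by
        gcongr
        exact second_moment hK p h1 h2 t
    _ = 2 * ε := by
        field_simp
        ring

end Q84.RZ
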