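import Mathlib
import Pool.Agent.Q84.RZ3

/-! Window functions and the convolution operator on `L¹` of the circle. -/

set_option autoImplicit false
set_option linter.unusedSectionVars false
open Complex Filter Topology MeasureTheory AddCircle
open scoped ComplexConjugate ENNReal

namespace Q84.RZ

variable {T : ℝ} [hT : Fact (0 < T)]

lemma int_of_cont {E : Type*} [NormedAddCommGroup E] {μ : Measure (AddCircle T)}
    [IsFiniteMeasure μ] {f : AddCircle T → E} (hf : Continuous f) : Integrable f μ :=
  hf.integrable_of_hasCompactSupport (HasCompactSupport.of_compactSpace _)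

lemma fourierCoeff_zero_of_span {P : C(AddCircle T, ℂ)}
    (hP : P ∈ Submodule.span ℂ (Set.range (@fourier T))) :
    ∃ M : ℕ, ∀ n : ℤ, (M : ℤ) < |n| → fourierCoeff (P : AddCircle T → ℂ) n = 0 := by
  induction hP using Submodule.span_induction with
  | mem x hx =>
    obtain ⟨m, rfl⟩ := hx
    refine ⟨m.natAbs, fun n hn => ?_⟩
    rw [fourierCoeff_fourier, Pi.single_apply, if_neg]
    rintro rfl
    rw [Int.natCast_natAbs] at hn
    exact lt_irrefl _ hn
  | zero =>
    refine ⟨0, fun n _ => ?_⟩
    simp [fourierCoeff]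
  | add x y _ _ hx hy =>
    obtain ⟨M1, h1⟩ := hx
    obtain ⟨M2, h2⟩ := hy
    refine ⟨max M1 M2, fun n hn => ?_⟩
    have := fourierCoeff.add (T := T) (f := x) (g := y) (int_of_cont (map_continuous x))
      (int_of_cont (map_continuous y))
    have h3 := congrFun this n
    rw [ContinuousMap.coe_add, h3, Pi.add_apply,
      h1 n (lt_of_le_of_lt (by exact_mod_cast le_max_left _ _) hn),
      h2 n (lt_of_le_of_lt (by exact_mod_cast le_max_right _ _) hn), add_zero]
  | smul a x _ hx =>
    obtain ⟨M, h1⟩ := hx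
    refine ⟨M, fun n hn => ?_⟩
    rw [ContinuousMap.coe_smul]
    have := fourierCoeff.const_smul (T := T) (x : AddCircle T → ℂ) a n
    rw [this, h1 n hn, smul_zero]

lemma exists_window {K : ℕ} (hK : 0 < K) (q : Fin K → ℤ) {h : ℂ → ℂ} (hc : Continuous h)
    (hb : ∀ z, ‖z‖ ≤ 1 → ‖h z‖ ≤ 1) (h1 : h 1 = 1) :
    ∃ (M : ℕ) (P : C(AddCircle T, ℂ)), (∀ n : ℤ, (M : ℤ) < |n| →
      fourierCoeff (P : AddCircle T → ℂ) n = 0) ∧ ∫ x, ‖P x‖ ∂haarAddCircle ≤ 2 ∧
      1 / 2 ≤ ‖∫ x, P x * conj (h (Wav q x)) ∂haarAddCircle‖ := by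
  set G : AddCircle T → ℂ := fun x => h (Wav q x) with hG
  have hGc : Continuous G := hc.comp (Wav_cont q)
  have hGb : ∀ x, ‖G x‖ ≤ 1 := fun x => hb _ (norm_Wav_le q x)
  have hG0 : G 0 = 1 := by
    rw [hG]
    simp only
    have : Wav q (0 : AddCircle T) = 1 := by
      unfold Wav
      simp only [fourier_eval_zero]
      have : (K : ℂ) ≠ 0 := by exact_mod_cast hK.ne'
      simp
      field_simp
    rw [this, h1]
  set φ₀ : AddCircle T → ℝ := fun x => max 0 (1 / 4 - ‖G x - 1‖) with hφ₀
  have hφ₀c : Continuous φ₀ := by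
    rw [hφ₀]
    fun_prop
  have hφ₀n : ∀ x, 0 ≤ φ₀ x := fun x => le_max_left _ _
  have hpos : 0 < ∫ x, φ₀ x ∂haarAddCircle := by
    apply hφ₀c.integral_pos_of_hasCompactSupport_nonneg_nonzero
      (HasCompactSupport.of_compactSpace _) hφ₀n (x := 0)
    rw [hφ₀]
    simp only [hG0, sub_self, norm_zero, sub_zero]
    norm_num
  set c : ℝ := (∫ x, φ₀ x ∂haarAddCircle)⁻¹ with hcdef
  have hc0 : 0 < c := inv_pos.2 hpos
  set φ : AddCircle T → ℝ := fun x => c * φ₀ x with hφ
  have hφc : Continuous φ := continuous_const.mul hφ₀c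
  have hφn : ∀ x, 0 ≤ φ x := fun x => mul_nonneg hc0.le (hφ₀n x)
  have hφ1 : ∫ x, φ x ∂haarAddCircle = 1 := by
    rw [hφ, integral_const_mul, hcdef, inv_mul_cancel₀ hpos.ne']
  have hφG : ∀ x, φ x * ‖G x - 1‖ ≤ 1 / 4 * φ x := by
    intro x
    by_cases hx : ‖G x - 1‖ ≤ 1 / 4
    · rw [mul_comm]
      exact mul_le_mul_of_nonneg_right hx (hφn x)
    · push Not at hx
      have : φ₀ x = 0 := by
        rw [hφ₀]
        exact max_eq_left (by linarith)
      rw [hφ]
      simp [this]
  let Φ : C(AddCircle T, ℂ) := ⟨fun x => (φ x : ℂ), by fun_prop⟩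
  have hΦ : Φ ∈ (Submodule.span ℂ (Set.range (@fourier T))).topologicalClosure := by
    rw [span_fourier_closure_eq_top]
    trivial
  obtain ⟨P, hP, hPd⟩ := Metric.mem_closure_iff.1 hΦ (1 / 8) (by norm_num)
  obtain ⟨M, hM⟩ := fourierCoeff_zero_of_span hP
  have hPx : ∀ x, ‖P x - φ x‖ ≤ 1 / 8 := by
    intro x
    have h2 := ContinuousMap.dist_apply_le_dist (f := Φ) (g := P) x
    rw [dist_comm, dist_eq_norm] at h2
    exact (h2.trans hPd.le)
  refine ⟨M, P, hM, ?_, ?_⟩
  · calc ∫ x, ‖P x‖ ∂haarAddCircle ≤ ∫ x : AddCircle T, (1 / 8 + φ x) ∂haarAddCircle := by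
          apply integral_mono (int_of_cont (by fun_prop)) (int_of_cont (by fun_prop))
          intro x
          show ‖P x‖ ≤ 1 / 8 + φ x
          have : ‖P x‖ ≤ ‖P x - φ x‖ + ‖(φ x : ℂ)‖ := by
            calc ‖P x‖ = ‖(P x - φ x) + φ x‖ := by rw [sub_add_cancel]
              _ ≤ _ := norm_add_le _ _
          rw [Complex.norm_real, Real.norm_of_nonneg (hφn x)] at this
          linarith [hPx x]
      _ = 1 / 8 + 1 := by
          rw [integral_add (integrable_const _) (int_of_cont hφc), hφ1]
          simp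
      _ ≤ 2 := by norm_num
  · have e1 : ∫ x, P x * conj (G x) ∂haarAddCircle =
        1 + ∫ x, ((φ x : ℂ) * (conj (G x) - 1)) ∂haarAddCircle +
          ∫ x, ((P x - φ x) * conj (G x)) ∂haarAddCircle := by
      have e2 : (1 : ℂ) = ∫ x : AddCircle T, (φ x : ℂ) ∂haarAddCircle := by
        rw [integral_complex_ofReal, hφ1]
        simp
      rw [e2, ← integral_add (int_of_cont (by fun_prop)) (int_of_cont (by fun_prop)),
        ← integral_add (int_of_cont (by fun_prop)) (int_of_cont (by fun_prop))]
      apply integral_congr_ae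
      filter_upwards with x
      rw [← e2]
      ring
    have e3 : ‖∫ x, ((φ x : ℂ) * (conj (G x) - 1)) ∂haarAddCircle‖ ≤ 1 / 4 := by
      calc ‖∫ x, ((φ x : ℂ) * (conj (G x) - 1)) ∂haarAddCircle‖
          ≤ ∫ x : AddCircle T, 1 / 4 * φ x ∂haarAddCircle := by
            apply norm_integral_le_of_norm_le (int_of_cont (by fun_prop))
            filter_upwards with x
            rw [norm_mul, Complex.norm_real, Real.norm_of_nonneg (hφn x)]
            have : ‖conj (G x) - 1‖ = ‖G x - 1‖ := by
              rw [← RCLike.norm_conj (G x - 1), map_sub, map_one]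
            rw [this]
            exact hφG x
        _ = 1 / 4 := by rw [integral_const_mul, hφ1, mul_one]
    have e4 : ‖∫ x, ((P x - φ x) * conj (G x)) ∂haarAddCircle‖ ≤ 1 / 8 := by
      calc ‖∫ x, ((P x - φ x) * conj (G x)) ∂haarAddCircle‖
          ≤ ∫ _ : AddCircle T, (1 / 8 : ℝ) ∂haarAddCircle := by
            apply norm_integral_le_of_norm_le (integrable_const _)
            filter_upwards with x
            rw [norm_mul, RCLike.norm_conj]
            calc ‖P x - φ x‖ * ‖G x‖ ≤ 1 / 8 * 1 :=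
                  mul_le_mul (hPx x) (hGb x) (norm_nonneg _) (by norm_num)
              _ = 1 / 8 := by ring
        _ = 1 / 8 := by simp
    rw [e1]
    set A := ∫ x, ((φ x : ℂ) * (conj (G x) - 1)) ∂haarAddCircle
    set B := ∫ x, ((P x - φ x) * conj (G x)) ∂haarAddCircle
    have h5 : (1 : ℝ) ≤ ‖1 + A + B‖ + ‖A‖ + ‖B‖ := by
      calc (1 : ℝ) = ‖(1 : ℂ)‖ := by simp
        _ = ‖(1 + A + B) - A - B‖ := by congr 1; ring
        _ ≤ ‖(1 + A + B) - A‖ + ‖B‖ := norm_sub_le _ _
        _ ≤ ‖1 + A + B‖ + ‖A‖ + ‖B‖ := by gcongr; exact norm_sub_le _ _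
    linarith

/-! ### the convolution operator -/

/-- pointwise convolution -/
noncomputable def cv (μ : Measure (AddCircle T)) (f : AddCircle T → ℂ) (x : AddCircle T) : ℂ :=
  ∫ y, f (x - y) ∂μ

lemma mp_sub (μ : Measure (AddCircle T)) [IsProbabilityMeasure μ] :
    MeasurePreserving (fun q : AddCircle T × AddCircle T => q.2 - q.1)
      (μ.prod haarAddCircle) haarAddCircle := by
  have h1 : MeasurePreserving (fun q : AddCircle T × AddCircle T => (q.1, q.2 - q.1))
      (μ.prod haarAddCircle) (μ.prod haarAddCircle) := by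
    apply (MeasurePreserving.id μ).skew_product (g := fun y x => x - y)
    · exact (continuous_snd.sub continuous_fst).measurable
    · filter_upwards with y
      exact (measurePreserving_sub_right haarAddCircle y).map_eq
  exact measurePreserving_snd.comp h1

lemma int_shear {μ : Measure (AddCircle T)} [IsProbabilityMeasure μ] {f : AddCircle T → ℂ}
    (hf : Integrable f haarAddCircle) :
    Integrable (fun q : AddCircle T × AddCircle T => f (q.2 - q.1)) (μ.prod haarAddCircle) :=
  (mp_sub μ).integrable_comp_of_integrable hf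

lemma cv_int {μ : Measure (AddCircle T)} [IsProbabilityMeasure μ] {f : AddCircle T → ℂ}
    (hf : Integrable f haarAddCircle) : Integrable (cv μ f) haarAddCircle :=
  (int_shear hf).integral_prod_right

lemma cv_norm {μ : Measure (AddCircle T)} [IsProbabilityMeasure μ] {f : AddCircle T → ℂ}
    (hf : Integrable f haarAddCircle) :
    ∫ x, ‖cv μ f x‖ ∂haarAddCircle ≤ ∫ x, ‖f x‖ ∂haarAddCircle := by
  have h1 := int_shear (μ := μ) hf
  calc ∫ x, ‖cv μ f x‖ ∂haarAddCircle ≤ ∫ x, ∫ y, ‖f (x - y)‖ ∂μ ∂haarAddCircle := by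
        apply integral_mono (cv_int hf).norm h1.norm.integral_prod_right
        intro x
        exact norm_integral_le_integral_norm _
    _ = ∫ y, ∫ x, ‖f (x - y)‖ ∂haarAddCircle ∂μ := (integral_integral_swap h1.norm).symm
    _ = ∫ _, ∫ x, ‖f x‖ ∂haarAddCircle ∂μ := by
        apply integral_congr_ae
        filter_upwards with y
        exact integral_sub_right_eq_self (fun x => ‖f x‖) y
    _ = _ := by simp

/-- pairing with a continuous function -/
lemma cv_pair {μ : Measure (AddCircle T)} [IsProbabilityMeasure μ] {f : AddCircle T → ℂ}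
    (hf : Integrable f haarAddCircle) {g : AddCircle T → ℂ} (hg : Continuous g) :
    ∫ x, cv μ f x * g x ∂haarAddCircle =
      ∫ x, f x * ∫ y, g (x + y) ∂μ ∂haarAddCircle := by
  obtain ⟨C, hC⟩ : ∃ C, ∀ x, ‖g x‖ ≤ C := by
    obtain ⟨C, hC⟩ := (isCompact_univ.image hg).isBounded.exists_norm_le
    exact ⟨C, fun x => hC _ ⟨x, trivial, rfl⟩⟩
  have h1 : Integrable (fun q : AddCircle T × AddCircle T => f (q.2 - q.1) * g q.2)
      (μ.prod haarAddCircle) :=
    (int_shear (μ := μ) hf).mul_bdd (c := C) (hg.comp continuous_snd).aestronglyMeasurable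
      (Eventually.of_forall fun q => hC _)
  have h2 : Integrable (fun q : AddCircle T × AddCircle T => f q.2 * g (q.2 + q.1))
      (μ.prod haarAddCircle) := by
    have : Integrable (fun q : AddCircle T × AddCircle T => f q.2) (μ.prod haarAddCircle) :=
      hf.comp_snd μ
    exact this.mul_bdd (c := C)
      (hg.comp (continuous_snd.add continuous_fst)).aestronglyMeasurable
      (Eventually.of_forall fun q => hC _)
  calc ∫ x, cv μ f x * g x ∂haarAddCircle = ∫ x, ∫ y, f (x - y) * g x ∂μ ∂haarAddCircle := by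
        apply integral_congr_ae
        filter_upwards with x
        rw [cv, integral_mul_const]
    _ = ∫ y, ∫ x, f (x - y) * g x ∂haarAddCircle ∂μ := (integral_integral_swap h1).symm
    _ = ∫ y, ∫ x, f x * g (x + y) ∂haarAddCircle ∂μ := by
        apply integral_congr_ae
        filter_upwards with y
        rw [← integral_add_right_eq_self (fun x => f (x - y) * g x) y]
        simp only [add_sub_cancel_right]
    _ = ∫ x, ∫ y, f x * g (x + y) ∂μ ∂haarAddCircle := integral_integral_swap h2
    _ = _ := by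
        apply integral_congr_ae
        filter_upwards with x
        rw [integral_const_mul]

lemma cv_coeff {μ : Measure (AddCircle T)} [IsProbabilityMeasure μ] {f : AddCircle T → ℂ}
    (hf : Integrable f haarAddCircle) (n : ℤ) :
    fourierCoeff (cv μ f) n = (∫ y, fourier (-n) y ∂μ) * fourierCoeff f n := by
  have h := cv_pair (μ := μ) hf (g := fun x => fourier (-n) x) (map_continuous (fourier (-n)))
  have e1 : fourierCoeff (cv μ f) n = ∫ x, cv μ f x * fourier (-n) x ∂haarAddCircle := by
    rw [fourierCoeff]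
    apply integral_congr_ae
    filter_upwards with x
    rw [smul_eq_mul, mul_comm]
  rw [e1, h, fourierCoeff, ← integral_const_mul]
  apply integral_congr_ae
  filter_upwards with x
  simp only [fourier_add_apply, smul_eq_mul]
  rw [integral_const_mul]
  ring

end Q84.RZ
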