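import Mathlib
import Pool.Agent.Q84.RZ4
import Pool.Agent.Q84.RZ2

/-! A Rajchman probability measure with disc spectrum on `H¹₀`. -/

set_option autoImplicit false
set_option linter.unusedSectionVars false
open Complex Filter Topology MeasureTheory AddCircle
open scoped ComplexConjugate ENNReal

namespace Q84.RZ

variable {T : ℝ} [hT : Fact (0 < T)]

/-- the space `H¹₀` -/
noncomputable def H10 (T : ℝ) [hT : Fact (0 < T)] :
    Submodule ℂ (Lp ℂ 1 (haarAddCircle : Measure (AddCircle T))) where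
  carrier := {f | ∀ n : ℤ, n ≤ 0 → fourierCoeff (f : AddCircle T → ℂ) n = 0}
  add_mem' := by
    intro f g hf hg n hn
    have h1 := fourierCoeff.add (T := T) (f := f) (g := g) (L1.integrable_coeFn f)
      (L1.integrable_coeFn g)
    have h2 := congrFun h1 n
    have h3 := fourierCoeff_congr_ae (Lp.coeFn_add f g)
    rw [congrFun h3 n, h2, Pi.add_apply, hf n hn, hg n hn, add_zero]
  zero_mem' := by
    intro n hn
    have h3 := fourierCoeff_congr_ae (T := T) (Lp.coeFn_zero ℂ 1 (haarAddCircle : Measure (AddCircle T)))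
    rw [congrFun h3 n]
    simp [fourierCoeff]
  smul_mem' := by
    intro c f hf n hn
    have h3 := fourierCoeff_congr_ae (Lp.coeFn_smul c f)
    rw [congrFun h3 n, fourierCoeff.const_smul, hf n hn, smul_zero]

lemma mem_H10 {f : Lp ℂ 1 (haarAddCircle : Measure (AddCircle T))} :
    f ∈ H10 T ↔ ∀ n : ℤ, n ≤ 0 → fourierCoeff (f : AddCircle T → ℂ) n = 0 := Iff.rfl

/-- the Fourier coefficient functional -/
noncomputable def cf (n : ℤ) : Lp ℂ 1 (haarAddCircle : Measure (AddCircle T)) →L[ℂ] ℂ :=
  LinearMap.mkContinuous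
    { toFun := fun f => fourierCoeff (f : AddCircle T → ℂ) n
      map_add' := by
        intro f g
        have h1 := fourierCoeff.add (T := T) (f := f) (g := g) (L1.integrable_coeFn f)
          (L1.integrable_coeFn g)
        have h2 := congrFun h1 n
        have h3 := fourierCoeff_congr_ae (Lp.coeFn_add f g)
        rw [congrFun h3 n, h2, Pi.add_apply]
      map_smul' := by
        intro c f
        have h3 := fourierCoeff_congr_ae (Lp.coeFn_smul c f)
        rw [congrFun h3 n, fourierCoeff.const_smul]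
        rfl } 1 (by
      intro f
      rw [one_mul, L1.norm_eq_integral_norm]
      show ‖fourierCoeff (f : AddCircle T → ℂ) n‖ ≤ _
      rw [fourierCoeff]
      refine (norm_integral_le_integral_norm _).trans (le_of_eq ?_)
      apply integral_congr_ae
      filter_upwards with x
      rw [smul_eq_mul, norm_mul, norm_fourier_apply, one_mul])

lemma cf_apply (n : ℤ) (f : Lp ℂ 1 (haarAddCircle : Measure (AddCircle T))) :
    cf n f = fourierCoeff (f : AddCircle T → ℂ) n := rfl

lemma isClosed_H10 : IsClosed (H10 T : Set (Lp ℂ 1 (haarAddCircle : Measure (AddCircle T)))) := by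
  have : (H10 T : Set (Lp ℂ 1 (haarAddCircle : Measure (AddCircle T)))) =
      ⋂ n : ℤ, ⋂ _ : n ≤ 0, {f | cf n f = 0} := by
    ext f
    simp only [Set.mem_iInter, Set.mem_ofPred_eq]
    rfl
  rw [this]
  exact isClosed_iInter fun n => isClosed_iInter fun _ =>
    isClosed_eq (cf n).continuous continuous_const

instance : CompleteSpace (H10 T) := isClosed_H10.completeSpace_coe

lemma cv_congr {μ : Measure (AddCircle T)} [IsProbabilityMeasure μ] {f g : AddCircle T → ℂ}
    (h : f =ᵐ[haarAddCircle] g) : cv μ f =ᵐ[haarAddCircle] cv μ g := by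
  have h1 : ∀ᵐ q ∂(μ.prod haarAddCircle), f (q.2 - q.1) = g (q.2 - q.1) :=
    (mp_sub μ).quasiMeasurePreserving.ae h
  have h2 : ∀ᵐ q ∂((haarAddCircle : Measure (AddCircle T)).prod μ),
      f (q.1 - q.2) = g (q.1 - q.2) := by
    have := (Measure.measurePreserving_swap (μ := (haarAddCircle : Measure (AddCircle T)))
      (ν := μ)).quasiMeasurePreserving.ae h1
    exact this
  have h3 := Measure.ae_ae_of_ae_prod h2
  filter_upwards [h3] with x hx
  exact integral_congr_ae hx

/-- convolution on `L¹` -/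
noncomputable def cvL (μ : Measure (AddCircle T)) [IsProbabilityMeasure μ] :
    Lp ℂ 1 (haarAddCircle : Measure (AddCircle T)) →L[ℂ]
      Lp ℂ 1 (haarAddCircle : Measure (AddCircle T)) :=
  LinearMap.mkContinuous
    { toFun := fun f => (cv_int (μ := μ) (L1.integrable_coeFn f)).toL1 (cv μ f)
      map_add' := by
        intro f g
        rw [← Integrable.toL1_add, Integrable.toL1_eq_toL1_iff]
        refine (cv_congr (Lp.coeFn_add f g)).trans ?_
        have h1 := (int_shear (μ := μ) (L1.integrable_coeFn f)).prod_left_ae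
        have h2 := (int_shear (μ := μ) (L1.integrable_coeFn g)).prod_left_ae
        filter_upwards [h1, h2] with x hx1 hx2
        simp only [cv, Pi.add_apply]
        exact integral_add hx1 hx2
      map_smul' := by
        intro c f
        rw [RingHom.id_apply, ← Integrable.toL1_smul, Integrable.toL1_eq_toL1_iff]
        refine (cv_congr (Lp.coeFn_smul c f)).trans ?_
        filter_upwards with x
        simp only [cv, Pi.smul_apply]
        exact integral_smul _ _ } 1 (by
      intro f
      rw [one_mul, L1.norm_eq_integral_norm f]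
      show ‖(cv_int (μ := μ) (L1.integrable_coeFn f)).toL1 (cv μ f)‖ ≤ _
      rw [L1.norm_eq_integral_norm]
      refine le_trans (le_of_eq ?_) (cv_norm (μ := μ) (L1.integrable_coeFn f))
      apply integral_congr_ae
      filter_upwards [(cv_int (μ := μ) (L1.integrable_coeFn f)).coeFn_toL1] with x hx
      rw [hx])

lemma cvL_ae (μ : Measure (AddCircle T)) [IsProbabilityMeasure μ]
    (f : Lp ℂ 1 (haarAddCircle : Measure (AddCircle T))) :
    (cvL μ f : AddCircle T → ℂ) =ᵐ[haarAddCircle] cv μ f :=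
  (cv_int (μ := μ) (L1.integrable_coeFn f)).coeFn_toL1

lemma cvL_norm (μ : Measure (AddCircle T)) [IsProbabilityMeasure μ] : ‖cvL μ‖ ≤ 1 :=
  LinearMap.mkContinuous_norm_le _ zero_le_one _

lemma cvL_mem (μ : Measure (AddCircle T)) [IsProbabilityMeasure μ] (f : H10 T) :
    cvL μ f ∈ H10 T := by
  intro n hn
  rw [congrFun (fourierCoeff_congr_ae (cvL_ae μ (f : Lp ℂ 1 _))) n,
    cv_coeff (L1.integrable_coeFn _) n, f.2 n hn, mul_zero]

/-- convolution on `H¹₀` -/
noncomputable def Tm (μ : Measure (AddCircle T)) [IsProbabilityMeasure μ] : H10 T →L[ℂ] H10 T :=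
  ((cvL μ).comp (H10 T).subtypeL).codRestrict (H10 T) (cvL_mem μ)

lemma Tm_coe (μ : Measure (AddCircle T)) [IsProbabilityMeasure μ] (f : H10 T) :
    ((Tm μ f : H10 T) : Lp ℂ 1 (haarAddCircle : Measure (AddCircle T))) = cvL μ f := rfl

lemma Tm_norm (μ : Measure (AddCircle T)) [IsProbabilityMeasure μ] : ‖Tm μ‖ ≤ 1 := by
  apply ContinuousLinearMap.opNorm_le_bound _ zero_le_one
  intro f
  rw [one_mul]
  show ‖((Tm μ f : H10 T) : Lp ℂ 1 (haarAddCircle : Measure (AddCircle T)))‖ ≤ ‖f‖
  rw [Tm_coe]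
  calc ‖cvL μ f‖ ≤ ‖cvL μ‖ * ‖(f : Lp ℂ 1 (haarAddCircle : Measure (AddCircle T)))‖ :=
        (cvL μ).le_opNorm _
    _ ≤ 1 * ‖(f : Lp ℂ 1 (haarAddCircle : Measure (AddCircle T)))‖ := by
        gcongr
        exact cvL_norm μ
    _ = ‖f‖ := one_mul _

lemma spec_ball {X : Type*} [NormedAddCommGroup X] [NormedSpace ℂ X] [CompleteSpace X]
    (A : X →L[ℂ] X) (h : ‖A‖ ≤ 1) : spectrum ℂ A ⊆ Metric.closedBall 0 1 := by
  intro z hz
  rw [mem_closedBall_zero_iff]
  have h1 : ‖z‖ ≤ ‖A‖ * ‖(1 : X →L[ℂ] X)‖ := spectrum.norm_le_norm_mul_of_mem hz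
  have h2 : ‖(1 : X →L[ℂ] X)‖ ≤ 1 := ContinuousLinearMap.norm_id_le
  have h3 : ‖A‖ * ‖(1 : X →L[ℂ] X)‖ ≤ 1 * 1 := mul_le_mul h h2 (norm_nonneg _) zero_le_one
  linarith

lemma spec_closed {X : Type*} [NormedAddCommGroup X] [NormedSpace ℂ X] [CompleteSpace X]
    (A : X →L[ℂ] X) : IsClosed (spectrum ℂ A) := spectrum.isClosed A

lemma spectrum_sub (μ : Measure (AddCircle T)) [IsProbabilityMeasure μ] :
    spectrum ℂ (Tm μ) ⊆ Metric.closedBall 0 1 := spec_ball (Tm μ) (Tm_norm μ)

lemma spectrum_closed (μ : Measure (AddCircle T)) [IsProbabilityMeasure μ] :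
    IsClosed (spectrum ℂ (Tm μ)) := spec_closed (Tm μ)

/-- approximate eigenfunctionals give spectrum -/
lemma mem_spectrum {μ : Measure (AddCircle T)} [IsProbabilityMeasure μ] {θ : ℂ}
    (hyp : ∀ ε : ℝ, 0 < ε → ∃ (F : H10 T) (g : AddCircle T → ℂ), Continuous g ∧ ‖F‖ ≤ 2 ∧
      1 / 2 ≤ ‖∫ x, (F : Lp ℂ 1 (haarAddCircle : Measure (AddCircle T))) x * conj (g x)
        ∂haarAddCircle‖ ∧
      ∀ x, ‖∫ y, g (x + y) ∂μ - θ * g x‖ ≤ ε) : conj θ ∈ spectrum ℂ (Tm μ) := by
  by_contra hn
  rw [spectrum.notMem_iff] at hn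
  obtain ⟨⟨R, S, hRS, hSR⟩, hR⟩ := hn
  simp only at hR
  set ε : ℝ := 1 / (4 * (‖S‖ * 2 + 1)) with hε
  have hε0 : 0 < ε := by positivity
  obtain ⟨F, g, hg, hF, hFg, hx⟩ := hyp ε hε0
  set f : H10 T := S F with hf
  have hRf : R f = F := by
    have := congrArg (fun A : H10 T →L[ℂ] H10 T => A F) hRS
    simpa using this
  have hRe : (F : Lp ℂ 1 (haarAddCircle : Measure (AddCircle T))) =
      conj θ • (f : Lp ℂ 1 (haarAddCircle : Measure (AddCircle T))) - cvL μ f := by
    rw [← hRf, hR]
    simp only [sub_apply, Algebra.algebraMap_eq_smul_one,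
      smul_apply, one_apply_eq_self, Submodule.coe_sub,
      Submodule.coe_smul, Tm_coe]
  have hfi : Integrable (f : Lp ℂ 1 (haarAddCircle : Measure (AddCircle T))) haarAddCircle :=
    L1.integrable_coeFn _
  obtain ⟨C, hC⟩ : ∃ C, ∀ x, ‖g x‖ ≤ C := by
    obtain ⟨C, hC⟩ := (isCompact_univ.image hg).isBounded.exists_norm_le
    exact ⟨C, fun x => hC _ ⟨x, trivial, rfl⟩⟩
  have hgc : Continuous fun x => conj (g x) := Complex.continuous_conj.comp hg
  have hgi : ∀ {u : AddCircle T → ℂ}, Integrable u haarAddCircle →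
      Integrable (fun x => u x * conj (g x)) haarAddCircle := by
    intro u hu
    exact hu.mul_bdd (c := C) hgc.aestronglyMeasurable
      (Eventually.of_forall fun x => by rw [RCLike.norm_conj]; exact hC x)
  have hGc : Continuous fun x => ∫ y, conj (g (x + y)) ∂μ := by
    apply continuous_of_dominated (bound := fun _ => C)
    · intro x
      exact (hgc.comp (by fun_prop)).aestronglyMeasurable
    · intro x
      filter_upwards with y
      rw [RCLike.norm_conj]
      exact hC _
    · exact integrable_const _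
    · filter_upwards with y
      exact hgc.comp (by fun_prop)
  have key : ∫ x, (F : Lp ℂ 1 (haarAddCircle : Measure (AddCircle T))) x * conj (g x)
        ∂haarAddCircle = ∫ x, (f : Lp ℂ 1 (haarAddCircle : Measure (AddCircle T))) x *
          (conj θ * conj (g x) - ∫ y, conj (g (x + y)) ∂μ) ∂haarAddCircle := by
    have e1 : ∫ x, (F : Lp ℂ 1 (haarAddCircle : Measure (AddCircle T))) x * conj (g x)
        ∂haarAddCircle = ∫ x, (conj θ * ((f : Lp ℂ 1 (haarAddCircle : Measure (AddCircle T))) x *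
          conj (g x)) - cv μ f x * conj (g x)) ∂haarAddCircle := by
      apply integral_congr_ae
      rw [hRe]
      filter_upwards [Lp.coeFn_sub (conj θ • (f : Lp ℂ 1 (haarAddCircle : Measure (AddCircle T))))
        (cvL μ f), Lp.coeFn_smul (conj θ) (f : Lp ℂ 1 (haarAddCircle : Measure (AddCircle T))),
        cvL_ae μ (f : Lp ℂ 1 (haarAddCircle : Measure (AddCircle T)))] with x h1 h2 h3
      rw [h1, Pi.sub_apply, h2, Pi.smul_apply, h3, smul_eq_mul]
      ring
    rw [e1, integral_sub ((hgi hfi).const_mul _) (hgi (cv_int hfi)), integral_const_mul,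
      cv_pair hfi hgc, ← integral_const_mul, ← integral_sub]
    · apply integral_congr_ae
      filter_upwards with x
      ring
    · exact (hgi hfi).const_mul _
    · exact hfi.mul_bdd (c := C) hGc.aestronglyMeasurable (Eventually.of_forall fun x => by
        calc ‖∫ y, conj (g (x + y)) ∂μ‖ ≤ ∫ _, C ∂μ := by
              apply norm_integral_le_of_norm_le (integrable_const _)
              filter_upwards with y
              rw [RCLike.norm_conj]
              exact hC _
          _ = C := by simp)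
  have hbound : ‖∫ x, (f : Lp ℂ 1 (haarAddCircle : Measure (AddCircle T))) x *
      (conj θ * conj (g x) - ∫ y, conj (g (x + y)) ∂μ) ∂haarAddCircle‖ ≤ ‖f‖ * ε := by
    calc ‖∫ x, (f : Lp ℂ 1 (haarAddCircle : Measure (AddCircle T))) x *
        (conj θ * conj (g x) - ∫ y, conj (g (x + y)) ∂μ) ∂haarAddCircle‖
        ≤ ∫ x, ‖(f : Lp ℂ 1 (haarAddCircle : Measure (AddCircle T))) x‖ * ε ∂haarAddCircle := by
          apply norm_integral_le_of_norm_le (hfi.norm.mul_const ε)
          filter_upwards with x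
          rw [norm_mul]
          apply mul_le_mul_of_nonneg_left _ (norm_nonneg _)
          rw [integral_conj, ← map_mul, ← map_sub, RCLike.norm_conj, norm_sub_rev]
          exact hx x
      _ = ‖f‖ * ε := by
          rw [integral_mul_const]
          congr 1
          exact (L1.norm_eq_integral_norm _).symm
  rw [key] at hFg
  have h3 : ‖f‖ ≤ ‖S‖ * 2 := by
    calc ‖f‖ ≤ ‖S‖ * ‖F‖ := S.le_opNorm F
      _ ≤ ‖S‖ * 2 := by gcongr
  have h4 : ‖f‖ * ε ≤ 1 / 4 := by
    calc ‖f‖ * ε ≤ (‖S‖ * 2) * ε := by gcongr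
      _ ≤ (‖S‖ * 2 + 1) * ε := by gcongr; linarith
      _ = 1 / 4 := by
          rw [hε]
          have : (0 : ℝ) < ‖S‖ * 2 + 1 := by positivity
          field_simp
  linarith

end Q84.RZ
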