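import Mathlib
import Pool.Agent.Q84.RZ5

/-! A Rajchman probability measure with disc spectrum on `H¹₀`: conclusion. -/

set_option autoImplicit false
set_option linter.unusedSectionVars false
open Complex Filter Topology MeasureTheory AddCircle
open scoped ComplexConjugate ENNReal

namespace Q84.RZ

variable {T : ℝ} [hT : Fact (0 < T)]

lemma exists_dense_seq : ∃ Λ : ℕ → ℂ, (∀ i, 0 < ‖Λ i‖ ∧ ‖Λ i‖ < 1) ∧
    Metric.closedBall (0 : ℂ) 1 ⊆ closure (Set.range fun i => conj (Λ i)) := by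
  set U : Set ℂ := {z | 0 < ‖z‖ ∧ ‖z‖ < 1} with hU
  have hne : Nonempty U := ⟨⟨(1 / 2 : ℂ), by rw [hU]; constructor <;> norm_num⟩⟩
  obtain ⟨u, hu⟩ := TopologicalSpace.exists_dense_seq U
  refine ⟨fun i => u i, fun i => (u i).2, ?_⟩
  have h1 : U ⊆ closure (Set.range fun i => conj ((u i : ℂ))) := by
    intro z hz
    have hz' : conj z ∈ U := by
      rw [hU]
      show 0 < ‖conj z‖ ∧ ‖conj z‖ < 1
      rw [RCLike.norm_conj]
      exact hz
    rw [Metric.mem_closure_iff]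
    intro ε hε
    obtain ⟨y, hy, hyd⟩ := Metric.dense_iff.1 hu ⟨conj z, hz'⟩ ε hε
    obtain ⟨i, rfl⟩ := hyd
    refine ⟨conj ((u i : ℂ)), ⟨i, rfl⟩, ?_⟩
    have h2 : dist ((u i : ℂ)) (conj z) < ε := hy
    rw [dist_comm, dist_eq_norm] at h2
    rw [dist_eq_norm]
    calc ‖z - conj (u i : ℂ)‖ = ‖conj (conj z - (u i : ℂ))‖ := by
          rw [map_sub, Complex.conj_conj]
      _ = ‖conj z - (u i : ℂ)‖ := RCLike.norm_conj _
      _ < ε := h2
  have h2 : Metric.closedBall (0 : ℂ) 1 ⊆ closure U := by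
    intro z hz
    rw [mem_closedBall_zero_iff] at hz
    rw [Metric.mem_closure_iff]
    intro ε hε
    obtain ⟨n, hn⟩ := exists_nat_one_div_lt (show 0 < min ε (1 / 2) from lt_min hε (by norm_num))
    set δ : ℝ := 1 / ((n : ℝ) + 1) with hδ
    have hδ0 : 0 < δ := by positivity
    have hδε : δ < ε := hn.trans_le (min_le_left _ _)
    have hδ1 : δ < 1 / 2 := hn.trans_le (min_le_right _ _)
    by_cases hz0 : z = 0
    · refine ⟨(δ : ℂ), ?_, ?_⟩
      · rw [hU]
        show 0 < ‖(δ : ℂ)‖ ∧ ‖(δ : ℂ)‖ < 1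
        rw [Complex.norm_real, Real.norm_of_nonneg hδ0.le]
        exact ⟨hδ0, by linarith⟩
      · rw [hz0, dist_zero_left, Complex.norm_real, Real.norm_of_nonneg hδ0.le]
        exact hδε
    · have hz1 : 0 < ‖z‖ := norm_pos_iff.2 hz0
      refine ⟨((1 - δ : ℝ) : ℂ) * z, ?_, ?_⟩
      · rw [hU]
        show 0 < ‖((1 - δ : ℝ) : ℂ) * z‖ ∧ ‖((1 - δ : ℝ) : ℂ) * z‖ < 1
        rw [norm_mul, Complex.norm_real, Real.norm_of_nonneg (by linarith)]
        constructor
        · have : 0 < 1 - δ := by linarith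
          positivity
        · nlinarith
      · rw [dist_eq_norm]
        have e : z - ((1 - δ : ℝ) : ℂ) * z = (δ : ℂ) * z := by
          push_cast
          ring
        rw [e, norm_mul, Complex.norm_real, Real.norm_of_nonneg hδ0.le]
        nlinarith
  exact h2.trans (closure_minimal h1 isClosed_closure)

/-- main theorem -/
theorem main (T : ℝ) [hT : Fact (0 < T)] : ∃ (μ : Measure (AddCircle T))
    (_ : IsProbabilityMeasure μ), Tendsto (fun n : ℤ => ∫ x, fourier n x ∂μ) cofinite (𝓝 0) ∧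
    spectrum ℂ (Tm μ) = Metric.closedBall 0 1 := by
  classical
  obtain ⟨Λ, hΛ, hdense⟩ := exists_dense_seq
  have hblk : ∀ j : ℕ, ∃ (K : ℕ) (c : ℂ) (h : ℂ → ℂ), 0 < K ∧ ‖c‖ ≤ 1 / ((j : ℝ) + 2) ∧
      Continuous h ∧ (∀ z, ‖z‖ ≤ 1 → ‖h z‖ ≤ 1) ∧ h 1 = 1 ∧
      (∀ u z, ‖u‖ = 1 → h (u * z) = u * h z) ∧ (∀ z, h (c * z) = Λ (Nat.unpair j).1 * h z) ∧
      (∀ w w', ‖w‖ ≤ 1 → ‖w'‖ ≤ 1 → ‖h w - h w'‖ ≤ 1 / ((j : ℝ) + 2) +
        K * (1 / ((j : ℝ) + 2)) * ‖w - w'‖ ^ 2) := fun j =>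
    exists_block (hΛ _).1 (hΛ _).2 (by positivity)
  choose K c h hK hcn hhc hhb hh1 hhu hhc' hhd using hblk
  have hwin : ∀ (j L : ℕ), ∃ (M : ℕ) (P : C(AddCircle T, ℂ)), (∀ n : ℤ, (M : ℤ) < |n| →
      fourierCoeff (P : AddCircle T → ℂ) n = 0) ∧ ∫ x, ‖P x‖ ∂haarAddCircle ≤ 2 ∧
      1 / 2 ≤ ‖∫ x, P x * conj (h j (Wav (fun k : Fin (K j) => (L : ℤ) * 5 ^ (k : ℕ)) x))
        ∂haarAddCircle‖ := fun j L => exists_window (hK j) _ (hhc j) (hhb j) (hh1 j)
  choose M P hM hP2 hPh using hwin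
  obtain ⟨C, hC⟩ := exists_clus K M
  set c' : (Σ j, Fin (K j)) → ℂ := fun i => c i.1 with hc'
  have hc'2 : ∀ i, ‖c' i‖ ≤ 1 / 2 := by
    intro i
    refine (hcn i.1).trans ?_
    apply one_div_le_one_div_of_le (by norm_num)
    have : (0 : ℝ) ≤ i.1 := Nat.cast_nonneg _
    linarith
  have hc'0 : Tendsto (fun i => ‖c' i‖) cofinite (𝓝 0) := by
    rw [Metric.tendsto_nhds]
    intro ε hε
    obtain ⟨J, hJ⟩ := exists_nat_gt (1 / ε)
    have hsub : {i : Σ j, Fin (K j) | ¬ dist ‖c' i‖ 0 < ε} ⊆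
        ((Finset.range J).sigma fun _ => Finset.univ : Finset (Σ j, Fin (K j))) := by
      intro i hi
      rw [Finset.mem_coe, Finset.mem_sigma]
      refine ⟨Finset.mem_range.2 ?_, Finset.mem_univ _⟩
      by_contra hlt
      push Not at hlt
      apply hi
      rw [dist_zero_right, norm_norm]
      refine lt_of_le_of_lt (hcn i.1) ?_
      have h1 : (J : ℝ) ≤ i.1 := by exact_mod_cast hlt
      rw [div_lt_iff₀ (by positivity)]
      rw [div_lt_iff₀ hε] at hJ
      nlinarith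
    exact (Finset.finite_toSet _).subset hsub
  obtain ⟨μ, hμ, hraj, hmom1, hmom2⟩ := exists_riesz (T := T) C.dissoc hc'2 hc'0
  refine ⟨μ, hμ, hraj, Set.Subset.antisymm (spectrum_sub μ) ?_⟩
  refine hdense.trans (closure_minimal ?_ (spectrum_closed μ))
  rintro _ ⟨i, rfl⟩
  apply mem_spectrum
  intro ε hε
  obtain ⟨n, hn⟩ := exists_nat_gt (2 / ε)
  set j : ℕ := Nat.pair i n with hj
  have hji : (Nat.unpair j).1 = i := by rw [hj, Nat.unpair_pair]
  have hjn : n ≤ j := Nat.right_le_pair i n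
  have hεj : 2 * (1 / ((j : ℝ) + 2)) ≤ ε := by
    have h1 : (n : ℝ) ≤ j := by exact_mod_cast hjn
    rw [div_lt_iff₀ hε] at hn
    rw [mul_one_div, div_le_iff₀ (by positivity)]
    nlinarith
  set q : Fin (K j) → ℤ := fun k => (C.L j : ℤ) * 5 ^ (k : ℕ) with hq
  set p : Fin (K j) → ℤ := fun k => C.p ⟨j, k⟩ with hp
  have hpq : ∀ k, p k = C.N j + q k := fun k => rfl
  have hW : ∀ x : AddCircle T, Wav p x = fourier (C.N j : ℤ) x * Wav q x := by
    intro x
    unfold Wav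
    rw [Finset.mul_sum, Finset.mul_sum, Finset.mul_sum]
    apply Finset.sum_congr rfl
    intro k _
    rw [hpq, fourier_add]
    ring
  have hhW : ∀ x : AddCircle T, h j (Wav p x) = fourier (C.N j : ℤ) x * h j (Wav q x) := by
    intro x
    rw [hW, hhu j _ _ (norm_fourier_apply _ _)]
  -- the analytic window
  set F₀ : AddCircle T → ℂ := fun x => fourier (C.N j : ℤ) x * P j (C.L j) x with hF₀
  have hF₀c : Continuous F₀ := by
    rw [hF₀]
    fun_prop
  have hF₀i : Integrable F₀ haarAddCircle := int_of_cont hF₀c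
  have hFmem : hF₀i.toL1 F₀ ∈ H10 T := by
    intro m hm
    rw [congrFun (fourierCoeff_congr_ae hF₀i.coeFn_toL1) m]
    have h1 : fourierCoeff F₀ m = fourierCoeff (P j (C.L j) : AddCircle T → ℂ) (m - C.N j) := by
      unfold fourierCoeff
      apply integral_congr_ae
      filter_upwards with x
      rw [hF₀, smul_eq_mul, smul_eq_mul, ← mul_assoc, ← fourier_add]
      congr 3
      ring
    rw [h1]
    apply hM
    have h2 := hC j
    have h3 : (M j (C.L j) : ℤ) < C.N j := by exact_mod_cast h2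
    rw [abs_of_nonpos (by linarith)]
    linarith
  refine ⟨⟨hF₀i.toL1 F₀, hFmem⟩, fun x => h j (Wav p x), (hhc j).comp (Wav_cont p), ?_, ?_, ?_⟩
  · show ‖hF₀i.toL1 F₀‖ ≤ 2
    rw [L1.norm_eq_integral_norm]
    refine le_trans (le_of_eq ?_) (hP2 j (C.L j))
    apply integral_congr_ae
    filter_upwards [hF₀i.coeFn_toL1] with x hx
    rw [hx, hF₀, norm_mul, norm_fourier_apply, one_mul]
  · refine (hPh j (C.L j)).trans (le_of_eq ?_)
    congr 1
    apply integral_congr_ae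
    filter_upwards [hF₀i.coeFn_toL1] with x hx
    show P j (C.L j) x * conj (h j (Wav q x)) = hF₀i.toL1 F₀ x * conj (h j (Wav p x))
    rw [hx, hhW, map_mul, hF₀]
    simp only
    have : fourier (C.N j : ℤ) x * conj (fourier (C.N j : ℤ) x) = 1 := by
      rw [Complex.mul_conj', norm_fourier_apply]
      simp
    linear_combination (-(P j (C.L j) x) * conj (h j (Wav q x))) * this
  · intro x
    refine le_trans ?_ hεj
    have h1 : ∀ k, ∫ y, fourier (p k) y ∂μ = c j := fun k => hmom1 ⟨j, k⟩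
    have h2 : ∀ k l, k ≠ l → ∫ y, fourier (p k - p l) y ∂μ = c j * conj (c j) := by
      intro k l hkl
      have := hmom2 ⟨j, k⟩ ⟨j, l⟩ (by
        intro h
        apply hkl
        simpa using h)
      exact this
    have h3 := approx_eigen (hK j) p h1 h2 (h := h j) (ε := 1 / ((j : ℝ) + 2))
      (θ := Λ i) (by positivity) ((hc'2 ⟨j, ⟨0, hK j⟩⟩).trans (by norm_num)) (hhc j)
      (fun z => by rw [hhc' j z, hji]) (hhd j) x
    exact h3

end Q84.RZ
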