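import Mathlib
import Pool.Agent.Q84.HSetE
import Pool.Agent.Q84.TrigCoeff

set_option autoImplicit false

namespace Q84.Raj

open Filter Topology MeasureTheory FourierTransform SchwartzMap AddCircle

/-- Fourier transform of a measure -/
noncomputable def ft (μ : Measure ℝ) (ξ : ℝ) : ℂ :=
  ∫ x, Complex.exp (-(2 * Real.pi * Complex.I * x * ξ)) ∂μ

lemma exp_norm (a : ℝ) : ‖Complex.exp (((a : ℝ) : ℂ) * Complex.I)‖ = 1 :=
  Complex.norm_exp_ofReal_mul_I a

lemma ft_norm_le (μ : Measure ℝ) [IsFiniteMeasure μ] (ξ : ℝ) : ‖ft μ ξ‖ ≤ μ.real Set.univ := by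
  unfold ft
  refine (norm_integral_le_integral_norm _).trans ?_
  have : ∀ x : ℝ, ‖Complex.exp (-(2 * Real.pi * Complex.I * x * ξ))‖ = 1 := by
    intro x
    have e : -(2 * Real.pi * Complex.I * x * ξ) = (((-(2 * Real.pi * x * ξ) : ℝ)) : ℂ) * Complex.I := by
      push_cast; ring
    rw [e, exp_norm]
  simp_rw [this]
  simp

lemma swap (μ : Measure ℝ) [IsFiniteMeasure μ] (φ : 𝓢(ℝ, ℂ)) (ξ : ℝ) :
    ∫ x, φ x * Complex.exp (-(2 * Real.pi * Complex.I * x * ξ)) ∂μ =
      ∫ η, (𝓕 φ : 𝓢(ℝ, ℂ)) η * ft μ (ξ - η) := by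
  have h1 : ∀ x : ℝ, φ x = ∫ η, Complex.exp ((2 * Real.pi * x * η : ℝ) * Complex.I) *
      (𝓕 φ : 𝓢(ℝ, ℂ)) η := by
    intro x
    have h2 : (𝓕⁻ (𝓕 φ) : 𝓢(ℝ, ℂ)) = φ := FourierTransform.fourierInv_fourier_eq φ
    have h3 : (𝓕⁻ (𝓕 φ) : 𝓢(ℝ, ℂ)) x = (𝓕⁻ ((𝓕 φ : 𝓢(ℝ, ℂ)) : ℝ → ℂ)) x := by
      rw [SchwartzMap.fourierInv_coe]
    rw [← h2, h3, Real.fourierInv_eq']
    rw [h2]
    refine integral_congr_ae (Eventually.of_forall fun η => ?_)
    simp only [smul_eq_mul]
    congr 3
    simp
    ring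
  have h4 : ∀ x : ℝ, φ x * Complex.exp (-(2 * Real.pi * Complex.I * x * ξ)) =
      ∫ η, (𝓕 φ : 𝓢(ℝ, ℂ)) η * Complex.exp (-(2 * Real.pi * Complex.I * x * (ξ - η : ℝ))) := by
    intro x
    rw [h1 x, ← integral_mul_const]
    refine integral_congr_ae (Eventually.of_forall fun η => ?_)
    simp only
    have : Complex.exp (-(2 * Real.pi * Complex.I * x * (ξ - η : ℝ))) =
        Complex.exp ((2 * Real.pi * x * η : ℝ) * Complex.I) *
          Complex.exp (-(2 * Real.pi * Complex.I * x * ξ)) := by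
      rw [← Complex.exp_add]; congr 1; push_cast; ring
    rw [this]
    ring
  simp_rw [h4]
  rw [integral_integral_swap]
  · refine integral_congr_ae (Eventually.of_forall fun η => ?_)
    simp only
    rw [integral_const_mul]
    rfl
  · have hint : Integrable (fun p : ℝ × ℝ => ‖(𝓕 φ : 𝓢(ℝ, ℂ)) p.2‖) (μ.prod volume) :=
      ((𝓕 φ : 𝓢(ℝ, ℂ)).integrable.norm).comp_snd μ
    refine hint.mono' ?_ ?_
    · apply Continuous.aestronglyMeasurable
      have := (𝓕 φ : 𝓢(ℝ, ℂ)).continuous
      fun_prop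
    · refine Eventually.of_forall fun p => ?_
      simp only [Function.uncurry]
      rw [norm_mul]
      have e : -(2 * Real.pi * Complex.I * (p.1 : ℂ) * ((ξ - p.2 : ℝ) : ℂ)) =
          (((-(2 * Real.pi * p.1 * (ξ - p.2)) : ℝ)) : ℂ) * Complex.I := by
        push_cast; ring
      rw [e, exp_norm, mul_one]

/-- localisation of decay -/
lemma local_decay (μ : Measure ℝ) [IsFiniteMeasure μ]
    (hμ : Tendsto (ft μ) (cocompact ℝ) (𝓝 0)) (φ : 𝓢(ℝ, ℂ)) (ξ : ℕ → ℝ)
    (hξ : Tendsto (fun j => |ξ j|) atTop atTop) :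
    Tendsto (fun j => ∫ x, φ x * Complex.exp (-(2 * Real.pi * Complex.I * x * ξ j)) ∂μ)
      atTop (𝓝 0) := by
  simp_rw [swap μ φ]
  have h0 : (0 : ℂ) = ∫ η : ℝ, (0 : ℂ) := by simp
  rw [h0]
  refine tendsto_integral_of_dominated_convergence
    (fun η => ‖(𝓕 φ : 𝓢(ℝ, ℂ)) η‖ * μ.real Set.univ) ?_ ?_ ?_ ?_
  · intro j
    apply AEStronglyMeasurable.mul
    · exact (𝓕 φ : 𝓢(ℝ, ℂ)).continuous.aestronglyMeasurable
    · have : StronglyMeasurable (fun η : ℝ => ft μ (ξ j - η)) := by
        unfold ft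
        apply StronglyMeasurable.integral_prod_right'
          (f := fun p : ℝ × ℝ => Complex.exp (-(2 * Real.pi * Complex.I * p.2 * ((ξ j - p.1 : ℝ) : ℂ))))
        apply Continuous.stronglyMeasurable
        fun_prop
      exact this.aestronglyMeasurable
  · exact ((𝓕 φ : 𝓢(ℝ, ℂ)).integrable.norm).mul_const _
  · intro j
    refine Eventually.of_forall fun η => ?_
    rw [norm_mul]
    exact mul_le_mul_of_nonneg_left (ft_norm_le μ _) (norm_nonneg _)
  · refine Eventually.of_forall fun η => ?_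
    have h1 : Tendsto (fun j => ξ j - η) atTop (cocompact ℝ) := by
      rw [← Metric.cobounded_eq_cocompact, ← tendsto_norm_atTop_iff_cobounded]
      refine tendsto_atTop_mono (f := fun j => |ξ j| + -|η|) (fun j => ?_)
        (tendsto_atTop_add_const_right _ _ hξ)
      rw [Real.norm_eq_abs]
      have := abs_sub_abs_le_abs_sub (ξ j) η
      linarith
    have := (hμ.comp h1).const_mul ((𝓕 φ : 𝓢(ℝ, ℂ)) η)
    simpa using this


/-- equidistribution against a localised decaying measure -/
lemma equi (μ : Measure ℝ) [IsFiniteMeasure μ]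
    (hμ : Tendsto (ft μ) (cocompact ℝ) (𝓝 0)) (φ : 𝓢(ℝ, ℂ)) (q : ℕ → ℝ)
    (hq : Tendsto q atTop atTop) (g : C(UnitAddCircle, ℂ)) :
    Tendsto (fun j => ∫ x, φ x * g ((q j * x : ℝ) : UnitAddCircle) ∂μ) atTop
      (𝓝 (fourierCoeff g 0 * ∫ x, φ x ∂μ)) := by
  have hφi : Integrable φ μ := by
    obtain ⟨C, hC⟩ := φ.decay 0 0
    refine Integrable.of_bound φ.continuous.aestronglyMeasurable C
      (Eventually.of_forall fun x => ?_)
    have := hC.2 x
    simpa using this
  have hint : ∀ (g : C(UnitAddCircle, ℂ)) (j : ℕ),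
      Integrable (fun x : ℝ => φ x * g ((q j * x : ℝ) : UnitAddCircle)) μ := by
    intro g j
    refine hφi.mul_bdd (c := ‖g‖) ?_ (Eventually.of_forall fun x => g.norm_coe_le_norm _)
    apply Continuous.aestronglyMeasurable
    exact g.continuous.comp ((AddCircle.continuous_mk' 1).comp (continuous_const.mul continuous_id))
  -- the difference
  set Df : C(UnitAddCircle, ℂ) → ℕ → ℂ := fun g j =>
    (∫ x, φ x * g ((q j * x : ℝ) : UnitAddCircle) ∂μ) - Q84.TrigCoeff.co 0 g * ∫ x, φ x ∂μ with hDf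
  suffices h : ∀ g, Tendsto (Df g) atTop (𝓝 0) by
    have := (h g).add_const (Q84.TrigCoeff.co 0 g * ∫ x, φ x ∂μ)
    simp only [hDf, sub_add_cancel, zero_add] at this
    exact this
  have hmon : ∀ n : ℤ, Tendsto (Df (fourier n)) atTop (𝓝 0) := by
    intro n
    simp only [hDf]
    rw [Q84.TrigCoeff.co_fourier]
    by_cases hn : n = 0
    · subst hn
      simp
    · rw [if_neg (Ne.symm hn)]
      simp only [zero_mul, sub_zero]
      have h1 := local_decay μ hμ φ (fun j => -(n * q j)) (by
        have h2 : Tendsto (fun j => |(n : ℝ)| * q j) atTop atTop :=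
          hq.const_mul_atTop (abs_pos.2 (by exact_mod_cast hn))
        refine tendsto_atTop_mono (fun j => ?_) h2
        rw [abs_neg, abs_mul]
        exact mul_le_mul_of_nonneg_left (le_abs_self _) (abs_nonneg _))
      refine h1.congr fun j => ?_
      refine integral_congr_ae (Eventually.of_forall fun x => ?_)
      simp only
      rw [fourier_coe_apply]
      congr 2
      push_cast
      ring
  have hspan : ∀ g ∈ Submodule.span ℂ (Set.range (@fourier 1)), Tendsto (Df g) atTop (𝓝 0) := by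
    intro g hg
    induction hg using Submodule.span_induction with
    | mem g hg => obtain ⟨n, rfl⟩ := hg; exact hmon n
    | zero => simp [hDf]
    | add g h _ _ hg hh =>
      have := hg.add hh
      rw [add_zero] at this
      refine this.congr fun j => ?_
      simp only [hDf]
      rw [map_add]
      have e : ∫ x, φ x * (g + h) ((q j * x : ℝ) : UnitAddCircle) ∂μ =
          (∫ x, φ x * g ((q j * x : ℝ) : UnitAddCircle) ∂μ) +
          ∫ x, φ x * h ((q j * x : ℝ) : UnitAddCircle) ∂μ := by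
        rw [← integral_add (hint g j) (hint h j)]
        refine integral_congr_ae (Eventually.of_forall fun x => ?_)
        simp only [ContinuousMap.add_apply]
        ring
      rw [e]
      ring
    | smul c g _ hg =>
      have := hg.const_mul c
      rw [mul_zero] at this
      refine this.congr fun j => ?_
      simp only [hDf]
      rw [map_smul, smul_eq_mul]
      have e : ∫ x, φ x * (c • g) ((q j * x : ℝ) : UnitAddCircle) ∂μ =
          c * ∫ x, φ x * g ((q j * x : ℝ) : UnitAddCircle) ∂μ := by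
        rw [← integral_const_mul]
        refine integral_congr_ae (Eventually.of_forall fun x => ?_)
        simp only [ContinuousMap.smul_apply, smul_eq_mul]
        ring
      rw [e]
      ring
  -- norm bounds
  set M : ℝ := (∫ x, ‖φ x‖ ∂μ) + ‖∫ x, φ x ∂μ‖ with hM
  have hM0 : 0 ≤ M := by
    rw [hM]
    have : 0 ≤ ∫ x, ‖φ x‖ ∂μ := integral_nonneg fun x => norm_nonneg _
    positivity
  have hbound : ∀ (u v : C(UnitAddCircle, ℂ)) (j : ℕ), ‖Df u j - Df v j‖ ≤ M * ‖u - v‖ := by
    intro u v j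
    have e : Df u j - Df v j = (∫ x, φ x * (u - v) ((q j * x : ℝ) : UnitAddCircle) ∂μ) -
        Q84.TrigCoeff.co 0 (u - v) * ∫ x, φ x ∂μ := by
      simp only [hDf]
      rw [map_sub]
      have e1 : ∫ x, φ x * (u - v) ((q j * x : ℝ) : UnitAddCircle) ∂μ =
          (∫ x, φ x * u ((q j * x : ℝ) : UnitAddCircle) ∂μ) -
          ∫ x, φ x * v ((q j * x : ℝ) : UnitAddCircle) ∂μ := by
        rw [← integral_sub (hint u j) (hint v j)]
        refine integral_congr_ae (Eventually.of_forall fun x => ?_)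
        simp only [ContinuousMap.sub_apply]
        ring
      rw [e1]
      ring
    rw [e]
    refine (norm_sub_le _ _).trans ?_
    rw [hM, add_mul]
    apply add_le_add
    · refine (norm_integral_le_integral_norm _).trans ?_
      rw [← integral_mul_const]
      refine integral_mono_of_nonneg (Eventually.of_forall fun x => norm_nonneg _)
        (hφi.norm.mul_const _) (Eventually.of_forall fun x => ?_)
      simp only [norm_mul]
      exact mul_le_mul_of_nonneg_left ((u - v).norm_coe_le_norm _) (norm_nonneg _)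
    · rw [norm_mul, mul_comm]
      apply mul_le_mul_of_nonneg_left _ (norm_nonneg _)
      rw [Q84.TrigCoeff.co_apply, fourierCoeff]
      refine (norm_integral_le_of_norm_le_const (C := ‖u - v‖) (Eventually.of_forall fun t => ?_)).trans ?_
      · simp only [neg_zero, fourier_zero, one_smul]
        exact (u - v).norm_coe_le_norm t
      · simp
  intro g
  rw [Metric.tendsto_atTop]
  intro ε hε
  have hmem : g ∈ (Submodule.span ℂ (Set.range (@fourier 1))).topologicalClosure := by
    rw [span_fourier_closure_eq_top]; trivial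
  obtain ⟨p, hp1, hp2⟩ := Metric.mem_closure_iff.1 hmem (ε / (2 * (M + 1))) (by positivity)
  have h1 := hspan p hp1
  rw [Metric.tendsto_atTop] at h1
  obtain ⟨J, hJ⟩ := h1 (ε / 2) (by positivity)
  refine ⟨J, fun j hj => ?_⟩
  have h2 := hJ j hj
  rw [dist_zero_right] at h2 ⊢
  have h3 := hbound g p j
  have h4 : M * ‖g - p‖ ≤ ε / 2 := by
    rw [dist_eq_norm] at hp2
    calc M * ‖g - p‖ ≤ (M + 1) * (ε / (2 * (M + 1))) := by
          apply mul_le_mul (by linarith) hp2.le (norm_nonneg _) (by linarith)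
      _ = ε / 2 := by field_simp
  have h5 : Df g j = (Df g j - Df p j) + Df p j := by ring
  rw [h5]
  refine (norm_add_le _ _).trans_lt ?_
  linarith

/-- the test function -/
noncomputable def bump (ρ : ℝ) : C(UnitAddCircle, ℂ) where
  toFun t := ((max 0 (ρ - ‖t‖) : ℝ) : ℂ)
  continuous_toFun := by fun_prop

lemma bump_int {ρ : ℝ} (hρ : 0 < ρ) : fourierCoeff (bump ρ) 0 ≠ 0 := by
  have h1 : fourierCoeff (bump ρ) 0 = ((∫ t, max 0 (ρ - ‖t‖) ∂(haarAddCircle : Measure UnitAddCircle) : ℝ) : ℂ) := by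
    rw [fourierCoeff, ← integral_complex_ofReal]
    refine integral_congr_ae (Eventually.of_forall fun t => ?_)
    simp only [neg_zero, fourier_zero, one_smul]
    rfl
  rw [h1, Complex.ofReal_ne_zero]
  have hcont : Continuous fun t : UnitAddCircle => max 0 (ρ - ‖t‖) := by fun_prop
  have hpos : 0 < ∫ t, max 0 (ρ - ‖t‖) ∂(haarAddCircle : Measure UnitAddCircle) := by
    apply Continuous.integral_pos_of_hasCompactSupport_nonneg_nonzero (x := 0) hcont
    · exact HasCompactSupport.of_compactSpace _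
    · intro t; exact le_max_left _ _
    · simp only [norm_zero, sub_zero]
      rw [max_eq_right hρ.le]
      exact hρ.ne'
  exact hpos.ne'

/-- No finite measure on `E` has a decaying Fourier transform. -/
theorem no_decay (μ : Measure ℝ) [IsFiniteMeasure μ] (h0 : μ ≠ 0) (hE : μ (Q84.HSet.E)ᶜ = 0) :
    ¬ Tendsto (ft μ) (cocompact ℝ) (𝓝 0) := by
  intro hμ
  apply h0
  -- each piece has measure zero
  have hpiece : ∀ n : ℕ, μ {x | x - 3 * n ∈ Q84.HSet.K (4 * (n + 2))} = 0 := by
    intro n
    let f : ContDiffBump (3 * (n : ℝ) + 1 / 2) := ⟨1 / 2, 1, by norm_num, by norm_num⟩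
    have hfs : HasCompactSupport (Complex.ofRealCLM ∘ f) := f.hasCompactSupport.comp_left rfl
    have hfc : ContDiff ℝ (⊤ : ℕ∞) (Complex.ofRealCLM ∘ f) := by
      have := f.contDiff (n := (⊤ : ℕ∞))
      fun_prop
    set φ : 𝓢(ℝ, ℂ) := hfs.toSchwartzMap hfc with hφ
    have hφx : ∀ x, φ x = (f x : ℂ) := fun x => rfl
    set N : ℝ := ((4 * (n + 2) : ℕ) : ℝ) with hN
    have hN8 : 8 ≤ N := by rw [hN]; push_cast; have : (0 : ℝ) ≤ n := Nat.cast_nonneg n; linarith
    have hq : Tendsto (fun j : ℕ => N ^ j) atTop atTop :=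
      tendsto_pow_atTop_atTop_of_one_lt (by linarith)
    have hρ : 0 < 1 / (4 * N) := by positivity
    have h1 := equi μ hμ φ (fun j => N ^ j) hq (bump (1 / (4 * N)))
    have hEae : ∀ᵐ x ∂μ, x ∈ Q84.HSet.E := by
      rw [ae_iff]; exact hE
    have h2 : ∀ j : ℕ, ∫ x, φ x * bump (1 / (4 * N)) ((N ^ j * x : ℝ) : UnitAddCircle) ∂μ = 0 := by
      intro j
      have : ∀ᵐ x ∂μ, φ x * bump (1 / (4 * N)) ((N ^ j * x : ℝ) : UnitAddCircle) = 0 := by
        filter_upwards [hEae] with x hx
        by_cases hfx : f x = 0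
        · rw [hφx, hfx]; simp
        · have hxs : x ∈ Metric.ball (3 * (n : ℝ) + 1 / 2) 1 := by
            rw [← f.support_eq]; exact hfx
          rw [Metric.mem_ball, Real.dist_eq, abs_lt] at hxs
          obtain ⟨k, hk⟩ := hx
          have hkn := Q84.HSet.piece_unique (n := n) hk (by linarith [hxs.1]) (by linarith [hxs.2])
          subst hkn
          have h3 := hk.2 j
          have h4 : N ^ j * x = N ^ j * (x - 3 * k) + (((4 * (k + 2) : ℕ) ^ j * (3 * k) : ℤ) : ℝ) := by
            rw [hN]; push_cast; ring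
          have h5 : 1 / (4 * N) ≤ ‖((N ^ j * x : ℝ) : UnitAddCircle)‖ := by
            rw [← Q84.HSet.dz_eq, h4, Q84.HSet.dz_add_int]
            exact h3
          have h6 : bump (1 / (4 * N)) ((N ^ j * x : ℝ) : UnitAddCircle) = 0 := by
            change ((max 0 (1 / (4 * N) - ‖((N ^ j * x : ℝ) : UnitAddCircle)‖) : ℝ) : ℂ) = 0
            rw [max_eq_left (by linarith)]
            simp
          rw [h6, mul_zero]
      rw [integral_congr_ae this]
      simp
    simp_rw [h2] at h1
    have h3 := tendsto_nhds_unique h1 tendsto_const_nhds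
    rcases mul_eq_zero.1 h3 with h4 | h4
    · exact absurd h4 (bump_int hρ)
    · -- integral of the bump vanishes
      have h5 : ∫ x, f x ∂μ = 0 := by
        have : ((∫ x, f x ∂μ : ℝ) : ℂ) = 0 := by
          rw [← integral_complex_ofReal]; exact h4
        exact_mod_cast this
      have hfi : Integrable f μ :=
        f.continuous.integrable_of_hasCompactSupport f.hasCompactSupport
      have h6 := (integral_eq_zero_iff_of_nonneg (fun x => f.nonneg) hfi).1 h5
      refine measure_mono_null ?_ (ae_iff.1 h6)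
      intro x hx
      have h7 := Q84.HSet.piece_sub hx
      have h8 : f x = 1 := by
        apply f.one_of_mem_closedBall
        have hr : f.rIn = 1 / 2 := rfl
        rw [Metric.mem_closedBall, Real.dist_eq, abs_le, hr]
        constructor <;> linarith [h7.1, h7.2]
      simp [h8]
  have hE2 : μ Q84.HSet.E = 0 := by
    have : Q84.HSet.E = ⋃ n : ℕ, {x : ℝ | x - 3 * n ∈ Q84.HSet.K (4 * (n + 2))} := by
      ext x; simp [Q84.HSet.E]
    rw [this]
    exact measure_iUnion_null hpiece
  have hE' : μ Set.univ = 0 := by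
    rw [← Set.union_compl_self Q84.HSet.E]
    exact measure_union_null hE2 hE
  exact Measure.measure_univ_eq_zero.1 hE'

end Q84.Raj
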