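import Pool.Agent.TH816.RR.Lim4
import Pool.Agent.H672R3.SimRec

set_option autoImplicit false

/-! # Vectors of consecutive gaps which are common to several scales and residue classes -/

namespace Pool.Agent.Q84.SV

open Finset Filter MeasureTheory Pool.Agent.TH816.RR
open Pool.Agent.H256R2.SC (ff)
open Pool.Agent.H672R3.SimRec (fin_sys)

/-- a common limit vector for any configuration -/
theorem sim_claim (k r : ℕ) : ∃ (K : ℕ) (s₀ : ℝ), 0 < s₀ ∧ s₀ ≤ 1 ∧ ∀ F : Fin r → ℝ → ℝ,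
    (∀ j, ∀ᶠ X : ℝ in atTop, Real.log X ≤ F j X ∧ F j X ≤ ff X) →
    (∀ j, ∀ δ : ℝ, 0 < δ → ∀ᶠ X : ℝ in atTop, ∀ y, X ≤ y → y ≤ 4 * X → |F j y / F j X - 1| < δ) →
    ∀ q a : Fin r → ℕ, (∀ j, Squarefree (q j)) → (∀ j, (a j).Coprime (q j)) →
    ∀ B : Fin r → ℝ, (∀ j, 0 < B j ∧ B j ≤ 1) → ∀ s : ℝ, 0 < s → s ≤ s₀ →
    ∀ x : Fin K → ℝ, StrictMono x → (∀ j, 0 < x j ∧ x j ≤ 1) →
    ∃ τ : Fin (k + 1) → Fin K, StrictMono τ ∧ ∀ j, ∀ ε : ℝ, 0 < ε →
      (Near (F j) (q j) (a j) k (fun i => B j * (s * (x (τ i.succ) - x (τ i.castSucc)))) ε).Infinite := by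
  classical
  obtain ⟨K0, s₀, hs₀, hs₁, h⟩ := lim_claim k
  obtain ⟨C, hC⟩ := fin_sys (k + 1) K0 r
  refine ⟨C, s₀, hs₀, hs₁, fun F hF1 hF2 q a hq haq B hB s hs0 hs1 x hx hx1 => ?_⟩
  obtain ⟨T, -, hTk, hT⟩ := hC (Fin C) univ (fun j U => ∃ hU : U.card = k + 1, ∀ ε : ℝ, 0 < ε →
      (Near (F j) (q j) (a j) k (fun i => B j * (s * (x (U.orderEmbOfFin hU i.succ) -
        x (U.orderEmbOfFin hU i.castSucc)))) ε).Infinite)
    (by
      intro j T _ hTc
      set e := T.orderEmbOfFin hTc with he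
      obtain ⟨σ, hσ, hσN⟩ := h (F j) (hF1 j) (hF2 j) (q j) (a j) (hq j) (haq j) (B j * s)
        (mul_pos (hB j).1 hs0)
        (by
          have h1 : B j * s ≤ 1 * s := mul_le_mul_of_nonneg_right (hB j).2 hs0.le
          linarith)
        (fun i => x (e i)) (hx.comp e.strictMono) (fun i => hx1 _)
      have hej : StrictMono (fun i => e (σ i)) := e.strictMono.comp hσ
      set U : Finset (Fin C) := univ.image (fun i => e (σ i)) with hU
      have hUc : U.card = k + 1 := by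
        rw [hU, card_image_of_injective _ hej.injective]; simp
      have hUe : (fun i => e (σ i)) = U.orderEmbOfFin hUc :=
        Finset.orderEmbOfFin_unique hUc (fun x => mem_image.2 ⟨x, mem_univ _, rfl⟩) hej
      refine ⟨U, ?_, hUc, hUc, ?_⟩
      · intro u hu
        obtain ⟨i, _, rfl⟩ := mem_image.1 hu
        exact Finset.orderEmbOfFin_mem _ _ _
      · have h1 : ∀ i, U.orderEmbOfFin hUc i = e (σ i) := fun i => (congrFun hUe i).symm
        simp only [h1]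
        intro ε hε
        have h2 := hσN ε hε
        simp only [mul_assoc] at h2
        exact h2)
    (by simp)
  refine ⟨T.orderEmbOfFin hTk, (T.orderEmbOfFin hTk).strictMono, fun j => ?_⟩
  obtain ⟨_, h⟩ := hT j
  exact h

/-- **The common limit vectors.** -/
theorem sim_interior (k r : ℕ) (hk : 1 ≤ k) : ∃ c : ℝ, 0 < c ∧ ∀ F : Fin r → ℝ → ℝ,
    (∀ j, ∀ᶠ X : ℝ in atTop, Real.log X ≤ F j X ∧ F j X ≤ ff X) →
    (∀ j, ∀ δ : ℝ, 0 < δ → ∀ᶠ X : ℝ in atTop, ∀ y, X ≤ y → y ≤ 4 * X → |F j y / F j X - 1| < δ) →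
    ∀ q a : Fin r → ℕ, (∀ j, Squarefree (q j)) → (∀ j, (a j).Coprime (q j)) →
    ∀ B : Fin r → ℝ, (∀ j, 0 < B j ∧ B j ≤ 1) → ∀ L : Set (Fin k → ℝ),
    L = {v : Fin k → ℝ | ∀ j, ∀ ε : ℝ, 0 < ε →
      (Near (F j) (q j) (a j) k (fun i => B j * v i) ε).Infinite} →
    (∀ T : ℝ, 0 < T → T ≤ 1 →
      ENNReal.ofReal (c * T ^ k) ≤ volume (closure (interior L) ∩ Set.Icc 0 (fun _ => T))) ∧
    (∀ R T : ℝ, 0 < T → (∃ v ∈ interior L, v ∈ ConeUp k R T) ∧
      (∃ v ∈ interior L, v ∈ ConeDown k R T)) := by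
  obtain ⟨K, s₀, hs₀, hs₁, h⟩ := sim_claim k r
  obtain ⟨D, hD, hvol⟩ := vol_cov k K hk
  refine ⟨s₀ ^ k / D, by positivity, ?_⟩
  intro F hF1 hF2 q a hq haq B hB L hL
  have hLc : IsClosed L := by
    have h1 : L = ⋂ j, (fun v : Fin k → ℝ => fun i => B j * v i) ⁻¹'
        {v : Fin k → ℝ | ∀ ε : ℝ, 0 < ε → (Near (F j) (q j) (a j) k v ε).Infinite} := by
      rw [hL]
      ext v
      simp only [Set.mem_iInter, Set.mem_preimage, Set.mem_ofPred_eq]
    rw [h1]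
    refine isClosed_iInter fun j => (lim_closed (F j) (q j) (a j) k).preimage ?_
    exact continuous_pi fun i => continuous_const.mul (continuous_apply i)
  have hcov : ∀ s : ℝ, 0 < s → s ≤ s₀ → ∀ x ∈ Pos K, ∃ τ : Fin (k + 1) → Fin K,
      StrictMono τ ∧ DDL k K τ s x ∈ closure (interior L) := by
    intro s hs hss
    apply top_cover hs.ne' hLc (Pos_open K)
    intro x hx
    obtain ⟨τ, hτ, hτ2⟩ := h F hF1 hF2 q a hq haq B hB s hs hss x hx.1
      fun j => ⟨(hx.2 j).1, (hx.2 j).2.le⟩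
    refine ⟨τ, hτ, ?_⟩
    rw [hL]
    exact hτ2
  refine ⟨?_, fun R T hT => ⟨cone_up hs₀ (hcov s₀ hs₀ le_rfl) R T hT,
    cone_down hs₀ (hcov s₀ hs₀ le_rfl) R T hT⟩⟩
  intro T hT0 hT1
  have hs0 : 0 < s₀ * T := by positivity
  have h1 := hvol (s₀ * T) hs0 (closure (interior L)) (hcov (s₀ * T) hs0 (by nlinarith))
  calc ENNReal.ofReal (s₀ ^ k / D * T ^ k) = ENNReal.ofReal ((s₀ * T) ^ k / D) := by
        congr 1
        rw [mul_pow]
        ring
    _ ≤ volume (closure (interior L) ∩ Set.Icc 0 (fun _ => s₀ * T)) := h1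
    _ ≤ volume (closure (interior L) ∩ Set.Icc 0 (fun _ => T)) := by
        apply measure_mono
        intro v hv
        exact ⟨hv.1, hv.2.1, fun i => (hv.2.2 i).trans (by nlinarith)⟩

/-- **Positive measure at every `X`, for all scales and classes at once.** -/
theorem uniform_volume (m : ℕ) (hm : 1 ≤ m) : ∃ c : ℝ, 0 < c ∧ ∀ l : ℕ, ∃ κ : ℝ, 0 < κ ∧
    ∀ δ : ℝ, 0 < δ → ∀ q : Fin l → ℕ, (∀ s, Squarefree (q s)) → ∀ᶠ X : ℝ in atTop,
    ∀ (H : Fin l → ℝ) (a : Fin l → ℕ) (B : Fin l → ℝ),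
      (∀ s, Real.log X ≤ H s ∧ H s ≤ c * ff X) → (∀ s, (a s).Coprime (q s)) →
      (∀ s, 0 < B s ∧ B s ≤ 1) → ∀ T : ℝ, 0 < T → T ≤ 1 →
      ENNReal.ofReal (κ * T ^ m) ≤ volume ({v : Fin m → ℝ | ∀ s, X ^ (7 / 8 : ℝ) ≤
        ((Pool.Agent.H672R3.SimRec.Occ m (q s) (fun _ => a s) X (H s) δ
          (fun i => B s * v i)).ncard : ℝ)} ∩ Set.Icc 0 (fun _ => T)) := by
  obtain ⟨c, hc, h⟩ := Pool.Agent.H672R3.SimRec.simultaneous m
  refine ⟨c, hc, fun l => ?_⟩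
  obtain ⟨K, hK⟩ := h l
  obtain ⟨D, hD, hvol⟩ := vol_cov m K hm
  refine ⟨1 / D, by positivity, fun δ hδ q hq => ?_⟩
  filter_upwards [hK δ hδ q hq] with X hX H a B hH ha hB T hT0 hT1
  have h1 := hvol T hT0 {v : Fin m → ℝ | ∀ s, X ^ (7 / 8 : ℝ) ≤
        ((Pool.Agent.H672R3.SimRec.Occ m (q s) (fun _ => a s) X (H s) δ
          (fun i => B s * v i)).ncard : ℝ)} (by
    intro x hx
    obtain ⟨τ, hτ, hτX⟩ := hX H (fun s j => B s * (T * x j)) (fun s _ => a s) hH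
      (fun s i j hij => by
        have h2 := hx.1 hij
        exact mul_lt_mul_of_pos_left (mul_lt_mul_of_pos_left h2 hT0) (hB s).1)
      (fun s j => by
        have h2 := hx.2 j
        have h3 := hB s
        have h4 : 0 ≤ T * x j := mul_nonneg hT0.le h2.1.le
        have h5 : T * x j ≤ 1 := by nlinarith
        exact ⟨mul_nonneg h3.1.le h4, by nlinarith⟩)
      (fun s _ => ha s)
    refine ⟨τ, hτ, fun s => ?_⟩
    have h2 := hτX s
    have h3 : (fun i : Fin m => B s * (T * x (τ i.succ)) - B s * (T * x (τ i.castSucc))) =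
        fun i => B s * DDL m K τ T x i := by
      funext i
      rw [DDL_apply]
      ring
    rw [h3] at h2
    exact h2)
  refine le_trans (le_of_eq ?_) h1
  congr 1
  ring

end Pool.Agent.Q84.SV
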