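import Mathlib

/-!
# A real step function beating the indicator of an interval in the `L^∞` uncertainty inequality
-/

set_option autoImplicit false

namespace Pool.Agent.Q84.StepU

open MeasureTheory Set FourierTransform
open scoped ENNReal

/-- indicator of `[-w, w]` (zero if `w < 0`) -/
noncomputable def ind (w x : ℝ) : ℝ := if |x| ≤ w then 1 else 0

lemma ind_of_le {w x : ℝ} (h : |x| ≤ w) : ind w x = 1 := if_pos h
lemma ind_of_lt {w x : ℝ} (h : w < |x|) : ind w x = 0 := if_neg (not_le.mpr h)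
lemma ind_nonneg (w x : ℝ) : 0 ≤ ind w x := by unfold ind; split_ifs <;> norm_num
lemma ind_le_one (w x : ℝ) : ind w x ≤ 1 := by unfold ind; split_ifs <;> norm_num
lemma ind_mono {w w' : ℝ} (h : w ≤ w') (x : ℝ) : ind w x ≤ ind w' x := by
  unfold ind
  split_ifs with h1 h2
  · exact le_rfl
  · exact absurd (h1.trans h) h2
  · norm_num
  · exact le_rfl
lemma ind_neg (w x : ℝ) : ind w (-x) = ind w x := by unfold ind; rw [abs_neg]

lemma ind_eq (w : ℝ) : ind w = (Icc (-w) w).indicator fun _ => (1 : ℝ) := by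
  funext x
  unfold ind
  by_cases h : |x| ≤ w
  · rw [if_pos h, indicator_of_mem (show x ∈ Icc (-w) w from abs_le.mp h)]
  · rw [if_neg h, indicator_of_notMem]
    intro hx
    exact h (abs_le.mpr hx)

lemma ind_measurable (w : ℝ) : Measurable (ind w) := by
  rw [ind_eq]
  exact measurable_const.indicator measurableSet_Icc

lemma ind_integrable (w : ℝ) : Integrable (ind w) := by
  rw [ind_eq]
  rw [integrable_indicator_iff measurableSet_Icc]
  exact integrableOn_const (by rw [Real.volume_Icc]; exact ENNReal.ofReal_ne_top)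

lemma integral_ind {w : ℝ} (hw : 0 ≤ w) : ∫ x, ind w x = 2 * w := by
  rw [ind_eq, integral_indicator measurableSet_Icc]
  simp only [integral_const, MeasurableSet.univ, measureReal_restrict_apply, univ_inter,
    smul_eq_mul, mul_one]
  rw [measureReal_def, Real.volume_Icc, ENNReal.toReal_ofReal (by linarith)]
  ring

lemma integral_pow_ind {w α : ℝ} (hw : 0 ≤ w) (hα : 0 < α) :
    ∫ x, |x| ^ α * ind w x = 2 * w ^ (α + 1) / (α + 1) := by
  have h1 : ∀ x : ℝ, |x| ^ α * ind w x = (fun y : ℝ => y ^ α * (if y ≤ w then 1 else 0)) |x| := by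
    intro x
    rfl
  simp only [h1]
  rw [integral_comp_abs (f := fun y : ℝ => y ^ α * (if y ≤ w then 1 else 0))]
  have h2 : ∫ x in Ioi (0 : ℝ), x ^ α * (if x ≤ w then 1 else 0) = ∫ x in (0 : ℝ)..w, x ^ α := by
    rw [intervalIntegral.integral_of_le hw, ← integral_indicator measurableSet_Ioi,
      ← integral_indicator measurableSet_Ioc]
    congr 1
    funext x
    by_cases hx : 0 < x
    · rw [indicator_of_mem (show x ∈ Ioi (0 : ℝ) from hx)]
      by_cases hxw : x ≤ w
      · rw [indicator_of_mem (show x ∈ Ioc 0 w from ⟨hx, hxw⟩), if_pos hxw, mul_one]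
      · rw [indicator_of_notMem (fun h => hxw h.2), if_neg hxw, mul_zero]
    · rw [indicator_of_notMem (show x ∉ Ioi (0 : ℝ) from fun h => hx h),
        indicator_of_notMem (show x ∉ Ioc (0 : ℝ) w from fun h => hx h.1)]
  rw [h2, integral_rpow (Or.inl (by linarith)), Real.zero_rpow (by linarith)]
  ring

lemma pow_ind_integrable {w α : ℝ} (hα : 0 < α) : Integrable fun x => |x| ^ α * ind w x := by
  have h1 : (fun x => |x| ^ α * ind w x) = (Icc (-w) w).indicator fun x => |x| ^ α := by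
    funext x
    rw [ind_eq]
    by_cases hx : x ∈ Icc (-w) w
    · rw [indicator_of_mem hx, indicator_of_mem hx, mul_one]
    · rw [indicator_of_notMem hx, indicator_of_notMem hx, mul_zero]
  rw [h1, integrable_indicator_iff measurableSet_Icc]
  apply ContinuousOn.integrableOn_compact isCompact_Icc
  exact (continuous_abs.rpow_const (fun x => Or.inr hα.le)).continuousOn

/-- the Fourier transform of `ind w` -/
lemma fourier_ind {w : ℝ} (hw : 0 ≤ w) (ξ : ℝ) :
    (ξ : ℂ) * 𝓕 (fun x => (ind w x : ℂ)) ξ = ((Real.sin (2 * Real.pi * ξ * w) / Real.pi : ℝ) : ℂ) := by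
  have h0 : 𝓕 (fun x => (ind w x : ℂ)) ξ =
      ∫ x in (-w)..w, Complex.exp (-(2 * Real.pi * Complex.I * ξ) * x) := by
    rw [Real.fourier_eq', intervalIntegral.integral_of_le (by linarith),
      ← integral_Icc_eq_integral_Ioc, ← integral_indicator measurableSet_Icc]
    congr 1
    funext x
    rw [ind_eq]
    by_cases hx : x ∈ Icc (-w) w
    · rw [indicator_of_mem hx, indicator_of_mem hx]
      simp only [Complex.ofReal_one, smul_eq_mul, mul_one]
      congr 1
      simp only [RCLike.inner_apply, conj_trivial]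
      push_cast
      ring
    · rw [indicator_of_notMem hx, indicator_of_notMem hx]
      simp
  rw [h0]
  by_cases hξ : ξ = 0
  · subst hξ
    simp
  · have hc : (-(2 * Real.pi * Complex.I * ξ) : ℂ) ≠ 0 := by
      simp [hξ, Real.pi_ne_zero]
    rw [integral_exp_mul_complex hc]
    have hsin : Complex.exp (-(2 * Real.pi * Complex.I * ξ) * (w : ℂ)) -
        Complex.exp (-(2 * Real.pi * Complex.I * ξ) * ((-w : ℝ) : ℂ)) =
        -(2 * Complex.I) * ((Real.sin (2 * Real.pi * ξ * w) : ℝ) : ℂ) := by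
      rw [Complex.ofReal_sin, Complex.sin]
      have e1 : -(2 * Real.pi * Complex.I * ξ) * (w : ℂ) =
          -((2 * Real.pi * ξ * w : ℝ) : ℂ) * Complex.I := by
        push_cast; ring
      have e2 : -(2 * Real.pi * Complex.I * ξ) * ((-w : ℝ) : ℂ) =
          ((2 * Real.pi * ξ * w : ℝ) : ℂ) * Complex.I := by
        push_cast; ring
      rw [e1, e2]
      have hI : Complex.I * Complex.I = -1 := Complex.I_mul_I
      linear_combination ((Complex.exp (-((2 * Real.pi * ξ * w : ℝ) : ℂ) * Complex.I)) -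
        Complex.exp (((2 * Real.pi * ξ * w : ℝ) : ℂ) * Complex.I)) * hI
    rw [hsin]
    have hpi : (Real.pi : ℂ) ≠ 0 := by exact_mod_cast Real.pi_ne_zero
    have hξ' : (ξ : ℂ) ≠ 0 := by exact_mod_cast hξ
    push_cast
    field_simp


/-- the trapezoidal part -/
noncomputable def T (h δ x : ℝ) : ℝ :=
  (1 / 5) * ind h x + (4 / 25) * (ind (h + 4 * δ) x + ind (h - 4 * δ) x)
    + (3 / 25) * (ind (h + 8 * δ) x + ind (h - 8 * δ) x)
    + (2 / 25) * (ind (h + 12 * δ) x + ind (h - 12 * δ) x)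
    + (1 / 25) * (ind (h + 16 * δ) x + ind (h - 16 * δ) x)

/-- the central parts (`j = 1, 3`) -/
noncomputable def g (j δ x : ℝ) : ℝ :=
  (4 / 5) * ind (j * δ) x - (4 / 25) * (ind ((4 + j) * δ) x - ind ((4 - j) * δ) x)
    - (3 / 25) * (ind ((8 + j) * δ) x - ind ((8 - j) * δ) x)
    - (2 / 25) * (ind ((12 + j) * δ) x - ind ((12 - j) * δ) x)
    - (1 / 25) * (ind ((16 + j) * δ) x - ind ((16 - j) * δ) x)

/-- the step function -/
noncomputable def u (h δ x : ℝ) : ℝ := T h δ x - g 1 δ x - (1 / 3) * g 3 δ x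

lemma u_even (h δ x : ℝ) : u h δ (-x) = u h δ x := by
  unfold u T g
  simp only [ind_neg]

/-- values near the centre -/
lemma u_center {h δ x : ℝ} (hδ : 0 < δ) (h1 : 17 * δ ≤ h) (hx : |x| ≤ δ) :
    u h δ x = -1 / 15 := by
  unfold u T g
  rw [ind_of_le (show |x| ≤ h by linarith), ind_of_le (show |x| ≤ h + 4 * δ by linarith),
    ind_of_le (show |x| ≤ h - 4 * δ by linarith), ind_of_le (show |x| ≤ h + 8 * δ by linarith),
    ind_of_le (show |x| ≤ h - 8 * δ by linarith), ind_of_le (show |x| ≤ h + 12 * δ by linarith),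
    ind_of_le (show |x| ≤ h - 12 * δ by linarith), ind_of_le (show |x| ≤ h + 16 * δ by linarith),
    ind_of_le (show |x| ≤ h - 16 * δ by linarith), ind_of_le (show |x| ≤ 1 * δ by linarith),
    ind_of_le (show |x| ≤ 3 * δ by linarith), ind_of_le (show |x| ≤ (4 + 1) * δ by linarith),
    ind_of_le (show |x| ≤ (4 - 1) * δ by linarith), ind_of_le (show |x| ≤ (8 + 1) * δ by linarith),
    ind_of_le (show |x| ≤ (8 - 1) * δ by linarith), ind_of_le (show |x| ≤ (12 + 1) * δ by linarith),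
    ind_of_le (show |x| ≤ (12 - 1) * δ by linarith),
    ind_of_le (show |x| ≤ (16 + 1) * δ by linarith),
    ind_of_le (show |x| ≤ (16 - 1) * δ by linarith), ind_of_le (show |x| ≤ (4 + 3) * δ by linarith),
    ind_of_le (show |x| ≤ (4 - 3) * δ by linarith), ind_of_le (show |x| ≤ (8 + 3) * δ by linarith),
    ind_of_le (show |x| ≤ (8 - 3) * δ by linarith), ind_of_le (show |x| ≤ (12 + 3) * δ by linarith),
    ind_of_le (show |x| ≤ (12 - 3) * δ by linarith),
    ind_of_le (show |x| ≤ (16 + 3) * δ by linarith),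
    ind_of_le (show |x| ≤ (16 - 3) * δ by linarith)]
  norm_num

/-- `T = 1` in the bulk -/
lemma T_bulk {h δ x : ℝ} (hδ : 0 < δ) (hx : |x| ≤ h - 16 * δ) : T h δ x = 1 := by
  unfold T
  rw [ind_of_le (show |x| ≤ h by linarith), ind_of_le (show |x| ≤ h + 4 * δ by linarith),
    ind_of_le (show |x| ≤ h - 4 * δ by linarith), ind_of_le (show |x| ≤ h + 8 * δ by linarith),
    ind_of_le (show |x| ≤ h - 8 * δ by linarith), ind_of_le (show |x| ≤ h + 12 * δ by linarith),
    ind_of_le (show |x| ≤ h - 12 * δ by linarith), ind_of_le (show |x| ≤ h + 16 * δ by linarith),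
    ind_of_le (show |x| ≤ h - 16 * δ by linarith)]
  norm_num

lemma T_nonneg (h δ x : ℝ) : 0 ≤ T h δ x := by
  unfold T
  have := ind_nonneg h x
  have := ind_nonneg (h + 4 * δ) x
  have := ind_nonneg (h - 4 * δ) x
  have := ind_nonneg (h + 8 * δ) x
  have := ind_nonneg (h - 8 * δ) x
  have := ind_nonneg (h + 12 * δ) x
  have := ind_nonneg (h - 12 * δ) x
  have := ind_nonneg (h + 16 * δ) x
  have := ind_nonneg (h - 16 * δ) x
  positivity

lemma T_pos {h δ x : ℝ} (hx : |x| ≤ h + 16 * δ) : 0 < T h δ x := by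
  unfold T
  have := ind_nonneg h x
  have := ind_nonneg (h + 4 * δ) x
  have := ind_nonneg (h - 4 * δ) x
  have := ind_nonneg (h + 8 * δ) x
  have := ind_nonneg (h - 8 * δ) x
  have := ind_nonneg (h + 12 * δ) x
  have := ind_nonneg (h - 12 * δ) x
  have := ind_nonneg (h - 16 * δ) x
  rw [ind_of_le hx]
  positivity

lemma T_zero {h δ x : ℝ} (hδ : 0 < δ) (hx : h + 16 * δ < |x|) : T h δ x = 0 := by
  unfold T
  rw [ind_of_lt (show h < |x| by linarith), ind_of_lt (show h + 4 * δ < |x| by linarith),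
    ind_of_lt (show h - 4 * δ < |x| by linarith), ind_of_lt (show h + 8 * δ < |x| by linarith),
    ind_of_lt (show h - 8 * δ < |x| by linarith), ind_of_lt (show h + 12 * δ < |x| by linarith),
    ind_of_lt (show h - 12 * δ < |x| by linarith), ind_of_lt hx,
    ind_of_lt (show h - 16 * δ < |x| by linarith)]
  norm_num

/-- upper bound for `g` off the centre -/
lemma g_le {j δ x : ℝ} (hδ : 0 < δ) (hj : 0 < j) : g j δ x ≤ (4 / 5) * ind (j * δ) x := by
  unfold g
  have h1 : ind ((4 - j) * δ) x ≤ ind ((4 + j) * δ) x := ind_mono (by nlinarith) x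
  have h2 : ind ((8 - j) * δ) x ≤ ind ((8 + j) * δ) x := ind_mono (by nlinarith) x
  have h3 : ind ((12 - j) * δ) x ≤ ind ((12 + j) * δ) x := ind_mono (by nlinarith) x
  have h4 : ind ((16 - j) * δ) x ≤ ind ((16 + j) * δ) x := ind_mono (by nlinarith) x
  linarith

lemma g_zero {j δ x : ℝ} (hδ : 0 < δ) (hj : 0 < j) (hj3 : j ≤ 3) (hx : 19 * δ < |x|) :
    g j δ x = 0 := by
  unfold g
  have h0 : j * δ ≤ 3 * δ := by nlinarith
  have h0' : 0 < j * δ := by positivity
  rw [ind_of_lt (show j * δ < |x| by nlinarith), ind_of_lt (show (4 + j) * δ < |x| by nlinarith),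
    ind_of_lt (show (4 - j) * δ < |x| by nlinarith),
    ind_of_lt (show (8 + j) * δ < |x| by nlinarith),
    ind_of_lt (show (8 - j) * δ < |x| by nlinarith),
    ind_of_lt (show (12 + j) * δ < |x| by nlinarith),
    ind_of_lt (show (12 - j) * δ < |x| by nlinarith),
    ind_of_lt (show (16 + j) * δ < |x| by nlinarith),
    ind_of_lt (show (16 - j) * δ < |x| by nlinarith)]
  norm_num

/-- positivity off the centre -/
lemma u_pos {h δ x : ℝ} (hδ : 0 < δ) (h1 : 35 * δ ≤ h) (hx : δ < |x|)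
    (hx2 : |x| ≤ h + 16 * δ) : 0 < u h δ x := by
  rcases le_or_gt |x| (19 * δ) with hx3 | hx3
  · have hT := T_bulk (h := h) hδ (show |x| ≤ h - 16 * δ by linarith)
    have hg1 := g_le (x := x) hδ (show (0 : ℝ) < 1 by norm_num)
    have hg3 := g_le (x := x) hδ (show (0 : ℝ) < 3 by norm_num)
    rw [ind_of_lt (show 1 * δ < |x| by linarith)] at hg1
    have h4 := ind_le_one (3 * δ) x
    unfold u
    rw [hT]
    linarith
  · have hg1 := g_zero (x := x) hδ (show (0 : ℝ) < 1 by norm_num) (by norm_num) hx3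
    have hg3 := g_zero (x := x) hδ (show (0 : ℝ) < 3 by norm_num) (by norm_num) hx3
    unfold u
    rw [hg1, hg3]
    have := T_pos (h := h) (δ := δ) hx2
    linarith

lemma u_zero {h δ x : ℝ} (hδ : 0 < δ) (h1 : 35 * δ ≤ h) (hx2 : h + 16 * δ < |x|) :
    u h δ x = 0 := by
  have hx3 : 19 * δ < |x| := by linarith
  have hg1 := g_zero (x := x) hδ (show (0 : ℝ) < 1 by norm_num) (by norm_num) hx3
  have hg3 := g_zero (x := x) hδ (show (0 : ℝ) < 3 by norm_num) (by norm_num) hx3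
  unfold u
  rw [hg1, hg3, T_zero hδ hx2]
  norm_num

lemma u_ne_zero {h δ x : ℝ} (hδ : 0 < δ) (h1 : 35 * δ ≤ h) (hx2 : |x| ≤ h + 16 * δ) :
    u h δ x ≠ 0 := by
  rcases le_or_gt |x| δ with hx | hx
  · rw [u_center hδ (by linarith) hx]
    norm_num
  · exact (u_pos hδ h1 hx hx2).ne'

/-- `|u|` is an explicit combination of indicators as well -/
lemma abs_u {h δ x : ℝ} (hδ : 0 < δ) (h1 : 35 * δ ≤ h) :
    |u h δ x| = u h δ x + (2 / 15) * ind δ x := by
  rcases le_or_gt |x| δ with hx | hx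
  · rw [u_center hδ (by linarith) hx, ind_of_le hx]
    norm_num
  · rw [ind_of_lt hx, mul_zero, add_zero]
    apply abs_of_nonneg
    rcases le_or_gt |x| (h + 16 * δ) with hx2 | hx2
    · exact (u_pos hδ h1 hx hx2).le
    · rw [u_zero hδ h1 hx2]

/-- the triples (coefficient, `a`, `k`): half-width `a h + k δ` -/
noncomputable def LL : List (ℝ × ℝ × ℝ) :=
  [(1/5, 1, 0), (4/25, 1, 4), (4/25, 1, -4), (3/25, 1, 8), (3/25, 1, -8), (2/25, 1, 12),
    (2/25, 1, -12), (1/25, 1, 16), (1/25, 1, -16), (-4/5, 0, 1), (4/25, 0, 5), (-4/25, 0, 3),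
    (3/25, 0, 9), (-3/25, 0, 7), (2/25, 0, 13), (-2/25, 0, 11), (1/25, 0, 17), (-1/25, 0, 15),
    (-4/15, 0, 3), (4/75, 0, 7), (-4/75, 0, 1), (3/75, 0, 11), (-3/75, 0, 5), (2/75, 0, 15),
    (-2/75, 0, 9), (1/75, 0, 19), (-1/75, 0, 13)]

/-- linear combination of indicators along a list of triples -/
noncomputable def comb (l : List (ℝ × ℝ × ℝ)) (h δ x : ℝ) : ℝ :=
  (l.map fun p => p.1 * ind (p.2.1 * h + p.2.2 * δ) x).sum

lemma u_eq_comb (h δ x : ℝ) : u h δ x = comb LL h δ x := by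
  unfold comb LL u T g
  simp only [List.map_cons, List.map_nil, List.sum_cons, List.sum_nil]
  ring_nf

lemma comb_cons (p : ℝ × ℝ × ℝ) (l : List (ℝ × ℝ × ℝ)) (h δ x : ℝ) :
    comb (p :: l) h δ x = p.1 * ind (p.2.1 * h + p.2.2 * δ) x + comb l h δ x := by
  simp [comb]

lemma comb_nil (h δ x : ℝ) : comb [] h δ x = 0 := by simp [comb]

lemma comb_integrable (l : List (ℝ × ℝ × ℝ)) (h δ : ℝ) : Integrable (comb l h δ) := by
  induction l with
  | nil =>
    have : comb [] h δ = fun _ => 0 := funext fun x => comb_nil h δ x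
    rw [this]
    exact integrable_zero _ _ _
  | cons p l ih =>
    have : comb (p :: l) h δ = fun x => p.1 * ind (p.2.1 * h + p.2.2 * δ) x + comb l h δ x :=
      funext fun x => comb_cons p l h δ x
    rw [this]
    exact ((ind_integrable _).const_mul _).add ih

lemma comb_pow_integrable {α : ℝ} (hα : 0 < α) (l : List (ℝ × ℝ × ℝ)) (h δ : ℝ) :
    Integrable fun x => |x| ^ α * comb l h δ x := by
  induction l with
  | nil =>
    simp only [comb_nil, mul_zero]
    exact integrable_zero _ _ _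
  | cons p l ih =>
    have : (fun x => |x| ^ α * comb (p :: l) h δ x) =
        fun x => p.1 * (|x| ^ α * ind (p.2.1 * h + p.2.2 * δ) x) + |x| ^ α * comb l h δ x := by
      funext x
      rw [comb_cons]
      ring
    rw [this]
    exact ((pow_ind_integrable hα).const_mul _).add ih

lemma integral_comb (l : List (ℝ × ℝ × ℝ)) (h δ : ℝ)
    (hl : ∀ p ∈ l, 0 ≤ p.2.1 * h + p.2.2 * δ) :
    ∫ x, comb l h δ x = (l.map fun p => p.1 * (2 * (p.2.1 * h + p.2.2 * δ))).sum := by
  induction l with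
  | nil => simp [comb_nil]
  | cons p l ih =>
    have : comb (p :: l) h δ = fun x => p.1 * ind (p.2.1 * h + p.2.2 * δ) x + comb l h δ x :=
      funext fun x => comb_cons p l h δ x
    rw [this, integral_add ((ind_integrable _).const_mul _) (comb_integrable l h δ),
      integral_const_mul, integral_ind (hl p (by simp)), ih (fun q hq => hl q (by simp [hq]))]
    simp

lemma integral_pow_comb {α : ℝ} (hα : 0 < α) (l : List (ℝ × ℝ × ℝ)) (h δ : ℝ)
    (hl : ∀ p ∈ l, 0 ≤ p.2.1 * h + p.2.2 * δ) :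
    ∫ x, |x| ^ α * comb l h δ x =
      2 / (α + 1) * (l.map fun p => p.1 * (p.2.1 * h + p.2.2 * δ) ^ (α + 1)).sum := by
  induction l with
  | nil => simp [comb_nil]
  | cons p l ih =>
    have : (fun x => |x| ^ α * comb (p :: l) h δ x) =
        fun x => p.1 * (|x| ^ α * ind (p.2.1 * h + p.2.2 * δ) x) + |x| ^ α * comb l h δ x := by
      funext x
      rw [comb_cons]
      ring
    rw [this, integral_add ((pow_ind_integrable hα).const_mul _) (comb_pow_integrable hα l h δ),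
      integral_const_mul, integral_pow_ind (hl p (by simp)) hα,
      ih (fun q hq => hl q (by simp [hq]))]
    simp only [List.map_cons, List.sum_cons]
    ring

lemma fourier_comb (l : List (ℝ × ℝ × ℝ)) (h δ : ℝ)
    (hl : ∀ p ∈ l, 0 ≤ p.2.1 * h + p.2.2 * δ) (ξ : ℝ) :
    (ξ : ℂ) * 𝓕 (fun x => (comb l h δ x : ℂ)) ξ =
      (((l.map fun p => p.1 * Real.sin (2 * Real.pi * ξ * (p.2.1 * h + p.2.2 * δ))).sum /
        Real.pi : ℝ) : ℂ) := by
  induction l with
  | nil => simp [comb_nil, Real.fourier_eq]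
  | cons p l ih =>
    have e1 : 𝓕 (fun x => (comb (p :: l) h δ x : ℂ)) ξ =
        (p.1 : ℂ) * 𝓕 (fun x => (ind (p.2.1 * h + p.2.2 * δ) x : ℂ)) ξ +
          𝓕 (fun x => (comb l h δ x : ℂ)) ξ := by
      have hi1 : Integrable (fun x => (ind (p.2.1 * h + p.2.2 * δ) x : ℂ)) :=
        (ind_integrable _).ofReal
      have hi2 : Integrable (fun x => (comb l h δ x : ℂ)) := (comb_integrable l h δ).ofReal
      rw [Real.fourier_eq, Real.fourier_eq, Real.fourier_eq, ← integral_const_mul,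
        ← integral_add]
      · apply integral_congr_ae
        apply Filter.Eventually.of_forall
        intro x
        simp only [comb_cons]
        push_cast
        rw [smul_add]
        congr 1
        rw [mul_smul_comm]
      · exact ((Real.fourierIntegral_convergent_iff ξ).mpr hi1).const_mul _
      · exact (Real.fourierIntegral_convergent_iff ξ).mpr hi2
    rw [e1, mul_add, ih (fun q hq => hl q (by simp [hq]))]
    have e2 : (ξ : ℂ) * ((p.1 : ℂ) * 𝓕 (fun x => (ind (p.2.1 * h + p.2.2 * δ) x : ℂ)) ξ) =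
        (p.1 : ℂ) * ((ξ : ℂ) * 𝓕 (fun x => (ind (p.2.1 * h + p.2.2 * δ) x : ℂ)) ξ) := by ring
    rw [e2, fourier_ind (hl p (by simp))]
    simp only [List.map_cons, List.sum_cons]
    push_cast
    ring

lemma LL_nonneg {h δ : ℝ} (hδ : 0 < δ) (h1 : 16 * δ ≤ h) :
    ∀ p ∈ LL, 0 ≤ p.2.1 * h + p.2.2 * δ := by
  intro p hp
  unfold LL at hp
  simp only [List.mem_cons, List.not_mem_nil, or_false] at hp
  rcases hp with rfl | rfl | rfl | rfl | rfl | rfl | rfl | rfl | rfl | rfl | rfl | rfl | rfl | rfl | rfl | rfl | rfl | rfl | rfl | rfl | rfl | rfl | rfl | rfl | rfl | rfl | rfl <;>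
    (simp only; linarith)

/-- the Fejér factor -/
noncomputable def Kf (θ : ℝ) : ℝ := ((4 * Real.cos (4 * θ) ^ 2 + 2 * Real.cos (4 * θ) - 1) / 5) ^ 2

/-- the odd polynomial -/
noncomputable def Pf (θ : ℝ) : ℝ := Real.sin θ + (1 / 3) * Real.sin (3 * θ)

lemma Kf_nonneg (θ : ℝ) : 0 ≤ Kf θ := by unfold Kf; positivity

lemma Kf_le_one (θ : ℝ) : Kf θ ≤ 1 := by
  unfold Kf
  have h1 := Real.neg_one_le_cos (4 * θ)
  have h2 := Real.cos_le_one (4 * θ)
  rw [sq_le_one_iff_abs_le_one, abs_le]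
  constructor
  · nlinarith [sq_nonneg (4 * Real.cos (4 * θ) + 1)]
  · nlinarith [sq_nonneg (Real.cos (4 * θ))]

lemma Pf_bound (θ : ℝ) : |Pf θ| ≤ 1 := by
  unfold Pf
  rw [Real.sin_three_mul]
  have h1 := Real.neg_one_le_sin θ
  have h2 := Real.sin_le_one θ
  set s := Real.sin θ
  have h3 : (s + 1 / 3 * (3 * s - 4 * s ^ 3)) ^ 2 ≤ 1 := by
    have h4 : s ^ 2 ≤ 1 := by nlinarith
    nlinarith [mul_nonneg (sq_nonneg (1 - 2 * s ^ 2)) (show 0 ≤ 1 - s ^ 2 / 2 by nlinarith)]
  exact (sq_le_one_iff_abs_le_one _).mp h3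

/-- the identity for the transform -/
lemma psi_identity (h δ ξ : ℝ) :
    (LL.map fun p => p.1 * Real.sin (2 * Real.pi * ξ * (p.2.1 * h + p.2.2 * δ))).sum =
      Real.sin (2 * Real.pi * ξ * h) * Kf (2 * Real.pi * ξ * δ) -
        Pf (2 * Real.pi * ξ * δ) * (1 - Kf (2 * Real.pi * ξ * δ)) := by
  set A := 2 * Real.pi * ξ * h with hA
  set θ := 2 * Real.pi * ξ * δ with hθ
  have hgen : ∀ a k : ℝ, 2 * Real.pi * ξ * (a * h + k * δ) = a * A + k * θ := by
    intro a k
    rw [hA, hθ]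
    ring
  simp only [hgen]
  unfold LL
  simp only [List.map_cons, List.map_nil, List.sum_cons, List.sum_nil]
  have c2 : Real.cos (8 * θ) = 2 * Real.cos (4 * θ) ^ 2 - 1 := by
    rw [← Real.cos_two_mul]; ring_nf
  have c3 : Real.cos (12 * θ) = 4 * Real.cos (4 * θ) ^ 3 - 3 * Real.cos (4 * θ) := by
    rw [← Real.cos_three_mul]; ring_nf
  have c4 : Real.cos (16 * θ) = 2 * (2 * Real.cos (4 * θ) ^ 2 - 1) ^ 2 - 1 := by
    rw [← c2, ← Real.cos_two_mul]; ring_nf
  have sA : ∀ k : ℝ, Real.sin (1 * A + k * θ) + Real.sin (1 * A + -k * θ) =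
      2 * Real.sin A * Real.cos (k * θ) := by
    intro k
    have e1 : 1 * A + k * θ = A + k * θ := by ring
    have e2 : 1 * A + -k * θ = A - k * θ := by ring
    rw [e1, e2, Real.sin_add, Real.sin_sub]
    ring
  have sj : ∀ j k : ℝ, Real.sin ((k + j) * θ) - Real.sin ((k - j) * θ) =
      2 * Real.sin (j * θ) * Real.cos (k * θ) := by
    intro j k
    have e1 : (k + j) * θ = k * θ + j * θ := by ring
    have e2 : (k - j) * θ = k * θ - j * θ := by ring
    rw [e1, e2, Real.sin_add, Real.sin_sub]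
    ring
  have a4 := sA 4
  have a8 := sA 8
  have a12 := sA 12
  have a16 := sA 16
  have b14 := sj 1 4
  have b18 := sj 1 8
  have b112 := sj 1 12
  have b116 := sj 1 16
  have b34 := sj 3 4
  have b38 := sj 3 8
  have b312 := sj 3 12
  have b316 := sj 3 16
  norm_num at a4 a8 a12 a16 b14 b18 b112 b116 b34 b38 b312 b316
  rw [c2] at a8 b18 b38
  rw [c3] at a12 b112 b312
  rw [c4] at a16 b116 b316
  unfold Kf Pf
  norm_num
  linear_combination (4 / 25 : ℝ) * a4 + (3 / 25) * a8 + (2 / 25) * a12 + (1 / 25) * a16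
    + (4 / 25) * b14 + (3 / 25) * b18 + (2 / 25) * b112 + (1 / 25) * b116
    + (4 / 75) * b34 + (3 / 75) * b38 + (2 / 75) * b312 + (1 / 75) * b316

lemma psi_bound (h δ ξ : ℝ) :
    |(LL.map fun p => p.1 * Real.sin (2 * Real.pi * ξ * (p.2.1 * h + p.2.2 * δ))).sum| ≤ 1 := by
  rw [psi_identity]
  set K := Kf (2 * Real.pi * ξ * δ)
  set P := Pf (2 * Real.pi * ξ * δ)
  have hK0 : 0 ≤ K := Kf_nonneg _
  have hK1 : K ≤ 1 := Kf_le_one _
  have hP : |P| ≤ 1 := Pf_bound _
  have hs : |Real.sin (2 * Real.pi * ξ * h)| ≤ 1 := Real.abs_sin_le_one _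
  calc |Real.sin (2 * Real.pi * ξ * h) * K - P * (1 - K)|
      ≤ |Real.sin (2 * Real.pi * ξ * h) * K| + |P * (1 - K)| := abs_sub _ _
    _ = |Real.sin (2 * Real.pi * ξ * h)| * K + |P| * (1 - K) := by
        rw [abs_mul, abs_mul, abs_of_nonneg hK0, abs_of_nonneg (show 0 ≤ 1 - K by linarith)]
    _ ≤ 1 * K + 1 * (1 - K) := by
        gcongr
    _ = 1 := by ring

/-- the moment function `S(ρ)` (list version) -/
noncomputable def Sl (α : ℝ) (l : List (ℝ × ℝ × ℝ)) (ρ : ℝ) : ℝ :=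
  (l.map fun p => p.1 * (p.2.1 + p.2.2 * ρ) ^ (α + 1)).sum

lemma Sl_deriv {α : ℝ} (hα : 0 < α) (l : List (ℝ × ℝ × ℝ)) :
    HasDerivAt (Sl α l) ((l.map fun p => p.1 * ((α + 1) * p.2.1 ^ α * p.2.2)).sum) 0 := by
  induction l with
  | nil =>
    have : Sl α [] = fun _ => 0 := by funext ρ; simp [Sl]
    rw [this]
    simpa using hasDerivAt_const (0 : ℝ) (0 : ℝ)
  | cons p l ih =>
    have : Sl α (p :: l) = fun ρ => p.1 * (p.2.1 + p.2.2 * ρ) ^ (α + 1) + Sl α l ρ := by
      funext ρ; simp [Sl]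
    rw [this]
    simp only [List.map_cons, List.sum_cons]
    apply HasDerivAt.add _ ih
    apply HasDerivAt.const_mul
    have h1 : HasDerivAt (fun ρ : ℝ => p.2.1 + p.2.2 * ρ) p.2.2 0 := by
      simpa using ((hasDerivAt_id (0 : ℝ)).const_mul p.2.2).const_add p.2.1
    have h2 : HasDerivAt (fun y : ℝ => y ^ (α + 1)) ((α + 1) * p.2.1 ^ α)
        (p.2.1 + p.2.2 * 0) := by
      have := Real.hasDerivAt_rpow_const (x := p.2.1 + p.2.2 * 0) (p := α + 1)
        (Or.inr (by linarith))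
      simpa using this
    exact h2.comp (0 : ℝ) h1

lemma Sl_LL_zero {α : ℝ} (hα : 0 < α) : Sl α LL 0 = 1 := by
  unfold Sl LL
  simp only [List.map_cons, List.map_nil, List.sum_cons, List.sum_nil, mul_zero, add_zero,
    Real.one_rpow, Real.zero_rpow (show α + 1 ≠ 0 by linarith)]
  norm_num

lemma Sl_LL_deriv {α : ℝ} (hα : 0 < α) : HasDerivAt (Sl α LL) 0 0 := by
  have h := Sl_deriv hα LL
  have e : (LL.map fun p => p.1 * ((α + 1) * p.2.1 ^ α * p.2.2)).sum = 0 := by
    unfold LL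
    simp only [List.map_cons, List.map_nil, List.sum_cons, List.sum_nil, Real.one_rpow,
      Real.zero_rpow hα.ne']
    ring
  rwa [e] at h

/-- the strict inequality for small `ρ` -/
lemma exists_rho {α : ℝ} (hα : 0 < α) : ∃ ρ : ℝ, 0 < ρ ∧ ρ ≤ 1 / 35 ∧
    Sl α LL ρ + (2 / 15) * ρ ^ (α + 1) < (1 + (2 / 15) * ρ) ^ (α + 1) := by
  have h1 : HasDerivAt (fun ρ : ℝ => 1 + (α + 1) * ((2 / 15) * ρ) -
      (Sl α LL ρ + (2 / 15) * ρ ^ (α + 1))) ((α + 1) * (2 / 15)) 0 := by
    have a1 : HasDerivAt (fun ρ : ℝ => 1 + (α + 1) * ((2 / 15) * ρ)) ((α + 1) * (2 / 15)) 0 := by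
      have := (((hasDerivAt_id (0 : ℝ)).const_mul (2 / 15 : ℝ)).const_mul (α + 1)).const_add 1
      simpa using this
    have a2 : HasDerivAt (fun ρ : ℝ => (2 / 15 : ℝ) * ρ ^ (α + 1)) 0 0 := by
      have := (Real.hasDerivAt_rpow_const (x := 0) (p := α + 1)
        (Or.inr (by linarith))).const_mul (2 / 15 : ℝ)
      have e : (2 / 15 : ℝ) * ((α + 1) * 0 ^ (α + 1 - 1)) = 0 := by
        rw [show α + 1 - 1 = α by ring, Real.zero_rpow hα.ne']
        ring
      rwa [e] at this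
    have a3 := a1.sub ((Sl_LL_deriv hα).add a2)
    have e : (α + 1) * (2 / 15 : ℝ) - (0 + 0) = (α + 1) * (2 / 15) := by ring
    rw [e] at a3
    exact a3
  have hpos : 0 < (α + 1) * (2 / 15 : ℝ) := by positivity
  have h2 := (hasDerivAt_iff_tendsto_slope.mp h1).eventually (lt_mem_nhds hpos)
  have h3 : ∀ᶠ ρ in nhdsWithin (0 : ℝ) (Ioi 0), 0 < slope (fun ρ : ℝ =>
      1 + (α + 1) * ((2 / 15) * ρ) - (Sl α LL ρ + (2 / 15) * ρ ^ (α + 1))) 0 ρ :=
    h2.filter_mono (nhdsWithin_mono 0 (fun x hx => ne_of_gt hx))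
  have h4 : ∀ᶠ ρ in nhdsWithin (0 : ℝ) (Ioi 0), ρ < 1 / 35 := by
    exact mem_nhdsWithin_of_mem_nhds (Iio_mem_nhds (by norm_num))
  obtain ⟨ρ, hρ1, hρ2, hρ3⟩ := (h3.and (h4.and self_mem_nhdsWithin)).exists
  have hρ0 : 0 < ρ := hρ3
  refine ⟨ρ, hρ0, hρ2.le, ?_⟩
  rw [slope_def_field, sub_zero] at hρ1
  have h5 : (0 : ℝ) ^ (α + 1) = 0 := Real.zero_rpow (by linarith)
  have h6 : 0 < (1 + (α + 1) * ((2 / 15) * ρ) - (Sl α LL ρ + (2 / 15) * ρ ^ (α + 1))) := by
    have h7 := (div_pos_iff_of_pos_right hρ0).mp hρ1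
    simp only [Sl_LL_zero hα, h5, mul_zero, add_zero, sub_self, sub_zero] at h7
    exact h7
  have h8 : 1 + (α + 1) * ((2 / 15) * ρ) ≤ (1 + (2 / 15) * ρ) ^ (α + 1) :=
    one_add_mul_self_le_rpow_one_add (by linarith) (by linarith)
  linarith

end Pool.Agent.Q84.StepU
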