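import Mathlib

/-! Bounded continuous functions with compact spectrum: reproducing formula and Bernstein type
bounds for all derivatives along a line. -/

set_option autoImplicit false
open Complex Filter Topology MeasureTheory FourierTransform
open scoped InnerProductSpace SchwartzMap ENNReal ContDiff

namespace Q84.TW

variable {E : Type*} [NormedAddCommGroup E] [InnerProductSpace ℝ E] [FiniteDimensional ℝ E]
  [MeasurableSpace E] [BorelSpace E]

/-- the spectrum of `h` lies in the closed ball of radius `N` -/
def Spec (N : ℝ) (h : E → ℂ) : Prop :=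
  ∀ φ : 𝓢(E, ℂ), (∀ ξ, ‖ξ‖ ≤ N → φ ξ = 0) → ∫ x, h x * 𝓕 φ x = 0

lemma bdd_mul_integrable {F k : E → ℂ} (hF : Continuous F) {C : ℝ} (hC : ∀ x, ‖F x‖ ≤ C)
    (hk : Integrable k) : Integrable fun x => F x * k x :=
  hk.bdd_mul (c := C) hF.aestronglyMeasurable (Eventually.of_forall hC)

/-- the Fourier transform of `χ · 𝓕⁻ ψ` as a convolution -/
lemma fourier_cut (χ ψ : 𝓢(E, ℂ)) (z : E) :
    𝓕 (fun ξ => χ ξ * (𝓕⁻ ψ) ξ) z = ∫ w, ψ w * 𝓕 χ (z - w) := by
  have key := VectorFourier.integral_fourierIntegral_smul_eq_flip (L := -(innerₗ E))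
    (e := Real.fourierChar) (f := (ψ : E → ℂ))
    (g := fun ξ => (Real.fourierChar (-⟪ξ, z⟫_ℝ)) • χ ξ) (μ := volume) (ν := volume)
    Real.continuous_fourierChar (show Continuous fun p : E × E => -(⟪p.1, p.2⟫_ℝ) from
      (continuous_inner (𝕜 := ℝ) (E := E)).neg)
    ψ.integrable ?_
  · rw [Real.fourier_eq]
    have e1 : ∀ ξ, VectorFourier.fourierIntegral Real.fourierChar volume (-(innerₗ E))
        (ψ : E → ℂ) ξ = (𝓕⁻ ψ) ξ := by
      intro ξ
      rw [SchwartzMap.fourierInv_coe, Real.fourierInv_eq]
      simp [VectorFourier.fourierIntegral]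
    have e2 : ∀ w, VectorFourier.fourierIntegral Real.fourierChar volume (-(innerₗ E)).flip
        (fun ξ => (Real.fourierChar (-⟪ξ, z⟫_ℝ)) • χ ξ) w = 𝓕 χ (z - w) := by
      intro w
      rw [SchwartzMap.fourier_coe, Real.fourier_eq]
      simp only [VectorFourier.fourierIntegral]
      apply integral_congr_ae
      filter_upwards with ξ
      rw [smul_smul, ← AddChar.map_add_eq_mul]
      congr 2
      simp [inner_sub_right, real_inner_comm]
      ring
    calc ∫ v, Real.fourierChar (-⟪v, z⟫_ℝ) • (χ v * (𝓕⁻ ψ) v)
        = ∫ ξ, VectorFourier.fourierIntegral Real.fourierChar volume (-(innerₗ E))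
          (ψ : E → ℂ) ξ • ((Real.fourierChar (-⟪ξ, z⟫_ℝ)) • χ ξ) := by
          apply integral_congr_ae
          filter_upwards with ξ
          rw [e1, Circle.smul_def, Circle.smul_def, smul_eq_mul, smul_eq_mul, smul_eq_mul]
          ring
      _ = ∫ w, ψ w • VectorFourier.fourierIntegral Real.fourierChar volume (-(innerₗ E)).flip
          (fun ξ => (Real.fourierChar (-⟪ξ, z⟫_ℝ)) • χ ξ) w := key
      _ = ∫ w, ψ w * 𝓕 χ (z - w) := by
          apply integral_congr_ae
          filter_upwards with w
          rw [e2, smul_eq_mul]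
  · refine (χ.integrable (μ := volume)).mono ?_ ?_
    · apply Continuous.aestronglyMeasurable
      have : Continuous fun ξ : E => (Real.fourierChar (-⟪ξ, z⟫_ℝ) : Circle) :=
        Real.continuous_fourierChar.comp (by fun_prop)
      exact this.smul χ.continuous
    · filter_upwards with ξ
      rw [Circle.norm_smul]

/-- reproducing formula -/
lemma exists_repr {F : E → ℂ} (hF : Continuous F) {C : ℝ} (hC : ∀ x, ‖F x‖ ≤ C) {N : ℝ}
    (k : 𝓢(E, ℂ)) (χ : 𝓢(E, ℂ)) (hχ : ∀ ξ, ‖ξ‖ ≤ N → χ ξ = 1)
    (hk : k = 𝓕 χ) (hS : Spec N F) (w : E) : F w = ∫ z, F (w + z) * k z := by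
  have hH : Continuous fun w => ∫ z, F (w + z) * k z := by
    apply continuous_of_dominated (bound := fun z => C * ‖k z‖)
    · intro w
      exact ((hF.comp (by fun_prop)).mul k.continuous).aestronglyMeasurable
    · intro w
      filter_upwards with z
      rw [norm_mul]
      exact mul_le_mul_of_nonneg_right (hC _) (norm_nonneg _)
    · exact k.integrable.norm.const_mul C
    · filter_upwards with z
      exact (hF.comp (by fun_prop)).mul continuous_const
  have main : F =ᵐ[volume] fun w => ∫ z, F (w + z) * k z := by
    apply ae_eq_of_integral_contDiff_smul_eq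
    · exact hF.locallyIntegrable
    · exact hH.locallyIntegrable
    · intro g g_smooth g_cpt
      have hg₁ : HasCompactSupport (Complex.ofRealCLM ∘ g) := g_cpt.comp_left rfl
      have hg₂ : ContDiff ℝ ∞ (Complex.ofRealCLM ∘ g) := by fun_prop
      set ψ : 𝓢(E, ℂ) := hg₁.toSchwartzMap hg₂ with hψ
      have hψg : ∀ x, ψ x = g x := fun x => by simp [hψ]
      have hχt : Function.HasTemperateGrowth (χ : E → ℂ) := χ.hasTemperateGrowth
      have h1 := hS ((𝓕⁻ ψ) - SchwartzMap.smulLeftCLM ℂ χ (𝓕⁻ ψ)) (by
        intro ξ hξ
        rw [sub_apply, SchwartzMap.smulLeftCLM_apply_apply hχt, hχ ξ hξ, one_smul,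
          sub_self])
      have h2 : ∀ x, 𝓕 ((𝓕⁻ ψ) - SchwartzMap.smulLeftCLM ℂ χ (𝓕⁻ ψ)) x =
          ψ x - ∫ w, ψ w * k (x - w) := by
        intro x
        rw [sub_eq_add_neg, FourierTransform.fourier_add, FourierTransform.fourier_neg, ← sub_eq_add_neg, sub_apply, FourierTransform.fourier_fourierInv_eq]
        congr 1
        rw [SchwartzMap.fourier_coe, SchwartzMap.smulLeftCLM_apply hχt, hk]
        exact fourier_cut χ ψ x
      simp_rw [h2] at h1
      have i0 : Integrable fun p : E × E => F p.1 * (ψ p.2 * k (p.1 - p.2)) := by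
        have := (ψ.integrable (μ := volume)).convolution_integrand (ContinuousLinearMap.mul ℂ ℂ)
          (k.integrable (μ := volume))
        refine this.bdd_mul (c := C) ?_ (Eventually.of_forall fun p => hC _)
        exact (hF.comp continuous_fst).aestronglyMeasurable
      have i1 : Integrable fun x => F x * ψ x := bdd_mul_integrable hF hC ψ.integrable
      have i2 : Integrable fun x => F x * ∫ w, ψ w * k (x - w) := by
        have := i0.integral_prod_left
        refine this.congr (Eventually.of_forall fun x => ?_)
        simp only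
        rw [integral_const_mul]
      have h3 : ∫ x, F x * ψ x = ∫ x, F x * ∫ w, ψ w * k (x - w) := by
        rw [← sub_eq_zero, ← integral_sub i1 i2, ← h1]
        apply integral_congr_ae
        filter_upwards with x
        ring
      have h4 : ∫ x, F x * ∫ w, ψ w * k (x - w) = ∫ w, ψ w * ∫ z, F (w + z) * k z := by
        calc ∫ x, F x * ∫ w, ψ w * k (x - w) = ∫ x, ∫ w, F x * (ψ w * k (x - w)) := by
              apply integral_congr_ae
              filter_upwards with x
              rw [integral_const_mul]
          _ = ∫ w, ∫ x, F x * (ψ w * k (x - w)) := integral_integral_swap i0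
          _ = ∫ w, ψ w * ∫ z, F (w + z) * k z := by
              apply integral_congr_ae
              filter_upwards with w
              rw [← integral_const_mul, ← integral_add_left_eq_self _ w]
              apply integral_congr_ae
              filter_upwards with z
              rw [add_sub_cancel_left]
              ring
      calc ∫ x, g x • F x = ∫ x, F x * ψ x := by
            apply integral_congr_ae
            filter_upwards with x
            rw [hψg, Complex.real_smul, mul_comm]
        _ = _ := h3
        _ = _ := h4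
        _ = _ := by
            apply integral_congr_ae
            filter_upwards with x
            rw [hψg, Complex.real_smul]
  have := (Continuous.ae_eq_iff_eq volume hF hH).1 main
  exact congrFun this w

/-- continuous, bounded by `C`, reproduced by `k` -/
structure Good (k : 𝓢(E, ℂ)) (C : ℝ) (f : E → ℂ) : Prop where
  cont : Continuous f
  bdd : ∀ x, ‖f x‖ ≤ C
  rep : ∀ w, f w = ∫ z, f (w + z) * k z

/-- the operator giving the derivative -/
noncomputable def T (K : 𝓢(E, ℂ)) (f : E → ℂ) (w : E) : ℂ := ∫ z, f (w + z) * K z

lemma T_cont {f : E → ℂ} (hf : Continuous f) {C : ℝ} (hC : ∀ x, ‖f x‖ ≤ C) (K : 𝓢(E, ℂ)) :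
    Continuous (T K f) := by
  apply continuous_of_dominated (bound := fun z => C * ‖K z‖)
  · intro w
    exact ((hf.comp (by fun_prop)).mul K.continuous).aestronglyMeasurable
  · intro w
    filter_upwards with z
    rw [norm_mul]
    exact mul_le_mul_of_nonneg_right (hC _) (norm_nonneg _)
  · exact K.integrable.norm.const_mul C
  · filter_upwards with z
    exact (hf.comp (by fun_prop)).mul continuous_const

lemma T_bdd {f : E → ℂ} {C : ℝ} (hC : ∀ x, ‖f x‖ ≤ C) (K : 𝓢(E, ℂ)) (w : E) :
    ‖T K f w‖ ≤ C * ∫ z, ‖K z‖ := by
  rw [← integral_const_mul]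
  apply norm_integral_le_of_norm_le (K.integrable.norm.const_mul C)
  filter_upwards with z
  rw [norm_mul]
  exact mul_le_mul_of_nonneg_right (hC _) (norm_nonneg _)

lemma T_comm {f : E → ℂ} (hf : Continuous f) {C : ℝ} (hC : ∀ x, ‖f x‖ ≤ C) (K k : 𝓢(E, ℂ)) :
    T K (T k f) = T k (T K f) := by
  ext w
  have i0 : Integrable fun p : E × E => f (w + p.1 + p.2) * (K p.1 * k p.2) := by
    refine ((K.integrable (μ := volume)).mul_prod (k.integrable (μ := volume))).bdd_mul (c := C)
      ?_ (Eventually.of_forall fun p => hC _)
    exact (hf.comp (by fun_prop)).aestronglyMeasurable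
  calc T K (T k f) w = ∫ x, ∫ y, f (w + x + y) * (K x * k y) := by
        apply integral_congr_ae
        filter_upwards with x
        rw [T, ← integral_mul_const]
        apply integral_congr_ae
        filter_upwards with y
        ring
    _ = ∫ y, ∫ x, f (w + x + y) * (K x * k y) := integral_integral_swap i0
    _ = T k (T K f) w := by
        apply integral_congr_ae
        filter_upwards with y
        rw [T, ← integral_mul_const]
        apply integral_congr_ae
        filter_upwards with x
        rw [show w + x + y = w + y + x by abel]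
        ring

lemma Good.T {k : 𝓢(E, ℂ)} {C : ℝ} {f : E → ℂ} (h : Good k C f) (K : 𝓢(E, ℂ)) :
    Good k (C * ∫ z, ‖K z‖) (T K f) := by
  refine ⟨T_cont h.cont h.bdd K, T_bdd h.bdd K, fun w => ?_⟩
  have e : TW.T k f = f := by
    ext w
    exact (h.rep w).symm
  have := congrFun (T_comm h.cont h.bdd K k) w
  rw [e] at this
  exact this

open LineDeriv in
lemma Good.hasDerivAt {k : 𝓢(E, ℂ)} {C : ℝ} {f : E → ℂ} (h : Good k C f) (w v : E) (t : ℝ) :
    HasDerivAt (fun t : ℝ => f (w + t • v)) (TW.T (-(∂_{v} k)) f (w + t • v)) t := by
  set K : 𝓢(E, ℂ) := -(∂_{v} k) with hK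
  have hTc := T_cont h.cont h.bdd K
  have hdk : ∀ (z : E) (s : ℝ), HasDerivAt (fun s : ℝ => k (z - s • v)) (K (z - s • v)) s := by
    intro z s
    have h1 : HasFDerivAt (k : E → ℂ) (fderiv ℝ k (z - s • v)) (z - s • v) :=
      k.differentiableAt.hasFDerivAt
    have h2 : HasDerivAt (fun s : ℝ => z - s • v) (-v) s := by
      simpa using ((hasDerivAt_id s).smul_const v).const_sub z
    have h3 := h1.comp_hasDerivAt s h2
    have h4 : K (z - s • v) = (fderiv ℝ (k : E → ℂ) (z - s • v)) (-v) := by
      rw [hK, neg_apply, SchwartzMap.lineDerivOp_apply_eq_fderiv]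
      simp
    rw [h4]
    exact h3
  have key : ∀ t : ℝ, f (w + t • v) - f w = ∫ s in (0 : ℝ)..t, TW.T K f (w + s • v) := by
    intro t
    have e1 : f (w + t • v) = ∫ z, f (w + z) * k (z - t • v) := by
      rw [h.rep, ← integral_add_right_eq_self (fun z => f (w + z) * k (z - t • v)) (t • v)]
      apply integral_congr_ae
      filter_upwards with z
      rw [add_sub_cancel_right, add_assoc w, add_comm (t • v)]
    have hkt : Integrable fun z => f (w + z) * k (z - t • v) :=
      bdd_mul_integrable (h.cont.comp (by fun_prop)) (fun x => h.bdd _)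
        ((k.integrable (μ := volume)).comp_sub_right (t • v))
    have hk0 : Integrable fun z => f (w + z) * k z :=
      bdd_mul_integrable (h.cont.comp (by fun_prop)) (fun x => h.bdd _)
        (k.integrable (μ := volume))
    have e2 : ∀ z, k (z - t • v) - k z = ∫ s in (0 : ℝ)..t, K (z - s • v) := by
      intro z
      rw [intervalIntegral.integral_eq_sub_of_hasDerivAt (fun s _ => hdk z s)]
      · simp
      · exact (K.continuous.comp (by fun_prop)).intervalIntegrable _ _
    have i0 : Integrable (Function.uncurry fun (s : ℝ) (z : E) => f (w + z) * K (z - s • v))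
        ((volume.restrict (Set.uIoc 0 t)).prod volume) := by
      have hm : AEStronglyMeasurable
          (Function.uncurry fun (s : ℝ) (z : E) => f (w + z) * K (z - s • v))
          ((volume.restrict (Set.uIoc 0 t)).prod volume) := by
        apply Continuous.aestronglyMeasurable
        exact (h.cont.comp (by fun_prop)).mul (K.continuous.comp (by fun_prop))
      have hb : ∀ (s : ℝ) (z : E), ‖f (w + z) * K (z - s • v)‖ ≤ C * ‖K (z - s • v)‖ := by
        intro s z
        rw [norm_mul]
        exact mul_le_mul_of_nonneg_right (h.bdd _) (norm_nonneg _)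
      rw [integrable_prod_iff hm]
      refine ⟨Eventually.of_forall fun s => ?_, ?_⟩
      · exact bdd_mul_integrable (h.cont.comp (by fun_prop)) (fun x => h.bdd _)
          ((K.integrable (μ := volume)).comp_sub_right (s • v))
      · have : IsFiniteMeasure ((volume : Measure ℝ).restrict (Set.uIoc 0 t)) := by
          rw [Set.uIoc]
          infer_instance
        refine Integrable.mono' (integrable_const (C * ∫ z, ‖K z‖)) hm.norm.integral_prod_right'
          (Eventually.of_forall fun s => ?_)
        rw [Real.norm_of_nonneg (integral_nonneg fun _ => norm_nonneg _)]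
        have e3 : ∫ z, ‖K z‖ = ∫ z, ‖K (z - s • v)‖ :=
          (integral_sub_right_eq_self (fun z => ‖K z‖) (s • v)).symm
        rw [e3, ← integral_const_mul]
        apply integral_mono_of_nonneg (Eventually.of_forall fun _ => norm_nonneg _)
        · exact (((K.integrable (μ := volume)).comp_sub_right (s • v)).norm).const_mul C
        · exact Eventually.of_forall fun z => hb s z
    calc f (w + t • v) - f w = ∫ z, f (w + z) * (k (z - t • v) - k z) := by
          rw [e1, h.rep w, ← integral_sub hkt hk0]
          apply integral_congr_ae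
          filter_upwards with z
          ring
      _ = ∫ z, ∫ s in (0 : ℝ)..t, f (w + z) * K (z - s • v) := by
          apply integral_congr_ae
          filter_upwards with z
          rw [e2, intervalIntegral.integral_const_mul]
      _ = ∫ s in (0 : ℝ)..t, ∫ z, f (w + z) * K (z - s • v) :=
          (intervalIntegral_integral_swap i0).symm
      _ = _ := by
          apply intervalIntegral.integral_congr
          intro s _
          simp only
          rw [TW.T, ← integral_add_right_eq_self (fun z => f (w + z) * K (z - s • v)) (s • v)]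
          apply integral_congr_ae
          filter_upwards with z
          rw [add_sub_cancel_right, add_assoc w, add_comm (s • v)]
  have hc : Continuous fun s : ℝ => TW.T K f (w + s • v) := hTc.comp (by fun_prop)
  have h5 : HasDerivAt (fun t : ℝ => ∫ s in (0 : ℝ)..t, TW.T K f (w + s • v))
      (TW.T K f (w + t • v)) t :=
    intervalIntegral.integral_hasDerivAt_right (hc.intervalIntegrable _ _)
      (hc.stronglyMeasurableAtFilter _ _) hc.continuousAt
  have h6 := h5.add_const (f w)
  refine h6.congr_of_eventuallyEq (Eventually.of_forall fun t => ?_)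
  simp only
  rw [← key t]
  ring

end Q84.TW
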