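import Mathlib

/-! Entire extension of functions with geometrically bounded derivatives, and the fact that a
unimodular one is an exponential. -/

set_option autoImplicit false
open Complex Filter Topology MeasureTheory
open scoped ENNReal ContDiff

namespace Q84.TW

/-- Taylor bound on the half line -/
lemma taylor_bound (n : ℕ) : ∀ (u : ℕ → ℝ → ℂ) (_ : ∀ j t, HasDerivAt (u j) (u (j + 1) t) t)
    (M c : ℝ) (_ : 0 ≤ M) (_ : 0 ≤ c) (_ : ∀ j t, ‖u j t‖ ≤ M * c ^ j) (t : ℝ) (_ : 0 ≤ t),
    ‖u 0 t - ∑ j ∈ Finset.range n, u j 0 * (t : ℂ) ^ j / (j.factorial : ℂ)‖ ≤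
      M * (c * t) ^ n / n.factorial := by
  induction n with
  | zero =>
    intro u hd M c hM hc hb t ht
    simpa using hb 0 t
  | succ n ih =>
    intro u hd M c hM hc hb t ht
    have h1 := ih (fun j => u (j + 1)) (fun j t => hd (j + 1) t) (M * c) c (by positivity) hc
      (fun j t => by
        have := hb (j + 1) t
        rw [pow_succ] at this
        calc ‖u (j + 1) t‖ ≤ M * (c ^ j * c) := this
          _ = M * c * c ^ j := by ring)
    have hD : ∀ s : ℝ, HasDerivAt (fun t : ℝ => u 0 t - ∑ j ∈ Finset.range (n + 1),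
        u j 0 * (t : ℂ) ^ j / (j.factorial : ℂ))
        (u 1 s - ∑ j ∈ Finset.range n, u (j + 1) 0 * (s : ℂ) ^ j / (j.factorial : ℂ)) s := by
      intro s
      refine (hd 0 s).sub ?_
      simp_rw [Finset.sum_range_succ' _ n]
      have h0 : HasDerivAt (fun t : ℝ => u 0 0 * (t : ℂ) ^ 0 / ((Nat.factorial 0 : ℕ) : ℂ)) 0 s := by
        simp only [pow_zero, mul_one]
        exact hasDerivAt_const _ _
      rw [← add_zero (∑ j ∈ Finset.range n, u (j + 1) 0 * (s : ℂ) ^ j / (j.factorial : ℂ))]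
      refine HasDerivAt.add ?_ h0
      have h2 : ∀ j ∈ Finset.range n, HasDerivAt (fun t : ℝ => u (j + 1) 0 * (t : ℂ) ^ (j + 1) /
          ((j + 1).factorial : ℂ)) (u (j + 1) 0 * (s : ℂ) ^ j / (j.factorial : ℂ)) s := by
        intro j _
        have h3 : HasDerivAt (fun t : ℝ => ((t : ℂ)) ^ (j + 1)) (((j + 1 : ℕ) : ℂ) * (s : ℂ) ^ j) s := by
          have := (hasDerivAt_pow (j + 1) (s : ℂ)).comp_ofReal
          simpa using this
        have h4 := (h3.const_mul (u (j + 1) 0)).div_const (((j + 1).factorial : ℕ) : ℂ)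
        have h6 : u (j + 1) 0 * (s : ℂ) ^ j / (j.factorial : ℂ) =
            u (j + 1) 0 * (((j + 1 : ℕ) : ℂ) * (s : ℂ) ^ j) / (((j + 1).factorial : ℕ) : ℂ) := by
          rw [Nat.factorial_succ, Nat.cast_mul]
          have : ((j.factorial : ℕ) : ℂ) ≠ 0 := by exact_mod_cast (Nat.factorial_ne_zero j)
          have h5 : (((j + 1 : ℕ)) : ℂ) ≠ 0 := by exact_mod_cast (Nat.succ_ne_zero j)
          field_simp
        rw [h6]
        exact h4
      have := HasDerivAt.fun_sum h2
      exact this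
    -- integrate the bound
    have hB : ∀ s : ℝ, HasDerivAt (fun s : ℝ => M * (c * s) ^ (n + 1) / ((n + 1).factorial : ℝ))
        (M * c * (c * s) ^ n / (n.factorial : ℝ)) s := by
      intro s
      have h3 : HasDerivAt (fun s : ℝ => (c * s) ^ (n + 1)) (((n + 1 : ℕ) : ℝ) * (c * s) ^ n * (c * 1)) s := by
        have := ((hasDerivAt_id s).const_mul c).fun_pow (n + 1)
        simpa using this
      have h4 := (h3.const_mul M).div_const (((n + 1).factorial : ℕ) : ℝ)
      have h6 : M * c * (c * s) ^ n / (n.factorial : ℝ) =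
          M * (((n + 1 : ℕ) : ℝ) * (c * s) ^ n * (c * 1)) / (((n + 1).factorial : ℕ) : ℝ) := by
        rw [Nat.factorial_succ, Nat.cast_mul]
        have : ((n.factorial : ℕ) : ℝ) ≠ 0 := by exact_mod_cast (Nat.factorial_ne_zero n)
        have h5 : (((n + 1 : ℕ)) : ℝ) ≠ 0 := by exact_mod_cast (Nat.succ_ne_zero n)
        field_simp
      rw [h6]
      exact h4
    have := image_norm_le_of_norm_deriv_right_le_deriv_boundary (a := 0) (b := t)
      (f := fun t : ℝ => u 0 t - ∑ j ∈ Finset.range (n + 1),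
        u j 0 * (t : ℂ) ^ j / (j.factorial : ℂ))
      (f' := fun s => u 1 s - ∑ j ∈ Finset.range n, u (j + 1) 0 * (s : ℂ) ^ j / (j.factorial : ℂ))
      (B := fun s : ℝ => M * (c * s) ^ (n + 1) / ((n + 1).factorial : ℝ))
      (B' := fun s => M * c * (c * s) ^ n / (n.factorial : ℝ))
      (fun s _ => (hD s).continuousAt.continuousWithinAt)
      (fun s _ => (hD s).hasDerivWithinAt) (by
        simp [Finset.sum_range_succ'])
      hB (fun s hs => h1 s hs.1) ⟨ht, le_refl t⟩
    exact this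

/-- entire extension -/
lemma exists_entire (u : ℕ → ℝ → ℂ) (hd : ∀ j t, HasDerivAt (u j) (u (j + 1) t) t)
    (M c : ℝ) (hM : 0 ≤ M) (hc : 0 ≤ c) (hb : ∀ j t, ‖u j t‖ ≤ M * c ^ j) :
    ∃ U : ℂ → ℂ, Differentiable ℂ U ∧ (∀ z, ‖U z‖ ≤ M * Real.exp (c * ‖z‖)) ∧
      ∀ t : ℝ, 0 ≤ t → U t = u 0 t := by
  have hs : ∀ r : ℝ, Summable fun j : ℕ => M * (r ^ j / j.factorial) := fun r =>
    (Real.summable_pow_div_factorial r).mul_left M
  have hterm : ∀ (z : ℂ) (j : ℕ), ‖u j 0 * z ^ j / (j.factorial : ℂ)‖ ≤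
      M * ((c * ‖z‖) ^ j / j.factorial) := by
    intro z j
    rw [norm_div, norm_mul, norm_pow, Complex.norm_natCast, mul_pow]
    have := hb j 0
    calc ‖u j 0‖ * ‖z‖ ^ j / (j.factorial : ℝ) ≤ (M * c ^ j) * ‖z‖ ^ j / (j.factorial : ℝ) := by
          gcongr
      _ = _ := by ring
  refine ⟨fun z => ∑' j, u j 0 * z ^ j / (j.factorial : ℂ), ?_, ?_, ?_⟩
  · intro z
    have h := differentiableOn_tsum_of_summable_norm (U := Metric.ball 0 (‖z‖ + 1))
      (F := fun (j : ℕ) (z : ℂ) => u j 0 * z ^ j / (j.factorial : ℂ)) (hs (c * (‖z‖ + 1)))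
      (fun j => by fun_prop) Metric.isOpen_ball (by
        intro j w hw
        refine (hterm w j).trans ?_
        have : ‖w‖ ≤ ‖z‖ + 1 := by
          rw [mem_ball_zero_iff] at hw
          exact hw.le
        gcongr)
    apply h.differentiableAt
    apply Metric.isOpen_ball.mem_nhds
    rw [mem_ball_zero_iff]
    linarith
  · intro z
    have h1 : Summable fun j : ℕ => ‖u j 0 * z ^ j / (j.factorial : ℂ)‖ :=
      (hs (c * ‖z‖)).of_nonneg_of_le (fun _ => norm_nonneg _) (hterm z)
    refine (norm_tsum_le_tsum_norm h1).trans ((h1.tsum_le_tsum (hterm z) (hs _)).trans ?_)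
    rw [tsum_mul_left, Real.exp_eq_exp_ℝ, NormedSpace.exp_eq_tsum_div]
  · intro t ht
    have h1 : Summable fun j : ℕ => u j 0 * (t : ℂ) ^ j / (j.factorial : ℂ) :=
      Summable.of_norm ((hs (c * ‖(t : ℂ)‖)).of_nonneg_of_le (fun _ => norm_nonneg _)
        (hterm (t : ℂ)))
    refine tendsto_nhds_unique h1.hasSum.tendsto_sum_nat ?_
    rw [tendsto_iff_norm_sub_tendsto_zero]
    have h2 : Tendsto (fun n : ℕ => M * (c * t) ^ n / n.factorial) atTop (𝓝 0) := by
      have := (FloorSemiring.tendsto_pow_div_factorial_atTop (c * t)).const_mul M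
      rw [mul_zero] at this
      refine this.congr fun n => ?_
      ring
    refine squeeze_zero (fun _ => norm_nonneg _) (fun n => ?_) h2
    rw [norm_sub_rev]
    exact taylor_bound n u hd M c hM hc hb t ht

/-- an entire function of exponential type without zeros is an exponential -/
lemma eq_exp {U V : ℂ → ℂ} (hU : Differentiable ℂ U) (hV : Differentiable ℂ V) {M c : ℝ}
    (hM : 1 ≤ M) (hc : 0 ≤ c) (hb : ∀ z, ‖U z‖ ≤ M * Real.exp (c * ‖z‖)) (hUV : ∀ z, U z * V z = 1) :
    ∃ b : ℂ, ∀ z, U z = U 0 * Complex.exp (b * z) := by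
  have hU0 : ∀ z, U z ≠ 0 := fun z h => by
    have := hUV z
    rw [h, zero_mul] at this
    exact zero_ne_one this
  set g : ℂ → ℂ := fun z => deriv U z * V z with hg
  have hgd : Differentiable ℂ g := (hU.deriv).mul hV
  obtain ⟨P₀, hP₀⟩ := hgd.isExactOn_univ
  set P : ℂ → ℂ := fun z => P₀ z - P₀ 0 + Complex.log (U 0) with hP
  have hPd : ∀ z, HasDerivAt P (g z) z := by
    intro z
    have := hP₀ z (Set.mem_univ z)
    exact (this.sub_const _).add_const _
  have hPdiff : Differentiable ℂ P := fun z => (hPd z).differentiableAt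
  -- exp P = U
  have hE : ∀ z, Complex.exp (P z) = U z := by
    have h1 : ∀ z, HasDerivAt (fun z => Complex.exp (-P z) * U z) 0 z := by
      intro z
      have h2 := ((hPd z).neg.cexp).mul (hU z).hasDerivAt
      have h3 : Complex.exp (-P z) * -g z * U z + Complex.exp (-P z) * deriv U z = 0 := by
        have := hUV z
        simp only [hg]
        linear_combination (-(Complex.exp (-P z)) * deriv U z) * this
      rw [← h3]
      exact h2
    have h2 : ∀ z, Complex.exp (-P z) * U z = Complex.exp (-P 0) * U 0 := by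
      intro z
      exact is_const_of_deriv_eq_zero (fun z => (h1 z).differentiableAt) (fun z => (h1 z).deriv) z 0
    have h3 : P 0 = Complex.log (U 0) := by simp [hP]
    intro z
    have h4 := h2 z
    rw [h3, Complex.exp_neg (Complex.log (U 0)), Complex.exp_log (hU0 0),
      inv_mul_cancel₀ (hU0 0), Complex.exp_neg] at h4
    field_simp [Complex.exp_ne_zero] at h4
    exact h4.symm
  have hre : ∀ z, (P z).re ≤ Real.log M + c * ‖z‖ := by
    intro z
    have h1 : Real.exp (P z).re ≤ M * Real.exp (c * ‖z‖) := by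
      rw [← Complex.norm_exp, hE]
      exact hb z
    rw [← Real.exp_log (lt_of_lt_of_le zero_lt_one hM), ← Real.exp_add] at h1
    exact Real.exp_le_exp.1 h1
  have hlog : 0 ≤ Real.log M := Real.log_nonneg hM
  have hBC : ∀ z, ‖P z‖ ≤ 2 * (Real.log M + 1 + c * (2 * (‖z‖ + 1))) + 3 * ‖P 0‖ := by
    intro z
    set R : ℝ := 2 * (‖z‖ + 1) with hR
    have hz0 := norm_nonneg z
    have h1 := Complex.borelCaratheodory (f := P) (M := Real.log M + 1 + c * R) (R := R) (z := z)
      (by positivity) hPdiff.differentiableOn (by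
        intro w hw
        have h2 : ‖w‖ < R := by simpa using hw
        have h3 := hre w
        have h4 : c * ‖w‖ ≤ c * R := mul_le_mul_of_nonneg_left h2.le hc
        show (P w).re ≤ _
        linarith) (by positivity) (by
        rw [mem_ball_zero_iff, hR]
        linarith)
    refine h1.trans ?_
    have h5 : 0 < R - ‖z‖ := by rw [hR]; linarith
    have h6 : 2 * (Real.log M + 1 + c * R) * ‖z‖ / (R - ‖z‖) ≤ 2 * (Real.log M + 1 + c * R) := by
      rw [div_le_iff₀ h5]
      apply mul_le_mul_of_nonneg_left _ (by positivity)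
      rw [hR]
      linarith
    have h7 : ‖P 0‖ * (R + ‖z‖) / (R - ‖z‖) ≤ 3 * ‖P 0‖ := by
      rw [div_le_iff₀ h5]
      have := norm_nonneg (P 0)
      rw [hR]
      nlinarith
    linarith
  -- derivative is bounded
  have hgb : ∀ z, ‖g z‖ ≤ 2 * (Real.log M + 1) + 8 * c + 3 * ‖P 0‖ := by
    intro z
    set r : ℝ := 1 + ‖z‖ with hr
    have hz0 := norm_nonneg z
    have hr0 : 0 < r := by positivity
    have h1 := Complex.norm_deriv_le_of_forall_mem_sphere_norm_le (c := z) (R := r) (f := P)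
      (C := 2 * (Real.log M + 1 + c * (2 * ((r + ‖z‖) + 1))) + 3 * ‖P 0‖) hr0
      hPdiff.diffContOnCl (by
        intro w hw
        have h2 : ‖w‖ ≤ r + ‖z‖ := by
          rw [mem_sphere_iff_norm] at hw
          calc ‖w‖ = ‖(w - z) + z‖ := by rw [sub_add_cancel]
            _ ≤ ‖w - z‖ + ‖z‖ := norm_add_le _ _
            _ = r + ‖z‖ := by rw [hw]
        refine (hBC w).trans ?_
        gcongr)
    rw [(hPd z).deriv] at h1
    refine h1.trans ?_
    rw [div_le_iff₀ hr0]
    have := norm_nonneg (P 0)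
    have h3 : 1 ≤ r := by rw [hr]; linarith
    have h4 : r + ‖z‖ + 1 = 2 * r := by rw [hr]; ring
    rw [h4]
    nlinarith [mul_nonneg (by positivity : 0 ≤ 2 * (Real.log M + 1) + 3 * ‖P 0‖) (sub_nonneg.2 h3)]
  have hgc : ∀ z, g z = g 0 := by
    intro z
    apply hgd.apply_eq_apply_of_bounded
    rw [isBounded_iff_forall_norm_le]
    refine ⟨2 * (Real.log M + 1) + 8 * c + 3 * ‖P 0‖, ?_⟩
    rintro _ ⟨w, rfl⟩
    exact hgb w
  refine ⟨g 0, fun z => ?_⟩
  have h1 : ∀ z, HasDerivAt (fun z => P z - g 0 * z) 0 z := by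
    intro z
    have h2 := (hPd z).sub ((hasDerivAt_id z).const_mul (g 0))
    rw [hgc z, mul_one, sub_self] at h2
    exact h2
  have h2 : P z - g 0 * z = P 0 - g 0 * 0 :=
    is_const_of_deriv_eq_zero (fun z => (h1 z).differentiableAt) (fun z => (h1 z).deriv) z 0
  rw [← hE z, ← hE 0, ← Complex.exp_add]
  congr 1
  linear_combination h2

/-- a function on the half line with reciprocal, both with geometrically bounded derivatives -/
lemma eq_exp_real (u v : ℕ → ℝ → ℂ) (hu : ∀ j t, HasDerivAt (u j) (u (j + 1) t) t)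
    (hv : ∀ j t, HasDerivAt (v j) (v (j + 1) t) t)
    (c : ℝ) (hc : 0 ≤ c) (hub : ∀ j t, ‖u j t‖ ≤ 1 * c ^ j) (hvb : ∀ j t, ‖v j t‖ ≤ 1 * c ^ j)
    (huv : ∀ t, u 0 t * v 0 t = 1) :
    ∃ b : ℂ, ∀ t : ℝ, 0 ≤ t → u 0 t = u 0 0 * Complex.exp (b * t) := by
  obtain ⟨U, hU, hUb, hUu⟩ := exists_entire u hu 1 c zero_le_one hc hub
  obtain ⟨V, hV, hVb, hVv⟩ := exists_entire v hv 1 c zero_le_one hc hvb
  have hUV : (fun z => U z * V z) = fun _ => 1 := by
    apply AnalyticOnNhd.eq_of_frequently_eq (z₀ := 0)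
    · exact (hU.mul hV).differentiableOn.analyticOnNhd isOpen_univ
    · exact analyticOnNhd_const
    · have h1 : ∃ᶠ t : ℝ in 𝓝[>] 0, U t * V t = 1 := by
        apply Eventually.frequently
        filter_upwards [self_mem_nhdsWithin] with t ht
        rw [hUu t (le_of_lt ht), hVv t (le_of_lt ht)]
        exact huv t
      have h2 : Tendsto (fun t : ℝ => (t : ℂ)) (𝓝[>] 0) (𝓝[≠] 0) := by
        apply tendsto_nhdsWithin_of_tendsto_nhds_of_eventually_within
        · have : Tendsto (fun t : ℝ => (t : ℂ)) (𝓝 0) (𝓝 ((0 : ℝ) : ℂ)) :=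
            Complex.continuous_ofReal.tendsto 0
          rw [Complex.ofReal_zero] at this
          exact this.mono_left nhdsWithin_le_nhds
        · filter_upwards [self_mem_nhdsWithin] with t ht
          simpa using (ne_of_gt ht)
      exact h2.frequently h1
  obtain ⟨b, hb⟩ := eq_exp hU hV le_rfl hc hUb (fun z => congrFun hUV z)
  refine ⟨b, fun t ht => ?_⟩
  rw [← hUu t ht, ← hUu 0 le_rfl, hb t, Complex.ofReal_zero]

/-- a continuous real phase of an exponential is affine -/
lemma phase_affine {θ : ℝ → ℝ} (hθ : Continuous θ) {b : ℂ}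
    (h : ∀ t : ℝ, 0 ≤ t → Complex.exp (θ t * I) = Complex.exp (θ 0 * I) * Complex.exp (b * t)) :
    ∃ β : ℝ, ∀ t : ℝ, 0 ≤ t → θ t = θ 0 + β * t := by
  have hbre : b.re = 0 := by
    have h1 := congrArg (‖·‖) (h 1 zero_le_one)
    simp only [norm_mul, Complex.norm_exp] at h1
    simp at h1
    exact (Real.exp_eq_one_iff _).1 h1.symm
  refine ⟨b.im, ?_⟩
  set δ : ℝ → ℝ := fun t => (θ t - θ 0 - b.im * t) / (2 * Real.pi) with hδ
  have hδc : Continuous δ := by
    rw [hδ]
    fun_prop
  have hδi : ∀ t : ℝ, 0 ≤ t → ∃ n : ℤ, δ t = n := by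
    intro t ht
    have h1 := h t ht
    rw [← Complex.exp_add, Complex.exp_eq_exp_iff_exists_int] at h1
    obtain ⟨n, hn⟩ := h1
    refine ⟨n, ?_⟩
    have h2 := congrArg Complex.im hn
    simp at h2
    rw [hδ]
    simp only
    rw [div_eq_iff (by positivity)]
    linarith
  have hδ0 : δ 0 = 0 := by simp [hδ]
  have hδall : ∀ t : ℝ, 0 ≤ t → δ t = 0 := by
    intro t ht
    by_contra hne
    -- intermediate values
    obtain ⟨n, hn⟩ := hδi t ht
    have hn0 : n ≠ 0 := by
      rintro rfl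
      rw [hn] at hne
      simp at hne
    have himg : Set.uIcc (δ 0) (δ t) ⊆ δ '' Set.uIcc 0 t :=
      intermediate_value_uIcc hδc.continuousOn
    rw [hδ0, hn] at himg
    rcases lt_or_gt_of_ne hn0 with hlt | hgt
    · have h1 : (n : ℝ) ≤ -1 := by exact_mod_cast (by omega : n ≤ -1)
      have h2 : (-(1 / 2) : ℝ) ∈ Set.uIcc 0 (n : ℝ) := by
        rw [Set.uIcc_of_ge (by linarith)]
        constructor <;> linarith
      obtain ⟨s, hs, hs2⟩ := himg h2
      rw [Set.uIcc_of_le ht] at hs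
      obtain ⟨m, hm⟩ := hδi s hs.1
      rw [hm] at hs2
      have : (2 * m : ℝ) = -1 := by linarith
      have h3 : (2 * m : ℤ) = -1 := by exact_mod_cast this
      omega
    · have h1 : (1 : ℝ) ≤ n := by exact_mod_cast (by omega : 1 ≤ n)
      have h2 : ((1 / 2) : ℝ) ∈ Set.uIcc 0 (n : ℝ) := by
        rw [Set.uIcc_of_le (by linarith)]
        constructor <;> linarith
      obtain ⟨s, hs, hs2⟩ := himg h2
      rw [Set.uIcc_of_le ht] at hs
      obtain ⟨m, hm⟩ := hδi s hs.1
      rw [hm] at hs2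
      have : (2 * m : ℝ) = 1 := by linarith
      have h3 : (2 * m : ℤ) = 1 := by exact_mod_cast this
      omega
  intro t ht
  have h1 := hδall t ht
  rw [hδ] at h1
  simp only at h1
  rw [div_eq_zero_iff] at h1
  rcases h1 with h1 | h1
  · linarith
  · exact absurd h1 (by positivity)

end Q84.TW
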