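import Mathlib
import Pool.Agent.Q84.TW1
import Pool.Agent.Q84.TW2
import Pool.Agent.Q84.L2Fourier

/-! Time warpings preserving bandlimitedness. -/

set_option autoImplicit false
open Complex Filter Topology MeasureTheory FourierTransform
open scoped InnerProductSpace SchwartzMap ENNReal ContDiff

namespace Q84.TW

variable {E : Type*} [NormedAddCommGroup E] [InnerProductSpace ℝ E] [FiniteDimensional ℝ E]
  [MeasurableSpace E] [BorelSpace E]

/-- adjointness of the inverse Fourier transform -/
lemma fourierInv_adj {g h : E → ℂ} (hg : Integrable g) (hh : Integrable h) :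
    ∫ x, 𝓕⁻ g x * h x = ∫ x, g x * 𝓕⁻ h x := by
  have key := VectorFourier.integral_fourierIntegral_smul_eq_flip (L := -(innerₗ E))
    (e := Real.fourierChar) (f := g) (g := h) (μ := volume) (ν := volume)
    Real.continuous_fourierChar (show Continuous fun p : E × E => -(⟪p.1, p.2⟫_ℝ) from
      (continuous_inner (𝕜 := ℝ) (E := E)).neg) hg hh
  have e1 : ∀ ξ, VectorFourier.fourierIntegral Real.fourierChar volume (-(innerₗ E)) g ξ
      = 𝓕⁻ g ξ := by
    intro ξ
    rw [Real.fourierInv_eq]
    simp [VectorFourier.fourierIntegral]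
  have e2 : ∀ ξ, VectorFourier.fourierIntegral Real.fourierChar volume (-(innerₗ E)).flip h ξ
      = 𝓕⁻ h ξ := by
    intro ξ
    rw [Real.fourierInv_eq]
    simp [VectorFourier.fourierIntegral, real_inner_comm]
  simp only [e1, e2, smul_eq_mul] at key
  exact key

lemma fourierInv_continuous {h : E → ℂ} (h1 : Integrable h) : Continuous (𝓕⁻ h) := by
  have : Continuous (𝓕 h) := VectorFourier.fourierIntegral_continuous Real.continuous_fourierChar
      (innerSL ℝ).continuous₂ h1
  have e : 𝓕⁻ h = fun x => 𝓕 h (-x) := by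
    ext x
    exact Real.fourierInv_eq_fourier_neg h x
  rw [e]
  exact this.comp continuous_neg

lemma fourierInv_toLp_ae (h : E → ℂ) (h1 : Integrable h) (h2 : MemLp h 2) :
    (𝓕⁻ (h2.toLp h : Lp ℂ 2 (volume : Measure E)) : Lp ℂ 2 (volume : Measure E)) =ᵐ[volume] 𝓕⁻ h := by
  apply ae_eq_of_integral_contDiff_smul_eq
  · exact (Lp.memLp _).locallyIntegrable (by norm_num)
  · exact (fourierInv_continuous h1).locallyIntegrable
  · intro g g_smooth g_cpt
    have hg₁ : HasCompactSupport (Complex.ofRealCLM ∘ g) := g_cpt.comp_left rfl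
    have hg₂ : ContDiff ℝ ∞ (Complex.ofRealCLM ∘ g) := by fun_prop
    set G : 𝓢(E, ℂ) := hg₁.toSchwartzMap hg₂ with hG
    have e1 : ∫ x, g x • (𝓕⁻ (h2.toLp h : Lp ℂ 2 (volume : Measure E)) : Lp ℂ 2 (volume : Measure E)) x
        = (Lp.toTemperedDistribution (𝓕⁻ (h2.toLp h : Lp ℂ 2 (volume : Measure E)) : Lp ℂ 2 (volume : Measure E))) G := by
      rw [Lp.toTemperedDistribution_apply]
      simp [hG]
    rw [e1, ← Lp.fourierInv_toTemperedDistribution_eq, TemperedDistribution.fourierInv_apply,
      Lp.toTemperedDistribution_apply]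
    have e2 : ∫ x, (𝓕⁻ G) x • (h2.toLp h : Lp ℂ 2 (volume : Measure E)) x = ∫ x, (𝓕⁻ (G : E → ℂ)) x * h x := by
      apply integral_congr_ae
      filter_upwards [h2.coeFn_toLp] with x hx
      rw [hx, SchwartzMap.fourierInv_coe]
      rfl
    rw [e2, fourierInv_adj G.integrable h1]
    apply integral_congr_ae
    filter_upwards with x
    simp [hG]

/-- the continuous function `f` is (the continuous representative of) an `L²` function whose
`L²` Fourier transform vanishes almost everywhere outside a compact set -/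
def Bandlimited (f : E → ℂ) : Prop :=
  Continuous f ∧ ∃ F : Lp ℂ 2 (volume : Measure E), F =ᵐ[volume] f ∧
    ∃ K : Set E, IsCompact K ∧ ∀ᵐ ξ, ξ ∉ K → (𝓕 F : Lp ℂ 2 (volume : Measure E)) ξ = 0

/-- the distributional Fourier transform `φ ↦ ∫ h 𝓕 φ` of `h` vanishes outside a compact set -/
def HasCompactSpectrum (h : E → ℂ) : Prop :=
  ∃ K : Set E, IsCompact K ∧ ∀ φ : 𝓢(E, ℂ), tsupport φ ⊆ Kᶜ → ∫ x, h x * 𝓕 φ x = 0

lemma bandlimited_of {h : E → ℂ} (h1 : Integrable h) (h2 : MemLp h 2) {K : Set E}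
    (hK : IsCompact K) (h0 : ∀ ξ, ξ ∉ K → h ξ = 0) : Bandlimited (𝓕⁻ h : E → ℂ) := by
  have h3 : (𝓕 (𝓕⁻ (h2.toLp h : Lp ℂ 2 (volume : Measure E)) : Lp ℂ 2 (volume : Measure E)) :
      Lp ℂ 2 (volume : Measure E)) = h2.toLp h := FourierTransform.fourier_fourierInv_eq _
  have h4 : ∀ᵐ ξ, ξ ∉ K → (h2.toLp h : Lp ℂ 2 (volume : Measure E)) ξ = 0 := by
    filter_upwards [h2.coeFn_toLp] with ξ hξ hξK
    rw [hξ, h0 ξ hξK]
  refine ⟨fourierInv_continuous h1, (𝓕⁻ (h2.toLp h : Lp ℂ 2 (volume : Measure E)) :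
    Lp ℂ 2 (volume : Measure E)), fourierInv_toLp_ae h h1 h2, K, hK, ?_⟩
  rw [h3]
  exact h4

lemma Bandlimited.exists_repr {f : E → ℂ} (hf : Bandlimited f) : ∃ (h : E → ℂ) (K : Set E),
    Integrable h ∧ IsCompact K ∧ (∀ ξ, ξ ∉ K → h ξ = 0) ∧ f = 𝓕⁻ h := by
  obtain ⟨hc, F, hF, K, hK, hK0⟩ := hf
  set g : E → ℂ := K.indicator (𝓕 F : Lp ℂ 2 (volume : Measure E)) with hg
  have hae : g =ᵐ[volume] (𝓕 F : Lp ℂ 2 (volume : Measure E)) := by
    filter_upwards [hK0] with ξ hξ
    by_cases hK1 : ξ ∈ K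
    · rw [hg, Set.indicator_of_mem hK1]
    · rw [hg, Set.indicator_of_notMem hK1, hξ hK1]
  have hg2 : MemLp g 2 := (memLp_congr_ae hae).2 (Lp.memLp _)
  have hg1 : Integrable g := by
    rw [hg, integrable_indicator_iff hK.measurableSet]
    have h3 : MemLp (𝓕 F : Lp ℂ 2 (volume : Measure E)) 2 (volume.restrict K) := (Lp.memLp _).restrict K
    have : IsFiniteMeasure ((volume : Measure E).restrict K) :=
      ⟨by rw [Measure.restrict_apply_univ]; exact hK.measure_lt_top⟩
    exact h3.integrable (by norm_num)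
  refine ⟨g, K, hg1, hK, fun ξ hξ => by rw [hg, Set.indicator_of_notMem hξ], ?_⟩
  have h4 : hg2.toLp g = (𝓕 F : Lp ℂ 2 (volume : Measure E)) := by
    apply Lp.ext
    exact hg2.coeFn_toLp.trans hae
  have h5 := fourierInv_toLp_ae g hg1 hg2
  rw [h4, FourierTransform.fourierInv_fourier_eq] at h5
  exact (Continuous.ae_eq_iff_eq volume hc (fourierInv_continuous hg1)).1 (hF.symm.trans h5)

/-- the character `x ↦ e^{2πi⟨ξ, γ x⟩}` -/
noncomputable def ch (γ : E → E) (ξ x : E) : ℂ := Complex.exp ((2 * Real.pi * ⟪ξ, γ x⟫_ℝ : ℝ) * I)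

omit [FiniteDimensional ℝ E] [MeasurableSpace E] [BorelSpace E] in
lemma norm_ch (γ : E → E) (ξ x : E) : ‖ch γ ξ x‖ = 1 := Complex.norm_exp_ofReal_mul_I _

omit [FiniteDimensional ℝ E] [MeasurableSpace E] [BorelSpace E] in
lemma ch_cont {γ : E → E} (hγ : Continuous γ) : Continuous fun p : E × E => ch γ p.1 p.2 := by
  unfold ch
  fun_prop

/-- Fubini -/
lemma pair_eq {γ : E → E} (hγ : Continuous γ) {h : E → ℂ} (h1 : Integrable h) (ψ : 𝓢(E, ℂ)) :
    ∫ x, 𝓕⁻ h (γ x) * ψ x = ∫ ξ, h ξ * ∫ x, ch γ ξ x * ψ x := by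
  have i0 : Integrable fun p : E × E => ch γ p.2 p.1 * (ψ p.1 * h p.2) := by
    refine ((ψ.integrable (μ := volume)).mul_prod h1).bdd_mul (c := 1)
      ?_ (Eventually.of_forall fun p => (norm_ch _ _ _).le)
    exact ((ch_cont hγ).comp continuous_swap).aestronglyMeasurable
  calc ∫ x, 𝓕⁻ h (γ x) * ψ x = ∫ x, ∫ ξ, ch γ ξ x * (ψ x * h ξ) := by
        apply integral_congr_ae
        filter_upwards with x
        rw [Real.fourierInv_eq', ← integral_mul_const]
        apply integral_congr_ae
        filter_upwards with ξ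
        rw [smul_eq_mul, ch]
        ring
    _ = ∫ ξ, ∫ x, ch γ ξ x * (ψ x * h ξ) := integral_integral_swap i0
    _ = _ := by
        apply integral_congr_ae
        filter_upwards with ξ
        rw [← integral_const_mul]
        apply integral_congr_ae
        filter_upwards with x
        ring

/-- uniform spectral bound by Baire -/
lemma uniform_spec {γ : E → E} (hγ : Continuous γ)
    (hyp : ∀ f : E → ℂ, Bandlimited f → HasCompactSpectrum (fun x => f (γ x))) (ρ : ℝ) :
    ∃ N : ℕ, ∀ ξ₀ : E, ‖ξ₀‖ < ρ → Spec N (ch γ ξ₀) := by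
  have hb1 : ∀ g : BoundedContinuousFunction E ℂ,
      Integrable ((Metric.ball (0 : E) ρ).indicator g) := by
    intro g
    rw [integrable_indicator_iff Metric.isOpen_ball.measurableSet]
    exact (g.continuous.continuousOn.integrableOn_compact (isCompact_closedBall 0 ρ)).mono_set
      Metric.ball_subset_closedBall
  have hb2 : ∀ g : BoundedContinuousFunction E ℂ,
      MemLp ((Metric.ball (0 : E) ρ).indicator g) 2 := by
    intro g
    rw [memLp_indicator_iff_restrict Metric.isOpen_ball.measurableSet]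
    have : IsFiniteMeasure ((volume : Measure E).restrict (Metric.ball 0 ρ)) :=
      ⟨by rw [Measure.restrict_apply_univ]; exact measure_ball_lt_top⟩
    exact MemLp.of_bound g.continuous.aestronglyMeasurable ‖g‖
      (Eventually.of_forall fun x => g.norm_coe_le_norm x)
  set H : 𝓢(E, ℂ) → E → ℂ := fun φ ξ => ∫ x, ch γ ξ x * 𝓕 φ x with hH
  have hHc : ∀ φ, Continuous (H φ) := by
    intro φ
    apply continuous_of_dominated (bound := fun x => ‖𝓕 φ x‖)
    · intro ξ
      exact (((ch_cont hγ).comp (by fun_prop : Continuous fun x : E => (ξ, x))).mul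
        (𝓕 φ).continuous).aestronglyMeasurable
    · intro ξ
      filter_upwards with x
      rw [norm_mul, norm_ch, one_mul]
    · exact (𝓕 φ).integrable.norm
    · filter_upwards with x
      exact ((ch_cont hγ).comp (by fun_prop : Continuous fun ξ : E => (ξ, x))).mul
        continuous_const
  have hHb : ∀ φ ξ, ‖H φ ξ‖ ≤ ∫ x, ‖𝓕 φ x‖ := by
    intro φ ξ
    apply norm_integral_le_of_norm_le (𝓕 φ).integrable.norm
    filter_upwards with x
    rw [norm_mul, norm_ch, one_mul]
  have hint : ∀ (g : BoundedContinuousFunction E ℂ) φ,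
      Integrable fun ξ => (Metric.ball (0 : E) ρ).indicator g ξ * H φ ξ := by
    intro g φ
    exact (hb1 g).mul_bdd (c := ∫ x, ‖𝓕 φ x‖) (hHc φ).aestronglyMeasurable
      (Eventually.of_forall (hHb φ))
  -- the continuous functionals
  let L : 𝓢(E, ℂ) → (BoundedContinuousFunction E ℂ →L[ℂ] ℂ) := fun φ =>
    LinearMap.mkContinuous
      { toFun := fun g => ∫ ξ, (Metric.ball (0 : E) ρ).indicator g ξ * H φ ξ
        map_add' := by
          intro g g'
          rw [← integral_add (hint g φ) (hint g' φ)]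
          apply integral_congr_ae
          filter_upwards with ξ
          by_cases hξ : ξ ∈ Metric.ball (0 : E) ρ
          · simp only [Set.indicator_of_mem hξ]
            rw [BoundedContinuousFunction.add_apply]
            ring
          · simp only [Set.indicator_of_notMem hξ]
            ring
        map_smul' := by
          intro c g
          rw [RingHom.id_apply, smul_eq_mul, ← integral_const_mul]
          apply integral_congr_ae
          filter_upwards with ξ
          by_cases hξ : ξ ∈ Metric.ball (0 : E) ρ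
          · simp only [Set.indicator_of_mem hξ]
            rw [BoundedContinuousFunction.smul_apply, smul_eq_mul]
            ring
          · simp only [Set.indicator_of_notMem hξ]
            ring }
      (∫ ξ, (Metric.ball (0 : E) ρ).indicator (fun _ => (1 : ℝ)) ξ * ∫ x, ‖𝓕 φ x‖)
      (by
        intro g
        rw [← integral_mul_const]
        apply norm_integral_le_of_norm_le
        · apply Integrable.mul_const
          apply Integrable.mul_const
          rw [integrable_indicator_iff Metric.isOpen_ball.measurableSet]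
          exact integrableOn_const measure_ball_lt_top.ne
        · filter_upwards with ξ
          by_cases hξ : ξ ∈ Metric.ball (0 : E) ρ
          · simp only [Set.indicator_of_mem hξ]
            rw [norm_mul, one_mul, mul_comm]
            exact mul_le_mul (hHb φ ξ) (g.norm_coe_le_norm ξ) (norm_nonneg _)
              (integral_nonneg fun _ => norm_nonneg _)
          · simp only [Set.indicator_of_notMem hξ]
            simp)
  have hL : ∀ φ g, L φ g = ∫ ξ, (Metric.ball (0 : E) ρ).indicator g ξ * H φ ξ := fun _ _ => rfl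
  let X : ℕ → Submodule ℂ (BoundedContinuousFunction E ℂ) := fun N =>
    { carrier := {g | ∀ φ : 𝓢(E, ℂ), (∀ ξ, ‖ξ‖ ≤ N → φ ξ = 0) → L φ g = 0}
      add_mem' := by
        intro a b ha hb φ hφ
        rw [map_add, ha φ hφ, hb φ hφ, add_zero]
      zero_mem' := by
        intro φ hφ
        exact map_zero _
      smul_mem' := by
        intro c a ha φ hφ
        rw [map_smul, ha φ hφ, smul_zero] }
  have hXc : ∀ N, IsClosed (X N : Set (BoundedContinuousFunction E ℂ)) := by
    intro N
    have : (X N : Set (BoundedContinuousFunction E ℂ)) =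
        ⋂ φ : 𝓢(E, ℂ), ⋂ _ : ∀ ξ, ‖ξ‖ ≤ N → φ ξ = 0, {g | L φ g = 0} := by
      ext g
      simp only [Set.mem_iInter, Set.mem_ofPred_eq]
      rfl
    rw [this]
    refine isClosed_iInter fun φ => isClosed_iInter fun _ => ?_
    exact isClosed_eq (L φ).continuous continuous_const
  have hXu : (⋃ N, (X N : Set (BoundedContinuousFunction E ℂ))) = Set.univ := by
    rw [Set.eq_univ_iff_forall]
    intro g
    obtain ⟨K, hK, hKφ⟩ := hyp _ (bandlimited_of (hb1 g) (hb2 g) (isCompact_closedBall (0 : E) ρ)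
      (fun ξ hξ => Set.indicator_of_notMem (fun h => hξ (Metric.ball_subset_closedBall h)) _))
    obtain ⟨R, hR⟩ := hK.isBounded.subset_closedBall 0
    obtain ⟨N, hN⟩ := exists_nat_gt R
    refine Set.mem_iUnion.2 ⟨N, ?_⟩
    intro φ hφ
    rw [hL, ← pair_eq hγ (hb1 g) (𝓕 φ)]
    apply hKφ
    intro ξ hξ hξK
    have h1 : ξ ∉ tsupport φ := by
      rw [notMem_tsupport_iff_eventuallyEq]
      have h2 : ‖ξ‖ < N := by
        have := hR hξK
        rw [mem_closedBall_zero_iff] at this
        linarith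
      filter_upwards [(isOpen_lt continuous_norm continuous_const).mem_nhds h2] with η hη
      exact hφ η (le_of_lt hη)
    exact h1 hξ
  obtain ⟨N, hN⟩ := nonempty_interior_of_iUnion_of_closed hXc hXu
  have htop : X N = ⊤ := Submodule.eq_top_of_nonempty_interior' _ hN
  refine ⟨N, fun ξ₀ hξ₀ φ hφ => ?_⟩
  have h1 : ∀ g : BoundedContinuousFunction E ℂ, L φ g = 0 := by
    intro g
    have : g ∈ X N := by rw [htop]; trivial
    exact this φ hφ
  set g₀ : BoundedContinuousFunction E ℂ := BoundedContinuousFunction.ofNormedAddCommGroup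
    (fun ξ => star (H φ ξ)) (hHc φ).star (∫ x, ‖𝓕 φ x‖) (fun ξ => by
      rw [norm_star]
      exact hHb φ ξ) with hg₀
  have h2 := h1 g₀
  rw [hL] at h2
  have h3 : ∫ ξ in Metric.ball (0 : E) ρ, ‖H φ ξ‖ ^ 2 = 0 := by
    have h4 : ∫ ξ, (Metric.ball (0 : E) ρ).indicator g₀ ξ * H φ ξ =
        ((∫ ξ in Metric.ball (0 : E) ρ, ‖H φ ξ‖ ^ 2 : ℝ) : ℂ) := by
      rw [← integral_complex_ofReal, ← integral_indicator Metric.isOpen_ball.measurableSet]
      apply integral_congr_ae
      filter_upwards with ξ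
      by_cases hξ : ξ ∈ Metric.ball (0 : E) ρ
      · simp only [Set.indicator_of_mem hξ]
        have : g₀ ξ = star (H φ ξ) := rfl
        rw [this]
        have := Complex.conj_mul' (H φ ξ)
        simpa using this
      · simp only [Set.indicator_of_notMem hξ]
        ring
    rw [h4] at h2
    exact_mod_cast h2
  have hsq : IntegrableOn (fun ξ => ‖H φ ξ‖ ^ 2) (Metric.ball (0 : E) ρ) :=
    (((hHc φ).norm.pow 2).continuousOn.integrableOn_compact (isCompact_closedBall 0 ρ)).mono_set
      Metric.ball_subset_closedBall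
  have h5 : (fun ξ => ‖H φ ξ‖ ^ 2) =ᵐ[volume.restrict (Metric.ball (0 : E) ρ)] 0 :=
    (setIntegral_eq_zero_iff_of_nonneg_ae (Eventually.of_forall fun _ => by positivity) hsq).1 h3
  have h6 := Measure.eqOn_open_of_ae_eq h5 Metric.isOpen_ball ((hHc φ).norm.pow 2).continuousOn
    continuousOn_const
  have h7 := h6 (show ξ₀ ∈ Metric.ball (0 : E) ρ by rwa [mem_ball_zero_iff])
  have h8 : ‖H φ ξ₀‖ = 0 := by
    have : ‖H φ ξ₀‖ ^ 2 = 0 := h7
    exact pow_eq_zero_iff (two_ne_zero) |>.1 this
  exact norm_eq_zero.1 h8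

end Q84.TW
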