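import Mathlib
import Pool.Agent.Q84.TW3

/-! Time warpings preserving bandlimitedness: conclusion. -/

set_option autoImplicit false
open Complex Filter Topology MeasureTheory FourierTransform
open scoped InnerProductSpace SchwartzMap ENNReal ContDiff

namespace Q84.TW

variable {E : Type*} [NormedAddCommGroup E] [InnerProductSpace ℝ E] [FiniteDimensional ℝ E]
  [MeasurableSpace E] [BorelSpace E]

omit [MeasurableSpace E] [BorelSpace E] in
/-- a Schwartz function equal to one on a ball -/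
lemma exists_cut (N : ℕ) : ∃ χ : 𝓢(E, ℂ), ∀ ξ, ‖ξ‖ ≤ N → χ ξ = 1 := by
  let b : ContDiffBump (0 : E) := ⟨N + 1, N + 2, by positivity, by linarith⟩
  have hg₁ : HasCompactSupport (Complex.ofRealCLM ∘ b) := b.hasCompactSupport.comp_left rfl
  have hg₂ : ContDiff ℝ ∞ (Complex.ofRealCLM ∘ b) := Complex.ofRealCLM.contDiff.comp b.contDiff
  refine ⟨hg₁.toSchwartzMap hg₂, fun ξ hξ => ?_⟩
  have : b ξ = 1 := by
    apply b.one_of_mem_closedBall
    rw [mem_closedBall_zero_iff]
    show ‖ξ‖ ≤ (N : ℝ) + 1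
    linarith
  simp [this]

/-- inner products of the warping are affine on rays -/
lemma ray_affine {γ : E → E} (hγ : Continuous γ)
    (hyp : ∀ f : E → ℂ, Bandlimited f → HasCompactSpectrum (fun x => f (γ x))) (ξ w v : E) :
    ∃ β : ℝ, ∀ t : ℝ, 0 ≤ t → ⟪ξ, γ (w + t • v)⟫_ℝ = ⟪ξ, γ w⟫_ℝ + β * t := by
  obtain ⟨N, hN⟩ := uniform_spec hγ hyp (‖ξ‖ + 1)
  have hS1 := hN ξ (by linarith)
  have hS2 := hN (-ξ) (by rw [norm_neg]; linarith)
  obtain ⟨χ, hχ⟩ := exists_cut (E := E) N
  set k : 𝓢(E, ℂ) := 𝓕 χ with hk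
  have hcont : ∀ ξ : E, Continuous (ch γ ξ) := fun ξ =>
    (ch_cont hγ).comp (by fun_prop : Continuous fun x : E => (ξ, x))
  have g1 : Good k 1 (ch γ ξ) := ⟨hcont _, fun x => (norm_ch _ _ _).le, fun w =>
    exists_repr (hcont _) (fun x => (norm_ch γ ξ x).le) k χ hχ hk hS1 w⟩
  have g2 : Good k 1 (ch γ (-ξ)) := ⟨hcont _, fun x => (norm_ch _ _ _).le, fun w =>
    exists_repr (hcont _) (fun x => (norm_ch γ (-ξ) x).le) k χ hχ hk hS2 w⟩
  set K : 𝓢(E, ℂ) := -(LineDeriv.lineDerivOp v k) with hK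
  set c : ℝ := ∫ z, ‖K z‖ with hc
  have hc0 : 0 ≤ c := integral_nonneg fun _ => norm_nonneg _
  have hG : ∀ (f : E → ℂ), Good k 1 f → ∀ j : ℕ, Good k (1 * c ^ j) ((T K)^[j] f) := by
    intro f hf j
    induction j with
    | zero => simpa using hf
    | succ j ih =>
      rw [Function.iterate_succ_apply', pow_succ, ← mul_assoc]
      exact ih.T K
  have hD : ∀ (f : E → ℂ), Good k 1 f → ∀ (j : ℕ) (t : ℝ),
      HasDerivAt (fun t : ℝ => (T K)^[j] f (w + t • v)) ((T K)^[j + 1] f (w + t • v)) t := by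
    intro f hf j t
    have := (hG f hf j).hasDerivAt w v t
    rw [Function.iterate_succ_apply']
    exact this
  obtain ⟨b, hb⟩ := eq_exp_real (fun j t => (T K)^[j] (ch γ ξ) (w + t • v))
    (fun j t => (T K)^[j] (ch γ (-ξ)) (w + t • v)) (hD _ g1) (hD _ g2) c hc0
    (fun j t => (hG _ g1 j).bdd _) (fun j t => (hG _ g2 j).bdd _) (by
      intro t
      simp only [Function.iterate_zero, id]
      rw [ch, ch, ← Complex.exp_add, ← add_mul, ← Complex.ofReal_add, inner_neg_left]
      simp)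
  obtain ⟨β, hβ⟩ := phase_affine (θ := fun t : ℝ => 2 * Real.pi * ⟪ξ, γ (w + t • v)⟫_ℝ)
    (by fun_prop) (b := b) (by
      intro t ht
      exact hb t ht)
  refine ⟨β / (2 * Real.pi), fun t ht => ?_⟩
  have h1 := hβ t ht
  simp only [zero_smul, add_zero] at h1
  field_simp
  linarith

/-- a bandlimit preserving continuous map is affine -/
lemma exists_linear {γ : E → E} (hγ : Continuous γ)
    (hyp : ∀ f : E → ℂ, Bandlimited f → HasCompactSpectrum (fun x => f (γ x))) :
    ∃ A : E →ₗ[ℝ] E, ∀ x, γ x = A x + γ 0 := by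
  set G : E → E := fun x => γ x - γ 0 with hG
  have hhom0 : ∀ (x : E) (t : ℝ), 0 ≤ t → G (t • x) = t • G x := by
    intro x t ht
    apply ext_inner_left ℝ
    intro ξ
    obtain ⟨β, hβ⟩ := ray_affine hγ hyp ξ 0 x
    have h1 := hβ t ht
    have h2 := hβ 1 zero_le_one
    rw [zero_add] at h1 h2
    rw [one_smul] at h2
    simp only [hG, inner_sub_right, inner_smul_right]
    rw [h1, h2]
    ring
  have hadd : ∀ x y : E, G (x + y) = G x + G y := by
    intro x y
    have hmid : G ((1 / 2 : ℝ) • (x + y)) = (1 / 2 : ℝ) • (G x + G y) := by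
      apply ext_inner_left ℝ
      intro ξ
      obtain ⟨β, hβ⟩ := ray_affine hγ hyp ξ x (y - x)
      have h1 := hβ (1 / 2) (by norm_num)
      have h2 := hβ 1 zero_le_one
      have e1 : x + (1 / 2 : ℝ) • (y - x) = (1 / 2 : ℝ) • (x + y) := by
        module
      have e2 : x + (1 : ℝ) • (y - x) = y := by
        rw [one_smul]
        abel
      rw [e1] at h1
      rw [e2] at h2
      simp only [hG, inner_sub_right, inner_smul_right, inner_add_right]
      rw [h1, h2]
      ring
    rw [hhom0 _ _ (by norm_num)] at hmid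
    exact smul_right_injective E (by norm_num : (1 / 2 : ℝ) ≠ 0) hmid
  have h0 : G 0 = 0 := by simp [hG]
  have hneg : ∀ x, G (-x) = -G x := by
    intro x
    have := hadd x (-x)
    rw [add_neg_cancel, h0] at this
    exact (neg_eq_of_add_eq_zero_right this.symm).symm
  refine ⟨{ toFun := G, map_add' := hadd, map_smul' := ?_ }, fun x => ?_⟩
  · intro t x
    rw [RingHom.id_apply]
    rcases le_total 0 t with ht | ht
    · exact hhom0 x t ht
    · have h1 := hhom0 (-x) (-t) (by linarith)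
      rw [smul_neg, neg_smul, neg_neg, hneg, smul_neg, neg_smul, neg_neg] at h1
      exact h1
  · show γ x = (γ x - γ 0) + γ 0
    abel

/-- affine maps preserve bandlimitedness -/
lemma affine_preserves (A : E →ₗ[ℝ] E) (b : E) (f : E → ℂ) (hf : Bandlimited f) :
    HasCompactSpectrum (fun x => f (A x + b)) := by
  obtain ⟨h, K, h1, hK, h0, rfl⟩ := hf.exists_repr
  set B : E →L[ℝ] E := LinearMap.toContinuousLinearMap A with hB
  set Bt : E →L[ℝ] E := ContinuousLinearMap.adjoint B with hBt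
  have hγ : Continuous fun x => A x + b := B.continuous.add continuous_const
  refine ⟨Bt '' K, hK.image Bt.continuous, fun φ hφ => ?_⟩
  rw [pair_eq hγ h1 (𝓕 φ)]
  rw [← integral_zero E ℂ]
  apply integral_congr_ae
  filter_upwards with ξ
  by_cases hξ : ξ ∈ K
  · have e1 : ∫ x, ch (fun x => A x + b) ξ x * 𝓕 φ x =
        Complex.exp ((2 * Real.pi * ⟪ξ, b⟫_ℝ : ℝ) * I) * φ (Bt ξ) := by
      have e2 : φ (Bt ξ) = 𝓕⁻ (𝓕 φ) (Bt ξ) := by rw [FourierTransform.fourierInv_fourier_eq]
      rw [e2, SchwartzMap.fourierInv_coe, Real.fourierInv_eq', ← integral_const_mul]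
      apply integral_congr_ae
      filter_upwards with x
      have e3 : ⟪x, Bt ξ⟫_ℝ = ⟪ξ, A x⟫_ℝ := by
        rw [hBt, ContinuousLinearMap.adjoint_inner_right, real_inner_comm]
        rfl
      rw [e3, smul_eq_mul, ← mul_assoc, ← Complex.exp_add, ch, inner_add_right]
      congr 2
      push_cast
      ring
    have e4 : φ (Bt ξ) = 0 := by
      have : Bt ξ ∉ tsupport φ := fun h => hφ h ⟨ξ, hξ, rfl⟩
      exact image_eq_zero_of_notMem_tsupport this
    rw [e1, e4, mul_zero, mul_zero]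
  · rw [h0 ξ hξ, zero_mul]

end Q84.TW
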