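import Mathlib

/-! The tent function and its product, tested against integer characters. -/

set_option autoImplicit false

namespace Q84.Tent

open MeasureTheory Complex

/-- `max(0, 1 - |t|)` -/
noncomputable def tent (t : ℝ) : ℝ := max 0 (1 - |t|)

lemma tent_cont : Continuous tent := by unfold tent; fun_prop

lemma tent_nonneg (t : ℝ) : 0 ≤ tent t := le_max_left _ _

lemma tent_le (t : ℝ) : tent t ≤ 1 := by
  unfold tent
  exact max_le zero_le_one (by have := abs_nonneg t; linarith)

lemma tent_zero {t : ℝ} (h : 1 ≤ |t|) : tent t = 0 := by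
  unfold tent; exact max_eq_left (by linarith)

lemma tent_supp : HasCompactSupport tent := by
  refine HasCompactSupport.intro (isCompact_Icc (a := (-1 : ℝ)) (b := 1)) fun t ht => ?_
  apply tent_zero
  by_contra h
  apply ht
  rw [Set.mem_Icc]
  exact abs_le.1 (not_le.1 h).le

/-- integer character -/
noncomputable def ch (m : ℤ) (t : ℝ) : ℂ := cexp ((-(2 * Real.pi * m * t) : ℝ) * I)

lemma ch_cont (m : ℤ) : Continuous (ch m) := by unfold ch; fun_prop

lemma ch_shift (m : ℤ) (t : ℝ) : ch m (t - 1) = ch m t := by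
  unfold ch
  rw [Complex.exp_eq_exp_iff_exists_int]
  refine ⟨m, ?_⟩
  push_cast
  ring

lemma int_ch (m : ℤ) : ∫ t in (0 : ℝ)..1, ch m t = if m = 0 then 1 else 0 := by
  unfold ch
  by_cases hm : m = 0
  · simp [hm]
  · rw [if_neg hm]
    have hc : ((-(2 * Real.pi * m) : ℝ) : ℂ) * I ≠ 0 := by
      refine mul_ne_zero ?_ I_ne_zero
      rw [Complex.ofReal_ne_zero]
      have : (m : ℝ) ≠ 0 := by exact_mod_cast hm
      have := Real.pi_ne_zero
      simp_all
    have e : ∀ t : ℝ, cexp ((-(2 * Real.pi * m * t) : ℝ) * I) =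
        cexp ((((-(2 * Real.pi * m) : ℝ) : ℂ) * I) * t) := by
      intro t; congr 1; push_cast; ring
    simp_rw [e]
    rw [integral_exp_mul_complex hc]
    have h1 : cexp (((-(2 * Real.pi * m) : ℝ) : ℂ) * I * ((1 : ℝ) : ℂ)) = 1 := by
      rw [Complex.exp_eq_one_iff]
      refine ⟨-m, ?_⟩
      push_cast
      ring
    rw [h1]
    simp

lemma int_tent_ch (m : ℤ) : ∫ t : ℝ, (tent t : ℂ) * ch m t = if m = 0 then 1 else 0 := by
  have hcont : Continuous fun t : ℝ => (tent t : ℂ) * ch m t := by
    have := tent_cont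
    have := ch_cont m
    fun_prop
  have hsupp : Function.support (fun t : ℝ => (tent t : ℂ) * ch m t) ⊆ Set.Ioc (-1) 1 := by
    intro t ht
    rw [Function.mem_support] at ht
    by_contra h
    apply ht
    rw [tent_zero, Complex.ofReal_zero, zero_mul]
    by_contra h2
    apply h
    have := abs_lt.1 (not_le.1 h2)
    exact ⟨this.1, this.2.le⟩
  rw [← intervalIntegral.integral_eq_integral_of_support_subset hsupp,
    ← intervalIntegral.integral_add_adjacent_intervals (b := 0)
      (hcont.intervalIntegrable _ _) (hcont.intervalIntegrable _ _)]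
  have h1 : ∫ t in (-1 : ℝ)..0, (tent t : ℂ) * ch m t = ∫ t in (0 : ℝ)..1, (t : ℂ) * ch m t := by
    have h2 := intervalIntegral.integral_comp_sub_right (a := 0) (b := 1)
      (fun t : ℝ => (tent t : ℂ) * ch m t) 1
    simp only [zero_sub, sub_self] at h2
    rw [← h2]
    apply intervalIntegral.integral_congr
    intro t ht
    rw [Set.uIcc_of_le zero_le_one] at ht
    simp only
    rw [ch_shift]
    congr 2
    unfold tent
    rw [abs_of_nonpos (by linarith [ht.2]), max_eq_right (by linarith [ht.1])]
    ring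
  have h2 : ∫ t in (0 : ℝ)..1, (tent t : ℂ) * ch m t =
      ∫ t in (0 : ℝ)..1, ((1 - t : ℝ) : ℂ) * ch m t := by
    apply intervalIntegral.integral_congr
    intro t ht
    rw [Set.uIcc_of_le zero_le_one] at ht
    simp only
    congr 2
    unfold tent
    rw [abs_of_nonneg ht.1, max_eq_right (by linarith [ht.2])]
  have hc := ch_cont m
  rw [h1, h2, ← intervalIntegral.integral_add
    (Continuous.intervalIntegrable (by fun_prop) _ _)
    (Continuous.intervalIntegrable (by fun_prop) _ _), ← int_ch m]
  apply intervalIntegral.integral_congr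
  intro t _
  simp only
  push_cast
  ring

variable {d : ℕ}

abbrev E (d : ℕ) : Type := EuclideanSpace ℝ (Fin d)

/-- product of tents -/
noncomputable def T (y : E d) : ℝ := ∏ i, tent (y i)

lemma T_cont : Continuous (T (d := d)) := by
  unfold T
  have := tent_cont
  fun_prop

lemma T_nonneg (y : E d) : 0 ≤ T y := Finset.prod_nonneg fun _ _ => tent_nonneg _

lemma T_supp : HasCompactSupport (T (d := d)) := by
  refine HasCompactSupport.intro (isCompact_closedBall (0 : E d) (Real.sqrt d)) fun y hy => ?_
  by_contra h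
  apply hy
  rw [mem_closedBall_zero_iff, EuclideanSpace.norm_eq]
  apply Real.sqrt_le_sqrt
  have h1 : ∀ i : Fin d, ‖y i‖ ^ 2 ≤ 1 := by
    intro i
    have h2 : tent (y i) ≠ 0 := by
      intro h3
      exact h (Finset.prod_eq_zero (Finset.mem_univ i) h3)
    have h3 : |y i| < 1 := by
      by_contra h4
      exact h2 (tent_zero (not_lt.1 h4))
    rw [Real.norm_eq_abs]
    have := abs_nonneg (y i)
    nlinarith
  calc ∑ i, ‖y i‖ ^ 2 ≤ ∑ _i : Fin d, (1 : ℝ) := Finset.sum_le_sum fun i _ => h1 i
    _ = d := by simp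

lemma int_T_ch (i0 : Fin d) (m : ℤ) :
    ∫ y : E d, (T y : ℂ) * ch m (y i0) = if m = 0 then 1 else 0 := by
  have h1 : ∫ y : E d, (T y : ℂ) * ch m (y i0) =
      ∫ y : Fin d → ℝ, ∏ i, ((tent (y i) : ℂ) * (if i = i0 then ch m (y i) else 1)) := by
    rw [← (PiLp.volume_preserving_ofLp (Fin d)).integral_comp
      (MeasurableEquiv.toLp 2 (Fin d → ℝ)).symm.measurableEmbedding]
    refine integral_congr_ae (Filter.Eventually.of_forall fun y => ?_)
    simp only
    rw [Finset.prod_mul_distrib, Finset.prod_ite_eq' Finset.univ i0 (fun i => ch m (y.ofLp i))]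
    simp [T]
  rw [h1, integral_fintype_prod_volume_eq_prod
    (fun i (t : ℝ) => (tent t : ℂ) * (if i = i0 then ch m t else 1))]
  have h2 : ∀ i, ∫ t : ℝ, (tent t : ℂ) * (if i = i0 then ch m t else 1) =
      if i = i0 then (if m = 0 then 1 else 0) else 1 := by
    intro i
    by_cases h : i = i0
    · simp only [h, if_true]
      exact int_tent_ch m
    · simp only [h, if_false]
      have := int_tent_ch 0
      simpa [ch] using this
  simp_rw [h2]
  rw [Finset.prod_ite_eq' Finset.univ i0 (fun _ => if m = 0 then (1 : ℂ) else 0)]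
  simp

end Q84.Tent
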