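import Mathlib

set_option autoImplicit false

namespace Q84.VCycle

open Matrix

/-- diagonal entries -/
def dg (b : ℝ) (l : ℕ) (i : Fin (l + 1)) : ℝ := if i = 0 then b else 1

/-- prolongations -/
noncomputable def pr (b c s : ℝ) (l : ℕ) : Matrix (Fin (l + 1 + 1)) (Fin (l + 1)) ℝ := fun i j =>
  if j = 0 then (if i = 0 then 2 * c else if i = 1 then -(2 * Real.sqrt b * s) else 0)
  else (if i = j.succ then 2 else 0)

/-- level matrices -/
noncomputable def AA (b : ℝ) (l : ℕ) : Matrix (Fin (l + 1)) (Fin (l + 1)) ℝ := diagonal (dg b l)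

/-- restrictions -/
noncomputable def RR (b c s : ℝ) (l : ℕ) : Matrix (Fin (l + 1)) (Fin (l + 1 + 1)) ℝ :=
  (1 / 2 : ℝ) • (pr b c s l)ᵀ

noncomputable def PI (b c s : ℝ) (l : ℕ) : Matrix (Fin (l + 1)) (Fin (l + 1 + 1)) ℝ :=
  (AA b l)⁻¹ * RR b c s l * AA b (l + 1)

theorem dg_zero (b : ℝ) (l : ℕ) : dg b l 0 = b := by simp [dg]

theorem dg_succ (b : ℝ) (l : ℕ) (i : Fin l) : dg b l i.succ = 1 := by simp [dg, Fin.succ_ne_zero]

theorem pr_00 (b c s : ℝ) (l : ℕ) : pr b c s l 0 0 = 2 * c := by simp [pr]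

theorem pr_0s (b c s : ℝ) (l : ℕ) (j : Fin l) : pr b c s l 0 j.succ = 0 := by
  unfold pr
  rw [if_neg (Fin.succ_ne_zero j), if_neg]
  exact (Fin.succ_ne_zero _).symm

theorem pr_10 (b c s : ℝ) (l : ℕ) : pr b c s l 1 0 = -(2 * Real.sqrt b * s) := by
  unfold pr
  rw [if_pos rfl, if_neg (by simp), if_pos rfl]

theorem pr_ss0 (b c s : ℝ) (l : ℕ) (i : Fin l) : pr b c s l i.succ.succ 0 = 0 := by
  unfold pr
  rw [if_pos rfl, if_neg (Fin.succ_ne_zero _), if_neg]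
  intro h
  have : i.succ = 0 := Fin.succ_injective _ h
  exact Fin.succ_ne_zero _ this

theorem pr_ss (b c s : ℝ) (l : ℕ) (i : Fin (l + 1)) (j : Fin l) :
    pr b c s l i.succ j.succ = if i = j.succ then 2 else 0 := by
  unfold pr
  rw [if_neg (Fin.succ_ne_zero _)]
  by_cases h : i = j.succ
  · rw [if_pos h, if_pos (by rw [h])]
  · rw [if_neg h, if_neg (fun hc => h (Fin.succ_injective _ hc))]

variable {b c s : ℝ}

/-- `(R A v)_0` -/
theorem RA_zero (l : ℕ) (v : Fin (l + 1 + 1) → ℝ) :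
    (RR b c s l *ᵥ (AA b (l + 1) *ᵥ v)) 0 = c * b * v 0 - Real.sqrt b * s * v 1 := by
  unfold RR AA
  have h2 : diagonal (dg b (l + 1)) *ᵥ v = fun i => dg b (l + 1) i * v i := by
    funext i; rw [mulVec_diagonal]
  rw [h2]
  simp only [mulVec, dotProduct, Matrix.smul_apply, transpose_apply, smul_eq_mul]
  rw [Fin.sum_univ_succ, Fin.sum_univ_succ]
  have h1 : ∀ i : Fin l, (1 / 2 * pr b c s l i.succ.succ 0) *
      (dg b (l + 1) i.succ.succ * v i.succ.succ) = 0 := by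
    intro i; rw [pr_ss0]; ring
  rw [Finset.sum_eq_zero (fun i _ => h1 i), pr_00]
  have h3 : (Fin.succ 0 : Fin (l + 1 + 1)) = 1 := rfl
  have h4 : dg b (l + 1) 1 = 1 := dg_succ b (l + 1) 0
  rw [h3, pr_10, dg_zero, h4]
  ring

theorem RA_succ (l : ℕ) (v : Fin (l + 1 + 1) → ℝ) (j : Fin l) :
    (RR b c s l *ᵥ (AA b (l + 1) *ᵥ v)) j.succ = v j.succ.succ := by
  unfold RR AA
  have h2 : diagonal (dg b (l + 1)) *ᵥ v = fun i => dg b (l + 1) i * v i := by
    funext i; rw [mulVec_diagonal]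
  rw [h2]
  simp only [mulVec, dotProduct, Matrix.smul_apply, transpose_apply, smul_eq_mul]
  rw [Fin.sum_univ_succ, pr_0s, mul_zero, zero_mul, zero_add]
  rw [Finset.sum_eq_single j.succ]
  · rw [pr_ss, if_pos rfl, dg_succ]; ring
  · intro i _ hi
    rw [pr_ss, if_neg hi]; ring
  · intro h; exact absurd (Finset.mem_univ _) h

theorem galerkin (hb : 0 < b) (hcs : c ^ 2 + s ^ 2 = 1) (l : ℕ) :
    RR b c s l * AA b (l + 1) * pr b c s l = (2 : ℝ) • AA b l := by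
  have hsq : Real.sqrt b * Real.sqrt b = b := Real.mul_self_sqrt hb.le
  have e : ∀ i j, (RR b c s l * AA b (l + 1) * pr b c s l) i j =
      (RR b c s l *ᵥ (AA b (l + 1) *ᵥ (fun k => pr b c s l k j))) i := by
    intro i j
    rw [Matrix.mul_assoc, Matrix.mul_apply]
    rfl
  have hAA : ∀ i j, AA b l i j = diagonal (dg b l) i j := fun _ _ => rfl
  ext i j
  rw [e, Matrix.smul_apply, hAA, smul_eq_mul]
  refine Fin.cases ?_ (fun i => ?_) i
  · rw [RA_zero]
    refine Fin.cases ?_ (fun j => ?_) j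
    · rw [pr_00, pr_10, diagonal_apply_eq, dg_zero]
      linear_combination (2 * s ^ 2) * hsq + 2 * b * hcs
    · have h2 : pr b c s l 1 j.succ = 0 := by
        have := pr_ss b c s l 0 j
        rw [if_neg (Fin.succ_ne_zero j).symm] at this
        exact this
      rw [pr_0s, h2, diagonal_apply_ne _ (Fin.succ_ne_zero j).symm]
      simp
  · rw [RA_succ]
    refine Fin.cases ?_ (fun j => ?_) j
    · rw [pr_ss0, diagonal_apply_ne _ (Fin.succ_ne_zero i)]
      simp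
    · rw [pr_ss]
      by_cases h : i = j
      · subst h
        rw [if_pos rfl, diagonal_apply_eq, dg_succ]; simp
      · rw [if_neg (fun hc => h (Fin.succ_injective _ hc)),
          diagonal_apply_ne _ (fun hc => h (Fin.succ_injective _ hc))]
        simp

theorem spec_A (hb : 0 < b) (hb1 : b ≤ 1) (l : ℕ) : spectralRadius ℝ (AA b (l + 1)) = 1 := by
  unfold spectralRadius
  have h1 : spectrum ℝ (AA b (l + 1)) = Set.range (dg b (l + 1)) := spectrum_diagonal _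
  rw [h1]
  apply le_antisymm
  · refine iSup₂_le ?_
    rintro _ ⟨i, rfl⟩
    have : ‖dg b (l + 1) i‖₊ ≤ 1 := by
      rw [← NNReal.coe_le_coe, coe_nnnorm, Real.norm_eq_abs]
      unfold dg
      split_ifs
      · rw [abs_of_pos hb]; exact hb1
      · simp
    exact_mod_cast this
  · have h2 : ((‖dg b (l + 1) (Fin.succ 0)‖₊ : NNReal) : ENNReal) = 1 := by
      rw [dg_succ]; simp
    rw [← h2]
    exact le_iSup₂_of_le (dg b (l + 1) (Fin.succ 0)) ⟨_, rfl⟩ le_rfl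

theorem dg_ne (hb : 0 < b) (l : ℕ) (i : Fin (l + 1)) : dg b l i ≠ 0 := by
  unfold dg
  split_ifs
  · exact hb.ne'
  · exact one_ne_zero

theorem dg_pos (hb : 0 < b) (l : ℕ) (i : Fin (l + 1)) : 0 < dg b l i := by
  unfold dg
  split_ifs
  · exact hb
  · exact one_pos

theorem A_posDef (hb : 0 < b) (l : ℕ) : (AA b l).PosDef :=
  Matrix.PosDef.diagonal (fun i => dg_pos hb l i)

theorem A_inv (hb : 0 < b) (l : ℕ) : (AA b l)⁻¹ = diagonal (fun i => (dg b l i)⁻¹) := by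
  apply Matrix.inv_eq_right_inv
  unfold AA
  rw [diagonal_mul_diagonal, ← diagonal_one]
  congr 1
  funext i
  exact mul_inv_cancel₀ (dg_ne hb l i)

theorem P_rank (hb : 0 < b) (hcs : c ^ 2 + s ^ 2 = 1) (l : ℕ) : (pr b c s l).rank = l + 1 := by
  apply le_antisymm
  · have := Matrix.rank_le_card_width (pr b c s l)
    simpa using this
  · have h1 : (RR b c s l * AA b (l + 1) * pr b c s l).rank ≤ (pr b c s l).rank :=
      Matrix.rank_mul_le_right _ _
    rw [galerkin hb hcs] at h1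
    have h2 : ((2 : ℝ) • AA b l).rank = l + 1 := by
      have hu : IsUnit ((2 : ℝ) • AA b l) := by
        rw [Matrix.isUnit_iff_isUnit_det]
        unfold AA
        rw [← diagonal_smul, det_diagonal]
        apply IsUnit.mk0
        apply Finset.prod_ne_zero_iff.2
        intro i _
        rw [Pi.smul_apply, smul_eq_mul]
        exact mul_ne_zero two_ne_zero (dg_ne hb l i)
      have := Matrix.rank_of_isUnit _ hu
      simpa using this
    omega

/-- the energy norm squared -/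
theorem energy_eq (l : ℕ) (v : Fin (l + 1 + 1) → ℝ) :
    v ⬝ᵥ (AA b (l + 1) *ᵥ v) =
      b * v 0 ^ 2 + v 1 ^ 2 + ∑ j : Fin l, v j.succ.succ ^ 2 := by
  unfold dotProduct AA
  simp only [mulVec_diagonal]
  rw [Fin.sum_univ_succ, Fin.sum_univ_succ, dg_zero]
  simp only [dg_succ]
  have : (Fin.succ 0 : Fin (l + 1 + 1)) = 1 := rfl
  rw [this, ← add_assoc]
  congr 1
  · ring
  · refine Finset.sum_congr rfl fun j _ => ?_
    ring

theorem euclid_eq (l : ℕ) (v : Fin (l + 1 + 1) → ℝ) :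
    (AA b (l + 1) *ᵥ v) ⬝ᵥ (AA b (l + 1) *ᵥ v) =
      b ^ 2 * v 0 ^ 2 + v 1 ^ 2 + ∑ j : Fin l, v j.succ.succ ^ 2 := by
  unfold dotProduct AA
  simp only [mulVec_diagonal]
  rw [Fin.sum_univ_succ, Fin.sum_univ_succ, dg_zero]
  simp only [dg_succ]
  have : (Fin.succ 0 : Fin (l + 1 + 1)) = 1 := rfl
  rw [this, ← add_assoc]
  congr 1
  · ring
  · refine Finset.sum_congr rfl fun j _ => ?_
    ring

theorem inner_eq (hb : 0 < b) (hc : 2 * c ^ 2 = 1 + Real.sqrt b) (hcs : c ^ 2 + s ^ 2 = 1)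
    (l : ℕ) (v : Fin (l + 1 + 1) → ℝ) :
    ((1 - pr b c s l * PI b c s l) *ᵥ v) ⬝ᵥ (AA b (l + 1) *ᵥ v) =
      -(Real.sqrt b * b * v 0 ^ 2) + Real.sqrt b * v 1 ^ 2 + 4 * c * s * Real.sqrt b * v 0 * v 1
        - ∑ j : Fin l, v j.succ.succ ^ 2 := by
  have hsq : Real.sqrt b * Real.sqrt b = b := Real.mul_self_sqrt hb.le
  have h1 : ((1 - pr b c s l * PI b c s l) *ᵥ v) ⬝ᵥ (AA b (l + 1) *ᵥ v) =
      v ⬝ᵥ (AA b (l + 1) *ᵥ v) -
        (pr b c s l *ᵥ (PI b c s l *ᵥ v)) ⬝ᵥ (AA b (l + 1) *ᵥ v) := by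
    rw [sub_mulVec, one_mulVec, sub_dotProduct, ← mulVec_mulVec]
  set u : Fin (l + 1) → ℝ := RR b c s l *ᵥ (AA b (l + 1) *ᵥ v) with hu
  have h2 : PI b c s l *ᵥ v = diagonal (fun i => (dg b l i)⁻¹) *ᵥ u := by
    unfold PI
    rw [A_inv hb, hu, Matrix.mul_assoc, ← mulVec_mulVec, ← mulVec_mulVec]
  have h3 : (pr b c s l)ᵀ *ᵥ (AA b (l + 1) *ᵥ v) = (2 : ℝ) • u := by
    rw [hu, RR, smul_mulVec, smul_smul]
    norm_num
  have h4 : (pr b c s l *ᵥ (PI b c s l *ᵥ v)) ⬝ᵥ (AA b (l + 1) *ᵥ v) =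
      2 * ∑ j : Fin (l + 1), (dg b l j)⁻¹ * u j ^ 2 := by
    rw [dotProduct_comm, dotProduct_mulVec, ← mulVec_transpose, h3, h2]
    unfold dotProduct
    rw [Finset.mul_sum]
    refine Finset.sum_congr rfl fun j _ => ?_
    rw [mulVec_diagonal, Pi.smul_apply, smul_eq_mul]
    ring
  rw [h1, h4, energy_eq, Fin.sum_univ_succ, dg_zero]
  have h5 : u 0 = c * b * v 0 - Real.sqrt b * s * v 1 := RA_zero l v
  have h6 : ∀ j : Fin l, (dg b l j.succ)⁻¹ * u j.succ ^ 2 = v j.succ.succ ^ 2 := by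
    intro j
    have : u j.succ = v j.succ.succ := RA_succ l v j
    rw [this, dg_succ]; ring
  rw [Finset.sum_congr rfl (fun j _ => h6 j), h5]
  have h7 : b⁻¹ * (c * b * v 0 - Real.sqrt b * s * v 1) ^ 2 =
      (c * Real.sqrt b * v 0 - s * v 1) ^ 2 := by
    have h8 : c * b * v 0 - Real.sqrt b * s * v 1 =
        Real.sqrt b * (c * Real.sqrt b * v 0 - s * v 1) := by
      linear_combination (-(c * v 0)) * hsq
    rw [h8, mul_pow, ← mul_assoc]
    have h9 : b⁻¹ * Real.sqrt b ^ 2 = 1 := by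
      rw [sq, hsq]; exact inv_mul_cancel₀ hb.ne'
    rw [h9, one_mul]
  rw [mul_add, h7]
  have hs : 2 * s ^ 2 = 1 - Real.sqrt b := by linarith
  linear_combination (-(2 * c ^ 2 * v 0 ^ 2)) * hsq - (b * v 0 ^ 2) * hc - (v 1 ^ 2) * hs

/-- the approximation inequality -/
theorem approx (hb : 0 < b) (hb1 : b ≤ 1) (hc : 2 * c ^ 2 = 1 + Real.sqrt b)
    (hcs : c ^ 2 + s ^ 2 = 1) (l : ℕ) (v : Fin (l + 1 + 1) → ℝ) :
    |((1 - pr b c s l * PI b c s l) *ᵥ v) ⬝ᵥ (AA b (l + 1) *ᵥ v)| ≤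
      4 * Real.sqrt ((AA b (l + 1) *ᵥ v) ⬝ᵥ (AA b (l + 1) *ᵥ v)) *
        Real.sqrt (v ⬝ᵥ (AA b (l + 1) *ᵥ v)) := by
  rw [inner_eq hb hc hcs, euclid_eq, energy_eq]
  set β := Real.sqrt b with hβ
  have hsq : β * β = b := Real.mul_self_sqrt hb.le
  have hβ0 : 0 < β := Real.sqrt_pos.2 hb
  have hβ1 : β ≤ 1 := by rw [hβ]; exact Real.sqrt_le_one.2 hb1
  set T := ∑ j : Fin l, v j.succ.succ ^ 2 with hT
  have hT0 : 0 ≤ T := Finset.sum_nonneg fun j _ => sq_nonneg _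
  set X := β * |v 0| with hX
  have hX0 : 0 ≤ X := by positivity
  have hX2 : X ^ 2 = b * v 0 ^ 2 := by rw [hX, mul_pow, sq_abs, sq β, hsq]
  set S := v 1 ^ 2 + T with hS
  have hS0 : 0 ≤ S := by positivity
  have hY : |v 1| ≤ Real.sqrt S := Real.abs_le_sqrt (by rw [hS]; linarith)
  have hSS : Real.sqrt S * Real.sqrt S = S := Real.mul_self_sqrt hS0
  have hSn := Real.sqrt_nonneg S
  -- |4 c s| ≤ 2
  have hcs2 : |4 * c * s| ≤ 2 := by
    rw [abs_le]
    constructor <;> nlinarith [sq_nonneg (c + s), sq_nonneg (c - s)]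
  set r1 := Real.sqrt (b ^ 2 * v 0 ^ 2 + v 1 ^ 2 + T) with hr1
  set r2 := Real.sqrt (b * v 0 ^ 2 + v 1 ^ 2 + T) with hr2
  have a1 : β * X ≤ r1 := by
    rw [hr1]; apply Real.le_sqrt_of_sq_le
    have : (β * X) ^ 2 = b ^ 2 * v 0 ^ 2 := by rw [mul_pow, hX2, sq β, hsq]; ring
    rw [this]; nlinarith [sq_nonneg (v 1)]
  have a2 : Real.sqrt S ≤ r1 := by
    rw [hr1]; apply Real.sqrt_le_sqrt
    rw [hS]; nlinarith [mul_nonneg (sq_nonneg b) (sq_nonneg (v 0))]
  have a3 : X ≤ r2 := by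
    rw [hr2]; apply Real.le_sqrt_of_sq_le
    rw [hX2]; nlinarith [sq_nonneg (v 1)]
  have a4 : Real.sqrt S ≤ r2 := by
    rw [hr2]; apply Real.sqrt_le_sqrt
    rw [hS]; nlinarith [mul_nonneg hb.le (sq_nonneg (v 0))]
  have hr10 : 0 ≤ r1 := Real.sqrt_nonneg _
  have hr20 : 0 ≤ r2 := Real.sqrt_nonneg _
  have b1 : β * X * X ≤ r1 * r2 := mul_le_mul a1 a3 hX0 hr10
  have b2 : Real.sqrt S * X ≤ r1 * r2 := mul_le_mul a2 a3 hX0 hr10
  have b3 : Real.sqrt S * Real.sqrt S ≤ r1 * r2 := mul_le_mul a2 a4 hSn hr10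
  have hmid : |4 * c * s * β * v 0 * v 1| ≤ 2 * (Real.sqrt S * X) := by
    have e : 4 * c * s * β * v 0 * v 1 = (4 * c * s) * (β * v 0) * v 1 := by ring
    rw [e, abs_mul, abs_mul, abs_mul β, abs_of_pos hβ0]
    calc |4 * c * s| * (β * |v 0|) * |v 1| ≤ 2 * X * Real.sqrt S := by
          apply mul_le_mul _ hY (abs_nonneg _) (by positivity)
          exact mul_le_mul_of_nonneg_right hcs2 hX0
      _ = 2 * (Real.sqrt S * X) := by ring
  have hm := abs_le.1 hmid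
  have e1 : β * b * v 0 ^ 2 = β * X * X := by
    rw [mul_assoc, ← hX2]; ring
  rw [abs_le]
  have hv1 : 0 ≤ v 1 ^ 2 := sq_nonneg _
  have hv1β : β * v 1 ^ 2 ≤ v 1 ^ 2 := mul_le_of_le_one_left hv1 hβ1
  have hv1β0 : 0 ≤ β * v 1 ^ 2 := by positivity
  have hbX : 0 ≤ β * X * X := by positivity
  have hSe : S = v 1 ^ 2 + T := hS
  constructor
  · rw [e1]
    linarith [hm.1, hm.2]
  · rw [e1]
    linarith [hm.1, hm.2]

/-- error amplitudes -/
noncomputable def amp (b : ℝ) (m : ℕ) : ℕ → ℝ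
  | 0 => 0
  | l + 1 => (1 - b) ^ (2 * m) * (amp b m l + Real.sqrt b * (1 + amp b m l))

/-- the smoothers -/
noncomputable def KK (b : ℝ) (l : ℕ) : Matrix (Fin (l + 1)) (Fin (l + 1)) ℝ :=
  1 - (1 : ℝ)⁻¹ • AA b l

/-- the smoother is a multiple of a rank one projection -/
theorem K_pow (l m : ℕ) (hm : 1 ≤ m) (i j : Fin (l + 1 + 1)) :
    (KK b (l + 1) ^ m) i j = if i = 0 ∧ j = 0 then (1 - b) ^ m else 0 := by
  have h1 : KK b (l + 1) = diagonal (fun i => 1 - dg b (l + 1) i) := by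
    unfold KK AA
    rw [inv_one, one_smul, ← diagonal_one, diagonal_sub]
  rw [h1, diagonal_pow]
  by_cases hij : i = j
  · subst hij
    rw [diagonal_apply_eq, Pi.pow_apply]
    by_cases hi : i = 0
    · subst hi; simp [dg]
    · simp only [dg, hi, false_and, if_false, sub_self]
      exact zero_pow (by omega)
  · rw [diagonal_apply_ne _ hij, if_neg]
    rintro ⟨rfl, rfl⟩; exact hij rfl

theorem sandwich {n : ℕ} (Kp X : Matrix (Fin (n + 1)) (Fin (n + 1)) ℝ) (κ : ℝ)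
    (hK : ∀ i j, Kp i j = if i = 0 ∧ j = 0 then κ else 0) (i j : Fin (n + 1)) :
    (Kp * X * Kp) i j = if i = 0 ∧ j = 0 then κ * X 0 0 * κ else 0 := by
  have h0 : ∀ i j, (i ≠ 0 ∨ j ≠ 0) → Kp i j = 0 := by
    intro i j h
    rw [hK, if_neg]
    rintro ⟨rfl, rfl⟩
    simp at h
  have h00 : Kp 0 0 = κ := by rw [hK, if_pos ⟨rfl, rfl⟩]
  have hKX : ∀ i k, i ≠ 0 → (Kp * X) i k = 0 := by
    intro i k hi
    rw [Matrix.mul_apply]
    exact Finset.sum_eq_zero fun a _ => by rw [h0 i a (Or.inl hi), zero_mul]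
  have hKX0 : ∀ k, (Kp * X) 0 k = κ * X 0 k := by
    intro k
    rw [Matrix.mul_apply, Finset.sum_eq_single 0]
    · rw [h00]
    · intro a _ ha; rw [h0 0 a (Or.inr ha), zero_mul]
    · intro h; exact absurd (Finset.mem_univ _) h
  rw [Matrix.mul_apply]
  by_cases hi : i = 0
  · by_cases hj : j = 0
    · subst hi; subst hj
      rw [if_pos ⟨rfl, rfl⟩, Finset.sum_eq_single 0]
      · rw [hKX0, h00]
      · intro a _ ha; rw [h0 a 0 (Or.inl ha), mul_zero]
      · intro h; exact absurd (Finset.mem_univ _) h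
    · rw [if_neg (fun h => hj h.2)]
      exact Finset.sum_eq_zero fun a _ => by rw [h0 a j (Or.inr hj), mul_zero]
  · rw [if_neg (fun h => hi h.1)]
    exact Finset.sum_eq_zero fun a _ => by rw [hKX i a hi, zero_mul]

/-- one step of the recursion -/
theorem step (hb : 0 < b) (hc : 2 * c ^ 2 = 1 + Real.sqrt b) (m l : ℕ) (hm : 1 ≤ m)
    (E : Matrix (Fin (l + 1)) (Fin (l + 1)) ℝ)
    (hE : ∀ i j, E i j = if i = 0 ∧ j = 0 then -amp b m l else 0) (i j : Fin (l + 1 + 1)) :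
    (KK b (l + 1) ^ m * (1 - pr b c s l * (1 - E) * PI b c s l) *
      KK b (l + 1) ^ m : Matrix (Fin (l + 1 + 1)) (Fin (l + 1 + 1)) ℝ) i j =
      if i = 0 ∧ j = 0 then -amp b m (l + 1) else 0 := by
  have hPi : PI b c s l 0 0 = c := by
    unfold PI
    rw [A_inv hb, Matrix.mul_assoc, diagonal_mul, dg_zero]
    have h1 : (RR b c s l * AA b (l + 1)) 0 0 = c * b := by
      unfold RR AA
      rw [mul_diagonal, dg_zero, Matrix.smul_apply, transpose_apply, pr_00, smul_eq_mul]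
      ring
    rw [h1, mul_comm c b, ← mul_assoc, inv_mul_cancel₀ hb.ne', one_mul]
  have hEP : ((1 - E) * PI b c s l : Matrix (Fin (l + 1)) (Fin (l + 1 + 1)) ℝ) 0 0 =
      (1 + amp b m l) * c := by
    rw [Matrix.mul_apply, Fin.sum_univ_succ]
    have h2 : ∀ k : Fin l, (1 - E) 0 k.succ * PI b c s l k.succ 0 = 0 := by
      intro k
      rw [Matrix.sub_apply, Matrix.one_apply_ne (Fin.succ_ne_zero k).symm, hE, if_neg]
      · ring
      · rintro ⟨_, h⟩; exact Fin.succ_ne_zero k h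
    rw [Finset.sum_eq_zero (fun k _ => h2 k), add_zero, hPi, Matrix.sub_apply,
      Matrix.one_apply_eq, hE, if_pos ⟨rfl, rfl⟩]
    ring
  have hX00 : (1 - pr b c s l * (1 - E) * PI b c s l : Matrix (Fin (l + 1 + 1))
      (Fin (l + 1 + 1)) ℝ) 0 0 = -(amp b m l + Real.sqrt b * (1 + amp b m l)) := by
    rw [Matrix.sub_apply, Matrix.one_apply_eq, Matrix.mul_assoc, Matrix.mul_apply,
      Fin.sum_univ_succ, pr_00, hEP]
    have h1 : ∀ k : Fin l, pr b c s l 0 k.succ *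
        ((1 - E) * PI b c s l : Matrix (Fin (l + 1)) (Fin (l + 1 + 1)) ℝ) k.succ 0 = 0 := by
      intro k; rw [pr_0s, zero_mul]
    rw [Finset.sum_eq_zero (fun k _ => h1 k), add_zero]
    linear_combination (-(1 + amp b m l)) * hc
  rw [sandwich _ _ _ (K_pow l m hm), hX00]
  by_cases h : i = 0 ∧ j = 0
  · rw [if_pos h, if_pos h, amp, two_mul, pow_add]
    ring
  · rw [if_neg h, if_neg h]

theorem amp_nonneg {m : ℕ} (hb1 : b ≤ 1) (l : ℕ) : 0 ≤ amp b m l := by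
  induction l with
  | zero => simp [amp]
  | succ l ih =>
    rw [amp]
    have h1 : 0 ≤ (1 - b) ^ (2 * m) := pow_nonneg (by linarith) _
    have h2 := Real.sqrt_nonneg b
    positivity

theorem amp_ge {m : ℕ} (hb1 : b ≤ 1) (hq : 1 ≤ (1 - b) ^ (2 * m) * (1 + Real.sqrt b)) (l : ℕ) :
    (l : ℝ) * ((1 - b) ^ (2 * m) * Real.sqrt b) ≤ amp b m l := by
  induction l with
  | zero => simp [amp]
  | succ l ih =>
    rw [amp]
    have h0 := amp_nonneg (m := m) hb1 l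
    have e : (1 - b) ^ (2 * m) * (amp b m l + Real.sqrt b * (1 + amp b m l)) =
        ((1 - b) ^ (2 * m) * (1 + Real.sqrt b)) * amp b m l + (1 - b) ^ (2 * m) * Real.sqrt b := by
      ring
    rw [e]
    push_cast
    nlinarith

end Q84.VCycle
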