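import Mathlib

/-! Vilenkin groups: measure, characters, Dirichlet kernels. -/

set_option autoImplicit false
set_option linter.unusedSectionVars false
open Finset MeasureTheory
open scoped ComplexConjugate ENNReal

namespace Q84.VK

variable (m : ℕ → ℕ) [hm0 : ∀ k, NeZero (m k)]

/-- the Vilenkin group -/
abbrev G : Type := ∀ k : ℕ, ZMod (m k)

/-- uniform probability measure -/
noncomputable def unif (n : ℕ) : Measure (ZMod n) := (n : ℝ≥0∞)⁻¹ • Measure.count

instance (n : ℕ) [NeZero n] : IsProbabilityMeasure (unif n) := by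
  constructor
  unfold unif
  rw [Measure.smul_apply, Measure.count_univ]
  simp only [smul_eq_mul]
  rw [ENat.card_eq_coe_fintype_card, ZMod.card]
  have h : (n : ℝ≥0∞) ≠ 0 := by exact_mod_cast NeZero.ne n
  simpa using ENNReal.inv_mul_cancel h (ENNReal.natCast_ne_top n)

/-- product measure -/
noncomputable def mu : Measure (G m) := Measure.infinitePi fun k => unif (m k)

instance : IsProbabilityMeasure (mu m) := by unfold mu; infer_instance

/-- `M_0 = 1`, `M_{k+1} = m_k M_k` -/
def M : ℕ → ℕ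
  | 0 => 1
  | k + 1 => m k * M k

/-- the digit `n_k` -/
def dig (n k : ℕ) : ℕ := n / M m k % m k

/-- generalised Rademacher functions -/
noncomputable def r (k : ℕ) (x : G m) : ℂ :=
  Complex.exp (2 * Real.pi * Complex.I * ((x k).val : ℂ) / (m k : ℂ))

/-- Vilenkin functions (all digits of `n` of index `≥ n` vanish) -/
noncomputable def psi (n : ℕ) (x : G m) : ℂ := ∏ k ∈ range n, r m k x ^ dig m n k

variable {m}

lemma r_eq (k : ℕ) (x : G m) : r m k x = ZMod.stdAddChar (x k) := by
  have h := ZMod.stdAddChar_coe (N := m k) (((x k).val : ℕ) : ℤ)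
  rw [r]
  have h2 : (((((x k).val : ℕ) : ℤ)) : ZMod (m k)) = x k := by
    rw [Int.cast_natCast, ZMod.natCast_zmod_val]
  rw [h2] at h
  rw [h]
  push_cast
  rfl

lemma r_add (k : ℕ) (x y : G m) : r m k (x + y) = r m k x * r m k y := by
  rw [r_eq, r_eq, r_eq, Pi.add_apply, AddChar.map_add_eq_mul]

lemma norm_r (k : ℕ) (x : G m) : ‖r m k x‖ = 1 := by
  rw [r_eq, ZMod.stdAddChar_apply]
  exact Circle.norm_coe _

lemma r_neg (k : ℕ) (x : G m) : r m k (-x) = conj (r m k x) := by
  have h : r m k (-x) * r m k x = 1 := by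
    rw [← r_add, neg_add_cancel, r_eq, Pi.zero_apply, AddChar.map_zero_eq_one]
  have h2 : conj (r m k x) * r m k x = 1 := by
    rw [Complex.conj_mul', norm_r]
    simp
  have h0 : r m k x ≠ 0 := by
    intro h0
    rw [h0, mul_zero] at h
    exact zero_ne_one h
  exact mul_right_cancel₀ h0 (h.trans h2.symm)

lemma r_congr {k : ℕ} {x y : G m} (h : x k = y k) : r m k x = r m k y := by rw [r_eq, r_eq, h]

lemma M_pos (k : ℕ) : 0 < M m k := by
  induction k with
  | zero => exact Nat.one_pos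
  | succ k ih => exact Nat.mul_pos (Nat.pos_of_ne_zero (NeZero.ne _)) ih

lemma M_succ (k : ℕ) : M m (k + 1) = m k * M m k := rfl

lemma M_dvd {j k : ℕ} (h : j ≤ k) : M m j ∣ M m k := by
  induction k, h using Nat.le_induction with
  | base => exact dvd_rfl
  | succ k _ ih => rw [M_succ]; exact ih.trans (Dvd.intro_left _ rfl)

lemma M_mono {j k : ℕ} (h : j ≤ k) : M m j ≤ M m k := Nat.le_of_dvd (M_pos k) (M_dvd h)

lemma two_pow_le_M (hm : ∀ k, 2 ≤ m k) (k : ℕ) : 2 ^ k ≤ M m k := by
  induction k with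
  | zero => exact le_rfl
  | succ k ih =>
    rw [M_succ, pow_succ, mul_comm]
    exact Nat.mul_le_mul (hm k) ih

lemma lt_M_self (hm : ∀ k, 2 ≤ m k) (n : ℕ) : n < M m n :=
  lt_of_lt_of_le Nat.lt_two_pow_self (two_pow_le_M hm n)

lemma dig_eq_zero {n k : ℕ} (h : n < M m k) : dig m n k = 0 := by
  unfold dig
  rw [Nat.div_eq_of_lt h, Nat.zero_mod]

lemma psi_eq (hm : ∀ k, 2 ≤ m k) {n K : ℕ} (h : n < M m K) (x : G m) :
    psi m n x = ∏ k ∈ range K, r m k x ^ dig m n k := by
  unfold psi
  have h1 : ∀ a b : ℕ, a ≤ b → n < M m a →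
      ∏ k ∈ range b, r m k x ^ dig m n k = ∏ k ∈ range a, r m k x ^ dig m n k := by
    intro a b hab ha
    symm
    refine Finset.prod_subset (range_mono hab) fun k _ hk => ?_
    rw [dig_eq_zero (ha.trans_le (M_mono (by simpa using hk))), pow_zero]
  rcases le_total n K with hnK | hnK
  · exact (h1 n K hnK (lt_M_self hm n)).symm
  · exact h1 K n hnK h

lemma psi_zero (x : G m) : psi m 0 x = 1 := by simp [psi]

lemma norm_psi (n : ℕ) (x : G m) : ‖psi m n x‖ = 1 := by
  unfold psi
  rw [norm_prod]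
  refine Finset.prod_eq_one fun k _ => ?_
  rw [norm_pow, norm_r, one_pow]

lemma psi_add (n : ℕ) (x y : G m) : psi m n (x + y) = psi m n x * psi m n y := by
  unfold psi
  rw [← Finset.prod_mul_distrib]
  refine Finset.prod_congr rfl fun k _ => ?_
  rw [r_add, mul_pow]

lemma psi_neg (n : ℕ) (x : G m) : psi m n (-x) = conj (psi m n x) := by
  unfold psi
  rw [map_prod]
  refine Finset.prod_congr rfl fun k _ => ?_
  rw [r_neg, map_pow]

lemma psi_congr (hm : ∀ k, 2 ≤ m k) {n K : ℕ} (h : n < M m K) {x y : G m}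
    (hxy : ∀ k < K, x k = y k) : psi m n x = psi m n y := by
  rw [psi_eq hm h, psi_eq hm h]
  refine Finset.prod_congr rfl fun k hk => ?_
  rw [r_congr (hxy k (Finset.mem_range.1 hk))]

lemma dig_split_lt {K k d i : ℕ} (hk : k < K) (hi : i < M m K) :
    dig m (d * M m K + i) k = dig m i k := by
  unfold dig
  obtain ⟨c, hc⟩ := M_dvd (m := m) (Nat.succ_le_of_lt hk)
  have h1 : d * M m K = M m k * (m k * (c * d)) := by
    rw [hc, M_succ]
    ring
  rw [h1, Nat.mul_add_div (M_pos k), Nat.mul_add_mod]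

lemma dig_split_eq {K d i : ℕ} (hd : d < m K) (hi : i < M m K) :
    dig m (d * M m K + i) K = d := by
  unfold dig
  rw [mul_comm, Nat.mul_add_div (M_pos K), Nat.div_eq_of_lt hi, add_zero, Nat.mod_eq_of_lt hd]

lemma lt_M_succ {K d i : ℕ} (hd : d < m K) (hi : i < M m K) : d * M m K + i < M m (K + 1) := by
  rw [M_succ]
  calc d * M m K + i < d * M m K + M m K := by omega
    _ = (d + 1) * M m K := by ring
    _ ≤ m K * M m K := Nat.mul_le_mul_right _ hd

lemma psi_split (hm : ∀ k, 2 ≤ m k) {K d i : ℕ} (hd : d < m K) (hi : i < M m K) (x : G m) :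
    psi m (d * M m K + i) x = r m K x ^ d * psi m i x := by
  rw [psi_eq hm (lt_M_succ hd hi), psi_eq hm hi, Finset.prod_range_succ, dig_split_eq hd hi,
    mul_comm]
  congr 1
  refine Finset.prod_congr rfl fun k hk => ?_
  rw [dig_split_lt (Finset.mem_range.1 hk) hi]

variable (m) in
/-- Dirichlet kernels -/
noncomputable def D (n : ℕ) (x : G m) : ℂ := ∑ i ∈ range n, psi m i x

lemma norm_D_le (n : ℕ) (x : G m) : ‖D m n x‖ ≤ n := by
  unfold D
  refine (norm_sum_le _ _).trans ?_
  simp [norm_psi]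

lemma D_congr (hm : ∀ k, 2 ≤ m k) {n K : ℕ} (h : n ≤ M m K) {x y : G m}
    (hxy : ∀ k < K, x k = y k) : D m n x = D m n y :=
  Finset.sum_congr rfl fun i hi =>
    psi_congr hm ((Finset.mem_range.1 hi).trans_le h) hxy

lemma D_split (hm : ∀ k, 2 ≤ m k) {K d i : ℕ} (hd : d < m K) (hi : i ≤ M m K) (x : G m) :
    D m (d * M m K + i) x = D m (d * M m K) x + r m K x ^ d * D m i x := by
  unfold D
  rw [Finset.sum_range_add, Finset.mul_sum]
  congr 1
  refine Finset.sum_congr rfl fun i' hi' => ?_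
  exact psi_split hm hd ((Finset.mem_range.1 hi').trans_le hi) x

lemma D_mul (hm : ∀ k, 2 ≤ m k) {K d : ℕ} (hd : d ≤ m K) (x : G m) :
    D m (d * M m K) x = (∑ e ∈ range d, r m K x ^ e) * D m (M m K) x := by
  induction d with
  | zero => simp [D]
  | succ d ih =>
    have h : (d + 1) * M m K = d * M m K + M m K := by ring
    rw [h, D_split hm (Nat.lt_of_succ_le hd) le_rfl, ih (by omega), Finset.sum_range_succ]
    ring

/-- `∑_{e<m} χ^e = 0` -/
lemma geom_zero {K : ℕ} {x : G m} (hx : x K ≠ 0) : ∑ e ∈ range (m K), r m K x ^ e = 0 := by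
  have h1 : r m K x ≠ 1 := by
    rw [r_eq]
    intro h
    apply hx
    apply ZMod.injective_stdAddChar
    rw [h, AddChar.map_zero_eq_one]
  have h2 : r m K x ^ m K = 1 := by
    rw [r_eq, ← AddChar.map_nsmul_eq_pow]
    have : (m K : ℕ) • x K = 0 := by
      rw [nsmul_eq_mul, ZMod.natCast_self, zero_mul]
    rw [this, AddChar.map_zero_eq_one]
  have h3 := geom_sum_mul (r m K x) (m K)
  rw [h2, sub_self] at h3
  rcases mul_eq_zero.1 h3 with h | h
  · exact h
  · exact absurd (sub_eq_zero.1 h) h1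

lemma D_M_eq_zero (hm : ∀ k, 2 ≤ m k) {s J : ℕ} (hs : s < J) {x : G m} (hx : x s ≠ 0) :
    D m (M m J) x = 0 := by
  induction J, hs using Nat.le_induction with
  | base => rw [M_succ, D_mul hm le_rfl, geom_zero hx, zero_mul]
  | succ J _ ih => rw [M_succ, D_mul hm le_rfl, ih, mul_zero]

lemma D_mul_eq_zero (hm : ∀ k, 2 ≤ m k) {s J d : ℕ} (hs : s < J) {x : G m} (hx : x s ≠ 0)
    (hd : d ≤ m J) : D m (d * M m J) x = 0 := by
  rw [D_mul hm hd, D_M_eq_zero hm hs hx, mul_zero]

/-! ### translation invariance and finite averages -/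

lemma unif_map_sub (n : ℕ) [NeZero n] (c : ZMod n) :
    (unif n).map (fun x => x + c) = unif n := by
  unfold unif
  rw [Measure.map_smul]
  congr 1
  ext s _
  rw [Measure.map_apply (by fun_prop) (MeasurableSet.of_discrete),
    Measure.count_apply MeasurableSet.of_discrete, Measure.count_apply MeasurableSet.of_discrete]
  have : (fun x : ZMod n => x + c) ⁻¹' s = (Equiv.addRight c) ⁻¹' s := rfl
  rw [this]
  have h2 : (Equiv.addRight c) ⁻¹' s = (Equiv.addRight c).symm '' s := by
    rw [Equiv.image_symm_eq_preimage]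
  rw [h2, Function.Injective.encard_image (Equiv.injective _)]

lemma mu_map_add (c : G m) : (mu m).map (fun x => x + c) = mu m := by
  unfold mu
  have h := Measure.infinitePi_map_pi (fun k => unif (m k)) (f := fun k (x : ZMod (m k)) => x + c k)
    (fun k => by fun_prop)
  have e : (fun (x : G m) k => x k + c k) = fun x => x + c := rfl
  rw [e] at h
  rw [h]
  congr 1
  ext k : 1
  exact unif_map_sub (m k) (c k)

lemma mp_add (c : G m) : MeasurePreserving (fun x => x + c) (mu m) (mu m) :=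
  ⟨by fun_prop, mu_map_add c⟩

lemma lintegral_add (c : G m) {F : G m → ℝ≥0∞} (hF : Measurable F) :
    ∫⁻ x, F (x + c) ∂(mu m) = ∫⁻ x, F x ∂(mu m) :=
  (mp_add c).lintegral_comp hF

end Q84.VK
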