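import Mathlib
import Pool.Agent.Q84.VK1

/-! Vilenkin martingales: Fourier coefficients and kernels. -/

set_option autoImplicit false
set_option linter.unusedSectionVars false
open Finset MeasureTheory Filter Topology
open scoped ComplexConjugate ENNReal

namespace Q84.VK

variable {m : ℕ → ℕ} [hm0 : ∀ k, NeZero (m k)]

/-- dependence on the first `N` coordinates -/
def Dep {α : Type*} (N : ℕ) (h : G m → α) : Prop := ∀ x y : G m, (∀ k < N, x k = y k) → h x = h y

lemma Dep.mono {α : Type*} {N N' : ℕ} {h : G m → α} (H : Dep N h) (hN : N ≤ N') : Dep N' h :=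
  fun x y hxy => H x y fun k hk => hxy k (hk.trans_le hN)

variable (m) in
/-- the finite quotients -/
abbrev H (N : ℕ) : Type := ∀ k : Fin N, ZMod (m k)

/-- embedding of the finite quotient -/
def emb {N : ℕ} (z : H m N) : G m := fun k => if h : k < N then z ⟨k, h⟩ else 0

lemma emb_apply {N : ℕ} (z : H m N) {k : ℕ} (h : k < N) : emb z k = z ⟨k, h⟩ := by
  simp [emb, h]

lemma emb_apply_ge {N : ℕ} (z : H m N) {k : ℕ} (h : N ≤ k) : emb z k = 0 := by
  simp [emb, Nat.not_lt.2 h]

/-- restriction -/
def res (N : ℕ) (x : G m) : H m N := fun k => x k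

lemma emb_res {N : ℕ} (x : G m) {k : ℕ} (h : k < N) : emb (res N x) k = x k := by
  rw [emb_apply _ h]
  rfl

lemma card_H (N : ℕ) : Fintype.card (H m N) = M m N := by
  rw [Fintype.card_pi]
  simp only [ZMod.card]
  rw [Fin.prod_univ_eq_prod_range (fun k => m k) N]
  induction N with
  | zero => rfl
  | succ N ih => rw [Finset.prod_range_succ, ih, M_succ, mul_comm]

lemma Dep.measurable {α : Type*} [MeasurableSpace α] {N : ℕ} {h : G m → α} (hh : Dep N h) :
    Measurable h := by
  have e : h = (fun z : H m N => h (emb z)) ∘ res N := by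
    ext x
    exact hh _ _ fun k hk => (emb_res x hk).symm
  rw [e]
  refine (measurable_of_finite _).comp ?_
  unfold res
  fun_prop

lemma Dep.bdd {N : ℕ} {h : G m → ℂ} (hh : Dep N h) : ∃ C, ∀ x, ‖h x‖ ≤ C := by
  refine ⟨∑ z : H m N, ‖h (emb z)‖, fun x => ?_⟩
  rw [hh x (emb (res N x)) fun k hk => (emb_res x hk).symm]
  exact Finset.single_le_sum (f := fun z : H m N => ‖h (emb z)‖) (fun z _ => norm_nonneg _)
    (Finset.mem_univ (res N x))

lemma Dep.integrable {N : ℕ} {h : G m → ℂ} (hh : Dep N h) : Integrable h (mu m) := by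
  obtain ⟨C, hC⟩ := hh.bdd
  exact Integrable.of_bound hh.measurable.aestronglyMeasurable C (Eventually.of_forall hC)

lemma integral_add (c : G m) (h : G m → ℂ) :
    ∫ x, h (x + c) ∂(mu m) = ∫ x, h x ∂(mu m) := by
  have e : MeasurableEmbedding fun x : G m => x + c := by
    refine MeasurableEquiv.measurableEmbedding
      ⟨Equiv.addRight c, ?_, ?_⟩
    · show Measurable fun x : G m => x + c
      fun_prop
    · show Measurable fun x : G m => x + -c
      fun_prop
  exact (mp_add c).integral_comp e h

/-- the sum over the finite quotient is translation invariant -/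
lemma sum_add {α : Type*} [AddCommMonoid α] {N : ℕ} {h : G m → α} (hh : Dep N h) (x : G m) :
    ∑ z : H m N, h (x + emb z) = ∑ z : H m N, h (emb z) := by
  rw [← Equiv.sum_comp (Equiv.addLeft (res N x)) (fun z : H m N => h (emb z))]
  apply Finset.sum_congr rfl
  intro z _
  apply hh
  intro k hk
  rw [Pi.add_apply, emb_apply _ hk, emb_apply _ hk]
  rfl

lemma sum_sub {α : Type*} [AddCommMonoid α] {N : ℕ} {h : G m → α} (hh : Dep N h) (x : G m) :
    ∑ z : H m N, h (x - emb z) = ∑ z : H m N, h (emb z) := by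
  rw [← Equiv.sum_comp (Equiv.subLeft (res N x)) (fun z : H m N => h (emb z))]
  apply Finset.sum_congr rfl
  intro z _
  apply hh
  intro k hk
  rw [Pi.sub_apply, emb_apply _ hk, emb_apply _ hk]
  rfl

lemma integral_eq {N : ℕ} {h : G m → ℂ} (hh : Dep N h) :
    ∫ x, h x ∂(mu m) = (1 / M m N : ℂ) * ∑ z : H m N, h (emb z) := by
  have h1 : ∫ x, ∑ z : H m N, h (x + emb z) ∂(mu m) = M m N * ∫ x, h x ∂(mu m) := by
    rw [integral_finsetSum]
    · simp_rw [integral_add]
      rw [Finset.sum_const, Finset.card_univ, card_H, nsmul_eq_mul]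
    · intro z _
      have : Dep N fun x => h (x + emb z) := fun x y hxy => hh _ _ fun k hk => by
        rw [Pi.add_apply, Pi.add_apply, hxy k hk]
      exact this.integrable
  simp_rw [sum_add hh] at h1
  rw [integral_const] at h1
  simp only [probReal_univ, one_smul] at h1
  rw [h1]
  have : (M m N : ℂ) ≠ 0 := by exact_mod_cast (M_pos N).ne'
  field_simp

/-- martingales with respect to the filtration generated by the coordinates -/
structure IsMart (f : ℕ → G m → ℂ) : Prop where
  adapted : ∀ n, Dep n (f n)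
  avg : ∀ n (x : G m), f n x = (∑ d : ZMod (m n), f (n + 1) (Function.update x n d)) / (m n : ℂ)

lemma IsMart.avg' {f : ℕ → G m → ℂ} (hf : IsMart f) (n : ℕ) (x : G m) :
    (m n : ℂ) * f n x = ∑ d : ZMod (m n), f (n + 1) (x + Pi.single n d) := by
  have h0 : (m n : ℂ) ≠ 0 := by exact_mod_cast NeZero.ne (m n)
  rw [hf.avg n x, mul_div_cancel₀ _ h0,
    ← Equiv.sum_comp (Equiv.addLeft (x n)) (fun d => f (n + 1) (Function.update x n d))]
  apply Finset.sum_congr rfl
  intro d _
  congr 1
  ext k
  by_cases hk : k = n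
  · subst hk
    simp
  · simp [hk]

/-- Fourier coefficients -/
noncomputable def coef (f : ℕ → G m → ℂ) (i : ℕ) : ℂ :=
  limUnder atTop fun k => ∫ x, f k x * conj (psi m i x) ∂(mu m)

lemma coef_step (hm : ∀ k, 2 ≤ m k) {f : ℕ → G m → ℂ} (hf : IsMart f) {i k : ℕ}
    (hi : i < M m k) :
    ∫ x, f (k + 1) x * conj (psi m i x) ∂(mu m) = ∫ x, f k x * conj (psi m i x) ∂(mu m) := by
  have h0 : (m k : ℂ) ≠ 0 := by exact_mod_cast NeZero.ne (m k)
  have hdep : ∀ d : ZMod (m k), Dep (k + 1) fun x : G m =>
      f (k + 1) (x + Pi.single k d) * conj (psi m i x) := by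
    intro d x y hxy
    show f (k + 1) (x + Pi.single k d) * conj (psi m i x) =
      f (k + 1) (y + Pi.single k d) * conj (psi m i y)
    rw [hf.adapted (k + 1) _ (y + Pi.single k d) fun j hj => by
      rw [Pi.add_apply, Pi.add_apply, hxy j hj],
      psi_congr hm (hi.trans_le (M_mono (Nat.le_succ k))) hxy]
  have h1 : (m k : ℂ) * ∫ x, f (k + 1) x * conj (psi m i x) ∂(mu m) =
      ∫ x, ∑ d : ZMod (m k), f (k + 1) (x + Pi.single k d) * conj (psi m i x) ∂(mu m) := by
    rw [integral_finsetSum _ fun d _ => (hdep d).integrable]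
    have : ∀ d : ZMod (m k), ∫ x, f (k + 1) (x + Pi.single k d) * conj (psi m i x) ∂(mu m) =
        ∫ x, f (k + 1) x * conj (psi m i x) ∂(mu m) := by
      intro d
      rw [← integral_add (Pi.single k d) (fun x => f (k + 1) x * conj (psi m i x))]
      apply integral_congr_ae
      filter_upwards with x
      have h2 : psi m i (x + Pi.single k d) = psi m i x := psi_congr hm hi fun j hj => by
        rw [Pi.add_apply, Pi.single_eq_of_ne (by omega), add_zero]
      rw [h2]
    rw [Finset.sum_congr rfl fun d _ => this d, Finset.sum_const, Finset.card_univ, ZMod.card,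
      nsmul_eq_mul]
  have h2 : ∫ x, ∑ d : ZMod (m k), f (k + 1) (x + Pi.single k d) * conj (psi m i x) ∂(mu m) =
      (m k : ℂ) * ∫ x, f k x * conj (psi m i x) ∂(mu m) := by
    rw [← integral_const_mul]
    apply integral_congr_ae
    filter_upwards with x
    rw [← Finset.sum_mul, ← hf.avg']
    ring
  exact mul_left_cancel₀ h0 (h1.trans h2)

lemma coef_eq (hm : ∀ k, 2 ≤ m k) {f : ℕ → G m → ℂ} (hf : IsMart f) {i N : ℕ}
    (hi : i < M m N) : coef f i = ∫ x, f N x * conj (psi m i x) ∂(mu m) := by
  have h1 : ∀ k, N ≤ k → ∫ x, f k x * conj (psi m i x) ∂(mu m) =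
      ∫ x, f N x * conj (psi m i x) ∂(mu m) := by
    intro k hk
    induction k, hk using Nat.le_induction with
    | base => rfl
    | succ k hk ih => rw [coef_step hm hf (hi.trans_le (M_mono hk)), ih]
  unfold coef
  apply Tendsto.limUnder_eq
  apply tendsto_const_nhds.congr'
  filter_upwards [eventually_ge_atTop N] with k hk
  exact (h1 k hk).symm

/-- partial sums -/
noncomputable def S (f : ℕ → G m → ℂ) (n : ℕ) (x : G m) : ℂ :=
  ∑ i ∈ range n, coef f i * psi m i x

lemma S_eq (hm : ∀ k, 2 ≤ m k) {f : ℕ → G m → ℂ} (hf : IsMart f) {n N : ℕ}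
    (hn : n ≤ M m N) (x : G m) :
    S f n x = (1 / M m N : ℂ) * ∑ z : H m N, D m n (emb z) * f N (x - emb z) := by
  have h1 : ∀ i ∈ range n, coef f i * psi m i x =
      (1 / M m N : ℂ) * ∑ z : H m N, f N (emb z) * psi m i (x - emb z) := by
    intro i hi
    have hi' : i < M m N := (Finset.mem_range.1 hi).trans_le hn
    have hd : Dep N fun y : G m => f N y * conj (psi m i y) := fun y y' hy => by
      show f N y * conj (psi m i y) = f N y' * conj (psi m i y')
      rw [hf.adapted N y y' hy, psi_congr hm hi' hy]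
    rw [coef_eq hm hf hi', integral_eq hd, mul_assoc, Finset.sum_mul]
    congr 1
    apply Finset.sum_congr rfl
    intro z _
    rw [sub_eq_add_neg, psi_add, psi_neg]
    ring
  unfold S
  rw [Finset.sum_congr rfl h1, ← Finset.mul_sum, Finset.sum_comm]
  congr 1
  have h2 : ∀ z : H m N, ∑ i ∈ range n, f N (emb z) * psi m i (x - emb z) =
      f N (emb z) * D m n (x - emb z) := by
    intro z
    rw [← Finset.mul_sum]
    rfl
  rw [Finset.sum_congr rfl fun z _ => h2 z]
  have hd2 : Dep N fun y : G m => f N y * D m n (x - y) := fun y y' hy => by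
    show f N y * D m n (x - y) = f N y' * D m n (x - y')
    have hD : D m n (x - y) = D m n (x - y') := D_congr hm hn fun k hk => by
      rw [Pi.sub_apply, Pi.sub_apply, hy k hk]
    rw [hf.adapted N y y' hy, hD]
  rw [← sum_sub hd2 x]
  apply Finset.sum_congr rfl
  intro z _
  simp only [sub_sub_cancel]
  ring

lemma S_M (hm : ∀ k, 2 ≤ m k) {f : ℕ → G m → ℂ} (hf : IsMart f) (N : ℕ) (x : G m) :
    S f (M m N) x = f N x := by
  rw [S_eq hm hf le_rfl]
  have h1 : ∀ z : H m N, D m (M m N) (emb z) * f N (x - emb z) =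
      if z = 0 then (M m N : ℂ) * f N x else 0 := by
    intro z
    by_cases hz : z = 0
    · subst hz
      rw [if_pos rfl]
      have e0 : (emb (0 : H m N) : G m) = 0 := by
        ext k
        simp [emb]
      rw [e0, sub_zero]
      congr 1
      unfold D
      have : ∀ i ∈ range (M m N), psi m i (0 : G m) = 1 := by
        intro i _
        unfold psi
        apply Finset.prod_eq_one
        intro k _
        rw [r_eq, Pi.zero_apply, AddChar.map_zero_eq_one, one_pow]
      rw [Finset.sum_congr rfl this]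
      simp
    · rw [if_neg hz]
      obtain ⟨k, hk⟩ := Function.ne_iff.1 hz
      rw [D_M_eq_zero hm k.2 (x := emb z) (by
        rw [emb_apply z k.2]
        exact hk), zero_mul]
  rw [Finset.sum_congr rfl fun z _ => h1 z, Finset.sum_ite_eq' Finset.univ (0 : H m N),
    if_pos (Finset.mem_univ _)]
  have : (M m N : ℂ) ≠ 0 := by exact_mod_cast (M_pos N).ne'
  field_simp

end Q84.VK
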