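import Mathlib
import Pool.Agent.Q84.VK2

/-! Bound for the block kernels `∑ D_k / k`. -/

set_option autoImplicit false
set_option linter.unusedSectionVars false
open Finset MeasureTheory Filter Topology
open scoped ComplexConjugate ENNReal Nat

namespace Q84.VK

variable {m : ℕ → ℕ} [hm0 : ∀ k, NeZero (m k)]

lemma sum_range_mul' {α : Type*} [AddCommMonoid α] (f : ℕ → α) (a b : ℕ) :
    ∑ k ∈ range (a * b), f k = ∑ d ∈ range a, ∑ i ∈ range b, f (d * b + i) := by
  induction a with
  | zero => simp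
  | succ a ih =>
    rw [Nat.succ_mul, Finset.sum_range_add, ih, Finset.sum_range_succ]

lemma fact_card_le (U : Finset ℕ) : (∀ u ∈ U, 1 ≤ u) → U.card ! ≤ ∏ u ∈ U, u := by
  induction U using Finset.induction_on_max with
  | empty => intro _; simp
  | insert a s hmax ih =>
    intro h
    have ha : a ∉ s := fun h' => lt_irrefl _ (hmax a h')
    rw [Finset.card_insert_of_notMem ha, Finset.prod_insert ha, Nat.factorial_succ]
    have h1 : s ⊆ Finset.Ico 1 a := fun u hu =>
      Finset.mem_Ico.2 ⟨h u (Finset.mem_insert_of_mem hu), hmax u hu⟩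
    have h2 := Finset.card_le_card h1
    rw [Nat.card_Ico] at h2
    have h3 : 1 ≤ a := h a (Finset.mem_insert_self _ _)
    exact Nat.mul_le_mul (by omega) (ih fun u hu => h u (Finset.mem_insert_of_mem hu))

lemma fact_card_le' {j : ℕ} (Z : Finset ℕ) (hZ : ∀ t ∈ Z, t < j) :
    (Z.card ! : ℝ) ≤ ∏ t ∈ Z, ((j : ℝ) - t) := by
  have hinj : Set.InjOn (fun t => j - t) (Z : Set ℕ) := by
    intro a ha b hb hab
    have h1 := hZ a ha
    have h2 := hZ b hb
    simp only at hab
    omega
  have h := fact_card_le (Z.image fun t => j - t) (by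
    intro u hu
    obtain ⟨t, ht, rfl⟩ := Finset.mem_image.1 hu
    have := hZ t ht
    omega)
  rw [Finset.card_image_of_injOn hinj, Finset.prod_image hinj] at h
  have h2 : ((∏ t ∈ Z, (j - t) : ℕ) : ℝ) = ∏ t ∈ Z, ((j : ℝ) - t) := by
    push_cast
    apply Finset.prod_congr rfl
    intro t ht
    rw [Nat.cast_sub (hZ t ht).le]
  rw [← h2]
  exact_mod_cast h

/-- Beta integral bound -/
lemma beta_le (r : ℕ) : ∀ n : ℕ, 1 ≤ n →
    ∫ y in (0 : ℝ)..1, y ^ (n - 1) * (1 - y) ^ r ≤ r ! / (n : ℝ) ^ (r + 1) := by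
  induction r with
  | zero =>
    intro n hn
    have hn' : (n : ℝ) ≠ 0 := by positivity
    simp only [pow_zero, mul_one, Nat.factorial_zero, Nat.cast_one, zero_add, pow_one]
    rw [integral_pow]
    have e : ((n - 1 : ℕ) : ℝ) + 1 = n := by
      rw [Nat.cast_sub hn]
      push_cast
      ring
    rw [e, Nat.sub_add_cancel hn]
    simp
    rw [zero_pow (by omega)]
    simp
  | succ r ih =>
    intro n hn
    have hn' : (0 : ℝ) < n := by positivity
    have hparts := intervalIntegral.integral_mul_deriv_eq_deriv_mul (a := (0 : ℝ)) (b := 1)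
      (u := fun y : ℝ => (1 - y) ^ (r + 1)) (v := fun y : ℝ => y ^ n / n)
      (u' := fun y : ℝ => -(((r : ℝ) + 1) * (1 - y) ^ r)) (v' := fun y : ℝ => y ^ (n - 1))
      (fun y _ => by
        have := ((hasDerivAt_id y).const_sub 1).fun_pow (r + 1)
        have e : -(((r : ℝ) + 1) * (1 - y) ^ r) =
            ((r + 1 : ℕ) : ℝ) * (1 - y) ^ (r + 1 - 1) * (-1) := by
          rw [Nat.add_sub_cancel]
          push_cast
          ring
        rw [e]
        exact this)
      (fun y _ => by
        have := (hasDerivAt_pow n y).div_const (n : ℝ)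
        convert this using 1
        field_simp)
      (Continuous.intervalIntegrable (by fun_prop) _ _)
      (Continuous.intervalIntegrable (by fun_prop) _ _)
    have e1 : ∫ y in (0 : ℝ)..1, y ^ (n - 1) * (1 - y) ^ (r + 1) =
        (((r : ℝ) + 1) / n) * ∫ y in (0 : ℝ)..1, y ^ n * (1 - y) ^ r := by
      have e2 : ∫ y in (0 : ℝ)..1, y ^ (n - 1) * (1 - y) ^ (r + 1) =
          ∫ y in (0 : ℝ)..1, (1 - y) ^ (r + 1) * y ^ (n - 1) :=
        intervalIntegral.integral_congr fun y _ => by ring
      rw [e2, hparts, ← intervalIntegral.integral_const_mul]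
      have e3 : (fun y : ℝ => (((r : ℝ) + 1) / n) * (y ^ n * (1 - y) ^ r)) =
          fun y => -(-(((r : ℝ) + 1) * (1 - y) ^ r) * (y ^ n / n)) := by
        ext y
        field_simp
      rw [e3, intervalIntegral.integral_neg]
      have h0 : (0 : ℝ) ^ n = 0 := zero_pow (by omega)
      simp [h0]
    rw [e1]
    have e4 : ∫ y in (0 : ℝ)..1, y ^ n * (1 - y) ^ r ≤ ∫ y in (0 : ℝ)..1, y ^ (n - 1) * (1 - y) ^ r := by
      apply intervalIntegral.integral_mono_on zero_le_one
        (Continuous.intervalIntegrable (by fun_prop) _ _)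
        (Continuous.intervalIntegrable (by fun_prop) _ _)
      intro y hy
      apply mul_le_mul_of_nonneg_right _ (pow_nonneg (by linarith [hy.2]) _)
      exact pow_le_pow_of_le_one hy.1 hy.2 (Nat.sub_le _ _)
    calc (((r : ℝ) + 1) / n) * ∫ y in (0 : ℝ)..1, y ^ n * (1 - y) ^ r
        ≤ (((r : ℝ) + 1) / n) * (r ! / (n : ℝ) ^ (r + 1)) := by
          gcongr
          exact e4.trans (ih n hn)
      _ = (r + 1)! / (n : ℝ) ^ (r + 1 + 1) := by
          rw [Nat.factorial_succ, pow_succ (n : ℝ) (r + 1)]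
          push_cast
          field_simp

/-- the generating sum -/
noncomputable def A (z : G m) (J : ℕ) (y : ℝ) : ℂ := ∑ i ∈ range (M m J), (y : ℂ) ^ i * D m i z

/-- the digit factor -/
noncomputable def q (z : G m) (J : ℕ) (y : ℝ) : ℂ :=
  ∑ d ∈ range (m J), (y : ℂ) ^ (d * M m J) * r m J z ^ d

lemma A_succ (hm : ∀ k, 2 ≤ m k) {z : G m} {s J : ℕ} (hs : s < J) (hz : z s ≠ 0) (y : ℝ) :
    A z (J + 1) y = q z J y * A z J y := by
  unfold A q
  rw [M_succ, sum_range_mul', Finset.sum_mul]
  apply Finset.sum_congr rfl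
  intro d hd
  rw [Finset.mul_sum]
  apply Finset.sum_congr rfl
  intro i hi
  have hd' := Finset.mem_range.1 hd
  have hi' := Finset.mem_range.1 hi
  rw [D_split hm hd' hi'.le, D_mul_eq_zero hm hs hz hd'.le, zero_add, pow_add]
  ring

lemma norm_q_le (z : G m) (J : ℕ) {y : ℝ} (hy0 : 0 ≤ y) (hy1 : y ≤ 1) : ‖q z J y‖ ≤ m J := by
  unfold q
  refine (norm_sum_le _ _).trans ?_
  calc ∑ d ∈ range (m J), ‖(y : ℂ) ^ (d * M m J) * r m J z ^ d‖ ≤ ∑ d ∈ range (m J), (1 : ℝ) := by
        apply Finset.sum_le_sum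
        intro d _
        rw [norm_mul, norm_pow, norm_pow, norm_r, one_pow, mul_one, Complex.norm_real,
          Real.norm_of_nonneg hy0]
        exact pow_le_one₀ hy0 hy1
    _ = m J := by simp

lemma norm_q_le' {z : G m} {J : ℕ} (hz : z J ≠ 0) {y : ℝ} (hy0 : 0 ≤ y) (hy1 : y ≤ 1) :
    ‖q z J y‖ ≤ m J * (M m (J + 1) * (1 - y)) := by
  have h1 : q z J y = ∑ d ∈ range (m J), ((y : ℂ) ^ (d * M m J) - 1) * r m J z ^ d := by
    have := geom_zero hz
    unfold q
    rw [← sub_zero (∑ d ∈ range (m J), (y : ℂ) ^ (d * M m J) * r m J z ^ d), ← this,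
      ← Finset.sum_sub_distrib]
    apply Finset.sum_congr rfl
    intro d _
    ring
  rw [h1]
  refine (norm_sum_le _ _).trans ?_
  calc ∑ d ∈ range (m J), ‖((y : ℂ) ^ (d * M m J) - 1) * r m J z ^ d‖
      ≤ ∑ d ∈ range (m J), (M m (J + 1) * (1 - y) : ℝ) := by
        apply Finset.sum_le_sum
        intro d hd
        rw [norm_mul, norm_pow, norm_r, one_pow, mul_one]
        have e : ((y : ℂ) ^ (d * M m J) - 1) = ((y ^ (d * M m J) - 1 : ℝ) : ℂ) := by push_cast; ring
        rw [e, Complex.norm_real, Real.norm_of_nonpos (by linarith [pow_le_one₀ (n := d * M m J) hy0 hy1])]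
        have hb : 1 + ((d * M m J : ℕ) : ℝ) * (y - 1) ≤ (1 + (y - 1)) ^ (d * M m J) :=
          one_add_mul_le_pow (by linarith) _
        have e2 : 1 + (y - 1) = y := by ring
        rw [e2] at hb
        have h3 : ((d * M m J : ℕ) : ℝ) ≤ M m (J + 1) := by
          rw [M_succ]
          exact_mod_cast Nat.mul_le_mul_right _ (Finset.mem_range.1 hd).le
        have h4 : ((d * M m J : ℕ) : ℝ) * (1 - y) ≤ M m (J + 1) * (1 - y) :=
          mul_le_mul_of_nonneg_right h3 (by linarith)
        linarith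
    _ = _ := by simp

lemma norm_A_le (hm : ∀ k, 2 ≤ m k) {z : G m} {s : ℕ} (hz : z s ≠ 0) {y : ℝ} (hy0 : 0 ≤ y)
    (hy1 : y ≤ 1) (J : ℕ) (hJ : s + 1 ≤ J) :
    ‖A z J y‖ ≤ M m (s + 1) * M m J *
      ∏ t ∈ Finset.Ico (s + 1) J, (if z t ≠ 0 then M m (t + 1) * (1 - y) else 1) := by
  induction J, hJ using Nat.le_induction with
  | base =>
    rw [Finset.Ico_self, Finset.prod_empty, mul_one]
    unfold A
    refine (norm_sum_le _ _).trans ?_
    calc ∑ i ∈ range (M m (s + 1)), ‖(y : ℂ) ^ i * D m i z‖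
        ≤ ∑ i ∈ range (M m (s + 1)), (M m (s + 1) : ℝ) := by
          apply Finset.sum_le_sum
          intro i hi
          rw [norm_mul, norm_pow, Complex.norm_real, Real.norm_of_nonneg hy0]
          calc y ^ i * ‖D m i z‖ ≤ 1 * i :=
                mul_le_mul (pow_le_one₀ hy0 hy1) (norm_D_le i z) (norm_nonneg _) zero_le_one
            _ ≤ M m (s + 1) := by
                rw [one_mul]
                exact_mod_cast (Finset.mem_range.1 hi).le
      _ = _ := by simp
  | succ J hJ ih =>
    rw [A_succ hm (lt_of_lt_of_le (Nat.lt_succ_self s) hJ) hz, norm_mul,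
      Finset.prod_Ico_succ_top (by omega)]
    set P := ∏ t ∈ Finset.Ico (s + 1) J, (if z t ≠ 0 then (M m (t + 1) : ℝ) * (1 - y) else 1)
    have hP : 0 ≤ P := Finset.prod_nonneg fun t _ => by
      split_ifs
      · have : 0 ≤ 1 - y := by linarith
        positivity
      · exact zero_le_one
    by_cases hzJ : z J ≠ 0
    · rw [if_pos hzJ]
      calc ‖q z J y‖ * ‖A z J y‖ ≤ (m J * (M m (J + 1) * (1 - y))) * (M m (s + 1) * M m J * P) :=
            mul_le_mul (norm_q_le' hzJ hy0 hy1) ih (norm_nonneg _) (by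
              have : 0 ≤ 1 - y := by linarith
              positivity)
        _ = M m (s + 1) * M m (J + 1) * (P * (M m (J + 1) * (1 - y))) := by
            rw [M_succ (m := m) J]
            push_cast
            ring
    · rw [if_neg hzJ, mul_one]
      calc ‖q z J y‖ * ‖A z J y‖ ≤ m J * (M m (s + 1) * M m J * P) :=
            mul_le_mul (norm_q_le z J hy0 hy1) ih (norm_nonneg _) (by positivity)
        _ = M m (s + 1) * M m (J + 1) * P := by
            rw [M_succ (m := m) J]
            push_cast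
            ring

/-- the block kernel -/
noncomputable def kap (j : ℕ) (z : G m) : ℂ :=
  ∑ k ∈ Finset.Ico (M m j) (M m (j + 1)), D m k z / (k : ℂ)

/-- the weight -/
noncomputable def W (j : ℕ) (z : G m) : ℝ :=
  ∏ t ∈ range j, (if z t ≠ 0 then 2 * ((j : ℝ) - t) / 2 ^ (j - t) else 1)

lemma kap_trivial (j : ℕ) (z : G m) : ‖kap j z‖ ≤ M m (j + 1) := by
  unfold kap
  refine (norm_sum_le _ _).trans ?_
  calc ∑ k ∈ Finset.Ico (M m j) (M m (j + 1)), ‖D m k z / (k : ℂ)‖
      ≤ ∑ k ∈ Finset.Ico (M m j) (M m (j + 1)), (1 : ℝ) := by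
        apply Finset.sum_le_sum
        intro k hk
        have hk0 : (0 : ℝ) < k := by
          have := (Finset.mem_Ico.1 hk).1
          exact_mod_cast lt_of_lt_of_le (M_pos j) this
        rw [norm_div, Complex.norm_natCast, div_le_one hk0]
        exact norm_D_le k z
    _ = ((M m (j + 1) - M m j : ℕ) : ℝ) := by simp
    _ ≤ M m (j + 1) := by exact_mod_cast Nat.sub_le _ _

lemma kap_integral (hm : ∀ k, 2 ≤ m k) {z : G m} {s j : ℕ} (hs : s < j) (hz : z s ≠ 0) :
    kap j z = ∫ y in (0 : ℝ)..1, ∑ d ∈ Finset.Ico 1 (m j),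
      ((y ^ (d * M m j - 1) : ℝ) : ℂ) * r m j z ^ d * A z j y := by
  have hMj := M_pos (m := m) j
  have h1 : kap j z = ∑ d ∈ Finset.Ico 1 (m j), ∑ i ∈ range (M m j),
      r m j z ^ d * D m i z / ((d * M m j + i : ℕ) : ℂ) := by
    unfold kap
    have h2 : Finset.Ico (M m j) (M m (j + 1)) = Finset.Ico (1 * M m j) (m j * M m j) := by
      rw [one_mul, M_succ]
    have h3 : ∀ f : ℕ → ℂ, ∑ k ∈ Finset.Ico (1 * M m j) (m j * M m j), f k =
        ∑ d ∈ Finset.Ico 1 (m j), ∑ i ∈ range (M m j), f (d * M m j + i) := by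
      intro f
      rw [Finset.sum_Ico_eq_sub _ (Nat.mul_le_mul_right _ (by linarith [hm j])),
        Finset.sum_Ico_eq_sub _ (by linarith [hm j]), sum_range_mul', sum_range_mul']
    rw [h2, h3]
    apply Finset.sum_congr rfl
    intro d hd
    apply Finset.sum_congr rfl
    intro i hi
    have hd' := Finset.mem_Ico.1 hd
    rw [D_split hm hd'.2 (Finset.mem_range.1 hi).le, D_mul_eq_zero hm hs hz hd'.2.le, zero_add]
  have h2 : ∀ y : ℝ, ∑ d ∈ Finset.Ico 1 (m j),
      ((y ^ (d * M m j - 1) : ℝ) : ℂ) * r m j z ^ d * A z j y =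
      ∑ d ∈ Finset.Ico 1 (m j), ∑ i ∈ range (M m j),
        ((y ^ (d * M m j + i - 1) : ℝ) : ℂ) * (r m j z ^ d * D m i z) := by
    intro y
    apply Finset.sum_congr rfl
    intro d hd
    unfold A
    rw [Finset.mul_sum]
    apply Finset.sum_congr rfl
    intro i _
    have hd' := (Finset.mem_Ico.1 hd).1
    have h3 : d * M m j + i - 1 = (d * M m j - 1) + i := by
      have : 1 ≤ d * M m j := Nat.mul_pos hd' hMj
      omega
    rw [h3, pow_add]
    push_cast
    ring
  simp_rw [h2]
  rw [intervalIntegral.integral_finsetSum, h1]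
  · apply Finset.sum_congr rfl
    intro d hd
    rw [intervalIntegral.integral_finsetSum]
    · apply Finset.sum_congr rfl
      intro i _
      rw [intervalIntegral.integral_mul_const, intervalIntegral.integral_ofReal, integral_pow]
      have hd' := (Finset.mem_Ico.1 hd).1
      have h4 : 1 ≤ d * M m j + i := le_trans (Nat.mul_pos hd' hMj) (Nat.le_add_right _ _)
      have h5 : (((d * M m j + i - 1 : ℕ)) : ℝ) + 1 = ((d * M m j + i : ℕ) : ℝ) := by
        rw [Nat.cast_sub h4]
        push_cast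
        ring
      rw [h5, Nat.sub_add_cancel h4, one_pow, zero_pow (by omega), sub_zero]
      push_cast
      ring
    · intro i _
      apply Continuous.intervalIntegrable
      fun_prop
  · intro d _
    apply Continuous.intervalIntegrable
    fun_prop

lemma M_ratio (hm : ∀ k, 2 ≤ m k) {t j : ℕ} (h : t < j) :
    (M m (t + 1) : ℝ) / M m j ≤ 2 / 2 ^ (j - t) := by
  have h1 : ∀ j, t + 1 ≤ j → M m (t + 1) * 2 ^ (j - t) ≤ 2 * M m j := by
    intro j hj
    induction j, hj using Nat.le_induction with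
    | base =>
      have : t + 1 - t = 1 := by omega
      rw [this, pow_one, mul_comm]
    | succ j hj ih =>
      have : j + 1 - t = (j - t) + 1 := by omega
      rw [this, pow_succ, M_succ]
      calc M m (t + 1) * (2 ^ (j - t) * 2) = (M m (t + 1) * 2 ^ (j - t)) * 2 := by ring
        _ ≤ (2 * M m j) * m j := Nat.mul_le_mul ih (hm j)
        _ = 2 * (m j * M m j) := by ring
  have h2 := h1 j h
  have h3 : (0 : ℝ) < M m j := by exact_mod_cast M_pos j
  rw [div_le_div_iff₀ h3 (by positivity)]
  exact_mod_cast h2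

/-- main kernel bound -/
lemma kap_le (hm : ∀ k, 2 ≤ m k) (j : ℕ) (z : G m) : ‖kap j z‖ ≤ M m (j + 1) * W j z := by
  classical
  by_cases hz : ∃ s, s < j ∧ z s ≠ 0
  · set s := Nat.find hz with hsdef
    obtain ⟨hs, hzs⟩ := Nat.find_spec hz
    have hmin : ∀ t < s, z t = 0 := by
      intro t ht
      by_contra hne
      exact Nat.find_min hz ht ⟨ht.trans hs, hne⟩
    rw [← hsdef] at hs hzs
    have hMj : (0 : ℝ) < M m j := by exact_mod_cast M_pos j
    set Z : Finset ℕ := (Finset.Ico (s + 1) j).filter fun t => z t ≠ 0 with hZ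
    have hprod : ∀ y : ℝ, ∏ t ∈ Finset.Ico (s + 1) j,
        (if z t ≠ 0 then (M m (t + 1) : ℝ) * (1 - y) else 1) =
        (∏ t ∈ Z, (M m (t + 1) : ℝ)) * (1 - y) ^ Z.card := by
      intro y
      rw [← Finset.prod_filter, ← hZ, Finset.prod_mul_distrib, Finset.prod_const]
    set P : ℝ := ∏ t ∈ Z, (M m (t + 1) : ℝ) with hP
    have hP0 : 0 ≤ P := Finset.prod_nonneg fun t _ => Nat.cast_nonneg _
    have hbound : ‖kap j z‖ ≤ (m j * M m (s + 1) * M m j * P) *
        ∫ y in (0 : ℝ)..1, y ^ (M m j - 1) * (1 - y) ^ Z.card := by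
      rw [kap_integral hm hs hzs, ← intervalIntegral.integral_const_mul]
      apply intervalIntegral.norm_integral_le_of_norm_le zero_le_one
      · filter_upwards with y hy
        have hy0 : 0 ≤ y := hy.1.le
        have hy1 : y ≤ 1 := hy.2
        refine (norm_sum_le _ _).trans ?_
        have hA := norm_A_le hm hzs hy0 hy1 j hs
        rw [hprod y] at hA
        calc ∑ d ∈ Finset.Ico 1 (m j), ‖((y ^ (d * M m j - 1) : ℝ) : ℂ) * r m j z ^ d * A z j y‖
            ≤ ∑ d ∈ Finset.Ico 1 (m j), y ^ (M m j - 1) *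
                (M m (s + 1) * M m j * (P * (1 - y) ^ Z.card)) := by
              apply Finset.sum_le_sum
              intro d hd
              rw [norm_mul, norm_mul, norm_pow, norm_r, one_pow, mul_one, Complex.norm_real,
                Real.norm_of_nonneg (by positivity)]
              apply mul_le_mul _ hA (norm_nonneg _) (by positivity)
              apply pow_le_pow_of_le_one hy0 hy1
              have hd' := (Finset.mem_Ico.1 hd).1
              have : M m j ≤ d * M m j := Nat.le_mul_of_pos_left _ hd'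
              omega
          _ = ((m j - 1 : ℕ) : ℝ) * (y ^ (M m j - 1) *
                (M m (s + 1) * M m j * (P * (1 - y) ^ Z.card))) := by simp
          _ ≤ (m j : ℝ) * (y ^ (M m j - 1) *
                (M m (s + 1) * M m j * (P * (1 - y) ^ Z.card))) := by
              have : 0 ≤ 1 - y := by linarith
              apply mul_le_mul_of_nonneg_right _ (by positivity)
              exact_mod_cast Nat.sub_le _ _
          _ = _ := by ring
      · apply Continuous.intervalIntegrable
        fun_prop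
    have hbeta := beta_le Z.card (M m j) (M_pos j)
    have hW : W j z = (2 * ((j : ℝ) - s) / 2 ^ (j - s)) *
        ∏ t ∈ Z, (2 * ((j : ℝ) - t) / 2 ^ (j - t)) := by
      unfold W
      rw [← Finset.prod_range_mul_prod_Ico _ hs.le]
      rw [Finset.prod_eq_one (fun t ht => by
        rw [if_neg (not_not.2 (hmin t (Finset.mem_range.1 ht)))]), one_mul,
        Finset.prod_eq_prod_Ico_succ_bot hs, if_pos hzs]
      congr 1
      rw [hZ, Finset.prod_filter]
    have hjs : (1 : ℝ) ≤ (j : ℝ) - s := by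
      have : (s : ℝ) + 1 ≤ j := by exact_mod_cast hs
      linarith
    have h1 : (M m (s + 1) : ℝ) / M m j ≤ 2 * ((j : ℝ) - s) / 2 ^ (j - s) := by
      refine (M_ratio hm hs).trans ?_
      gcongr
      linarith
    have hZj : ∀ t ∈ Z, t < j := fun t ht => (Finset.mem_Ico.1 (Finset.mem_filter.1 ht).1).2
    have h2 : (Z.card ! : ℝ) * (P / (M m j : ℝ) ^ Z.card) ≤
        ∏ t ∈ Z, (2 * ((j : ℝ) - t) / 2 ^ (j - t)) := by
      have e1 : P / (M m j : ℝ) ^ Z.card = ∏ t ∈ Z, ((M m (t + 1) : ℝ) / M m j) := by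
        rw [Finset.prod_div_distrib, Finset.prod_const, hP]
      have e2 : ∏ t ∈ Z, (2 * ((j : ℝ) - t) / 2 ^ (j - t)) =
          (∏ t ∈ Z, ((j : ℝ) - t)) * ∏ t ∈ Z, ((2 : ℝ) / 2 ^ (j - t)) := by
        rw [← Finset.prod_mul_distrib]
        apply Finset.prod_congr rfl
        intro t _
        ring
      rw [e1, e2]
      apply mul_le_mul (fact_card_le' Z hZj) _ (Finset.prod_nonneg fun t _ => by positivity)
      · apply Finset.prod_nonneg
        intro t ht
        have : (t : ℝ) ≤ j := by exact_mod_cast (hZj t ht).le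
        linarith
      · apply Finset.prod_le_prod
        · intro t _
          positivity
        · intro t ht
          exact M_ratio hm (hZj t ht)
    have hZc : 0 ≤ ∏ t ∈ Z, (2 * ((j : ℝ) - t) / 2 ^ (j - t)) := by
      apply Finset.prod_nonneg
      intro t ht
      have : (t : ℝ) ≤ j := by exact_mod_cast (hZj t ht).le
      have h3 : 0 ≤ (j : ℝ) - t := by linarith
      positivity
    calc ‖kap j z‖ ≤ (m j * M m (s + 1) * M m j * P) *
          (Z.card ! / (M m j : ℝ) ^ (Z.card + 1)) := by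
            refine hbound.trans ?_
            gcongr
      _ = M m (j + 1) * (((M m (s + 1) : ℝ) / M m j) * (Z.card ! * (P / (M m j : ℝ) ^ Z.card))) := by
          rw [M_succ (m := m) j, pow_succ]
          push_cast
          field_simp
      _ ≤ M m (j + 1) * W j z := by
          rw [hW]
          gcongr
  · push Not at hz
    have hW : W j z = 1 := by
      unfold W
      apply Finset.prod_eq_one
      intro t ht
      rw [if_neg (not_not.2 (hz t (Finset.mem_range.1 ht)))]
    rw [hW, mul_one]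
    exact kap_trivial j z

end Q84.VK
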