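import Mathlib
import Pool.Agent.Q84.VK3

/-! Weights and their sums. -/

set_option autoImplicit false
set_option linter.unusedSectionVars false
open Finset MeasureTheory Filter Topology
open scoped ComplexConjugate ENNReal Nat

namespace Q84.VK

variable {m : ℕ → ℕ} [hm0 : ∀ k, NeZero (m k)]

/-- `ρ = 2^{-p/2}` -/
noncomputable def rho (p : ℝ) : ℝ := 2 ^ (-(p / 2))

lemma rho_pos (p : ℝ) : 0 < rho p := by unfold rho; positivity

lemma rho_lt_one {p : ℝ} (hp : 0 < p) : rho p < 1 := by
  unfold rho
  exact Real.rpow_lt_one_of_one_lt_of_neg (by norm_num) (by linarith)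

/-- `b_u = (2u)^p ρ^u` -/
noncomputable def bb (p : ℝ) (u : ℕ) : ℝ := (2 * (u : ℝ)) ^ p * rho p ^ u

lemma bb_nonneg (p : ℝ) (u : ℕ) : 0 ≤ bb p u := by
  unfold bb
  have := rho_pos p
  positivity

lemma a_eq (p : ℝ) (u : ℕ) : (2 * (u : ℝ) / 2 ^ u) ^ p = rho p ^ u * bb p u := by
  unfold bb rho
  rw [Real.div_rpow (by positivity) (by positivity), ← Real.rpow_natCast (2 ^ (-(p / 2))) u,
    ← Real.rpow_mul (by norm_num), ← Real.rpow_natCast 2 u, ← Real.rpow_mul (by norm_num)]
  have h : (2 : ℝ) ^ (-(p / 2) * u) * ((2 * (u : ℝ)) ^ p * 2 ^ (-(p / 2) * u)) =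
      (2 * (u : ℝ)) ^ p * (2 ^ (-(p / 2) * u) * 2 ^ (-(p / 2) * u)) := by ring
  rw [h, ← Real.rpow_add (by norm_num)]
  have h2 : -(p / 2) * (u : ℝ) + -(p / 2) * u = -(u * p) := by ring
  rw [h2, Real.rpow_neg (by norm_num)]
  rfl

lemma bb_summable {p : ℝ} (hp : 0 < p) (hp1 : p ≤ 1) : Summable (bb p) := by
  have h1 : Summable fun u : ℕ => 2 * ((u : ℝ) ^ 1 * rho p ^ u) := by
    apply Summable.mul_left
    apply summable_pow_mul_geometric_of_norm_lt_one
    rw [Real.norm_of_nonneg (rho_pos p).le]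
    exact rho_lt_one hp
  apply Summable.of_nonneg_of_le (bb_nonneg p) _ h1
  intro u
  unfold bb
  rcases Nat.eq_zero_or_pos u with h | h
  · subst h
    simp [Real.zero_rpow hp.ne']
  · have hu : (1 : ℝ) ≤ 2 * u := by
      have : (1 : ℝ) ≤ u := by exact_mod_cast h
      linarith
    have h2 : (2 * (u : ℝ)) ^ p ≤ 2 * u := by
      calc (2 * (u : ℝ)) ^ p ≤ (2 * (u : ℝ)) ^ (1 : ℝ) := Real.rpow_le_rpow_of_exponent_le hu hp1
        _ = 2 * u := Real.rpow_one _
    have h3 := rho_pos p
    calc (2 * (u : ℝ)) ^ p * rho p ^ u ≤ (2 * u) * rho p ^ u := by gcongr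
      _ = _ := by ring

/-- weights with `b` -/
noncomputable def V (p : ℝ) (j : ℕ) (z : G m) : ℝ :=
  ∏ t ∈ range j, (if z t ≠ 0 then bb p (j - t) else 1)

lemma W_nonneg (j : ℕ) (z : G m) : 0 ≤ W j z := by
  unfold W
  apply Finset.prod_nonneg
  intro t ht
  have : (t : ℝ) ≤ j := by exact_mod_cast (Finset.mem_range.1 ht).le
  split_ifs
  · have h3 : 0 ≤ (j : ℝ) - t := by linarith
    positivity
  · exact zero_le_one

lemma W_rpow (p : ℝ) (j : ℕ) (z : G m) :
    W j z ^ p = ∏ t ∈ range j, (if z t ≠ 0 then rho p ^ (j - t) * bb p (j - t) else 1) := by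
  unfold W
  rw [← Real.finsetProd_rpow]
  · apply Finset.prod_congr rfl
    intro t ht
    split_ifs with h
    · rw [← a_eq, Nat.cast_sub (Finset.mem_range.1 ht).le]
    · exact Real.one_rpow _
  · intro t ht
    have : (t : ℝ) ≤ j := by exact_mod_cast (Finset.mem_range.1 ht).le
    split_ifs
    · have h3 : 0 ≤ (j : ℝ) - t := by linarith
      positivity
    · exact zero_le_one

lemma V_nonneg (p : ℝ) (j : ℕ) (z : G m) : 0 ≤ V p j z := by
  unfold V
  apply Finset.prod_nonneg
  intro t _
  split_ifs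
  · exact bb_nonneg _ _
  · exact zero_le_one

lemma W_le_V {p : ℝ} (hp : 0 < p) (j : ℕ) (z : G m) : W j z ^ p ≤ V p j z := by
  rw [W_rpow]
  unfold V
  apply Finset.prod_le_prod
  · intro t _
    have h1 := rho_pos p
    have h2 := bb_nonneg p (j - t)
    split_ifs
    · positivity
    · exact zero_le_one
  · intro t _
    split_ifs
    · have h2 := bb_nonneg p (j - t)
      calc rho p ^ (j - t) * bb p (j - t) ≤ 1 * bb p (j - t) := by
            gcongr
            exact pow_le_one₀ (rho_pos p).le (rho_lt_one hp).le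
        _ = _ := one_mul _
    · exact le_rfl

lemma W_le_rho_V {p : ℝ} (hp : 0 < p) {i j : ℕ} (hij : i ≤ j) {z : G m}
    (hz : ∃ t ≤ i, z t ≠ 0) : W j z ^ p ≤ rho p ^ (j - i) * V p j z := by
  obtain ⟨t, hti, hzt⟩ := hz
  rcases Nat.lt_or_ge t j with htj | htj
  · have hmem : t ∈ range j := Finset.mem_range.2 htj
    rw [W_rpow]
    unfold V
    rw [← Finset.mul_prod_erase _ _ hmem, ← Finset.mul_prod_erase (range j) _ hmem, if_pos hzt,
      if_pos hzt, ← mul_assoc]
    have hr := rho_pos p
    have hr1 := rho_lt_one hp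
    apply mul_le_mul
    · apply mul_le_mul_of_nonneg_right _ (bb_nonneg _ _)
      exact pow_le_pow_of_le_one hr.le hr1.le (by omega)
    · apply Finset.prod_le_prod
      · intro t _
        have h2 := bb_nonneg p (j - t)
        split_ifs
        · positivity
        · exact zero_le_one
      · intro t _
        split_ifs
        · have h2 := bb_nonneg p (j - t)
          calc rho p ^ (j - t) * bb p (j - t) ≤ 1 * bb p (j - t) := by
                gcongr
                exact pow_le_one₀ hr.le hr1.le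
            _ = _ := one_mul _
        · exact le_rfl
    · apply Finset.prod_nonneg
      intro t _
      have h2 := bb_nonneg p (j - t)
      split_ifs
      · positivity
      · exact zero_le_one
    · have h2 := bb_nonneg p (j - t)
      positivity
  · have : j - i = 0 := by omega
    rw [this, pow_zero, one_mul]
    exact W_le_V hp j z

/-- the constant -/
noncomputable def CB (B : ℕ) (p : ℝ) : ℝ := B * Real.exp (B * ∑' u, bb p u)

lemma sum_V_le {p : ℝ} (hp : 0 < p) (hp1 : p ≤ 1) {B : ℕ} (hB : ∀ k, m k ≤ B) (j : ℕ) :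
    ∑ z : H m (j + 1), V p j (emb z) ≤ CB B p := by
  classical
  have h1 : ∀ z : H m (j + 1), V p j (emb z) = ∏ t : Fin (j + 1),
      (if (t : ℕ) < j then (if z t ≠ 0 then bb p (j - t) else 1) else (1 : ℝ)) := by
    intro z
    unfold V
    rw [Fin.prod_univ_castSucc]
    simp only [Fin.val_castSucc, Fin.is_lt, if_true, Fin.val_last, lt_irrefl, if_false, mul_one]
    rw [← Fin.prod_univ_eq_prod_range (fun t => if (emb z : G m) t ≠ 0 then bb p (j - t) else 1) j]
    apply Finset.prod_congr rfl
    intro t _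
    have : (emb z : G m) (t : ℕ) = z t.castSucc := emb_apply z (by omega)
    simp only [this]
  simp_rw [h1]
  have h2 := Finset.prod_univ_sum (fun t : Fin (j + 1) => (Finset.univ : Finset (ZMod (m t))))
    (fun (t : Fin (j + 1)) (c : ZMod (m t)) =>
      (if (t : ℕ) < j then (if c ≠ 0 then bb p (j - t) else 1) else (1 : ℝ)))
  rw [Fintype.piFinset_univ] at h2
  rw [← h2, Fin.prod_univ_castSucc]
  simp only [Fin.val_castSucc, Fin.is_lt, if_true, Fin.val_last, lt_irrefl, if_false]
  have h3 : ∀ t : Fin j, ∑ c : ZMod (m (t.castSucc : ℕ)), (if c ≠ 0 then bb p (j - t) else (1 : ℝ)) ≤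
      Real.exp (B * bb p (j - t)) := by
    intro t
    have hb := bb_nonneg p (j - t)
    calc ∑ c : ZMod (m (t.castSucc : ℕ)), (if c ≠ 0 then bb p (j - t) else (1 : ℝ))
        ≤ ∑ c : ZMod (m (t.castSucc : ℕ)), (bb p (j - t) + if c = 0 then 1 else 0) := by
          apply Finset.sum_le_sum
          intro c _
          by_cases hc : c = 0
          · simp [hc, hb]
          · simp [hc]
      _ = (m (t : ℕ) : ℝ) * bb p (j - t) + 1 := by
          rw [Finset.sum_add_distrib, Finset.sum_const, Finset.card_univ, ZMod.card]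
          simp
      _ ≤ B * bb p (j - t) + 1 := by
          have : (m (t : ℕ) : ℝ) ≤ B := by exact_mod_cast hB t
          gcongr
      _ ≤ Real.exp (B * bb p (j - t)) := Real.add_one_le_exp _
  have h4 : ∑ c : ZMod (m ((Fin.last j : Fin (j + 1)) : ℕ)), (1 : ℝ) ≤ B := by
    rw [Finset.sum_const, Finset.card_univ, ZMod.card]
    simp only [nsmul_eq_mul, mul_one]
    exact_mod_cast hB _
  have h5 : ∏ t : Fin j, Real.exp (B * bb p (j - t)) ≤ Real.exp (B * ∑' u, bb p u) := by
    rw [← Real.exp_sum, ← Finset.mul_sum]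
    apply Real.exp_le_exp.2
    apply mul_le_mul_of_nonneg_left _ (Nat.cast_nonneg _)
    have h6 : ∑ t : Fin j, bb p (j - (t : ℕ)) = ∑ u ∈ (range j).image (fun t => j - t), bb p u := by
      rw [Finset.sum_image]
      · exact Fin.sum_univ_eq_sum_range (fun t => bb p (j - t)) j
      · intro a ha b hb hab
        have h1 := Finset.mem_range.1 ha
        have h2 := Finset.mem_range.1 hb
        simp only at hab
        omega
    rw [h6]
    exact (bb_summable hp hp1).sum_le_tsum _ fun u _ => bb_nonneg p u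
  calc (∏ t : Fin j, ∑ c : ZMod (m (t.castSucc : ℕ)), (if c ≠ 0 then bb p (j - t) else (1 : ℝ))) *
        ∑ c : ZMod (m ((Fin.last j : Fin (j + 1)) : ℕ)), (1 : ℝ)
      ≤ (∏ t : Fin j, Real.exp (B * bb p (j - t))) * B := by
        apply mul_le_mul _ h4 (Finset.sum_nonneg fun _ _ => zero_le_one)
          (Finset.prod_nonneg fun _ _ => (Real.exp_pos _).le)
        apply Finset.prod_le_prod
        · intro t _
          apply Finset.sum_nonneg
          intro c _
          split_ifs
          · exact bb_nonneg _ _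
          · exact zero_le_one
        · intro t _
          exact h3 t
    _ ≤ Real.exp (B * ∑' u, bb p u) * B := by gcongr
    _ = CB B p := by unfold CB; ring

end Q84.VK
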