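import Mathlib
import Pool.Agent.Q84.VK4

/-! The maximal inequality for the blocks. -/

set_option autoImplicit false
set_option linter.unusedSectionVars false
open Finset MeasureTheory Filter Topology
open scoped ComplexConjugate ENNReal Nat

namespace Q84.VK

variable {m : ℕ → ℕ} [hm0 : ∀ k, NeZero (m k)]

lemma rpow_sum_le {ι : Type*} (s : Finset ι) (a : ι → ℝ≥0∞) {p : ℝ} (hp : 0 < p) (hp1 : p ≤ 1) :
    (∑ i ∈ s, a i) ^ p ≤ ∑ i ∈ s, a i ^ p := by
  classical
  induction s using Finset.induction_on with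
  | empty => simp [hp]
  | insert i s hi ih =>
    rw [Finset.sum_insert hi, Finset.sum_insert hi]
    exact (ENNReal.rpow_add_le_add_rpow _ _ hp.le hp1).trans (add_le_add le_rfl ih)

/-- block sums -/
noncomputable def Bl (f : ℕ → G m → ℂ) (j : ℕ) (x : G m) : ℂ :=
  ∑ k ∈ Finset.Ico (M m j) (M m (j + 1)), S f k x / (k : ℂ)

lemma Bl_eq (hm : ∀ k, 2 ≤ m k) {f : ℕ → G m → ℂ} (hf : IsMart f) (j : ℕ) (x : G m) :
    Bl f j x = (1 / M m (j + 1) : ℂ) * ∑ z : H m (j + 1), kap j (emb z) * f (j + 1) (x - emb z) := by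
  unfold Bl kap
  have h1 : ∀ k ∈ Finset.Ico (M m j) (M m (j + 1)), S f k x / (k : ℂ) =
      (1 / M m (j + 1) : ℂ) * ∑ z : H m (j + 1), (D m k (emb z) / (k : ℂ)) *
        f (j + 1) (x - emb z) := by
    intro k hk
    rw [S_eq hm hf (Finset.mem_Ico.1 hk).2.le, mul_div_assoc, Finset.sum_div]
    congr 1
    apply Finset.sum_congr rfl
    intro z _
    ring
  rw [Finset.sum_congr rfl h1, ← Finset.mul_sum, Finset.sum_comm]
  congr 1
  apply Finset.sum_congr rfl
  intro z _
  rw [Finset.sum_mul]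

lemma enorm_Bl_le (hm : ∀ k, 2 ≤ m k) {f : ℕ → G m → ℂ} (hf : IsMart f) (j : ℕ) (x : G m) :
    ‖Bl f j x‖ₑ ≤ ∑ z : H m (j + 1), ENNReal.ofReal (W j (emb z)) * ‖f (j + 1) (x - emb z)‖ₑ := by
  have h1 : ‖Bl f j x‖ ≤ ∑ z : H m (j + 1), W j (emb z) * ‖f (j + 1) (x - emb z)‖ := by
    rw [Bl_eq hm hf, norm_mul]
    have hM : (0 : ℝ) < M m (j + 1) := by exact_mod_cast M_pos _
    have e1 : ‖(1 / M m (j + 1) : ℂ)‖ = 1 / M m (j + 1) := by simp
    rw [e1]
    calc 1 / (M m (j + 1) : ℝ) * ‖∑ z : H m (j + 1), kap j (emb z) * f (j + 1) (x - emb z)‖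
        ≤ 1 / (M m (j + 1) : ℝ) * ∑ z : H m (j + 1), (M m (j + 1) * W j (emb z)) *
            ‖f (j + 1) (x - emb z)‖ := by
          gcongr
          refine (norm_sum_le _ _).trans (Finset.sum_le_sum fun z _ => ?_)
          rw [norm_mul]
          exact mul_le_mul_of_nonneg_right (kap_le hm j _) (norm_nonneg _)
      _ = _ := by
          rw [Finset.mul_sum]
          apply Finset.sum_congr rfl
          intro z _
          field_simp
  rw [← ofReal_norm]
  refine (ENNReal.ofReal_le_ofReal h1).trans ?_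
  rw [ENNReal.ofReal_sum_of_nonneg]
  · apply Finset.sum_le_sum
    intro z _
    rw [ENNReal.ofReal_mul (W_nonneg _ _), ofReal_norm]
  · intro z _
    exact mul_nonneg (W_nonneg _ _) (norm_nonneg _)

/-- running maxima -/
noncomputable def gm (f : ℕ → G m → ℂ) (p : ℝ) (i : ℕ) (x : G m) : ℝ≥0∞ :=
  (range (i + 1)).sup fun l => ‖f l x‖ₑ ^ p

/-- full maximal function -/
noncomputable def Phi (f : ℕ → G m → ℂ) (p : ℝ) (x : G m) : ℝ≥0∞ := ⨆ l, ‖f l x‖ₑ ^ p

/-- increments -/
noncomputable def dl (f : ℕ → G m → ℂ) (p : ℝ) (i : ℕ) (x : G m) : ℝ≥0∞ :=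
  gm f p (i + 1) x - gm f p i x

lemma gm_dep {f : ℕ → G m → ℂ} (hf : IsMart f) (p : ℝ) (i : ℕ) : Dep i (gm f p i) := by
  intro x y hxy
  unfold gm
  apply Finset.sup_congr rfl
  intro l hl
  rw [hf.adapted l x y fun k hk => hxy k (by
    have := Finset.mem_range.1 hl
    omega)]

lemma gm_mono (f : ℕ → G m → ℂ) (p : ℝ) (i : ℕ) (x : G m) : gm f p i x ≤ gm f p (i + 1) x :=
  Finset.sup_mono (Finset.range_mono (by omega))

lemma gm_le_Phi (f : ℕ → G m → ℂ) (p : ℝ) (i : ℕ) (x : G m) : gm f p i x ≤ Phi f p x :=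
  Finset.sup_le fun l _ => le_iSup (fun l => ‖f l x‖ₑ ^ p) l

lemma le_gm (f : ℕ → G m → ℂ) (p : ℝ) (i : ℕ) (x : G m) : ‖f i x‖ₑ ^ p ≤ gm f p i x :=
  Finset.le_sup (f := fun l => ‖f l x‖ₑ ^ p) (Finset.mem_range.2 (Nat.lt_succ_self i))

lemma gm_succ (f : ℕ → G m → ℂ) (p : ℝ) (i : ℕ) (x : G m) :
    gm f p (i + 1) x = gm f p i x + dl f p i x := by
  unfold dl
  rw [add_tsub_cancel_of_le (gm_mono f p i x)]

lemma dl_dep {f : ℕ → G m → ℂ} (hf : IsMart f) (p : ℝ) (i : ℕ) : Dep (i + 1) (dl f p i) := by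
  intro x y hxy
  unfold dl
  rw [gm_dep hf p (i + 1) x y hxy, gm_dep hf p i x y fun k hk => hxy k (by omega)]

lemma sum_dl_le (f : ℕ → G m → ℂ) (p : ℝ) (x : G m) : ∑' i, dl f p i x ≤ Phi f p x := by
  rw [ENNReal.tsum_eq_iSup_nat]
  apply iSup_le
  intro n
  have h : ∀ n, ∑ i ∈ range n, dl f p i x + gm f p 0 x = gm f p n x := by
    intro n
    induction n with
    | zero => simp
    | succ n ih =>
      rw [Finset.sum_range_succ, gm_succ, ← ih]
      ring
  calc ∑ i ∈ range n, dl f p i x ≤ ∑ i ∈ range n, dl f p i x + gm f p 0 x := le_self_add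
    _ = gm f p n x := h n
    _ ≤ Phi f p x := gm_le_Phi f p n x

open Classical in
/-- translation estimate -/
lemma gm_translate {f : ℕ → G m → ℂ} (hf : IsMart f) (p : ℝ) (z x : G m) (J : ℕ) :
    gm f p J (x - z) ≤ Phi f p x +
      ∑ i ∈ range J, (if ∃ t ≤ i, z t ≠ 0 then dl f p i (x - z) else 0) := by
  induction J with
  | zero =>
    rw [gm_dep hf p 0 (x - z) x fun k hk => absurd hk (Nat.not_lt_zero k)]
    simpa using gm_le_Phi f p 0 x
  | succ J ih =>
    by_cases h : ∃ t ≤ J, z t ≠ 0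
    · rw [Finset.sum_range_succ, if_pos h, gm_succ, ← add_assoc]
      exact add_le_add ih le_rfl
    · push Not at h
      rw [gm_dep hf p (J + 1) (x - z) x fun k hk => by
        rw [Pi.sub_apply, h k (by omega), sub_zero]]
      exact (gm_le_Phi f p _ x).trans le_self_add

open Classical in
/-- pointwise bound for the blocks -/
lemma Bl_rpow_le (hm : ∀ k, 2 ≤ m k) {f : ℕ → G m → ℂ} (hf : IsMart f) {p : ℝ} (hp : 0 < p)
    (hp1 : p ≤ 1) {B : ℕ} (hB : ∀ k, m k ≤ B) (j : ℕ) (x : G m) :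
    ‖Bl f j x‖ₑ ^ p ≤ ENNReal.ofReal (CB B p) * Phi f p x +
      ∑ i ∈ range (j + 1), ∑ z : H m (j + 1), ENNReal.ofReal (rho p ^ (j - i) * V p j (emb z)) *
        dl f p i (x - emb z) := by
  calc ‖Bl f j x‖ₑ ^ p
      ≤ (∑ z : H m (j + 1), ENNReal.ofReal (W j (emb z)) * ‖f (j + 1) (x - emb z)‖ₑ) ^ p :=
        ENNReal.rpow_le_rpow (enorm_Bl_le hm hf j x) hp.le
    _ ≤ ∑ z : H m (j + 1), (ENNReal.ofReal (W j (emb z)) * ‖f (j + 1) (x - emb z)‖ₑ) ^ p :=
        rpow_sum_le _ _ hp hp1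
    _ ≤ ∑ z : H m (j + 1), ENNReal.ofReal (W j (emb z) ^ p) * (Phi f p x +
          ∑ i ∈ range (j + 1), (if ∃ t ≤ i, (emb z : G m) t ≠ 0 then
            dl f p i (x - emb z) else 0)) := by
        apply Finset.sum_le_sum
        intro z _
        rw [ENNReal.mul_rpow_of_nonneg _ _ hp.le, ENNReal.ofReal_rpow_of_nonneg (W_nonneg _ _) hp.le]
        gcongr
        exact (le_gm f p (j + 1) _).trans (gm_translate hf p _ _ _)
    _ = (∑ z : H m (j + 1), ENNReal.ofReal (W j (emb z) ^ p)) * Phi f p x +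
          ∑ z : H m (j + 1), ∑ i ∈ range (j + 1), ENNReal.ofReal (W j (emb z) ^ p) *
            (if ∃ t ≤ i, (emb z : G m) t ≠ 0 then dl f p i (x - emb z) else 0) := by
        rw [Finset.sum_mul, ← Finset.sum_add_distrib]
        apply Finset.sum_congr rfl
        intro z _
        rw [mul_add, Finset.mul_sum]
    _ ≤ _ := by
        apply add_le_add
        · gcongr
          rw [← ENNReal.ofReal_sum_of_nonneg]
          · apply ENNReal.ofReal_le_ofReal
            refine le_trans ?_ (sum_V_le hp hp1 hB j)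
            exact Finset.sum_le_sum fun z _ => W_le_V hp j _
          · intro z _
            exact Real.rpow_nonneg (W_nonneg _ _) _
        · rw [Finset.sum_comm]
          apply Finset.sum_le_sum
          intro i hi
          apply Finset.sum_le_sum
          intro z _
          split_ifs with h
          · gcongr
            exact W_le_rho_V hp (by
              have := Finset.mem_range.1 hi
              omega) h
          · simp

lemma gm_meas {f : ℕ → G m → ℂ} (hf : IsMart f) (p : ℝ) (i : ℕ) : Measurable (dl f p i) :=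
  (dl_dep hf p i).measurable

lemma Phi_meas {f : ℕ → G m → ℂ} (hf : IsMart f) (p : ℝ) : Measurable (Phi f p) := by
  unfold Phi
  exact Measurable.iSup fun l => ((hf.adapted l).measurable.enorm).pow_const p

/-- the majorant of all blocks -/
noncomputable def Maj (f : ℕ → G m → ℂ) (p : ℝ) (B : ℕ) (x : G m) : ℝ≥0∞ :=
  ENNReal.ofReal (CB B p) * Phi f p x +
    ∑' j : ℕ, ∑ i ∈ range (j + 1), ∑ z : H m (j + 1),
      ENNReal.ofReal (rho p ^ (j - i) * V p j (emb z)) * dl f p i (x - emb z)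

lemma Bl_le_Maj (hm : ∀ k, 2 ≤ m k) {f : ℕ → G m → ℂ} (hf : IsMart f) {p : ℝ} (hp : 0 < p)
    (hp1 : p ≤ 1) {B : ℕ} (hB : ∀ k, m k ≤ B) (j : ℕ) (x : G m) :
    ‖Bl f j x‖ₑ ^ p ≤ Maj f p B x := by
  refine (Bl_rpow_le hm hf hp hp1 hB j x).trans (add_le_add le_rfl ?_)
  exact ENNReal.le_tsum (f := fun j : ℕ => ∑ i ∈ range (j + 1), ∑ z : H m (j + 1),
      ENNReal.ofReal (rho p ^ (j - i) * V p j (emb z)) * dl f p i (x - emb z)) j

lemma CB_nonneg (B : ℕ) (p : ℝ) : 0 ≤ CB B p := by
  unfold CB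
  positivity

lemma lintegral_Maj {f : ℕ → G m → ℂ} (hf : IsMart f) {p : ℝ} (hp : 0 < p)
    (hp1 : p ≤ 1) {B : ℕ} (hB : ∀ k, m k ≤ B) :
    ∫⁻ x, Maj f p B x ∂(mu m) ≤
      ENNReal.ofReal (CB B p * (1 + (1 - rho p)⁻¹)) * ∫⁻ x, Phi f p x ∂(mu m) := by
  have hr := rho_pos p
  have hr1 := rho_lt_one hp
  have hdlm : ∀ (i : ℕ) (c : G m), Measurable fun x => dl f p i (x - c) := by
    intro i c
    have h1 : Dep (i + 1) fun x : G m => dl f p i (x - c) := fun x y hxy =>
      dl_dep hf p i _ _ fun k hk => by rw [Pi.sub_apply, Pi.sub_apply, hxy k hk]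
    exact h1.measurable
  have hint : ∀ (i : ℕ) (c : G m), ∫⁻ x, dl f p i (x - c) ∂(mu m) = ∫⁻ x, dl f p i x ∂(mu m) := by
    intro i c
    have := lintegral_add (-c) (gm_meas hf p i)
    simpa [sub_eq_add_neg] using this
  unfold Maj
  rw [lintegral_add_left ((Phi_meas hf p).const_mul _), lintegral_const_mul _ (Phi_meas hf p),
    lintegral_tsum]
  · have h1 : ∀ j : ℕ, ∫⁻ x, ∑ i ∈ range (j + 1), ∑ z : H m (j + 1),
        ENNReal.ofReal (rho p ^ (j - i) * V p j (emb z)) * dl f p i (x - emb z) ∂(mu m) ≤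
        ∑ i ∈ range (j + 1), ENNReal.ofReal (CB B p * rho p ^ (j - i)) *
          ∫⁻ x, dl f p i x ∂(mu m) := by
      intro j
      rw [lintegral_finsetSum]
      · apply Finset.sum_le_sum
        intro i _
        rw [lintegral_finsetSum]
        · simp_rw [lintegral_const_mul _ (hdlm i _), hint]
          rw [← Finset.sum_mul, ← ENNReal.ofReal_sum_of_nonneg]
          · gcongr
            rw [← Finset.mul_sum, mul_comm (CB B p)]
            gcongr
            exact sum_V_le hp hp1 hB j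
          · intro z _
            exact mul_nonneg (by positivity) (V_nonneg _ _ _)
        · intro z _
          exact (hdlm i _).const_mul _
      · intro i _
        apply Finset.measurable_fun_sum
        intro z _
        exact (hdlm i _).const_mul _
    have h2 : ∑' j : ℕ, ∑ i ∈ range (j + 1), ENNReal.ofReal (CB B p * rho p ^ (j - i)) *
        ∫⁻ x, dl f p i x ∂(mu m) =
        ENNReal.ofReal (CB B p * (1 - rho p)⁻¹) * ∑' i, ∫⁻ x, dl f p i x ∂(mu m) := by
      have h3 : ∀ j : ℕ, ∑ i ∈ range (j + 1), ENNReal.ofReal (CB B p * rho p ^ (j - i)) *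
          ∫⁻ x, dl f p i x ∂(mu m) = ∑' i : ℕ, (if i ≤ j then
            ENNReal.ofReal (CB B p * rho p ^ (j - i)) * ∫⁻ x, dl f p i x ∂(mu m) else 0) := by
        intro j
        rw [tsum_eq_sum (s := range (j + 1))]
        · apply Finset.sum_congr rfl
          intro i hi
          rw [if_pos (by
            have := Finset.mem_range.1 hi
            omega)]
        · intro i hi
          rw [if_neg (by
            rw [Finset.mem_range] at hi
            omega)]
      simp_rw [h3]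
      rw [ENNReal.tsum_comm, ← ENNReal.tsum_mul_left]
      apply tsum_congr
      intro i
      have h4 : ∑' j : ℕ, (if i ≤ j then
            ENNReal.ofReal (CB B p * rho p ^ (j - i)) * ∫⁻ x, dl f p i x ∂(mu m) else 0) =
          ∑' u : ℕ, ENNReal.ofReal (CB B p * rho p ^ u) * ∫⁻ x, dl f p i x ∂(mu m) := by
        rw [← (add_left_injective i).tsum_eq (f := fun j => if i ≤ j then
            ENNReal.ofReal (CB B p * rho p ^ (j - i)) * ∫⁻ x, dl f p i x ∂(mu m) else 0)]
        · apply tsum_congr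
          intro u
          simp only [if_pos (Nat.le_add_left i u), Nat.add_sub_cancel]
        · intro j hj
          rw [Function.mem_support] at hj
          by_cases hij : i ≤ j
          · exact ⟨j - i, Nat.sub_add_cancel hij⟩
          · rw [if_neg hij] at hj
            exact absurd rfl hj
      rw [h4, ENNReal.tsum_mul_right]
      congr 1
      rw [← ENNReal.ofReal_tsum_of_nonneg, tsum_mul_left, tsum_geometric_of_lt_one hr.le hr1]
      · intro u
        exact mul_nonneg (CB_nonneg _ _) (by positivity)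
      · exact (summable_geometric_of_lt_one hr.le hr1).mul_left _
    have h5 : ∑' i, ∫⁻ x, dl f p i x ∂(mu m) ≤ ∫⁻ x, Phi f p x ∂(mu m) := by
      rw [← lintegral_tsum fun i => (gm_meas hf p i).aemeasurable]
      exact lintegral_mono fun x => sum_dl_le f p x
    have h6 : ENNReal.ofReal (CB B p * (1 + (1 - rho p)⁻¹)) =
        ENNReal.ofReal (CB B p) + ENNReal.ofReal (CB B p * (1 - rho p)⁻¹) := by
      rw [← ENNReal.ofReal_add (CB_nonneg _ _)]
      · congr 1
        ring
      · have : 0 < 1 - rho p := by linarith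
        exact mul_nonneg (CB_nonneg _ _) (by positivity)
    rw [h6, add_mul]
    apply add_le_add le_rfl
    refine (ENNReal.tsum_le_tsum h1).trans ?_
    rw [h2]
    gcongr
  · intro j
    apply Measurable.aemeasurable
    apply Finset.measurable_fun_sum
    intro i _
    apply Finset.measurable_fun_sum
    intro z _
    exact (hdlm i _).const_mul _

end Q84.VK
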