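import Mathlib
import Pool.Agent.Q84.VK5

/-! Riesz logarithmic means along `M_n`. -/

set_option autoImplicit false
set_option linter.unusedSectionVars false
open Finset MeasureTheory Filter Topology
open scoped ComplexConjugate ENNReal Nat

namespace Q84.VK

variable {m : ℕ → ℕ} [hm0 : ∀ k, NeZero (m k)]

/-- `l_n` -/
noncomputable def ell (n : ℕ) : ℝ := ∑ k ∈ Finset.Icc 1 n, 1 / (k : ℝ)

/-- Riesz logarithmic means -/
noncomputable def R (f : ℕ → G m → ℂ) (n : ℕ) (x : G m) : ℂ :=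
  (1 / (ell n : ℂ)) * ∑ k ∈ Finset.Icc 1 n, S f k x / (k : ℂ)

lemma sum_blocks {α : Type*} [AddCommMonoid α] (F : ℕ → α) (n : ℕ) :
    ∑ k ∈ Finset.Icc 1 (M m n), F k =
      (∑ j ∈ range n, ∑ k ∈ Finset.Ico (M m j) (M m (j + 1)), F k) + F (M m n) := by
  have h1 : Finset.Icc 1 (M m n) = Finset.Ico 1 (M m n + 1) := by
    ext k
    simp only [Finset.mem_Icc, Finset.mem_Ico]
    omega
  have h2 : ∑ k ∈ Finset.Ico 1 (M m n), F k =
      ∑ j ∈ range n, ∑ k ∈ Finset.Ico (M m j) (M m (j + 1)), F k := by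
    induction n with
    | zero => simp [M]
    | succ n ih =>
      have h3 : Finset.Icc 1 (M m n) = Finset.Ico 1 (M m n + 1) := by
        ext k
        simp only [Finset.mem_Icc, Finset.mem_Ico]
        omega
      rw [Finset.sum_range_succ, ← ih h3, Finset.sum_Ico_consecutive]
      · exact M_pos n
      · exact M_mono (Nat.le_succ n)
  rw [h1, Finset.sum_Ico_succ_top (M_pos n), h2]

lemma ell_ge (hm : ∀ k, 2 ≤ m k) (n : ℕ) : (n : ℝ) / 2 ≤ ell (M m n) := by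
  unfold ell
  rw [sum_blocks (m := m)]
  have h1 : ∀ j ∈ range n, (1 / 2 : ℝ) ≤ ∑ k ∈ Finset.Ico (M m j) (M m (j + 1)), 1 / (k : ℝ) := by
    intro j _
    have hM : (0 : ℝ) < M m (j + 1) := by exact_mod_cast M_pos _
    have h2 : ∑ k ∈ Finset.Ico (M m j) (M m (j + 1)), (1 / (M m (j + 1) : ℝ)) ≤
        ∑ k ∈ Finset.Ico (M m j) (M m (j + 1)), 1 / (k : ℝ) := by
      apply Finset.sum_le_sum
      intro k hk
      have h3 := Finset.mem_Ico.1 hk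
      apply one_div_le_one_div_of_le
      · exact_mod_cast lt_of_lt_of_le (M_pos j) h3.1
      · exact_mod_cast h3.2.le
    refine le_trans ?_ h2
    rw [Finset.sum_const, Nat.card_Ico, nsmul_eq_mul, Nat.cast_sub (M_mono (Nat.le_succ j)),
      mul_one_div, le_div_iff₀ hM]
    have h4 : (2 : ℝ) * M m j ≤ M m (j + 1) := by
      rw [M_succ]
      exact_mod_cast Nat.mul_le_mul_right _ (hm j)
    linarith
  have h5 : (n : ℝ) / 2 ≤ ∑ j ∈ range n, ∑ k ∈ Finset.Ico (M m j) (M m (j + 1)), 1 / (k : ℝ) := by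
    calc (n : ℝ) / 2 = ∑ j ∈ range n, (1 / 2 : ℝ) := by simp; ring
      _ ≤ _ := Finset.sum_le_sum h1
  have h6 : (0 : ℝ) ≤ 1 / (M m n : ℝ) := by positivity
  linarith

lemma one_le_ell {n : ℕ} (hn : 1 ≤ n) : 1 ≤ ell n := by
  unfold ell
  calc (1 : ℝ) = 1 / ((1 : ℕ) : ℝ) := by simp
    _ ≤ _ := Finset.single_le_sum (f := fun k : ℕ => 1 / (k : ℝ)) (fun k _ => by positivity)
      (Finset.mem_Icc.2 ⟨le_rfl, hn⟩)

lemma enorm_R_le (hm : ∀ k, 2 ≤ m k) {f : ℕ → G m → ℂ} (hf : IsMart f) (n : ℕ) (x : G m) {b : ℝ≥0∞}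
    (hb : ∀ j, ‖Bl f j x‖ₑ ≤ b) : ‖R f (M m n) x‖ₑ ≤ 2 * b + ‖f n x‖ₑ := by
  have hl1 := one_le_ell (M_pos (m := m) n)
  have hl0 : 0 < ell (M m n) := by linarith
  have hM1 : (1 : ℝ) ≤ M m n := by exact_mod_cast M_pos n
  by_cases hbt : b = ⊤
  · rw [hbt]
    simp
  have hb' : ∀ j, ‖Bl f j x‖ ≤ b.toReal := by
    intro j
    have h := ENNReal.toReal_mono hbt (hb j)
    rwa [toReal_enorm] at h
  have hreal : ‖R f (M m n) x‖ ≤ 2 * b.toReal + ‖f n x‖ := by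
    unfold R
    rw [sum_blocks, S_M hm hf, norm_mul]
    have e1 : ‖(1 / (ell (M m n) : ℂ))‖ = 1 / ell (M m n) := by
      rw [norm_div, norm_one, Complex.norm_real, Real.norm_of_nonneg hl0.le]
    rw [e1]
    have h2 : ‖∑ j ∈ range n, ∑ k ∈ Finset.Ico (M m j) (M m (j + 1)), S f k x / (k : ℂ)‖ ≤
        n * b.toReal := by
      refine (norm_sum_le _ _).trans ?_
      calc ∑ j ∈ range n, ‖∑ k ∈ Finset.Ico (M m j) (M m (j + 1)), S f k x / (k : ℂ)‖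
          ≤ ∑ j ∈ range n, b.toReal := Finset.sum_le_sum fun j _ => hb' j
        _ = n * b.toReal := by simp
    have h3 : ‖f n x / (M m n : ℂ)‖ ≤ ‖f n x‖ := by
      rw [norm_div, Complex.norm_natCast]
      exact div_le_self (norm_nonneg _) hM1
    have h4 := ell_ge hm n
    calc 1 / ell (M m n) * ‖(∑ j ∈ range n, ∑ k ∈ Finset.Ico (M m j) (M m (j + 1)),
          S f k x / (k : ℂ)) + f n x / (M m n : ℂ)‖
        ≤ 1 / ell (M m n) * (n * b.toReal + ‖f n x‖) := by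
          gcongr
          exact (norm_add_le _ _).trans (add_le_add h2 h3)
      _ ≤ 2 * b.toReal + ‖f n x‖ := by
          rw [one_div, inv_mul_le_iff₀ hl0]
          have h5 : (n : ℝ) * b.toReal ≤ ell (M m n) * (2 * b.toReal) := by
            have : 0 ≤ b.toReal := ENNReal.toReal_nonneg
            nlinarith
          have h6 : ‖f n x‖ ≤ ell (M m n) * ‖f n x‖ := le_mul_of_one_le_left (norm_nonneg _) hl1
          linarith
  rw [← ofReal_norm]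
  refine (ENNReal.ofReal_le_ofReal hreal).trans ?_
  rw [ENNReal.ofReal_add (by positivity) (norm_nonneg _), ENNReal.ofReal_mul (by norm_num),
    ENNReal.ofReal_toReal hbt, ofReal_norm]
  simp

/-- quasi-norm -/
noncomputable def Ln (p : ℝ) (g : G m → ℝ≥0∞) : ℝ≥0∞ := (∫⁻ x, g x ^ p ∂(mu m)) ^ (1 / p)

lemma rpow_iSup_le {ι : Type*} (a : ι → ℝ≥0∞) {p : ℝ} (hp : 0 < p) {X : ℝ≥0∞}
    (h : ∀ i, a i ^ p ≤ X) : (⨆ i, a i) ^ p ≤ X := by
  rw [← ENNReal.le_rpow_inv_iff hp]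
  exact iSup_le fun i => (ENNReal.le_rpow_inv_iff hp).2 (h i)

/-- boundedness of the maximal operator along `M_n` from `H_p` to `L_p`, `0 < p ≤ 1` -/
theorem maximal_bound (hm : ∀ k, 2 ≤ m k) {B : ℕ} (hB : ∀ k, m k ≤ B) {p : ℝ} (hp : 0 < p)
    (hp1 : p ≤ 1) : ∃ C : ℝ≥0∞, C ≠ ⊤ ∧ ∀ f : ℕ → G m → ℂ, IsMart f →
      Ln p (fun x => ⨆ n, ‖R f (M m n) x‖ₑ) ≤ C * Ln p (fun x => ⨆ n, ‖f n x‖ₑ) := by
  set K : ℝ≥0∞ := 2 ^ p * ENNReal.ofReal (CB B p * (1 + (1 - rho p)⁻¹)) + 1 with hK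
  have hKt : K ≠ ⊤ := by
    rw [hK]
    apply ENNReal.add_ne_top.2 ⟨ENNReal.mul_ne_top ?_ ENNReal.ofReal_ne_top, ENNReal.one_ne_top⟩
    exact ENNReal.rpow_ne_top_of_nonneg hp.le (by norm_num)
  refine ⟨K ^ (1 / p), ENNReal.rpow_ne_top_of_nonneg (by positivity) hKt, fun f hf => ?_⟩
  have h1 : ∀ x, (⨆ n, ‖R f (M m n) x‖ₑ) ^ p ≤ 2 ^ p * Maj f p B x + Phi f p x := by
    intro x
    apply rpow_iSup_le _ hp
    intro n
    have h2 : ∀ j, ‖Bl f j x‖ₑ ≤ (Maj f p B x) ^ p⁻¹ := fun j =>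
      (ENNReal.le_rpow_inv_iff hp).2 (Bl_le_Maj hm hf hp hp1 hB j x)
    calc ‖R f (M m n) x‖ₑ ^ p ≤ (2 * (Maj f p B x) ^ p⁻¹ + ‖f n x‖ₑ) ^ p :=
          ENNReal.rpow_le_rpow (enorm_R_le hm hf n x h2) hp.le
      _ ≤ (2 * (Maj f p B x) ^ p⁻¹) ^ p + ‖f n x‖ₑ ^ p :=
          ENNReal.rpow_add_le_add_rpow _ _ hp.le hp1
      _ ≤ 2 ^ p * Maj f p B x + Phi f p x := by
          apply add_le_add
          · rw [ENNReal.mul_rpow_of_nonneg _ _ hp.le, ← ENNReal.rpow_mul, inv_mul_cancel₀ hp.ne',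
              ENNReal.rpow_one]
          · exact le_iSup (fun l => ‖f l x‖ₑ ^ p) n
  have h2 : ∀ x, Phi f p x ≤ (⨆ n, ‖f n x‖ₑ) ^ p := by
    intro x
    apply iSup_le
    intro l
    exact ENNReal.rpow_le_rpow (le_iSup (fun n => ‖f n x‖ₑ) l) hp.le
  have h3 : ∫⁻ x, (⨆ n, ‖R f (M m n) x‖ₑ) ^ p ∂(mu m) ≤
      K * ∫⁻ x, (⨆ n, ‖f n x‖ₑ) ^ p ∂(mu m) := by
    calc ∫⁻ x, (⨆ n, ‖R f (M m n) x‖ₑ) ^ p ∂(mu m)
        ≤ ∫⁻ x, (2 ^ p * Maj f p B x + Phi f p x) ∂(mu m) := lintegral_mono h1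
      _ = 2 ^ p * ∫⁻ x, Maj f p B x ∂(mu m) + ∫⁻ x, Phi f p x ∂(mu m) := by
          rw [lintegral_add_right _ (Phi_meas hf p), lintegral_const_mul' _ _
            (ENNReal.rpow_ne_top_of_nonneg hp.le (by norm_num))]
      _ ≤ 2 ^ p * (ENNReal.ofReal (CB B p * (1 + (1 - rho p)⁻¹)) * ∫⁻ x, Phi f p x ∂(mu m)) +
            ∫⁻ x, Phi f p x ∂(mu m) := by
          gcongr
          exact lintegral_Maj hf hp hp1 hB
      _ = K * ∫⁻ x, Phi f p x ∂(mu m) := by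
          rw [hK]
          ring
      _ ≤ K * ∫⁻ x, (⨆ n, ‖f n x‖ₑ) ^ p ∂(mu m) := by
          gcongr with x
          exact h2 x
  unfold Ln
  calc (∫⁻ x, (⨆ n, ‖R f (M m n) x‖ₑ) ^ p ∂(mu m)) ^ (1 / p)
      ≤ (K * ∫⁻ x, (⨆ n, ‖f n x‖ₑ) ^ p ∂(mu m)) ^ (1 / p) :=
        ENNReal.rpow_le_rpow h3 (by positivity)
    _ = _ := ENNReal.mul_rpow_of_nonneg _ _ (by positivity)

end Q84.VK
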