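import Mathlib
import Pool.Agent.Q84.VK6

/-! Mathlib martingales for the Vilenkin filtration. -/

set_option autoImplicit false
set_option linter.unusedSectionVars false
open Finset MeasureTheory Filter Topology
open scoped ComplexConjugate ENNReal Nat

namespace Q84.VK

variable {m : ℕ → ℕ} [hm0 : ∀ k, NeZero (m k)]

/-- the intervals `I_n(x)` -/
def cell (n : ℕ) (x : G m) : Set (G m) := {y | ∀ j < n, y j = x j}

variable (m) in
/-- the σ-algebra generated by the intervals -/
@[instance_reducible] def Fn (n : ℕ) : MeasurableSpace (G m) := MeasurableSpace.generateFrom {s | ∃ x : G m, s = cell n x}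

theorem cell_meas (n : ℕ) (x : G m) : MeasurableSet (cell n x) := by
  have : cell n x = ⋂ j ∈ Finset.range n, (fun y : G m => y j) ⁻¹' {x j} := by
    ext y
    simp [cell]
  rw [this]
  apply Finset.measurableSet_biInter
  intro j _
  exact (measurable_pi_apply j) MeasurableSet.of_discrete

theorem Fn_le (n : ℕ) : Fn m n ≤ MeasurableSpace.pi := by
  apply MeasurableSpace.generateFrom_le
  rintro _ ⟨x, rfl⟩
  exact cell_meas n x

theorem Fn_mono : Monotone (Fn m) := by
  intro n n' hnn
  apply MeasurableSpace.generateFrom_le
  rintro _ ⟨x, rfl⟩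
  have : cell n x = ⋃ z : {z : H m n' // (emb z : G m) ∈ cell n x}, cell n' (emb z.1 : G m) := by
    ext y
    simp only [Set.mem_iUnion]
    constructor
    · intro hy
      refine ⟨⟨res n' y, ?_⟩, ?_⟩
      · intro j hj
        rw [emb_res y (hj.trans_le hnn)]
        exact hy j hj
      · intro j hj
        exact (emb_res y hj).symm
    · rintro ⟨z, hz⟩
      intro j hj
      rw [hz j (hj.trans_le hnn)]
      exact z.2 j hj
  rw [this]
  have hm2 : ∀ z : {z : H m n' // (emb z : G m) ∈ cell n x},
      MeasurableSet[Fn m n'] (cell n' (emb z.1 : G m)) := fun z =>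
    MeasurableSpace.measurableSet_generateFrom ⟨_, rfl⟩
  exact MeasurableSet.iUnion hm2

variable (m) in
/-- the filtration -/
def Fil : Filtration ℕ (MeasurableSpace.pi : MeasurableSpace (G m)) where
  seq := Fn m
  mono' := Fn_mono
  le' := Fn_le

lemma Fn_sat {n : ℕ} {s : Set (G m)} (hs : MeasurableSet[Fn m n] s) {x y : G m}
    (hxy : ∀ j < n, x j = y j) : x ∈ s ↔ y ∈ s := by
  induction s, hs using MeasurableSpace.generateFrom_induction with
  | hC t ht _ =>
    obtain ⟨w, rfl⟩ := ht
    constructor
    · intro h j hj
      rw [← hxy j hj]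
      exact h j hj
    · intro h j hj
      rw [hxy j hj]
      exact h j hj
  | empty => simp
  | compl t _ ih => simp [ih]
  | iUnion t _ ih =>
    simp only [Set.mem_iUnion]
    exact exists_congr fun i => ih i

lemma dep_of_meas {n : ℕ} {h : G m → ℂ} (hh : Measurable[Fn m n] h) : Dep n h := by
  intro x y hxy
  have h1 : MeasurableSet[Fn m n] (h ⁻¹' {h x}) := hh (MeasurableSet.singleton _)
  exact ((Fn_sat h1 hxy).1 rfl : y ∈ h ⁻¹' {h x}).symm

theorem isMart_of_martingale {f : ℕ → G m → ℂ} (hf : Martingale f (Fil m) (mu m)) : IsMart f := by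
  have hdep : ∀ n, Dep n (f n) := fun n => dep_of_meas (hf.1 n).measurable
  refine ⟨hdep, fun n x => ?_⟩
  have h0 : (m n : ℂ) ≠ 0 := by exact_mod_cast NeZero.ne (m n)
  classical
  have hcell : MeasurableSet[Fil m n] (cell n x) :=
    MeasurableSpace.measurableSet_generateFrom ⟨_, rfl⟩
  have h1 : ∫ y in cell n x, f (n + 1) y ∂(mu m) = ∫ y in cell n x, f n y ∂(mu m) := by
    have h2 := hf.2 n (n + 1) (Nat.le_succ n)
    rw [← setIntegral_condExp ((Fil m).le n) (hdep (n + 1)).integrable hcell]
    exact setIntegral_congr_ae (cell_meas n x) (h2.mono fun y hy _ => hy)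
  have hconst : ∫ y in cell n x, f n y ∂(mu m) = (mu m).real (cell n x) * f n x := by
    rw [setIntegral_congr_fun (g := fun _ => f n x) (cell_meas n x)
      (fun y hy => hdep n y x hy), setIntegral_const, Complex.real_smul]
  have hind : ∀ g : G m → ℂ, ∫ y in cell n x, g y ∂(mu m) =
      ∫ y, (cell n x).indicator g y ∂(mu m) := fun g => (integral_indicator (cell_meas n x)).symm
  -- average over the digit `n`
  have hsum : ∀ y ∈ cell n x, ∑ d : ZMod (m n), f (n + 1) (y + Pi.single n d) =
      ∑ d : ZMod (m n), f (n + 1) (Function.update x n d) := by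
    intro y hy
    rw [← Equiv.sum_comp (Equiv.addLeft (y n)) (fun d => f (n + 1) (Function.update x n d))]
    apply Finset.sum_congr rfl
    intro d _
    apply hdep
    intro k hk
    by_cases hkn : k = n
    · subst hkn
      simp
    · rw [Pi.add_apply, Pi.single_eq_of_ne hkn, add_zero, Function.update_of_ne hkn]
      exact hy k (by omega)
  have havg : (m n : ℂ) * ∫ y in cell n x, f (n + 1) y ∂(mu m) =
      (mu m).real (cell n x) * ∑ d : ZMod (m n), f (n + 1) (Function.update x n d) := by
    have hd1 : ∀ d : ZMod (m n), Dep (n + 1) fun y : G m =>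
        (cell n x).indicator (fun y => f (n + 1) (y + Pi.single n d)) y := by
      intro d y y' hyy
      have hmem : y ∈ cell n x ↔ y' ∈ cell n x := by
        constructor
        · intro h j hj
          rw [← hyy j (by omega)]
          exact h j hj
        · intro h j hj
          rw [hyy j (by omega)]
          exact h j hj
      simp only
      by_cases hy : y ∈ cell n x
      · rw [Set.indicator_of_mem hy, Set.indicator_of_mem (hmem.1 hy)]
        apply hdep
        intro k hk
        rw [Pi.add_apply, Pi.add_apply, hyy k hk]
      · rw [Set.indicator_of_notMem hy, Set.indicator_of_notMem fun h => hy (hmem.2 h)]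
    have hd : ∀ d : ZMod (m n), ∫ y in cell n x, f (n + 1) (y + Pi.single n d) ∂(mu m) =
        ∫ y in cell n x, f (n + 1) y ∂(mu m) := by
      intro d
      rw [hind, hind, ← integral_add (Pi.single n d) ((cell n x).indicator (f (n + 1)))]
      apply integral_congr_ae
      filter_upwards with y
      have hmem : y ∈ cell n x ↔ y + Pi.single n d ∈ cell n x := by
        have : ∀ j < n, (y + Pi.single n d : G m) j = y j := fun j hj => by
          rw [Pi.add_apply, Pi.single_eq_of_ne (by omega), add_zero]
        constructor
        · intro h j hj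
          rw [this j hj]
          exact h j hj
        · intro h j hj
          rw [← this j hj]
          exact h j hj
      by_cases hy : y ∈ cell n x
      · rw [Set.indicator_of_mem hy, Set.indicator_of_mem (hmem.1 hy)]
      · rw [Set.indicator_of_notMem hy, Set.indicator_of_notMem fun h => hy (hmem.2 h)]
    calc (m n : ℂ) * ∫ y in cell n x, f (n + 1) y ∂(mu m)
        = ∑ d : ZMod (m n), ∫ y in cell n x, f (n + 1) (y + Pi.single n d) ∂(mu m) := by
          rw [Finset.sum_congr rfl fun d _ => hd d, Finset.sum_const, Finset.card_univ, ZMod.card,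
            nsmul_eq_mul]
      _ = ∑ d : ZMod (m n), ∫ y, (cell n x).indicator
            (fun y => f (n + 1) (y + Pi.single n d)) y ∂(mu m) :=
          Finset.sum_congr rfl fun d _ => hind _
      _ = ∫ y, ∑ d : ZMod (m n), (cell n x).indicator
            (fun y => f (n + 1) (y + Pi.single n d)) y ∂(mu m) :=
          (integral_finsetSum _ fun d _ => (hd1 d).integrable).symm
      _ = ∫ y, (cell n x).indicator (fun _ => ∑ d : ZMod (m n),
            f (n + 1) (Function.update x n d)) y ∂(mu m) := by
          apply integral_congr_ae
          filter_upwards with y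
          by_cases hy : y ∈ cell n x
          · rw [Set.indicator_of_mem hy, ← hsum y hy]
            exact Finset.sum_congr rfl fun d _ => Set.indicator_of_mem hy _
          · rw [Set.indicator_of_notMem hy]
            exact Finset.sum_eq_zero fun d _ => Set.indicator_of_notMem hy _
      _ = _ := by
          rw [← hind, setIntegral_const, Complex.real_smul]
  rw [h1, hconst] at havg
  have hpos : ((mu m).real (cell n x) : ℂ) ≠ 0 := by
    -- measure of a cell is positive
    intro hzero
    have hz : (mu m).real (cell n x) = 0 := by exact_mod_cast hzero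
    have hall : ∀ c : G m, (mu m).real (cell n (x + c)) = 0 := by
      intro c
      have h2 := mu_map_add (m := m) c
      have h3 : (mu m).real (cell n (x + c)) = (mu m).real ((fun y => y + c) ⁻¹' cell n (x + c)) := by
        rw [Measure.real, Measure.real, ← Measure.map_apply (by fun_prop) (cell_meas _ _), h2]
      rw [h3]
      have h4 : (fun y : G m => y + c) ⁻¹' cell n (x + c) = cell n x := by
        ext y
        simp [cell]
      rw [h4, hz]
    have hcover : (Set.univ : Set (G m)) = ⋃ z : H m n, cell n (emb z : G m) := by
      ext y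
      simp only [Set.mem_univ, Set.mem_iUnion, true_iff]
      exact ⟨res n y, fun j hj => (emb_res y hj).symm⟩
    have hzero' : mu m (⋃ z : H m n, cell n (emb z : G m)) = 0 := by
      rw [measure_iUnion_null_iff]
      intro z
      have h5 := hall ((emb z : G m) - x)
      rw [add_sub_cancel] at h5
      rw [Measure.real, ENNReal.toReal_eq_zero_iff] at h5
      rcases h5 with h5 | h5
      · exact h5
      · exact absurd h5 (measure_ne_top _ _)
    rw [← hcover, measure_univ] at hzero'
    exact one_ne_zero hzero'
  have h6 : (m n : ℂ) * f n x = ∑ d : ZMod (m n), f (n + 1) (Function.update x n d) := by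
    apply mul_left_cancel₀ hpos
    rw [← havg]
    ring
  rw [← h6, mul_div_cancel_left₀ _ h0]

end Q84.VK
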