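import Mathlib
import Pool.Agent.Q84.L2Fourier

/-!
# Fourier estimates `L^{4/3} → L^4`, `L^2(E) → L^4`, `L^{4/3} → L^2(E)` for a sparse set `E` of
infinite measure.
-/

set_option autoImplicit false

namespace Pool.Agent.Q84.VarExp

open MeasureTheory Set FourierTransform Convolution
open scoped ENNReal NNReal

/-- Plancherel in `ℝ≥0∞` form -/
lemma plancherel (h : ℝ → ℂ) (h1 : Integrable h) (h2 : MemLp h 2) :
    ∫⁻ x, ‖𝓕 h x‖ₑ ^ 2 = ∫⁻ x, ‖h x‖ₑ ^ 2 := by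
  have e : ∀ g : ℝ → ℂ, ∫⁻ x, ‖g x‖ₑ ^ 2 = eLpNorm g 2 volume ^ 2 := by
    intro g
    rw [eLpNorm_eq_lintegral_rpow_enorm_toReal (by norm_num) (by norm_num)]
    simp only [ENNReal.toReal_ofNat, ENNReal.rpow_ofNat, one_div]
    rw [← ENNReal.rpow_ofNat, ← ENNReal.rpow_mul]
    simp
  have hn : eLpNorm (𝓕 h) 2 volume = eLpNorm h 2 volume := by
    have a1 := Lp.norm_fourier_eq (h2.toLp h : Lp (α := ℝ) ℂ 2)
    rw [Lp.norm_def, Lp.norm_def] at a1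
    have a2 := (ENNReal.toReal_eq_toReal_iff' (Lp.eLpNorm_ne_top _) (Lp.eLpNorm_ne_top _)).mp a1
    rw [eLpNorm_congr_ae (Q84.L2Fourier.fourier_toLp_ae h h1 h2),
      eLpNorm_congr_ae h2.coeFn_toLp] at a2
    exact a2
  rw [e, e, hn]

/-- the autoconvolution -/
noncomputable def cv (f : ℝ → ℂ) : ℝ → ℂ := f ⋆[ContinuousLinearMap.mul ℂ ℂ] f

lemma cv_integrable {f : ℝ → ℂ} (hf : Integrable f) : Integrable (cv f) :=
  hf.integrable_convolution (ContinuousLinearMap.mul ℂ ℂ) hf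

lemma cv_bound (f : ℝ → ℂ) (x : ℝ) : ‖cv f x‖ₑ ≤ ∫⁻ t, ‖f t‖ₑ * ‖f (x - t)‖ₑ := by
  unfold cv
  rw [convolution_def]
  refine (enorm_integral_le_lintegral_enorm _).trans ?_
  apply le_of_eq
  apply lintegral_congr
  intro t
  simp [enorm_mul]

/-- abstract form: an `L²` bound on the (absolute) autoconvolution gives an `L⁴` bound on `f̂` -/
lemma four_bound {f : ℝ → ℂ} (hf : Integrable f) {M : ℝ≥0∞} (hM : M ≠ ∞)
    (h : ∫⁻ x, (∫⁻ t, ‖f t‖ₑ * ‖f (x - t)‖ₑ) ^ 2 ≤ M) : ∫⁻ y, ‖𝓕 f y‖ₑ ^ 4 ≤ M := by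
  have h1 : ∫⁻ x, ‖cv f x‖ₑ ^ 2 ≤ M := by
    refine le_trans (lintegral_mono fun x => ?_) h
    exact pow_le_pow_left' (cv_bound f x) 2
  have hint := cv_integrable hf
  have h2 : MemLp (cv f) 2 volume := by
    refine ⟨hint.aestronglyMeasurable, ?_⟩
    rw [eLpNorm_lt_top_iff_lintegral_rpow_enorm_lt_top (by norm_num) (by norm_num)]
    simp only [ENNReal.toReal_ofNat, ENNReal.rpow_ofNat]
    exact lt_of_le_of_lt h1 (lt_top_iff_ne_top.mpr hM)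
  have h3 := plancherel (cv f) hint h2
  have h4 : ∀ y, ‖𝓕 f y‖ₑ ^ 4 = ‖𝓕 (cv f) y‖ₑ ^ 2 := by
    intro y
    unfold cv
    rw [Real.fourier_mul_convolution_eq hf hf y, enorm_mul]
    ring
  simp only [h4]
  rw [h3]
  exact h1

lemma aem {f : ℝ → ℂ} (hf : Integrable f) : AEMeasurable (fun t => ‖f t‖ₑ) volume :=
  hf.aestronglyMeasurable.enorm

lemma aem_sub {f : ℝ → ℂ} (hf : Integrable f) (x : ℝ) :
    AEMeasurable (fun t => ‖f (x - t)‖ₑ) volume :=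
  (hf.comp_sub_left x).aestronglyMeasurable.enorm

lemma lintegral_sub_left (G : ℝ → ℝ≥0∞) (x : ℝ) : ∫⁻ t, G (x - t) = ∫⁻ t, G t :=
  lintegral_sub_left_eq_self G x

/-- Tonelli for `∫∫ F(t) F(x-t)` -/
lemma double {G : ℝ → ℝ≥0∞} (hG : AEMeasurable G volume) :
    ∫⁻ x, ∫⁻ t, G t * G (x - t) = (∫⁻ t, G t) ^ 2 := by
  rw [lintegral_lintegral_swap]
  · have : ∀ t, ∫⁻ x, G t * G (x - t) = G t * ∫⁻ x, G x := by
      intro t
      rw [lintegral_const_mul'']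
      · rw [lintegral_sub_right_eq_self]
      · exact hG.comp_quasiMeasurePreserving
          (measurePreserving_sub_right volume t).quasiMeasurePreserving
    simp only [this]
    rw [lintegral_mul_const'' _ hG, sq]
  · apply AEMeasurable.mul
    · exact hG.comp_quasiMeasurePreserving Measure.quasiMeasurePreserving_snd
    · have h1 : Measure.QuasiMeasurePreserving (fun z : ℝ × ℝ => z.1 - z.2)
          (volume.prod volume) volume := by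
        exact quasiMeasurePreserving_sub volume volume
      exact hG.comp_quasiMeasurePreserving h1


/-- Cauchy-Schwarz for `lintegral` -/
lemma cs (a b : ℝ → ℝ≥0∞) (ha : AEMeasurable a volume) (hb : AEMeasurable b volume) :
    (∫⁻ t, a t * b t) ^ 2 ≤ (∫⁻ t, a t ^ 2) * ∫⁻ t, b t ^ 2 := by
  have h := ENNReal.lintegral_mul_le_Lp_mul_Lq volume Real.HolderConjugate.two_two ha hb
  simp only [Pi.mul_apply, ENNReal.rpow_ofNat] at h
  calc (∫⁻ t, a t * b t) ^ 2 ≤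
        ((∫⁻ t, a t ^ 2) ^ (1 / 2 : ℝ) * (∫⁻ t, b t ^ 2) ^ (1 / 2 : ℝ)) ^ 2 := by gcongr
    _ = (∫⁻ t, a t ^ 2) * ∫⁻ t, b t ^ 2 := by
        rw [mul_pow, ← ENNReal.rpow_ofNat, ← ENNReal.rpow_ofNat, ← ENNReal.rpow_mul,
          ← ENNReal.rpow_mul]
        simp

/-- **Hausdorff-Young for `4/3`** -/
lemma hausdorff_young {f : ℝ → ℂ} (hf : Integrable f)
    (hA : ∫⁻ x, ‖f x‖ₑ ^ (4 / 3 : ℝ) ≠ ∞) :
    ∫⁻ y, ‖𝓕 f y‖ₑ ^ 4 ≤ (∫⁻ x, ‖f x‖ₑ ^ (4 / 3 : ℝ)) ^ 3 := by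
  set A := ∫⁻ x, ‖f x‖ₑ ^ (4 / 3 : ℝ) with hAdef
  apply four_bound hf (ENNReal.pow_ne_top hA)
  have hm := aem hf
  have hm43 : AEMeasurable (fun t => ‖f t‖ₑ ^ (4 / 3 : ℝ)) volume := hm.pow_const _
  have key : ∀ x, (∫⁻ t, ‖f t‖ₑ * ‖f (x - t)‖ₑ) ^ 2 ≤
      (∫⁻ t, ‖f t‖ₑ ^ (4 / 3 : ℝ) * ‖f (x - t)‖ₑ ^ (4 / 3 : ℝ)) * A := by
    intro x
    have hmx := aem_sub hf x
    have h1 := cs (fun t => ‖f t‖ₑ ^ (2 / 3 : ℝ) * ‖f (x - t)‖ₑ ^ (2 / 3 : ℝ))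
      (fun t => ‖f t‖ₑ ^ (1 / 3 : ℝ) * ‖f (x - t)‖ₑ ^ (1 / 3 : ℝ))
      ((hm.pow_const _).mul (hmx.pow_const _)) ((hm.pow_const _).mul (hmx.pow_const _))
    have e1 : ∀ t, ‖f t‖ₑ ^ (2 / 3 : ℝ) * ‖f (x - t)‖ₑ ^ (2 / 3 : ℝ) *
        (‖f t‖ₑ ^ (1 / 3 : ℝ) * ‖f (x - t)‖ₑ ^ (1 / 3 : ℝ)) = ‖f t‖ₑ * ‖f (x - t)‖ₑ := by
      intro t
      have h2 : ∀ z : ℝ≥0∞, z ^ (2 / 3 : ℝ) * z ^ (1 / 3 : ℝ) = z := by
        intro z
        rw [← ENNReal.rpow_add_of_nonneg _ _ (by norm_num) (by norm_num)]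
        norm_num
      calc _ = (‖f t‖ₑ ^ (2 / 3 : ℝ) * ‖f t‖ₑ ^ (1 / 3 : ℝ)) *
            (‖f (x - t)‖ₑ ^ (2 / 3 : ℝ) * ‖f (x - t)‖ₑ ^ (1 / 3 : ℝ)) := by ring
        _ = _ := by rw [h2, h2]
    have e2 : ∀ t, (‖f t‖ₑ ^ (2 / 3 : ℝ) * ‖f (x - t)‖ₑ ^ (2 / 3 : ℝ)) ^ 2 =
        ‖f t‖ₑ ^ (4 / 3 : ℝ) * ‖f (x - t)‖ₑ ^ (4 / 3 : ℝ) := by
      intro t
      rw [mul_pow, ← ENNReal.rpow_natCast, ← ENNReal.rpow_natCast, ← ENNReal.rpow_mul,
        ← ENNReal.rpow_mul]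
      norm_num
    have e3 : ∀ t, (‖f t‖ₑ ^ (1 / 3 : ℝ) * ‖f (x - t)‖ₑ ^ (1 / 3 : ℝ)) ^ 2 =
        ‖f t‖ₑ ^ (2 / 3 : ℝ) * ‖f (x - t)‖ₑ ^ (2 / 3 : ℝ) := by
      intro t
      rw [mul_pow, ← ENNReal.rpow_natCast, ← ENNReal.rpow_natCast, ← ENNReal.rpow_mul,
        ← ENNReal.rpow_mul]
      norm_num
    simp only [e1, e2, e3] at h1
    refine h1.trans ?_
    gcongr
    -- Cauchy-Schwarz once more
    have h3 := cs (fun t => ‖f t‖ₑ ^ (2 / 3 : ℝ)) (fun t => ‖f (x - t)‖ₑ ^ (2 / 3 : ℝ))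
      (hm.pow_const _) (hmx.pow_const _)
    have e4 : ∀ z : ℝ≥0∞, (z ^ (2 / 3 : ℝ)) ^ 2 = z ^ (4 / 3 : ℝ) := by
      intro z
      rw [← ENNReal.rpow_natCast, ← ENNReal.rpow_mul]
      norm_num
    simp only [e4] at h3
    have e5 : ∫⁻ t, ‖f (x - t)‖ₑ ^ (4 / 3 : ℝ) = A :=
      lintegral_sub_left (fun t => ‖f t‖ₑ ^ (4 / 3 : ℝ)) x
    rw [e5, ← hAdef, ← sq] at h3
    exact (ENNReal.pow_le_pow_left_iff (by norm_num)).mp h3
  calc ∫⁻ x, (∫⁻ t, ‖f t‖ₑ * ‖f (x - t)‖ₑ) ^ 2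
      ≤ ∫⁻ x, (∫⁻ t, ‖f t‖ₑ ^ (4 / 3 : ℝ) * ‖f (x - t)‖ₑ ^ (4 / 3 : ℝ)) * A :=
        lintegral_mono key
    _ = (∫⁻ x, ∫⁻ t, ‖f t‖ₑ ^ (4 / 3 : ℝ) * ‖f (x - t)‖ₑ ^ (4 / 3 : ℝ)) * A := by
        rw [lintegral_mul_const' _ _ hA]
    _ = A ^ 2 * A := by
        rw [double hm43]
    _ = A ^ 3 := by ring

/-- the blocks -/
def En (n : ℕ) : Set ℝ := Icc ((4 : ℝ) ^ (n + 1)) ((4 : ℝ) ^ (n + 1) + 1)

/-- the sparse set of infinite measure -/
def EE : Set ℝ := ⋃ n, En n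

lemma measurableSet_EE : MeasurableSet EE := MeasurableSet.iUnion fun _ => measurableSet_Icc

lemma volume_En (n : ℕ) : volume (En n) = 1 := by
  unfold En
  rw [Real.volume_Icc]
  simp

lemma pow4_le {a b : ℕ} (h : a ≤ b) : (4 : ℕ) ^ a ≤ 4 ^ b := Nat.pow_le_pow_right (by norm_num) h

lemma pow4_unique {a b c d : ℕ} (h : 4 ^ a + 4 ^ b = 4 ^ c + 4 ^ d) : a = c ∨ a = d := by
  wlog hab : a ≤ b generalizing a b with H
  · have h1 := H (a := b) (b := a) (by rw [add_comm, h]) (by omega)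
    rcases h1 with h1 | h1
    · subst h1
      right
      have : 4 ^ a = 4 ^ d := by omega
      exact Nat.pow_right_injective (le_refl _ |>.trans (by norm_num)) this
    · subst h1
      left
      have : 4 ^ a = 4 ^ c := by omega
      exact Nat.pow_right_injective (le_refl _ |>.trans (by norm_num)) this
  wlog hcd : c ≤ d generalizing c d with H
  · have h1 := H (c := d) (d := c) (by rw [h, add_comm]) (by omega)
    exact h1.symm
  left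
  have hbd : b = d := by
    rcases lt_trichotomy b d with h1 | h1 | h1
    · exfalso
      have h2 := pow4_le (show b + 1 ≤ d by omega)
      have h3 := pow4_le hab
      have h4 : 0 < 4 ^ c := by positivity
      have h5 : 0 < 4 ^ b := by positivity
      rw [pow_succ] at h2
      omega
    · exact h1
    · exfalso
      have h2 := pow4_le (show d + 1 ≤ b by omega)
      have h3 := pow4_le hcd
      have h4 : 0 < 4 ^ a := by positivity
      have h5 : 0 < 4 ^ d := by positivity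
      rw [pow_succ] at h2
      omega
  subst hbd
  have : 4 ^ a = 4 ^ c := by omega
  exact Nat.pow_right_injective (le_refl _ |>.trans (by norm_num)) this

lemma cap_subset (x : ℝ) : ∃ n m : ℕ, {t | t ∈ EE ∧ x - t ∈ EE} ⊆ En n ∪ En m := by
  by_cases hne : {t | t ∈ EE ∧ x - t ∈ EE}.Nonempty
  · obtain ⟨t0, ht0, ht0'⟩ := hne
    obtain ⟨n, hn⟩ := mem_iUnion.mp ht0
    obtain ⟨m, hm⟩ := mem_iUnion.mp ht0'
    refine ⟨n, m, ?_⟩
    rintro t ⟨ht, ht'⟩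
    obtain ⟨n', hn'⟩ := mem_iUnion.mp ht
    obtain ⟨m', hm'⟩ := mem_iUnion.mp ht'
    unfold En at hn hm hn' hm'
    rw [mem_Icc] at hn hm hn' hm'
    have h1 : ((4 : ℝ) ^ (n + 1) + 4 ^ (m + 1)) - (4 ^ (n' + 1) + 4 ^ (m' + 1)) ≤ 2 := by
      linarith [hn.1, hn.2, hm.1, hm.2, hn'.1, hn'.2, hm'.1, hm'.2]
    have h2 : ((4 : ℝ) ^ (n' + 1) + 4 ^ (m' + 1)) - (4 ^ (n + 1) + 4 ^ (m + 1)) ≤ 2 := by
      linarith [hn.1, hn.2, hm.1, hm.2, hn'.1, hn'.2, hm'.1, hm'.2]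
    have h1' : (4 : ℕ) ^ (n + 1) + 4 ^ (m + 1) ≤ (4 ^ (n' + 1) + 4 ^ (m' + 1)) + 2 := by
      have : ((4 : ℝ) ^ (n + 1) + 4 ^ (m + 1)) ≤ (4 ^ (n' + 1) + 4 ^ (m' + 1)) + 2 := by linarith
      exact_mod_cast this
    have h2' : (4 : ℕ) ^ (n' + 1) + 4 ^ (m' + 1) ≤ (4 ^ (n + 1) + 4 ^ (m + 1)) + 2 := by
      have : ((4 : ℝ) ^ (n' + 1) + 4 ^ (m' + 1)) ≤ (4 ^ (n + 1) + 4 ^ (m + 1)) + 2 := by linarith
      exact_mod_cast this
    have h3 : (4 : ℕ) ^ (n' + 1) + 4 ^ (m' + 1) = 4 ^ (n + 1) + 4 ^ (m + 1) := by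
      rw [pow_succ, pow_succ, pow_succ, pow_succ] at h1' h2' ⊢
      omega
    rcases pow4_unique h3 with h | h
    · left
      have : n' = n := by omega
      subst this
      exact ⟨hn'.1, hn'.2⟩
    · right
      have : n' = m := by omega
      subst this
      exact ⟨hn'.1, hn'.2⟩
  · refine ⟨0, 0, ?_⟩
    rw [Set.not_nonempty_iff_eq_empty.mp hne]
    exact Set.empty_subset _

lemma cap_volume (x : ℝ) : volume {t | t ∈ EE ∧ x - t ∈ EE} ≤ 2 := by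
  obtain ⟨n, m, h⟩ := cap_subset x
  calc volume {t | t ∈ EE ∧ x - t ∈ EE} ≤ volume (En n ∪ En m) := measure_mono h
    _ ≤ volume (En n) + volume (En m) := measure_union_le _ _
    _ = 2 := by rw [volume_En, volume_En]; norm_num

/-- **`L²(E) → L⁴`** -/
lemma sparse_bound {f : ℝ → ℂ} (hf : Integrable f) (hE : ∀ x, x ∉ EE → f x = 0)
    (hB : ∫⁻ x, ‖f x‖ₑ ^ 2 ≠ ∞) :
    ∫⁻ y, ‖𝓕 f y‖ₑ ^ 4 ≤ 2 * (∫⁻ x, ‖f x‖ₑ ^ 2) ^ 2 := by
  set B := ∫⁻ x, ‖f x‖ₑ ^ 2 with hBdef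
  apply four_bound hf (ENNReal.mul_ne_top (by norm_num) (ENNReal.pow_ne_top hB))
  have hm := aem hf
  have key : ∀ x, (∫⁻ t, ‖f t‖ₑ * ‖f (x - t)‖ₑ) ^ 2 ≤
      2 * ∫⁻ t, ‖f t‖ₑ ^ 2 * ‖f (x - t)‖ₑ ^ 2 := by
    intro x
    have hmx := aem_sub hf x
    set S : Set ℝ := {t | t ∈ EE ∧ x - t ∈ EE} with hS
    have hSm : MeasurableSet S := by
      apply MeasurableSet.inter measurableSet_EE
      exact measurableSet_EE.preimage (measurable_const.sub measurable_id)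
    have h1 := cs (S.indicator fun _ => (1 : ℝ≥0∞)) (fun t => ‖f t‖ₑ * ‖f (x - t)‖ₑ)
      ((measurable_const.indicator hSm).aemeasurable) (hm.mul hmx)
    have e1 : ∀ t, (S.indicator (fun _ => (1 : ℝ≥0∞)) t) * (‖f t‖ₑ * ‖f (x - t)‖ₑ) =
        ‖f t‖ₑ * ‖f (x - t)‖ₑ := by
      intro t
      by_cases ht : t ∈ S
      · rw [indicator_of_mem ht, one_mul]
      · rw [indicator_of_notMem ht, zero_mul]
        have : t ∉ EE ∨ x - t ∉ EE := by
          by_contra hcon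
          push Not at hcon
          exact ht hcon
        rcases this with h | h
        · rw [hE t h]; simp
        · rw [hE (x - t) h]; simp
    have e2 : ∀ t, (S.indicator (fun _ => (1 : ℝ≥0∞)) t) ^ 2 =
        S.indicator (fun _ => (1 : ℝ≥0∞)) t := by
      intro t
      by_cases ht : t ∈ S
      · rw [indicator_of_mem ht, one_pow]
      · rw [indicator_of_notMem ht]; simp
    simp only [e1, e2, mul_pow] at h1
    rw [lintegral_indicator hSm, setLIntegral_one] at h1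
    refine h1.trans ?_
    gcongr
    exact cap_volume x
  calc ∫⁻ x, (∫⁻ t, ‖f t‖ₑ * ‖f (x - t)‖ₑ) ^ 2
      ≤ ∫⁻ x, 2 * ∫⁻ t, ‖f t‖ₑ ^ 2 * ‖f (x - t)‖ₑ ^ 2 := lintegral_mono key
    _ = 2 * ∫⁻ x, ∫⁻ t, ‖f t‖ₑ ^ 2 * ‖f (x - t)‖ₑ ^ 2 := by
        rw [lintegral_const_mul' _ _ (by norm_num)]
    _ = 2 * B ^ 2 := by
        rw [double (G := fun t => ‖f t‖ₑ ^ 2) (hm.pow_const 2)]

end Pool.Agent.Q84.VarExp

namespace Pool.Agent.Q84.VarExp

open MeasureTheory Set FourierTransform Convolution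
open scoped ENNReal NNReal

lemma continuous_fourier {f : ℝ → ℂ} (hf : Integrable f) : Continuous (𝓕 f) :=
  VectorFourier.fourierIntegral_continuous Real.continuous_fourierChar
      (innerSL ℝ).continuous₂ hf

lemma flip {f g : ℝ → ℂ} (hf : Integrable f) (hg : Integrable g) :
    ∫ x, 𝓕 f x * g x = ∫ x, f x * 𝓕 g x := by
  simpa using! (VectorFourier.integral_fourierIntegral_smul_eq_flip (L := innerₗ ℝ)
        Real.continuous_fourierChar continuous_inner hf hg)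

/-- **`L^{4/3} → L²(E)`**, on bounded pieces -/
lemma dual_piece {f : ℝ → ℂ} (hf : Integrable f) (hA : ∫⁻ x, ‖f x‖ₑ ^ (4 / 3 : ℝ) ≤ 1) (n : ℕ) :
    ∫⁻ x in EE ∩ Icc (-(n : ℝ)) n, ‖𝓕 f x‖ₑ ^ 2 ≤ 2 := by
  set S := EE ∩ Icc (-(n : ℝ)) n with hS
  have hSm : MeasurableSet S := measurableSet_EE.inter measurableSet_Icc
  have hcont := continuous_fourier hf
  set g : ℝ → ℂ := S.indicator fun x => star (𝓕 f x) with hg
  have hSfin : volume S ≠ ∞ := by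
    have : volume S ≤ volume (Icc (-(n : ℝ)) n) := measure_mono inter_subset_right
    exact ne_top_of_le_ne_top (by rw [Real.volume_Icc]; exact ENNReal.ofReal_ne_top) this
  obtain ⟨K, hK⟩ := (isCompact_Icc (a := -(n : ℝ)) (b := n)).exists_bound_of_continuousOn
    (f := fun x => 𝓕 f x) hcont.continuousOn
  have hmeas : AEStronglyMeasurable g volume := by
    apply AEStronglyMeasurable.indicator _ hSm
    exact (hcont.star).aestronglyMeasurable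
  have hbound : ∀ x ∈ S, ‖star (𝓕 f x)‖ ≤ K := by
    intro x hx
    rw [norm_star]
    exact hK x hx.2
  have hmem : ∀ r : ℝ≥0∞, MemLp g r volume := by
    intro r
    rw [hg, memLp_indicator_iff_restrict hSm]
    have : IsFiniteMeasure (volume.restrict S) := ⟨by
      rw [Measure.restrict_apply_univ]; exact lt_top_iff_ne_top.mpr hSfin⟩
    apply MemLp.of_bound (hcont.star).aestronglyMeasurable K
    exact (ae_restrict_iff' hSm).mpr (Filter.Eventually.of_forall hbound)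
  have hgint : Integrable g := memLp_one_iff_integrable.mp (hmem 1)
  set Q := ∫⁻ x in S, ‖𝓕 f x‖ₑ ^ 2 with hQ
  have hQg : ∫⁻ x, ‖g x‖ₑ ^ 2 = Q := by
    rw [hQ, ← lintegral_indicator hSm]
    apply lintegral_congr
    intro x
    by_cases hx : x ∈ S
    · rw [hg, indicator_of_mem hx, indicator_of_mem hx]
      congr 1
      rw [← ofReal_norm, norm_star, ofReal_norm]
    · rw [hg, indicator_of_notMem hx, indicator_of_notMem hx]
      simp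
  have hQfin : Q ≠ ∞ := by
    rw [← hQg]
    have := (hmem 2).2
    rw [eLpNorm_lt_top_iff_lintegral_rpow_enorm_lt_top (by norm_num) (by norm_num)] at this
    simp only [ENNReal.toReal_ofNat, ENNReal.rpow_ofNat] at this
    exact this.ne
  have hgE : ∀ x, x ∉ EE → g x = 0 := by
    intro x hx
    rw [hg, indicator_of_notMem]
    exact fun h => hx h.1
  have hB := sparse_bound hgint hgE (by rw [hQg]; exact hQfin)
  rw [hQg] at hB
  -- pairing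
  have hpair : Q = ENNReal.ofReal (∫ x, ‖g x‖ ^ 2) := by
    rw [← hQg, ofReal_integral_eq_lintegral_ofReal]
    · apply lintegral_congr
      intro x
      rw [ENNReal.ofReal_pow (norm_nonneg _), ofReal_norm]
    · have := (memLp_two_iff_integrable_sq_norm hmeas).mp (hmem 2)
      exact this
    · exact Filter.Eventually.of_forall fun x => by positivity
  have hpair2 : ∫ x, 𝓕 f x * g x = ((∫ x, ‖g x‖ ^ 2 : ℝ) : ℂ) := by
    have h0 : ((∫ x, ‖g x‖ ^ 2 : ℝ) : ℂ) = ∫ x, ((‖g x‖ ^ 2 : ℝ) : ℂ) :=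
      (integral_ofReal (𝕜 := ℂ)).symm
    rw [h0]
    apply integral_congr_ae
    apply Filter.Eventually.of_forall
    intro x
    simp only
    by_cases hx : x ∈ S
    · rw [hg, indicator_of_mem hx, norm_star]
      have : 𝓕 f x * star (𝓕 f x) = ((‖𝓕 f x‖ ^ 2 : ℝ) : ℂ) := by
        have := Complex.mul_conj (𝓕 f x)
        rw [Complex.normSq_eq_norm_sq] at this
        exact this
      rw [this]
    · rw [hg, indicator_of_notMem hx]
      simp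
  have hQle : Q ≤ ∫⁻ x, ‖f x‖ₑ * ‖𝓕 g x‖ₑ := by
    have h1 : Q = ‖∫ x, 𝓕 f x * g x‖ₑ := by
      rw [hpair2, hpair, ← ofReal_norm, Complex.norm_real, Real.norm_of_nonneg]
      exact integral_nonneg fun x => by positivity
    rw [h1, flip hf hgint]
    refine (enorm_integral_le_lintegral_enorm _).trans (le_of_eq ?_)
    apply lintegral_congr
    intro x
    rw [enorm_mul]
  have hhold : ∫⁻ x, ‖f x‖ₑ * ‖𝓕 g x‖ₑ ≤
      (∫⁻ x, ‖f x‖ₑ ^ (4 / 3 : ℝ)) ^ (1 / (4 / 3) : ℝ) *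
        (∫⁻ x, ‖𝓕 g x‖ₑ ^ (4 : ℝ)) ^ (1 / 4 : ℝ) := by
    have hc : (4 / 3 : ℝ).HolderConjugate 4 := by
      rw [Real.holderConjugate_iff]
      norm_num
    exact ENNReal.lintegral_mul_le_Lp_mul_Lq volume hc (aem hf)
      ((continuous_fourier hgint).aestronglyMeasurable.enorm)
  have hQ4 : Q ^ 4 ≤ 2 * Q ^ 2 := by
    have h1 : Q ≤ (2 * Q ^ 2) ^ (1 / 4 : ℝ) := by
      refine hQle.trans (hhold.trans ?_)
      have h2 : (∫⁻ x, ‖f x‖ₑ ^ (4 / 3 : ℝ)) ^ (1 / (4 / 3) : ℝ) ≤ 1 := by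
        apply ENNReal.rpow_le_one hA
        norm_num
      have h3 : ∫⁻ x, ‖𝓕 g x‖ₑ ^ (4 : ℝ) ≤ 2 * Q ^ 2 := by
        simp only [ENNReal.rpow_ofNat]
        exact hB
      calc _ ≤ 1 * (2 * Q ^ 2) ^ (1 / 4 : ℝ) := by gcongr
        _ = _ := one_mul _
    calc Q ^ 4 ≤ ((2 * Q ^ 2) ^ (1 / 4 : ℝ)) ^ 4 := by gcongr
      _ = 2 * Q ^ 2 := by
        rw [← ENNReal.rpow_natCast, ← ENNReal.rpow_mul]
        norm_num
  by_contra hcon
  push Not at hcon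
  have hQ0 : Q ≠ 0 := by
    intro h0
    rw [h0] at hcon
    simp at hcon
  have hQ20 : Q ^ 2 ≠ 0 := pow_ne_zero _ hQ0
  have hQ2t : Q ^ 2 ≠ ∞ := ENNReal.pow_ne_top hQfin
  have h5 : Q ^ 2 * Q ^ 2 ≤ 2 * Q ^ 2 := by
    calc Q ^ 2 * Q ^ 2 = Q ^ 4 := by ring
      _ ≤ _ := hQ4
  have h6 : Q ^ 2 ≤ 2 := (ENNReal.mul_le_mul_iff_left hQ20 hQ2t).mp h5
  have h7 : (2 : ℝ≥0∞) ^ 2 < Q ^ 2 := ENNReal.pow_lt_pow_left (by norm_num) hcon
  have h8 : (2 : ℝ≥0∞) < 2 ^ 2 := by norm_num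
  exact absurd h6 (not_le.mpr (h8.trans h7))

/-- **`L^{4/3} → L²(E)`** -/
lemma dual_bound {f : ℝ → ℂ} (hf : Integrable f) (hA : ∫⁻ x, ‖f x‖ₑ ^ (4 / 3 : ℝ) ≤ 1) :
    ∫⁻ x in EE, ‖𝓕 f x‖ₑ ^ 2 ≤ 2 := by
  have hmono : Monotone fun n : ℕ => EE ∩ Icc (-(n : ℝ)) n := by
    intro n m hnm
    apply inter_subset_inter_right
    apply Icc_subset_Icc
    · have : (n : ℝ) ≤ m := by exact_mod_cast hnm
      linarith
    · exact_mod_cast hnm
  have hU : (⋃ n : ℕ, EE ∩ Icc (-(n : ℝ)) n) = EE := by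
    rw [← inter_iUnion]
    apply inter_eq_left.mpr
    intro x _
    obtain ⟨n, hn⟩ := exists_nat_ge |x|
    exact mem_iUnion.mpr ⟨n, abs_le.mp hn⟩
  have h1 : ∀ s, MeasurableSet s → ∫⁻ x in s, ‖𝓕 f x‖ₑ ^ 2 =
      (volume.withDensity fun x => ‖𝓕 f x‖ₑ ^ 2) s := by
    intro s hs
    rw [withDensity_apply _ hs]
  rw [h1 _ measurableSet_EE, ← hU, hmono.measure_iUnion]
  apply iSup_le
  intro n
  rw [← h1 _ (measurableSet_EE.inter measurableSet_Icc)]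
  exact dual_piece hf hA n

lemma volume_EE : volume EE = ∞ := by
  have hdisj : Pairwise (Function.onFun Disjoint En) := by
    intro n m hnm
    wlog h : n < m generalizing n m with H
    · exact (H hnm.symm (by omega)).symm
    rw [Function.onFun, Set.disjoint_left]
    intro x hx hx'
    unfold En at hx hx'
    have h1 : (4 : ℝ) ^ (n + 1) + 1 < 4 ^ (m + 1) := by
      have h2 : (4 : ℝ) ^ (n + 1 + 1) ≤ 4 ^ (m + 1) :=
        pow_le_pow_right₀ (by norm_num) (by omega)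
      have h3 : (1 : ℝ) ≤ 4 ^ (n + 1) := one_le_pow₀ (by norm_num)
      rw [pow_succ] at h2
      linarith
    linarith [hx.2, hx'.1]
  unfold EE
  rw [measure_iUnion hdisj (fun _ => measurableSet_Icc)]
  simp only [volume_En]
  exact ENNReal.tsum_const_eq_top_of_ne_zero one_ne_zero

end Pool.Agent.Q84.VarExp
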