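import Mathlib

/-!
# Weighted `ℓ²(ℤ)` as a Banach function space: convolutors are regular, general operators not
-/

open scoped ComplexOrder
open MeasureTheory

namespace Pool.Agent.Q84.WZ

/-- `N` is a complete solid norm on the space `E` of functions on the discrete set `G`. -/
structure IsBFS {G : Type} (E : Submodule ℂ (G → ℂ)) (N : E → ℝ) : Prop where
  definite : ∀ f, N f = 0 → f = 0
  homog : ∀ (c : ℂ) f, N (c • f) = ‖c‖ * N f
  triangle : ∀ f g, N (f + g) ≤ N f + N g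
  complete : ∀ u : ℕ → E,
    (∀ ε > 0, ∃ n₀, ∀ m ≥ n₀, ∀ n ≥ n₀, N (u m - u n) < ε) →
      ∃ f : E, ∀ ε > 0, ∃ n₀, ∀ n ≥ n₀, N (u n - f) < ε
  solid : ∀ (f : E) (g : G → ℂ), (∀ s, ‖g s‖ ≤ ‖(f : G → ℂ) s‖) →
    ∃ h : g ∈ E, N ⟨g, h⟩ ≤ N f

/-- bounded operators -/
def Bdd {G : Type} {E : Submodule ℂ (G → ℂ)} (N : E → ℝ) (T : E →ₗ[ℂ] E) : Prop :=
  ∃ C : ℝ, ∀ f, N (T f) ≤ C * N f

/-- positive operators -/
def Pos {G : Type} {E : Submodule ℂ (G → ℂ)} (T : E →ₗ[ℂ] E) : Prop :=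
  ∀ f : E, (∀ s, 0 ≤ (f : G → ℂ) s) → ∀ s, 0 ≤ (T f : G → ℂ) s

/-- regular operators: complex linear combinations of positive operators -/
def Regular {G : Type} {E : Submodule ℂ (G → ℂ)} (T : E →ₗ[ℂ] E) : Prop :=
  ∃ (n : ℕ) (c : Fin n → ℂ) (P : Fin n → (E →ₗ[ℂ] E)), (∀ i, Pos (P i)) ∧ T = ∑ i, c i • P i

/-- invariance under left and right translations (group written additively) -/
def TransInv {G : Type} [AddGroup G] (E : Submodule ℂ (G → ℂ)) : Prop :=
  ∀ t : G, ∀ f ∈ E, (fun s => f (s + t)) ∈ E ∧ (fun s => f (-t + s)) ∈ E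

/-- `T` commutes with all right translations -/
def CommRight {G : Type} [AddGroup G] {E : Submodule ℂ (G → ℂ)} (T : E →ₗ[ℂ] E) : Prop :=
  ∀ (t : G) (f g : E), (∀ s, (g : G → ℂ) s = (f : G → ℂ) (s + t)) →
    ∀ s, (T g : G → ℂ) s = (T f : G → ℂ) (s + t)

/-- amenability of a discrete group (written additively) -/
def Amenable (G : Type) [AddGroup G] : Prop :=
  ∃ m : Set G → ℝ, (∀ A, 0 ≤ m A) ∧ m Set.univ = 1 ∧
    (∀ A B, Disjoint A B → m (A ∪ B) = m A + m B) ∧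
    ∀ (g : G) (A : Set G), m ((fun x => g + x) '' A) = m A

/-! ### the weighted space -/

noncomputable abbrev H := lp (fun _ : ℤ => ℂ) 2

noncomputable def w (n : ℤ) : ℝ := 1 + |(n : ℝ)|

lemma w_ge_one (n : ℤ) : 1 ≤ w n := by unfold w; linarith [abs_nonneg (n : ℝ)]
lemma w_pos (n : ℤ) : 0 < w n := lt_of_lt_of_le one_pos (w_ge_one n)
lemma w_sub (n m : ℤ) : w n ≤ w m * w (n - m) := by
  unfold w
  push_cast
  have h1 : |(n : ℝ)| ≤ |(m : ℝ)| + |(n : ℝ) - m| := by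
    have := abs_add_le (m : ℝ) ((n : ℝ) - m)
    simpa using this
  nlinarith [abs_nonneg (m : ℝ), abs_nonneg ((n : ℝ) - m)]
lemma w_add (n m : ℤ) : w n ≤ w m + w (n - m) := by
  unfold w
  push_cast
  have h1 : |(n : ℝ)| ≤ |(m : ℝ)| + |(n : ℝ) - m| := by
    have := abs_add_le (m : ℝ) ((n : ℝ) - m)
    simpa using this
  linarith

/-- the weighted space `ℓ²(ℤ, w)` -/
def E : Submodule ℂ (ℤ → ℂ) where
  carrier := {f | Memℓp (fun n => (w n : ℂ) * f n) 2}
  add_mem' := by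
    intro f g hf hg
    have := Memℓp.add hf hg
    refine (congrArg (fun z : ℤ → ℂ => Memℓp z 2) ?_).mp this
    funext n
    simp [mul_add]
  zero_mem' := by
    have : Memℓp (0 : ℤ → ℂ) 2 := zero_memℓp
    refine (congrArg (fun z : ℤ → ℂ => Memℓp z 2) ?_).mp this
    funext n
    simp
  smul_mem' := by
    intro c f hf
    have := Memℓp.const_smul hf c
    refine (congrArg (fun z : ℤ → ℂ => Memℓp z 2) ?_).mp this
    funext n
    simp [mul_left_comm]

lemma mem_E {f : ℤ → ℂ} : f ∈ E ↔ Memℓp (fun n => (w n : ℂ) * f n) 2 := Iff.rfl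

/-- the isomorphism with `ℓ²` -/
noncomputable def J (f : E) : H := ⟨fun n => (w n : ℂ) * (f : ℤ → ℂ) n, f.2⟩

lemma J_apply (f : E) (n : ℤ) : J f n = (w n : ℂ) * (f : ℤ → ℂ) n := rfl

lemma wc_ne (n : ℤ) : (w n : ℂ) ≠ 0 := by
  exact_mod_cast (w_pos n).ne'

noncomputable def Jinv (a : H) : E := ⟨fun n => (w n : ℂ)⁻¹ * a n, by
  rw [mem_E]
  have h : (fun n => (w n : ℂ) * ((w n : ℂ)⁻¹ * a n)) = (a : ℤ → ℂ) := by
    funext n; rw [← mul_assoc, mul_inv_cancel₀ (wc_ne n), one_mul]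
  rw [h]
  exact a.2⟩

lemma Jinv_apply (a : H) (n : ℤ) : (Jinv a : ℤ → ℂ) n = (w n : ℂ)⁻¹ * a n := rfl

lemma J_Jinv (a : H) : J (Jinv a) = a := by
  ext n
  rw [J_apply, Jinv_apply, ← mul_assoc, mul_inv_cancel₀ (wc_ne n), one_mul]

lemma Jinv_J (f : E) : Jinv (J f) = f := by
  apply Subtype.ext
  funext n
  rw [Jinv_apply, J_apply, ← mul_assoc, inv_mul_cancel₀ (wc_ne n), one_mul]

lemma J_add (f g : E) : J (f + g) = J f + J g := by
  ext n; simp [J_apply, mul_add]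
lemma J_sub (f g : E) : J (f - g) = J f - J g := by
  ext n; simp [J_apply, mul_sub]
lemma J_smul (c : ℂ) (f : E) : J (c • f) = c • J f := by
  ext n; simp [J_apply, mul_left_comm]

/-- the weighted norm -/
noncomputable def N (f : E) : ℝ := ‖J f‖

lemma N_nonneg (f : E) : 0 ≤ N f := norm_nonneg _

lemma coord_le (a : H) (n : ℤ) : ‖a n‖ ≤ ‖a‖ := lp.norm_apply_le_norm (by norm_num) a n

lemma memlp_mono {a b : ℤ → ℂ} (hb : Memℓp b 2) (h : ∀ n, ‖a n‖ ≤ ‖b n‖) : Memℓp a 2 := by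
  rw [memℓp_gen_iff (by norm_num)] at hb ⊢
  refine Summable.of_nonneg_of_le (fun n => by positivity) (fun n => ?_) hb
  exact Real.rpow_le_rpow (norm_nonneg _) (h n) (by norm_num)

lemma lp_norm_mono {a b : H} (h : ∀ n, ‖a n‖ ≤ ‖b n‖) : ‖a‖ ≤ ‖b‖ := by
  have h1 := lp.norm_rpow_eq_tsum (p := 2) (by norm_num) a
  have h2 := lp.norm_rpow_eq_tsum (p := 2) (by norm_num) b
  have ha : Summable fun n => ‖a n‖ ^ (2 : ENNReal).toReal :=
    (memℓp_gen_iff (by norm_num)).mp a.2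
  have hb : Summable fun n => ‖b n‖ ^ (2 : ENNReal).toReal :=
    (memℓp_gen_iff (by norm_num)).mp b.2
  have h3 : ‖a‖ ^ (2 : ENNReal).toReal ≤ ‖b‖ ^ (2 : ENNReal).toReal := by
    rw [h1, h2]
    exact ha.tsum_le_tsum (fun n => Real.rpow_le_rpow (norm_nonneg _) (h n) (by norm_num)) hb
  have h4 : (0 : ℝ) < (2 : ENNReal).toReal := by norm_num
  exact (Real.rpow_le_rpow_iff (norm_nonneg _) (norm_nonneg _) h4).mp h3

lemma isBFS_E : IsBFS E N where
  definite := by
    intro f hf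
    have h : J f = 0 := norm_eq_zero.mp hf
    rw [← Jinv_J f, h]
    apply Subtype.ext
    funext n
    simp [Jinv_apply]
  homog := by
    intro c f
    simp [N, J_smul, norm_smul]
  triangle := by
    intro f g
    simp only [N, J_add]
    exact norm_add_le _ _
  complete := by
    intro u hu
    have hc : CauchySeq (fun n => J (u n)) := by
      rw [Metric.cauchySeq_iff]
      intro ε hε
      obtain ⟨n₀, h₀⟩ := hu ε hε
      refine ⟨n₀, fun m hm n hn => ?_⟩
      rw [dist_eq_norm, ← J_sub]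
      exact h₀ m hm n hn
    obtain ⟨a, ha⟩ := cauchySeq_tendsto_of_complete hc
    refine ⟨Jinv a, fun ε hε => ?_⟩
    obtain ⟨n₀, h₀⟩ := (Metric.tendsto_atTop.mp ha) ε hε
    refine ⟨n₀, fun n hn => ?_⟩
    have := h₀ n hn
    rw [dist_eq_norm] at this
    simpa only [N, J_sub, J_Jinv] using this
  solid := by
    intro f g hg
    have hm : g ∈ E := by
      rw [mem_E]
      refine memlp_mono f.2 (fun n => ?_)
      rw [norm_mul, norm_mul]
      exact mul_le_mul_of_nonneg_left (hg n) (norm_nonneg _)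
    refine ⟨hm, ?_⟩
    apply lp_norm_mono
    intro n
    rw [J_apply, J_apply, norm_mul, norm_mul]
    exact mul_le_mul_of_nonneg_left (hg n) (norm_nonneg _)

/-! ### translations -/

lemma memlp_shift {a : ℤ → ℂ} (ha : Memℓp a 2) (t : ℤ) : Memℓp (fun n => a (n - t)) 2 := by
  rw [memℓp_gen_iff (by norm_num)] at ha ⊢
  exact ha.comp_injective (i := fun n : ℤ => n - t) (fun x y h => by simpa using h)

lemma shift_mem {f : ℤ → ℂ} (hf : f ∈ E) (t : ℤ) : (fun n => f (n - t)) ∈ E := by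
  rw [mem_E]
  have h := memlp_shift hf t
  have h2 : Memℓp (fun n => (w t : ℂ) * ((w (n - t) : ℂ) * f (n - t))) 2 := h.const_mul _
  refine memlp_mono h2 (fun n => ?_)
  rw [norm_mul, norm_mul, norm_mul]
  simp only [Complex.norm_real, Real.norm_eq_abs, abs_of_pos (w_pos _)]
  rw [← mul_assoc]
  exact mul_le_mul_of_nonneg_right (w_sub n t) (norm_nonneg _)

lemma transInv_E : TransInv E := by
  intro t f hf
  refine ⟨?_, ?_⟩
  · have := shift_mem hf (-t)
    simpa using this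
  · have := shift_mem hf t
    have h : (fun s => f (-t + s)) = fun n => f (n - t) := by
      funext s; congr 1; ring
    rw [h]; exact this

end Pool.Agent.Q84.WZ
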