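import Pool.Agent.Q84.WZ1

open scoped ComplexOrder
open MeasureTheory

namespace Pool.Agent.Q84.WZ

lemma summable_inv_sq_w : Summable fun n : ℤ => ((w n)⁻¹) ^ 2 := by
  have h : Summable fun n : ℤ => 1 / |(n : ℝ)| ^ (2 : ℝ) :=
    (Real.summable_one_div_int_add_rpow (a := 0) 2).mpr (by norm_num) |>.congr (fun n => by simp)
  have h2 : Summable fun n : ℤ => if n = 0 then (1 : ℝ) else 1 / |(n : ℝ)| ^ (2 : ℝ) := by
    have := h.update 0 (1 : ℝ)
    refine this.congr (fun n => ?_)
    by_cases hn : n = 0 <;> simp [hn, Function.update]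
  refine Summable.of_nonneg_of_le (fun n => by positivity) (fun n => ?_) h2
  by_cases hn : n = 0
  · simp [hn, w]
  · rw [if_neg hn]
    have h1 : 0 < |(n : ℝ)| := abs_pos.mpr (by exact_mod_cast hn)
    have h3 : |(n : ℝ)| ^ (2 : ℝ) = |(n : ℝ)| ^ 2 := by norm_cast
    rw [h3, inv_pow, one_div]
    apply inv_anti₀ (by positivity)
    unfold w
    gcongr
    linarith

lemma summable_of_mem {f : ℤ → ℂ} (hf : f ∈ E) : Summable fun n => ‖f n‖ := by
  have h1 : Summable fun n => ‖(w n : ℂ) * f n‖ ^ 2 := by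
    have := (memℓp_gen_iff (by norm_num)).mp hf
    refine this.congr (fun n => ?_)
    norm_num
  refine Summable.of_nonneg_of_le (fun n => norm_nonneg _) (fun n => ?_)
    ((summable_inv_sq_w).add h1)
  have h2 : ‖f n‖ = (w n)⁻¹ * ‖(w n : ℂ) * f n‖ := by
    rw [norm_mul, Complex.norm_real, Real.norm_eq_abs, abs_of_pos (w_pos n), ← mul_assoc,
      inv_mul_cancel₀ (w_pos n).ne', one_mul]
  rw [h2]
  nlinarith [sq_nonneg ((w n)⁻¹ - ‖(w n : ℂ) * f n‖), sq_nonneg ((w n)⁻¹), sq_nonneg (‖(w n : ℂ) * f n‖),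
    inv_nonneg.mpr (w_pos n).le, norm_nonneg ((w n : ℂ) * f n)]

/-- shift as element of `H` -/
noncomputable def sh (v : ℤ → ℂ) (hv : Memℓp v 2) (m : ℤ) : H := ⟨fun n => v (n - m), memlp_shift hv m⟩

lemma sh_apply (v : ℤ → ℂ) (hv : Memℓp v 2) (m n : ℤ) : sh v hv m n = v (n - m) := rfl

lemma norm_sh (v : ℤ → ℂ) (hv : Memℓp v 2) (m : ℤ) : ‖sh v hv m‖ = ‖(⟨v, hv⟩ : H)‖ := by
  have h1 := lp.norm_rpow_eq_tsum (p := 2) (by norm_num) (sh v hv m)
  have h2 := lp.norm_rpow_eq_tsum (p := 2) (by norm_num) (⟨v, hv⟩ : H)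
  have h3 : (∑' n, ‖sh v hv m n‖ ^ (2 : ENNReal).toReal) =
      ∑' n, ‖(⟨v, hv⟩ : H) n‖ ^ (2 : ENNReal).toReal :=
    (Equiv.subRight m).tsum_eq (fun n => ‖v n‖ ^ (2 : ENNReal).toReal)
  have h4 : ‖sh v hv m‖ ^ (2 : ENNReal).toReal = ‖(⟨v, hv⟩ : H)‖ ^ (2 : ENNReal).toReal := by
    rw [h1, h2, h3]
  exact (Real.rpow_left_inj (norm_nonneg _) (norm_nonneg _) (by norm_num)).mp h4

/-- coordinate evaluation is continuous -/
lemma hasSum_coord {ι : Type*} {u : ι → H} {a : H} (h : HasSum u a) (n : ℤ) : HasSum (fun m => u m n) (a n) := by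
  have hc : Continuous fun a : H => a n := by
    refine continuous_iff_continuousAt.mpr (fun b => ?_)
    rw [Metric.continuousAt_iff]
    intro ε hε
    refine ⟨ε, hε, fun {x} hx => ?_⟩
    rw [dist_eq_norm] at hx ⊢
    have := coord_le (x - b) n
    exact lt_of_le_of_lt this hx
  have := h.map (⟨⟨fun a : H => a n, rfl⟩, fun a b => rfl⟩ : H →+ ℂ) hc
  exact this

/-- Young's inequality in qualitative form -/
lemma young {u v : ℤ → ℂ} (hu : Summable fun n => ‖u n‖) (hv : Memℓp v 2) :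
    Memℓp (fun n => ∑' m, u m * v (n - m)) 2 ∧ ∀ n, Summable fun m => u m * v (n - m) := by
  have hs : Summable fun m => u m • sh v hv m := by
    refine Summable.of_norm ?_
    have : (fun m => ‖u m • sh v hv m‖) = fun m => ‖u m‖ * ‖(⟨v, hv⟩ : H)‖ := by
      funext m; rw [norm_smul, norm_sh]
    rw [this]
    exact hu.mul_right _
  have hc := fun n => hasSum_coord hs.hasSum n
  refine ⟨?_, fun n => (hc n).summable⟩
  have h2 : (fun n => ∑' m, u m * v (n - m)) = ((∑' m, u m • sh v hv m : H) : ℤ → ℂ) := by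
    funext n
    exact (hc n).tsum_eq
  rw [h2]
  exact lp.memℓp _

/-- convolution -/
noncomputable def conv (k f : ℤ → ℂ) (n : ℤ) : ℂ := ∑' m, f m * k (n - m)

lemma norm_memlp {v : ℤ → ℂ} (hv : Memℓp v 2) : Memℓp (fun n => ((‖v n‖ : ℝ) : ℂ)) 2 :=
  memlp_mono hv (fun n => by simp)

lemma conv_summable {k f : ℤ → ℂ} (hk : k ∈ E) (hf : f ∈ E) (n : ℤ) :
    Summable fun m => f m * k (n - m) := by
  have hk2 : Memℓp k 2 := by
    refine memlp_mono hk (fun n => ?_)
    rw [norm_mul, Complex.norm_real, Real.norm_eq_abs, abs_of_pos (w_pos n)]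
    exact le_mul_of_one_le_left (norm_nonneg _) (w_ge_one n)
  exact (young (summable_of_mem hf) hk2).2 n

lemma conv_mem {k f : ℤ → ℂ} (hk : k ∈ E) (hf : f ∈ E) : conv k f ∈ E := by
  -- the two Young pieces
  have hf1 := summable_of_mem hf
  have hk1 := summable_of_mem hk
  have nf : Summable fun n => ‖((‖f n‖ : ℝ) : ℂ)‖ := by simpa using hf1
  have nk : Summable fun n => ‖((‖k n‖ : ℝ) : ℂ)‖ := by simpa using hk1
  have A := young nf (norm_memlp hk)
  have B := young nk (norm_memlp hf)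
  have hsum := A.1.add B.1
  rw [mem_E]
  refine memlp_mono hsum (fun n => ?_)
  have hcs := conv_summable hk hf n
  -- real versions of the two sums
  have hA := (A.2 n)
  have hB := (B.2 n)
  have hA' : Summable fun m => ‖f m‖ * (w (n - m) * ‖k (n - m)‖) := by
    rw [← Complex.summable_ofReal]
    refine hA.congr (fun m => ?_)
    rw [norm_mul, Complex.norm_real, Real.norm_eq_abs, abs_of_pos (w_pos _)]
    push_cast; ring
  have hB' : Summable fun m => ‖k m‖ * (w (n - m) * ‖f (n - m)‖) := by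
    rw [← Complex.summable_ofReal]
    refine hB.congr (fun m => ?_)
    rw [norm_mul, Complex.norm_real, Real.norm_eq_abs, abs_of_pos (w_pos _)]
    push_cast; ring
  have hB'' : Summable fun m => ‖k (n - m)‖ * (w m * ‖f m‖) := by
    have := (Equiv.subLeft n).summable_iff.mpr hB'
    refine this.congr (fun m => ?_)
    simp [Equiv.subLeft]
  have eB : (∑' m, ‖k m‖ * (w (n - m) * ‖f (n - m)‖)) = ∑' m, ‖k (n - m)‖ * (w m * ‖f m‖) := by
    rw [← (Equiv.subLeft n).tsum_eq]
    refine tsum_congr (fun m => ?_)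
    simp [Equiv.subLeft]
  have key : w n * ‖conv k f n‖ ≤
      (∑' m, ‖f m‖ * (w (n - m) * ‖k (n - m)‖)) + ∑' m, ‖k m‖ * (w (n - m) * ‖f (n - m)‖) := by
    rw [eB, ← hA'.tsum_add hB'']
    have h1 : ‖conv k f n‖ ≤ ∑' m, ‖f m * k (n - m)‖ := norm_tsum_le_tsum_norm hcs.norm
    calc w n * ‖conv k f n‖ ≤ w n * ∑' m, ‖f m * k (n - m)‖ :=
          mul_le_mul_of_nonneg_left h1 (w_pos n).le
      _ = ∑' m, w n * ‖f m * k (n - m)‖ := (tsum_mul_left).symm
      _ ≤ _ := by
          refine (hcs.norm.mul_left _).tsum_le_tsum (fun m => ?_) (hA'.add hB'')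
          rw [norm_mul]
          have h2 := w_add n m
          have h3 : 0 ≤ ‖f m‖ * ‖k (n - m)‖ := by positivity
          nlinarith
  have e1 : ‖(w n : ℂ) * conv k f n‖ = w n * ‖conv k f n‖ := by
    rw [norm_mul, Complex.norm_real, Real.norm_eq_abs, abs_of_pos (w_pos _)]
  rw [e1]
  refine key.trans ?_
  have e2 : ((fun n => ∑' m, ((‖f m‖ : ℝ) : ℂ) * ((‖(w (n - m) : ℂ) * k (n - m)‖ : ℝ) : ℂ)) +
      (fun n => ∑' m, ((‖k m‖ : ℝ) : ℂ) * ((‖(w (n - m) : ℂ) * f (n - m)‖ : ℝ) : ℂ))) n =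
      (((∑' m, ‖f m‖ * (w (n - m) * ‖k (n - m)‖)) +
        ∑' m, ‖k m‖ * (w (n - m) * ‖f (n - m)‖) : ℝ) : ℂ) := by
    simp only [Pi.add_apply]
    push_cast
    congr 1
    · refine tsum_congr (fun m => ?_)
      rw [norm_mul, Complex.norm_real, Real.norm_eq_abs, abs_of_pos (w_pos _)]
      push_cast; ring
    · refine tsum_congr (fun m => ?_)
      rw [norm_mul, Complex.norm_real, Real.norm_eq_abs, abs_of_pos (w_pos _)]
      push_cast; ring
  rw [e2, Complex.norm_real]
  exact le_abs_self _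

/-- convolution operator on `E` -/
noncomputable def convOp (k : E) : E →ₗ[ℂ] E where
  toFun f := ⟨conv k f, conv_mem k.2 f.2⟩
  map_add' := by
    intro f g
    apply Subtype.ext
    funext n
    change conv k ((f : ℤ → ℂ) + g) n = conv k f n + conv k g n
    unfold conv
    rw [← (conv_summable k.2 f.2 n).tsum_add (conv_summable k.2 g.2 n)]
    refine tsum_congr (fun m => ?_)
    simp [add_mul]
  map_smul' := by
    intro c f
    apply Subtype.ext
    funext n
    change conv k (c • (f : ℤ → ℂ)) n = c * conv k f n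
    unfold conv
    rw [← tsum_mul_left]
    refine tsum_congr (fun m => ?_)
    simp [mul_assoc]

lemma convOp_apply (k f : E) (n : ℤ) : (convOp k f : ℤ → ℂ) n = ∑' m, (f : ℤ → ℂ) m * (k : ℤ → ℂ) (n - m) :=
  rfl

lemma convOp_pos {k : E} (hk : ∀ n, 0 ≤ (k : ℤ → ℂ) n) : Pos (convOp k) := by
  intro f hf n
  rw [convOp_apply]
  exact tsum_nonneg (fun m => mul_nonneg (hf m) (hk _))

/-- unit vectors of `E` -/
noncomputable def del (m : ℤ) : E := ⟨Pi.single m 1, by
  rw [mem_E]
  have h : (fun n => (w n : ℂ) * (Pi.single m (1 : ℂ) : ℤ → ℂ) n) =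
      ((w m : ℂ) • (lp.single 2 m (1 : ℂ) : H) : H) := by
    funext n
    change (w n : ℂ) * (Pi.single m (1 : ℂ) : ℤ → ℂ) n = (w m : ℂ) * (lp.single 2 m (1 : ℂ) : H) n
    by_cases hn : n = m
    · subst hn; rw [lp.single_apply_self, Pi.single_eq_same]
    · rw [lp.single_apply_ne _ _ _ hn, Pi.single_eq_of_ne hn]; simp
  rw [h]
  exact lp.memℓp _⟩

lemma del_apply (m n : ℤ) : (del m : ℤ → ℂ) n = if n = m then 1 else 0 := by
  change (Pi.single m (1 : ℂ) : ℤ → ℂ) n = _
  rw [Pi.single_apply]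

/-- every bounded operator commuting with right translations is a convolution operator -/
lemma commRight_eq (T : E →ₗ[ℂ] E) (hb : Bdd N T) (hc : CommRight T) :
    T = convOp (T (del 0)) := by
  obtain ⟨C, hC⟩ := hb
  set k := T (del 0) with hk
  have hdel : ∀ m s, (T (del m) : ℤ → ℂ) s = (k : ℤ → ℂ) (s - m) := by
    intro m s
    have := hc (-m) (del 0) (del m) (fun s => by
      rw [del_apply, del_apply]
      congr 1
      simp only [eq_iff_iff]
      constructor <;> intro h <;> lia) s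
    rw [this, hk]
    rfl
  -- the operator on `H`
  let Tl : H →ₗ[ℂ] H :=
    { toFun := fun a => J (T (Jinv a))
      map_add' := by
        intro a b
        have : Jinv (a + b) = Jinv a + Jinv b := by
          apply Subtype.ext; funext n; simp [Jinv_apply, mul_add]
        rw [this, map_add, J_add]
      map_smul' := by
        intro c a
        have : Jinv (c • a) = c • Jinv a := by
          apply Subtype.ext; funext n; simp [Jinv_apply, mul_left_comm]
        rw [this, map_smul, J_smul]; rfl }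
  have hTl : ∀ a, ‖Tl a‖ ≤ C * ‖a‖ := by
    intro a
    have := hC (Jinv a)
    rw [N, N, J_Jinv] at this
    exact this
  let T' : H →L[ℂ] H := Tl.mkContinuous C hTl
  apply LinearMap.ext
  intro f
  apply Subtype.ext
  funext n
  rw [convOp_apply]
  have h1 := (lp.hasSum_single (p := 2) (by norm_num) (J f))
  have h2 := hasSum_coord (h1.mapL T') n
  have h3 : T' (J f) = J (T f) := by
    change J (T (Jinv (J f))) = _
    rw [Jinv_J]
  rw [h3] at h2
  have h4 : ∀ m, T' (lp.single 2 m ((J f) m)) n = (w n : ℂ) * ((f : ℤ → ℂ) m * (k : ℤ → ℂ) (n - m)) := by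
    intro m
    have h5 : Jinv (lp.single 2 m ((J f) m)) = (f : ℤ → ℂ) m • del m := by
      apply Subtype.ext
      funext s
      rw [Jinv_apply]
      change _ = (f : ℤ → ℂ) m * (del m : ℤ → ℂ) s
      rw [del_apply]
      by_cases hs : s = m
      · subst hs
        rw [lp.single_apply_self, if_pos rfl, J_apply, ← mul_assoc, inv_mul_cancel₀ (wc_ne s)]
        ring
      · rw [if_neg hs, lp.single_apply_ne _ _ _ hs]
        simp
    change (J (T (Jinv (lp.single 2 m ((J f) m))))) n = _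
    rw [h5, map_smul, J_smul]
    change (f : ℤ → ℂ) m * (J (T (del m)) n) = _
    rw [J_apply, hdel]
    ring
  have h6 : HasSum (fun m => (w n : ℂ) * ((f : ℤ → ℂ) m * (k : ℤ → ℂ) (n - m))) ((J (T f)) n) := by
    have h8 := funext h4
    exact h8 ▸ h2
  rw [J_apply] at h6
  have h7 := (h6.tsum_eq)
  rw [tsum_mul_left] at h7
  exact (mul_left_cancel₀ (wc_ne n) h7).symm

end Pool.Agent.Q84.WZ
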