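import Pool.Agent.Q84.WZ2

open scoped ComplexOrder
open MeasureTheory

namespace Pool.Agent.Q84.WZ

/-! ### bounded convolutors are regular -/

lemma part_mem {k : ℤ → ℂ} (hk : k ∈ E) (φ : ℂ → ℝ) (h : ∀ z, |φ z| ≤ ‖z‖) :
    (fun n => ((φ (k n) : ℝ) : ℂ)) ∈ E :=
  (isBFS_E.solid ⟨k, hk⟩ _ (fun s => by
    rw [Complex.norm_real]; exact h _)).choose

lemma max_abs {x : ℝ} {z : ℂ} (h : |x| ≤ ‖z‖) : |max x 0| ≤ ‖z‖ := by
  rw [abs_of_nonneg (le_max_right _ _)]
  exact max_le ((le_abs_self x).trans h) (norm_nonneg z)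

noncomputable def kp (k : E) (i : Fin 4) : E :=
  match i with
  | 0 => ⟨_, part_mem k.2 (fun z => max z.re 0) (fun z => max_abs (Complex.abs_re_le_norm z))⟩
  | 1 => ⟨_, part_mem k.2 (fun z => max (-z.re) 0) (fun z => max_abs (by
      rw [abs_neg]; exact Complex.abs_re_le_norm z))⟩
  | 2 => ⟨_, part_mem k.2 (fun z => max z.im 0) (fun z => max_abs (Complex.abs_im_le_norm z))⟩
  | 3 => ⟨_, part_mem k.2 (fun z => max (-z.im) 0) (fun z => max_abs (by
      rw [abs_neg]; exact Complex.abs_im_le_norm z))⟩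

noncomputable def cf (i : Fin 4) : ℂ :=
  match i with
  | 0 => 1
  | 1 => -1
  | 2 => Complex.I
  | 3 => -Complex.I

lemma kp_nonneg (k : E) (i : Fin 4) (n : ℤ) : 0 ≤ (kp k i : ℤ → ℂ) n := by
  fin_cases i
  · change (0 : ℂ) ≤ ((max ((k : ℤ → ℂ) n).re 0 : ℝ) : ℂ)
    exact_mod_cast le_max_right _ _
  · change (0 : ℂ) ≤ ((max (-((k : ℤ → ℂ) n).re) 0 : ℝ) : ℂ)
    exact_mod_cast le_max_right _ _
  · change (0 : ℂ) ≤ ((max ((k : ℤ → ℂ) n).im 0 : ℝ) : ℂ)
    exact_mod_cast le_max_right _ _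
  · change (0 : ℂ) ≤ ((max (-((k : ℤ → ℂ) n).im) 0 : ℝ) : ℂ)
    exact_mod_cast le_max_right _ _

lemma max_sub_max (x : ℝ) : max x 0 - max (-x) 0 = x := by
  rcases le_total x 0 with h | h
  · rw [max_eq_right h, max_eq_left (by linarith)]; ring
  · rw [max_eq_left h, max_eq_right (by linarith)]; ring

lemma kp_sum (k : E) (n : ℤ) : ∑ i, cf i * (kp k i : ℤ → ℂ) n = (k : ℤ → ℂ) n := by
  rw [Fin.sum_univ_four]
  change (1 : ℂ) * ((max ((k : ℤ → ℂ) n).re 0 : ℝ) : ℂ) + (-1) * ((max (-((k : ℤ → ℂ) n).re) 0 : ℝ) : ℂ)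
    + Complex.I * ((max ((k : ℤ → ℂ) n).im 0 : ℝ) : ℂ) +
    (-Complex.I) * ((max (-((k : ℤ → ℂ) n).im) 0 : ℝ) : ℂ) = _
  have h1 := max_sub_max ((k : ℤ → ℂ) n).re
  have h2 := max_sub_max ((k : ℤ → ℂ) n).im
  have h3 : (k : ℤ → ℂ) n = ((max ((k : ℤ → ℂ) n).re 0 - max (-((k : ℤ → ℂ) n).re) 0 : ℝ) : ℂ) +
      ((max ((k : ℤ → ℂ) n).im 0 - max (-((k : ℤ → ℂ) n).im) 0 : ℝ) : ℂ) * Complex.I := by
    rw [h1, h2, Complex.re_add_im]
  rw [h3]
  push_cast
  simp
  ring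

theorem regular_of_comm (T : E →ₗ[ℂ] E) (hb : Bdd N T) (hc : CommRight T) : Regular T := by
  rw [commRight_eq T hb hc]
  set k := T (del 0)
  refine ⟨4, cf, fun i => convOp (kp k i), fun i => convOp_pos (kp_nonneg k i), ?_⟩
  apply LinearMap.ext
  intro f
  apply Subtype.ext
  funext n
  rw [LinearMap.sum_apply, AddSubmonoidClass.coe_finsetSum, Finset.sum_apply]
  change (convOp k f : ℤ → ℂ) n = ∑ i, cf i * ((convOp (kp k i)) f : ℤ → ℂ) n
  simp only [convOp_apply]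
  simp only [← tsum_mul_left]
  rw [← Summable.tsum_finsetSum (fun i _ => (conv_summable (kp k i).2 f.2 n).mul_left _)]
  refine tsum_congr (fun m => ?_)
  rw [← kp_sum k (n - m), Finset.mul_sum]
  refine Finset.sum_congr rfl (fun i _ => ?_)
  ring

/-! ### positive operators are bounded on positive elements -/

lemma pos_bdd (P : E →ₗ[ℂ] E) (hP : Pos P) :
    ∃ C : ℝ, ∀ f : E, (∀ s, 0 ≤ (f : ℤ → ℂ) s) → N (P f) ≤ C * N f := by
  by_contra hcon
  push Not at hcon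
  choose f hf0 hf using fun k : ℕ => hcon (4 ^ k)
  have hNf : ∀ k, 0 < N (f k) := by
    intro k
    rcases (N_nonneg (f k)).lt_or_eq with h | h
    · exact h
    · exfalso
      have h1 := isBFS_E.definite (f k) h.symm
      have h2 := hf k
      rw [h1, map_zero] at h2
      have h3 : N (0 : E) = 0 := by
        have := isBFS_E.homog 0 (0 : E)
        simpa using this
      rw [h3] at h2
      simp at h2
  -- normalised
  set c : ℕ → ℝ := fun k => (2 ^ k * N (f k))⁻¹ with hcdef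
  have hc : ∀ k, 0 < c k := fun k => inv_pos.mpr (mul_pos (by positivity) (hNf k))
  set g : ℕ → E := fun k => (c k : ℂ) • f k with hg
  have hNg : ∀ k, ‖J (g k)‖ = (1 / 2) ^ k := by
    intro k
    rw [hg]
    change N ((c k : ℂ) • f k) = _
    rw [isBFS_E.homog, Complex.norm_real, Real.norm_eq_abs, abs_of_pos (hc k), hcdef]
    have := (hNf k).ne'
    field_simp
    rw [← mul_pow]; norm_num
  have hs : Summable fun k => J (g k) := by
    refine Summable.of_norm ?_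
    simp_rw [hNg]
    exact summable_geometric_of_lt_one (by norm_num) (by norm_num)
  set S : E := Jinv (∑' k, J (g k)) with hS
  have hg0 : ∀ k s, 0 ≤ (g k : ℤ → ℂ) s := by
    intro k s
    change (0 : ℂ) ≤ (c k : ℂ) * (f k : ℤ → ℂ) s
    exact mul_nonneg (Complex.zero_le_real.mpr (hc k).le) (hf0 k s)
  have hJg0 : ∀ k s, 0 ≤ J (g k) s := by
    intro k s
    rw [J_apply]
    exact mul_nonneg (Complex.zero_le_real.mpr (w_pos s).le) (hg0 k s)
  have hSg : ∀ k s, 0 ≤ ((S - g k : E) : ℤ → ℂ) s := by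
    intro k s
    have h1 := hasSum_coord hs.hasSum s
    have h2 : J (g k) s ≤ (∑' k, J (g k) : H) s :=
      le_hasSum h1 k (fun j _ => hJg0 j s)
    have h3 : ((S - g k : E) : ℤ → ℂ) s = (w s : ℂ)⁻¹ * ((∑' k, J (g k) : H) s - J (g k) s) := by
      change (S : ℤ → ℂ) s - (g k : ℤ → ℂ) s = _
      rw [hS, Jinv_apply, J_apply]
      field_simp [wc_ne s]
    rw [h3]
    have h5 : (0 : ℂ) ≤ (w s : ℂ)⁻¹ := by
      rw [← Complex.ofReal_inv]
      exact Complex.zero_le_real.mpr (inv_pos.mpr (w_pos s)).le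
    exact mul_nonneg h5 (sub_nonneg.mpr h2)
  -- contradiction
  have hbig : ∀ k : ℕ, (2 : ℝ) ^ k ≤ N (P S) := by
    intro k
    have h1 : ∀ s, 0 ≤ ((P (S - g k) : E) : ℤ → ℂ) s := hP _ (hSg k)
    have h2 : ∀ s, 0 ≤ ((P (g k) : E) : ℤ → ℂ) s := hP _ (hg0 k)
    have h3 : N (P (g k)) ≤ N (P S) := by
      have h4 := (isBFS_E.solid (P S) (P (g k)) (fun s => by
        have h5 : ((P S : E) : ℤ → ℂ) s = ((P (S - g k) : E) : ℤ → ℂ) s + ((P (g k) : E) : ℤ → ℂ) s := by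
          rw [map_sub]
          change _ = (((P S : E) : ℤ → ℂ) s - ((P (g k) : E) : ℤ → ℂ) s) + _
          ring
        rw [h5]
        exact CStarAlgebra.norm_le_norm_of_nonneg_of_le (h2 s) (le_add_of_nonneg_left (h1 s))))
      exact h4.choose_spec
    have h6 : N (P (g k)) = c k * N (P (f k)) := by
      rw [hg]
      change N (P ((c k : ℂ) • f k)) = _
      rw [map_smul, isBFS_E.homog, Complex.norm_real, Real.norm_eq_abs, abs_of_pos (hc k)]
    have h7 := hf k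
    have h8 : (2 : ℝ) ^ k ≤ c k * N (P (f k)) := by
      have h9 : c k * (4 ^ k * N (f k)) ≤ c k * N (P (f k)) := mul_le_mul_of_nonneg_left h7.le (hc k).le
      refine le_trans (le_of_eq ?_) h9
      rw [hcdef]
      have := (hNf k).ne'
      have h10 : (4 : ℝ) ^ k = 2 ^ k * 2 ^ k := by rw [← mul_pow]; norm_num
      rw [h10]
      field_simp
    linarith
  obtain ⟨k, hk⟩ := pow_unbounded_of_one_lt (N (P S)) (one_lt_two)
  exact absurd (hbig k) (not_le.mpr hk)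

end Pool.Agent.Q84.WZ
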