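import Pool.Agent.Q84.WZ3

open scoped ComplexOrder
open MeasureTheory AddCircle

namespace Pool.Agent.Q84.WZ

noncomputable abbrev L2 := Lp ℂ 2 (haarAddCircle : Measure UnitAddCircle)

noncomputable def phi : UnitAddCircle → ℂ := (↑) ∘ periodizedBernoulli 1

lemma phi_meas : Measurable phi := by
  unfold phi
  refine Complex.measurable_ofReal.comp ?_
  unfold periodizedBernoulli AddCircle.liftIco
  have h1 : Measurable (bernoulliFun 1) := by
    have : bernoulliFun 1 = fun x => x - 1 / 2 := by funext x; exact bernoulliFun_one x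
    rw [this]
    fun_prop
  exact (h1.comp measurable_subtype_coe).comp (AddCircle.measurableEquivIco 1 0).measurable

lemma phi_bound (x : UnitAddCircle) : ‖phi x‖ ≤ 1 := by
  have h : phi x = ((bernoulliFun 1 ((AddCircle.equivIco 1 0) x) : ℝ) : ℂ) := rfl
  rw [h, Complex.norm_real, bernoulliFun_one, Real.norm_eq_abs]
  have := ((AddCircle.equivIco 1 0) x).2
  rw [Set.mem_Ico] at this
  rw [abs_le]
  constructor <;> linarith [this.1, this.2]

lemma phi_memLp : MemLp phi ⊤ (haarAddCircle : Measure UnitAddCircle) :=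
  memLp_top_of_bound phi_meas.aestronglyMeasurable 1 (Filter.Eventually.of_forall phi_bound)

/-- multiplication by `phi` -/
noncomputable def Mphi : L2 →L[ℂ] L2 :=
  (ContinuousLinearMap.mul ℂ ℂ).holderL (haarAddCircle : Measure UnitAddCircle) ⊤ 2 2
    (phi_memLp.toLp phi)

lemma Mphi_ae (f : L2) : Mphi f =ᵐ[haarAddCircle] fun x => phi x * f x := by
  have h1 := (ContinuousLinearMap.mul ℂ ℂ).coeFn_holder (r := 2) (phi_memLp.toLp phi) f
  have h2 : Mphi f = (ContinuousLinearMap.mul ℂ ℂ).holder 2 (phi_memLp.toLp phi) f := rfl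
  rw [h2]
  filter_upwards [h1, phi_memLp.coeFn_toLp] with x hx hx2
  rw [hx, hx2]
  rfl

noncomputable abbrev fb : HilbertBasis ℤ ℂ L2 := fourierBasis (T := 1)

/-- the discrete Hilbert matrix as an operator on `ℓ²(ℤ)` -/
noncomputable def V (a : H) : H := fb.repr (Mphi (fb.repr.symm a))

lemma V_add (a b : H) : V (a + b) = V a + V b := by simp [V]
lemma V_smul (c : ℂ) (a : H) : V (c • a) = c • V a := by simp [V]
lemma V_norm (a : H) : ‖V a‖ ≤ ‖Mphi‖ * ‖a‖ := by
  unfold V
  rw [LinearIsometryEquiv.norm_map]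
  refine (Mphi.le_opNorm _).trans ?_
  rw [LinearIsometryEquiv.norm_map]

lemma V_single (m n : ℤ) :
    V (lp.single 2 m (1 : ℂ)) n = -1 / (2 * Real.pi * Complex.I * ((n - m : ℤ) : ℂ)) := by
  unfold V
  rw [fb.repr_symm_single, fourierBasis_repr]
  have h1 : (Mphi (fb m) : UnitAddCircle → ℂ) =ᵐ[haarAddCircle] fun x => phi x * fourier m x := by
    have h2 := Mphi_ae (fb m)
    have h3 : (fb m : UnitAddCircle → ℂ) =ᵐ[haarAddCircle] fourier m := by
      have : fb m = fourierLp 2 m := by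
        have := coe_fourierBasis (T := 1)
        exact congrFun this m
      rw [this]
      exact coeFn_fourierLp 2 m
    filter_upwards [h2, h3] with x hx hx3
    rw [hx, hx3]
  rw [fourierCoeff_congr_ae h1]
  have h4 : fourierCoeff (fun x => phi x * fourier m x) n = fourierCoeff phi (n - m) := by
    unfold fourierCoeff
    refine integral_congr_ae (Filter.Eventually.of_forall fun x => ?_)
    simp only [smul_eq_mul]
    have h5 : -(n - m) = -n + m := by ring
    rw [h5, fourier_add]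
    ring
  rw [h4]
  have h6 := fourierCoeff_bernoulli_eq (k := 1) one_ne_zero (n - m)
  have h7 : fourierCoeff phi (n - m) =
    fourierCoeff ((↑) ∘ periodizedBernoulli 1 : UnitAddCircle → ℂ) (n - m) := rfl
  rw [h7, h6]
  simp

/-- the non-regular operator -/
noncomputable def T0 : E →ₗ[ℂ] E where
  toFun f := Jinv (V (J f))
  map_add' := by
    intro f g
    rw [J_add, V_add]
    apply Subtype.ext; funext n
    simp [Jinv_apply, mul_add]
  map_smul' := by
    intro c f
    rw [J_smul, V_smul]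
    apply Subtype.ext; funext n
    simp [Jinv_apply, mul_left_comm]

lemma T0_bdd : Bdd N T0 := by
  refine ⟨‖Mphi‖, fun f => ?_⟩
  change ‖J (Jinv (V (J f)))‖ ≤ _
  rw [J_Jinv]
  exact V_norm _

lemma J_del (m : ℤ) : J (del m) = (w m : ℂ) • (lp.single 2 m (1 : ℂ) : H) := by
  ext n
  rw [J_apply, del_apply]
  change _ = (w m : ℂ) * (lp.single 2 m (1 : ℂ) : H) n
  by_cases hn : n = m
  · subst hn; rw [lp.single_apply_self, if_pos rfl]
  · rw [lp.single_apply_ne _ _ _ hn, if_neg hn]; simp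

lemma T0_del (m n : ℤ) : (T0 (del m) : ℤ → ℂ) n =
    (w n : ℂ)⁻¹ * ((w m : ℂ) * (-1 / (2 * Real.pi * Complex.I * ((n - m : ℤ) : ℂ)))) := by
  change (Jinv (V (J (del m))) : ℤ → ℂ) n = _
  rw [Jinv_apply, J_del, V_smul]
  change _ * ((w m : ℂ) * V (lp.single 2 m (1 : ℂ)) n) = _
  rw [V_single]

/-- test functions -/
noncomputable def tf (s : Finset ℤ) : E := ∑ m ∈ s, ((w m)⁻¹ : ℂ) • del m

lemma J_tf (s : Finset ℤ) : J (tf s) = ∑ m ∈ s, (lp.single 2 m (1 : ℂ) : H) := by
  have h : ∀ s : Finset ℤ, J (tf s) = ∑ m ∈ s, J (((w m)⁻¹ : ℂ) • del m) := by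
    intro s
    classical
    induction s using Finset.induction_on with
    | empty =>
      unfold tf
      rw [Finset.sum_empty, Finset.sum_empty]
      ext n; simp [J_apply]
    | insert a s ha ih =>
      unfold tf at ih ⊢
      rw [Finset.sum_insert ha, Finset.sum_insert ha, J_add, ih]
  rw [h]
  refine Finset.sum_congr rfl (fun m _ => ?_)
  rw [J_smul, J_del, smul_smul, inv_mul_cancel₀ (wc_ne m), one_smul]

lemma N_tf (s : Finset ℤ) : N (tf s) ^ 2 = s.card := by
  unfold N
  rw [J_tf]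
  have := lp.norm_sum_single (p := 2) (E := fun _ : ℤ => ℂ) (by norm_num) (fun _ => (1 : ℂ)) s
  have h2 : (2 : ENNReal).toReal = ((2 : ℕ) : ℝ) := by norm_num
  rw [h2, Real.rpow_natCast] at this
  rw [this]
  simp

lemma tf_nonneg (s : Finset ℤ) (n : ℤ) : 0 ≤ (tf s : ℤ → ℂ) n := by
  unfold tf
  rw [AddSubmonoidClass.coe_finsetSum, Finset.sum_apply]
  refine Finset.sum_nonneg (fun m _ => ?_)
  change (0 : ℂ) ≤ ((w m)⁻¹ : ℂ) * (del m : ℤ → ℂ) n
  rw [del_apply]
  have h1 : (0 : ℂ) ≤ ((w m : ℂ))⁻¹ := by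
    rw [← Complex.ofReal_inv]
    exact Complex.zero_le_real.mpr (inv_pos.mpr (w_pos m)).le
  split_ifs
  · simpa using h1
  · simp

lemma del_nonneg (m n : ℤ) : 0 ≤ (del m : ℤ → ℂ) n := by
  rw [del_apply]; split_ifs <;> simp

/-- Cauchy–Schwarz over a finite block -/
lemma block_cs (a : H) (s : Finset ℤ) : (∑ n ∈ s, ‖a n‖) ^ 2 ≤ s.card * ‖a‖ ^ 2 := by
  have h1 : (∑ n ∈ s, ‖a n‖) ^ 2 ≤ s.card * ∑ n ∈ s, ‖a n‖ ^ 2 := sq_sum_le_card_mul_sum_sq
  refine h1.trans (mul_le_mul_of_nonneg_left ?_ (by positivity))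
  have h2 := lp.sum_rpow_le_norm_rpow (p := 2) (by norm_num) a s
  have h3 : (2 : ENNReal).toReal = ((2 : ℕ) : ℝ) := by norm_num
  rw [h3, Real.rpow_natCast] at h2
  simpa [Real.rpow_natCast] using h2

lemma harmonic_block (M : ℕ) (n : ℤ) (hn : n ∈ Finset.Ico (0 : ℤ) (2 * M + 1)) :
    ∑ j ∈ Finset.range M, 1 / ((j : ℝ) + 1) ≤
      ∑ m ∈ Finset.Ico (0 : ℤ) (2 * M + 1), 1 / |((n - m : ℤ) : ℝ)| := by
  rw [Finset.mem_Ico] at hn
  by_cases h : n ≤ M
  · have hinj : Set.InjOn (fun j : ℕ => n + 1 + (j : ℤ)) (Finset.range M : Set ℕ) := by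
      intro a _ b _ hab
      simp only at hab
      lia
    have h1 : ∑ j ∈ Finset.range M, 1 / ((j : ℝ) + 1) =
        ∑ m ∈ (Finset.range M).image (fun j : ℕ => n + 1 + (j : ℤ)), 1 / |((n - m : ℤ) : ℝ)| := by
      rw [Finset.sum_image hinj]
      refine Finset.sum_congr rfl (fun j _ => ?_)
      congr 1
      push_cast
      rw [abs_of_nonpos (by linarith [(Nat.cast_nonneg j : (0 : ℝ) ≤ j)])]
      ring
    rw [h1]
    refine Finset.sum_le_sum_of_subset_of_nonneg ?_ (fun _ _ _ => by positivity)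
    intro m hm
    rw [Finset.mem_image] at hm
    obtain ⟨j, hj, rfl⟩ := hm
    rw [Finset.mem_range] at hj
    rw [Finset.mem_Ico]
    constructor <;> lia
  · have hinj : Set.InjOn (fun j : ℕ => n - 1 - (j : ℤ)) (Finset.range M : Set ℕ) := by
      intro a _ b _ hab
      simp only at hab
      lia
    have h1 : ∑ j ∈ Finset.range M, 1 / ((j : ℝ) + 1) =
        ∑ m ∈ (Finset.range M).image (fun j : ℕ => n - 1 - (j : ℤ)), 1 / |((n - m : ℤ) : ℝ)| := by
      rw [Finset.sum_image hinj]
      refine Finset.sum_congr rfl (fun j _ => ?_)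
      congr 1
      push_cast
      rw [abs_of_nonneg (by linarith [(Nat.cast_nonneg j : (0 : ℝ) ≤ j)])]
      ring
    rw [h1]
    refine Finset.sum_le_sum_of_subset_of_nonneg ?_ (fun _ _ _ => by positivity)
    intro m hm
    rw [Finset.mem_image] at hm
    obtain ⟨j, hj, rfl⟩ := hm
    rw [Finset.mem_range] at hj
    rw [Finset.mem_Ico]
    constructor <;> lia

theorem T0_not_regular : ¬ Regular T0 := by
  rintro ⟨r, c, P, hP, hT⟩
  choose C hC using fun i => pos_bdd (P i) (hP i)
  -- entry bound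
  have hentry : ∀ m n, ‖(T0 (del m) : ℤ → ℂ) n‖ ≤ ∑ i, ‖c i‖ * ‖(P i (del m) : ℤ → ℂ) n‖ := by
    intro m n
    rw [hT, LinearMap.sum_apply, AddSubmonoidClass.coe_finsetSum, Finset.sum_apply]
    refine (norm_sum_le _ _).trans (Finset.sum_le_sum fun i _ => ?_)
    change ‖c i * (P i (del m) : ℤ → ℂ) n‖ ≤ _
    rw [norm_mul]
  -- additivity of positive parts
  have hadd : ∀ (i : Fin r) (s : Finset ℤ) (n : ℤ),
      ∑ m ∈ s, (w m)⁻¹ * ‖(P i (del m) : ℤ → ℂ) n‖ = ‖(P i (tf s) : ℤ → ℂ) n‖ := by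
    intro i s n
    have h1 : (P i (tf s) : ℤ → ℂ) n = ∑ m ∈ s, ((w m)⁻¹ : ℂ) * (P i (del m) : ℤ → ℂ) n := by
      unfold tf
      rw [map_sum, AddSubmonoidClass.coe_finsetSum, Finset.sum_apply]
      refine Finset.sum_congr rfl (fun m _ => ?_)
      rw [map_smul]
      rfl
    have h2 : ∀ m, (P i (del m) : ℤ → ℂ) n = ((‖(P i (del m) : ℤ → ℂ) n‖ : ℝ) : ℂ) := fun m =>
      (RCLike.norm_of_nonneg' (hP i (del m) (del_nonneg m) n)).symm
    rw [h1]
    have h3 : ∑ m ∈ s, ((w m)⁻¹ : ℂ) * (P i (del m) : ℤ → ℂ) n =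
        ((∑ m ∈ s, (w m)⁻¹ * ‖(P i (del m) : ℤ → ℂ) n‖ : ℝ) : ℂ) := by
      push_cast
      refine Finset.sum_congr rfl (fun m _ => ?_)
      conv_lhs => rw [h2 m]
    rw [h3, Complex.norm_real, Real.norm_eq_abs, abs_of_nonneg]
    exact Finset.sum_nonneg (fun m _ => mul_nonneg (inv_pos.mpr (w_pos m)).le (norm_nonneg _))
  set K : ℝ := ∑ i, ‖c i‖ * |C i| with hK
  have hmain : ∀ M : ℕ, ∑ j ∈ Finset.range M, 1 / ((j : ℝ) + 1) ≤ 2 * Real.pi * K := by
    intro M
    set s := Finset.Ico (0 : ℤ) (2 * M + 1) with hs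
    have hcard : (s.card : ℝ) = 2 * M + 1 := by
      rw [hs, Int.card_Ico]
      have : (2 * (M : ℤ) + 1 - 0).toNat = 2 * M + 1 := by lia
      rw [this]; push_cast; ring
    have hspos : (0 : ℝ) < s.card := by rw [hcard]; positivity
    -- pointwise lower bound
    have hlow : ∀ n ∈ s, (2 * Real.pi)⁻¹ * ∑ j ∈ Finset.range M, 1 / ((j : ℝ) + 1) ≤
        ∑ i, ‖c i‖ * ‖J (P i (tf s)) n‖ := by
      intro n hn
      have h1 := harmonic_block M n hn
      have h2 : (2 * Real.pi)⁻¹ * ∑ m ∈ s, 1 / |((n - m : ℤ) : ℝ)| =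
          w n * ∑ m ∈ s, (w m)⁻¹ * ‖(T0 (del m) : ℤ → ℂ) n‖ := by
        rw [Finset.mul_sum, Finset.mul_sum]
        refine Finset.sum_congr rfl (fun m _ => ?_)
        rw [T0_del]
        simp only [norm_mul, norm_inv, norm_div, Complex.norm_real, Real.norm_eq_abs, norm_neg,
          norm_one, Complex.norm_I, abs_of_pos (w_pos _), abs_of_pos Real.pi_pos, mul_one]
        have e1 : ‖((n - m : ℤ) : ℂ)‖ = |((n - m : ℤ) : ℝ)| := by
          rw [← Complex.ofReal_intCast, Complex.norm_real, Real.norm_eq_abs]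
        rw [e1]
        have e2 : ‖(2 : ℂ)‖ = 2 := by norm_num
        rw [e2]
        have := (w_pos n).ne'
        have := (w_pos m).ne'
        field_simp
      calc (2 * Real.pi)⁻¹ * ∑ j ∈ Finset.range M, 1 / ((j : ℝ) + 1)
          ≤ (2 * Real.pi)⁻¹ * ∑ m ∈ s, 1 / |((n - m : ℤ) : ℝ)| :=
            mul_le_mul_of_nonneg_left h1 (by positivity)
        _ = w n * ∑ m ∈ s, (w m)⁻¹ * ‖(T0 (del m) : ℤ → ℂ) n‖ := h2
        _ ≤ w n * ∑ m ∈ s, (w m)⁻¹ * ∑ i, ‖c i‖ * ‖(P i (del m) : ℤ → ℂ) n‖ := by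
            refine mul_le_mul_of_nonneg_left (Finset.sum_le_sum fun m _ => ?_) (w_pos n).le
            exact mul_le_mul_of_nonneg_left (hentry m n) (inv_pos.mpr (w_pos m)).le
        _ = ∑ i, ‖c i‖ * ‖J (P i (tf s)) n‖ := by
            have h3 : ∀ i, ‖J (P i (tf s)) n‖ = w n * ∑ m ∈ s, (w m)⁻¹ * ‖(P i (del m) : ℤ → ℂ) n‖ := by
              intro i
              rw [hadd, J_apply, norm_mul, Complex.norm_real, Real.norm_eq_abs, abs_of_pos (w_pos n)]
            simp only [h3, Finset.mul_sum]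
            rw [Finset.sum_comm]
            refine Finset.sum_congr rfl (fun i _ => Finset.sum_congr rfl (fun m _ => ?_))
            ring
    -- sum over the block
    have hup : ∀ i, ∑ n ∈ s, ‖J (P i (tf s)) n‖ ≤ |C i| * s.card := by
      intro i
      have h1 := block_cs (J (P i (tf s))) s
      have h2 : ‖J (P i (tf s))‖ ≤ |C i| * N (tf s) :=
        (hC i (tf s) (tf_nonneg s)).trans (mul_le_mul_of_nonneg_right (le_abs_self _) (N_nonneg _))
      have h3 : (∑ n ∈ s, ‖J (P i (tf s)) n‖) ^ 2 ≤ (|C i| * s.card) ^ 2 := by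
        refine h1.trans ?_
        have h4 : ‖J (P i (tf s))‖ ^ 2 ≤ (|C i| * N (tf s)) ^ 2 :=
          pow_le_pow_left₀ (norm_nonneg _) h2 2
        rw [mul_pow, N_tf] at h4
        nlinarith
      exact abs_le_of_sq_le_sq' h3 (by positivity) |>.2
    have htot : (s.card : ℝ) * ((2 * Real.pi)⁻¹ * ∑ j ∈ Finset.range M, 1 / ((j : ℝ) + 1)) ≤
        s.card * K := by
      calc (s.card : ℝ) * ((2 * Real.pi)⁻¹ * ∑ j ∈ Finset.range M, 1 / ((j : ℝ) + 1))
          = ∑ n ∈ s, (2 * Real.pi)⁻¹ * ∑ j ∈ Finset.range M, 1 / ((j : ℝ) + 1) := by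
            rw [Finset.sum_const, nsmul_eq_mul]
        _ ≤ ∑ n ∈ s, ∑ i, ‖c i‖ * ‖J (P i (tf s)) n‖ := Finset.sum_le_sum hlow
        _ = ∑ i, ‖c i‖ * ∑ n ∈ s, ‖J (P i (tf s)) n‖ := by
            rw [Finset.sum_comm]
            refine Finset.sum_congr rfl (fun i _ => ?_)
            rw [Finset.mul_sum]
        _ ≤ ∑ i, ‖c i‖ * (|C i| * s.card) :=
            Finset.sum_le_sum fun i _ => mul_le_mul_of_nonneg_left (hup i) (norm_nonneg _)
        _ = s.card * K := by
            rw [hK, Finset.mul_sum]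
            refine Finset.sum_congr rfl (fun i _ => ?_)
            ring
    have h5 := le_of_mul_le_mul_left htot hspos
    have hpi : (0 : ℝ) < 2 * Real.pi := by positivity
    rw [inv_mul_le_iff₀ hpi] at h5
    exact h5
  have htend := Real.tendsto_sum_range_one_div_nat_succ_atTop
  obtain ⟨M, hM⟩ := (htend.eventually_gt_atTop (2 * Real.pi * K)).exists
  exact absurd (hmain M) (not_le.mpr hM)

/-! ### amenability of the integers -/

open Classical in
lemma card_cast (B : Set ℤ) (n : ℕ) :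
    ((Finset.range n).filter (fun j : ℕ => (j : ℤ) ∈ B)).card =
      ((Finset.Ico (0 : ℤ) n).filter (· ∈ B)).card := by
  refine Finset.card_bij (fun j _ => (j : ℤ)) ?_ ?_ ?_
  · intro j hj
    simp only [Finset.mem_filter, Finset.mem_range, Finset.mem_Ico] at hj ⊢
    exact ⟨⟨by lia, by lia⟩, hj.2⟩
  · intro a _ b _ h
    exact_mod_cast h
  · intro b hb
    simp only [Finset.mem_filter, Finset.mem_Ico] at hb
    refine ⟨b.toNat, ?_, by lia⟩
    simp only [Finset.mem_filter, Finset.mem_range]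
    have h1 : ((b.toNat : ℕ) : ℤ) = b := by lia
    rw [h1]
    exact ⟨by lia, hb.2⟩

open Classical in
lemma card_diff (S T : Finset ℤ) (p : ℤ → Prop) (k : ℕ) (h1 : (S \ T).card ≤ k)
    (h2 : (T \ S).card ≤ k) : |((S.filter p).card : ℝ) - ((T.filter p).card : ℝ)| ≤ k := by
  have key : ∀ S T : Finset ℤ, (S \ T).card ≤ k → (S.filter p).card ≤ (T.filter p).card + k := by
    intro S T h
    have h3 : S.filter p ⊆ T.filter p ∪ (S \ T) := by
      intro x hx
      simp only [Finset.mem_union, Finset.mem_filter, Finset.mem_sdiff] at hx ⊢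
      tauto
    have h4 := Finset.card_le_card h3
    have h5 := Finset.card_union_le (T.filter p) (S \ T)
    lia
  have a := key S T h1
  have b := key T S h2
  have a' : ((S.filter p).card : ℝ) ≤ (T.filter p).card + k := by exact_mod_cast a
  have b' : ((T.filter p).card : ℝ) ≤ (S.filter p).card + k := by exact_mod_cast b
  rw [abs_le]
  constructor <;> linarith

open Classical in
lemma count_diff (g : ℤ) (A : Set ℤ) (n : ℕ) :
    |(((Finset.range n).filter (fun j : ℕ => (j : ℤ) ∈ (fun x => g + x) '' A)).card : ℝ)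
        - (((Finset.range n).filter (fun j : ℕ => (j : ℤ) ∈ A)).card : ℝ)| ≤ g.natAbs := by
  rw [card_cast, card_cast]
  have h1 : ((Finset.Ico (0 : ℤ) n).filter (· ∈ (fun x => g + x) '' A)).card =
      ((Finset.Ico (-g) ((n : ℤ) - g)).filter (· ∈ A)).card := by
    refine Finset.card_bij (fun j _ => j - g) ?_ ?_ ?_
    · intro j hj
      simp only [Finset.mem_filter, Finset.mem_Ico, Set.mem_image] at hj ⊢
      obtain ⟨h2, x, hx, rfl⟩ := hj
      refine ⟨⟨by lia, by lia⟩, ?_⟩
      have : g + x - g = x := by ring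
      rw [this]; exact hx
    · intro a _ b _ h
      simpa using h
    · intro b hb
      simp only [Finset.mem_filter, Finset.mem_Ico] at hb
      refine ⟨g + b, ?_, by ring⟩
      simp only [Finset.mem_filter, Finset.mem_Ico, Set.mem_image]
      exact ⟨⟨by lia, by lia⟩, b, hb.2, rfl⟩
  rw [h1]
  apply card_diff
  · rcases le_total 0 g with h | h
    · have h3 : Finset.Ico (-g) ((n : ℤ) - g) \ Finset.Ico (0 : ℤ) n ⊆ Finset.Ico (-g) 0 := by
        intro x hx
        simp only [Finset.mem_sdiff, Finset.mem_Ico] at hx ⊢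
        constructor <;> lia
      have := Finset.card_le_card h3
      rw [Int.card_Ico] at this
      lia
    · have h3 : Finset.Ico (-g) ((n : ℤ) - g) \ Finset.Ico (0 : ℤ) n ⊆ Finset.Ico (n : ℤ) (n - g) := by
        intro x hx
        simp only [Finset.mem_sdiff, Finset.mem_Ico] at hx ⊢
        constructor <;> lia
      have := Finset.card_le_card h3
      rw [Int.card_Ico] at this
      lia
  · rcases le_total 0 g with h | h
    · have h3 : Finset.Ico (0 : ℤ) n \ Finset.Ico (-g) ((n : ℤ) - g) ⊆ Finset.Ico ((n : ℤ) - g) n := by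
        intro x hx
        simp only [Finset.mem_sdiff, Finset.mem_Ico] at hx ⊢
        constructor <;> lia
      have := Finset.card_le_card h3
      rw [Int.card_Ico] at this
      lia
    · have h3 : Finset.Ico (0 : ℤ) n \ Finset.Ico (-g) ((n : ℤ) - g) ⊆ Finset.Ico (0 : ℤ) (-g) := by
        intro x hx
        simp only [Finset.mem_sdiff, Finset.mem_Ico] at hx ⊢
        constructor <;> lia
      have := Finset.card_le_card h3
      rw [Int.card_Ico] at this
      lia

lemma amenable_int : Amenable ℤ := by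
  classical
  -- averages over `[0, n)`
  set U : Ultrafilter ℕ := Filter.hyperfilter ℕ with hU
  set q : Set ℤ → ℕ → ℝ := fun A n =>
    (((Finset.range n).filter (fun j : ℕ => (j : ℤ) ∈ A)).card : ℝ) / n with hq
  have hq01 : ∀ A n, q A n ∈ Set.Icc (0 : ℝ) 1 := by
    intro A n
    refine ⟨by positivity, ?_⟩
    rcases Nat.eq_zero_or_pos n with h | h
    · subst h; simp [hq]
    · have : (0 : ℝ) < n := by exact_mod_cast h
      rw [hq]
      rw [div_le_one this]
      have h2 := Finset.card_filter_le (Finset.range n) (fun j : ℕ => (j : ℤ) ∈ A)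
      rw [Finset.card_range] at h2
      exact_mod_cast h2
  have hlim : ∀ A, ∃ x : ℝ, Filter.Tendsto (q A) U (nhds x) := by
    intro A
    have hc : IsCompact (Set.Icc (0 : ℝ) 1) := isCompact_Icc
    have := hc.ultrafilter_le_nhds (U.map (q A)) (by
      rw [Ultrafilter.coe_map]
      exact Filter.le_principal_iff.mpr (Filter.mem_map.mpr (Filter.univ_mem' (hq01 A))))
    obtain ⟨x, _, hx⟩ := this
    exact ⟨x, hx⟩
  choose m hm using hlim
  have hU_top : (U : Filter ℕ) ≤ Filter.atTop := by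
    rw [hU]
    exact (Filter.hyperfilter_le_cofinite).trans (le_of_eq Nat.cofinite_eq_atTop)
  refine ⟨m, ?_, ?_, ?_, ?_⟩
  · intro A
    exact ge_of_tendsto (hm A) (Filter.Eventually.of_forall fun n => (hq01 A n).1)
  · have h1 : ∀ᶠ n in (U : Filter ℕ), q Set.univ n = 1 := by
      refine hU_top ?_
      filter_upwards [Filter.eventually_gt_atTop 0] with n hn
      have : (n : ℝ) ≠ 0 := by exact_mod_cast hn.ne'
      simp [hq, this]
    exact tendsto_nhds_unique ((hm Set.univ).congr' h1) tendsto_const_nhds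
  · intro A B hAB
    have h1 : ∀ n, q (A ∪ B) n = q A n + q B n := by
      intro n
      rw [hq]
      simp only
      rw [← add_div]
      congr 1
      rw [← Nat.cast_add, ← Finset.card_union_of_disjoint]
      · congr 1
        congr 1
        ext j
        simp only [Finset.mem_filter, Finset.mem_range, Finset.mem_union, Set.mem_union]
        tauto
      · rw [Finset.disjoint_left]
        intro j hj hj2
        rw [Finset.mem_filter] at hj hj2
        exact Set.disjoint_left.mp hAB hj.2 hj2.2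
    have h2 := (hm A).add (hm B)
    exact tendsto_nhds_unique ((hm (A ∪ B)).congr h1) h2
  · intro g A
    -- the counts differ by at most `2|g|`
    have h1 : ∀ n : ℕ, |(((Finset.range n).filter (fun j : ℕ => (j : ℤ) ∈ (fun x => g + x) '' A)).card : ℝ)
        - (((Finset.range n).filter (fun j : ℕ => (j : ℤ) ∈ A)).card : ℝ)| ≤ g.natAbs := by
      intro n
      convert count_diff g A n
    have h2 : Filter.Tendsto (fun n => q ((fun x => g + x) '' A) n - q A n) U (nhds 0) := by
      have h3 : Filter.Tendsto (fun n : ℕ => (g.natAbs : ℝ) / n) U (nhds 0) :=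
        (tendsto_const_div_atTop_nhds_zero_nat _).mono_left hU_top
      refine squeeze_zero_norm (fun n => ?_) h3
      rw [hq]
      simp only
      rw [← sub_div, norm_div, Real.norm_eq_abs, Real.norm_eq_abs, Nat.abs_cast]
      exact div_le_div_of_nonneg_right (h1 n) (by positivity)
    have h4 := (hm ((fun x => g + x) '' A)).sub (hm A)
    have h5 := tendsto_nhds_unique h4 h2
    linarith

end Pool.Agent.Q84.WZ
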