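import Mathlib

set_option autoImplicit false

namespace Q84.ZetaTrace

open Matrix

variable {ι : Type*} [Fintype ι] [DecidableEq ι]

/-- Squared Hilbert-Schmidt norm. -/
noncomputable def hs (X : Matrix ι ι ℂ) : ℝ := ∑ i, ∑ j, ‖X i j‖ ^ 2

lemma hs_nonneg (X : Matrix ι ι ℂ) : 0 ≤ hs X := by
  unfold hs; positivity

lemma trace_mul_conjTranspose_eq (X : Matrix ι ι ℂ) : trace (X * Xᴴ) = (hs X : ℂ) := by
  unfold hs
  simp only [Matrix.trace, Matrix.diag_apply, Matrix.mul_apply, Matrix.conjTranspose_apply]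
  push_cast
  refine Finset.sum_congr rfl fun i _ => Finset.sum_congr rfl fun j _ => ?_
  rw [Complex.star_def, Complex.mul_conj, Complex.normSq_eq_norm_sq]
  push_cast
  rfl

lemma norm_trace_mul_sq_le (X Y : Matrix ι ι ℂ) : ‖trace (X * Y)‖ ^ 2 ≤ hs X * hs Y := by
  have h1 : ‖trace (X * Y)‖ ≤ ∑ p : ι × ι, ‖X p.1 p.2‖ * ‖Y p.2 p.1‖ := by
    simp only [Matrix.trace, Matrix.diag_apply, Matrix.mul_apply]
    rw [Fintype.sum_prod_type]
    refine (norm_sum_le _ _).trans (Finset.sum_le_sum fun i _ => ?_)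
    refine (norm_sum_le _ _).trans (Finset.sum_le_sum fun j _ => ?_)
    rw [norm_mul]
  have h2 : (∑ p : ι × ι, ‖X p.1 p.2‖ * ‖Y p.2 p.1‖) ^ 2
      ≤ (∑ p : ι × ι, ‖X p.1 p.2‖ ^ 2) * (∑ p : ι × ι, ‖Y p.2 p.1‖ ^ 2) :=
    Finset.sum_mul_sq_le_sq_mul_sq _ _ _
  have h3 : (∑ p : ι × ι, ‖X p.1 p.2‖ ^ 2) = hs X := by
    rw [Fintype.sum_prod_type]; rfl
  have h4 : (∑ p : ι × ι, ‖Y p.2 p.1‖ ^ 2) = hs Y := by
    rw [Fintype.sum_prod_type_right]; rfl
  calc ‖trace (X * Y)‖ ^ 2 ≤ (∑ p : ι × ι, ‖X p.1 p.2‖ * ‖Y p.2 p.1‖) ^ 2 := by gcongr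
    _ ≤ _ := h2
    _ = hs X * hs Y := by rw [h3, h4]

/-- The letter attached to a boolean. -/
noncomputable def hb (h : ι → ℂ) (b : Bool) : Matrix ι ι ℂ := if b then diagonal h else 1

lemma hs_mul_hb_le (h : ι → ℂ) (hh : ∀ i, ‖h i‖ ≤ 1) (b : Bool) (X : Matrix ι ι ℂ) :
    hs (X * hb h b) ≤ hs X := by
  unfold hb
  cases b
  · simp
  · simp only [if_true]
    unfold hs
    refine Finset.sum_le_sum fun i _ => Finset.sum_le_sum fun j _ => ?_
    rw [Matrix.mul_diagonal, norm_mul]
    have := hh j
    have h0 := norm_nonneg (h j)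
    have h1 := norm_nonneg (X i j)
    nlinarith [mul_nonneg h1 h0, mul_nonneg h1 (sub_nonneg.2 this),
      mul_le_mul_of_nonneg_left this h1, sq_nonneg (‖X i j‖)]

/-- Word product. -/
noncomputable def wd (A : Matrix ι ι ℂ) (h : ι → ℂ) (l : List Bool) : Matrix ι ι ℂ :=
  (l.map (fun b => A * hb h b)).prod

lemma wd_append (A : Matrix ι ι ℂ) (h : ι → ℂ) (l m : List Bool) :
    wd A h (l ++ m) = wd A h l * wd A h m := by
  unfold wd; rw [List.map_append, List.prod_append]

lemma wd_cons (A : Matrix ι ι ℂ) (h : ι → ℂ) (b : Bool) (m : List Bool) :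
    wd A h (b :: m) = A * hb h b * wd A h m := by
  unfold wd; rw [List.map_cons, List.prod_cons]

lemma wd_singleton (A : Matrix ι ι ℂ) (h : ι → ℂ) (b : Bool) :
    wd A h [b] = A * hb h b := by
  unfold wd; simp

lemma hb_conj (h : ι → ℂ) (hr : ∀ i, star (h i) = h i) (b : Bool) : (hb h b)ᴴ = hb h b := by
  unfold hb
  cases b
  · simp
  · simp only [if_true]
    rw [Matrix.diagonal_conjTranspose]
    congr 1
    funext i
    exact hr i

lemma wd_mul_conj (A : Matrix ι ι ℂ) (hA : Aᴴ = A) (h : ι → ℂ) (hr : ∀ i, star (h i) = h i)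
    (l : List Bool) : (wd A h l * A)ᴴ = wd A h l.reverse * A := by
  induction l with
  | nil => simp [wd, hA]
  | cons b l ih =>
    rw [wd_cons, List.reverse_cons, wd_append, wd_singleton, Matrix.mul_assoc (A * hb h b),
      Matrix.conjTranspose_mul, ih, Matrix.conjTranspose_mul, hA, hb_conj h hr]
    simp only [Matrix.mul_assoc]

lemma trace_refl (A : Matrix ι ι ℂ) (hA : Aᴴ = A) (h : ι → ℂ) (hr : ∀ i, star (h i) = h i)
    (l : List Bool) :
    trace (wd A h (l ++ false :: (l.reverse ++ [false]))) = (hs (wd A h l * A) : ℂ) := by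
  rw [← trace_mul_conjTranspose_eq, wd_mul_conj A hA h hr, wd_append, wd_cons, wd_append,
    wd_singleton]
  simp only [hb, Bool.false_eq_true, if_false, Matrix.mul_one, Matrix.mul_assoc]

lemma norm_trace_split (A : Matrix ι ι ℂ) (hA : Aᴴ = A) (h : ι → ℂ)
    (hr : ∀ i, star (h i) = h i) (hh : ∀ i, ‖h i‖ ≤ 1) (l m : List Bool) (b c : Bool) :
    ‖trace (wd A h (l ++ b :: (m ++ [c])))‖ ^ 2 ≤
      ‖trace (wd A h (l ++ false :: (l.reverse ++ [false])))‖ *
      ‖trace (wd A h (m ++ false :: (m.reverse ++ [false])))‖ := by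
  rw [trace_refl A hA h hr, trace_refl A hA h hr]
  rw [Complex.norm_of_nonneg (hs_nonneg _), Complex.norm_of_nonneg (hs_nonneg _)]
  have e : wd A h (l ++ b :: (m ++ [c])) = (wd A h l * A * hb h b) * (wd A h m * A * hb h c) := by
    rw [wd_append, wd_cons, wd_append, wd_singleton]
    simp only [Matrix.mul_assoc]
  rw [e]
  refine (norm_trace_mul_sq_le _ _).trans ?_
  exact mul_le_mul (hs_mul_hb_le h hh b _) (hs_mul_hb_le h hh c _) (hs_nonneg _) (hs_nonneg _)

lemma trace_rot (A : Matrix ι ι ℂ) (h : ι → ℂ) (u v : List Bool) :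
    trace (wd A h (u ++ v)) = trace (wd A h (v ++ u)) := by
  rw [wd_append, wd_append, Matrix.trace_mul_comm]

theorem norm_trace_word_le (A : Matrix ι ι ℂ) (hA : Aᴴ = A) (h : ι → ℂ)
    (hr : ∀ i, star (h i) = h i) (hh : ∀ i, ‖h i‖ ≤ 1) (k : ℕ) (hk : 1 ≤ k)
    (l : List Bool) (hl : l.length = 2 * k) :
    ‖trace (wd A h l)‖ ≤ ‖trace (A ^ (2 * k))‖ := by
  set T : List Bool → ℝ := fun l => ‖trace (wd A h l)‖ with hT
  have hfin : {l : List Bool | l.length = 2 * k}.Finite := List.finite_length_eq Bool (2 * k)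
  set S : Finset (List Bool) := hfin.toFinset with hS
  have memS : ∀ l, l ∈ S ↔ l.length = 2 * k := by intro l; simp [hS]
  have hSne : S.Nonempty := ⟨l, (memS l).2 hl⟩
  obtain ⟨l1, hl1, hmax⟩ := Finset.exists_max_image S T hSne
  have hS'ne : (S.filter (fun l => T l = T l1)).Nonempty := ⟨l1, by simp [hl1]⟩
  obtain ⟨l2, hl2, hmax2⟩ := Finset.exists_max_image (S.filter (fun l => T l = T l1))
    (fun l => l.count false) hS'ne
  rw [Finset.mem_filter] at hl2
  have hl2len := (memS l2).1 hl2.1
  have hlS := hmax l ((memS l).2 hl)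
  by_cases h0 : T l1 = 0
  · have : T l ≤ 0 := by rw [← h0]; exact hlS
    exact this.trans (norm_nonneg _)
  have hpos : 0 < T l1 := lt_of_le_of_ne (norm_nonneg _) (Ne.symm h0)
  have key : ∀ b ∈ l2, b = false := by
    intro b hb
    cases b with
    | false => rfl
    | true =>
      exfalso
      obtain ⟨u, v, huv⟩ := List.append_of_mem hb
      -- rotate
      have hlen : (v ++ u).length = 2 * k - 1 := by
        have : l2.length = u.length + (v.length + 1) := by rw [huv]; simp
        simp only [List.length_append]; omega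
      have hrot : T (v ++ u ++ [true]) = T l1 := by
        rw [← hl2.2, huv]
        have : u ++ true :: v = (u ++ [true]) ++ v := by simp
        simp only [hT]
        rw [this, trace_rot A h (u ++ [true]) v, List.append_assoc]
      -- split
      set w := v ++ u with hw
      set w1 := w.take (k - 1) with hw1
      have hdrop : (w.drop (k - 1)).length = k := by
        rw [List.length_drop, hlen]; omega
      obtain ⟨b1, w2, hbw⟩ : ∃ b1 w2, w.drop (k - 1) = b1 :: w2 := by
        cases hd : w.drop (k - 1) with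
        | nil => rw [hd] at hdrop; simp at hdrop; omega
        | cons b1 w2 => exact ⟨b1, w2, rfl⟩
      have hwsplit : w = w1 ++ b1 :: w2 := by
        rw [← hbw, hw1, List.take_append_drop]
      have hw1len : w1.length = k - 1 := by
        rw [hw1, List.length_take, hlen]; omega
      have hw2len : w2.length = k - 1 := by
        rw [hbw] at hdrop; simp at hdrop; omega
      have hineq := norm_trace_split A hA h hr hh w1 w2 b1 true
      have e1 : w1 ++ b1 :: (w2 ++ [true]) = w ++ [true] := by rw [hwsplit]; simp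
      rw [e1] at hineq
      have hR1 : (w1 ++ false :: (w1.reverse ++ [false])) ∈ S := by
        rw [memS]; simp [hw1len]; omega
      have hR2 : (w2 ++ false :: (w2.reverse ++ [false])) ∈ S := by
        rw [memS]; simp [hw2len]; omega
      have hb1 := hmax _ hR1
      have hb2 := hmax _ hR2
      have hineq' : T l1 ^ 2 ≤ T (w1 ++ false :: (w1.reverse ++ [false])) *
          T (w2 ++ false :: (w2.reverse ++ [false])) := by
        rw [← hrot]; exact hineq
      have hn1 : 0 ≤ T (w1 ++ false :: (w1.reverse ++ [false])) := norm_nonneg _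
      have hn2 : 0 ≤ T (w2 ++ false :: (w2.reverse ++ [false])) := norm_nonneg _
      have hq1 : T (w1 ++ false :: (w1.reverse ++ [false])) = T l1 := by
        apply le_antisymm hb1
        by_contra hcon
        push Not at hcon
        nlinarith
      have hq2 : T (w2 ++ false :: (w2.reverse ++ [false])) = T l1 := by
        apply le_antisymm hb2
        by_contra hcon
        push Not at hcon
        nlinarith
      have hc1 := hmax2 _ (Finset.mem_filter.2 ⟨hR1, hq1⟩)
      have hc2 := hmax2 _ (Finset.mem_filter.2 ⟨hR2, hq2⟩)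
      have hcount : l2.count false = w1.count false + (List.count false [b1] + w2.count false) := by
        have h1 : l2.count false = u.count false + v.count false := by
          rw [huv, List.count_append, List.count_cons]; simp
        have h2 : w.count false = v.count false + u.count false := by
          rw [hw, List.count_append]
        have h3 : w.count false = w1.count false + (List.count false [b1] + w2.count false) := by
          rw [hwsplit, List.count_append, ← List.singleton_append, List.count_append]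
        omega
      simp only [List.count_append, List.count_cons, List.count_reverse, List.count_nil,
        beq_self_eq_true, if_true] at hc1 hc2
      have hcb : List.count false [b1] ≤ 1 := by
        refine List.count_le_length.trans ?_
        simp
      omega
  have hl2eq : l2 = List.replicate (2 * k) false := by
    rw [List.eq_replicate_iff]; exact ⟨hl2len, key⟩
  have hTl2 : T l2 = ‖trace (A ^ (2 * k))‖ := by
    simp only [hT]
    rw [hl2eq, wd, List.map_replicate, List.prod_replicate]
    simp [hb]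
  rw [← hTl2, hl2.2]
  exact hlS

theorem trace_pow_even_eq (A : Matrix ι ι ℂ) (hA : Aᴴ = A) (k : ℕ) :
    trace (A ^ (2 * k)) = (hs (A ^ k) : ℂ) := by
  rw [← trace_mul_conjTranspose_eq, Matrix.conjTranspose_pow, hA, ← pow_add, two_mul]

/-- Main trace inequality. -/
theorem trace_ineq (A : Matrix ι ι ℂ) (hA : Aᴴ = A) (h : ι → ℂ)
    (hr : ∀ i, star (h i) = h i) (hh : ∀ i, ‖h i‖ ≤ 1) (k : ℕ) (hk : 1 ≤ k) :
    ∃ r : ℝ, 0 ≤ r ∧
      trace (A ^ (2 * k)) - trace ((A * diagonal h) ^ (2 * k)) = (r : ℂ) := by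
  have h1 := norm_trace_word_le A hA h hr hh k hk (List.replicate (2 * k) true) (by simp)
  have h2 : wd A h (List.replicate (2 * k) true) = (A * diagonal h) ^ (2 * k) := by
    rw [wd, List.map_replicate, List.prod_replicate]; simp [hb]
  rw [h2, trace_pow_even_eq A hA, Complex.norm_of_nonneg (hs_nonneg _)] at h1
  have h3 : star (trace ((A * diagonal h) ^ (2 * k))) = trace ((A * diagonal h) ^ (2 * k)) := by
    rw [← Matrix.trace_conjTranspose, Matrix.conjTranspose_pow, Matrix.conjTranspose_mul, hA,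
      Matrix.diagonal_conjTranspose]
    have : (star h : ι → ℂ) = h := by funext i; exact hr i
    rw [this]
    obtain ⟨n, hn⟩ : ∃ n, 2 * k = n + 1 := ⟨2 * k - 1, by omega⟩
    rw [hn]
    have e : ∀ n : ℕ, (diagonal h * A) ^ (n + 1) = diagonal h * ((A * diagonal h) ^ n * A) := by
      intro n
      induction n with
      | zero => simp
      | succ n ih =>
        rw [pow_succ, ih, pow_succ]
        simp only [Matrix.mul_assoc]
    rw [e, Matrix.trace_mul_comm, Matrix.mul_assoc, ← pow_succ]
  obtain ⟨t, ht⟩ : ∃ t : ℝ, (t : ℂ) = trace ((A * diagonal h) ^ (2 * k)) := by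
    rw [Complex.star_def] at h3
    exact (Complex.conj_eq_iff_real.1 h3).imp fun r hr => hr.symm
  refine ⟨hs (A ^ k) - t, ?_, ?_⟩
  · rw [← ht, Complex.norm_real, Real.norm_eq_abs] at h1
    have := le_abs_self t
    linarith
  · rw [trace_pow_even_eq A hA, ← ht]; push_cast; ring

end Q84.ZetaTrace
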