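import Mathlib

set_option autoImplicit false

namespace Q84.ZetaWalk

open Matrix Finset

/-- running sums of a tuple -/
noncomputable def S {n : ℕ} (j : Fin n → ℤ) (i : Fin n) : ℤ := ∑ l ∈ Finset.Iio i, j l

/-- the box -/
noncomputable def F (M : ℕ) (n : ℕ) : Finset (Fin n → ℤ) :=
  Fintype.piFinset (fun _ : Fin n => Finset.Icc (-(M : ℤ)) M)

lemma S_cons_zero {n : ℕ} (d : ℤ) (j : Fin n → ℤ) : S (Fin.cons d j : Fin (n + 1) → ℤ) 0 = 0 := by
  unfold S
  apply Finset.sum_eq_zero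
  intro l hl
  simp at hl

lemma S_eq {n : ℕ} (j : Fin n → ℤ) (i : Fin n) : S j i = ∑ l, if l < i then j l else 0 := by
  unfold S
  rw [← Finset.sum_filter]
  congr 1
  ext l; simp

lemma S_cons_succ {n : ℕ} (d : ℤ) (j : Fin n → ℤ) (i : Fin n) :
    S (Fin.cons d j : Fin (n + 1) → ℤ) i.succ = d + S j i := by
  rw [S_eq, S_eq, Fin.sum_univ_succ]
  simp [Fin.succ_pos]

/-- weight of a walk -/
noncomputable def P (c g : ℤ → ℂ) (M n : ℕ) (x y : ℤ) : ℂ :=
  ∑ j ∈ F M n, if ∑ i, j i = y - x then ∏ i, (g (x + S j i) * c (j i)) else 0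

lemma P_zero (c g : ℤ → ℂ) (M : ℕ) (x y : ℤ) : P c g M 0 x y = if x = y then 1 else 0 := by
  unfold P F
  simp only [Finset.univ_eq_empty, Finset.sum_empty, Finset.prod_empty]
  rw [Fintype.piFinset_of_isEmpty]
  simp only [Finset.univ_unique, Finset.sum_const, Finset.card_singleton, one_smul]
  by_cases h : x = y
  · simp [h]
  · have : ¬ (0 = y - x) := by omega
    simp [h, this]

lemma P_succ (c g : ℤ → ℂ) (M n : ℕ) (x y : ℤ) :
    P c g M (n + 1) x y = ∑ d ∈ Finset.Icc (-(M : ℤ)) M, g x * c d * P c g M n (x + d) y := by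
  unfold P
  have : ∀ d, g x * c d * (∑ j ∈ F M n, if ∑ i, j i = y - (x + d) then
      ∏ i, (g (x + d + S j i) * c (j i)) else 0) =
      ∑ j ∈ F M n, if ∑ i, (Fin.cons d j : Fin (n + 1) → ℤ) i = y - x then
        ∏ i, (g (x + S (Fin.cons d j : Fin (n + 1) → ℤ) i) *
          c ((Fin.cons d j : Fin (n + 1) → ℤ) i)) else 0 := by
    intro d
    rw [Finset.mul_sum]
    refine Finset.sum_congr rfl fun j _ => ?_
    rw [Fin.sum_univ_succ, Fin.prod_univ_succ]
    simp only [Fin.cons_zero, Fin.cons_succ, S_cons_zero, S_cons_succ, add_zero]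
    by_cases h : ∑ i, j i = y - (x + d)
    · have h' : d + ∑ i, j i = y - x := by omega
      rw [if_pos h, if_pos h']
      simp only [add_assoc]
    · have h' : ¬ (d + ∑ i, j i = y - x) := by omega
      rw [if_neg h, if_neg h', mul_zero]
  simp_rw [this]
  rw [← Finset.sum_product']
  symm
  refine Finset.sum_bij' (fun (p : ℤ × (Fin n → ℤ)) _ => (Fin.cons p.1 p.2 : Fin (n + 1) → ℤ))
    (fun j _ => (j 0, Fin.tail j)) ?_ ?_ ?_ ?_ ?_
  · rintro ⟨d, j⟩ hp
    rw [Finset.mem_product] at hp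
    unfold F at *
    rw [Fintype.mem_piFinset] at *
    intro i
    refine Fin.cases ?_ ?_ i
    · simpa using hp.1
    · intro i
      have := hp.2
      simpa using this i
  · intro j hj
    unfold F at *
    rw [Fintype.mem_piFinset] at hj
    rw [Finset.mem_product, Fintype.mem_piFinset]
    exact ⟨hj 0, fun i => hj i.succ⟩
  · rintro ⟨d, j⟩ _
    simp
  · intro j _
    simp
  · rintro ⟨d, j⟩ _
    rfl

lemma P_eq_zero (c g : ℤ → ℂ) (W : Finset ℤ) (hg : ∀ x, x ∉ W → g x = 0) (M n : ℕ) (x y : ℤ)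
    (hx : x ∉ W) (hy : y ∈ W) : P c g M n x y = 0 := by
  cases n with
  | zero =>
    rw [P_zero, if_neg]
    rintro rfl; exact hx hy
  | succ n =>
    rw [P_succ]
    simp [hg x hx]

/-- truncated coefficient -/
noncomputable def tr (c : ℤ → ℂ) (M : ℕ) (d : ℤ) : ℂ :=
  if d ∈ Finset.Icc (-(M : ℤ)) M then c d else 0

theorem P_eq_pow (c g : ℤ → ℂ) (W : Finset ℤ) (hg : ∀ x, x ∉ W → g x = 0) (M n : ℕ)
    (x y : W) :
    ((Matrix.of fun (x y : W) => g x * tr c M ((y : ℤ) - x)) ^ n) x y = P c g M n x y := by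
  induction n generalizing x with
  | zero =>
    rw [P_zero, pow_zero, Matrix.one_apply]
    by_cases h : x = y
    · rw [if_pos h, if_pos (by rw [h])]
    · rw [if_neg h, if_neg (fun hc => h (Subtype.ext hc))]
  | succ n ih =>
    rw [pow_succ', Matrix.mul_apply, P_succ]
    simp_rw [ih]
    simp only [Matrix.of_apply]
    rw [Finset.sum_coe_sort W (fun z => g x * tr c M (z - x) * P c g M n z y)]
    have h1 : ∑ d ∈ Finset.Icc (-(M : ℤ)) M, g x * c d * P c g M n (x + d) y
        = ∑ z ∈ (Finset.Icc (-(M : ℤ)) M).map (addLeftEmbedding (x : ℤ)),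
          g x * tr c M (z - x) * P c g M n z y := by
      rw [Finset.sum_map]
      refine Finset.sum_congr rfl fun d hd => ?_
      simp only [addLeftEmbedding_apply, add_sub_cancel_left, tr, if_pos hd]
    rw [h1]
    set V := (Finset.Icc (-(M : ℤ)) M).map (addLeftEmbedding (x : ℤ)) with hV
    have h2 : ∑ z ∈ W, g x * tr c M (z - x) * P c g M n z y
        = ∑ z ∈ W ∪ V, g x * tr c M (z - x) * P c g M n z y := by
      apply Finset.sum_subset Finset.subset_union_left
      intro z _ hz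
      rw [P_eq_zero c g W hg M n z y hz y.2, mul_zero]
    have h3 : ∑ z ∈ V, g x * tr c M (z - x) * P c g M n z y
        = ∑ z ∈ W ∪ V, g x * tr c M (z - x) * P c g M n z y := by
      apply Finset.sum_subset Finset.subset_union_right
      intro z _ hz
      have : tr c M (z - x) = 0 := by
        unfold tr
        rw [if_neg]
        intro hcon
        apply hz
        rw [hV, Finset.mem_map]
        exact ⟨z - x, hcon, by simp⟩
      rw [this, mul_zero, zero_mul]
    rw [h2, h3]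

theorem trace_eq (c g : ℤ → ℂ) (W : Finset ℤ) (hg : ∀ x, x ∉ W → g x = 0) (M n : ℕ) :
    trace ((Matrix.of fun (x y : W) => g x * tr c M ((y : ℤ) - x)) ^ n) =
      ∑ j ∈ (F M n).filter (fun j => ∑ i, j i = 0), ∑ x ∈ W,
        (∏ i, g (x + S j i)) * ∏ i, c (j i) := by
  simp only [Matrix.trace, Matrix.diag_apply]
  simp_rw [P_eq_pow c g W hg M n]
  rw [Finset.sum_coe_sort W (fun z => P c g M n z z)]
  unfold P
  rw [Finset.sum_comm, Finset.sum_filter]
  refine Finset.sum_congr rfl fun j _ => ?_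
  by_cases h : ∑ i, j i = 0
  · rw [if_pos h]
    refine Finset.sum_congr rfl fun x _ => ?_
    rw [sub_self, if_pos h, Finset.prod_mul_distrib]
  · rw [if_neg h]
    refine Finset.sum_eq_zero fun x _ => ?_
    rw [sub_self, if_neg h]

lemma S_abs_le {n : ℕ} (M : ℕ) (j : Fin n → ℤ) (hj : j ∈ F M n) (i : Fin n) :
    |S j i| ≤ n * M := by
  unfold S
  unfold F at hj
  rw [Fintype.mem_piFinset] at hj
  refine (Finset.abs_sum_le_sum_abs _ _).trans ?_
  have h1 : ∑ l ∈ Finset.Iio i, |j l| ≤ ∑ l ∈ Finset.Iio i, (M : ℤ) := by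
    refine Finset.sum_le_sum fun l _ => ?_
    have := hj l
    rw [Finset.mem_Icc] at this
    exact abs_le.2 this
  refine h1.trans ?_
  rw [Finset.sum_const, nsmul_eq_mul]
  have h2 : (Finset.Iio i).card ≤ n := by
    refine (Finset.card_le_univ _).trans ?_
    simp
  have h3 : ((Finset.Iio i).card : ℤ) ≤ n := by exact_mod_cast h2
  exact mul_le_mul_of_nonneg_right h3 (by positivity)

lemma prod_nonneg_of_far {k : ℕ} (M : ℕ) (j : Fin (2 * k) → ℤ) (hj : j ∈ F M (2 * k)) (x : ℤ)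
    (h : 2 * (2 * k * M : ℤ) < |x|) : 0 ≤ ∏ i, (x + S j i) := by
  have hS := fun i => S_abs_le M j hj i
  push_cast at hS
  have hkM : (0 : ℤ) ≤ 2 * k * M := by positivity
  rcases le_or_gt 0 x with hx | hx
  · rw [abs_of_nonneg hx] at h
    apply Finset.prod_nonneg
    intro i _
    have := neg_le_of_abs_le (hS i)
    linarith
  · rw [abs_of_neg hx] at h
    have : ∏ i, (x + S j i) = ∏ i, (-(x + S j i)) := by
      rw [Finset.prod_neg]
      simp
    rw [this]
    apply Finset.prod_nonneg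
    intro i _
    have := le_of_abs_le (hS i)
    linarith

/-- far even at an intermediate point. -/
lemma prod_nonneg_of_far' {k : ℕ} (M : ℕ) (j : Fin (2 * k) → ℤ) (hj : j ∈ F M (2 * k)) (x : ℤ)
    (i0 : Fin (2 * k)) (h : 2 * (2 * k * M : ℤ) < |x + S j i0|) : 0 ≤ ∏ i, (x + S j i) := by
  have hS := fun i => S_abs_le M j hj i
  push_cast at hS
  have hkM : (0 : ℤ) ≤ 2 * k * M := by positivity
  have h0 := abs_le.1 (hS i0)
  rcases le_or_gt 0 (x + S j i0) with hx | hx
  · rw [abs_of_nonneg hx] at h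
    apply Finset.prod_nonneg
    intro i _
    have := neg_le_of_abs_le (hS i)
    linarith
  · rw [abs_of_neg hx] at h
    have : ∏ i, (x + S j i) = ∏ i, (-(x + S j i)) := by
      rw [Finset.prod_neg]
      simp
    rw [this]
    apply Finset.prod_nonneg
    intro i _
    have := le_of_abs_le (hS i)
    linarith

/-- windowed identity -/
noncomputable def gi (N : ℕ) (x : ℤ) : ℤ := if x ∈ Finset.Icc (-(N : ℤ)) N then x else 0

theorem finsum_eq {k : ℕ} (hk : 1 ≤ k) (M : ℕ) (j : Fin (2 * k) → ℤ) (hj : j ∈ F M (2 * k)) :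
    ∑ᶠ n : ℤ, (|∏ i : Fin (2 * k), (n + S j i)| - ∏ i : Fin (2 * k), (n + S j i))
      = ∑ x ∈ Finset.Icc (-((4 * k * M : ℕ) : ℤ)) (4 * k * M : ℕ),
        ((∏ i, |gi (4 * k * M) (x + S j i)|) - ∏ i, gi (4 * k * M) (x + S j i)) := by
  have hN : ((4 * k * M : ℕ) : ℤ) = 2 * (2 * k * M : ℤ) := by push_cast; ring
  rw [finsum_eq_sum_of_support_subset (s := Finset.Icc (-((4 * k * M : ℕ) : ℤ)) (4 * k * M : ℕ))]
  · refine Finset.sum_congr rfl fun x hx => ?_
    by_cases hall : ∀ i, (x + S j i) ∈ Finset.Icc (-((4 * k * M : ℕ) : ℤ)) (4 * k * M : ℕ)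
    · have : ∀ i, gi (4 * k * M) (x + S j i) = x + S j i := by
        intro i; unfold gi; rw [if_pos (hall i)]
      simp_rw [this]
      rw [Finset.abs_prod]
    · push Not at hall
      obtain ⟨i0, hi0⟩ := hall
      have h1 : 0 ≤ ∏ i, (x + S j i) := by
        apply prod_nonneg_of_far' M j hj x i0
        rw [← hN]
        by_contra hcon
        apply hi0
        rw [Finset.mem_Icc]
        exact abs_le.1 (not_lt.1 hcon)
      have h2 : gi (4 * k * M) (x + S j i0) = 0 := by unfold gi; rw [if_neg hi0]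
      rw [abs_of_nonneg h1, sub_self,
        Finset.prod_eq_zero (f := fun i => |gi (4 * k * M) (x + S j i)|)
          (Finset.mem_univ i0) (by simp only [h2, abs_zero]),
        Finset.prod_eq_zero (Finset.mem_univ i0) h2, sub_zero]
  · intro x hx
    rw [Function.mem_support] at hx
    by_contra hcon
    apply hx
    have h1 : 0 ≤ ∏ i, (x + S j i) := by
      apply prod_nonneg_of_far M j hj x
      rw [← hN]
      by_contra hc
      apply hcon
      rw [Finset.coe_Icc, Set.mem_Icc]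
      exact abs_le.1 (not_lt.1 hc)
    rw [abs_of_nonneg h1, sub_self]

theorem sum_eq_trace {k : ℕ} (hk : 1 ≤ k) (M : ℕ) (c : ℤ → ℂ) :
    ∑ j ∈ (F M (2 * k)).filter (fun j => ∑ i, j i = 0),
      (((∑ᶠ n : ℤ, (|∏ i : Fin (2 * k), (n + S j i)| - ∏ i : Fin (2 * k), (n + S j i)) : ℤ)) : ℂ)
        * ∏ i, c (j i)
    = trace ((Matrix.of fun (x y : Finset.Icc (-((4 * k * M : ℕ) : ℤ)) (4 * k * M : ℕ)) =>
        ((|gi (4 * k * M) x| : ℤ) : ℂ) * tr c M ((y : ℤ) - x)) ^ (2 * k))
      - trace ((Matrix.of fun (x y : Finset.Icc (-((4 * k * M : ℕ) : ℤ)) (4 * k * M : ℕ)) =>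
        ((gi (4 * k * M) x : ℤ) : ℂ) * tr c M ((y : ℤ) - x)) ^ (2 * k)) := by
  have hg : ∀ x : ℤ, x ∉ Finset.Icc (-((4 * k * M : ℕ) : ℤ)) (4 * k * M : ℕ) →
      gi (4 * k * M) x = 0 := by
    intro x hx; unfold gi; rw [if_neg hx]
  rw [trace_eq c (fun x => ((|gi (4 * k * M) x| : ℤ) : ℂ)) _
    (fun x hx => by rw [hg x hx]; simp) M (2 * k),
    trace_eq c (fun x => ((gi (4 * k * M) x : ℤ) : ℂ)) _
    (fun x hx => by rw [hg x hx]; simp) M (2 * k), ← Finset.sum_sub_distrib]
  refine Finset.sum_congr rfl fun j hj => ?_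
  rw [Finset.mem_filter] at hj
  rw [finsum_eq hk M j hj.1, ← Finset.sum_sub_distrib]
  push_cast
  rw [Finset.sum_mul]
  refine Finset.sum_congr rfl fun x _ => ?_
  ring

lemma trace_pow_comm {ι : Type*} [Fintype ι] [DecidableEq ι] (X Y : Matrix ι ι ℂ) (n : ℕ) :
    trace ((X * Y) ^ n) = trace ((Y * X) ^ n) := by
  cases n with
  | zero => simp
  | succ n =>
    have e : ∀ n : ℕ, (X * Y) ^ (n + 1) = X * ((Y * X) ^ n * Y) := by
      intro n
      induction n with
      | zero => simp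
      | succ n ih =>
        rw [pow_succ, ih, pow_succ]
        simp only [Matrix.mul_assoc]
    rw [e, Matrix.trace_mul_comm, Matrix.mul_assoc, ← pow_succ]

end Q84.ZetaWalk
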